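import Pool.Agent.HBInd.Disc2

/-!
# Discretisation of a density, localised

Same proof as `exists_points_var` in `Pool.Agent.HBInd.Disc2` (same points `τ_n`: `A x = ∫_{-∞}^x q`, `N = ⌊A ∞⌋`,
`A (τ n) = n + 1`): the mass of `(τ_{n-1}, τ_n]` is `1`, so `|φ (τ n) - ∫ φ q| ≤ ∫ v` over these intervals, and the
remaining mass is `< 1`, where `|∫ φ q| ≤ K`. `N ≤ ∫ q`.
-/

namespace HBInf

open HBInd Filter Topology Set MeasureTheory

/-- the error on one interval of mass `1` -/
private lemma dsl_one_interval {p φ v : ℝ → ℝ} (hp : Continuous p) (hp0 : ∀ t, 0 ≤ p t) {a b : ℝ}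
    (hab : a ≤ b) (h1 : ∫ t in a..b, p t = 1) (hφ : Continuous φ) (hv : Continuous v)
    (hv0 : ∀ t, 0 ≤ v t) (hvar : ∀ s t, a ≤ s → s ≤ t → t ≤ b → |φ t - φ s| ≤ ∫ x in s..t, v x) :
    |φ b - ∫ t in a..b, φ t * p t| ≤ ∫ t in a..b, v t := by
  have hI : ∀ (f : ℝ → ℝ), Continuous f → ∀ x y : ℝ, IntervalIntegrable f volume x y :=
    fun f hf x y => hf.intervalIntegrable x y
  have e1 : φ b - ∫ t in a..b, φ t * p t = ∫ t in a..b, (φ b - φ t) * p t := by
    have e2 : ∫ t in a..b, (φ b - φ t) * p t = ∫ t in a..b, (φ b * p t - φ t * p t) := by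
      congr 1
      funext t
      ring
    rw [e2, intervalIntegral.integral_sub (hI _ (by fun_prop) _ _) (hI _ (by fun_prop) _ _),
      intervalIntegral.integral_const_mul, h1, mul_one]
  rw [e1]
  refine (intervalIntegral.abs_integral_le_integral_abs hab).trans ?_
  have e3 : ∀ t ∈ Icc a b, |(φ b - φ t) * p t| ≤ (∫ s in a..b, v s) * p t := by
    intro t ht
    rw [abs_mul, abs_of_nonneg (hp0 t)]
    refine mul_le_mul_of_nonneg_right ((hvar t b ht.1 ht.2 le_rfl).trans ?_) (hp0 t)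
    exact intervalIntegral.integral_mono_interval ht.1 ht.2 le_rfl
      (Filter.Eventually.of_forall fun s => hv0 s) (hI _ hv _ _)
  refine (intervalIntegral.integral_mono_on hab (hI _ (by fun_prop) _ _)
    (hI _ (by fun_prop) _ _) e3).trans ?_
  rw [intervalIntegral.integral_const_mul, h1, mul_one]

theorem exists_points_loc {q : ℝ → ℝ} (hq : Continuous q) (hq0 : ∀ t, 0 ≤ q t) {T T' : ℝ}
    (hT : T ≤ T') (hsupp : ∀ t, t ∉ Icc T T' → q t = 0) :
    ∃ (N : ℕ) (τ : Fin N → ℝ), (∀ n, τ n ∈ Icc T T') ∧ (N : ℝ) ≤ ∫ t, q t ∧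
      ∀ (φ v : ℝ → ℝ) (K : ℝ), Continuous φ → Continuous v → (∀ t, 0 ≤ v t) →
        (∀ s t, T ≤ s → s ≤ t → t ≤ T' → |φ t - φ s| ≤ ∫ x in s..t, v x) →
        (∀ t ∈ Icc T T', |φ t| ≤ K) →
        |∑ n, φ (τ n) - ∫ t, φ t * q t| ≤ (∫ x in T..T', v x) + K := by
  have hI : ∀ (f : ℝ → ℝ), Continuous f → ∀ x y : ℝ, IntervalIntegrable f volume x y :=
    fun f hf x y => hf.intervalIntegrable x y
  set A : ℝ → ℝ := fun x => ∫ t in T..x, q t with hA
  have hAc : Continuous A := intervalIntegral.continuous_primitive (fun x y => hI q hq x y) T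
  have hA0 : A T = 0 := by simp [hA]
  have hsub : ∀ x y, ∫ t in x..y, q t = A y - A x := fun x y =>
    (intervalIntegral.integral_interval_sub_left (hI q hq _ _) (hI q hq _ _)).symm
  have hAm : Monotone A := by
    intro x y hxy
    have h1 := hsub x y
    have h2 : 0 ≤ ∫ t in x..y, q t := intervalIntegral.integral_nonneg hxy fun t _ => hq0 t
    linarith
  have hA1 : 0 ≤ A T' := hA0 ▸ hAm hT
  set N : ℕ := ⌊A T'⌋₊ with hN
  have hN1 : (N : ℝ) ≤ A T' := Nat.floor_le hA1
  have hN2 : A T' < N + 1 := Nat.lt_floor_add_one _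
  have hex : ∀ j : ℕ, ∃ x, j ≤ N → x ∈ Icc T T' ∧ A x = j ∧ (j = 0 → x = T) := by
    intro j
    by_cases hj : j ≤ N
    · rcases Nat.eq_zero_or_pos j with rfl | hj0
      · exact ⟨T, fun _ => ⟨⟨le_rfl, hT⟩, by simpa using hA0, fun _ => rfl⟩⟩
      · have h1 : (j : ℝ) ∈ Icc (A T) (A T') := by
          rw [hA0]
          refine ⟨Nat.cast_nonneg _, le_trans ?_ hN1⟩
          exact_mod_cast hj
        obtain ⟨x, hx, hxj⟩ := intermediate_value_Icc hT hAc.continuousOn h1
        exact ⟨x, fun _ => ⟨hx, hxj, fun h => absurd h hj0.ne'⟩⟩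
    · exact ⟨T, fun h => absurd h hj⟩
  choose s hs using hex
  have hs0 : s 0 = T := (hs 0 (Nat.zero_le _)).2.2 rfl
  have hsmono : ∀ j, j < N → s j ≤ s (j + 1) := by
    intro j hj
    by_contra hcon
    push Not at hcon
    have h1 := hAm hcon.le
    rw [(hs j hj.le).2.1, (hs (j + 1) hj).2.1] at h1
    push_cast at h1
    linarith
  have hmass : ∀ j, j < N → ∫ t in s j..s (j + 1), q t = 1 := by
    intro j hj
    rw [hsub, (hs j hj.le).2.1, (hs (j + 1) hj).2.1]
    push_cast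
    ring
  have hsN : s N ∈ Icc T T' := (hs N le_rfl).1
  have hmassN : ∫ t in s N..T', q t ≤ 1 := by
    rw [hsub, (hs N le_rfl).2.1]
    linarith
  have htot : ∫ t, q t = A T' := by
    have h := integral_eq_interval (f := fun _ => (1 : ℝ)) hT hsupp
    simpa [hA] using h
  refine ⟨N, fun n => s (n + 1), fun n => (hs (n + 1) n.2).1, by rw [htot]; exact hN1, ?_⟩
  intro φ v K hφ hv hv0 hvar hK
  have hK0 : 0 ≤ K := (abs_nonneg _).trans (hK T ⟨le_rfl, hT⟩)
  have hII : ∀ x y : ℝ, IntervalIntegrable (fun t => φ t * q t) volume x y := fun x y =>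
    hI _ (by fun_prop) _ _
  have hsumV : ∑ n ∈ Finset.range N, ∫ t in s n..s (n + 1), v t ≤ ∫ x in T..T', v x := by
    rw [intervalIntegral.sum_integral_adjacent_intervals
      (fun k _ => hI _ (by fun_prop) _ _), hs0]
    exact intervalIntegral.integral_mono_interval le_rfl hsN.1 hsN.2
      (Filter.Eventually.of_forall fun t => hv0 t) (hI _ hv _ _)
  rw [integral_eq_interval hT hsupp,
    Fin.sum_univ_eq_sum_range (fun n => φ (s (n + 1))) N]
  have hsplit : ∫ t in T..T', φ t * q t =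
      (∑ n ∈ Finset.range N, ∫ t in s n..s (n + 1), φ t * q t) +
        ∫ t in s N..T', φ t * q t := by
    rw [intervalIntegral.sum_integral_adjacent_intervals (fun k _ => hII _ _), hs0,
      intervalIntegral.integral_add_adjacent_intervals (hII _ _) (hII _ _)]
  rw [hsplit]
  have h2 : |∑ n ∈ Finset.range N, (φ (s (n + 1)) - ∫ t in s n..s (n + 1), φ t * q t)| ≤
      ∫ x in T..T', v x := by
    refine (Finset.abs_sum_le_sum_abs _ _).trans (le_trans (Finset.sum_le_sum ?_) hsumV)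
    intro n hn
    have hn' := Finset.mem_range.1 hn
    refine dsl_one_interval hq hq0 (hsmono n hn') (hmass n hn') hφ hv hv0 ?_
    intro x y hx hxy hy
    exact hvar x y ((hs n hn'.le).1.1.trans hx) hxy (hy.trans (hs (n + 1) hn').1.2)
  have h3 : |∫ t in s N..T', φ t * q t| ≤ K := by
    refine (intervalIntegral.abs_integral_le_integral_abs hsN.2).trans ?_
    have h4 : ∀ t ∈ Icc (s N) T', |φ t * q t| ≤ K * q t := by
      intro t ht
      rw [abs_mul, abs_of_nonneg (hq0 t)]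
      exact mul_le_mul_of_nonneg_right (hK t ⟨hsN.1.trans ht.1, ht.2⟩) (hq0 t)
    refine (intervalIntegral.integral_mono_on hsN.2 (hI _ (by fun_prop) _ _)
      (hI _ (by fun_prop) _ _) h4).trans ?_
    rw [intervalIntegral.integral_const_mul]
    exact mul_le_of_le_one_right hK0 hmassN
  rw [Finset.sum_sub_distrib] at h2
  rw [abs_le] at h2 h3 ⊢
  constructor <;> linarith

end HBInf
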