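import Pool.Agent.HBInf.KnTools2
import Pool.Agent.HBInf.DiscLoc
import Pool.Agent.HBInd.Block2

/-!
# One block of zeros with a variable density, localised error

`exists_points_loc` with `q t = c t * e^{ρt}`, `T' = T + 2`, and `φ t = kq p δ (t₀ - t) ψ` (`continuous_kq`), for which
`∫ φ q = e^{ρ t₀} ∫ kq p δ u ψ e^{-ρu} c (t₀ - u) du` (`integral_change` in `Pool.Agent.HBInd.Block2`).
* If `|t₀ - T| ≤ 4`: `|φ t - φ s| ≤ (C'/δ) |t - s|` (`kd_lip` in both directions, `mp` bounded on `[-8, 8]`; in general by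
  subdivision, `var_of_local`), `|φ| ≤ |log δ| + C ≤ C/δ` (`δ‖w‖ ≤ max ≤ 1 + ‖w‖` and `‖w‖ = e^u` is bounded above and below).
* If `|t₀ - T| > 4`: for `t ∈ [T, T + 2]`, `|t₀ - t| ≥ 2`, so `kq p δ = kp = kq p (1/4)` there if `4 δ ≤ 1`, and
  (by `kq_sub`); `kd_lip` with `1/4`: `|φ t - φ s| ≤ ∫ C mp p (t₀ - x) dx`, `|φ| ≤ PhiP p (t₀ - t)`, and
  `mp p u ≤ e^{ρu} e^{-2 sg |u|}` (`mp_exp_le`), `PhiP p u = Psi p ρ u e^{ρu} ≤ C e^{ρu} e^{-sg |u|}` for `|u| ≥ 1` (`psi_le`).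
-/

namespace HBInf

open HBInd Complex Filter Topology Set MeasureTheory
open scoped Real ComplexConjugate

lemma bll_two {φ : ℝ → ℝ} {T V : ℝ}
    (h : ∀ s t, T ≤ s → s ≤ t → t ≤ T + 2 → t - s ≤ 1 → |φ t - φ s| ≤ V * (t - s)) :
    ∀ s t, T ≤ s → s ≤ t → t ≤ T + 2 → |φ t - φ s| ≤ ∫ x in s..t, (fun _ => V) x := by
  intro s t hs hst ht
  rw [intervalIntegral.integral_const, smul_eq_mul, mul_comm]
  have h1 := h s ((s + t) / 2) hs (by linarith) (by linarith) (by linarith)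
  have h2 := h ((s + t) / 2) t (by linarith) (by linarith) ht (by linarith)
  have h3 := abs_sub_le (φ t) (φ ((s + t) / 2)) (φ s)
  nlinarith

lemma bll_lip {C₀ : ℝ} (hC₀ : 0 < C₀) {p : ℕ} (hp : p ≤ 1)
    (hlip : ∀ (p : ℕ), p ≤ 1 → ∀ δ ∈ Ioo (0 : ℝ) 1, ∀ u u' ψ ψ' : ℝ,
      |u - u'| + |ψ - ψ'| ≤ 1 →
      kq p δ u ψ ≤ kq p δ u' ψ' + C₀ / δ * (|u - u'| + |ψ - ψ'|) * mp p u')
    {δ : ℝ} (hδ : δ ∈ Ioo (0 : ℝ) 1) (ψ : ℝ) {u u' M : ℝ} (h : |u - u'| ≤ 1)
    (hM : mp p u ≤ M) (hM' : mp p u' ≤ M) :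
    |kq p δ u ψ - kq p δ u' ψ| ≤ C₀ / δ * M * |u - u'| := by
  have hδ0 := hδ.1
  have b1 := hlip p hp δ hδ u u' ψ ψ (by rw [sub_self, abs_zero, add_zero]; exact h)
  have b2 := hlip p hp δ hδ u' u ψ ψ (by rw [sub_self, abs_zero, add_zero, abs_sub_comm]; exact h)
  rw [sub_self, abs_zero, add_zero] at b1 b2
  rw [abs_sub_comm u' u] at b2
  have hc : 0 ≤ C₀ / δ * |u - u'| := by positivity
  have m1 := mul_le_mul_of_nonneg_left hM hc
  have m2 := mul_le_mul_of_nonneg_left hM' hc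
  rw [abs_le]
  constructor <;> nlinarith

/-- the regularised kernel at bounded arguments -/
lemma bll_abs {p : ℕ} (hp : p ≤ 1) {δ : ℝ} (hδ : δ ∈ Ioo (0 : ℝ) 1) {u : ℝ} (h1 : -6 ≤ u) (h2 : u ≤ 4)
    (ψ : ℝ) : |kq p δ u ψ| ≤ (7 + 2 * Real.exp 4) / δ := by
  have hδ0 := hδ.1
  have hn := norm_expw u ψ
  have hre := abs_re_expw_le u ψ
  have hre' := re_expw u ψ
  rw [kq, KD]
  set w := Complex.exp ((u : ℂ) + (ψ : ℂ) * I) with hw
  rw [hre', hn]
  have he4 : Real.exp u ≤ Real.exp 4 := Real.exp_le_exp.2 h2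
  have hpos : 0 < δ * Real.exp u := mul_pos hδ0 (Real.exp_pos u)
  have hmax0 : 0 < max ‖1 - w‖ (δ * Real.exp u) := lt_of_lt_of_le hpos (le_max_right _ _)
  have hlow : Real.log δ - 6 ≤ Real.log (max ‖1 - w‖ (δ * Real.exp u)) := by
    have h3 : Real.log (δ * Real.exp u) ≤ Real.log (max ‖1 - w‖ (δ * Real.exp u)) :=
      Real.log_le_log hpos (le_max_right _ _)
    rw [Real.log_mul hδ0.ne' (Real.exp_pos u).ne', Real.log_exp] at h3
    linarith
  have hup : Real.log (max ‖1 - w‖ (δ * Real.exp u)) ≤ Real.exp 4 := by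
    have h3 : max ‖1 - w‖ (δ * Real.exp u) ≤ 1 + Real.exp 4 := by
      refine max_le ?_ ?_
      · refine (norm_sub_le _ _).trans ?_
        rw [norm_one, hn]
        linarith
      · have : δ * Real.exp u ≤ 1 * Real.exp u :=
          mul_le_mul_of_nonneg_right hδ.2.le (Real.exp_pos u).le
        linarith
    have h4 := Real.log_le_sub_one_of_pos hmax0
    linarith
  have hlog : -(1 / δ) ≤ Real.log δ := by
    have h3 := Real.log_le_sub_one_of_pos (show 0 < 1 / δ by positivity)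
    rw [one_div, Real.log_inv] at h3
    rw [one_div]
    linarith
  have hδ1 : 1 ≤ 1 / δ := by
    rw [one_le_div hδ0]; exact hδ.2.le
  have hpre : |(p : ℝ) * (Real.exp u * Real.cos ψ)| ≤ Real.exp 4 := by
    rw [abs_mul]
    have hp' : |(p : ℝ)| ≤ 1 := by
      rw [abs_of_nonneg (Nat.cast_nonneg p)]
      exact_mod_cast hp
    calc |(p : ℝ)| * |Real.exp u * Real.cos ψ| ≤ 1 * Real.exp u :=
          mul_le_mul hp' hre (abs_nonneg _) zero_le_one
      _ ≤ Real.exp 4 := by rw [one_mul]; exact he4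
  have he := Real.exp_pos (4 : ℝ)
  have hR : (7 + 2 * Real.exp 4) / δ = (7 + 2 * Real.exp 4) * (1 / δ) := by ring
  rw [hR]
  rw [abs_le] at hpre ⊢
  constructor <;> nlinarith

theorem exists_block_loc {p : ℕ} (hp : p ≤ 1) {ρ : ℝ} (h1 : (p : ℝ) < ρ) (h2 : ρ < p + 1) :
    ∃ C : ℝ, 0 < C ∧ ∀ (c : ℝ → ℝ) (T : ℝ), Continuous c → (∀ t, 0 ≤ c t) →
      (∀ t, t ∉ Icc T (T + 2) → c t = 0) →
      ∃ (N : ℕ) (τ : Fin N → ℝ), (∀ n, τ n ∈ Icc T (T + 2)) ∧
        (N : ℝ) ≤ ∫ t, c t * Real.exp (ρ * t) ∧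
        ∀ δ ∈ Ioo (0 : ℝ) (1 / 4), ∀ ψ t₀ : ℝ,
          (|t₀ - T| ≤ 4 → |∑ n, kq p δ (t₀ - τ n) ψ -
            Real.exp (ρ * t₀) * ∫ u : ℝ, kq p δ u ψ * Real.exp (-ρ * u) * c (t₀ - u)| ≤ C / δ) ∧
          (4 < |t₀ - T| → |∑ n, kq p δ (t₀ - τ n) ψ -
            Real.exp (ρ * t₀) * ∫ u : ℝ, kq p δ u ψ * Real.exp (-ρ * u) * c (t₀ - u)| ≤
              C * Real.exp (ρ * (t₀ - T)) * Real.exp (-(sg p ρ) * |t₀ - T|)) := by
  have hρ : 0 < ρ := lt_of_le_of_lt (Nat.cast_nonneg p) h1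
  have hσ := sg_pos h1 h2
  obtain ⟨C₀, hC₀, hlip⟩ := kd_lip
  obtain ⟨C₁, hC₁, hpsi⟩ := psi_le hp h1 h2
  obtain ⟨_, _, hsub⟩ := kq_sub (p := p) ρ
  refine ⟨2 * C₀ * Real.exp (4 * ρ) + (7 + 2 * Real.exp 4) +
    8 * C₀ * Real.exp (4 * sg p ρ) + C₁ * Real.exp (2 * sg p ρ), by positivity, ?_⟩
  intro c T hc hc0 hsupp
  obtain ⟨N, τ, g1, g2, g3⟩ := exists_points_loc (q := fun t => c t * Real.exp (ρ * t))
    (hc.mul (by fun_prop)) (fun t => mul_nonneg (hc0 t) (Real.exp_pos _).le)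
    (show T ≤ T + 2 by linarith) (fun t ht => by rw [hsupp t ht, zero_mul])
  refine ⟨N, τ, g1, g2, fun δ hδ ψ t₀ => ?_⟩
  have hδ0 := hδ.1
  have hδ' : δ ∈ Ioo (0 : ℝ) 1 := ⟨hδ.1, by linarith [hδ.2]⟩
  have hcont : Continuous fun t => kq p δ (t₀ - t) ψ :=
    (continuous_kq hδ').comp (f := fun t : ℝ => ((t₀ - t, ψ) : ℝ × ℝ)) (by fun_prop)
  constructor
  · intro ht
    rw [abs_le] at ht
    have hM : ∀ t, T ≤ t → t ≤ T + 2 → mp p (t₀ - t) ≤ Real.exp (4 * ρ) := by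
      intro t h3 h4
      refine (mp_le h1.le h2.le _).trans (Real.exp_le_exp.2 ?_)
      nlinarith
    have hV : 0 ≤ C₀ / δ * Real.exp (4 * ρ) := by positivity
    have e1 := g3 (fun t => kq p δ (t₀ - t) ψ) (fun _ => C₀ / δ * Real.exp (4 * ρ))
      ((7 + 2 * Real.exp 4) / δ) hcont continuous_const (fun _ => hV)
      (bll_two fun s t hs hst htt h1t => by
        have h5 : |t₀ - t - (t₀ - s)| = t - s := by
          rw [show t₀ - t - (t₀ - s) = -(t - s) by ring, abs_neg, abs_of_nonneg (by linarith)]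
        have := bll_lip hC₀ hp hlip hδ' ψ (u := t₀ - t) (u' := t₀ - s) (by rw [h5]; exact h1t)
          (hM t (by linarith) htt) (hM s hs (by linarith))
        rwa [h5] at this)
      (fun t htt => bll_abs hp hδ' (by linarith [htt.2]) (by linarith [htt.1]) ψ)
    rw [integral_change (fun u => kq p δ u ψ)] at e1
    refine e1.trans ?_
    rw [intervalIntegral.integral_const, smul_eq_mul]
    have e2 : (T + 2 - T) * (C₀ / δ * Real.exp (4 * ρ)) + (7 + 2 * Real.exp 4) / δ =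
        (2 * C₀ * Real.exp (4 * ρ) + (7 + 2 * Real.exp 4)) / δ := by ring
    rw [e2]
    refine div_le_div_of_nonneg_right ?_ hδ0.le
    have : 0 ≤ 8 * C₀ * Real.exp (4 * sg p ρ) + C₁ * Real.exp (2 * sg p ρ) := by positivity
    linarith
  · intro ht
    set E := Real.exp (ρ * (t₀ - T)) * Real.exp (-(sg p ρ) * |t₀ - T|) with hE
    have hE0 : 0 < E := by positivity
    have habs : ∀ t, T ≤ t → t ≤ T + 2 → |t₀ - T| - 2 ≤ |t₀ - t| := by
      intro t h3 h4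
      have h5 := abs_sub_abs_le_abs_sub (t₀ - T) (t - T)
      rw [sub_sub_sub_cancel_right, abs_of_nonneg (by linarith : 0 ≤ t - T)] at h5
      linarith
    have hfar : ∀ t, T ≤ t → t ≤ T + 2 → ∀ η ∈ Ioo (0 : ℝ) (1 / 2),
        kq p η (t₀ - t) ψ = kp p (t₀ - t) ψ := by
      intro t h3 h4 η hη
      refine (hsub η hη ψ).2.1 _ ?_
      have := habs t h3 h4
      linarith [hη.2]
    have hexpρ : ∀ t, T ≤ t → Real.exp (ρ * (t₀ - t)) ≤ Real.exp (ρ * (t₀ - T)) := by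
      intro t h3
      refine Real.exp_le_exp.2 (mul_le_mul_of_nonneg_left (by linarith) hρ.le)
    have hM : ∀ t, T ≤ t → t ≤ T + 2 → mp p (t₀ - t) ≤ Real.exp (4 * sg p ρ) * E := by
      intro t h3 h4
      have h5 := habs t h3 h4
      refine (mp_exp_le h1 h2 _).trans ?_
      have h6 : Real.exp (-(2 * sg p ρ) * |t₀ - t|) ≤
          Real.exp (4 * sg p ρ) * Real.exp (-(sg p ρ) * |t₀ - T|) := by
        rw [← Real.exp_add]
        refine Real.exp_le_exp.2 ?_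
        nlinarith [abs_nonneg (t₀ - T), abs_nonneg (t₀ - t)]
      calc Real.exp (ρ * (t₀ - t)) * Real.exp (-(2 * sg p ρ) * |t₀ - t|) ≤
          Real.exp (ρ * (t₀ - T)) * (Real.exp (4 * sg p ρ) * Real.exp (-(sg p ρ) * |t₀ - T|)) :=
            mul_le_mul (hexpρ t h3) h6 (Real.exp_pos _).le (Real.exp_pos _).le
        _ = Real.exp (4 * sg p ρ) * E := by rw [hE]; ring
    have hK : ∀ t ∈ Icc T (T + 2), |kq p δ (t₀ - t) ψ| ≤ C₁ * Real.exp (2 * sg p ρ) * E := by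
      intro t htt
      have h5 := habs t htt.1 htt.2
      rw [hfar t htt.1 htt.2 δ ⟨hδ.1, by linarith [hδ.2]⟩]
      have hne : t₀ - t ≠ 0 := by
        intro h0
        rw [h0, abs_zero] at h5
        linarith
      have h6 := abs_kn_le hp ρ hne ψ
      have h7 := hpsi (t₀ - t)
      have hPsi0 := Psi_nonneg p ρ (t₀ - t)
      have hu2 : 1 ≤ |t₀ - t| := by linarith
      have h8 : Psi p ρ (t₀ - t) ≤ C₁ * Real.exp (-(sg p ρ) * |t₀ - t|) := by
        refine le_trans ?_ h7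
        have : 1 ≤ |t₀ - t| + |t₀ - t| ^ 2 := by nlinarith
        exact le_mul_of_one_le_left hPsi0 this
      have h9 : |kp p (t₀ - t) ψ| = |kn p ρ (t₀ - t) ψ| * Real.exp (ρ * (t₀ - t)) := by
        rw [kn, abs_mul, abs_of_pos (Real.exp_pos _), mul_assoc, ← Real.exp_add]
        rw [show -ρ * (t₀ - t) + ρ * (t₀ - t) = 0 by ring, Real.exp_zero, mul_one]
      rw [h9]
      have h10 : Real.exp (-(sg p ρ) * |t₀ - t|) ≤
          Real.exp (2 * sg p ρ) * Real.exp (-(sg p ρ) * |t₀ - T|) := by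
        rw [← Real.exp_add]
        refine Real.exp_le_exp.2 ?_
        nlinarith
      calc |kn p ρ (t₀ - t) ψ| * Real.exp (ρ * (t₀ - t)) ≤
          (C₁ * (Real.exp (2 * sg p ρ) * Real.exp (-(sg p ρ) * |t₀ - T|))) *
            Real.exp (ρ * (t₀ - T)) := by
            refine mul_le_mul ((h6.trans h8).trans (mul_le_mul_of_nonneg_left h10 hC₁.le))
              (hexpρ t htt.1) (Real.exp_pos _).le (by positivity)
        _ = C₁ * Real.exp (2 * sg p ρ) * E := by rw [hE]; ring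
    have hV : 0 ≤ C₀ / (1 / 4) * (Real.exp (4 * sg p ρ) * E) := by positivity
    have e1 := g3 (fun t => kq p δ (t₀ - t) ψ) (fun _ => C₀ / (1 / 4) * (Real.exp (4 * sg p ρ) * E))
      (C₁ * Real.exp (2 * sg p ρ) * E) hcont continuous_const (fun _ => hV)
      (bll_two fun s t hs hst htt h1t => by
        have h5 : |t₀ - t - (t₀ - s)| = t - s := by
          rw [show t₀ - t - (t₀ - s) = -(t - s) by ring, abs_neg, abs_of_nonneg (by linarith)]
        have := bll_lip hC₀ hp hlip (δ := 1 / 4) ⟨by norm_num, by norm_num⟩ ψ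
          (u := t₀ - t) (u' := t₀ - s) (by rw [h5]; exact h1t)
          (hM t (by linarith) htt) (hM s hs (by linarith))
        rw [h5, hfar t (by linarith) htt (1 / 4) ⟨by norm_num, by norm_num⟩,
          hfar s hs (by linarith) (1 / 4) ⟨by norm_num, by norm_num⟩] at this
        rw [hfar t (by linarith) htt δ ⟨hδ.1, by linarith [hδ.2]⟩,
          hfar s hs (by linarith) δ ⟨hδ.1, by linarith [hδ.2]⟩]
        exact this)
      hK
    rw [integral_change (fun u => kq p δ u ψ)] at e1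
    refine e1.trans ?_
    rw [intervalIntegral.integral_const, smul_eq_mul]
    have e2 : (T + 2 - T) * (C₀ / (1 / 4) * (Real.exp (4 * sg p ρ) * E)) +
        C₁ * Real.exp (2 * sg p ρ) * E =
        (8 * C₀ * Real.exp (4 * sg p ρ) + C₁ * Real.exp (2 * sg p ρ)) * E := by ring
    rw [e2, mul_assoc _ (Real.exp (ρ * (t₀ - T))), ← hE]
    refine mul_le_mul_of_nonneg_right ?_ hE0.le
    have : 0 ≤ 2 * C₀ * Real.exp (4 * ρ) + (7 + 2 * Real.exp 4) := by positivity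
    linarith

end HBInf
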