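import Pool.Agent.HBInf.KerIneq

/-!
# `-∞` in the interior

Suppose the contrary, `LB θ₁ M`, we may assume `M < 0`. Choose `θ₂ ∈ (a₀, θ₁)`, `τ > 0` small with
`z' = e^{iθ₁} - iτ = r' e^{iθ'}`, `a₀ < θ' < θ₁` (`θ'` depends continuously on `τ`; `-π/2 < θ'`). Put
`u y θ = e^{-ρy} U y θ`. Sum the inequality of `kerIneq` for `x = y - s_i`, `α = a_i` with the weights
`e^{-ρ s_i}` (all sums converge absolutely off a null set: `ZD.U_summable`, `kap_summable`):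
`e^{-ρ s} r'^ρ kn (y + log r' - s) ψ = e^{-ρy} kp (y + log r' - s) ψ`, so with `G'` bounds for `u` on the rays
`θ', θ₂, θ₁` (for almost all `y ≥ Y`):
`J y ≤ C₁ (r'^ρ u (y + log r') θ' - u y θ₁) + λ u y θ₁ + C₃ (u y θ₂ - (c₂/c₁) u y θ₁)`.
For the `y` with `u y θ₁ > M` this is `≤ C` with a constant `C` independent of `y` (`|u y θ₁| ≤ max |M| G'`);
such `y` exist arbitrarily large (positive measure), but `J y ≥ -(g₁ + g₂) y - C → ∞` (`growthJ`).
-/

namespace HBInf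

open HBInd Complex Filter Topology Set MeasureTheory
open scoped Real ComplexConjugate

/-- the summed kernel inequality at one point -/
theorem boi_sum {p : ℕ} (hp : p ≤ 1) {ρ : ℝ} (h1 : (p : ℝ) < ρ) (h2 : ρ < p + 1)
    {ι : Type} (D : ZD p ρ ι) {a θ₁ θ₂ r' lam C₁ C₃ q : ℝ} (hr' : 0 < r')
    (hker : ∀ α ∈ TT p, ∀ x : ℝ, -kap p ρ a α x ≤
      C₁ * (r' ^ ρ * kn p ρ (x + Real.log r') (θ₂ - α) - kn p ρ x (θ₁ - α)) +
        lam * kn p ρ x (θ₁ - α) +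
        C₃ * (kn p ρ x (θ₂ - α) - q * kn p ρ x (θ₁ - α)))
    {y : ℝ} (hy : ∀ i, y ≠ D.s i) (hy' : ∀ i, y + Real.log r' ≠ D.s i) :
    -∑' i, Real.exp (-ρ * D.s i) * kap p ρ a (D.a i) (y - D.s i) ≤
      Real.exp (-ρ * y) * (C₁ * (D.U (y + Real.log r') θ₂ - D.U y θ₁) + lam * D.U y θ₁ +
        C₃ * (D.U y θ₂ - q * D.U y θ₁)) := by
  have hs1 : Summable fun i => kp p (y - D.s i) (θ₁ - D.a i) :=
    (D.U_summable hp h1 h2 hy θ₁).of_abs
  have hs2 : Summable fun i => kp p (y - D.s i) (θ₂ - D.a i) :=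
    (D.U_summable hp h1 h2 hy θ₂).of_abs
  have hs3 : Summable fun i => kp p (y + Real.log r' - D.s i) (θ₂ - D.a i) :=
    (D.U_summable hp h1 h2 hy' θ₂).of_abs
  have hsum : HasSum (fun i => Real.exp (-ρ * y) *
      (C₁ * (kp p (y + Real.log r' - D.s i) (θ₂ - D.a i) - kp p (y - D.s i) (θ₁ - D.a i)) +
        lam * kp p (y - D.s i) (θ₁ - D.a i) +
        C₃ * (kp p (y - D.s i) (θ₂ - D.a i) - q * kp p (y - D.s i) (θ₁ - D.a i))))
      (Real.exp (-ρ * y) * (C₁ * (D.U (y + Real.log r') θ₂ - D.U y θ₁) + lam * D.U y θ₁ +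
        C₃ * (D.U y θ₂ - q * D.U y θ₁))) := by
    unfold ZD.U
    exact ((((hs3.hasSum.sub hs1.hasSum).mul_left C₁).add (hs1.hasSum.mul_left lam)).add
      ((hs2.hasSum.sub (hs1.hasSum.mul_left q)).mul_left C₃)).mul_left _
  have hk := (kap_summable hp h1 h2 D a y).hasSum.neg
  refine hasSum_le (fun i => ?_) hk hsum
  have hi := hker (D.a i) (D.ha i) (y - D.s i)
  have e1 : ∀ ψ, Real.exp (-ρ * D.s i) * kn p ρ (y - D.s i) ψ =
      Real.exp (-ρ * y) * kp p (y - D.s i) ψ := by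
    intro ψ
    unfold kn
    rw [mul_left_comm, ← Real.exp_add, mul_comm]
    congr 2
    ring
  have e2 : ∀ ψ, Real.exp (-ρ * D.s i) * (r' ^ ρ * kn p ρ (y - D.s i + Real.log r') ψ) =
      Real.exp (-ρ * y) * kp p (y + Real.log r' - D.s i) ψ := by
    intro ψ
    have e3 : y - D.s i + Real.log r' = y + Real.log r' - D.s i := by ring
    rw [e3]
    unfold kn
    rw [Real.rpow_def_of_pos hr']
    have e4 : Real.exp (-ρ * D.s i) * (Real.exp (Real.log r' * ρ) *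
        (kp p (y + Real.log r' - D.s i) ψ * Real.exp (-ρ * (y + Real.log r' - D.s i)))) =
        (Real.exp (-ρ * D.s i) * Real.exp (Real.log r' * ρ) *
          Real.exp (-ρ * (y + Real.log r' - D.s i))) * kp p (y + Real.log r' - D.s i) ψ := by ring
    rw [e4, ← Real.exp_add, ← Real.exp_add]
    congr 2
    ring
  have hpos := Real.exp_pos (-ρ * D.s i)
  calc -(Real.exp (-ρ * D.s i) * kap p ρ a (D.a i) (y - D.s i))
      = Real.exp (-ρ * D.s i) * (-kap p ρ a (D.a i) (y - D.s i)) := by ring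
    _ ≤ Real.exp (-ρ * D.s i) *
        (C₁ * (r' ^ ρ * kn p ρ (y - D.s i + Real.log r') (θ₂ - D.a i) -
          kn p ρ (y - D.s i) (θ₁ - D.a i)) + lam * kn p ρ (y - D.s i) (θ₁ - D.a i) +
        C₃ * (kn p ρ (y - D.s i) (θ₂ - D.a i) - q * kn p ρ (y - D.s i) (θ₁ - D.a i))) :=
        mul_le_mul_of_nonneg_left hi hpos.le
    _ = C₁ * (Real.exp (-ρ * D.s i) * (r' ^ ρ * kn p ρ (y - D.s i + Real.log r') (θ₂ - D.a i)) -
          Real.exp (-ρ * D.s i) * kn p ρ (y - D.s i) (θ₁ - D.a i)) +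
        lam * (Real.exp (-ρ * D.s i) * kn p ρ (y - D.s i) (θ₁ - D.a i)) +
        C₃ * (Real.exp (-ρ * D.s i) * kn p ρ (y - D.s i) (θ₂ - D.a i) -
          q * (Real.exp (-ρ * D.s i) * kn p ρ (y - D.s i) (θ₁ - D.a i))) := by ring
    _ = _ := by rw [e1, e1, e2]; ring

theorem botInterior {p : ℕ} (hp : p ≤ 1) {ρ : ℝ} (h1 : (p : ℝ) < ρ) (h2 : ρ < p + 1)
    (hρ : 1 / 2 < ρ) {ι : Type} (D : ZD p ρ ι) {a g₁ g₂ : ℝ} (hA : D.UB a g₁)
    (hB : D.UB (a - π / ρ) g₂) (hneg : g₁ + g₂ < 0) {a₀ θ₁ : ℝ} (ha₀ : -(π / 2) ≤ a₀)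
    (h01 : a₀ < θ₁) (hθ1 : θ₁ < 0) (hU : ∀ θ ∈ Ioc a₀ θ₁, ∃ g, D.UB θ g) (M : ℝ) :
    ¬D.LB θ₁ M := by
  intro hLB
  set θ₂ : ℝ := (a₀ + θ₁) / 2 with hθ₂
  have hθ2a : a₀ < θ₂ := by linarith
  have hθ21 : θ₂ < θ₁ := by linarith
  have hc1 : 0 < Real.cos θ₁ :=
    Real.cos_pos_of_mem_Ioo ⟨by linarith, by linarith [Real.pi_pos]⟩
  have hc2 : 0 < Real.cos θ₂ :=
    Real.cos_pos_of_mem_Ioo ⟨by linarith, by linarith [Real.pi_pos]⟩
  set r' : ℝ := Real.cos θ₁ / Real.cos θ₂ with hr'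
  have hr0 : 0 < r' := by positivity
  have hrc : r' * Real.cos θ₂ = Real.cos θ₁ := div_mul_cancel₀ _ hc2.ne'
  set τ : ℝ := Real.sin θ₁ - r' * Real.sin θ₂ with hτ
  have hτ0 : 0 < τ := by
    have h : 0 < Real.sin (θ₁ - θ₂) :=
      Real.sin_pos_of_pos_of_lt_pi (by linarith) (by linarith [Real.pi_pos])
    rw [Real.sin_sub] at h
    have e : τ * Real.cos θ₂ = Real.sin θ₁ * Real.cos θ₂ - Real.cos θ₁ * Real.sin θ₂ := by
      rw [hτ, ← hrc]; ring
    by_contra hn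
    rw [not_lt] at hn
    have := mul_nonpos_of_nonpos_of_nonneg hn hc2.le
    linarith
  have hz : (r' : ℂ) * Complex.exp ((θ₂ : ℂ) * I) = Complex.exp ((θ₁ : ℂ) * I) - (τ : ℂ) * I := by
    rw [Complex.exp_mul_I, Complex.exp_mul_I, ← ofReal_cos, ← ofReal_sin, ← ofReal_cos,
      ← ofReal_sin, ← hrc, hτ]
    push_cast
    ring
  obtain ⟨lam, C₁, C₃, hC1, hC3, hker⟩ := kerIneq hp h1 h2 hρ a (θ₂ := θ₂) (by linarith) hθ21
    hθ1 hτ0 hr0 hz
  obtain ⟨Y₀, C, hgrow⟩ := growthJ hp h1 h2 D hA hB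
  obtain ⟨G₂, Y₂, hG₂⟩ := hU θ₂ ⟨hθ2a, hθ21.le⟩
  obtain ⟨G₁, Y₁, hG₁⟩ := hU θ₁ ⟨h01, le_rfl⟩
  set c : ℝ := Real.log r' with hc
  have hG₂' : ∀ᵐ y : ℝ, Y₂ ≤ y + c → D.U (y + c) θ₂ ≤ G₂ * Real.exp (ρ * (y + c)) :=
    (measurePreserving_add_right volume c).quasiMeasurePreserving.ae hG₂
  have hne := D.ae_ne
  have hne' : ∀ᵐ y : ℝ, ∀ i, y + c ≠ D.s i :=
    (measurePreserving_add_right volume c).quasiMeasurePreserving.ae hne
  set B₁ : ℝ := max |M| |G₁| with hB₁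
  set q : ℝ := Real.cos θ₂ / Real.cos θ₁ with hq
  have hq0 : 0 < q := by positivity
  set K : ℝ := C₁ * (G₂ * Real.exp (ρ * c) + B₁) + |lam| * B₁ + C₃ * (G₂ + q * B₁) with hK
  set Ym : ℝ := (K + C) / (-(g₁ + g₂)) with hYm
  set Y : ℝ := max (max Y₀ (Ym + 1)) (max Y₁ (max Y₂ (Y₂ - c))) with hY
  have hpos := hLB Y
  have hae : ∀ᵐ y : ℝ, y ∉ {y : ℝ | Y ≤ y ∧ M * Real.exp (ρ * y) < D.U y θ₁} := by
    filter_upwards [hG₁, hG₂, hG₂', hne, hne'] with y e1 e2 e3 e4 e5 hy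
    obtain ⟨hYy, hMy⟩ := hy
    have hy0 : Y₀ ≤ y := ((le_max_left _ _).trans (le_max_left _ _)).trans hYy
    have hym : Ym + 1 ≤ y := ((le_max_right _ _).trans (le_max_left _ _)).trans hYy
    have hy1 : Y₁ ≤ y := ((le_max_left _ _).trans (le_max_right _ _)).trans hYy
    have hy2 : Y₂ ≤ y :=
      (((le_max_left _ _).trans (le_max_right _ _)).trans (le_max_right _ _)).trans hYy
    have hy3 : Y₂ - c ≤ y :=
      (((le_max_right _ _).trans (le_max_right _ _)).trans (le_max_right _ _)).trans hYy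
    have f1 := e1 hy1
    have f2 := e2 hy2
    have f3 := e3 (by linarith)
    have hJ := hgrow y hy0
    have hS := boi_sum hp h1 h2 D (q := q) hr0 hker e4 e5
    have hE : Real.exp (-ρ * y) * Real.exp (ρ * y) = 1 := by
      rw [← Real.exp_add]; simp
    have hE0 := Real.exp_pos (-ρ * y)
    set x₁ := Real.exp (-ρ * y) * D.U y θ₁ with hx₁
    set x₂ := Real.exp (-ρ * y) * D.U y θ₂ with hx₂
    set x₃ := Real.exp (-ρ * y) * D.U (y + c) θ₂ with hx₃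
    have b1 : x₁ ≤ G₁ := by
      have := mul_le_mul_of_nonneg_left f1 hE0.le
      calc x₁ ≤ Real.exp (-ρ * y) * (G₁ * Real.exp (ρ * y)) := this
        _ = G₁ * (Real.exp (-ρ * y) * Real.exp (ρ * y)) := by ring
        _ = G₁ := by rw [hE, mul_one]
    have b2 : x₂ ≤ G₂ := by
      have := mul_le_mul_of_nonneg_left f2 hE0.le
      calc x₂ ≤ Real.exp (-ρ * y) * (G₂ * Real.exp (ρ * y)) := this
        _ = G₂ * (Real.exp (-ρ * y) * Real.exp (ρ * y)) := by ring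
        _ = G₂ := by rw [hE, mul_one]
    have b3 : x₃ ≤ G₂ * Real.exp (ρ * c) := by
      have := mul_le_mul_of_nonneg_left f3 hE0.le
      calc x₃ ≤ Real.exp (-ρ * y) * (G₂ * Real.exp (ρ * (y + c))) := this
        _ = G₂ * Real.exp (ρ * c) * (Real.exp (-ρ * y) * Real.exp (ρ * y)) := by
          rw [mul_add, Real.exp_add]; ring
        _ = G₂ * Real.exp (ρ * c) := by rw [hE, mul_one]
    have b4 : M ≤ x₁ := by
      have := mul_le_mul_of_nonneg_left hMy.le hE0.le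
      calc M = M * (Real.exp (-ρ * y) * Real.exp (ρ * y)) := by rw [hE, mul_one]
        _ = Real.exp (-ρ * y) * (M * Real.exp (ρ * y)) := by ring
        _ ≤ x₁ := this
    have b5 : |x₁| ≤ B₁ := by
      rw [abs_le]
      constructor
      · have := neg_abs_le M
        have := le_max_left |M| |G₁|
        linarith
      · have := le_abs_self G₁
        have := le_max_right |M| |G₁|
        linarith
    have hB0 : 0 ≤ B₁ := (abs_nonneg _).trans b5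
    have hSx : Real.exp (-ρ * y) * (C₁ * (D.U (y + c) θ₂ - D.U y θ₁) + lam * D.U y θ₁ +
        C₃ * (D.U y θ₂ - q * D.U y θ₁)) = C₁ * (x₃ - x₁) + lam * x₁ + C₃ * (x₂ - q * x₁) := by
      rw [hx₁, hx₂, hx₃]; ring
    rw [hSx] at hS
    have k1 : C₁ * (x₃ - x₁) ≤ C₁ * (G₂ * Real.exp (ρ * c) + B₁) := by
      refine mul_le_mul_of_nonneg_left ?_ hC1
      have := neg_abs_le x₁
      linarith
    have k2 : lam * x₁ ≤ |lam| * B₁ := by
      refine (le_abs_self _).trans ?_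
      rw [abs_mul]
      exact mul_le_mul_of_nonneg_left b5 (abs_nonneg _)
    have k3 : C₃ * (x₂ - q * x₁) ≤ C₃ * (G₂ + q * B₁) := by
      refine mul_le_mul_of_nonneg_left ?_ hC3
      have := neg_abs_le x₁
      nlinarith
    have hfin : -(g₁ + g₂) * y ≤ K + C := by linarith
    have hpos' : 0 < -(g₁ + g₂) := by linarith
    have : y ≤ Ym := by
      rw [hYm, le_div_iff₀ hpos']
      linarith
    linarith
  have h0 : volume {y : ℝ | Y ≤ y ∧ M * Real.exp (ρ * y) < D.U y θ₁} = 0 :=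
    measure_eq_zero_iff_ae_notMem.2 hae
  exact hpos.ne' h0

end HBInf
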