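import Pool.Agent.HBInf.KnTools

/-!
# Applying a domination to zeros and to densities of zeros

Multiplying the inequality in `Dom` by `e^{ρs}`:
`kn p ρ (-s) (θ₀ - α) ≤ ∑_i ∫ kn p ρ (t - s) (θ i - α) dm_i(t)` for a.e. `s` (`kn u = kp u e^{-ρu}`).

* `dom_int`: for fixed `s`, `∫∫ |kn (y + t - s) ψ| dm(t) dy = m(ℝ) ∫ |kn| < ∞` (Tonelli), so for a.e. `y` the function
  `t ↦ kn (y + t - s) ψ` is `m`-integrable.
* `dom_point`: `s ↦ s - y` (null sets are invariant under translations and reflections).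
* `dom_dens`: `∫ kn u (θ₀ - α) r (y - u) du = ∫ kn (y - s) (θ₀ - α) r s ds ≤
  ∫ r s ∑_i ∫ kn (y + t - s) (θ i - α) dm_i(t) ds`, Fubini (`r` bounded, `kn` integrable, `m_i` finite).
-/

namespace HBInf

open HBInd Complex Filter Topology Set MeasureTheory
open scoped Real ComplexConjugate

variable {p : ℕ} {ρ : ℝ}

theorem dom_meas (ψ c : ℝ) : Measurable (fun x : ℝ × ℝ => kn p ρ (c + x.2 - x.1) ψ) := by
  have hpair : Measurable (fun x : ℝ × ℝ => ((c + x.2 - x.1, ψ) : ℝ × ℝ)) := by fun_prop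
  have h := (measurable_kn p ρ).comp hpair
  exact h

theorem dom_a (hp : p ≤ 1) (h1 : (p : ℝ) < ρ) (h2 : ρ < p + 1) (ψ c : ℝ) (t : ℝ) :
    Integrable (fun s => kn p ρ (c + t - s) ψ) volume := by
  have hk := integrable_kn hp h1 h2 ψ
  exact hk.comp_sub_left (c + t)

theorem dom_b (ψ c : ℝ) (t : ℝ) :
    ∫ s, ‖kn p ρ (c + t - s) ψ‖ = ∫ s, ‖kn p ρ s ψ‖ := by
  exact integral_sub_left_eq_self (fun s => ‖kn p ρ s ψ‖) volume (c + t)

/-- the kernel on the product space -/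
theorem dom_prod (hp : p ≤ 1) (h1 : (p : ℝ) < ρ) (h2 : ρ < p + 1) (m : Measure ℝ)
    [IsFiniteMeasure m] (ψ c : ℝ) :
    Integrable (fun x : ℝ × ℝ => kn p ρ (c + x.2 - x.1) ψ) (volume.prod m) := by
  have hmeas := dom_meas (p := p) (ρ := ρ) ψ c
  refine (integrable_prod_iff' hmeas.aestronglyMeasurable).2 ⟨?_, ?_⟩
  · exact Filter.Eventually.of_forall (dom_a hp h1 h2 ψ c)
  · refine (integrable_const (∫ s, ‖kn p ρ s ψ‖)).congr
      (Filter.Eventually.of_forall fun t => ?_)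
    exact (dom_b ψ c t).symm

theorem dom_int (hp : p ≤ 1) (h1 : (p : ℝ) < ρ) (h2 : ρ < p + 1) (m : Measure ℝ)
    [IsFiniteMeasure m] (s ψ : ℝ) :
    ∀ᵐ y : ℝ, Integrable (fun t => kn p ρ (y + t - s) ψ) m := by
  have h3 := (dom_prod hp h1 h2 m ψ 0).prod_right_ae
  have h4 := (Measure.measurePreserving_sub_left volume s).quasiMeasurePreserving.ae h3
  filter_upwards [h4] with y hy
  convert hy using 3
  ring

/-- the inequality of `Dom` for the normalised kernel -/
theorem dom_ae {n : ℕ} {θ : Fin n → ℝ} {m : Fin n → Measure ℝ} {θ₀ : ℝ}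
    (hd : Dom p ρ θ m θ₀) {α : ℝ} (hα : α ∈ TT p) :
    ∀ᵐ v : ℝ, kn p ρ (-v) (θ₀ - α) ≤ ∑ i, ∫ t, kn p ρ (t - v) (θ i - α) ∂(m i) := by
  filter_upwards [hd α hα] with v hv
  have h1 : ∀ i, ∫ t, kn p ρ (t - v) (θ i - α) ∂(m i) =
      Real.exp (ρ * v) * ∫ t, Real.exp (-ρ * t) * kp p (t - v) (θ i - α) ∂(m i) := by
    intro i
    rw [← integral_const_mul]
    apply integral_congr_ae
    refine Filter.Eventually.of_forall fun t => ?_
    show kp p (t - v) (θ i - α) * Real.exp (-ρ * (t - v)) =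
      Real.exp (ρ * v) * (Real.exp (-ρ * t) * kp p (t - v) (θ i - α))
    rw [show -ρ * (t - v) = ρ * v + -ρ * t by ring, Real.exp_add]
    ring
  simp only [h1]
  rw [← Finset.mul_sum]
  have h2 : kn p ρ (-v) (θ₀ - α) = Real.exp (ρ * v) * kp p (-v) (θ₀ - α) := by
    show kp p (-v) (θ₀ - α) * Real.exp (-ρ * -v) = _
    rw [show -ρ * -v = ρ * v by ring]
    ring
  rw [h2]
  exact mul_le_mul_of_nonneg_left hv (Real.exp_pos _).le

theorem dom_point {n : ℕ} {θ : Fin n → ℝ} {m : Fin n → Measure ℝ} {θ₀ : ℝ}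
    (hd : Dom p ρ θ m θ₀) {α : ℝ} (hα : α ∈ TT p) (s : ℝ) :
    ∀ᵐ y : ℝ, kn p ρ (y - s) (θ₀ - α) ≤ ∑ i, ∫ t, kn p ρ (y + t - s) (θ i - α) ∂(m i) := by
  have h4 := (Measure.measurePreserving_sub_left volume s).quasiMeasurePreserving.ae
    (dom_ae hd hα)
  filter_upwards [h4] with y hy
  convert hy using 2
  · ring_nf
  · apply integral_congr_ae
    refine Filter.Eventually.of_forall fun t => ?_
    show kn p ρ (y + t - s) _ = kn p ρ (t - (s - y)) _
    rw [show y + t - s = t - (s - y) by ring]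

/-- the kernel on the product space with the density -/
theorem dom_prod_r (hp : p ≤ 1) (h1 : (p : ℝ) < ρ) (h2 : ρ < p + 1) (m : Measure ℝ)
    [IsFiniteMeasure m] (ψ c : ℝ) {r : ℝ → ℝ} (hr : Measurable r) {B : ℝ}
    (hB : ∀ t, 0 ≤ r t ∧ r t ≤ B) :
    Integrable (fun x : ℝ × ℝ => kn p ρ (c + x.2 - x.1) ψ * r x.1) (volume.prod m) := by
  refine (dom_prod hp h1 h2 m ψ c).mul_bdd (c := B)
    (hr.comp measurable_fst).aestronglyMeasurable ?_
  refine Filter.Eventually.of_forall fun x => ?_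
  show ‖r x.1‖ ≤ B
  rw [Real.norm_of_nonneg (hB x.1).1]
  exact (hB x.1).2

theorem dom_dens (hp : p ≤ 1) (h1 : (p : ℝ) < ρ) (h2 : ρ < p + 1) {n : ℕ} {θ : Fin n → ℝ}
    {m : Fin n → Measure ℝ} {θ₀ : ℝ} (hm : ∀ i, IsFiniteMeasure (m i)) (hd : Dom p ρ θ m θ₀)
    {α : ℝ} (hα : α ∈ TT p) {r : ℝ → ℝ} (hr : Measurable r) {B : ℝ}
    (hB : ∀ t, 0 ≤ r t ∧ r t ≤ B) (y : ℝ) :
    (∀ i, Integrable (fun t => ∫ u, kn p ρ u (θ i - α) * r (y + t - u)) (m i)) ∧
    ∫ u, kn p ρ u (θ₀ - α) * r (y - u) ≤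
      ∑ i, ∫ t, (∫ u, kn p ρ u (θ i - α) * r (y + t - u)) ∂(m i) := by
  have hsub : ∀ (ψ c : ℝ), ∫ u, kn p ρ u ψ * r (c - u) = ∫ s, kn p ρ (c - s) ψ * r s := by
    intro ψ c
    rw [← integral_sub_left_eq_self (fun s => kn p ρ (c - s) ψ * r s) volume c]
    simp only [sub_sub_cancel]
  have hprod := fun i => dom_prod_r hp h1 h2 (m i) (θ i - α) y hr hB
  constructor
  · intro i
    have h3 := (hprod i).integral_prod_right
    refine h3.congr (Filter.Eventually.of_forall fun t => ?_)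
    exact (hsub (θ i - α) (y + t)).symm
  · simp only [hsub]
    have h4 : ∀ i, ∫ t, (∫ s, kn p ρ (y + t - s) (θ i - α) * r s) ∂(m i) =
        ∫ s, (∫ t, kn p ρ (y + t - s) (θ i - α) * r s ∂(m i)) := by
      intro i
      exact (integral_integral_swap (hprod i)).symm
    simp only [h4]
    rw [← integral_finsetSum _ (fun i _ => (hprod i).integral_prod_left)]
    apply integral_mono_ae
    · refine ((integrable_kn hp h1 h2 (θ₀ - α)).comp_sub_left y).mul_bdd (c := B)
        hr.aestronglyMeasurable ?_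
      refine Filter.Eventually.of_forall fun x => ?_
      rw [Real.norm_of_nonneg (hB x).1]
      exact (hB x).2
    · exact integrable_finsetSum _ (fun i _ => (hprod i).integral_prod_left)
    · have h5 := (measurePreserving_sub_right volume y).quasiMeasurePreserving.ae
        (dom_ae hd hα)
      filter_upwards [h5] with s hs
      have h6 : ∀ i, ∫ t, kn p ρ (y + t - s) (θ i - α) * r s ∂(m i) =
          (∫ t, kn p ρ (t - (s - y)) (θ i - α) ∂(m i)) * r s := by
        intro i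
        rw [← integral_mul_const]
        apply integral_congr_ae
        refine Filter.Eventually.of_forall fun t => ?_
        show kn p ρ (y + t - s) (θ i - α) * r s = kn p ρ (t - (s - y)) (θ i - α) * r s
        rw [show y + t - s = t - (s - y) by ring]
      simp only [h6]
      rw [← Finset.sum_mul]
      apply mul_le_mul_of_nonneg_right _ (hB s).1
      rw [show y - s = -(s - y) by ring]
      exact hs

end HBInf
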