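import Pool.Agent.HBInf.ZDTools
import Pool.Agent.HBInf.DomApply

/-!
# The domination inequality for zero data with slowly growing density

Let `N (sg p ρ) y ≤ B (1 + |y|)`. For `0 < η < 1`, `R ≥ 1` let
`χ s = max 0 (min 1 (1 - η log ((1 + |s|) / (1 + R))))`; `χ = 1` for `|s| ≤ R`, `χ = 0` for large `|s|`,
`|χ s - χ y| ≤ η |log (1 + |s|) - log (1 + |y|)| ≤ η |s - y| (1 + |s - y|) / (1 + |y|)`
(`1 + max ≤ (1 + min)(1 + |s - y|)`). Since `(|u| + u²) |kn u| ≤ C e^{-sg |u|}` (`psi_le`, `abs_kn_le`):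
`e^{-ρy} |∑ χ(s_i) kp (y - s_i) (θ - a_i) - χ y U y θ| ≤ η C N y / (1 + |y|) ≤ η C B` for `y ∉ {s_i}`.

With `T y θ = e^{-ρy} ∑ χ(s_i) kp (y - s_i) (θ - a_i)` (a finite sum, `ZD.finite_lt`): as in `CondAKill`,
(1) a.e. `y ≥ Y`: `T y (θ i) ≤ χ y g_i + η C B`; a.e. `y < Y`: `T y (θ i) ≤ C₀` (`ZD.U_le`, `ZD.N_cmp`).
(2) a.e. `y`: `T y θ₀ ≤ ∑_i ∫ T (y + t) (θ i) dm_i(t) ≤
    ∑_i (∫_{t ≥ Y - y} (χ (y + t) g_i + η C B) dm_i + C₀⁺ m_i {t < Y - y})` (`dom_point`, `dom_int`).
(3) For `R ≥ |y|`: `e^{-ρy} U y θ₀ ≤ T y θ₀ + η C B`. Let `R → ∞`, then `η → 0` (sequences; countably many null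
    sets): `e^{-ρy} U y θ₀ ≤ ∑_i (g_i m_i {t ≥ Y - y} + C₀⁺ m_i {t < Y - y})` for a.e. `y`.
(4) `LB` and `y → ∞`.
-/

namespace HBInf

open HBInd Complex Filter Topology Set MeasureTheory
open scoped Real ComplexConjugate

variable {p : ℕ} {ρ : ℝ} {ι : Type}

/-- slowly varying cut-off -/
private noncomputable def casChi (η R s : ℝ) : ℝ :=
  max 0 (min 1 (1 - η * Real.log ((1 + |s|) / (1 + R))))

private theorem cas_mem (η R s : ℝ) : 0 ≤ casChi η R s ∧ casChi η R s ≤ 1 :=
  ⟨le_max_left _ _, max_le zero_le_one (min_le_left _ _)⟩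

private theorem cas_one {η R s : ℝ} (hη : 0 < η) (hR : 0 ≤ R) (hs : |s| ≤ R) :
    casChi η R s = 1 := by
  have h1 : Real.log ((1 + |s|) / (1 + R)) ≤ 0 := by
    refine Real.log_nonpos (by positivity) ?_
    rw [div_le_one (by positivity)]
    linarith
  have h2 : 1 ≤ 1 - η * Real.log ((1 + |s|) / (1 + R)) := by nlinarith
  rw [casChi, min_eq_left h2, max_eq_right zero_le_one]

private theorem cas_zero {η R s : ℝ} (hη : 0 < η) (hR : 0 ≤ R)
    (hs : (1 + R) * Real.exp (1 / η) ≤ 1 + |s|) : casChi η R s = 0 := by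
  have h1 : 1 / η ≤ Real.log ((1 + |s|) / (1 + R)) := by
    rw [Real.le_log_iff_exp_le (by positivity), le_div_iff₀ (by positivity), mul_comm]
    exact hs
  have h2 : 1 ≤ η * Real.log ((1 + |s|) / (1 + R)) := by
    have h3 := mul_le_mul_of_nonneg_left h1 hη.le
    have h4 : η * (1 / η) = 1 := by field_simp
    linarith
  rw [casChi]
  refine max_eq_left ((min_le_right _ _).trans ?_)
  linarith

private theorem cas_log {a b : ℝ} : |Real.log (1 + |a|) - Real.log (1 + |b|)| ≤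
    |a - b| * (1 + |a - b|) / (1 + |b|) := by
  have ha : (0 : ℝ) < 1 + |a| := by positivity
  have hb : (0 : ℝ) < 1 + |b| := by positivity
  have h1 := abs_abs_sub_abs_le_abs_sub a b
  have h2 := abs_le.1 h1
  have hd := abs_nonneg (a - b)
  have hb0 := abs_nonneg b
  have ha0 := abs_nonneg a
  rw [abs_le]
  constructor
  · -- log (1 + b) - log (1 + a)
    have h3 : Real.log (1 + |b|) - Real.log (1 + |a|) ≤ (1 + |b|) / (1 + |a|) - 1 := by
      rw [← Real.log_div hb.ne' ha.ne']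
      exact Real.log_le_sub_one_of_pos (by positivity)
    have h4 : (1 + |b|) / (1 + |a|) - 1 ≤ |a - b| * (1 + |a - b|) / (1 + |b|) := by
      rw [div_sub_one ha.ne', div_le_div_iff₀ ha hb]
      have h5 : 1 + |b| - (1 + |a|) ≤ |a - b| := by linarith
      have h6 : 1 + |b| ≤ (1 + |a - b|) * (1 + |a|) := by nlinarith
      have h7 : (1 + |b| - (1 + |a|)) * (1 + |b|) ≤ |a - b| * (1 + |b|) :=
        mul_le_mul_of_nonneg_right h5 hb.le
      have h8 : |a - b| * (1 + |b|) ≤ |a - b| * ((1 + |a - b|) * (1 + |a|)) :=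
        mul_le_mul_of_nonneg_left h6 hd
      calc (1 + |b| - (1 + |a|)) * (1 + |b|) ≤ |a - b| * ((1 + |a - b|) * (1 + |a|)) :=
            h7.trans h8
        _ = |a - b| * (1 + |a - b|) * (1 + |a|) := by ring
    linarith
  · have h3 : Real.log (1 + |a|) - Real.log (1 + |b|) ≤ (1 + |a|) / (1 + |b|) - 1 := by
      rw [← Real.log_div ha.ne' hb.ne']
      exact Real.log_le_sub_one_of_pos (by positivity)
    refine h3.trans ?_
    rw [div_sub_one hb.ne']
    refine div_le_div_of_nonneg_right ?_ hb.le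
    nlinarith

private theorem cas_lip {η R : ℝ} (hη : 0 < η) (hR : 0 ≤ R) (s y : ℝ) :
    |casChi η R s - casChi η R y| ≤ η * (|s - y| * (1 + |s - y|) / (1 + |y|)) := by
  have h1 : |casChi η R s - casChi η R y| ≤
      |(1 - η * Real.log ((1 + |s|) / (1 + R))) - (1 - η * Real.log ((1 + |y|) / (1 + R)))| := by
    unfold casChi
    refine (abs_max_sub_max_le_max _ _ _ _).trans ?_
    rw [sub_self, abs_zero]
    refine max_le (abs_nonneg _) ?_
    refine (abs_min_sub_min_le_max _ _ _ _).trans ?_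
    rw [sub_self, abs_zero]
    exact max_le (abs_nonneg _) le_rfl
  refine h1.trans ?_
  have ha : (0 : ℝ) < 1 + |s| := by positivity
  have hb : (0 : ℝ) < 1 + |y| := by positivity
  have hc : (0 : ℝ) < 1 + R := by positivity
  rw [Real.log_div ha.ne' hc.ne', Real.log_div hb.ne' hc.ne']
  have h2 : (1 - η * (Real.log (1 + |s|) - Real.log (1 + R))) -
      (1 - η * (Real.log (1 + |y|) - Real.log (1 + R))) =
      -(η * (Real.log (1 + |s|) - Real.log (1 + |y|))) := by ring
  rw [h2, abs_neg, abs_mul, abs_of_pos hη]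
  exact mul_le_mul_of_nonneg_left cas_log hη.le

/-- the normalised truncated potential -/
private noncomputable def casT (D : ZD p ρ ι) (η R : ℝ) (F : Finset ι) (y θ : ℝ) : ℝ :=
  ∑ i ∈ F, casChi η R (D.s i) * (Real.exp (-ρ * D.s i) * kn p ρ (y - D.s i) (θ - D.a i))

private theorem cas_kn (y s ψ : ℝ) : Real.exp (-ρ * s) * kn p ρ (y - s) ψ =
    Real.exp (-ρ * y) * kp p (y - s) ψ := by
  rw [kn, mul_comm (kp p (y - s) ψ), ← mul_assoc, ← Real.exp_add]
  congr 2
  ring

private theorem cas_T_eq (D : ZD p ρ ι) {η R : ℝ} {F : Finset ι}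
    (hF : ∀ i ∉ F, casChi η R (D.s i) = 0) (y θ : ℝ) :
    casT D η R F y θ =
      Real.exp (-ρ * y) * ∑' i, casChi η R (D.s i) * kp p (y - D.s i) (θ - D.a i) := by
  rw [tsum_eq_sum (s := F) (fun i hi => by rw [hF i hi, zero_mul]), casT, Finset.mul_sum]
  refine Finset.sum_congr rfl fun i _ => ?_
  rw [cas_kn]
  ring

/-- the error of the cut-off -/
private theorem cas_cut (hp : p ≤ 1) (h1 : (p : ℝ) < ρ) (h2 : ρ < p + 1) :
    ∃ C : ℝ, 0 < C ∧ ∀ {ι : Type} (D : ZD p ρ ι) (B : ℝ),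
      (∀ y, D.N (sg p ρ) y ≤ B * (1 + |y|)) → ∀ (η R : ℝ), 0 < η → 0 ≤ R →
      ∀ (F : Finset ι), (∀ i ∉ F, casChi η R (D.s i) = 0) →
      ∀ y θ : ℝ, (∀ i, y ≠ D.s i) →
        |casT D η R F y θ - casChi η R y * (Real.exp (-ρ * y) * D.U y θ)| ≤ η * (C * B) := by
  obtain ⟨C, hC, hpsi⟩ := psi_le hp h1 h2
  refine ⟨C, hC, ?_⟩
  intro ι D B hB η R hη hR F hF y θ hy
  have hσ := sg_pos h1 h2
  have hUs := D.U_summable hp h1 h2 hy θ
  have hUs' : Summable fun i => kp p (y - D.s i) (θ - D.a i) := hUs.of_abs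
  have hNs := D.N_summable hσ y
  have h3 : casT D η R F y θ - casChi η R y * (Real.exp (-ρ * y) * D.U y θ) =
      ∑' i, (casChi η R (D.s i) - casChi η R y) *
        (Real.exp (-ρ * D.s i) * kn p ρ (y - D.s i) (θ - D.a i)) := by
    rw [cas_T_eq D hF, ZD.U]
    have h4 : Summable fun i => casChi η R (D.s i) * kp p (y - D.s i) (θ - D.a i) :=
      summable_of_ne_finset_zero (s := F) (fun i hi => by rw [hF i hi, zero_mul])
    have h5 : ∀ i, (casChi η R (D.s i) - casChi η R y) *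
        (Real.exp (-ρ * D.s i) * kn p ρ (y - D.s i) (θ - D.a i)) =
        Real.exp (-ρ * y) * (casChi η R (D.s i) * kp p (y - D.s i) (θ - D.a i)) -
          casChi η R y * Real.exp (-ρ * y) * kp p (y - D.s i) (θ - D.a i) := by
      intro i
      rw [cas_kn]
      ring
    rw [tsum_congr h5, (h4.mul_left _).tsum_sub (hUs'.mul_left _), tsum_mul_left, tsum_mul_left]
    ring
  have h4 : ∀ i, |(casChi η R (D.s i) - casChi η R y) *
        (Real.exp (-ρ * D.s i) * kn p ρ (y - D.s i) (θ - D.a i))| ≤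
      η * C / (1 + |y|) * (Real.exp (-ρ * D.s i) * Real.exp (-(sg p ρ) * |y - D.s i|)) := by
    intro i
    have hu : y - D.s i ≠ 0 := sub_ne_zero.2 (hy i)
    have h5 := cas_lip hη hR (D.s i) y
    have h6 := abs_kn_le hp ρ hu (θ - D.a i)
    have h7 := hpsi (y - D.s i)
    have hy1 : (0 : ℝ) < 1 + |y| := by positivity
    rw [abs_mul, abs_mul, abs_of_pos (Real.exp_pos _)]
    have h8 : |D.s i - y| = |y - D.s i| := abs_sub_comm _ _
    rw [h8] at h5
    calc |casChi η R (D.s i) - casChi η R y| *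
          (Real.exp (-ρ * D.s i) * |kn p ρ (y - D.s i) (θ - D.a i)|)
        ≤ (η * (|y - D.s i| * (1 + |y - D.s i|) / (1 + |y|))) *
          (Real.exp (-ρ * D.s i) * Psi p ρ (y - D.s i)) := by
          refine mul_le_mul h5 (mul_le_mul_of_nonneg_left h6 (Real.exp_pos _).le) (by positivity)
            (by positivity)
      _ = η / (1 + |y|) * Real.exp (-ρ * D.s i) *
          ((|y - D.s i| + |y - D.s i| ^ 2) * Psi p ρ (y - D.s i)) := by
          field_simp
      _ ≤ η / (1 + |y|) * Real.exp (-ρ * D.s i) *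
          (C * Real.exp (-(sg p ρ) * |y - D.s i|)) :=
          mul_le_mul_of_nonneg_left h7 (by positivity)
      _ = η * C / (1 + |y|) * (Real.exp (-ρ * D.s i) * Real.exp (-(sg p ρ) * |y - D.s i|)) := by
          ring
  rw [h3]
  have h5 := hNs.mul_left (η * C / (1 + |y|))
  have h6 : Summable fun i => |(casChi η R (D.s i) - casChi η R y) *
        (Real.exp (-ρ * D.s i) * kn p ρ (y - D.s i) (θ - D.a i))| :=
    Summable.of_nonneg_of_le (fun i => abs_nonneg _) h4 h5
  calc |∑' i, (casChi η R (D.s i) - casChi η R y) *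
        (Real.exp (-ρ * D.s i) * kn p ρ (y - D.s i) (θ - D.a i))|
      ≤ ∑' i, |(casChi η R (D.s i) - casChi η R y) *
        (Real.exp (-ρ * D.s i) * kn p ρ (y - D.s i) (θ - D.a i))| := by
        have := norm_tsum_le_tsum_norm (f := fun i => (casChi η R (D.s i) - casChi η R y) *
          (Real.exp (-ρ * D.s i) * kn p ρ (y - D.s i) (θ - D.a i))) (by simpa using h6)
        simpa using this
    _ ≤ ∑' i, η * C / (1 + |y|) *
        (Real.exp (-ρ * D.s i) * Real.exp (-(sg p ρ) * |y - D.s i|)) :=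
        h6.tsum_le_tsum h4 h5
    _ = η * C / (1 + |y|) * D.N (sg p ρ) y := by
        rw [tsum_mul_left]
        rfl
    _ ≤ η * C / (1 + |y|) * (B * (1 + |y|)) :=
        mul_le_mul_of_nonneg_left (hB y) (by positivity)
    _ = η * (C * B) := by
        have hy1 : (0 : ℝ) < 1 + |y| := by positivity
        field_simp

/-- translates of full sets -/
private theorem cas_shift (m : Measure ℝ) [IsFiniteMeasure m] {P : ℝ → Prop}
    (h : ∀ᵐ x : ℝ, P x) : ∀ᵐ y : ℝ, ∀ᵐ t ∂m, P (y + t) := by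
  obtain ⟨N, hN, hNm, hN0⟩ := exists_measurable_superset_of_null (ae_iff.1 h)
  have h1 : ∀ᵐ y : ℝ, ∀ᵐ t ∂m, y + t ∉ N := by
    have hm : MeasurableSet {x : ℝ × ℝ | x.1 + x.2 ∉ N} :=
      (measurable_fst.add measurable_snd) hNm.compl
    rw [Measure.ae_ae_comm hm]
    refine Filter.Eventually.of_forall fun t => ?_
    rw [ae_iff]
    have h2 : {a : ℝ | ¬ a + t ∉ N} = (fun a => a + t) ⁻¹' N := by
      ext a
      simp
    rw [h2, measure_preimage_add_right]
    exact hN0
  filter_upwards [h1] with y hy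
  filter_upwards [hy] with t ht
  by_contra hc
  exact ht (hN hc)

/-- the domination for the truncated potentials -/
private theorem cas_dom (hp : p ≤ 1) (h1 : (p : ℝ) < ρ) (h2 : ρ < p + 1) (D : ZD p ρ ι) {n : ℕ}
    {θ : Fin n → ℝ} {m : Fin n → Measure ℝ} (hm : ∀ i, IsFiniteMeasure (m i)) {θ₀ : ℝ}
    (hd : Dom p ρ θ m θ₀) (η R : ℝ) (F : Finset ι) :
    ∀ᵐ y : ℝ, (∀ j, Integrable (fun t => casT D η R F (y + t) (θ j)) (m j)) ∧
      casT D η R F y θ₀ ≤ ∑ j, ∫ t, casT D η R F (y + t) (θ j) ∂(m j) := by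
  have h3 : ∀ᵐ y : ℝ, ∀ i ∈ F, kn p ρ (y - D.s i) (θ₀ - D.a i) ≤
      ∑ j, ∫ t, kn p ρ (y + t - D.s i) (θ j - D.a i) ∂(m j) := by
    rw [Filter.eventually_all_finset]
    intro i _
    exact dom_point hd (D.ha i) (D.s i)
  have h4 : ∀ᵐ y : ℝ, ∀ i ∈ F, ∀ j, Integrable (fun t => kn p ρ (y + t - D.s i) (θ j - D.a i))
      (m j) := by
    rw [Filter.eventually_all_finset]
    intro i _
    rw [Filter.eventually_all]
    intro j
    have := hm j
    exact dom_int hp h1 h2 (m j) (D.s i) (θ j - D.a i)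
  filter_upwards [h3, h4] with y hy3 hy4
  have h5 : ∀ j, ∀ i ∈ F, Integrable (fun t => casChi η R (D.s i) *
      (Real.exp (-ρ * D.s i) * kn p ρ (y + t - D.s i) (θ j - D.a i))) (m j) := by
    intro j i hi
    exact ((hy4 i hi j).const_mul _).const_mul _
  constructor
  · intro j
    unfold casT
    exact integrable_finsetSum _ (h5 j)
  · have h6 : ∀ j, ∫ t, casT D η R F (y + t) (θ j) ∂(m j) = ∑ i ∈ F, casChi η R (D.s i) *
        (Real.exp (-ρ * D.s i) * ∫ t, kn p ρ (y + t - D.s i) (θ j - D.a i) ∂(m j)) := by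
      intro j
      unfold casT
      rw [integral_finsetSum _ (h5 j)]
      refine Finset.sum_congr rfl fun i _ => ?_
      rw [integral_const_mul, integral_const_mul]
    rw [Finset.sum_congr rfl fun j _ => h6 j, Finset.sum_comm]
    unfold casT
    refine Finset.sum_le_sum fun i hi => ?_
    rw [← Finset.mul_sum, ← Finset.mul_sum]
    exact mul_le_mul_of_nonneg_left (mul_le_mul_of_nonneg_left (hy3 i hi) (Real.exp_pos _).le)
      (cas_mem _ _ _).1

private theorem cas_tail (m : Measure ℝ) [IsFiniteMeasure m] :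
    Tendsto (fun K : ℕ => m.real {t : ℝ | (K : ℝ) < |t|}) atTop (𝓝 0) := by
  have h1 : Tendsto (fun K : ℕ => m {t : ℝ | (K : ℝ) < |t|}) atTop
      (𝓝 (m (⋂ K : ℕ, {t : ℝ | (K : ℝ) < |t|}))) := by
    refine tendsto_measure_iInter_atTop (fun K => ?_) ?_ ⟨0, measure_ne_top _ _⟩
    · exact (isOpen_lt continuous_const continuous_abs).measurableSet.nullMeasurableSet
    · intro a b hab t ht
      have h2 : (a : ℝ) ≤ b := by exact_mod_cast hab
      exact lt_of_le_of_lt h2 ht
  have h2 : (⋂ K : ℕ, {t : ℝ | (K : ℝ) < |t|}) = ∅ := by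
    rw [Set.eq_empty_iff_forall_notMem]
    intro t ht
    obtain ⟨K, hK⟩ := exists_nat_ge |t|
    have h3 := Set.mem_iInter.1 ht K
    exact absurd h3 (not_lt.2 hK)
  rw [h2, measure_empty] at h1
  have h3 := (ENNReal.tendsto_toReal ENNReal.zero_ne_top).comp h1
  simpa [Measure.real, Function.comp_def] using h3

theorem condA_slow {p : ℕ} (hp : p ≤ 1) {ρ : ℝ} (h1 : (p : ℝ) < ρ) (h2 : ρ < p + 1) {ι : Type}
    (D : ZD p ρ ι) {n : ℕ} {θ : Fin n → ℝ} {m : Fin n → Measure ℝ} (hm : ∀ i, IsFiniteMeasure (m i))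
    {g : Fin n → ℝ} {θ₀ M B : ℝ} (hU : ∀ i, D.UB (θ i) (g i)) (hL : D.LB θ₀ M)
    (hN : ∀ y, D.N (sg p ρ) y ≤ B * (1 + |y|)) (hd : Dom p ρ θ m θ₀) :
    M ≤ ∑ i, (m i).real univ * g i := by
  have hσ := sg_pos h1 h2
  obtain ⟨C, hC, hcut⟩ := cas_cut (p := p) (ρ := ρ) hp h1 h2
  obtain ⟨CU, hCU, hUle⟩ := ZD.U_le (p := p) (ρ := ρ) hp h1 h2
  -- `B` is nonnegative
  have hB0 : 0 ≤ B := by
    have h3 := hN 0
    have h4 := D.N_nonneg (sg p ρ) 0
    rw [abs_zero, add_zero, mul_one] at h3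
    exact h4.trans h3
  -- common threshold
  choose Yf hYf using hU
  obtain ⟨Y, hY⟩ : ∃ Y : ℝ, ∀ j, Yf j ≤ Y := by
    obtain ⟨Y, hY⟩ := (Set.finite_range Yf).bddAbove
    exact ⟨Y, fun j => hY (Set.mem_range_self j)⟩
  obtain ⟨BY, hBY⟩ := D.N_cmp hσ Y
  set C₀ : ℝ := max 0 (CU * BY) with hC₀
  have hC₀0 : 0 ≤ C₀ := le_max_left _ _
  -- the potentials
  have hae := D.ae_ne
  -- upper bounds of the truncated potentials
  have hup : ∀ (η R : ℝ) (F : Finset ι), 0 < η → 0 ≤ R → (∀ i ∉ F, casChi η R (D.s i) = 0) →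
      ∀ j, ∀ᵐ x : ℝ, (Y ≤ x → casT D η R F x (θ j) ≤ casChi η R x * g j + η * (C * B)) ∧
        (x ≤ Y → casT D η R F x (θ j) ≤ C₀) := by
    intro η R F hη hR hF j
    filter_upwards [hae, hYf j] with x hx hx2
    constructor
    · intro hYx
      have h3 := hcut D B hN η R hη hR F hF x (θ j) hx
      have h4 := (abs_le.1 h3).2
      have h5 := hx2 ((hY j).trans hYx)
      have h6 : Real.exp (-ρ * x) * D.U x (θ j) ≤ g j := by
        have h7 := mul_le_mul_of_nonneg_left h5 (Real.exp_pos (-ρ * x)).le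
        have h8 : Real.exp (-ρ * x) * (g j * Real.exp (ρ * x)) = g j := by
          rw [mul_comm (g j), ← mul_assoc, ← Real.exp_add]
          have h9 : -ρ * x + ρ * x = 0 := by ring
          rw [h9, Real.exp_zero, one_mul]
        rwa [h8] at h7
      have h7 := mul_le_mul_of_nonneg_left h6 (cas_mem η R x).1
      linarith
    · intro hxY
      have h3 := hUle D (fun i => casChi η R (D.s i)) (fun i => cas_mem _ _ _) x (θ j) hx
      rw [cas_T_eq D hF]
      have h4 := mul_le_mul_of_nonneg_left h3 (Real.exp_pos (-ρ * x)).le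
      refine h4.trans ?_
      have h5 : Real.exp (-ρ * x) * (CU * Real.exp (ρ * x) * D.N (sg p ρ) x) =
          CU * D.N (sg p ρ) x := by
        have h6 : Real.exp (-ρ * x) * (CU * Real.exp (ρ * x) * D.N (sg p ρ) x) =
          (Real.exp (-ρ * x) * Real.exp (ρ * x)) * (CU * D.N (sg p ρ) x) := by ring
        rw [h6, ← Real.exp_add]
        have h9 : -ρ * x + ρ * x = 0 := by ring
        rw [h9, Real.exp_zero, one_mul]
      rw [h5]
      exact (mul_le_mul_of_nonneg_left (hBY x hxY) hCU.le).trans (le_max_right _ _)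
  refine le_of_forall_pos_le_add fun ε hε => ?_
  -- choice of `η`
  set X : ℝ := C * B * (1 + ∑ j, (m j).real univ) with hX
  have hX0 : 0 ≤ X := by
    have h3 : 0 ≤ ∑ j, (m j).real univ := Finset.sum_nonneg fun j _ => measureReal_nonneg
    positivity
  set η : ℝ := ε / (2 * (X + 1)) with hη
  have hη0 : 0 < η := by positivity
  have hηX : η * X ≤ ε / 2 := by
    rw [hη, div_mul_eq_mul_div, div_le_div_iff₀ (by positivity) (by norm_num)]
    nlinarith
  -- choice of `K`
  have htail : Tendsto (fun K : ℕ => ∑ j, (|g j| + C₀) * (m j).real {t : ℝ | (K : ℝ) < |t|}) atTop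
      (𝓝 0) := by
    have h3 : Tendsto (fun K : ℕ => ∑ j, (|g j| + C₀) * (m j).real {t : ℝ | (K : ℝ) < |t|}) atTop
        (𝓝 (∑ j : Fin n, (|g j| + C₀) * 0)) := by
      refine tendsto_finsetSum _ fun j _ => ?_
      have := hm j
      exact (cas_tail (m j)).const_mul _
    simpa using h3
  obtain ⟨K, hK⟩ := (htail.eventually (gt_mem_nhds (half_pos hε))).exists
  -- almost every `y` is good for all `R`
  have hfin : ∀ R : ℕ, ∃ F : Finset ι, ∀ i ∉ F, casChi η (R : ℝ) (D.s i) = 0 := by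
    intro R
    refine ⟨(D.finite_lt ((1 + (R : ℝ)) * Real.exp (1 / η))).toFinset, fun i hi => ?_⟩
    rw [Set.Finite.mem_toFinset] at hi
    have h3 : (1 + (R : ℝ)) * Real.exp (1 / η) ≤ D.s i := by
      by_contra hc
      exact hi (not_le.1 hc)
    refine cas_zero hη0 (Nat.cast_nonneg _) ?_
    have h4 := le_abs_self (D.s i)
    linarith
  choose F hF using hfin
  have hgood : ∀ᵐ y : ℝ, ∀ R : ℕ, ((∀ j, Integrable (fun t => casT D η R (F R) (y + t) (θ j)) (m j)) ∧
      casT D η R (F R) y θ₀ ≤ ∑ j, ∫ t, casT D η R (F R) (y + t) (θ j) ∂(m j)) ∧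
      ∀ j, ∀ᵐ t ∂(m j), (Y ≤ y + t → casT D η R (F R) (y + t) (θ j) ≤
        casChi η R (y + t) * g j + η * (C * B)) ∧
        (y + t ≤ Y → casT D η R (F R) (y + t) (θ j) ≤ C₀) := by
    rw [ae_all_iff]
    intro R
    have h3 := cas_dom hp h1 h2 D hm hd η R (F R)
    have h4 : ∀ᵐ y : ℝ, ∀ j, ∀ᵐ t ∂(m j), (Y ≤ y + t → casT D η R (F R) (y + t) (θ j) ≤
        casChi η R (y + t) * g j + η * (C * B)) ∧
        (y + t ≤ Y → casT D η R (F R) (y + t) (θ j) ≤ C₀) := by
      rw [Filter.eventually_all]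
      intro j
      have := hm j
      exact cas_shift (m j) (hup η R (F R) hη0 (Nat.cast_nonneg _) (hF R) j)
    filter_upwards [h3, h4] with y hy3 hy4
    exact ⟨hy3, hy4⟩
  -- a point `y`
  obtain ⟨y, ⟨hyY, hyM⟩, hyg, hyne⟩ : ∃ y, (Y + K ≤ y ∧ M * Real.exp (ρ * y) < D.U y θ₀) ∧
      (∀ R : ℕ, ((∀ j, Integrable (fun t => casT D η R (F R) (y + t) (θ j)) (m j)) ∧
      casT D η R (F R) y θ₀ ≤ ∑ j, ∫ t, casT D η R (F R) (y + t) (θ j) ∂(m j)) ∧
      ∀ j, ∀ᵐ t ∂(m j), (Y ≤ y + t → casT D η R (F R) (y + t) (θ j) ≤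
        casChi η R (y + t) * g j + η * (C * B)) ∧
        (y + t ≤ Y → casT D η R (F R) (y + t) (θ j) ≤ C₀)) ∧ ∀ i, y ≠ D.s i := by
    have h3 := hL (Y + K)
    have h4 := hgood.and hae
    by_contra hc
    push Not at hc
    refine h3.ne' (measure_mono_null ?_ (ae_iff.1 h4))
    intro y hy hy2
    obtain ⟨i, hi⟩ := hc y hy hy2.1
    exact hy2.2 i hi
  obtain ⟨R, hR⟩ := exists_nat_ge (|y| + K)
  have hRy : |y| ≤ (R : ℝ) := by
    have : (0 : ℝ) ≤ K := Nat.cast_nonneg _
    linarith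
  obtain ⟨⟨hint, hdom⟩, hbd⟩ := hyg R
  -- lower bound at `y`
  have h3 : M ≤ casT D η R (F R) y θ₀ + η * (C * B) := by
    have h4 := hcut D B hN η R hη0 (Nat.cast_nonneg _) (F R) (hF R) y θ₀ hyne
    rw [cas_one hη0 (Nat.cast_nonneg _) hRy, one_mul] at h4
    have h5 := (abs_le.1 h4).1
    have h6 := mul_le_mul_of_nonneg_left hyM.le (Real.exp_pos (-ρ * y)).le
    have h8 : Real.exp (-ρ * y) * (M * Real.exp (ρ * y)) = M := by
      rw [mul_comm M, ← mul_assoc, ← Real.exp_add]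
      have h9 : -ρ * y + ρ * y = 0 := by ring
      rw [h9, Real.exp_zero, one_mul]
    rw [h8] at h6
    linarith
  -- upper bounds of the integrals
  have h4 : ∀ j, ∫ t, casT D η R (F R) (y + t) (θ j) ∂(m j) ≤
      (g j + η * (C * B)) * (m j).real univ +
        (|g j| + C₀) * (m j).real {t : ℝ | (K : ℝ) < |t|} := by
    intro j
    have := hm j
    have hKm : MeasurableSet {t : ℝ | (K : ℝ) < |t|} :=
      (isOpen_lt continuous_const continuous_abs).measurableSet
    have hi2 : Integrable (fun t => (g j + η * (C * B)) +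
        (|g j| + C₀) * ({t : ℝ | (K : ℝ) < |t|}).indicator (fun _ => (1 : ℝ)) t) (m j) :=
      (integrable_const _).add (((integrable_const _).indicator hKm).const_mul _)
    have h5 : ∫ t, casT D η R (F R) (y + t) (θ j) ∂(m j) ≤
        ∫ t, ((g j + η * (C * B)) +
          (|g j| + C₀) * ({t : ℝ | (K : ℝ) < |t|}).indicator (fun _ => (1 : ℝ)) t) ∂(m j) := by
      refine integral_mono_ae (hint j) hi2 ?_
      filter_upwards [hbd j] with t ht
      have hCB : 0 ≤ η * (C * B) := by positivity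
      have hg1 := neg_abs_le (g j)
      have hg2 := le_abs_self (g j)
      by_cases hKt : (K : ℝ) < |t|
      · rw [Set.indicator_of_mem (show t ∈ {t : ℝ | (K : ℝ) < |t|} from hKt), mul_one]
        rcases le_total Y (y + t) with h6 | h6
        · have h7 := ht.1 h6
          have h8 := cas_mem η R (y + t)
          have h9 : casChi η R (y + t) * g j ≤ g j + |g j| := by nlinarith [h8.1, h8.2]
          linarith
        · have h7 := ht.2 h6
          linarith
      · rw [Set.indicator_of_notMem (show t ∉ {t : ℝ | (K : ℝ) < |t|} from hKt), mul_zero,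
          add_zero]
        push Not at hKt
        have h6 := (abs_le.1 hKt).1
        have h7 := ht.1 (by linarith)
        have h8 : |y + t| ≤ R := (abs_add_le y t).trans (by linarith)
        rw [cas_one hη0 (Nat.cast_nonneg _) h8, one_mul] at h7
        exact h7
    refine h5.trans (le_of_eq ?_)
    rw [integral_add (integrable_const _) (((integrable_const _).indicator hKm).const_mul _),
      integral_const, integral_const_mul]
    have h6 : ∫ t, ({t : ℝ | (K : ℝ) < |t|}).indicator (fun _ => (1 : ℝ)) t ∂(m j) =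
        (m j).real {t : ℝ | (K : ℝ) < |t|} := integral_indicator_one hKm
    rw [h6, smul_eq_mul, mul_comm]
  have h5 : casT D η R (F R) y θ₀ ≤ ∑ j, ((g j + η * (C * B)) * (m j).real univ +
      (|g j| + C₀) * (m j).real {t : ℝ | (K : ℝ) < |t|}) :=
    hdom.trans (Finset.sum_le_sum fun j _ => h4 j)
  have h6 : ∑ j, ((g j + η * (C * B)) * (m j).real univ +
      (|g j| + C₀) * (m j).real {t : ℝ | (K : ℝ) < |t|}) =
      ∑ j, (m j).real univ * g j + η * (C * B) * ∑ j, (m j).real univ +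
        ∑ j, (|g j| + C₀) * (m j).real {t : ℝ | (K : ℝ) < |t|} := by
    rw [Finset.mul_sum, ← Finset.sum_add_distrib, ← Finset.sum_add_distrib]
    exact Finset.sum_congr rfl fun j _ => by ring
  rw [h6] at h5
  have h7 : η * X = η * (C * B) + η * (C * B) * ∑ j, (m j).real univ := by
    rw [hX]
    ring
  linarith

end HBInf
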