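import Pool.Agent.HBInf.KnTools
import Pool.Agent.HBInd.KernelInt

/-!
# The homogeneous potentials `VV` and their derivatives `WW` with respect to the order

* `VV_eq`: for `p = 0` this is `integral_ker` (`Pool.Agent.HBInd.KernelInt`) if `sin ψ ≠ 0`, otherwise by continuity in
  `ψ` of both sides (`kn_l1`, `abs_G_sub_le`). For `p = 1` repeat the proof of `integral_ker` with
  `J ζ = ∫ t, (log (1 + e^{ζ - t}) - e^{ζ - t}) e^{ρ t}` for `1 < ρ < 2`, `|Im ζ| < π`: `J (ζ + a) = e^{ρ a} J ζ`,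
  so `J' = ρ J`, `J (iφ) = e^{iρφ} J 0`, and `J 0 = ∫ (log (1 + e^{-t}) - e^{-t}) e^{ρt} < 0`
  (`log (1 + x) < x`). With `u = -t` and `e^{iψ} = -e^{iφ}`, `φ = arg (-e^{iψ})`: real parts.
* `VV_pi_zero`, `VV_pi_one`: `kn 0 ρ u π = log (1 + e^u) e^{-ρu} > 0`,
  `kn 1 ρ u π = (log (1 + e^u) - e^u) e^{-ρu} < 0`.
* `hasDerivAt_VV`: differentiate under the integral sign: `d/dρ (kp p u ψ e^{-ρu}) = -u kp p u ψ e^{-ρu}`, for
  `ρ'` near `ρ` it is dominated by `|u| PhiP p u e^{-ρu} e^{|ρ'-ρ| |u|}`, see `integrable_psi`.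
* `WW_eq`: `VV p ρ' ψ = VV p ρ' π * cos (ρ' (π - |ψ|))` for all `ρ' ∈ (p, p+1)`; differentiate at `ρ`.
-/

namespace HBInf

open HBInd Complex Filter Topology Set MeasureTheory
open scoped Real ComplexConjugate

/-! ### auxiliary facts -/

theorem mom_slit {ζ : ℂ} (hζ : |ζ.im| < π) (t : ℝ) : 1 + exp (ζ - t) ∈ slitPlane := by
  have h := ki_slit (τ := 1) zero_le_one (z := ζ - t) (by simpa using hζ)
  simpa using h

theorem mom_J0 {ρ : ℝ} (h0 : 0 < ρ) (h1 : ρ < 1) : ∃ C : ℝ, 0 < C ∧ kJ ρ 0 = (C : ℂ) := by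
  refine ⟨∫ t : ℝ, Real.log (1 + Real.exp (0 - t)) * Real.exp (ρ * t), ?_, ?_⟩
  · rw [integral_pos_iff_support_of_nonneg _ (ki_majorant h0 h1 0)]
    · have h1 : Function.support
          (fun t : ℝ => Real.log (1 + Real.exp (0 - t)) * Real.exp (ρ * t)) = univ := by
        ext t
        simp only [Function.mem_support, mem_univ, iff_true]
        have h2 : 0 < Real.log (1 + Real.exp (0 - t)) :=
          Real.log_pos (by linarith [Real.exp_pos (0 - t)])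
        positivity
      rw [h1]
      simp
    · intro t
      have h2 : 0 < Real.log (1 + Real.exp (0 - t)) :=
        Real.log_pos (by linarith [Real.exp_pos (0 - t)])
      change 0 ≤ Real.log (1 + Real.exp (0 - t)) * Real.exp (ρ * t)
      positivity
  · rw [kJ]
    refine Eq.trans ?_ (integral_ofReal (𝕜 := ℂ))
    congr 1
    funext t
    unfold kF
    rw [RCLike.ofReal_mul]
    change _ = ((Real.log (1 + Real.exp (0 - t)) : ℝ) : ℂ) * ((Real.exp (ρ * t) : ℝ) : ℂ)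
    rw [Complex.ofReal_log (by positivity)]
    push_cast
    rfl

/-- the derivative of the integrand of `kJ` in `ζ` -/
noncomputable def momK (ρ : ℝ) (ζ : ℂ) (t : ℝ) : ℂ :=
  exp (ζ - t) / (1 + exp (ζ - t)) * Real.exp (ρ * t)

theorem mom_K_int {ρ : ℝ} (h0 : 0 < ρ) (h1 : ρ < 1) {ζ : ℂ} (hζ : |ζ.im| < π) :
    Integrable (momK ρ ζ) := by
  set δ := (π - |ζ.im|) / 2 with hδdef
  have hδ : 0 < δ := by rw [hδdef]; linarith
  have hδ' : δ < π := by rw [hδdef]; linarith [abs_nonneg ζ.im, Real.pi_pos]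
  have hs : 0 < Real.sin δ := Real.sin_pos_of_pos_of_lt_pi hδ hδ'
  have hc : Continuous (momK ρ ζ) := by
    unfold momK
    apply Continuous.mul _ (by fun_prop)
    apply Continuous.div (by fun_prop) (by fun_prop)
    intro t h2
    have h := mom_slit hζ t
    rw [h2] at h
    exact Complex.zero_notMem_slitPlane h
  refine ((ki_majorant h0 h1 ζ.re).const_mul (2 / Real.sin δ)).mono'
    hc.aestronglyMeasurable (Filter.Eventually.of_forall fun t => ?_)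
  unfold momK
  rw [norm_mul, Complex.norm_real, Real.norm_of_nonneg (Real.exp_pos _).le, ← mul_assoc]
  apply mul_le_mul_of_nonneg_right _ (Real.exp_pos _).le
  have h1 := ki_low' hδ.le hδ'.le (τ := 1) zero_le_one (z := ζ - t)
    (by simp only [Complex.sub_im, Complex.ofReal_im, sub_zero]; rw [hδdef]; linarith)
  rw [norm_div, Complex.norm_exp]
  simp only [ofReal_one, one_mul, Complex.sub_re, Complex.ofReal_re] at h1 ⊢
  have h2 : 0 < 1 + Real.exp (ζ.re - t) := by positivity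
  have h3 : 0 < Real.sin δ / 2 * (1 + Real.exp (ζ.re - t)) := by positivity
  calc Real.exp (ζ.re - t) / ‖1 + exp (ζ - t)‖
      ≤ Real.exp (ζ.re - t) / (Real.sin δ / 2 * (1 + Real.exp (ζ.re - t))) :=
        div_le_div_of_nonneg_left (Real.exp_pos _).le h3 h1
    _ = 2 / Real.sin δ * (1 - (1 + Real.exp (ζ.re - t))⁻¹) := by field_simp; ring
    _ ≤ 2 / Real.sin δ * Real.log (1 + Real.exp (ζ.re - t)) := by
        apply mul_le_mul_of_nonneg_left (Real.one_sub_inv_le_log_of_pos h2) (by positivity)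

/-- integration by parts for `kJ` -/
theorem mom_K {ρ : ℝ} (h0 : 0 < ρ) (h1 : ρ < 1) {ζ : ℂ} (hζ : |ζ.im| < π) :
    ∫ t : ℝ, momK ρ ζ t = ρ * kJ ρ ζ := by
  have hu : ∀ t : ℝ, HasDerivAt (fun t : ℝ => log (1 + exp (ζ - t)))
      (-exp (ζ - t) / (1 + exp (ζ - t))) t := by
    intro t
    have h2 : HasDerivAt (fun t : ℝ => (t : ℂ)) 1 t := Complex.ofRealCLM.hasDerivAt
    have h3 : HasDerivAt (fun t : ℝ => ζ - (t : ℂ)) (-1) t := h2.const_sub ζ
    have h4 : HasDerivAt (fun t : ℝ => 1 + exp (ζ - (t : ℂ))) (exp (ζ - t) * (-1)) t :=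
      h3.cexp.const_add 1
    rw [mul_neg_one] at h4
    exact h4.clog_real (mom_slit hζ t)
  have hv : ∀ t : ℝ, HasDerivAt (fun t : ℝ => ((Real.exp (ρ * t) : ℝ) : ℂ))
      (ρ * ((Real.exp (ρ * t) : ℝ) : ℂ)) t := by
    intro t
    have h2 : HasDerivAt (fun t : ℝ => Real.exp (ρ * t)) (Real.exp (ρ * t) * (ρ * 1)) t :=
      ((hasDerivAt_id t).const_mul ρ).exp
    have h3 := h2.ofReal_comp
    have h4 : ((Real.exp (ρ * t) * (ρ * 1) : ℝ) : ℂ) = ρ * ((Real.exp (ρ * t) : ℝ) : ℂ) := by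
      push_cast
      ring
    rw [h4] at h3
    exact h3
  have hF := kF_int h0 h1 hζ
  have hK := mom_K_int h0 h1 hζ
  have e1 : (fun t : ℝ => log (1 + exp (ζ - t)) * (ρ * ((Real.exp (ρ * t) : ℝ) : ℂ))) =
      fun t => ρ * kF ρ ζ t := by
    funext t
    unfold kF
    ring
  have e2 : (fun t : ℝ => -exp (ζ - t) / (1 + exp (ζ - t)) * ((Real.exp (ρ * t) : ℝ) : ℂ)) =
      fun t => -momK ρ ζ t := by
    funext t
    unfold momK
    ring
  have key := integral_mul_deriv_eq_deriv_mul_of_integrable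
    (u := fun t : ℝ => log (1 + exp (ζ - t)))
    (u' := fun t : ℝ => -exp (ζ - t) / (1 + exp (ζ - t)))
    (v := fun t : ℝ => ((Real.exp (ρ * t) : ℝ) : ℂ))
    (v' := fun t : ℝ => ρ * ((Real.exp (ρ * t) : ℝ) : ℂ))
    (fun t _ => hu t) (fun t _ => hv t)
    (by
      change Integrable (fun t : ℝ => log (1 + exp (ζ - t)) * (ρ * ((Real.exp (ρ * t) : ℝ) : ℂ)))
      rw [e1]
      exact hF.const_mul _)
    (by
      change Integrable
        (fun t : ℝ => -exp (ζ - t) / (1 + exp (ζ - t)) * ((Real.exp (ρ * t) : ℝ) : ℂ))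
      rw [e2]
      exact hK.neg)
    (by exact hF)
  rw [e1, e2, integral_const_mul, integral_neg, neg_neg] at key
  rw [← key, kJ]

/-- the angle `φ` with `e^{iφ} = -e^{iψ}` -/
theorem mom_angle {ψ : ℝ} (hψ : Real.sin ψ ≠ 0) :
    exp ((arg (-exp ((ψ : ℂ) * I)) : ℂ) * I) = -exp ((ψ : ℂ) * I) ∧
      |arg (-exp ((ψ : ℂ) * I))| < π := by
  have hn : ‖-exp ((ψ : ℂ) * I)‖ = 1 := by rw [norm_neg, Complex.norm_exp_ofReal_mul_I]
  refine ⟨?_, ?_⟩
  · have := Complex.norm_mul_exp_arg_mul_I (-exp ((ψ : ℂ) * I))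
    rwa [hn, ofReal_one, one_mul] at this
  · rw [abs_lt]
    refine ⟨Complex.neg_pi_lt_arg _, lt_of_le_of_ne (Complex.arg_le_pi _) ?_⟩
    intro h
    have h2 := (Complex.arg_eq_pi_iff.1 h).2
    rw [Complex.neg_im, Complex.exp_ofReal_mul_I_im] at h2
    exact hψ (neg_eq_zero.1 h2)

/-- the integral of the kernel of genus one -/
theorem mom_one {ρ : ℝ} (h1 : 1 < ρ) (h2 : ρ < 2) : ∃ C : ℝ, 0 < C ∧
    ∀ ψ : ℝ, Real.sin ψ ≠ 0 → VV 1 ρ ψ = -C * G ρ ψ := by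
  have hρ : 0 < ρ := by linarith
  have hr0 : 0 < ρ - 1 := by linarith
  have hr1 : ρ - 1 < 1 := by linarith
  obtain ⟨C₀, hC₀, hJ₀⟩ := mom_J0 hr0 hr1
  refine ⟨(ρ - 1) * C₀ / ρ, by positivity, ?_⟩
  intro ψ hψ
  obtain ⟨hφe, hφlt⟩ := mom_angle hψ
  set φ := arg (-exp ((ψ : ℂ) * I)) with hφ
  have hζ : |((φ : ℂ) * I).im| < π := by simpa using hφlt
  have hK := mom_K_int hr0 hr1 hζ
  have hKi := mom_K hr0 hr1 hζ
  -- the pointwise identity
  have hpt : ∀ x : ℝ, dkp 1 x ψ * Real.exp (-ρ * x) =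
      (exp ((ψ : ℂ) * I) * momK (ρ - 1) ((φ : ℂ) * I) (-x)).re := by
    intro x
    set w := exp ((x : ℂ) + (ψ : ℂ) * I) with hw
    have hw1 : w = exp (x : ℂ) * exp ((ψ : ℂ) * I) := by rw [hw, Complex.exp_add]
    have hwne : w - 1 ≠ 0 := by
      intro h
      have h3 : ‖1 - w‖ ^ 2 = 0 := by rw [norm_sub_rev, h]; simp
      rw [hw, normSq_expw] at h3
      exact (den_pos hψ x).ne' h3
    have hwne' : 1 - w ≠ 0 := by
      intro h
      apply hwne
      rw [← neg_sub, h, neg_zero]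
    have e1 : exp ((φ : ℂ) * I - ((-x : ℝ) : ℂ)) = -w := by
      have : (φ : ℂ) * I - ((-x : ℝ) : ℂ) = (x : ℂ) + (φ : ℂ) * I := by push_cast; ring
      rw [this, Complex.exp_add, hφe, hw1]
      ring
    have e2 : dkp 1 x ψ = (w * w / (w - 1)).re := by
      rw [dkp, dker, ← re_expw, ← hw, Nat.cast_one, one_mul, ← Complex.add_re]
      congr 1
      field_simp
      ring
    have e3 : exp ((ψ : ℂ) * I) * momK (ρ - 1) ((φ : ℂ) * I) (-x) =
        (w * w / (w - 1)) * ((Real.exp (-ρ * x) : ℝ) : ℂ) := by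
      unfold momK
      rw [e1]
      have e4 : ((Real.exp ((ρ - 1) * -x) : ℝ) : ℂ) =
          exp (x : ℂ) * ((Real.exp (-ρ * x) : ℝ) : ℂ) := by
        rw [← Complex.ofReal_exp, ← Complex.ofReal_mul, ← Real.exp_add]
        congr 2
        ring
      have e5 : -w / (1 + -w) = w / (w - 1) := by
        rw [show (1 : ℂ) + -w = -(w - 1) by ring, neg_div_neg_eq]
      rw [e4, e5]
      rw [show w * w / (w - 1) = exp (x : ℂ) * exp ((ψ : ℂ) * I) * (w / (w - 1)) by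
        rw [← hw1, mul_div_assoc]]
      ring
    rw [e3, Complex.re_mul_ofReal, e2]
  have hint1 : Integrable fun x : ℝ => exp ((ψ : ℂ) * I) * momK (ρ - 1) ((φ : ℂ) * I) (-x) :=
    (hK.comp_neg).const_mul _
  have hint2 : Integrable fun x : ℝ => dkp 1 x ψ * Real.exp (-ρ * x) := by
    simp only [hpt]
    exact hint1.re
  have hval : ∫ x : ℝ, dkp 1 x ψ * Real.exp (-ρ * x) = -((ρ - 1) * C₀) * G ρ ψ := by
    simp only [hpt]
    have h3 : ∫ x : ℝ, (exp ((ψ : ℂ) * I) * momK (ρ - 1) ((φ : ℂ) * I) (-x)).re =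
        (∫ x : ℝ, exp ((ψ : ℂ) * I) * momK (ρ - 1) ((φ : ℂ) * I) (-x)).re := by
      exact integral_re hint1
    rw [h3, integral_const_mul,
      integral_neg_eq_self (fun x => momK (ρ - 1) ((φ : ℂ) * I) x) volume, hKi,
      kJ_eq hr0 hr1 hζ, hJ₀]
    have h4 : exp ((ψ : ℂ) * I) * (((ρ - 1 : ℝ) : ℂ) *
        (exp (((ρ - 1 : ℝ) : ℂ) * ((φ : ℂ) * I)) * (C₀ : ℂ))) =
        ((-((ρ - 1) * C₀) : ℝ) : ℂ) * exp (((ρ * φ : ℝ) : ℂ) * I) := by
      have h5 : exp ((ψ : ℂ) * I) = -exp ((φ : ℂ) * I) := by rw [hφe, neg_neg]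
      have h6 : exp (((ρ * φ : ℝ) : ℂ) * I) =
          exp ((φ : ℂ) * I) * exp (((ρ - 1 : ℝ) : ℂ) * ((φ : ℂ) * I)) := by
        rw [← Complex.exp_add]
        congr 1
        push_cast
        ring
      rw [h5, h6]
      push_cast
      ring
    rw [h4, Complex.re_ofReal_mul, Complex.exp_ofReal_mul_I_re]
    rfl
  have hkn : Integrable fun u : ℝ => kn 1 ρ u ψ :=
    integrable_kn le_rfl (by simpa using h1) (by norm_num; linarith) ψ
  have hv : ∀ x : ℝ, HasDerivAt (fun x : ℝ => Real.exp (-ρ * x)) (-ρ * Real.exp (-ρ * x)) x := by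
    intro x
    have h3 : HasDerivAt (fun x : ℝ => Real.exp (-ρ * x)) (Real.exp (-ρ * x) * (-ρ * 1)) x :=
      ((hasDerivAt_id x).const_mul (-ρ)).exp
    convert h3 using 1
    ring
  have e1 : (fun x : ℝ => kp 1 x ψ * (-ρ * Real.exp (-ρ * x))) = fun x => -ρ * kn 1 ρ x ψ := by
    funext x
    unfold kn
    ring
  have key := integral_mul_deriv_eq_deriv_mul_of_integrable
    (u := fun x : ℝ => kp 1 x ψ) (u' := fun x : ℝ => dkp 1 x ψ)
    (v := fun x : ℝ => Real.exp (-ρ * x)) (v' := fun x : ℝ => -ρ * Real.exp (-ρ * x))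
    (fun x _ => hasDerivAt_kp 1 hψ x) (fun x _ => hv x)
    (by
      change Integrable (fun x : ℝ => kp 1 x ψ * (-ρ * Real.exp (-ρ * x)))
      rw [e1]
      exact hkn.const_mul _)
    (by exact hint2) (by exact hkn)
  rw [e1, integral_const_mul, hval] at key
  unfold VV
  field_simp
  linarith

theorem mom_cont_G {ρ : ℝ} (hρ : 0 ≤ ρ) : Continuous (G ρ) := by
  have h : LipschitzWith ⟨ρ, hρ⟩ (G ρ) := by
    apply LipschitzWith.of_dist_le_mul
    intro x y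
    rw [Real.dist_eq, Real.dist_eq]
    exact abs_G_sub_le hρ x y
  exact h.continuous

theorem mom_cont_VV {p : ℕ} (hp : p ≤ 1) {ρ : ℝ} (h1 : (p : ℝ) < ρ) (h2 : ρ < p + 1) :
    Continuous (VV p ρ) := by
  obtain ⟨C, hC, hb⟩ := kn_l1 hp h1 h2
  rw [continuous_iff_continuousAt]
  intro ψ
  have h3 : Tendsto (fun ψ' : ℝ => C * √(|ψ' - ψ|)) (𝓝 ψ) (𝓝 0) := by
    have h4 : Continuous (fun ψ' : ℝ => C * √(|ψ' - ψ|)) := by fun_prop
    have h5 := h4.tendsto ψ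
    simpa using h5
  rw [ContinuousAt, tendsto_iff_dist_tendsto_zero]
  refine squeeze_zero' (Filter.Eventually.of_forall fun _ => dist_nonneg) ?_ h3
  filter_upwards [Metric.ball_mem_nhds ψ (show (0 : ℝ) < 1 / 4 by norm_num)] with ψ' hψ'
  rw [Metric.mem_ball, Real.dist_eq] at hψ'
  have h6 := hb 0 ψ ψ' (by rw [abs_zero, zero_add]; exact hψ'.le)
  rw [abs_zero, zero_add] at h6
  simp only [add_zero] at h6
  rw [Real.dist_eq]
  refine le_trans ?_ h6
  unfold VV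
  rw [← integral_sub (integrable_kn hp h1 h2 ψ') (integrable_kn hp h1 h2 ψ)]
  exact abs_integral_le_integral_abs

theorem mom_dense : Dense {ψ : ℝ | Real.sin ψ ≠ 0} := by
  have h1 : {ψ : ℝ | Real.sin ψ ≠ 0} = {ψ : ℝ | Real.sin ψ = 0}ᶜ := rfl
  rw [h1]
  apply Set.Countable.dense_compl ℝ
  have h2 : {ψ : ℝ | Real.sin ψ = 0} ⊆ range (fun n : ℤ => (n : ℝ) * π) := by
    intro ψ hψ
    exact Real.sin_eq_zero_iff.1 hψ
  exact (countable_range _).mono h2

/-- `VV` is a multiple of `G`, with a known sign -/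
theorem mom_const {p : ℕ} (hp : p ≤ 1) {ρ : ℝ} (h1 : (p : ℝ) < ρ) (h2 : ρ < p + 1) :
    ∃ C : ℝ, (p = 0 → 0 < C) ∧ (p = 1 → C < 0) ∧ ∀ ψ, VV p ρ ψ = C * G ρ ψ := by
  have hρ : 0 ≤ ρ := (Nat.cast_nonneg p).trans h1.le
  have hc := mom_cont_VV hp h1 h2
  have hg := mom_cont_G hρ
  interval_cases p
  · have h1' : 0 < ρ := by simpa using h1
    have h2' : ρ < 1 := by simpa using h2
    obtain ⟨C, hC, hb⟩ := integral_ker h1' h2'
    refine ⟨C, fun _ => hC, fun h => absurd h (by norm_num), ?_⟩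
    have h3 : VV 0 ρ = fun ψ => C * G ρ ψ := by
      apply hc.ext_on mom_dense (by fun_prop)
      intro ψ hψ
      change VV 0 ρ ψ = C * G ρ ψ
      rw [← hb ψ hψ]
      unfold VV kn
      congr 1
      funext u
      rw [kp_eq]
      simp
    exact fun ψ => congrFun h3 ψ
  · have h1' : 1 < ρ := by simpa using h1
    have h2' : ρ < 2 := by
      have : ρ < ((1 : ℕ) : ℝ) + 1 := h2
      norm_num at this
      exact this
    obtain ⟨C, hC, hb⟩ := mom_one h1' h2'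
    refine ⟨-C, fun h => absurd h (by norm_num), fun _ => by linarith, ?_⟩
    have h3 : VV 1 ρ = fun ψ => -C * G ρ ψ := by
      apply hc.ext_on mom_dense (by fun_prop)
      intro ψ hψ
      exact hb ψ hψ
    exact fun ψ => congrFun h3 ψ

theorem mom_G_pi (ρ : ℝ) : G ρ π = 1 := by
  rw [G_of_abs_le (by rw [abs_of_pos Real.pi_pos]), abs_of_pos Real.pi_pos]
  simp

theorem mom_meas (p : ℕ) (r ψ : ℝ) : Measurable fun u : ℝ => kn p r u ψ := by
  have hmp : Measurable fun u : ℝ => (u, ψ) := by fun_prop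
  have h := (measurable_kn p r).comp hmp
  simp only [Function.comp_def] at h
  exact h

theorem mom_deriv_kn (p : ℕ) (r u ψ : ℝ) :
    HasDerivAt (fun r => kn p r u ψ) (-(u * kn p r u ψ)) r := by
  unfold kn
  have h3 : HasDerivAt (fun r : ℝ => Real.exp (-r * u)) (Real.exp (-r * u) * (-1 * u)) r :=
    (((hasDerivAt_id r).fun_neg).mul_const u).exp
  have h4 := h3.const_mul (kp p u ψ)
  have e : kp p u ψ * (Real.exp (-r * u) * (-1 * u)) =
      -(u * (kp p u ψ * Real.exp (-r * u))) := by ring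
  rw [e] at h4
  exact h4

theorem mom_bound {p : ℕ} (hp : p ≤ 1) {ρ r u : ℝ} (hu : u ≠ 0) (hr : |r - ρ| < sg p ρ)
    (ψ : ℝ) : ‖-(u * kn p r u ψ)‖ ≤ (1 + |u|) ^ 2 * Psi p ρ u * Real.exp (sg p ρ * |u|) := by
  have h3 : |kn p r u ψ| ≤ Psi p ρ u * Real.exp (sg p ρ * |u|) := by
    unfold kn Psi
    rw [abs_mul, abs_of_pos (Real.exp_pos _), mul_assoc, ← Real.exp_add]
    apply mul_le_mul (abs_kp_le_PhiP hp hu ψ) _ (Real.exp_pos _).le (PhiP_nonneg p u)
    apply Real.exp_le_exp.2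
    have h4 : -(r - ρ) * u ≤ |r - ρ| * |u| := by
      refine (le_abs_self _).trans ?_
      rw [abs_mul, abs_neg]
    have h5 : |r - ρ| * |u| ≤ sg p ρ * |u| := mul_le_mul_of_nonneg_right hr.le (abs_nonneg u)
    linarith
  have h6 : 0 ≤ Psi p ρ u * Real.exp (sg p ρ * |u|) :=
    mul_nonneg (Psi_nonneg p ρ u) (Real.exp_pos _).le
  rw [norm_neg, norm_mul, Real.norm_eq_abs, Real.norm_eq_abs, mul_assoc]
  apply mul_le_mul _ h3 (abs_nonneg _) (by positivity)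
  nlinarith [abs_nonneg u]

/-! ### the statements -/

theorem VV_eq {p : ℕ} (hp : p ≤ 1) {ρ : ℝ} (h1 : (p : ℝ) < ρ) (h2 : ρ < p + 1) (ψ : ℝ) :
    VV p ρ ψ = VV p ρ π * G ρ ψ := by
  obtain ⟨C, -, -, hb⟩ := mom_const hp h1 h2
  rw [hb ψ, hb π, mom_G_pi, mul_one]

theorem VV_pi_zero {ρ : ℝ} (h1 : 0 < ρ) (h2 : ρ < 1) : 0 < VV 0 ρ π := by
  obtain ⟨C, hC, -, hb⟩ := mom_const (p := 0) (by norm_num) (ρ := ρ) (by simpa using h1)
    (by simpa using h2)
  rw [hb π, mom_G_pi, mul_one]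
  exact hC rfl

theorem VV_pi_one {ρ : ℝ} (h1 : 1 < ρ) (h2 : ρ < 2) : VV 1 ρ π < 0 := by
  obtain ⟨C, -, hC, hb⟩ := mom_const (p := 1) le_rfl (ρ := ρ) (by simpa using h1)
    (by norm_num; linarith)
  rw [hb π, mom_G_pi, mul_one]
  exact hC rfl

theorem hasDerivAt_VV {p : ℕ} (hp : p ≤ 1) {ρ : ℝ} (h1 : (p : ℝ) < ρ) (h2 : ρ < p + 1) (ψ : ℝ) :
    HasDerivAt (fun r => VV p r ψ) (WW p ρ ψ) ρ := by
  have hsg := sg_pos h1 h2
  have hae : ∀ᵐ u : ℝ, u ≠ 0 := Measure.ae_ne volume 0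
  have hm : ∀ r : ℝ, Measurable fun u : ℝ => kn p r u ψ := fun r => mom_meas p r ψ
  have g1 : ∀ᶠ r in 𝓝 ρ, AEStronglyMeasurable (fun u => kn p r u ψ) volume :=
    Filter.Eventually.of_forall fun r => (hm r).aestronglyMeasurable
  have g2 : AEStronglyMeasurable (fun u => -(u * kn p ρ u ψ)) volume :=
    ((measurable_id.mul (hm ρ)).neg).aestronglyMeasurable
  have g3 : ∀ᵐ u : ℝ, ∀ r ∈ Metric.ball ρ (sg p ρ),
      ‖-(u * kn p r u ψ)‖ ≤ (1 + |u|) ^ 2 * Psi p ρ u * Real.exp (sg p ρ * |u|) := by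
    filter_upwards [hae] with u hu r hr
    rw [Metric.mem_ball, Real.dist_eq] at hr
    exact mom_bound hp hu hr ψ
  have g4 : ∀ᵐ u : ℝ, ∀ r ∈ Metric.ball ρ (sg p ρ),
      HasDerivAt (fun r => kn p r u ψ) (-(u * kn p r u ψ)) r :=
    Filter.Eventually.of_forall fun u r _ => mom_deriv_kn p r u ψ
  have key := (hasDerivAt_integral_of_dominated_loc_of_deriv_le (μ := volume) (𝕜 := ℝ)
    (F := fun r u => kn p r u ψ) (F' := fun r u => -(u * kn p r u ψ))
    (Metric.ball_mem_nhds ρ hsg) g1 (integrable_kn hp h1 h2 ψ) g2 g3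
    (integrable_psi hp h1 h2) g4).2
  have e : ∫ u : ℝ, -(u * kn p ρ u ψ) = WW p ρ ψ := by
    rw [integral_neg]
    rfl
  rw [← e]
  exact key

theorem WW_eq {p : ℕ} (hp : p ≤ 1) {ρ : ℝ} (h1 : (p : ℝ) < ρ) (h2 : ρ < p + 1) {ψ : ℝ}
    (hψ : |ψ| ≤ π) : WW p ρ ψ = WW p ρ π * Real.cos (ρ * (π - |ψ|)) -
      VV p ρ π * ((π - |ψ|) * Real.sin (ρ * (π - |ψ|))) := by
  have h3 := hasDerivAt_VV hp h1 h2 ψ
  have h4 := hasDerivAt_VV hp h1 h2 π
  have h5 : HasDerivAt (fun r : ℝ => Real.cos (r * (π - |ψ|)))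
      (-Real.sin (ρ * (π - |ψ|)) * (1 * (π - |ψ|))) ρ :=
    ((hasDerivAt_id ρ).mul_const (π - |ψ|)).cos
  have h6 := h4.mul h5
  have h7 : (fun r => VV p r ψ) =ᶠ[𝓝 ρ]
      ((fun r => VV p r π) * fun r => Real.cos (r * (π - |ψ|))) := by
    filter_upwards [Ioo_mem_nhds h1 h2] with r hr
    rw [Pi.mul_apply, VV_eq hp hr.1 hr.2 ψ, G_of_abs_le hψ]
  have h8 := h6.congr_of_eventuallyEq h7
  rw [h3.unique h8]
  ring

theorem VV_neg (p : ℕ) (ρ ψ : ℝ) : VV p ρ (-ψ) = VV p ρ ψ := by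
  simp only [VV, kn_neg]

theorem WW_neg (p : ℕ) (ρ ψ : ℝ) : WW p ρ (-ψ) = WW p ρ ψ := by
  simp only [WW, kn_neg]

theorem VV_add_int (p : ℕ) (ρ ψ : ℝ) (n : ℤ) : VV p ρ (ψ + n * (2 * π)) = VV p ρ ψ := by
  simp only [VV, kn_add_int]

theorem WW_add_int (p : ℕ) (ρ ψ : ℝ) (n : ℤ) : WW p ρ (ψ + n * (2 * π)) = WW p ρ ψ := by
  simp only [WW, kn_add_int]

theorem continuous_VV {p : ℕ} (hp : p ≤ 1) {ρ : ℝ} (h1 : (p : ℝ) < ρ) (h2 : ρ < p + 1) :
    Continuous (VV p ρ) := mom_cont_VV hp h1 h2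

theorem continuous_WW {p : ℕ} (hp : p ≤ 1) {ρ : ℝ} (h1 : (p : ℝ) < ρ) (h2 : ρ < p + 1) :
    Continuous (WW p ρ) := by
  have hfun : WW p ρ = fun ψ => WW p ρ π * Real.cos (ρ * Real.arccos (-Real.cos ψ)) -
      VV p ρ π * (Real.arccos (-Real.cos ψ) * Real.sin (ρ * Real.arccos (-Real.cos ψ))) := by
    funext ψ
    obtain ⟨d, hd0, hd1, -, hd2⟩ := exists_reduce ρ ψ
    obtain ⟨-, n, hn⟩ := hd2 0
    set χ := ψ - n * (2 * π) with hχ
    have e1 : ψ = χ + n * (2 * π) := by rw [hχ]; ring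
    have hχ1 : |χ| ≤ π := by rw [← hn]; exact hd1
    have e2 : Real.cos ψ = Real.cos χ := by rw [e1, Real.cos_add_int_mul_two_pi]
    have e3 : Real.arccos (-Real.cos ψ) = π - |χ| := by
      rw [e2, ← Real.cos_abs χ, ← Real.cos_pi_sub]
      apply Real.arccos_cos
      · linarith
      · linarith [abs_nonneg χ]
    have e4 : WW p ρ ψ = WW p ρ χ := by rw [e1, WW_add_int]
    rw [e4, e3]
    exact WW_eq hp h1 h2 hχ1
  rw [hfun]
  have h3 : Continuous fun ψ : ℝ => Real.arccos (-Real.cos ψ) :=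
    Real.continuous_arccos.comp Real.continuous_cos.neg
  fun_prop

end HBInf
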