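import Pool.Agent.HBInf.ZDTools
import Pool.Agent.HBInf.Moments

/-!
# Upper bounds on rays which control the density of the zeros

`densP`: let `c > 0` with `∑ x_i VV (θ i - α) ≥ c` for `α ∈ TT p` (compactness of `TT p`, continuity of `VV`). For small
`σ ∈ (0, sg p ρ)` consider `A y = ∫ e^{-σ |t - y|} e^{-ρt} ∑_i x_i U t (θ i) dt`. By `UB`, and `ZD.U_le` with `ZD.N_cmp`
for `t < Y` (upper bounds only; the positive part is bounded), `A y ≤ K` for all `y`. On the other hand
(Fubini; `∑_i e^{-ρ s_i} ∫ e^{-σ|t - y|} |kn (t - s_i)| dt < ∞` by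
`e^{-σ |t - y|} ≤ e^{-σ |s_i - y|} e^{σ |t - s_i|}` and `integrable_psi`):
`A y = ∑_j e^{-ρ s_j} ∫ e^{-σ |u + s_j - y|} ∑_i x_i kn u (θ i - a_j) du`, and
`|e^{-σ |u + s_j - y|} - e^{-σ |s_j - y|}| ≤ σ |u| e^{σ|u|} e^{-σ |s_j - y|}`, so
`A y ≥ ∑_j e^{-ρ s_j} e^{-σ |s_j - y|} (c - C σ) ≥ (c/2) N σ y`. Then `ZD.N_all`.

`densAvg`: let `a, b = a + π/ρ`. For every `α`: `VV (a - α) + VV (b - α) ≥ 0` for `α ∈ TT p` (for `p = 0`:
`VV = VV π · G` with `G` trigonometrically convex, `VV π > 0`; in general: `V θ = VV (θ - α)` with the distances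
`d, d'` of `a - α`, `b - α` to `2πℤ`: `cos ρ(π - d) + cos ρ(π - d') `, check the cases; if no point of
`α + 2πℤ` is in the open interval `(a, b)` the function is a sinusoid on `[a, b]` and the sum is `0`. If
there is one (`b - a = π/ρ < 2π`, exactly one), then the function is the sum of a sinusoid and of
`2 ρ VV π sin ρπ / ρ · sin ρ (θ - α)₊`-type term with a positive coefficient, `VV π sin ρπ > 0` for `p = 0, 1`).
So `∫_Y^y e^{-ρt} (U t a + U t b) dt = ∑_j e^{-ρ s_j} ∫_{Y - s_j}^{y - s_j} (kn (a - a_j) + kn (b - a_j))`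
(`ZD.U_int`). With `K x = ∫_{-∞}^x (kn + kn)`, `K(∞) ≥ 0`, one has `K (y - s) - K (Y - s) ≥ - C e^{-σ|y - s|} - C e^{-σ|Y - s|}`
(for `s ≤ Y` or `s ≥ y` both are small; for `Y < s < y` it is `K(∞) - tails`; tails by `integrable_psi`), so the
integral is `≥ -C (N σ y + N σ Y) ≥ -C'`; and it is `≤ (g₁ + g₂) (y - Y)`. Divide by `y - Y → ∞`.
-/

namespace HBInf

open HBInd Complex Filter Topology Set MeasureTheory
open scoped Real ComplexConjugate

variable {p : ℕ} {ρ : ℝ} {ι : Type}

namespace DP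

/-- the integrable majorant -/
noncomputable def Om (p : ℕ) (ρ u : ℝ) : ℝ := (1 + |u|) ^ 2 * Psi p ρ u * Real.exp (sg p ρ * |u|)

theorem Om_nonneg (p : ℕ) (ρ u : ℝ) : 0 ≤ Om p ρ u := by
  have := Psi_nonneg p ρ u
  unfold Om
  positivity

/-- its integral -/
noncomputable def T0 (p : ℕ) (ρ : ℝ) : ℝ := ∫ u, Om p ρ u

theorem T0_nonneg (p : ℕ) (ρ : ℝ) : 0 ≤ T0 p ρ := integral_nonneg fun u => Om_nonneg p ρ u

theorem meas_kn (p : ℕ) (ρ ψ : ℝ) : Measurable fun u : ℝ => kn p ρ u ψ := by
  have h1 : Measurable fun u : ℝ => (u, ψ) := measurable_id.prodMk measurable_const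
  have h2 := Measurable.comp (measurable_kn p ρ) h1
  exact h2

theorem ae_ne_zero : ∀ᵐ u : ℝ, u ≠ 0 := by
  rw [ae_iff]
  simp

set_option linter.unusedSectionVars false

theorem exp_sub_le {σ A B u : ℝ} (hσ : 0 ≤ σ) (h : |A - B| ≤ |u|) :
    |Real.exp (-σ * A) - Real.exp (-σ * B)| ≤
      Real.exp (-σ * B) * (σ * |u| * Real.exp (σ * |u|)) := by
  have h1 : Real.exp (-σ * A) - Real.exp (-σ * B)
      = Real.exp (-σ * B) * (Real.exp (-σ * (A - B)) - 1) := by
    rw [mul_sub, ← Real.exp_add, mul_one]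
    congr 2
    ring
  rw [h1, abs_mul, abs_of_pos (Real.exp_pos _)]
  refine mul_le_mul_of_nonneg_left ?_ (Real.exp_pos _).le
  set z := -σ * (A - B) with hz
  have hz1 : |z| ≤ σ * |u| := by
    rw [hz, abs_mul, abs_neg, abs_of_nonneg hσ]
    exact mul_le_mul_of_nonneg_left h hσ
  have h0 : 0 ≤ σ * |u| := by positivity
  rw [abs_le] at hz1 ⊢
  have e1 := Real.add_one_le_exp z
  have e2 : Real.exp (σ * |u|) - 1 ≤ σ * |u| * Real.exp (σ * |u|) := by
    have := Real.add_one_le_exp (-(σ * |u|))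
    have h3 : Real.exp (-(σ * |u|)) * Real.exp (σ * |u|) = 1 := by
      rw [← Real.exp_add]; simp
    have h4 := Real.exp_pos (σ * |u|)
    nlinarith
  have e3 : Real.exp z ≤ Real.exp (σ * |u|) := Real.exp_le_exp.2 hz1.2
  have e4 : 1 ≤ Real.exp (σ * |u|) := Real.one_le_exp h0
  constructor
  · nlinarith
  · linarith

section

variable (hp : p ≤ 1) (h1 : (p : ℝ) < ρ) (h2 : ρ < p + 1)

theorem int_Om (hp : p ≤ 1) (h1 : (p : ℝ) < ρ) (h2 : ρ < p + 1) : Integrable (Om p ρ) :=
  integrable_psi hp h1 h2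

theorem Psi_le_Om (h1 : (p : ℝ) < ρ) (h2 : ρ < p + 1) {σ : ℝ} (hσ : σ ≤ sg p ρ) (u : ℝ) :
    Real.exp (σ * |u|) * Psi p ρ u ≤ Om p ρ u ∧
      |u| * Real.exp (σ * |u|) * Psi p ρ u ≤ Om p ρ u := by
  have h0 := Psi_nonneg p ρ u
  have hu := abs_nonneg u
  have e1 : Real.exp (σ * |u|) ≤ Real.exp (sg p ρ * |u|) :=
    Real.exp_le_exp.2 (mul_le_mul_of_nonneg_right hσ hu)
  have e2 := Real.exp_pos (σ * |u|)
  have e3 : 0 ≤ Psi p ρ u * Real.exp (sg p ρ * |u|) := by positivity
  have e4 : Real.exp (σ * |u|) * Psi p ρ u ≤ Psi p ρ u * Real.exp (sg p ρ * |u|) := by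
    rw [mul_comm]
    exact mul_le_mul_of_nonneg_left e1 h0
  have e5 : Om p ρ u = (1 + |u|) ^ 2 * (Psi p ρ u * Real.exp (sg p ρ * |u|)) := by
    unfold Om; ring
  rw [e5]
  have e6 : 1 ≤ (1 + |u|) ^ 2 := by nlinarith
  have e7 : |u| ≤ (1 + |u|) ^ 2 := by nlinarith
  constructor
  · nlinarith
  · have : |u| * Real.exp (σ * |u|) * Psi p ρ u = |u| * (Real.exp (σ * |u|) * Psi p ρ u) := by ring
    rw [this]
    exact mul_le_mul e7 e4 (by positivity) (by positivity)

/-- The weighted integral of a kernel around `s`. -/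
theorem weighted (hp : p ≤ 1) (h1 : (p : ℝ) < ρ) (h2 : ρ < p + 1) {k : ℝ → ℝ} {X c : ℝ}
    (hX : 0 ≤ X) (hk : Measurable k) (hkb : ∀ u, u ≠ 0 → |k u| ≤ X * Psi p ρ u)
    (hc : c ≤ ∫ u, k u) {σ : ℝ} (hσ0 : 0 < σ) (hσ : σ ≤ sg p ρ) (s y : ℝ) :
    Integrable (fun t => Real.exp (-σ * |t - y|) * k (t - s)) ∧
      ∫ t, |Real.exp (-σ * |t - y|) * k (t - s)| ≤ Real.exp (-σ * |y - s|) * (X * T0 p ρ) ∧
      Real.exp (-σ * |y - s|) * (c - σ * (X * T0 p ρ)) ≤
        ∫ t, Real.exp (-σ * |t - y|) * k (t - s) := by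
  have hOm := int_Om hp h1 h2
  set h : ℝ → ℝ := fun u => Real.exp (-σ * |u + s - y|) * k u with hh
  have hhm : Measurable h := by
    rw [hh]
    fun_prop
  -- the weight
  have hw : ∀ u : ℝ, Real.exp (-σ * |u + s - y|) ≤
      Real.exp (-σ * |y - s|) * Real.exp (σ * |u|) := by
    intro u
    rw [← Real.exp_add]
    apply Real.exp_le_exp.2
    have : |y - s| ≤ |u + s - y| + |u| := by
      have := abs_sub_le (y - s) 0 0
      have h3 : y - s = u - (u + s - y) := by ring
      rw [h3]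
      have := abs_sub u (u + s - y)
      have h4 : |u - (u + s - y)| ≤ |u| + |u + s - y| := abs_sub _ _
      linarith
    nlinarith
  have hhb : ∀ u, u ≠ 0 → |h u| ≤ Real.exp (-σ * |y - s|) * (X * Om p ρ u) := by
    intro u hu
    rw [hh]
    simp only
    rw [abs_mul, abs_of_pos (Real.exp_pos _)]
    have a1 := hkb u hu
    have a2 := (Psi_le_Om (p := p) h1 h2 hσ u).1
    have a3 := hw u
    have a4 := Psi_nonneg p ρ u
    calc Real.exp (-σ * |u + s - y|) * |k u|
        ≤ (Real.exp (-σ * |y - s|) * Real.exp (σ * |u|)) * (X * Psi p ρ u) :=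
          mul_le_mul a3 a1 (abs_nonneg _) (by positivity)
      _ = Real.exp (-σ * |y - s|) * (X * (Real.exp (σ * |u|) * Psi p ρ u)) := by ring
      _ ≤ _ := by
          refine mul_le_mul_of_nonneg_left ?_ (Real.exp_pos _).le
          exact mul_le_mul_of_nonneg_left a2 hX
  have hki : Integrable k := by
    refine (hOm.const_mul X).mono' hk.aestronglyMeasurable ?_
    filter_upwards [ae_ne_zero] with u hu
    rw [Real.norm_eq_abs]
    refine (hkb u hu).trans (mul_le_mul_of_nonneg_left ?_ hX)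
    have := (Psi_le_Om (p := p) h1 h2 (σ := 0) (sg_pos h1 h2).le u).1
    simpa using this
  have hhi : Integrable h := by
    refine ((hOm.const_mul X).const_mul (Real.exp (-σ * |y - s|))).mono' hhm.aestronglyMeasurable ?_
    filter_upwards [ae_ne_zero] with u hu
    exact hhb u hu
  have hshift : (fun t => Real.exp (-σ * |t - y|) * k (t - s)) = fun t => h (t - s) := by
    ext t
    rw [hh]
    simp only
    congr 4
    ring
  have hsi : Integrable (fun t => h (t - s)) := hhi.comp_sub_right s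
  refine ⟨by rw [hshift]; exact hsi, ?_, ?_⟩
  · have e1 : (fun t => |Real.exp (-σ * |t - y|) * k (t - s)|) = fun t => |h (t - s)| := by
      ext t
      exact congrArg abs (congrFun hshift t)
    rw [e1, integral_sub_right_eq_self (fun t => |h t|) s]
    calc ∫ t, |h t| ≤ ∫ t, Real.exp (-σ * |y - s|) * (X * Om p ρ t) := by
          apply integral_mono_ae hhi.abs ((hOm.const_mul X).const_mul _)
          filter_upwards [ae_ne_zero] with u hu
          exact hhb u hu
      _ = _ := by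
          rw [integral_const_mul, integral_const_mul, T0]
  · rw [hshift, integral_sub_right_eq_self h s]
    have hdi : Integrable (fun u => h u - Real.exp (-σ * |y - s|) * k u) :=
      hhi.sub (hki.const_mul _)
    have hdb : ∀ u, u ≠ 0 → -(Real.exp (-σ * |y - s|) * (σ * (X * Om p ρ u))) ≤
        h u - Real.exp (-σ * |y - s|) * k u := by
      intro u hu
      have b1 : h u - Real.exp (-σ * |y - s|) * k u
          = (Real.exp (-σ * |u + s - y|) - Real.exp (-σ * |y - s|)) * k u := by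
        rw [hh]; ring
      rw [b1]
      have b2 : abs (abs (u + s - y) - abs (y - s)) ≤ abs u := by
        have := abs_abs_sub_abs_le_abs_sub (u + s - y) (s - y)
        rw [abs_sub_comm y s]
        refine this.trans (le_of_eq ?_)
        congr 1
        ring
      have b3 := exp_sub_le (σ := σ) hσ0.le b2
      have b4 := hkb u hu
      have b5 := (Psi_le_Om (p := p) h1 h2 hσ u).2
      have b6 := Psi_nonneg p ρ u
      have b7 : |(Real.exp (-σ * |u + s - y|) - Real.exp (-σ * |y - s|)) * k u| ≤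
          Real.exp (-σ * |y - s|) * (σ * (X * Om p ρ u)) := by
        rw [abs_mul]
        calc |Real.exp (-σ * |u + s - y|) - Real.exp (-σ * |y - s|)| * |k u|
            ≤ (Real.exp (-σ * |y - s|) * (σ * |u| * Real.exp (σ * |u|))) * (X * Psi p ρ u) :=
              mul_le_mul b3 b4 (abs_nonneg _) (by positivity)
          _ = Real.exp (-σ * |y - s|) * (σ * (X * (|u| * Real.exp (σ * |u|) * Psi p ρ u))) := by
              ring
          _ ≤ _ := by gcongr
      exact (abs_le.1 b7).1
    have key : -(Real.exp (-σ * |y - s|) * (σ * (X * T0 p ρ))) ≤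
        ∫ u, (h u - Real.exp (-σ * |y - s|) * k u) := by
      have e2 : ∫ u, -(Real.exp (-σ * |y - s|) * (σ * (X * Om p ρ u)))
          = -(Real.exp (-σ * |y - s|) * (σ * (X * T0 p ρ))) := by
        rw [integral_neg, integral_const_mul, integral_const_mul, integral_const_mul, T0]
      rw [← e2]
      apply integral_mono_ae _ hdi
      · filter_upwards [ae_ne_zero] with u hu
        exact hdb u hu
      · exact (((hOm.const_mul X).const_mul σ).const_mul _).neg
    rw [integral_sub hhi (hki.const_mul _), integral_const_mul] at key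
    have e3 := Real.exp_pos (-σ * |y - s|)
    nlinarith

end

theorem compact_TT (p : ℕ) : IsCompact (TT p) := by
  have h : TT p = Icc 0 π ∩ {α | p = 1 → α = 0 ∨ α = π} := by
    ext α
    simp [TT]
  rw [h]
  apply isCompact_Icc.inter_right
  by_cases hp : p = 1
  · have : {α : ℝ | p = 1 → α = 0 ∨ α = π} = {0, π} := by
      ext α
      simp [hp]
    rw [this]
    exact (Set.toFinite _).isClosed
  · have : {α : ℝ | p = 1 → α = 0 ∨ α = π} = univ := by
      ext α
      simp [hp]
    rw [this]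
    exact isClosed_univ

theorem integrable_exp_abs {σ : ℝ} (hσ : 0 < σ) (y : ℝ) :
    Integrable (fun t => Real.exp (-σ * |t - y|)) := by
  have hf : IntegrableOn (fun t : ℝ => Real.exp (-σ * |t|)) (Ioi 0) := by
    refine (exp_neg_integrableOn_Ioi 0 hσ).congr_fun ?_ measurableSet_Ioi
    intro t ht
    simp only
    rw [abs_of_pos (by exact ht)]
  have hg : IntegrableOn (fun t : ℝ => Real.exp (-σ * |t|)) (Iic 0) := by
    rw [← Measure.map_neg_eq_self (volume : Measure ℝ)]
    let m : MeasurableEmbedding fun x : ℝ => -x := (Homeomorph.neg ℝ).measurableEmbedding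
    rw [m.integrableOn_map_iff]
    simp_rw [Function.comp_def, abs_neg, neg_preimage, neg_Iic, neg_zero]
    exact Iff.mpr integrableOn_Ici_iff_integrableOn_Ioi hf
  have h1 : Integrable (fun t : ℝ => Real.exp (-σ * |t|)) := by
    rw [← integrableOn_univ, ← Iic_union_Ioi (a := (0 : ℝ))]
    exact hg.union hf
  exact h1.comp_sub_right y

/-- Upper bound for the normalised potential. -/
theorem UB_bound (hp : p ≤ 1) (h1 : (p : ℝ) < ρ) (h2 : ρ < p + 1) (D : ZD p ρ ι) {θ g : ℝ}
    (hU : D.UB θ g) : ∃ M : ℝ, 0 ≤ M ∧ ∀ᵐ t : ℝ, Real.exp (-ρ * t) * D.U t θ ≤ M := by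
  obtain ⟨Y, hY⟩ := hU
  obtain ⟨B, hB⟩ := D.N_cmp (sg_pos h1 h2) Y
  obtain ⟨C, hC, hCU⟩ := ZD.U_le hp h1 h2
  refine ⟨|g| + C * |B|, by positivity, ?_⟩
  filter_upwards [hY, D.ae_ne] with t ht1 ht2
  have e0 : Real.exp (-ρ * t) * Real.exp (ρ * t) = 1 := by
    rw [← Real.exp_add]
    simp
  have e1 := Real.exp_pos (-ρ * t)
  rcases le_or_gt Y t with h | h
  · have := ht1 h
    calc Real.exp (-ρ * t) * D.U t θ ≤ Real.exp (-ρ * t) * (g * Real.exp (ρ * t)) :=
          mul_le_mul_of_nonneg_left this e1.le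
      _ = g := by
          linear_combination g * e0
      _ ≤ |g| + C * |B| := by
          have := le_abs_self g
          have : 0 ≤ C * |B| := by positivity
          linarith
  · have h3 := hCU D (fun _ => 1) (fun _ => ⟨zero_le_one, le_rfl⟩) t θ ht2
    simp only [one_mul] at h3
    have h4 : D.U t θ ≤ C * Real.exp (ρ * t) * |B| := by
      refine h3.trans ?_
      exact mul_le_mul_of_nonneg_left ((hB t h.le).trans (le_abs_self B)) (by positivity)
    calc Real.exp (-ρ * t) * D.U t θ ≤ Real.exp (-ρ * t) * (C * Real.exp (ρ * t) * |B|) :=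
          mul_le_mul_of_nonneg_left h4 e1.le
      _ = C * |B| := by
          linear_combination C * |B| * e0
      _ ≤ |g| + C * |B| := by
          have := abs_nonneg g
          linarith

theorem kn_shift (p : ℕ) (ρ s t ψ : ℝ) :
    Real.exp (-ρ * s) * kn p ρ (t - s) ψ = Real.exp (-ρ * t) * kp p (t - s) ψ := by
  unfold kn
  rw [show Real.exp (-ρ * t) = Real.exp (-ρ * s) * Real.exp (-ρ * (t - s)) by
    rw [← Real.exp_add]; congr 1; ring]
  ring

end DP

theorem densP (hp : p ≤ 1) (h1 : (p : ℝ) < ρ) (h2 : ρ < p + 1) (D : ZD p ρ ι) {n : ℕ}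
    {θ : Fin n → ℝ} {g x : Fin n → ℝ} (hx : ∀ i, 0 ≤ x i)
    (hP : ∀ α ∈ TT p, 0 < ∑ i, x i * VV p ρ (θ i - α)) (hU : ∀ i, D.UB (θ i) (g i)) :
    ∃ B : ℝ, ∀ y, D.N (sg p ρ) y ≤ B := by
  classical
  have := D.countable
  -- the constant c
  obtain ⟨c, hc0, hc⟩ : ∃ c : ℝ, 0 < c ∧ ∀ α ∈ TT p, c ≤ ∑ i, x i * VV p ρ (θ i - α) := by
    have hne : (TT p).Nonempty := ⟨0, ⟨le_rfl, Real.pi_pos.le⟩, fun _ => Or.inl rfl⟩
    have hcont : ContinuousOn (fun α => ∑ i, x i * VV p ρ (θ i - α)) (TT p) := by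
      have := continuous_VV hp h1 h2
      fun_prop
    obtain ⟨α₀, hα₀, hmin⟩ := (DP.compact_TT p).exists_isMinOn hne hcont
    exact ⟨_, hP α₀ hα₀, fun α hα => hmin hα⟩
  set X : ℝ := ∑ i, x i with hXdef
  have hX : 0 ≤ X := Finset.sum_nonneg fun i _ => hx i
  have hT := DP.T0_nonneg p ρ
  have hsg := sg_pos h1 h2
  set E : ℝ := X * DP.T0 p ρ with hE
  have hE0 : 0 ≤ E := mul_nonneg hX hT
  obtain ⟨σ, hσ0, hσ1, hσ2⟩ : ∃ σ : ℝ, 0 < σ ∧ σ ≤ sg p ρ ∧ σ * E ≤ c / 2 := by
    refine ⟨min (sg p ρ) (c / (2 * E + 1)), lt_min hsg (by positivity), min_le_left _ _, ?_⟩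
    have h3 : min (sg p ρ) (c / (2 * E + 1)) * E ≤ c / (2 * E + 1) * E :=
      mul_le_mul_of_nonneg_right (min_le_right _ _) hE0
    refine h3.trans ?_
    rw [div_mul_eq_mul_div, div_le_iff₀ (by positivity)]
    nlinarith
  -- kernels
  set k : ι → ℝ → ℝ := fun j u => ∑ i, x i * kn p ρ u (θ i - D.a j) with hk
  have hkm : ∀ j, Measurable (k j) := by
    intro j
    have h4 : ∀ i, Measurable fun u : ℝ => kn p ρ u (θ i - D.a j) := fun i =>
      DP.meas_kn p ρ _
    rw [hk]
    simp only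
    exact Finset.measurable_sum _ fun i _ => (h4 i).const_mul _
  have hkb : ∀ j u, u ≠ 0 → |k j u| ≤ X * Psi p ρ u := by
    intro j u hu
    rw [hk]
    simp only
    refine (Finset.abs_sum_le_sum_abs _ _).trans ?_
    rw [hXdef, Finset.sum_mul]
    refine Finset.sum_le_sum fun i _ => ?_
    rw [abs_mul, abs_of_nonneg (hx i)]
    exact mul_le_mul_of_nonneg_left (abs_kn_le hp ρ hu _) (hx i)
  have hki : ∀ j, c ≤ ∫ u, k j u := by
    intro j
    have h3 : ∫ u, k j u = ∑ i, x i * VV p ρ (θ i - D.a j) := by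
      rw [hk]
      simp only
      rw [integral_finsetSum _ fun i _ => (integrable_kn hp h1 h2 _).const_mul _]
      refine Finset.sum_congr rfl fun i _ => ?_
      rw [integral_const_mul, VV]
    rw [h3]
    exact hc _ (D.ha j)
  -- the upper bound of the potentials
  have hM : ∃ M : ℝ, 0 ≤ M ∧ ∀ᵐ t : ℝ, Real.exp (-ρ * t) * ∑ i, x i * D.U t (θ i) ≤ M := by
    choose Mi hMi0 hMi using fun i => DP.UB_bound hp h1 h2 D (hU i)
    refine ⟨∑ i, x i * Mi i, Finset.sum_nonneg fun i _ => mul_nonneg (hx i) (hMi0 i), ?_⟩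
    have h3 := (ae_all_iff (μ := (volume : Measure ℝ))).2 hMi
    filter_upwards [h3] with t ht
    rw [Finset.mul_sum]
    refine Finset.sum_le_sum fun i _ => ?_
    have := mul_le_mul_of_nonneg_left (ht i) (hx i)
    calc _ = x i * (Real.exp (-ρ * t) * D.U t (θ i)) := by ring
      _ ≤ _ := this
  obtain ⟨M, hM0, hM⟩ := hM
  -- the bound
  have hbound : ∀ y, D.N σ y ≤ M * (∫ t, Real.exp (-σ * |t|)) / (c / 2) := by
    intro y
    have hw := fun j => DP.weighted hp h1 h2 hX (hkm j) (hkb j) (hki j) hσ0 hσ1 (D.s j) y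
    set F : ι → ℝ → ℝ := fun j t => Real.exp (-ρ * D.s j) *
      (Real.exp (-σ * |t - y|) * k j (t - D.s j)) with hF
    have hFi : ∀ j, Integrable (F j) := fun j => (hw j).1.const_mul _
    have hNs := D.N_summable hσ0 y
    have hFs : Summable fun j => ∫ t, ‖F j t‖ := by
      refine Summable.of_nonneg_of_le (fun j => integral_nonneg fun t => norm_nonneg _)
        (fun j => ?_) (hNs.mul_right E)
      have h3 : ∫ t, ‖F j t‖ = Real.exp (-ρ * D.s j) *
          ∫ t, |Real.exp (-σ * |t - y|) * k j (t - D.s j)| := by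
        rw [← integral_const_mul]
        refine integral_congr_ae (Eventually.of_forall fun t => ?_)
        simp only [hF, Real.norm_eq_abs]
        rw [abs_mul, abs_of_pos (Real.exp_pos (-ρ * D.s j))]
      rw [h3, mul_assoc]
      exact mul_le_mul_of_nonneg_left (hw j).2.1 (Real.exp_pos _).le
    have hsum := hasSum_integral_of_summable_integral_norm hFi hFs
    have hge : c / 2 * D.N σ y ≤ ∫ t, ∑' j, F j t := by
      rw [← hsum.tsum_eq, ZD.N, ← tsum_mul_left]
      refine Summable.tsum_le_tsum (fun j => ?_) (hNs.mul_left _) hsum.summable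
      have h3 := (hw j).2.2
      have h4 : ∫ t, F j t = Real.exp (-ρ * D.s j) *
          ∫ t, Real.exp (-σ * |t - y|) * k j (t - D.s j) := by
        rw [← integral_const_mul]
      rw [h4]
      have h5 : c / 2 ≤ c - σ * E := by linarith
      have h6 : Real.exp (-σ * |y - D.s j|) * (c / 2) ≤
          ∫ t, Real.exp (-σ * |t - y|) * k j (t - D.s j) :=
        (mul_le_mul_of_nonneg_left h5 (Real.exp_pos _).le).trans h3
      calc c / 2 * (Real.exp (-ρ * D.s j) * Real.exp (-σ * |y - D.s j|))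
          = Real.exp (-ρ * D.s j) * (Real.exp (-σ * |y - D.s j|) * (c / 2)) := by ring
        _ ≤ _ := mul_le_mul_of_nonneg_left h6 (Real.exp_pos _).le
    have hpt : ∀ᵐ t : ℝ, ∑' j, F j t ≤ Real.exp (-σ * |t - y|) * M := by
      filter_upwards [hM, D.ae_ne] with t ht1 ht2
      have h3 : ∀ j, F j t = Real.exp (-σ * |t - y|) * (Real.exp (-ρ * t) *
          ∑ i, x i * kp p (t - D.s j) (θ i - D.a j)) := by
        intro j
        simp only [hF, hk]
        have h4 : Real.exp (-ρ * D.s j) * ∑ i, x i * kn p ρ (t - D.s j) (θ i - D.a j)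
            = Real.exp (-ρ * t) * ∑ i, x i * kp p (t - D.s j) (θ i - D.a j) := by
          rw [Finset.mul_sum, Finset.mul_sum]
          refine Finset.sum_congr rfl fun i _ => ?_
          have := DP.kn_shift p ρ (D.s j) t (θ i - D.a j)
          linear_combination x i * this
        rw [← h4]
        ring
      have h5 : ∑' j, F j t = Real.exp (-σ * |t - y|) * (Real.exp (-ρ * t) *
          ∑ i, x i * D.U t (θ i)) := by
        rw [tsum_congr h3, tsum_mul_left, tsum_mul_left, Summable.tsum_finsetSum]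
        · congr 2
          refine Finset.sum_congr rfl fun i _ => ?_
          rw [tsum_mul_left, ZD.U]
        · intro i _
          exact (D.U_summable hp h1 h2 ht2 (θ i)).of_abs.mul_left _
      rw [h5]
      exact mul_le_mul_of_nonneg_left ht1 (Real.exp_pos _).le
    have hle : ∫ t, ∑' j, F j t ≤ M * ∫ t, Real.exp (-σ * |t|) := by
      have hR : ∫ t, Real.exp (-σ * |t - y|) * M = M * ∫ t, Real.exp (-σ * |t|) := by
        rw [integral_mul_const, integral_sub_right_eq_self (fun t => Real.exp (-σ * |t|)) y,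
          mul_comm]
      by_cases hi : Integrable fun t => ∑' j, F j t
      · rw [← hR]
        exact integral_mono_ae hi ((DP.integrable_exp_abs hσ0 y).mul_const M) hpt
      · rw [integral_undef hi]
        exact mul_nonneg hM0 (integral_nonneg fun t => (Real.exp_pos _).le)
    rw [le_div_iff₀ (by positivity), mul_comm]
    exact hge.trans hle
  exact D.N_all hσ0 hsg hbound

theorem VV_pair (hp : p ≤ 1) (h1 : (p : ℝ) < ρ) (h2 : ρ < p + 1) (hρ : 1 / 2 < ρ) (a α : ℝ) :
    0 ≤ VV p ρ (a - α) + VV p ρ (a + π / ρ - α) := by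
  have hpi := Real.pi_pos
  have hρ0 : 0 < ρ := by linarith
  have hP0 : 0 < π / ρ := by positivity
  have hP2 : π / ρ < 2 * π := by
    rw [div_lt_iff₀ hρ0]
    nlinarith
  have hρP : ρ * (π / ρ) = π := by field_simp
  set ψ := a - α with hψ
  have e0 : a + π / ρ - α = ψ + π / ρ := by rw [hψ]; ring
  rw [e0, VV_eq hp h1 h2 ψ, VV_eq hp h1 h2 (ψ + π / ρ), ← mul_add]
  -- reduction
  obtain ⟨m, x, hx0, hx1, hx⟩ : ∃ (m : ℤ) (x : ℝ), 0 ≤ x ∧ x < 2 * π ∧ ψ = x + m * (2 * π) := by
    refine ⟨⌊ψ / (2 * π)⌋, ψ - ⌊ψ / (2 * π)⌋ * (2 * π), ?_, ?_, by ring⟩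
    · have := Int.floor_le (ψ / (2 * π))
      rw [le_div_iff₀ (by positivity)] at this
      linarith
    · have := Int.lt_floor_add_one (ψ / (2 * π))
      rw [div_lt_iff₀ (by positivity)] at this
      linarith
  have hG : ∀ z : ℝ, 0 ≤ z → z ≤ 2 * π → G ρ z = Real.cos (ρ * (π - z)) := by
    intro z hz0 hz1
    rcases le_total z π with h | h
    · rw [G_of_abs_le (by rw [abs_of_nonneg hz0]; exact h), abs_of_nonneg hz0]
    · have h3 := G_add_int ρ (z - 2 * π) 1
      rw [Int.cast_one, one_mul, sub_add_cancel] at h3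
      rw [h3, G_of_abs_le (by rw [abs_of_nonpos (by linarith)]; linarith),
        abs_of_nonpos (by linarith), ← Real.cos_neg]
      congr 1
      ring
  have g1 : G ρ ψ = Real.cos (ρ * (π - x)) := by
    rw [hx, G_add_int, hG x hx0 hx1.le]
  have g2' : G ρ (ψ + π / ρ) = G ρ (x + π / ρ) := by
    rw [hx, show x + m * (2 * π) + π / ρ = (x + π / ρ) + m * (2 * π) by ring, G_add_int]
  rcases le_or_gt (x + π / ρ) (2 * π) with hc | hc
  · have g2 : G ρ (x + π / ρ) = -Real.cos (ρ * (π - x)) := by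
      rw [hG _ (by linarith) hc, ← Real.cos_sub_pi]
      congr 1
      linear_combination -hρP
    rw [g1, g2', g2]
    simp
  · have g2 : G ρ (x + π / ρ) = -Real.cos (ρ * (3 * π - x)) := by
      have h3 := G_add_int ρ (x + π / ρ - 2 * π) 1
      rw [Int.cast_one, one_mul, sub_add_cancel] at h3
      rw [h3, hG _ (by linarith) (by linarith), ← Real.cos_sub_pi]
      congr 1
      linear_combination -hρP
    have hs : Real.cos (ρ * (π - x)) + -Real.cos (ρ * (3 * π - x))
        = 2 * Real.sin (ρ * (2 * π - x)) * Real.sin (ρ * π) := by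
      have a1 : ρ * (π - x) = ρ * (2 * π - x) - ρ * π := by ring
      have a2 : ρ * (3 * π - x) = ρ * (2 * π - x) + ρ * π := by ring
      rw [a1, a2, Real.cos_sub, Real.cos_add]
      ring
    have hsin1 : 0 < Real.sin (ρ * (2 * π - x)) := by
      apply Real.sin_pos_of_pos_of_lt_pi
      · exact mul_pos hρ0 (by linarith)
      · have : ρ * (2 * π - x) < ρ * (π / ρ) := mul_lt_mul_of_pos_left (by linarith) hρ0
        linarith
    rw [g1, g2', g2, hs]
    interval_cases p
    · have h3 := VV_pi_zero (ρ := ρ) (by simpa using h1) (by simpa using h2)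
      have h4 : 0 < Real.sin (ρ * π) := by
        apply Real.sin_pos_of_pos_of_lt_pi
        · positivity
        · have : ρ < 1 := by simpa using h2
          nlinarith
      positivity
    · have h1' : 1 < ρ := by simpa using h1
      have h2' : ρ < 2 := by
        have : ρ < ((1 : ℕ) : ℝ) + 1 := h2
        norm_num at this
        exact this
      have h3 := VV_pi_one (ρ := ρ) h1' h2'
      have h4 : Real.sin (ρ * π) < 0 := by
        have h5 : 0 < Real.sin (ρ * π - π) := by
          apply Real.sin_pos_of_pos_of_lt_pi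
          · nlinarith
          · nlinarith
        rw [Real.sin_sub_pi] at h5
        linarith
      have h6 : 0 ≤ (-VV 1 ρ π) * (2 * Real.sin (ρ * (2 * π - x)) * (-Real.sin (ρ * π))) := by
        have : 0 < -VV 1 ρ π := by linarith
        have : 0 < -Real.sin (ρ * π) := by linarith
        positivity
      linarith

namespace DP

/-- Integrals over intervals of a kernel with nonnegative total mass. -/
theorem interval_ge (hp : p ≤ 1) (h1 : (p : ℝ) < ρ) (h2 : ρ < p + 1) {k : ℝ → ℝ} {X : ℝ}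
    (hX : 0 ≤ X) (hk : Measurable k) (hkb : ∀ u, u ≠ 0 → |k u| ≤ X * Psi p ρ u)
    (hc : 0 ≤ ∫ u, k u) {l r : ℝ} (hlr : l ≤ r) :
    -(X * T0 p ρ * (Real.exp (-(sg p ρ) * |l|) + Real.exp (-(sg p ρ) * |r|))) ≤
      ∫ u in l..r, k u := by
  have hOm := int_Om hp h1 h2
  have hsg := sg_pos h1 h2
  have hT := T0_nonneg p ρ
  have hki : Integrable k := by
    refine (hOm.const_mul X).mono' hk.aestronglyMeasurable ?_
    filter_upwards [ae_ne_zero] with u hu
    rw [Real.norm_eq_abs]
    refine (hkb u hu).trans (mul_le_mul_of_nonneg_left ?_ hX)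
    have := (Psi_le_Om (p := p) h1 h2 (σ := 0) (sg_pos h1 h2).le u).1
    simpa using this
  -- tails
  have tail : ∀ (S : Set ℝ) (R : ℝ), MeasurableSet S → (∀ u ∈ S, R ≤ |u|) →
      ∫ u in S, |k u| ≤ X * T0 p ρ * Real.exp (-(sg p ρ) * R) := by
    intro S R hS hR
    have b : ∀ u, u ≠ 0 → u ∈ S → |k u| ≤ (X * Om p ρ u) * Real.exp (-(sg p ρ) * R) := by
      intro u hu huS
      have a1 := hkb u hu
      have a2 := (Psi_le_Om (p := p) h1 h2 (σ := sg p ρ) le_rfl u).1
      have a3 : 1 ≤ Real.exp (sg p ρ * |u|) * Real.exp (-(sg p ρ) * R) := by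
        rw [← Real.exp_add]
        apply Real.one_le_exp
        have := hR u huS
        nlinarith
      have a4 := Psi_nonneg p ρ u
      calc |k u| ≤ X * Psi p ρ u := a1
        _ = X * Psi p ρ u * 1 := by ring
        _ ≤ X * Psi p ρ u * (Real.exp (sg p ρ * |u|) * Real.exp (-(sg p ρ) * R)) :=
            mul_le_mul_of_nonneg_left a3 (by positivity)
        _ = (X * (Real.exp (sg p ρ * |u|) * Psi p ρ u)) * Real.exp (-(sg p ρ) * R) := by ring
        _ ≤ _ := by gcongr
    calc ∫ u in S, |k u| ≤ ∫ u in S, (X * Om p ρ u) * Real.exp (-(sg p ρ) * R) := by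
          refine setIntegral_mono_on_ae hki.abs.integrableOn
            ((hOm.const_mul X).mul_const _).integrableOn hS ?_
          filter_upwards [ae_ne_zero] with u hu huS
          exact b u hu huS
      _ ≤ ∫ u, (X * Om p ρ u) * Real.exp (-(sg p ρ) * R) := by
          apply setIntegral_le_integral ((hOm.const_mul X).mul_const _)
          refine Eventually.of_forall fun u => ?_
          have := Om_nonneg p ρ u
          simp only [Pi.zero_apply]
          positivity
      _ = _ := by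
          rw [integral_mul_const, integral_const_mul, T0]
  have habs : ∀ S : Set ℝ, |∫ u in S, k u| ≤ ∫ u in S, |k u| := fun S =>
    abs_integral_le_integral_abs
  have hXT : 0 ≤ X * T0 p ρ := mul_nonneg hX hT
  have el := Real.exp_pos (-(sg p ρ) * |l|)
  have er := Real.exp_pos (-(sg p ρ) * |r|)
  rcases le_or_gt l 0 with hl | hl
  · rcases le_or_gt 0 r with hr | hr
    · have e1 : ∫ u in l..r, k u = (∫ u in Iic r, k u) - ∫ u in Iic l, k u :=
        (intervalIntegral.integral_Iic_sub_Iic hki.integrableOn hki.integrableOn).symm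
      have e2 : (∫ u in Iic r, k u) + ∫ u in Ioi r, k u = ∫ u, k u :=
        intervalIntegral.integral_Iic_add_Ioi hki.integrableOn hki.integrableOn
      have t1 := tail (Iic l) |l| measurableSet_Iic (fun u hu => by
        have hu' : u ≤ l := hu
        rw [abs_of_nonpos hl, abs_of_nonpos (hu'.trans hl)]
        linarith)
      have t2 := tail (Ioi r) |r| measurableSet_Ioi (fun u hu => by
        have hu' : r < u := hu
        rw [abs_of_nonneg hr, abs_of_nonneg (hr.trans hu'.le)]
        linarith)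
      have a1 := (abs_le.1 (habs (Iic l))).2
      have a2 := (abs_le.1 (habs (Ioi r))).2
      rw [e1]
      rw [mul_add]
      linarith
    · have t1 := tail (Ioc l r) |r| measurableSet_Ioc (fun u hu => by
        have hu' : u ≤ r := hu.2
        rw [abs_of_nonpos hr.le, abs_of_nonpos (hu'.trans hr.le)]
        linarith)
      rw [intervalIntegral.integral_of_le hlr]
      have a1 := (abs_le.1 (habs (Ioc l r))).1
      have : 0 ≤ X * T0 p ρ * Real.exp (-(sg p ρ) * |l|) := by positivity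
      rw [mul_add]
      linarith
  · have t1 := tail (Ioc l r) |l| measurableSet_Ioc (fun u hu => by
      have hu' : l < u := hu.1
      rw [abs_of_pos hl, abs_of_pos (hl.trans hu')]
      linarith)
    rw [intervalIntegral.integral_of_le hlr]
    have a1 := (abs_le.1 (habs (Ioc l r))).1
    have : 0 ≤ X * T0 p ρ * Real.exp (-(sg p ρ) * |r|) := by positivity
    rw [mul_add]
    linarith

/-- Upper bound of the integral of the normalised potential. -/
theorem int_U_le {D : ZD p ρ ι} {θ g Y₀ Y y : ℝ}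
    (hg : ∀ᵐ y : ℝ, Y₀ ≤ y → D.U y θ ≤ g * Real.exp (ρ * y)) (hY : Y₀ ≤ Y) (hy : Y ≤ y)
    (hi : IntervalIntegrable (fun t => Real.exp (-ρ * t) * D.U t θ) volume Y y) :
    ∫ t in Y..y, Real.exp (-ρ * t) * D.U t θ ≤ g * (y - Y) := by
  have h3 : ∫ t in Y..y, g = g * (y - Y) := by
    rw [intervalIntegral.integral_const, smul_eq_mul, mul_comm]
  rw [← h3]
  apply intervalIntegral.integral_mono_ae_restrict hy hi intervalIntegrable_const
  rw [EventuallyLE, ae_restrict_iff' measurableSet_Icc]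
  filter_upwards [hg] with t ht htI
  have e0 : Real.exp (-ρ * t) * Real.exp (ρ * t) = 1 := by
    rw [← Real.exp_add]
    simp
  have e1 := Real.exp_pos (-ρ * t)
  calc Real.exp (-ρ * t) * D.U t θ ≤ Real.exp (-ρ * t) * (g * Real.exp (ρ * t)) :=
        mul_le_mul_of_nonneg_left (ht (hY.trans htI.1)) e1.le
    _ = g := by linear_combination g * e0

end DP

theorem densAvg (hp : p ≤ 1) (h1 : (p : ℝ) < ρ) (h2 : ρ < p + 1) (hρ : 1 / 2 < ρ) (D : ZD p ρ ι)
    {B : ℝ} (hN : ∀ y, D.N (sg p ρ) y ≤ B) {a g₁ g₂ : ℝ} (hA : D.UB a g₁)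
    (hB : D.UB (a + π / ρ) g₂) : 0 ≤ g₁ + g₂ := by
  classical
  obtain ⟨Ya, hYa⟩ := hA
  obtain ⟨Yb, hYb⟩ := hB
  have hsg := sg_pos h1 h2
  have hT := DP.T0_nonneg p ρ
  have hB0 : 0 ≤ B := (D.N_nonneg (sg p ρ) 0).trans (hN 0)
  set Y := max Ya Yb with hY
  set b := a + π / ρ with hb
  have main : ∀ y, Y ≤ y → -(4 * DP.T0 p ρ * B) ≤ (g₁ + g₂) * (y - Y) := by
    intro y hy
    obtain ⟨ia, sa, ea⟩ := D.U_int hp h1 h2 a Y y hy
    obtain ⟨ib, sb, eb⟩ := D.U_int hp h1 h2 b Y y hy
    have ua := DP.int_U_le hYa (le_max_left _ _) hy ia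
    have ub := DP.int_U_le hYb (le_max_right _ _) hy ib
    have hsum : ∀ θ : ℝ,
        (Summable fun i => Real.exp (-ρ * D.s i) * ∫ t in Y..y, |kn p ρ (t - D.s i) (θ - D.a i)|) →
        Summable fun i => Real.exp (-ρ * D.s i) * ∫ t in Y..y, kn p ρ (t - D.s i) (θ - D.a i) := by
      intro θ hs
      refine Summable.of_norm_bounded hs fun i => ?_
      rw [Real.norm_eq_abs, abs_mul, abs_of_pos (Real.exp_pos _)]
      refine mul_le_mul_of_nonneg_left ?_ (Real.exp_pos _).le
      exact intervalIntegral.abs_integral_le_integral_abs hy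
    have sa' := hsum a sa
    have sb' := hsum b sb
    have hNY := D.N_summable hsg Y
    have hNy := D.N_summable hsg y
    have low : ∀ i, -(2 * DP.T0 p ρ) * (Real.exp (-ρ * D.s i) * Real.exp (-(sg p ρ) * |Y - D.s i|) +
        Real.exp (-ρ * D.s i) * Real.exp (-(sg p ρ) * |y - D.s i|)) ≤
        Real.exp (-ρ * D.s i) * (∫ t in Y..y, kn p ρ (t - D.s i) (a - D.a i)) +
        Real.exp (-ρ * D.s i) * (∫ t in Y..y, kn p ρ (t - D.s i) (b - D.a i)) := by
      intro i
      have hma : Measurable fun u : ℝ => kn p ρ u (a - D.a i) := DP.meas_kn p ρ _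
      have hmb : Measurable fun u : ℝ => kn p ρ u (b - D.a i) := DP.meas_kn p ρ _
      have ika := integrable_kn hp h1 h2 (a - D.a i)
      have ikb := integrable_kn hp h1 h2 (b - D.a i)
      have hk0 : 0 ≤ ∫ u, (kn p ρ u (a - D.a i) + kn p ρ u (b - D.a i)) := by
        rw [integral_add ika ikb]
        exact VV_pair hp h1 h2 hρ a (D.a i)
      have h5 := DP.interval_ge hp h1 h2 (X := 2) (by norm_num) (hma.add hmb)
        (fun u hu => by
          have b1 := abs_kn_le hp ρ hu (a - D.a i)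
          have b2 := abs_kn_le hp ρ hu (b - D.a i)
          have b3 := abs_add_le (kn p ρ u (a - D.a i)) (kn p ρ u (b - D.a i))
          change |kn p ρ u (a - D.a i) + kn p ρ u (b - D.a i)| ≤ _
          linarith) hk0 (l := Y - D.s i) (r := y - D.s i) (by linarith)
      have h6 : ∫ u in (Y - D.s i)..(y - D.s i), (kn p ρ u (a - D.a i) + kn p ρ u (b - D.a i))
          = (∫ t in Y..y, kn p ρ (t - D.s i) (a - D.a i)) +
            ∫ t in Y..y, kn p ρ (t - D.s i) (b - D.a i) := by
        rw [intervalIntegral.integral_add ika.intervalIntegrable ikb.intervalIntegrable,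
          intervalIntegral.integral_comp_sub_right (fun u => kn p ρ u (a - D.a i)) (D.s i),
          intervalIntegral.integral_comp_sub_right (fun u => kn p ρ u (b - D.a i)) (D.s i)]
      have h7 : -(2 * DP.T0 p ρ * (Real.exp (-(sg p ρ) * |Y - D.s i|) +
          Real.exp (-(sg p ρ) * |y - D.s i|))) ≤
          (∫ t in Y..y, kn p ρ (t - D.s i) (a - D.a i)) +
            ∫ t in Y..y, kn p ρ (t - D.s i) (b - D.a i) := by
        rw [← h6]
        exact h5
      have h8 := mul_le_mul_of_nonneg_left h7 (Real.exp_pos (-ρ * D.s i)).le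
      linarith
    have hlow : -(2 * DP.T0 p ρ) * (D.N (sg p ρ) Y + D.N (sg p ρ) y) ≤
        (∫ t in Y..y, Real.exp (-ρ * t) * D.U t a) +
          ∫ t in Y..y, Real.exp (-ρ * t) * D.U t b := by
      rw [ea, eb, ← sa'.tsum_add sb', ZD.N, ZD.N, ← hNY.tsum_add hNy, ← tsum_mul_left]
      exact Summable.tsum_le_tsum low ((hNY.add hNy).mul_left _) (sa'.add sb')
    have c1 := hN Y
    have c2 := hN y
    have c3 : 0 ≤ 2 * DP.T0 p ρ := by positivity
    nlinarith
  by_contra hneg
  push Not at hneg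
  have h3 : 0 < -(g₁ + g₂) := by linarith
  have h4 := main (Y + (4 * DP.T0 p ρ * B + 1) / (-(g₁ + g₂))) (by
    have : 0 ≤ (4 * DP.T0 p ρ * B + 1) / (-(g₁ + g₂)) := by positivity
    linarith)
  have h5 : (g₁ + g₂) * (Y + (4 * DP.T0 p ρ * B + 1) / (-(g₁ + g₂)) - Y)
      = -(4 * DP.T0 p ρ * B + 1) := by
    have hne : g₁ + g₂ ≠ 0 := hneg.ne
    rw [add_sub_cancel_left, div_neg, mul_neg, mul_div_cancel₀ _ hne]
  rw [h5] at h4
  linarith

end HBInf
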