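import Pool.Agent.HBInf.ZDTools
import Pool.Agent.HBInf.Moments

/-!
# The critical rays `±ω`, `±(π - ω)`, `ω = π/(2ρ)`, for `1 < ρ < 2`

For `p = 1` the arguments `a i` are `0` or `π`, so `U y (-θ) = U y θ` (`kn_neg`, `kn_add_int`), and with the mirrored
data (`a i ↦ π - a i`, `ZD.mirror`) `U` at `θ` becomes `U` at `π - θ`. So we may assume `θ = ω ∈ (π/4, π/2)`; put
`c = cos ω > 0`, `cos 2ω < 0`. With `r = e^t`:
* `kp 1 t ω = (1/2) log (1 - 2 r c + r²) + r c`, its derivative in `r` is `r (1 - 2c² + c r) / (1 - 2rc + r²) > 0`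
  (`1 - 2 c² = -cos 2ω > 0`), and it is `0` at `r = 0`: so `kp 1 t ω > 0` for all `t`.
* `kp 1 t (ω - π) = (1/2) log (1 + 2 r c + r²) - r c`, with derivative `r (1 - 2c² - c r) / (1 + 2rc + r²)`: it
  increases from `0` and then decreases to `-∞`; positive up to some `t₀` and negative afterwards. Also
  `∫ kn 1 ρ t (ω - π) dt = VV 1 ρ (ω - π) = VV 1 ρ π cos (ρω) = 0` (`VV_eq`). So
  `K_π x = ∫_{-∞}^x kn 1 ρ t (ω - π) dt > 0` for all `x`, and `K_0 x = ∫_{-∞}^x kn 1 ρ t ω dt > 0`; both continuous;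
  let `c₀ > 0` be a lower bound of both on `[0, 1]`.
* For `y ≥ Y`: `∫_Y^y e^{-ρt} U t ω dt = ∑ e^{-ρ s_i} (K (y - s_i) - K (Y - s_i))` (`ZD.U_int`), so
  `∑ e^{-ρ s_i} K (y - s_i) ≤ g (y - Y) + C_Y`, `C_Y = ∑ e^{-ρ s_i} K (Y - s_i) < ∞`
  (`K x ≤ C e^{sg x}` for `x ≤ 0`, bounded for `x ≥ 0`). The left side is `≥ 0`: so `g ≥ 0`. And
  `∑_{y - 1 ≤ s_i ≤ y} e^{-ρ s_i} ≤ (g (y - Y) + C_Y) / c₀`, hence `N (sg) y ≤ C (1 + |y|)` (sum over unit
  intervals with the weights `e^{-sg |k|}`; `ZD.N_cmp` on the left).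
-/

namespace HBInf

open HBInd Complex Filter Topology Set MeasureTheory
open scoped Real ComplexConjugate

variable {p : ℕ} {ρ : ℝ} {ι : Type}

theorem TT_mirror {α : ℝ} (h : α ∈ TT p) : π - α ∈ TT p := by
  obtain ⟨⟨h1, h2⟩, h3⟩ := h
  refine ⟨⟨by linarith, by linarith⟩, fun hp => ?_⟩
  rcases h3 hp with h | h
  · right; rw [h]; ring
  · left; rw [h]; ring

/-- the zeros reflected in the imaginary axis -/
noncomputable def ZD.mirror (D : ZD p ρ ι) : ZD p ρ ι where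
  s := D.s
  a := fun i => π - D.a i
  s0 := D.s0
  ha := fun i => TT_mirror (D.ha i)
  sum := D.sum

theorem kp_neg (p : ℕ) (u ψ : ℝ) : kp p u (-ψ) = kp p u ψ := by
  have h := kn_neg p 0 u ψ
  simpa [kn] using h

theorem kp_add_int (p : ℕ) (u ψ : ℝ) (n : ℤ) : kp p u (ψ + n * (2 * π)) = kp p u ψ := by
  have h := kn_add_int p 0 u ψ n
  simpa [kn] using h

theorem ZD.mirror_U (D : ZD p ρ ι) (y θ : ℝ) : D.mirror.U y θ = D.U y (π - θ) := by
  unfold ZD.U
  refine tsum_congr fun i => ?_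
  show kp p (y - D.s i) (θ - (π - D.a i)) = kp p (y - D.s i) (π - θ - D.a i)
  rw [← kp_neg]; ring_nf

theorem ZD.mirror_N (D : ZD p ρ ι) (σ y : ℝ) : D.mirror.N σ y = D.N σ y := rfl

theorem ZD.U_add_int (D : ZD p ρ ι) (y θ : ℝ) (n : ℤ) : D.U y (θ + n * (2 * π)) = D.U y θ := by
  unfold ZD.U
  refine tsum_congr fun i => ?_
  rw [← kp_add_int p (y - D.s i) (θ - D.a i) n]
  ring_nf

theorem ZD.U_neg (D : ZD 1 ρ ι) (y θ : ℝ) : D.U y (-θ) = D.U y θ := by
  unfold ZD.U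
  refine tsum_congr fun i => ?_
  rcases (D.ha i).2 rfl with h | h
  · rw [h, sub_zero, sub_zero, kp_neg]
  · rw [h, ← kp_neg, ← kp_add_int 1 (y - D.s i) (θ - π) 1]
    push_cast
    ring_nf

/-! ### positivity of the integrated kernels -/

/-- the kernel as a function of `r` and of the cosine -/
noncomputable def des_F (c r : ℝ) : ℝ := Real.log (1 - 2 * r * c + r ^ 2) / 2 + r * c

lemma des_den {c : ℝ} (hc : c ^ 2 < 1) (r : ℝ) : 0 < 1 - 2 * r * c + r ^ 2 := by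
  nlinarith [sq_nonneg (r - c)]

lemma des_F_zero (c : ℝ) : des_F c 0 = 0 := by
  simp [des_F]

lemma des_kp_eq (u ψ : ℝ) : kp 1 u ψ = des_F (Real.cos ψ) (Real.exp u) := by
  rw [kp_eq, ker_eq, des_F]
  push_cast
  ring

lemma des_hasDeriv {c : ℝ} (hc : c ^ 2 < 1) (r : ℝ) :
    HasDerivAt (des_F c) (r * (1 - 2 * c ^ 2 + c * r) / (1 - 2 * r * c + r ^ 2)) r := by
  have hd := des_den hc r
  have h1 : HasDerivAt (fun r : ℝ => 1 - 2 * r * c + r ^ 2) (-(2 * c) + 2 * r) r := by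
    have h2 : HasDerivAt (fun r : ℝ => 2 * r * c) (2 * c) r := by
      have := ((hasDerivAt_id r).const_mul 2).mul_const c
      simpa using this
    have h3 : HasDerivAt (fun r : ℝ => r ^ 2) (2 * r) r := by
      have := hasDerivAt_pow 2 r
      simpa using this
    have := (h2.const_sub 1).add h3
    exact this
  have h4 := (h1.log hd.ne').div_const 2
  have h5 : HasDerivAt (fun r : ℝ => r * c) c r := by
    have := (hasDerivAt_id r).mul_const c
    simpa using this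
  have h6 := h4.add h5
  have e : (-(2 * c) + 2 * r) / (1 - 2 * r * c + r ^ 2) / 2 + c =
      r * (1 - 2 * c ^ 2 + c * r) / (1 - 2 * r * c + r ^ 2) := by
    have hne : 1 - 2 * r * c + r ^ 2 ≠ 0 := hd.ne'
    have key : ∀ d : ℝ, d ≠ 0 → d = 1 - 2 * r * c + r ^ 2 →
        (-(2 * c) + 2 * r) / d / 2 + c = r * (1 - 2 * c ^ 2 + c * r) / d := by
      intro d h0 h
      have h' : c * d = c * (1 - 2 * r * c + r ^ 2) := by rw [h]
      field_simp
      linarith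
    exact key _ hne rfl
  rw [← e]
  exact h6

lemma des_cont {c : ℝ} (hc : c ^ 2 < 1) : Continuous (des_F c) :=
  continuous_iff_continuousAt.2 fun r => (des_hasDeriv hc r).continuousAt

/-- positive cosine: positive -/
lemma des_F_pos {c : ℝ} (hc0 : 0 < c) (hc : 2 * c ^ 2 < 1) {r : ℝ} (hr : 0 < r) : 0 < des_F c r := by
  have hc1 : c ^ 2 < 1 := by nlinarith
  have h1 : StrictMonoOn (des_F c) (Icc 0 r) := by
    refine strictMonoOn_of_deriv_pos (convex_Icc _ _) (des_cont hc1).continuousOn fun x hx => ?_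
    rw [interior_Icc] at hx
    rw [(des_hasDeriv hc1 x).deriv]
    have hx0 := hx.1
    have : 0 < 1 - 2 * c ^ 2 + c * x := by nlinarith [mul_pos hc0 hx0]
    exact div_pos (mul_pos hx0 this) (des_den hc1 x)
  have h2 := h1 (left_mem_Icc.2 hr.le) (right_mem_Icc.2 hr.le) hr
  rwa [des_F_zero] at h2

lemma des_F_inc {c q : ℝ} (hc : 2 * c ^ 2 < 1) (hq : q * (-c) ≤ 1 - 2 * c ^ 2) (hc0 : c < 0) :
    StrictMonoOn (des_F c) (Icc 0 q) := by
  have hc1 : c ^ 2 < 1 := by nlinarith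
  refine strictMonoOn_of_deriv_pos (convex_Icc _ _) (des_cont hc1).continuousOn fun x hx => ?_
  rw [interior_Icc] at hx
  rw [(des_hasDeriv hc1 x).deriv]
  have hx0 := hx.1
  have : 0 < 1 - 2 * c ^ 2 + c * x := by nlinarith [mul_pos (neg_pos.2 hc0) (sub_pos.2 hx.2)]
  exact div_pos (mul_pos hx0 this) (des_den hc1 x)

lemma des_F_dec {c q : ℝ} (hc : 2 * c ^ 2 < 1) (hq : 1 - 2 * c ^ 2 ≤ q * (-c)) (hc0 : c < 0) (hq0 : 0 ≤ q) :
    StrictAntiOn (des_F c) (Ici q) := by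
  have hc1 : c ^ 2 < 1 := by nlinarith
  refine strictAntiOn_of_deriv_neg (convex_Ici _) (des_cont hc1).continuousOn fun x hx => ?_
  rw [interior_Ici] at hx
  have hx' : q < x := hx
  rw [(des_hasDeriv hc1 x).deriv]
  have hx0 : 0 < x := hq0.trans_lt hx'
  have : 1 - 2 * c ^ 2 + c * x < 0 := by nlinarith [mul_pos (neg_pos.2 hc0) (sub_pos.2 hx')]
  exact div_neg_of_neg_of_pos (mul_neg_of_pos_of_neg hx0 this) (des_den hc1 x)

/-- negative cosine: first positive, then negative -/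
lemma des_F_neg {c : ℝ} (hc0 : c < 0) (hc : 2 * c ^ 2 < 1) {r : ℝ} (hr : 0 < r) :
    (∀ x, 0 < x → x < r → 0 < des_F c x) ∨ ∀ x, r < x → des_F c x < 0 := by
  have hq : (1 - 2 * c ^ 2) / (-c) * (-c) = 1 - 2 * c ^ 2 :=
    div_mul_cancel₀ _ (neg_pos.2 hc0).ne'
  set q := (1 - 2 * c ^ 2) / (-c) with hqd
  have hq0 : 0 < q := div_pos (by linarith) (neg_pos.2 hc0)
  have hinc := des_F_inc hc hq.le hc0
  have hdec := des_F_dec hc hq.ge hc0 hq0.le
  have hpos : ∀ x, 0 < x → x ≤ q → 0 < des_F c x := by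
    intro x hx hxq
    have := hinc (left_mem_Icc.2 hq0.le) ⟨hx.le, hxq⟩ hx
    rwa [des_F_zero] at this
  rcases le_or_gt 0 (des_F c r) with h | h
  · left
    intro x hx hxr
    rcases le_or_gt x q with hxq | hxq
    · exact hpos x hx hxq
    · have h1 := hdec (show x ∈ Ici q from hxq.le) (show r ∈ Ici q from (hxq.trans hxr).le) hxr
      linarith
  · right
    intro x hrx
    have hrq : q < r := by
      by_contra hcon
      exact absurd (hpos r hr (not_lt.1 hcon)) (not_lt.2 h.le)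
    have h1 := hdec (show r ∈ Ici q from hrq.le) (show x ∈ Ici q from (hrq.trans hrx).le) hrx
    linarith

/-- the integral of a positive function on a half-line -/
lemma des_int_pos {f : ℝ → ℝ} (hf : Integrable f) {s : Set ℝ} (hs : MeasurableSet s) (hv : volume s ≠ 0)
    (h : ∀ x ∈ s, 0 < f x) : 0 < ∫ x in s, f x := by
  have h0 : 0 ≤ᵐ[volume.restrict s] f :=
    (ae_restrict_iff' hs).2 (Filter.Eventually.of_forall fun x hx => (h x hx).le)
  rw [integral_pos_iff_support_of_nonneg_ae h0 hf.integrableOn]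
  have h1 : s ⊆ Function.support f := fun x hx => (h x hx).ne'
  rw [Measure.restrict_apply' hs, inter_eq_self_of_subset_right h1]
  exact pos_iff_ne_zero.2 hv

/-- the integrated kernel -/
noncomputable def des_K (ρ ψ x : ℝ) : ℝ := ∫ t in Iic x, kn 1 ρ t ψ

lemma des_kn_int {ρ : ℝ} (h1 : 1 < ρ) (h2 : ρ < 2) (ψ : ℝ) : Integrable fun u : ℝ => kn 1 ρ u ψ :=
  integrable_kn (p := 1) le_rfl (by push_cast; exact h1) (by push_cast; linarith) ψ

lemma des_angle {ρ : ℝ} (h1 : 1 < ρ) (h2 : ρ < 2) : π / 4 < π / (2 * ρ) ∧ π / (2 * ρ) < π / 2 := by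
  have hpi := Real.pi_pos
  constructor
  · rw [div_lt_div_iff₀ (by norm_num) (by linarith)]
    nlinarith
  · rw [div_lt_div_iff₀ (by linarith) (by norm_num)]
    nlinarith

lemma des_cos {ρ : ℝ} (h1 : 1 < ρ) (h2 : ρ < 2) :
    0 < Real.cos (π / (2 * ρ)) ∧ 2 * Real.cos (π / (2 * ρ)) ^ 2 < 1 := by
  obtain ⟨ha, hb⟩ := des_angle h1 h2
  have hpi := Real.pi_pos
  refine ⟨Real.cos_pos_of_mem_Ioo ⟨by linarith, hb⟩, ?_⟩
  have h3 : Real.cos (2 * (π / (2 * ρ))) < 0 :=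
    Real.cos_neg_of_pi_div_two_lt_of_lt (by linarith) (by linarith)
  rw [Real.cos_two_mul] at h3
  linarith

lemma des_VV {ρ : ℝ} (h1 : 1 < ρ) (h2 : ρ < 2) : ∫ u, kn 1 ρ u (π / (2 * ρ) - π) = 0 := by
  have hpi := Real.pi_pos
  have h3 := VV_eq (p := 1) le_rfl (ρ := ρ) (by push_cast; exact h1) (by push_cast; linarith)
    (π / (2 * ρ) - π)
  obtain ⟨ha, hb⟩ := des_angle h1 h2
  have habs : |π / (2 * ρ) - π| = π - π / (2 * ρ) := by
    rw [abs_of_neg (by linarith)]; ring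
  have hG : G ρ (π / (2 * ρ) - π) = 0 := by
    rw [G_of_abs_le (by rw [habs]; linarith), habs]
    have e : ρ * (π - (π - π / (2 * ρ))) = π / 2 := by
      have : ρ ≠ 0 := by linarith
      field_simp
      ring
    rw [e, Real.cos_pi_div_two]
  rw [hG, mul_zero] at h3
  exact h3

lemma des_K_pos {ρ : ℝ} (h1 : 1 < ρ) (h2 : ρ < 2) {α : ℝ} (hα : α = 0 ∨ α = π) (x : ℝ) :
    0 < des_K ρ (π / (2 * ρ) - α) x := by
  obtain ⟨hc0, hc⟩ := des_cos h1 h2
  rcases hα with rfl | rfl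
  · rw [sub_zero, des_K]
    refine des_int_pos (des_kn_int h1 h2 _) measurableSet_Iic (by simp) fun t _ => ?_
    rw [kn, des_kp_eq]
    exact mul_pos (des_F_pos hc0 hc (Real.exp_pos t)) (Real.exp_pos _)
  · have hcos : Real.cos (π / (2 * ρ) - π) = -Real.cos (π / (2 * ρ)) := by
      rw [← Real.cos_neg, neg_sub, Real.cos_pi_sub]
    have hint := des_kn_int h1 h2 (π / (2 * ρ) - π)
    rcases des_F_neg (c := Real.cos (π / (2 * ρ) - π)) (by rw [hcos]; linarith)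
      (by rw [hcos, neg_sq]; exact hc) (Real.exp_pos x) with h | h
    · rw [des_K, integral_Iic_eq_integral_Iio]
      refine des_int_pos hint measurableSet_Iio (by simp) fun t ht => ?_
      rw [kn, des_kp_eq]
      exact mul_pos (h _ (Real.exp_pos t) (Real.exp_lt_exp.2 ht)) (Real.exp_pos _)
    · have h3 : 0 < ∫ t in Ioi x, -kn 1 ρ t (π / (2 * ρ) - π) := by
        refine des_int_pos hint.neg measurableSet_Ioi (by simp) fun t ht => ?_
        show 0 < -(kp 1 t (π / (2 * ρ) - π) * Real.exp (-ρ * t))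
        rw [des_kp_eq]
        have h4 := h _ (Real.exp_lt_exp.2 ht)
        have := mul_pos (neg_pos.2 h4) (Real.exp_pos (-ρ * t))
        linarith
      rw [integral_neg] at h3
      have h4 := intervalIntegral.integral_Iic_add_Ioi (b := x) hint.integrableOn hint.integrableOn
      rw [des_VV h1 h2] at h4
      rw [des_K]
      linarith

lemma des_K_cont {ρ : ℝ} (h1 : 1 < ρ) (h2 : ρ < 2) (ψ : ℝ) : Continuous (des_K ρ ψ) := by
  have hint := des_kn_int h1 h2 ψ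
  have e : des_K ρ ψ = fun x => des_K ρ ψ 0 + ∫ t in (0 : ℝ)..x, kn 1 ρ t ψ := by
    funext x
    rw [← intervalIntegral.integral_Iic_sub_Iic hint.integrableOn hint.integrableOn]
    simp only [des_K]
    ring
  rw [e]
  exact continuous_const.add (hint.continuous_primitive 0)

lemma des_K_le {ρ : ℝ} (h1 : 1 < ρ) (h2 : ρ < 2) : ∃ C : ℝ, 0 < C ∧ ∀ ψ x,
    des_K ρ ψ x ≤ C * Real.exp (sg 1 ρ * x) := by
  have h1' : ((1 : ℕ) : ℝ) < ρ := by push_cast; exact h1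
  have h2' : ρ < ((1 : ℕ) : ℝ) + 1 := by push_cast; linarith
  have hσ : 0 < sg 1 ρ := sg_pos h1' h2'
  obtain ⟨C, hC, h⟩ := kn_le (p := 1) le_rfl h1' h2'
  refine ⟨C / sg 1 ρ, div_pos hC hσ, fun ψ x => ?_⟩
  have h3 : des_K ρ ψ x ≤ ∫ t in Iic x, C * Real.exp (sg 1 ρ * t) := by
    refine setIntegral_mono_on (des_kn_int h1 h2 ψ).integrableOn
      ((integrableOn_exp_mul_Iic hσ x).const_mul C) measurableSet_Iic fun t _ => ?_
    refine (h t ψ).trans (mul_le_mul_of_nonneg_left (Real.exp_le_exp.2 ?_) hC.le)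
    have := neg_abs_le t
    nlinarith
  refine h3.trans (le_of_eq ?_)
  rw [integral_const_mul, integral_exp_mul_Iic hσ]
  ring

lemma des_shift {ρ : ℝ} (h1 : 1 < ρ) (h2 : ρ < 2) (ψ s Y y : ℝ) :
    ∫ t in Y..y, kn 1 ρ (t - s) ψ = des_K ρ ψ (y - s) - des_K ρ ψ (Y - s) := by
  have hint := des_kn_int h1 h2 ψ
  rw [intervalIntegral.integral_comp_sub_right (fun t => kn 1 ρ t ψ) s,
    ← intervalIntegral.integral_Iic_sub_Iic hint.integrableOn hint.integrableOn]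
  rfl

/-- the sum of the integrated kernels -/
noncomputable def des_M (D : ZD 1 ρ ι) (y : ℝ) : ℝ :=
  ∑' i, Real.exp (-ρ * D.s i) * des_K ρ (π / (2 * ρ) - D.a i) (y - D.s i)

lemma des_term {ρ : ℝ} (h1 : 1 < ρ) (h2 : ρ < 2) (D : ZD 1 ρ ι) (y : ℝ) (i : ι) :
    0 < Real.exp (-ρ * D.s i) * des_K ρ (π / (2 * ρ) - D.a i) (y - D.s i) :=
  mul_pos (Real.exp_pos _) (des_K_pos h1 h2 ((D.ha i).2 rfl) _)

lemma des_M_sum {ρ : ℝ} (h1 : 1 < ρ) (h2 : ρ < 2) : ∃ C : ℝ, 0 < C ∧ ∀ {ι : Type} (D : ZD 1 ρ ι) (y : ℝ),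
    (Summable fun i => Real.exp (-ρ * D.s i) * des_K ρ (π / (2 * ρ) - D.a i) (y - D.s i)) ∧
    des_M D y ≤ C * Real.exp (sg 1 ρ * y) * ∑' i, Real.exp (-(ρ + sg 1 ρ) * D.s i) := by
  have h1' : ((1 : ℕ) : ℝ) < ρ := by push_cast; exact h1
  have h2' : ρ < ((1 : ℕ) : ℝ) + 1 := by push_cast; linarith
  have hσ : 0 < sg 1 ρ := sg_pos h1' h2'
  obtain ⟨C, hC, h⟩ := des_K_le h1 h2
  refine ⟨C, hC, fun {ι} D y => ?_⟩
  have hs := (D.sum (ρ + sg 1 ρ) (by linarith)).mul_left (C * Real.exp (sg 1 ρ * y))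
  have hle : ∀ i, Real.exp (-ρ * D.s i) * des_K ρ (π / (2 * ρ) - D.a i) (y - D.s i) ≤
      C * Real.exp (sg 1 ρ * y) * Real.exp (-(ρ + sg 1 ρ) * D.s i) := by
    intro i
    refine (mul_le_mul_of_nonneg_left (h _ _) (Real.exp_pos _).le).trans (le_of_eq ?_)
    have e : Real.exp (-(ρ + sg 1 ρ) * D.s i) =
        Real.exp (-ρ * D.s i) * Real.exp (-(sg 1 ρ * D.s i)) := by
      rw [← Real.exp_add]; ring_nf
    have e2 : Real.exp (sg 1 ρ * (y - D.s i)) =
        Real.exp (sg 1 ρ * y) * Real.exp (-(sg 1 ρ * D.s i)) := by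
      rw [← Real.exp_add]; ring_nf
    rw [e, e2]
    ring
  have hsum := Summable.of_nonneg_of_le (fun i => (des_term h1 h2 D y i).le) hle hs
  refine ⟨hsum, ?_⟩
  rw [← tsum_mul_left]
  exact hsum.tsum_le_tsum hle hs

lemma des_M_nonneg {ρ : ℝ} (h1 : 1 < ρ) (h2 : ρ < 2) (D : ZD 1 ρ ι) (y : ℝ) : 0 ≤ des_M D y :=
  tsum_nonneg fun i => (des_term h1 h2 D y i).le

lemma des_M_sub {ρ : ℝ} (h1 : 1 < ρ) (h2 : ρ < 2) (D : ZD 1 ρ ι) {Y y : ℝ} (hY : Y ≤ y) :
    ∫ t in Y..y, Real.exp (-ρ * t) * D.U t (π / (2 * ρ)) = des_M D y - des_M D Y := by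
  have h1' : ((1 : ℕ) : ℝ) < ρ := by push_cast; exact h1
  have h2' : ρ < ((1 : ℕ) : ℝ) + 1 := by push_cast; linarith
  obtain ⟨C, hC, h⟩ := des_M_sum h1 h2
  rw [(D.U_int le_rfl h1' h2' (π / (2 * ρ)) Y y hY).2.2, des_M, des_M,
    ← (h D y).1.tsum_sub (h D Y).1]
  refine tsum_congr fun i => ?_
  rw [des_shift h1 h2]
  ring

/-- the growth of `des_M` -/
lemma des_M_le {ρ : ℝ} (h1 : 1 < ρ) (h2 : ρ < 2) (D : ZD 1 ρ ι) {g : ℝ} (hU : D.UB (π / (2 * ρ)) g) :
    ∃ Y : ℝ, ∀ y, Y ≤ y → des_M D y ≤ des_M D Y + g * (y - Y) := by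
  have h1' : ((1 : ℕ) : ℝ) < ρ := by push_cast; exact h1
  have h2' : ρ < ((1 : ℕ) : ℝ) + 1 := by push_cast; linarith
  obtain ⟨Y, hY⟩ := hU
  refine ⟨Y, fun y hy => ?_⟩
  have h3 := des_M_sub h1 h2 D hy
  have h4 : ∫ t in Y..y, Real.exp (-ρ * t) * D.U t (π / (2 * ρ)) ≤ ∫ t in Y..y, g := by
    refine intervalIntegral.integral_mono_ae_restrict hy
      (D.U_int le_rfl h1' h2' (π / (2 * ρ)) Y y hy).1 intervalIntegrable_const ?_
    filter_upwards [ae_restrict_of_ae hY, ae_restrict_mem measurableSet_Icc] with t ht hmem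
    have h5 := ht hmem.1
    have h6 : Real.exp (-ρ * t) * Real.exp (ρ * t) = 1 := by
      rw [← Real.exp_add]; simp
    calc Real.exp (-ρ * t) * D.U t (π / (2 * ρ)) ≤ Real.exp (-ρ * t) * (g * Real.exp (ρ * t)) :=
          mul_le_mul_of_nonneg_left h5 (Real.exp_pos _).le
      _ = g * (Real.exp (-ρ * t) * Real.exp (ρ * t)) := by ring
      _ = g := by rw [h6, mul_one]
  rw [intervalIntegral.integral_const, smul_eq_mul, h3] at h4
  linarith

lemma des_zsum {σ : ℝ} (hσ : 0 < σ) : Summable fun k : ℤ => Real.exp (-σ * |(k : ℝ)|) * (1 + |(k : ℝ)|) := by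
  have h0 : Summable fun n : ℕ => Real.exp (-σ * n) * (1 + (n : ℝ)) := by
    have ha := Real.summable_pow_mul_exp_neg_nat_mul 0 hσ
    have hb := Real.summable_pow_mul_exp_neg_nat_mul 1 hσ
    refine (ha.add hb).congr fun n => ?_
    ring
  refine Summable.of_nat_of_neg (h0.congr fun n => ?_) (h0.congr fun n => ?_)
  · simp
  · simp

/-- the case of the ray `ω` -/
lemma des_core {ρ : ℝ} (h1 : 1 < ρ) (h2 : ρ < 2) (D : ZD 1 ρ ι) {g : ℝ} (hU : D.UB (π / (2 * ρ)) g) :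
    0 ≤ g ∧ ∃ B : ℝ, ∀ y, D.N (sg 1 ρ) y ≤ B * (1 + |y|) := by
  classical
  have h1' : ((1 : ℕ) : ℝ) < ρ := by push_cast; exact h1
  have h2' : ρ < ((1 : ℕ) : ℝ) + 1 := by push_cast; linarith
  have hσ : 0 < sg 1 ρ := sg_pos h1' h2'
  set σ := sg 1 ρ with hσd
  obtain ⟨Y, hY⟩ := des_M_le h1 h2 D hU
  have hg : 0 ≤ g := by
    by_contra hg
    rw [not_le] at hg
    have h3 : 0 < -g := neg_pos.2 hg
    have h4 := des_M_nonneg h1 h2 D Y
    have h5 := hY (Y + des_M D Y / (-g) + 1) (by have := div_nonneg h4 h3.le; linarith)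
    have h6 := des_M_nonneg h1 h2 D (Y + des_M D Y / (-g) + 1)
    have h7 : g * (Y + des_M D Y / (-g) + 1 - Y) = -des_M D Y + g := by
      have : g ≠ 0 := hg.ne
      field_simp
      ring
    rw [h7] at h5
    linarith
  refine ⟨hg, ?_⟩
  obtain ⟨C, hC, hM⟩ := des_M_sum h1 h2
  set S := ∑' i, Real.exp (-(ρ + sg 1 ρ) * D.s i) with hS
  have hS0 : 0 ≤ S := tsum_nonneg fun i => (Real.exp_pos _).le
  -- linear bound of `des_M`
  obtain ⟨B1, hB10, hB1⟩ : ∃ B1 : ℝ, 0 ≤ B1 ∧ ∀ y, des_M D y ≤ B1 * (1 + |y|) := by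
    have hMY := des_M_nonneg h1 h2 D Y
    refine ⟨des_M D Y + g + g * |Y| + C * Real.exp (σ * Y) * S, by positivity, fun y => ?_⟩
    have hy0 := abs_nonneg y
    have hY0 := abs_nonneg Y
    have hE : 0 ≤ C * Real.exp (σ * Y) * S := by positivity
    rcases le_total Y y with h | h
    · have h3 := hY y h
      have h4 : y - Y ≤ |y| + |Y| := by
        have := le_abs_self y
        have := neg_abs_le Y
        linarith
      have h5 := mul_le_mul_of_nonneg_left h4 hg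
      have h6 : 0 ≤ g * |Y| := by positivity
      have h7 : 0 ≤ g * |Y| * |y| := by positivity
      have h8 : 0 ≤ des_M D Y * |y| := by positivity
      have h9 : 0 ≤ C * Real.exp (σ * Y) * S * |y| := by positivity
      nlinarith
    · have h3 := (hM D y).2
      have h4 : C * Real.exp (σ * y) * S ≤ C * Real.exp (σ * Y) * S := by
        have : Real.exp (σ * y) ≤ Real.exp (σ * Y) :=
          Real.exp_le_exp.2 (mul_le_mul_of_nonneg_left h hσ.le)
        gcongr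
      have h5 : 0 ≤ g * |Y| := by positivity
      have h6 : (des_M D Y + g + g * |Y| + C * Real.exp (σ * Y) * S) * 1 ≤
          (des_M D Y + g + g * |Y| + C * Real.exp (σ * Y) * S) * (1 + |y|) :=
        mul_le_mul_of_nonneg_left (by linarith) (by positivity)
      linarith
  -- lower bound of the integrated kernels on the unit interval
  obtain ⟨c0, hc0, hK⟩ : ∃ c0 : ℝ, 0 < c0 ∧ ∀ α : ℝ, (α = 0 ∨ α = π) → ∀ x ∈ Icc (0 : ℝ) 1,
      c0 ≤ des_K ρ (π / (2 * ρ) - α) x := by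
    have hne : (Icc (0 : ℝ) 1).Nonempty := ⟨0, by simp⟩
    obtain ⟨x0, -, h0⟩ := isCompact_Icc.exists_isMinOn hne
      (des_K_cont h1 h2 (π / (2 * ρ) - 0)).continuousOn
    obtain ⟨x1, -, h1x⟩ := isCompact_Icc.exists_isMinOn hne
      (des_K_cont h1 h2 (π / (2 * ρ) - π)).continuousOn
    refine ⟨min (des_K ρ (π / (2 * ρ) - 0) x0) (des_K ρ (π / (2 * ρ) - π) x1),
      lt_min (des_K_pos h1 h2 (Or.inl rfl) _) (des_K_pos h1 h2 (Or.inr rfl) _), ?_⟩
    rintro α (rfl | rfl) x hx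
    · exact (min_le_left _ _).trans (h0 hx)
    · exact (min_le_right _ _).trans (h1x hx)
  have hT := des_zsum hσ
  set T := ∑' k : ℤ, Real.exp (-σ * |(k : ℝ)|) * (1 + |(k : ℝ)|) with hTd
  refine ⟨Real.exp σ / c0 * B1 * T, fun y => ?_⟩
  refine (D.N_summable hσ y).tsum_le_of_sum_le fun F => ?_
  set k : ι → ℤ := fun i => ⌊y - D.s i⌋ with hk
  have step1 : ∀ i, Real.exp (-ρ * D.s i) * Real.exp (-σ * |y - D.s i|) ≤
      Real.exp σ / c0 * (Real.exp (-σ * |((k i : ℤ) : ℝ)|) *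
        (Real.exp (-ρ * D.s i) * des_K ρ (π / (2 * ρ) - D.a i) (y - k i - D.s i))) := by
    intro i
    have hf1 := Int.floor_le (y - D.s i)
    have hf2 := Int.lt_floor_add_one (y - D.s i)
    have hKi := hK (D.a i) ((D.ha i).2 rfl) (y - k i - D.s i)
      ⟨by simp only [hk]; linarith, by simp only [hk]; linarith⟩
    have hab : |((k i : ℤ) : ℝ)| ≤ |y - D.s i| + 1 := by
      have h3 : |((k i : ℤ) : ℝ) - (y - D.s i)| ≤ 1 := by
        rw [abs_le]
        constructor <;> simp only [hk] <;> linarith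
      have h4 := abs_add_le (((k i : ℤ) : ℝ) - (y - D.s i)) (y - D.s i)
      rw [sub_add_cancel] at h4
      linarith
    have he : Real.exp (-σ * |y - D.s i|) ≤ Real.exp σ * Real.exp (-σ * |((k i : ℤ) : ℝ)|) := by
      rw [← Real.exp_add]
      refine Real.exp_le_exp.2 ?_
      nlinarith
    have hc : 1 ≤ des_K ρ (π / (2 * ρ) - D.a i) (y - k i - D.s i) / c0 := by
      rwa [one_le_div hc0]
    calc Real.exp (-ρ * D.s i) * Real.exp (-σ * |y - D.s i|)
        ≤ Real.exp (-ρ * D.s i) * (Real.exp σ * Real.exp (-σ * |((k i : ℤ) : ℝ)|)) * 1 := by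
          rw [mul_one]
          exact mul_le_mul_of_nonneg_left he (Real.exp_pos _).le
      _ ≤ Real.exp (-ρ * D.s i) * (Real.exp σ * Real.exp (-σ * |((k i : ℤ) : ℝ)|)) *
          (des_K ρ (π / (2 * ρ) - D.a i) (y - k i - D.s i) / c0) :=
          mul_le_mul_of_nonneg_left hc (by positivity)
      _ = _ := by ring
  have step2 : ∑ i ∈ F, Real.exp (-σ * |((k i : ℤ) : ℝ)|) *
        (Real.exp (-ρ * D.s i) * des_K ρ (π / (2 * ρ) - D.a i) (y - k i - D.s i)) ≤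
      ∑ m ∈ F.image k, Real.exp (-σ * |(m : ℝ)|) * (B1 * ((1 + |y|) * (1 + |(m : ℝ)|))) := by
    rw [← Finset.sum_fiberwise_of_maps_to (g := k) (t := F.image k)
      (fun i hi => Finset.mem_image_of_mem k hi)]
    refine Finset.sum_le_sum fun m _ => ?_
    have e : ∑ i ∈ F.filter (fun i => k i = m), Real.exp (-σ * |((k i : ℤ) : ℝ)|) *
        (Real.exp (-ρ * D.s i) * des_K ρ (π / (2 * ρ) - D.a i) (y - k i - D.s i)) =
        Real.exp (-σ * |(m : ℝ)|) * ∑ i ∈ F.filter (fun i => k i = m),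
          (Real.exp (-ρ * D.s i) * des_K ρ (π / (2 * ρ) - D.a i) (y - m - D.s i)) := by
      rw [Finset.mul_sum]
      refine Finset.sum_congr rfl fun i hi => ?_
      rw [(Finset.mem_filter.1 hi).2]
    rw [e]
    refine mul_le_mul_of_nonneg_left ?_ (Real.exp_pos _).le
    have h3 : ∑ i ∈ F.filter (fun i => k i = m),
          (Real.exp (-ρ * D.s i) * des_K ρ (π / (2 * ρ) - D.a i) (y - m - D.s i)) ≤
        des_M D (y - m) :=
      (hM D (y - m)).1.sum_le_tsum _ fun i _ => (des_term h1 h2 D _ i).le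
    refine h3.trans ((hB1 _).trans (mul_le_mul_of_nonneg_left ?_ hB10))
    have h4 := abs_sub y (m : ℝ)
    have h5 := mul_nonneg (abs_nonneg y) (abs_nonneg (m : ℝ))
    nlinarith
  have step3 : ∑ m ∈ F.image k, Real.exp (-σ * |(m : ℝ)|) * (B1 * ((1 + |y|) * (1 + |(m : ℝ)|))) ≤
      B1 * (1 + |y|) * T := by
    have e : ∑ m ∈ F.image k, Real.exp (-σ * |(m : ℝ)|) * (B1 * ((1 + |y|) * (1 + |(m : ℝ)|))) =
        B1 * (1 + |y|) * ∑ m ∈ F.image k, Real.exp (-σ * |(m : ℝ)|) * (1 + |(m : ℝ)|) := by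
      rw [Finset.mul_sum]
      exact Finset.sum_congr rfl fun m _ => by ring
    rw [e]
    refine mul_le_mul_of_nonneg_left ?_ (by positivity)
    exact hT.sum_le_tsum _ fun m _ => by positivity
  calc ∑ i ∈ F, Real.exp (-ρ * D.s i) * Real.exp (-σ * |y - D.s i|)
      ≤ ∑ i ∈ F, Real.exp σ / c0 * (Real.exp (-σ * |((k i : ℤ) : ℝ)|) *
        (Real.exp (-ρ * D.s i) * des_K ρ (π / (2 * ρ) - D.a i) (y - k i - D.s i))) :=
        Finset.sum_le_sum fun i _ => step1 i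
    _ = Real.exp σ / c0 * ∑ i ∈ F, Real.exp (-σ * |((k i : ℤ) : ℝ)|) *
        (Real.exp (-ρ * D.s i) * des_K ρ (π / (2 * ρ) - D.a i) (y - k i - D.s i)) := by
        rw [Finset.mul_sum]
    _ ≤ Real.exp σ / c0 * (B1 * (1 + |y|) * T) :=
        mul_le_mul_of_nonneg_left (step2.trans step3) (by positivity)
    _ = Real.exp σ / c0 * B1 * T * (1 + |y|) := by ring

/-- the four critical rays -/
theorem densS {ρ : ℝ} (h1 : 1 < ρ) (h2 : ρ < 2) (D : ZD 1 ρ ι) {θ g : ℝ}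
    (hθ : ∃ m : ℤ, θ = π / (2 * ρ) + m * (2 * π) ∨ θ = -(π / (2 * ρ)) + m * (2 * π) ∨
      θ = π - π / (2 * ρ) + m * (2 * π) ∨ θ = -(π - π / (2 * ρ)) + m * (2 * π))
    (hU : D.UB θ g) : 0 ≤ g ∧ ∃ B : ℝ, ∀ y, D.N (sg 1 ρ) y ≤ B * (1 + |y|) := by
  obtain ⟨m, h | h | h | h⟩ := hθ
  · refine des_core h1 h2 D ?_
    simpa only [ZD.UB, h, ZD.U_add_int] using hU
  · refine des_core h1 h2 D ?_
    simpa only [ZD.UB, h, ZD.U_add_int, ZD.U_neg] using hU
  · have hU' : D.mirror.UB (π / (2 * ρ)) g := by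
      simpa only [ZD.UB, h, ZD.U_add_int, ZD.mirror_U] using hU
    have := des_core h1 h2 D.mirror hU'
    simpa only [ZD.mirror_N] using this
  · have hU' : D.mirror.UB (π / (2 * ρ)) g := by
      simpa only [ZD.UB, h, ZD.U_add_int, ZD.U_neg, ZD.mirror_U] using hU
    have := des_core h1 h2 D.mirror hU'
    simpa only [ZD.mirror_N] using this

end HBInf
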