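import Pool.Agent.HBInf.Gordan
import Pool.Agent.HBInd.Trig
import Pool.Agent.HBInd.Contact

/-!
# Rays which cannot be controlled from above, `1 < ρ < 2`

`G ρ ψ = cos (ρ (π - |ψ|))` for `|ψ| ≤ π` (`G_of_abs_le`), `2π`-periodic (`G_add_int`) and even; `ω = π/(2ρ)`. For
`|θ| ≤ π`: `G ρ θ = cos ρ(π - |θ|)`, `G ρ (θ - π) = cos ρθ` (`G_sub_pi` in `Contact`).

By `gordan` (with `X` the two point space) there are `x, y ≥ 0`, not both `0`, with
`x (-G θ_i) + y (-G (θ_i - π)) ≤ 0` for all `i`. If both are positive we are done. Let `x = 0` (the other case is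
symmetric, `θ ↦ π - θ`). Then `-cos ρθ_i ≤ 0` (with `θ_i` reduced to `[-π, π]`). `cos ρθ = 0` with `|θ| ≤ π`,
`1 < ρ < 2` only for `|θ| = ω` or `|θ| = 3ω ≤ π`, and for `|θ| = 3ω`:
`-G ρ θ = -cos (ρπ - 3π/2) = sin ρπ < 0`. So if no `θ_i` is `±ω` mod `2π`, then for all `i` either
`-G (θ_i - π) < 0` or (`= 0` and `-G θ_i < 0`), and `x = ε`, `y = 1` works for small `ε > 0` (finitely many `i`).
-/

namespace HBInf

open HBInd Complex Filter Topology Set
open scoped Real ComplexConjugate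

/-- zeros of `cos` on `[0, 2π)` -/
private lemma geo1_cos_zero {x : ℝ} (h0 : 0 ≤ x) (h2 : x < 2 * π) (hc : Real.cos x = 0) :
    x = π / 2 ∨ x = 3 * π / 2 := by
  have hpi := Real.pi_pos
  rw [Real.cos_eq_zero_iff] at hc
  obtain ⟨k, hk⟩ := hc
  have hk0 : -1 < k := by
    by_contra hcon
    have : (k : ℝ) ≤ -1 := by exact_mod_cast (not_lt.mp hcon)
    nlinarith
  have hk1 : k < 2 := by
    by_contra hcon
    have : (2 : ℝ) ≤ k := by exact_mod_cast (not_lt.mp hcon)
    nlinarith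
  have : k = 0 ∨ k = 1 := by omega
  rcases this with rfl | rfl
  · left
    rw [hk]
    push_cast
    ring
  · right
    rw [hk]
    push_cast
    ring

private lemma geo1_eq_div {ρ t c : ℝ} (h : 0 < ρ) (h' : ρ * t = c) : t = c / ρ := by
  rw [← h']
  field_simp

/-- the case of a degenerate pair -/
private lemma geo1_perturb {n : ℕ} {A B : Fin n → ℝ} (h : ∀ i, B i < 0 ∨ (B i = 0 ∧ A i < 0)) :
    ∃ ε : ℝ, 0 < ε ∧ ∀ i, ε * A i + B i ≤ 0 := by
  have h1 : ∀ i, ∀ᶠ ε : ℝ in 𝓝[>] 0, ε * A i + B i ≤ 0 := by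
    intro i
    rcases h i with hB | ⟨hB, hA⟩
    · have hcont : Tendsto (fun ε : ℝ => ε * A i + B i) (𝓝[>] 0) (𝓝 (0 * A i + B i)) := by
        apply Tendsto.mono_left _ nhdsWithin_le_nhds
        exact (continuous_id.mul continuous_const |>.add continuous_const).tendsto 0
      rw [zero_mul, zero_add] at hcont
      exact (hcont.eventually (gt_mem_nhds hB)).mono fun ε hε => hε.le
    · filter_upwards [self_mem_nhdsWithin] with ε hε
      have : (0 : ℝ) < ε := hε
      rw [hB]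
      nlinarith
  have h2 := (eventually_all.mpr h1).and (self_mem_nhdsWithin (a := (0 : ℝ)) (s := Ioi 0))
  obtain ⟨ε, hε, hε0⟩ := h2.exists
  exact ⟨ε, hε0, hε⟩

/-- Gordan's theorem for pairs -/
private lemma geo1_gordan {n : ℕ} {A B : Fin n → ℝ}
    (h : ¬∃ x : Fin n → ℝ, (∀ i, 0 ≤ x i) ∧ (0 < ∑ i, x i * A i) ∧ 0 < ∑ i, x i * B i) :
    ∃ x y : ℝ, 0 ≤ x ∧ 0 ≤ y ∧ x + y = 1 ∧ ∀ i, x * A i + y * B i ≤ 0 := by
  obtain ⟨k, a, ν, hν, hs, hi⟩ := gordan (X := Bool) (fun i b => if b then A i else B i)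
    (fun i => continuous_of_discreteTopology) (by
      rintro ⟨x, hx, hx2⟩
      exact h ⟨x, hx, by simpa using hx2 true, by simpa using hx2 false⟩)
  refine ⟨∑ j, ν j * (if a j then 1 else 0), ∑ j, ν j * (if a j then 0 else 1), ?_, ?_, ?_, ?_⟩
  · apply Finset.sum_nonneg
    intro j _
    apply mul_nonneg (hν j)
    split_ifs <;> norm_num
  · apply Finset.sum_nonneg
    intro j _
    apply mul_nonneg (hν j)
    split_ifs <;> norm_num
  · rw [← Finset.sum_add_distrib]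
    refine Eq.trans ?_ hs
    apply Finset.sum_congr rfl
    intro j _
    split_ifs <;> ring
  · intro i
    have e : (∑ j, ν j * (if a j then 1 else 0)) * A i + (∑ j, ν j * (if a j then 0 else 1)) * B i =
        ∑ j, ν j * (if a j then A i else B i) := by
      rw [Finset.sum_mul, Finset.sum_mul, ← Finset.sum_add_distrib]
      apply Finset.sum_congr rfl
      intro j _
      split_ifs <;> ring
    rw [e]
    exact hi i

theorem geoOne {ρ : ℝ} (h1 : 1 < ρ) (h2 : ρ < 2) {n : ℕ} {θ : Fin n → ℝ}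
    (h : ¬∃ x : Fin n → ℝ, (∀ i, 0 ≤ x i) ∧ (0 < ∑ i, x i * (-G ρ (θ i))) ∧
      0 < ∑ i, x i * (-G ρ (θ i - π))) :
    (∃ (i : Fin n) (m : ℤ), θ i = π / (2 * ρ) + m * (2 * π) ∨ θ i = -(π / (2 * ρ)) + m * (2 * π) ∨
      θ i = π - π / (2 * ρ) + m * (2 * π) ∨ θ i = -(π - π / (2 * ρ)) + m * (2 * π)) ∨
    ∃ x y : ℝ, 0 < x ∧ 0 < y ∧ ∀ i, x * (-G ρ (θ i)) + y * (-G ρ (θ i - π)) ≤ 0 := by
  have hpi := Real.pi_pos
  have hρ : 0 < ρ := by linarith
  by_cases hex : ∃ (i : Fin n) (m : ℤ), θ i = π / (2 * ρ) + m * (2 * π) ∨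
      θ i = -(π / (2 * ρ)) + m * (2 * π) ∨
      θ i = π - π / (2 * ρ) + m * (2 * π) ∨ θ i = -(π - π / (2 * ρ)) + m * (2 * π)
  · exact Or.inl hex
  right
  push Not at hex
  -- reduction
  have hred : ∀ i, ∃ t : ℝ, |t| ≤ π ∧ G ρ (θ i) = Real.cos (ρ * (π - |t|)) ∧
      G ρ (θ i - π) = Real.cos (ρ * |t|) ∧ |t| ≠ π / (2 * ρ) ∧ |t| ≠ π - π / (2 * ρ) := by
    intro i
    obtain ⟨m, hm1, hm2⟩ := exists_int_Ioc (θ i)
    have habs : |θ i - m * (2 * π)| ≤ π := abs_le.mpr ⟨hm1.le, hm2⟩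
    obtain ⟨q1, q2, q3, q4⟩ := hex i m
    refine ⟨θ i - m * (2 * π), habs, ?_, ?_, ?_, ?_⟩
    · rw [← G_of_abs_le habs]
      have h3 := G_add_int ρ (θ i - m * (2 * π)) m
      rw [sub_add_cancel] at h3
      exact h3
    · have h4 := G_sub_pi (ρ := ρ) habs
      have h3 := G_add_int ρ (θ i - m * (2 * π) - π) m
      have e : θ i - m * (2 * π) - π + m * (2 * π) = θ i - π := by ring
      rw [e] at h3
      rw [h3, h4, ← Real.cos_abs (ρ * _), abs_mul, abs_of_pos hρ]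
    · intro hcon
      rcases abs_cases (θ i - m * (2 * π)) with ⟨h5, -⟩ | ⟨h5, -⟩
      · exact q1 (by linarith)
      · exact q2 (by linarith)
    · intro hcon
      rcases abs_cases (θ i - m * (2 * π)) with ⟨h5, -⟩ | ⟨h5, -⟩
      · exact q3 (by linarith)
      · exact q4 (by linarith)
  have hsin : Real.sin (ρ * π) < 0 := by
    have e : Real.sin (ρ * π) = -Real.sin (ρ * π - π) := by
      rw [Real.sin_sub_pi, neg_neg]
    rw [e, neg_lt_zero]
    apply Real.sin_pos_of_pos_of_lt_pi <;> nlinarith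
  have hc32 : Real.cos (ρ * π - 3 * π / 2) = -Real.sin (ρ * π) := by
    have e : ρ * π - 3 * π / 2 = ρ * π + π / 2 - 2 * π := by ring
    rw [e, Real.cos_sub_two_pi, Real.cos_add_pi_div_two]
  have he1 : π / 2 / ρ = π / (2 * ρ) := by field_simp
  have hB : ∀ i, -G ρ (θ i - π) = 0 → -G ρ (θ i) < 0 := by
    intro i hi
    obtain ⟨t, ht, hg1, hg2, hne1, hne2⟩ := hred i
    rw [hg2, neg_eq_zero] at hi
    rcases geo1_cos_zero (by positivity) (by nlinarith [abs_nonneg t]) hi with h5 | h5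
    · exact absurd ((geo1_eq_div hρ h5).trans he1) hne1
    · rw [hg1]
      have e : ρ * (π - |t|) = ρ * π - 3 * π / 2 := by
        rw [mul_sub, h5]
      rw [e, hc32]
      linarith
  have hA : ∀ i, -G ρ (θ i) = 0 → -G ρ (θ i - π) < 0 := by
    intro i hi
    obtain ⟨t, ht, hg1, hg2, hne1, hne2⟩ := hred i
    rw [hg1, neg_eq_zero] at hi
    rcases geo1_cos_zero (mul_nonneg hρ.le (by linarith)) (by nlinarith [abs_nonneg t]) hi with h5 | h5
    · exfalso
      apply hne2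
      have := (geo1_eq_div hρ h5).trans he1
      linarith
    · rw [hg2]
      have e : ρ * |t| = ρ * π - 3 * π / 2 := by
        rw [mul_sub] at h5
        linarith
      rw [e, hc32]
      linarith
  obtain ⟨x, y, hx, hy, hxy, hi⟩ := geo1_gordan h
  rcases hx.eq_or_lt with hx0 | hx0
  · -- `x = 0`
    have hy1 : y = 1 := by linarith
    obtain ⟨ε, hε, hε2⟩ := geo1_perturb (A := fun i => -G ρ (θ i)) (B := fun i => -G ρ (θ i - π))
      (fun i => by
        have h6 := hi i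
        rw [← hx0, hy1, zero_mul, zero_add, one_mul] at h6
        rcases h6.lt_or_eq with h7 | h7
        · exact Or.inl h7
        · exact Or.inr ⟨h7, hB i h7⟩)
    exact ⟨ε, 1, hε, one_pos, fun i => by have := hε2 i; simpa using this⟩
  rcases hy.eq_or_lt with hy0 | hy0
  · have hx1 : x = 1 := by linarith
    obtain ⟨ε, hε, hε2⟩ := geo1_perturb (A := fun i => -G ρ (θ i - π)) (B := fun i => -G ρ (θ i))
      (fun i => by
        have h6 := hi i
        rw [← hy0, hx1, zero_mul, add_zero, one_mul] at h6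
        rcases h6.lt_or_eq with h7 | h7
        · exact Or.inl h7
        · exact Or.inr ⟨h7, hA i h7⟩)
    exact ⟨1, ε, one_pos, hε, fun i => by have := hε2 i; linarith⟩
  · exact ⟨x, y, hx0, hy0, hi⟩

end HBInf
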