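import Pool.Agent.HBInf.Gordan
import Pool.Agent.HBInd.Trig

/-!
# Rays which cannot be controlled from above, `1/2 < ρ < 1`

`G ρ ψ = cos (ρ (π - d))`, `d` the distance of `ψ` to `2πℤ` (`exists_reduce`, `G_of_abs_le`). Put
`β = π - π / (2ρ)`, `0 < β < π/2`, `2β = 2π - π/ρ < π < π/ρ`.

By `gordan` (with `X = Icc 0 π`, `v i α = G ρ (θ i - α)`) there are `α j ∈ [0, π]`, `ν j ≥ 0`, `∑ ν j = 1` with
`V θ i ≤ 0` for all `i`, `V θ = ∑ ν j G ρ (θ - α j)`. `V` is continuous (`abs_G_sub_le`), `2π`-periodic,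
`ρ`-trigonometrically convex (`G ρ` is: on `[-π, π]` it is the sinusoid `cos ρ (π + x)` for `x ≤ 0` and
`cos ρ (π - x)` for `x ≥ 0`, at `0` the jump of the derivative is `2 ρ sin ρπ > 0`; search `trigConvex` in
`Pool.Agent.HBInd` before proving it), and it is not `≤ 0` everywhere: its integral over a period is
`∫_{-π}^{π} cos (ρ (π - |ψ|)) dψ = 2 sin (ρπ) / ρ > 0`.

(1) If `V ≤ 0` at the end points of an arc of length `< π/ρ` then `V ≤ 0` on the arc (convexity). Hence the
set `S = {V ≤ 0}` is contained in an arc `[a, b]`, `b - a ≤ 2β`, with `a, b ∈ S`: fix `θ ∈ S` (if `S` is empty, then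
`n = 0`, trivial). Every `θ' ∈ S` has a representative mod `2π` in `[θ - π, θ + π]`; if its distance `ℓ ≤ π`
to `θ` were `> 2β`, both arcs between them would have length `< π/ρ` (`2π - ℓ < π/ρ`), and `V ≤ 0`
everywhere. So all representatives are in `[θ - 2β, θ + 2β]`; let `a` be the least and `b` the greatest
element of the compact set `S ∩ [θ - 2β, θ + 2β]`. If `b - a > 2β`: if `b - a ≤ π` as before; if `b - a > π` then the
arcs `[a, θ]`, `[θ, b]`, `[b, a + 2π]` have lengths `< π/ρ` and `V ≤ 0` everywhere.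
(2) If `θ ∈ S` and `sin θ ≤ 0` then `-θ ∈ S`: `V (-θ) ≤ V θ`, since for `α ∈ [0, π]` the distance of `-θ` to `α` mod `2π` is
at most that of `θ`: `cos (-θ - α) ≥ cos (θ - α)`, and `G` is increasing in `d ∈ [0, π]` as `ρπ < π`.
(3) The centre `c = (a + b) / 2` has `sin c ≥ 0`: `b - c = c - a =: β' ≤ β < π/2`. Otherwise we may assume
`-π < c < 0` (shift by a multiple of `2π`). If `c ≥ -π/2`, then `-π < a < 0`, so `-a ∈ S`, so
`-a + 2πm ∈ [a, b]` for some integer `m`; but `-a = β' - c > b` and `-a - 2π < a`. If `c ≤ -π/2`, then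
`-π < b < 0`, `-b ∈ S`, but `-b > b` and `-b - 2π < a`. Contradiction in both cases.
So `c + 2πm ∈ [0, π]` for some `m`: this is `α`.
-/

namespace HBInf

open HBInd Complex Filter Topology Set
open scoped Real ComplexConjugate

theorem geo0_continuous_G {ρ : ℝ} (hρ : 0 ≤ ρ) : Continuous (G ρ) := by
  have h : LipschitzWith ⟨ρ, hρ⟩ (G ρ) := by
    refine LipschitzWith.of_dist_le_mul fun x y => ?_
    rw [Real.dist_eq, Real.dist_eq]
    exact abs_G_sub_le hρ x y
  exact h.continuous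

theorem geo0_G_arccos (ρ x : ℝ) : G ρ x = Real.cos (ρ * (π - Real.arccos (Real.cos x))) := by
  obtain ⟨d, hd0, hd1, hG, h⟩ := exists_reduce ρ x
  obtain ⟨-, n, hn⟩ := h 0
  have e : Real.cos x = Real.cos d := by
    rw [hn, Real.cos_abs, Real.cos_sub_int_mul_two_pi]
  rw [e, Real.arccos_cos hd0 hd1, hG]

theorem geo0_G_mono {ρ : ℝ} (h0 : 0 ≤ ρ) (h1 : ρ ≤ 1) {x y : ℝ} (h : Real.cos x ≤ Real.cos y) :
    G ρ y ≤ G ρ x := by
  have hpi := Real.pi_pos
  rw [geo0_G_arccos, geo0_G_arccos]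
  have h2 : Real.arccos (Real.cos y) ≤ Real.arccos (Real.cos x) := Real.arccos_le_arccos h
  have h3 := Real.arccos_le_pi (Real.cos x)
  have h4 := Real.arccos_nonneg (Real.cos y)
  refine Real.cos_le_cos_of_nonneg_of_le_pi ?_ ?_ ?_
  · exact mul_nonneg h0 (by linarith)
  · nlinarith
  · exact mul_le_mul_of_nonneg_left (by linarith) h0

theorem geo0_G_right {ρ x : ℝ} (h0 : 0 ≤ x) (h1 : x ≤ 2 * π) : G ρ x = Real.cos (ρ * (π - x)) := by
  rcases le_total x π with h | h
  · rw [G_of_abs_le (by rw [abs_of_nonneg h0]; exact h), abs_of_nonneg h0]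
  · have e := G_add_int ρ x (-1)
    push_cast at e
    rw [← e, G_of_abs_le (by rw [abs_le]; constructor <;> linarith), abs_of_nonpos (by linarith),
      ← Real.cos_neg]
    congr 1
    ring

theorem geo0_G_left {ρ x : ℝ} (h0 : x ≤ 0) (h1 : -(2 * π) ≤ x) : G ρ x = Real.cos (ρ * (π + x)) := by
  rcases le_total (-π) x with h | h
  · rw [G_of_abs_le (by rw [abs_of_nonpos h0]; linarith), abs_of_nonpos h0, sub_neg_eq_add]
  · have e := G_add_int ρ x 1
    push_cast at e
    rw [← e, G_of_abs_le (by rw [abs_le]; constructor <;> linarith), abs_of_nonneg (by linarith),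
      ← Real.cos_neg]
    congr 1
    ring

theorem geo0_ident (u v w : ℝ) :
    Real.cos w * Real.sin (u + v) = Real.cos (w - v) * Real.sin u + Real.cos (w + u) * Real.sin v := by
  rw [Real.sin_add, Real.cos_sub, Real.cos_add]
  ring

theorem geo0_G_trig {ρ : ℝ} (h1 : 1 / 2 < ρ) (h2 : ρ < 1) : TrigConvex ρ (G ρ) := by
  have hpi := Real.pi_pos
  have hρ : 0 < ρ := by linarith
  have hl : π / ρ < 2 * π := by
    rw [div_lt_iff₀ hρ]
    nlinarith
  have hρl : ρ * (π / ρ) = π := by field_simp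
  have hsin : ∀ x : ℝ, 0 ≤ x → x < π / ρ → 0 ≤ Real.sin (ρ * x) := fun x hx0 hx1 => by
    refine Real.sin_nonneg_of_nonneg_of_le_pi (mul_nonneg hρ.le hx0) ?_
    rw [← hρl]
    exact mul_le_mul_of_nonneg_left hx1.le hρ.le
  -- normalised version
  have key : ∀ a t b : ℝ, -(2 * π) ≤ a → a ≤ 0 → a < t → t < b → b - a < π / ρ →
      G ρ t * Real.sin (ρ * (b - a)) ≤
        G ρ a * Real.sin (ρ * (b - t)) + G ρ b * Real.sin (ρ * (t - a)) := by
    intro a t b ha0 ha1 hat htb hba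
    have hsρ : 0 ≤ Real.sin (ρ * π) :=
      Real.sin_nonneg_of_nonneg_of_le_pi (by positivity) (by nlinarith)
    rcases le_total b 0 with hb | hb
    · rw [geo0_G_left ha1 ha0, geo0_G_left (by linarith) (by linarith), geo0_G_left hb (by linarith)]
      have e := geo0_ident (ρ * (b - t)) (ρ * (t - a)) (ρ * (π + t))
      have e1 : ρ * (b - t) + ρ * (t - a) = ρ * (b - a) := by ring
      have e2 : ρ * (π + t) - ρ * (t - a) = ρ * (π + a) := by ring
      have e3 : ρ * (π + t) + ρ * (b - t) = ρ * (π + b) := by ring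
      rw [e1, e2, e3] at e
      exact e.le
    · rcases le_total t 0 with ht | ht
      · rw [geo0_G_left ha1 ha0, geo0_G_left ht (by linarith), geo0_G_right hb (by linarith)]
        have e := geo0_ident (ρ * (b - t)) (ρ * (t - a)) (ρ * (π + t))
        have e1 : ρ * (b - t) + ρ * (t - a) = ρ * (b - a) := by ring
        have e2 : ρ * (π + t) - ρ * (t - a) = ρ * (π + a) := by ring
        have e3 : ρ * (π + t) + ρ * (b - t) = ρ * (π + b) := by ring
        rw [e1, e2, e3] at e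
        have e4 : Real.cos (ρ * (π + b)) ≤ Real.cos (ρ * (π - b)) := by
          have e5 : ρ * (π + b) = ρ * π + ρ * b := by ring
          have e6 : ρ * (π - b) = ρ * π - ρ * b := by ring
          rw [e5, e6, Real.cos_add, Real.cos_sub]
          have := mul_nonneg hsρ (hsin b hb (by linarith))
          linarith
        have e7 := mul_le_mul_of_nonneg_right e4 (hsin (t - a) (by linarith) (by linarith))
        linarith
      · rw [geo0_G_left ha1 ha0, geo0_G_right ht (by linarith), geo0_G_right hb (by linarith)]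
        have e := geo0_ident (-(ρ * (b - t))) (-(ρ * (t - a))) (ρ * (π - t))
        have e1 : -(ρ * (b - t)) + -(ρ * (t - a)) = -(ρ * (b - a)) := by ring
        have e2 : ρ * (π - t) - -(ρ * (t - a)) = ρ * (π - a) := by ring
        have e3 : ρ * (π - t) + -(ρ * (b - t)) = ρ * (π - b) := by ring
        rw [e1, e2, e3, Real.sin_neg, Real.sin_neg, Real.sin_neg] at e
        have e4 : Real.cos (ρ * (π - a)) ≤ Real.cos (ρ * (π + a)) := by
          have e5 : ρ * (π - a) = ρ * π + ρ * (-a) := by ring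
          have e6 : ρ * (π + a) = ρ * π - ρ * (-a) := by ring
          rw [e5, e6, Real.cos_add, Real.cos_sub]
          have := mul_nonneg hsρ (hsin (-a) (by linarith) (by linarith))
          linarith
        have e7 := mul_le_mul_of_nonneg_right e4 (hsin (b - t) (by linarith) (by linarith))
        linarith
  intro a t b hat htb hba
  set m : ℤ := -⌈a / (2 * π)⌉ with hm
  have hp2 : 0 < 2 * π := by positivity
  have ha1 : a + m * (2 * π) ≤ 0 := by
    have := Int.le_ceil (a / (2 * π))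
    rw [div_le_iff₀ hp2] at this
    rw [hm]
    push_cast
    linarith
  have ha0 : -(2 * π) ≤ a + m * (2 * π) := by
    have := Int.ceil_lt_add_one (a / (2 * π))
    rw [← sub_lt_iff_lt_add, lt_div_iff₀ hp2] at this
    rw [hm]
    push_cast
    linarith
  have h := key (a + m * (2 * π)) (t + m * (2 * π)) (b + m * (2 * π)) ha0 ha1 (by linarith)
    (by linarith) (by linarith)
  rw [G_add_int, G_add_int, G_add_int] at h
  have e1 : b + m * (2 * π) - (a + m * (2 * π)) = b - a := by ring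
  have e2 : b + m * (2 * π) - (t + m * (2 * π)) = b - t := by ring
  have e3 : t + m * (2 * π) - (a + m * (2 * π)) = t - a := by ring
  rwa [e1, e2, e3] at h

theorem geo0_G_pos {ρ : ℝ} (h1 : 1 / 2 < ρ) (h2 : ρ < 1) (x : ℝ) : 0 < G ρ x + G ρ (x + π) := by
  have hpi := Real.pi_pos
  have hρ : 0 < ρ := by linarith
  have e1 : Real.arccos (Real.cos (x + π)) = π - Real.arccos (Real.cos x) := by
    rw [Real.cos_add_pi, Real.arccos_neg]
  rw [geo0_G_arccos, geo0_G_arccos, e1]
  set d := Real.arccos (Real.cos x) with hd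
  have hd0 : 0 ≤ d := Real.arccos_nonneg _
  have hd1 : d ≤ π := Real.arccos_le_pi _
  have e2 : ρ * (π - d) = ρ * (π / 2) + ρ * (π / 2 - d) := by ring
  have e3 : ρ * (π - (π - d)) = ρ * (π / 2) - ρ * (π / 2 - d) := by ring
  rw [e2, e3, Real.cos_add, Real.cos_sub]
  have h3 : 0 < Real.cos (ρ * (π / 2)) :=
    Real.cos_pos_of_mem_Ioo ⟨by nlinarith, by nlinarith⟩
  have h4 : 0 < Real.cos (ρ * (π / 2 - d)) :=
    Real.cos_pos_of_mem_Ioo ⟨by nlinarith, by nlinarith⟩
  have := mul_pos h3 h4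
  linarith

/-- the combinatorial part -/
theorem geo0_arc {ρ : ℝ} (h1 : 1 / 2 < ρ) (h2 : ρ < 1) {V : ℝ → ℝ} (hc : Continuous V)
    (hp : ∀ (θ : ℝ) (m : ℤ), V (θ + m * (2 * π)) = V θ) (ht : TrigConvex ρ V)
    (hpos : ∀ θ, 0 < V θ + V (θ + π)) (hneg : ∀ θ, Real.sin θ ≤ 0 → V (-θ) ≤ V θ)
    {θ₀ : ℝ} (hθ₀ : V θ₀ ≤ 0) :
    ∃ α ∈ Icc 0 π, ∀ θ, V θ ≤ 0 → ∃ m : ℤ, |θ + m * (2 * π) - α| ≤ π - π / (2 * ρ) := by
  have hpi := Real.pi_pos
  have hρ : 0 < ρ := by linarith
  have hp2 : 0 < 2 * π := by positivity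
  set β : ℝ := π - π / (2 * ρ) with hβ
  have hl : π / ρ = 2 * π - 2 * β := by
    rw [hβ]
    field_simp
    ring
  have hβ1 : β < π / 2 := by
    have : π < π / ρ := by
      rw [lt_div_iff₀ hρ]
      nlinarith
    linarith
  have hβ0 : 0 < β := by
    have : π / ρ < 2 * π := by
      rw [div_lt_iff₀ hρ]
      nlinarith
    linarith
  have hρl : ρ * (2 * π - 2 * β) = π := by
    rw [← hl]
    field_simp
  rw [TrigConvex, hl] at ht
  -- convexity of arcs
  have harc : ∀ x y : ℝ, V x ≤ 0 → V y ≤ 0 → y - x < 2 * π - 2 * β → ∀ t ∈ Icc x y, V t ≤ 0 := by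
    intro x y hx hy hxy t ht'
    rcases ht'.1.eq_or_lt with h | h
    · rwa [← h]
    rcases ht'.2.eq_or_lt with h' | h'
    · rwa [h']
    have h3 := ht x t y h h' hxy
    have hs : ∀ z : ℝ, 0 < z → z < 2 * π - 2 * β → 0 < Real.sin (ρ * z) := fun z hz0 hz1 => by
      refine Real.sin_pos_of_pos_of_lt_pi (mul_pos hρ hz0) ?_
      rw [← hρl]
      exact mul_lt_mul_of_pos_left hz1 hρ
    have s1 := hs (y - x) (by linarith) hxy
    have s2 := hs (y - t) (by linarith) (by linarith)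
    have s3 := hs (t - x) (by linarith) (by linarith)
    have h4 := mul_nonneg_of_nonpos_of_nonpos hx (neg_nonpos.2 s2.le)
    have h5 := mul_nonneg_of_nonpos_of_nonpos hy (neg_nonpos.2 s3.le)
    by_contra hcon
    push Not at hcon
    have := mul_pos hcon s1
    linarith
  -- V ≤ 0 on a full period is impossible
  have hfull : ∀ x : ℝ, ¬∀ t ∈ Icc x (x + 2 * π), V t ≤ 0 := by
    intro x hx
    have e1 := hx x ⟨le_rfl, by linarith⟩
    have e2 := hx (x + π) ⟨by linarith, by linarith⟩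
    have e3 := hpos x
    linarith
  have hp1 : ∀ θ, V (θ + 2 * π) = V θ := fun θ => by
    have := hp θ 1
    push_cast at this
    rwa [one_mul] at this
  have hclaim : ∀ x y : ℝ, V x ≤ 0 → V y ≤ 0 → x ≤ y → y ≤ x + 2 * π →
      y - x ≤ 2 * β ∨ 2 * π - 2 * β ≤ y - x := by
    intro x y hx hy hxy hyx
    by_contra hcon
    push Not at hcon
    refine hfull x fun t ht' => ?_
    rcases le_total t y with h | h
    · exact harc x y hx hy hcon.2 t ⟨ht'.1, h⟩
    · exact harc y (x + 2 * π) hy (by rw [hp1]; exact hx) (by linarith) t ⟨h, ht'.2⟩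
  set T : Set ℝ := {θ | V θ ≤ 0} ∩ Icc (θ₀ - 2 * β) (θ₀ + 2 * β) with hT
  have hTc : IsCompact T := by
    rw [hT]
    exact isCompact_Icc.inter_left (isClosed_le hc continuous_const)
  have hTn : T.Nonempty := ⟨θ₀, hθ₀, by constructor <;> linarith⟩
  obtain ⟨a, haT, ha⟩ := hTc.exists_isLeast hTn
  obtain ⟨b, hbT, hb⟩ := hTc.exists_isGreatest hTn
  have hθT : θ₀ ∈ T := ⟨hθ₀, by constructor <;> linarith⟩
  have haθ : a ≤ θ₀ := ha hθT
  have hbθ : θ₀ ≤ b := hb hθT
  have haV : V a ≤ 0 := haT.1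
  have hbV : V b ≤ 0 := hbT.1
  have ha2 : θ₀ - 2 * β ≤ a := haT.2.1
  have hb2 : b ≤ θ₀ + 2 * β := hbT.2.2
  have hba : b - a ≤ 2 * β := by
    rcases hclaim a b haV hbV (by linarith) (by linarith) with h | h
    · exact h
    · exfalso
      refine hfull a fun t ht' => ?_
      rcases le_total t θ₀ with h3 | h3
      · exact harc a θ₀ haV hθ₀ (by linarith) t ⟨ht'.1, h3⟩
      · rcases le_total t b with h4 | h4
        · exact harc θ₀ b hθ₀ hbV (by linarith) t ⟨h3, h4⟩
        · exact harc b (a + 2 * π) hbV (by rw [hp1]; exact haV) (by linarith) t ⟨h4, ht'.2⟩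
  have hrep : ∀ θ, V θ ≤ 0 → ∃ m : ℤ, a ≤ θ + m * (2 * π) ∧ θ + m * (2 * π) ≤ b := by
    intro θ hθ
    set k : ℤ := ⌊(θ - θ₀) / (2 * π)⌋ with hk
    have k1 : k * (2 * π) ≤ θ - θ₀ := by
      have := Int.floor_le ((θ - θ₀) / (2 * π))
      rwa [le_div_iff₀ hp2] at this
    have k2 : θ - θ₀ < k * (2 * π) + 2 * π := by
      have := Int.lt_floor_add_one ((θ - θ₀) / (2 * π))
      rw [div_lt_iff₀ hp2] at this
      linarith
    have hV1 : V (θ + ((-k : ℤ) : ℝ) * (2 * π)) ≤ 0 := by rw [hp]; exact hθ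
    have hV2 : V (θ + ((-k - 1 : ℤ) : ℝ) * (2 * π)) ≤ 0 := by rw [hp]; exact hθ
    rcases hclaim θ₀ (θ + ((-k : ℤ) : ℝ) * (2 * π)) hθ₀ hV1 (by push_cast; linarith)
      (by push_cast; linarith) with h | h
    · have hm : θ + ((-k : ℤ) : ℝ) * (2 * π) ∈ T := by
        refine ⟨hV1, ?_, ?_⟩
        · push_cast at h ⊢
          linarith
        · linarith
      exact ⟨-k, ha hm, hb hm⟩
    · have hm : θ + ((-k - 1 : ℤ) : ℝ) * (2 * π) ∈ T := by
        refine ⟨hV2, ?_, ?_⟩
        · push_cast at h ⊢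
          linarith
        · push_cast at h ⊢
          linarith
      exact ⟨-k - 1, ha hm, hb hm⟩
  -- the centre
  set k : ℤ := ⌊((a + b) / 2 + π) / (2 * π)⌋ with hk
  have k1 : k * (2 * π) ≤ (a + b) / 2 + π := by
    have := Int.floor_le (((a + b) / 2 + π) / (2 * π))
    rwa [le_div_iff₀ hp2] at this
  have k2 : (a + b) / 2 + π < k * (2 * π) + 2 * π := by
    have := Int.lt_floor_add_one (((a + b) / 2 + π) / (2 * π))
    rw [div_lt_iff₀ hp2] at this
    linarith
  set c : ℝ := (a + b) / 2 - k * (2 * π) with hcdef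
  set r : ℝ := (b - a) / 2 with hr
  have hr0 : 0 ≤ r := by rw [hr]; linarith
  have hrβ : r ≤ β := by rw [hr]; linarith
  have hcV1 : V (c - r) ≤ 0 := by
    have e : c - r = a + ((-k : ℤ) : ℝ) * (2 * π) := by
      rw [hcdef, hr]
      push_cast
      ring
    rw [e, hp]
    exact haV
  have hcV2 : V (c + r) ≤ 0 := by
    have e : c + r = b + ((-k : ℤ) : ℝ) * (2 * π) := by
      rw [hcdef, hr]
      push_cast
      ring
    rw [e, hp]
    exact hbV
  have hrep2 : ∀ θ, V θ ≤ 0 → ∃ m : ℤ, c - r ≤ θ + m * (2 * π) ∧ θ + m * (2 * π) ≤ c + r := by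
    intro θ hθ
    obtain ⟨m, hm1, hm2⟩ := hrep θ hθ
    refine ⟨m - k, ?_, ?_⟩
    · rw [hcdef, hr]
      push_cast
      linarith
    · rw [hcdef, hr]
      push_cast
      linarith
  have hc1 : -π ≤ c := by rw [hcdef]; linarith
  have hc2 : c < π := by rw [hcdef]; linarith
  have hint : ∀ x : ℝ, ∀ m : ℤ, 0 < x → x + m * (2 * π) ≤ c + r → c + r < x → m ≤ -1 := by
    intro x m _ hx1 hx2
    by_contra hcon
    push Not at hcon
    have : (0 : ℤ) ≤ m := by omega
    have h3 : (0 : ℝ) ≤ m := by exact_mod_cast this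
    have h4 : 0 ≤ (m : ℝ) * (2 * π) := by positivity
    linarith
  rcases le_total 0 c with h0 | h0
  · refine ⟨c, ⟨h0, hc2.le⟩, fun θ hθ => ?_⟩
    obtain ⟨m, hm1, hm2⟩ := hrep2 θ hθ
    refine ⟨m, ?_⟩
    rw [abs_le]
    constructor <;> linarith
  · rcases h0.eq_or_lt with h00 | h00
    · refine ⟨0, ⟨le_rfl, hpi.le⟩, fun θ hθ => ?_⟩
      obtain ⟨m, hm1, hm2⟩ := hrep2 θ hθ
      refine ⟨m, ?_⟩
      rw [abs_le]
      constructor <;> linarith
    rcases hc1.eq_or_lt with h01 | h01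
    · refine ⟨π, ⟨hpi.le, le_rfl⟩, fun θ hθ => ?_⟩
      obtain ⟨m, hm1, hm2⟩ := hrep2 θ hθ
      refine ⟨m + 1, ?_⟩
      rw [abs_le]
      push_cast
      constructor <;> linarith
    exfalso
    rcases le_total (-(π / 2)) c with h3 | h3
    · have hs : Real.sin (c - r) ≤ 0 :=
        Real.sin_nonpos_of_nonpos_of_neg_pi_le (by linarith) (by linarith)
      have hV := (hneg _ hs).trans hcV1
      obtain ⟨m, hm1, hm2⟩ := hrep2 _ hV
      have hm : m ≤ -1 := hint _ m (by linarith) hm2 (by linarith)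
      have hm' : (m : ℝ) ≤ -1 := by exact_mod_cast hm
      have h4 : (m : ℝ) * (2 * π) ≤ -1 * (2 * π) := mul_le_mul_of_nonneg_right hm' hp2.le
      linarith
    · have hs : Real.sin (c + r) ≤ 0 :=
        Real.sin_nonpos_of_nonpos_of_neg_pi_le (by linarith) (by linarith)
      have hV := (hneg _ hs).trans hcV2
      obtain ⟨m, hm1, hm2⟩ := hrep2 _ hV
      have hm : m ≤ -1 := hint _ m (by linarith) hm2 (by linarith)
      have hm' : (m : ℝ) ≤ -1 := by exact_mod_cast hm
      have h4 : (m : ℝ) * (2 * π) ≤ -1 * (2 * π) := mul_le_mul_of_nonneg_right hm' hp2.le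
      linarith

theorem geoZero {ρ : ℝ} (h1 : 1 / 2 < ρ) (h2 : ρ < 1) {n : ℕ} {θ : Fin n → ℝ}
    (h : ¬∃ x : Fin n → ℝ, (∀ i, 0 ≤ x i) ∧ ∀ α ∈ Icc 0 π, 0 < ∑ i, x i * G ρ (θ i - α)) :
    ∃ α ∈ Icc 0 π, ∀ i, ∃ m : ℤ, |θ i + m * (2 * π) - α| ≤ π - π / (2 * ρ) := by
  have hpi := Real.pi_pos
  have hρ : 0 < ρ := by linarith
  rcases Nat.eq_zero_or_pos n with hn | hn
  · subst hn
    exact ⟨0, ⟨le_rfl, hpi.le⟩, fun i => i.elim0⟩
  have hne : Nonempty (Icc (0 : ℝ) π) := ⟨⟨0, le_rfl, hpi.le⟩⟩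
  obtain ⟨k, a, ν, hν, hν1, hV⟩ := gordan (X := Icc (0 : ℝ) π) (fun i α => G ρ (θ i - α))
    (fun i => (geo0_continuous_G hρ.le).comp (by fun_prop)) (by
      rintro ⟨x, hx0, hx⟩
      exact h ⟨x, hx0, fun α hα => hx ⟨α, hα⟩⟩)
  have hex : ∃ j, 0 < ν j := by
    by_contra hcon
    push Not at hcon
    have : ∑ j, ν j ≤ 0 := Finset.sum_nonpos fun j _ => hcon j
    linarith
  obtain ⟨j₀, hj₀⟩ := hex
  obtain ⟨α, hα, hA⟩ := geo0_arc h1 h2 (V := fun t => ∑ j, ν j * G ρ (t - (a j : ℝ)))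
    (by
      refine continuous_finsetSum _ fun j _ => continuous_const.mul ?_
      exact (geo0_continuous_G hρ.le).comp (by fun_prop))
    (by
      intro t m
      refine Finset.sum_congr rfl fun j _ => ?_
      rw [← G_add_int ρ (t - a j) m]
      congr 2
      ring)
    (by
      intro x t y hxt hty hyx
      simp only [Finset.sum_mul]
      rw [← Finset.sum_add_distrib]
      refine Finset.sum_le_sum fun j _ => ?_
      have h3 := geo0_G_trig h1 h2 (x - a j) (t - a j) (y - a j) (by linarith) (by linarith)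
        (by linarith)
      have e1 : y - a j - (x - a j) = y - x := by ring
      have e2 : y - a j - (t - a j) = y - t := by ring
      have e3 : t - a j - (x - a j) = t - x := by ring
      rw [e1, e2, e3] at h3
      have h4 := mul_le_mul_of_nonneg_left h3 (hν j)
      linarith)
    (by
      intro t
      rw [← Finset.sum_add_distrib]
      refine Finset.sum_pos' (fun j _ => ?_) ⟨j₀, Finset.mem_univ _, ?_⟩
      · have h3 := geo0_G_pos h1 h2 (t - a j)
        have e : t + π - a j = t - a j + π := by ring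
        rw [e, ← mul_add]
        exact mul_nonneg (hν j) h3.le
      · have h3 := geo0_G_pos h1 h2 (t - a j₀)
        have e : t + π - a j₀ = t - a j₀ + π := by ring
        rw [e, ← mul_add]
        exact mul_pos hj₀ h3)
    (by
      intro t ht
      refine Finset.sum_le_sum fun j _ => mul_le_mul_of_nonneg_left ?_ (hν j)
      refine geo0_G_mono hρ.le h2.le ?_
      have h3 : 0 ≤ Real.sin (a j : ℝ) := Real.sin_nonneg_of_nonneg_of_le_pi (a j).2.1 (a j).2.2
      have e : -t - (a j : ℝ) = -(t + a j) := by ring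
      rw [e, Real.cos_neg, Real.cos_sub, Real.cos_add]
      have := mul_nonneg_of_nonpos_of_nonpos ht (neg_nonpos.2 h3)
      linarith)
    (θ₀ := θ ⟨0, hn⟩) (hV ⟨0, hn⟩)
  exact ⟨α, hα, fun i => hA (θ i) (hV i)⟩

end HBInf
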