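import Pool.Agent.HBInf.KillDefs
import Pool.Agent.HBInd.Contact

/-!
# Kill data, `1 < ρ < 2`

`k = 2`, `α = (0, π)`, `ν = (x, y)`, both positive, so `ξ` is free. Put `c = -VV 1 ρ π > 0` (`VV_pi_one`). For
`θ ∈ [0, π]`: `VV 1 ρ θ = -c cos ρ(π - θ)`, `VV 1 ρ (θ - π) = -c cos ρθ` (`VV_eq`), so
`V θ := x VV θ + y VV (θ - π) = -c (x cos ρ(π - θ) + y cos ρθ)`; `V` is even and `2π`-periodic, so we may assume
`θ i ∈ [0, π]`. Write `x cos ρ(π - θ) + y cos ρθ = -R cos ρ(θ - τ)`, `R > 0`; the derivative at `0` is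
`x ρ sin ρπ < 0` and at `π` it is `-y ρ sin ρπ > 0`; so `τ` can be chosen in `(0, π)` with `τ < 2ω`,
`π - τ < 2ω`, where `ω = π/(2ρ)`. (`R sin ρτ = - x sin ρπ > 0`... choose `τ` with `ρτ ∈ (0, π)`.) So for
`θ ∈ [0, π]`: `V θ = c R cos ρ(θ - τ) ≤ 0` implies `|θ - τ| ≥ ω`, and if `V θ = 0` then `θ = A := τ - ω` or
`θ = B := τ + ω` (`|θ - τ| < 2ω < 3ω`).

For `θ ∈ {A, B}` (as formulas, whether or not they are in `[0, π]`) put
`w θ = c (x (π - θ) sin ρ(π - θ) + y θ sin ρθ)`; if `θ ∈ [0, π]` and `V θ = 0` then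
`x WW θ + y WW (θ - π) = w θ` (`WW_eq`: the terms with `WW 1 ρ π` cancel because `V θ = 0`). `B = A + π/ρ`:
`sin ρB = -sin ρA`, `sin ρ(π - B) = - sin ρ(π - A)`, so
`w A + w B = c (π/ρ) (x sin ρ(π - A) - y sin ρA) = - c (π/ρ) R · 1 < 0` (it is `(1/ρ)` times the derivative of
`x cos ρ(π - θ) + y cos ρθ = -R cos ρ(θ - τ)` at `A = τ - ω`, which is `ρ R sin ρ(A - τ) = -ρR`).

Put `V_ξ θ = -c (ξ₀ cos ρ(π - θ) + ξ₁ cos ρθ)`, so `V_ξ B = - V_ξ A`. `cos ρ(π - A)` and `cos ρA` are not both zero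
(otherwise `sin ρπ = 0`), so `V_ξ A` can be given any real value `t` with a suitable `ξ`. Choose
`t = (w B - w A) / 2`: `w A + t = w B - t = (w A + w B)/2 < 0`.
-/

namespace HBInf

open HBInd Complex Filter Topology Set MeasureTheory
open scoped Real ComplexConjugate

theorem kil1_reduce (θ : ℝ) : ∃ d : ℝ, 0 ≤ d ∧ d ≤ π ∧ ∀ F : ℝ → ℝ, (∀ ψ, F (-ψ) = F ψ) →
    (∀ (ψ : ℝ) (n : ℤ), F (ψ + n * (2 * π)) = F ψ) → F θ = F d ∧ F (θ - π) = F (d - π) := by
  obtain ⟨n, hn1, hn2⟩ := exists_int_Ioc θ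
  rcases le_total 0 (θ - n * (2 * π)) with h | h
  · refine ⟨θ - n * (2 * π), h, hn2, fun F _ hF => ⟨?_, ?_⟩⟩
    · rw [← hF (θ - n * (2 * π)) n]
      congr 1
      ring
    · rw [← hF (θ - n * (2 * π) - π) n]
      congr 1
      ring
  · refine ⟨-(θ - n * (2 * π)), by linarith, by linarith, fun F he hF => ⟨?_, ?_⟩⟩
    · rw [he, ← hF (θ - n * (2 * π)) n]
      congr 1
      ring
    · rw [← he (-(θ - n * (2 * π)) - π), ← hF (-(-(θ - n * (2 * π)) - π)) (n - 1)]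
      congr 1
      push_cast
      ring

/-- the potential of the two rays (up to the factor `-c`) -/
noncomputable def kil1f (ρ x y t : ℝ) : ℝ := x * Real.cos (ρ * (π - t)) + y * Real.cos (ρ * t)

/-- its derivative, divided by `ρ` -/
noncomputable def kil1g (ρ x y t : ℝ) : ℝ := x * Real.sin (ρ * (π - t)) - y * Real.sin (ρ * t)

noncomputable def kil1w (ρ x y t : ℝ) : ℝ :=
  x * ((π - t) * Real.sin (ρ * (π - t))) + y * (t * Real.sin (ρ * t))

theorem kil1_f_eq (ρ x y A t : ℝ) : kil1f ρ x y t =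
    kil1f ρ x y A * Real.cos (ρ * (t - A)) + kil1g ρ x y A * Real.sin (ρ * (t - A)) := by
  unfold kil1f kil1g
  have h1 : ρ * (π - t) = ρ * (π - A) - ρ * (t - A) := by ring
  have h2 : ρ * t = ρ * A + ρ * (t - A) := by ring
  rw [h1, h2, Real.cos_sub, Real.cos_add]
  ring

theorem kil1_g_eq (ρ x y A t : ℝ) : kil1g ρ x y t =
    kil1g ρ x y A * Real.cos (ρ * (t - A)) - kil1f ρ x y A * Real.sin (ρ * (t - A)) := by
  unfold kil1f kil1g
  have h1 : ρ * (π - t) = ρ * (π - A) - ρ * (t - A) := by ring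
  have h2 : ρ * t = ρ * A + ρ * (t - A) := by ring
  rw [h1, h2, Real.sin_sub, Real.sin_add]
  ring

theorem kil1_sin {ρ : ℝ} (h1 : 1 < ρ) (h2 : ρ < 2) : Real.sin (ρ * π) < 0 := by
  have hπ := Real.pi_pos
  have : Real.sin (ρ * π) = -Real.sin (ρ * π - π) := by
    rw [Real.sin_sub_pi, neg_neg]
  rw [this]
  have : 0 < Real.sin (ρ * π - π) := by
    apply Real.sin_pos_of_pos_of_lt_pi
    · nlinarith
    · nlinarith
  linarith

theorem kil1_g_ne {ρ x y : ℝ} (h1 : 1 < ρ) (h2 : ρ < 2) (hx : 0 < x) {A : ℝ}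
    (hA : kil1f ρ x y A = 0) : kil1g ρ x y A ≠ 0 := by
  intro hg
  have h3 := kil1_g_eq ρ x y A 0
  rw [hg, hA, zero_mul, zero_mul, sub_zero] at h3
  have h4 := kil1_sin h1 h2
  have h5 : kil1g ρ x y 0 = x * Real.sin (ρ * π) := by
    unfold kil1g
    simp
  rw [h5] at h3
  have := mul_neg_of_pos_of_neg hx h4
  linarith

/-- two zeros differ by `0`, `π/ρ` or `-π/ρ` -/
theorem kil1_zeros {ρ x y : ℝ} (h1 : 1 < ρ) (h2 : ρ < 2) (hx : 0 < x) {A t : ℝ}
    (hA0 : 0 ≤ A) (hA1 : A ≤ π) (ht0 : 0 ≤ t) (ht1 : t ≤ π)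
    (hA : kil1f ρ x y A = 0) (ht : kil1f ρ x y t = 0) :
    t = A ∨ t = A + π / ρ ∨ A = t + π / ρ := by
  have hπ := Real.pi_pos
  have h3 := kil1_f_eq ρ x y A t
  rw [ht, hA, zero_mul, zero_add] at h3
  have h4 : Real.sin (ρ * (t - A)) = 0 := by
    rcases mul_eq_zero.1 h3.symm with h | h
    · exact absurd h (kil1_g_ne h1 h2 hx hA)
    · exact h
  obtain ⟨k, hk⟩ := Real.sin_eq_zero_iff.1 h4
  have hρ : 0 < ρ := by linarith
  have h5 : (k : ℝ) * π < 2 * π := by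
    rw [hk]
    nlinarith
  have h6 : -2 * π < (k : ℝ) * π := by
    rw [hk]
    nlinarith
  have h7 : (k : ℝ) < 2 := lt_of_mul_lt_mul_right h5 hπ.le
  have h8 : (-2 : ℝ) < (k : ℝ) := lt_of_mul_lt_mul_right h6 hπ.le
  have h9 : k < 2 := by exact_mod_cast h7
  have h10 : -2 < k := by exact_mod_cast h8
  have h11 : k = -1 ∨ k = 0 ∨ k = 1 := by omega
  rcases h11 with rfl | rfl | rfl
  · right; right
    field_simp
    push_cast at hk
    linarith
  · left
    rw [Int.cast_zero, zero_mul] at hk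
    have := (mul_eq_zero.1 hk.symm).resolve_left hρ.ne'
    linarith
  · right; left
    field_simp
    push_cast at hk
    linarith

theorem kil1_g_neg {ρ x y : ℝ} (h1 : 1 < ρ) (h2 : ρ < 2) (hx : 0 < x) (hy : 0 < y) {A : ℝ}
    (hA0 : 0 ≤ A) (hA1 : A + π / ρ ≤ π) (hA : kil1f ρ x y A = 0) : kil1g ρ x y A < 0 := by
  have hπ := Real.pi_pos
  have hρ : 0 < ρ := by linarith
  have hs := kil1_sin h1 h2
  have hρA : ρ * A + π ≤ ρ * π := by
    have h3 : ρ * (A + π / ρ) ≤ ρ * π := mul_le_mul_of_nonneg_left hA1 hρ.le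
    rw [mul_add, mul_div_cancel₀ _ hρ.ne'] at h3
    exact h3
  have hρA0 : 0 ≤ ρ * A := by positivity
  by_contra hcon
  rw [not_lt] at hcon
  have h3 := kil1_g_eq ρ x y A 0
  have h4 := kil1_g_eq ρ x y A π
  rw [hA, zero_mul, sub_zero] at h3 h4
  have h5 : kil1g ρ x y 0 < 0 := by
    unfold kil1g
    simp only [sub_zero, mul_zero, Real.sin_zero]
    nlinarith
  have h6 : 0 < kil1g ρ x y π := by
    unfold kil1g
    simp only [sub_self, mul_zero, Real.sin_zero, zero_sub]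
    nlinarith
  have h7 : Real.cos (ρ * (0 - A)) < 0 := by
    by_contra h
    rw [not_lt] at h
    have := mul_nonneg hcon h
    linarith
  have h8 : 0 < Real.cos (ρ * (π - A)) := by
    by_contra h
    rw [not_lt] at h
    have := mul_nonpos_of_nonneg_of_nonpos hcon h
    linarith
  have h9 : π / 2 < ρ * A := by
    by_contra h
    rw [not_lt] at h
    have : 0 ≤ Real.cos (ρ * (0 - A)) := by
      apply Real.cos_nonneg_of_mem_Icc
      constructor <;> linarith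
    linarith
  have h10 : Real.cos (ρ * (π - A)) ≤ 0 := by
    have h11 : Real.cos (ρ * (π - A)) = -Real.cos (ρ * (π - A) - π) := by
      rw [Real.cos_sub_pi, neg_neg]
    rw [h11]
    have : 0 ≤ Real.cos (ρ * (π - A) - π) := by
      apply Real.cos_nonneg_of_mem_Icc
      constructor
      · linarith
      · nlinarith
    linarith
  linarith

theorem kil1_w_add {ρ : ℝ} (hρ : 0 < ρ) (x y A : ℝ) : kil1w ρ x y A + kil1w ρ x y (A + π / ρ) =
    π / ρ * kil1g ρ x y A := by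
  have h1 : Real.sin (ρ * (π - (A + π / ρ))) = -Real.sin (ρ * (π - A)) := by
    rw [show ρ * (π - (A + π / ρ)) = ρ * (π - A) - π by field_simp; ring, Real.sin_sub_pi]
  have h2 : Real.sin (ρ * (A + π / ρ)) = -Real.sin (ρ * A) := by
    rw [show ρ * (A + π / ρ) = ρ * A + π by field_simp, Real.sin_add_pi]
  unfold kil1w kil1g
  rw [h1, h2]
  ring

theorem kil1_f_shift {ρ : ℝ} (hρ : 0 < ρ) (x y A : ℝ) :
    kil1f ρ x y (A + π / ρ) = -kil1f ρ x y A := by
  have h1 : Real.cos (ρ * (π - (A + π / ρ))) = -Real.cos (ρ * (π - A)) := by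
    rw [show ρ * (π - (A + π / ρ)) = ρ * (π - A) - π by field_simp; ring, Real.cos_sub_pi]
  have h2 : Real.cos (ρ * (A + π / ρ)) = -Real.cos (ρ * A) := by
    rw [show ρ * (A + π / ρ) = ρ * A + π by field_simp, Real.cos_add_pi]
  unfold kil1f
  rw [h1, h2]
  ring

/-- the free densities -/
theorem kil1_xi {ρ : ℝ} (h1 : 1 < ρ) (h2 : ρ < 2) (A t : ℝ) :
    ∃ u v : ℝ, kil1f ρ u v A = t := by
  have hpos : 0 < Real.cos (ρ * (π - A)) ^ 2 + Real.cos (ρ * A) ^ 2 := by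
    rcases (add_nonneg (sq_nonneg (Real.cos (ρ * (π - A))))
      (sq_nonneg (Real.cos (ρ * A)))).lt_or_eq with h | h
    · exact h
    · exfalso
      have h3 : Real.cos (ρ * (π - A)) = 0 := by
        have h6 := sq_nonneg (Real.cos (ρ * (π - A)))
        have h7 := sq_nonneg (Real.cos (ρ * A))
        have h8 : Real.cos (ρ * (π - A)) ^ 2 = 0 := by linarith
        exact pow_eq_zero_iff (two_ne_zero) |>.1 h8
      have h4 : Real.cos (ρ * A) = 0 := by
        have h6 := sq_nonneg (Real.cos (ρ * (π - A)))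
        have h7 := sq_nonneg (Real.cos (ρ * A))
        have h8 : Real.cos (ρ * A) ^ 2 = 0 := by linarith
        exact pow_eq_zero_iff (two_ne_zero) |>.1 h8
      have h5 := kil1_sin h1 h2
      rw [show ρ * π = ρ * (π - A) + ρ * A by ring, Real.sin_add, h3, h4] at h5
      simp at h5
  refine ⟨t / (Real.cos (ρ * (π - A)) ^ 2 + Real.cos (ρ * A) ^ 2) * Real.cos (ρ * (π - A)),
    t / (Real.cos (ρ * (π - A)) ^ 2 + Real.cos (ρ * A) ^ 2) * Real.cos (ρ * A), ?_⟩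
  unfold kil1f
  rw [mul_assoc, mul_assoc, ← mul_add, ← sq, ← sq, div_mul_cancel₀ _ hpos.ne']

/-- the choice of the free densities -/
theorem kil1_choice {ρ x y : ℝ} (h1 : 1 < ρ) (h2 : ρ < 2) (hx : 0 < x) (hy : 0 < y) :
    ∃ u v : ℝ, ∀ t, 0 ≤ t → t ≤ π → kil1f ρ x y t = 0 →
      kil1w ρ x y t - kil1f ρ u v t < 0 := by
  have hρ : 0 < ρ := by linarith
  have hπ := Real.pi_pos
  by_cases hc1 : ∃ A, 0 ≤ A ∧ A + π / ρ ≤ π ∧ kil1f ρ x y A = 0
  · obtain ⟨A, hA0, hA1, hA⟩ := hc1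
    have hg := kil1_g_neg h1 h2 hx hy hA0 hA1 hA
    have hdiv : 0 < π / ρ := by positivity
    have hsum := kil1_w_add hρ x y A
    have hneg : π / ρ * kil1g ρ x y A < 0 := mul_neg_of_pos_of_neg hdiv hg
    obtain ⟨u, v, huv⟩ := kil1_xi h1 h2 A ((kil1w ρ x y A - kil1w ρ x y (A + π / ρ)) / 2)
    refine ⟨u, v, fun t ht0 ht1 ht => ?_⟩
    rcases kil1_zeros h1 h2 hx hA0 (by linarith) ht0 ht1 hA ht with h | h | h
    · rw [h, huv]
      linarith
    · rw [h, kil1_f_shift hρ, huv]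
      linarith
    · exfalso
      have h3 : 2 * (π / ρ) ≤ π := by linarith
      rw [← mul_div_assoc, div_le_iff₀ hρ] at h3
      nlinarith
  · by_cases hc2 : ∃ A, 0 ≤ A ∧ A ≤ π ∧ kil1f ρ x y A = 0
    · obtain ⟨A, hA0, hA1, hA⟩ := hc2
      obtain ⟨u, v, huv⟩ := kil1_xi h1 h2 A (kil1w ρ x y A + 1)
      refine ⟨u, v, fun t ht0 ht1 ht => ?_⟩
      rcases kil1_zeros h1 h2 hx hA0 hA1 ht0 ht1 hA ht with h | h | h
      · rw [h, huv]
        linarith
      · exact absurd ⟨A, hA0, h ▸ ht1, hA⟩ hc1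
      · exact absurd ⟨t, ht0, h ▸ hA1, ht⟩ hc1
    · refine ⟨0, 0, fun t ht0 ht1 ht => ?_⟩
      exact absurd ⟨t, ht0, ht1, ht⟩ hc2

theorem killOne {ρ : ℝ} (h1 : 1 < ρ) (h2 : ρ < 2) {n : ℕ} {θ : Fin n → ℝ} {x y : ℝ} (hx : 0 < x)
    (hy : 0 < y) (h : ∀ i, x * (-G ρ (θ i)) + y * (-G ρ (θ i - π)) ≤ 0) : KillData 1 ρ θ := by
  obtain ⟨u, v, huv⟩ := kil1_choice h1 h2 hx hy
  have hp : (1 : ℕ) ≤ 1 := le_refl 1
  have h1' : ((1 : ℕ) : ℝ) < ρ := by simpa using h1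
  have h2' : ρ < ((1 : ℕ) : ℝ) + 1 := by
    push_cast
    linarith
  have hc := VV_pi_one h1 h2
  have hπ := Real.pi_pos
  refine ⟨2, ![0, π], ![x, y], ![u, v], ?_, ?_, ?_, ?_⟩
  · intro j
    fin_cases j
    · exact ⟨⟨le_refl _, hπ.le⟩, fun _ => Or.inl rfl⟩
    · exact ⟨⟨hπ.le, le_refl _⟩, fun _ => Or.inr rfl⟩
  · intro j
    fin_cases j
    · exact hx.le
    · exact hy.le
  · intro j
    left
    fin_cases j
    · exact hx
    · exact hy
  · intro i
    simp only [Fin.sum_univ_two, Matrix.cons_val_zero, Matrix.cons_val_one, sub_zero]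
    obtain ⟨d, hd0, hd1, hd⟩ := kil1_reduce (θ i)
    obtain ⟨hV1, hV2⟩ := hd (VV 1 ρ) (VV_neg 1 ρ) (VV_add_int 1 ρ)
    obtain ⟨hW1, hW2⟩ := hd (WW 1 ρ) (WW_neg 1 ρ) (WW_add_int 1 ρ)
    have habs1 : |d| = d := abs_of_nonneg hd0
    have habs2 : |d - π| = π - d := by
      rw [abs_of_nonpos (by linarith)]
      ring
    have hle : x * VV 1 ρ (θ i) + y * VV 1 ρ (θ i - π) ≤ 0 := by
      rw [VV_eq hp h1' h2' (θ i), VV_eq hp h1' h2' (θ i - π)]
      have := h i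
      nlinarith
    have eV1 : VV 1 ρ d = VV 1 ρ π * Real.cos (ρ * (π - d)) := by
      rw [VV_eq hp h1' h2' d, G_of_abs_le (by rw [habs1]; exact hd1), habs1]
    have eV2 : VV 1 ρ (d - π) = VV 1 ρ π * Real.cos (ρ * d) := by
      rw [VV_eq hp h1' h2' (d - π), G_of_abs_le (by rw [habs2]; linarith), habs2]
      congr 3
      ring
    have eW1 : WW 1 ρ d = WW 1 ρ π * Real.cos (ρ * (π - d)) -
        VV 1 ρ π * ((π - d) * Real.sin (ρ * (π - d))) := by
      rw [WW_eq hp h1' h2' (by rw [habs1]; exact hd1), habs1]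
    have eW2 : WW 1 ρ (d - π) = WW 1 ρ π * Real.cos (ρ * d) -
        VV 1 ρ π * (d * Real.sin (ρ * d)) := by
      rw [WW_eq hp h1' h2' (by rw [habs2]; linarith), habs2, show π - (π - d) = d by ring]
    rcases hle.lt_or_eq with hlt | heq
    · left
      exact hlt
    · right
      refine ⟨heq, ?_⟩
      rw [hV1, hV2, eV1, eV2] at heq
      have hf : kil1f ρ x y d = 0 := by
        have h3 : VV 1 ρ π * kil1f ρ x y d = 0 := by
          unfold kil1f
          linarith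
        exact (mul_eq_zero.1 h3).resolve_left hc.ne
      have h4 := huv d hd0 hd1 hf
      rw [hW1, hW2, hV1, hV2, eW1, eW2, eV1, eV2]
      have h5 : x * (WW 1 ρ π * Real.cos (ρ * (π - d)) -
          VV 1 ρ π * ((π - d) * Real.sin (ρ * (π - d)))) +
          y * (WW 1 ρ π * Real.cos (ρ * d) - VV 1 ρ π * (d * Real.sin (ρ * d))) +
          (u * (VV 1 ρ π * Real.cos (ρ * (π - d))) + v * (VV 1 ρ π * Real.cos (ρ * d))) =
          WW 1 ρ π * kil1f ρ x y d - VV 1 ρ π * (kil1w ρ x y d - kil1f ρ u v d) := by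
        unfold kil1f kil1w
        ring
      rw [h5, hf, mul_zero, zero_sub]
      nlinarith

end HBInf
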