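import Pool.Agent.HBInf.KillDefs

/-!
# Kill data, `1/2 < ρ < 1`

One ray `α` with `ν = 1`, `ξ = 0`. For `|ψ| ≤ β = π - π/(2ρ)`, `π/2 ≤ ρ (π - |ψ|) ≤ ρπ < π`, with equality on the left
iff `|ψ| = β`. So `VV 0 ρ ψ = VV 0 ρ π * cos (ρ (π - |ψ|)) ≤ 0` (`VV_eq`, `G_of_abs_le`, `VV_pi_zero`), and if it is `0`
then `|ψ| = β` and `WW 0 ρ ψ = - VV 0 ρ π * (π / (2ρ)) < 0` (`WW_eq`). Periodicity: `VV_add_int`, `WW_add_int`.
-/

namespace HBInf

open HBInd Complex Filter Topology Set MeasureTheory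
open scoped Real ComplexConjugate

theorem killZero {ρ : ℝ} (h1 : 1 / 2 < ρ) (h2 : ρ < 1) {n : ℕ} {θ : Fin n → ℝ} {α : ℝ}
    (hα : α ∈ Icc 0 π) (h : ∀ i, ∃ m : ℤ, |θ i + m * (2 * π) - α| ≤ π - π / (2 * ρ)) :
    KillData 0 ρ θ := by
  have hpi := Real.pi_pos
  have hρ : 0 < ρ := by linarith
  have hc0 : ((0 : ℕ) : ℝ) < ρ := by push_cast; exact hρ
  have hc1 : ρ < ((0 : ℕ) : ℝ) + 1 := by push_cast; linarith
  have hV := VV_pi_zero hρ h2
  have hdiv : 0 < π / (2 * ρ) := by positivity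
  have hmul : ρ * (π / (2 * ρ)) = π / 2 := by field_simp
  refine ⟨1, fun _ => α, fun _ => 1, fun _ => 0, fun _ => ⟨hα, fun h0 => absurd h0 (by norm_num)⟩,
    fun _ => zero_le_one, fun _ => Or.inl one_pos, fun i => ?_⟩
  obtain ⟨m, hm⟩ := h i
  set ψ : ℝ := θ i - α + m * (2 * π) with hψ
  have hm' : |ψ| ≤ π - π / (2 * ρ) := by
    have e : ψ = θ i + m * (2 * π) - α := by rw [hψ]; ring
    rw [e]; exact hm
  have hle : |ψ| ≤ π := by linarith
  have eV : VV 0 ρ (θ i - α) = VV 0 ρ π * Real.cos (ρ * (π - |ψ|)) := by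
    rw [← VV_add_int 0 ρ (θ i - α) m, VV_eq (by norm_num) hc0 hc1, G_of_abs_le hle]
  have eW : WW 0 ρ (θ i - α) = WW 0 ρ π * Real.cos (ρ * (π - |ψ|)) -
      VV 0 ρ π * ((π - |ψ|) * Real.sin (ρ * (π - |ψ|))) := by
    rw [← WW_add_int 0 ρ (θ i - α) m, WW_eq (by norm_num) hc0 hc1 hle]
  have hupper : ρ * (π - |ψ|) < π := by
    have := abs_nonneg ψ
    nlinarith
  simp only [Finset.univ_unique, Fin.default_eq_zero, Fin.isValue, Finset.sum_const,
    Finset.card_singleton, one_smul, one_mul, zero_mul, add_zero]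
  rcases hm'.lt_or_eq with hlt | heq
  · left
    rw [eV]
    refine mul_neg_of_pos_of_neg hV (Real.cos_neg_of_pi_div_two_lt_of_lt ?_ (by linarith))
    have : ρ * (π / (2 * ρ)) < ρ * (π - |ψ|) := mul_lt_mul_of_pos_left (by linarith) hρ
    linarith
  · right
    have e1 : ρ * (π - |ψ|) = π / 2 := by
      rw [heq, sub_sub_cancel, hmul]
    refine ⟨by rw [eV, e1, Real.cos_pi_div_two, mul_zero], ?_⟩
    rw [eW, e1, Real.cos_pi_div_two, mul_zero, Real.sin_pi_div_two, mul_one, zero_sub, heq,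
      sub_sub_cancel]
    have : 0 < VV 0 ρ π * (π / (2 * ρ)) := mul_pos hV hdiv
    linarith

end HBInf
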