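import Pool.Agent.HBInf.CondAKill
import Pool.Agent.HBInf.CondASlow
import Pool.Agent.HBInf.DensP
import Pool.Agent.HBInf.DensS
import Pool.Agent.HBInf.KillZero
import Pool.Agent.HBInf.KillOne
import Pool.Agent.HBInf.GeoZero
import Pool.Agent.HBInf.GeoOne

/-!
# The domination inequality for zero data

`p = 0`: if there is `x ≥ 0` with `∑ x_i G ρ (θ i - α) > 0` for all `α ∈ [0, π]`, then `densP` (`VV_eq`, `VV_pi_zero`) and
`condA_slow`; otherwise `geoZero`, `killZero`, `condA_kill`. `p = 1`: likewise with `geoOne` (`TT 1 = {0, π}`,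
`VV 1 ρ π < 0`), `densS` and `killOne`.
-/

namespace HBInf

open HBInd Complex Filter Topology Set MeasureTheory
open scoped Real ComplexConjugate

theorem cad_lin {p : ℕ} {ρ : ℝ} {ι : Type} (D : ZD p ρ ι) {B : ℝ}
    (h : ∀ y, D.N (sg p ρ) y ≤ B) : ∀ y, D.N (sg p ρ) y ≤ B * (1 + |y|) := by
  intro y
  have hB : 0 ≤ B := (D.N_nonneg (sg p ρ) 0).trans (h 0)
  have h1 := h y
  have h2 := abs_nonneg y
  nlinarith [mul_nonneg hB h2]

theorem cad_zero {ρ : ℝ} (h1 : 0 < ρ) (h2 : ρ < 1) {n : ℕ} {θ x : Fin n → ℝ}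
    (h : ∀ α ∈ Icc 0 π, 0 < ∑ i, x i * G ρ (θ i - α)) :
    ∀ α ∈ TT 0, 0 < ∑ i, x i * VV 0 ρ (θ i - α) := by
  intro α hα
  have h3 := h α hα.1
  have h4 := VV_pi_zero h1 h2
  have e : ∑ i, x i * VV 0 ρ (θ i - α) = VV 0 ρ π * ∑ i, x i * G ρ (θ i - α) := by
    rw [Finset.mul_sum]
    refine Finset.sum_congr rfl fun i _ => ?_
    rw [VV_eq (p := 0) (by norm_num) (by simpa using h1) (by simpa using h2)]
    ring
  rw [e]
  exact mul_pos h4 h3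

theorem cad_one {ρ : ℝ} (h1 : 1 < ρ) (h2 : ρ < 2) {n : ℕ} {θ x : Fin n → ℝ}
    (h : 0 < ∑ i, x i * (-G ρ (θ i))) (h' : 0 < ∑ i, x i * (-G ρ (θ i - π))) :
    ∀ α ∈ TT 1, 0 < ∑ i, x i * VV 1 ρ (θ i - α) := by
  have h4 := VV_pi_one h1 h2
  have e : ∀ α : ℝ, ∑ i, x i * VV 1 ρ (θ i - α) =
      (-VV 1 ρ π) * ∑ i, x i * (-G ρ (θ i - α)) := by
    intro α
    rw [Finset.mul_sum]
    refine Finset.sum_congr rfl fun i _ => ?_
    rw [VV_eq (p := 1) (le_refl _) (by simpa using h1) (by push_cast; linarith)]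
    ring
  intro α hα
  rw [e]
  refine mul_pos (by linarith) ?_
  rcases hα.2 rfl with h5 | h5
  · rw [h5]; simpa using h
  · rw [h5]; exact h'

theorem condA_data {p : ℕ} (hp : p ≤ 1) {ρ : ℝ} (h1 : (p : ℝ) < ρ) (h2 : ρ < p + 1)
    (hρ : 1 / 2 < ρ) {ι : Type} (D : ZD p ρ ι) {n : ℕ} {θ : Fin n → ℝ} {m : Fin n → Measure ℝ}
    (hm : ∀ i, IsFiniteMeasure (m i)) {g : Fin n → ℝ} {θ₀ M : ℝ} (hU : ∀ i, D.UB (θ i) (g i))
    (hL : D.LB θ₀ M) (hd : Dom p ρ θ m θ₀) : M ≤ ∑ i, (m i).real univ * g i := by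
  rcases Nat.le_one_iff_eq_zero_or_eq_one.1 hp with rfl | rfl
  · have h1' : 0 < ρ := by simpa using h1
    have h2' : ρ < 1 := by simpa using h2
    by_cases hx : ∃ x : Fin n → ℝ, (∀ i, 0 ≤ x i) ∧ ∀ α ∈ Icc 0 π, 0 < ∑ i, x i * G ρ (θ i - α)
    · obtain ⟨x, hx0, hx1⟩ := hx
      obtain ⟨B, hB⟩ := densP hp h1 h2 D hx0 (cad_zero h1' h2' hx1) hU
      exact condA_slow hp h1 h2 D hm hU hL (cad_lin D hB) hd
    · obtain ⟨α, hα, hα1⟩ := geoZero hρ h2' hx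
      exact condA_kill hp h1 h2 D hm hU hL (killZero hρ h2' hα hα1) hd
  · have h1' : 1 < ρ := by simpa using h1
    have h2' : ρ < 2 := by
      have : ((1 : ℕ) : ℝ) + 1 = 2 := by norm_num
      linarith
    by_cases hx : ∃ x : Fin n → ℝ, (∀ i, 0 ≤ x i) ∧ (0 < ∑ i, x i * (-G ρ (θ i))) ∧
      0 < ∑ i, x i * (-G ρ (θ i - π))
    · obtain ⟨x, hx0, hx1, hx2⟩ := hx
      obtain ⟨B, hB⟩ := densP hp h1 h2 D hx0 (cad_one h1' h2' hx1 hx2) hU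
      exact condA_slow hp h1 h2 D hm hU hL (cad_lin D hB) hd
    · rcases geoOne h1' h2' hx with ⟨i, k, hik⟩ | ⟨x, y, hx0, hy0, hxy⟩
      · obtain ⟨B, hB⟩ := (densS h1' h2' D ⟨k, hik⟩ (hU i)).2
        exact condA_slow hp h1 h2 D hm hU hL hB hd
      · exact condA_kill hp h1 h2 D hm hU hL (killOne h1' h2' hx0 hy0 hxy) hd

/-- if the sum of two bounds at the distance `π / ρ` is negative, then the rays with upper bounds cannot control
the density; `p = 0` -/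
theorem excGeo_zero {ρ : ℝ} (h1 : 1 / 2 < ρ) (h2 : ρ < 1) {ι : Type} (D : ZD 0 ρ ι)
    {a g₁ g₂ : ℝ} (hA : D.UB a g₁) (hB : D.UB (a + π / ρ) g₂) (hneg : g₁ + g₂ < 0) {n : ℕ}
    {θ : Fin n → ℝ} (hU : ∀ i, ∃ g, D.UB (θ i) g) :
    ∃ α ∈ Icc 0 π, ∀ i, ∃ m : ℤ, |θ i + m * (2 * π) - α| ≤ π - π / (2 * ρ) := by
  have h1' : 0 < ρ := by linarith
  have hp1 : ((0 : ℕ) : ℝ) < ρ := by simpa using h1'
  have hp2 : ρ < ((0 : ℕ) : ℝ) + 1 := by simpa using h2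
  apply geoZero h1 h2
  rintro ⟨x, hx0, hx1⟩
  choose g hg using hU
  obtain ⟨B, hBd⟩ := densP (Nat.zero_le 1) hp1 hp2 D hx0 (cad_zero h1' h2 hx1) hg
  have := densAvg (Nat.zero_le 1) hp1 hp2 h1 D hBd hA hB
  linarith

/-- the same for `p = 1`: `θ` itself does not have positive potentials with respect to both half-axes -/
theorem excGeo_one {ρ : ℝ} (h1 : 1 < ρ) (h2 : ρ < 2) {ι : Type} (D : ZD 1 ρ ι)
    {a g₁ g₂ : ℝ} (hA : D.UB a g₁) (hB : D.UB (a + π / ρ) g₂) (hneg : g₁ + g₂ < 0) {θ g : ℝ}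
    (hU : D.UB θ g) : 0 ≤ G ρ θ ∨ 0 ≤ G ρ (θ - π) := by
  by_contra hcon
  push Not at hcon
  have hp1 : ((1 : ℕ) : ℝ) < ρ := by simpa using h1
  have hp2 : ρ < ((1 : ℕ) : ℝ) + 1 := by push_cast; linarith
  have hP := cad_one h1 h2 (n := 1) (θ := fun _ => θ) (x := fun _ => 1)
    (by simpa using hcon.1) (by simpa using hcon.2)
  obtain ⟨B, hBd⟩ := densP (le_refl 1) hp1 hp2 D (x := fun _ : Fin 1 => (1 : ℝ))
    (θ := fun _ : Fin 1 => θ) (g := fun _ : Fin 1 => g) (fun _ => zero_le_one) hP (fun _ => hU)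
  have := densAvg (le_refl 1) hp1 hp2 (by linarith) D hBd hA hB
  linarith

end HBInf
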