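import Pool.Agent.HBInf.CutErr
import Pool.Agent.HBInf.DomApply

/-!
# The domination inequality for zero data with kill data

`N = N (sg p ρ)`. Let `κ, ε₀, C, α, ν, ξ` be from `rightKill`, `C₂` the constant of `cutErr`, `ε = ε₀`. For `R > 0`, `L = R/2` let
`E = D.ER (sg p ρ) ε R` (`slow_ER`), `λ = C₂ / (κ L)`, `χ = chiL R L`, and
`T y θ = e^{-ρy} ∑ χ(s_i) kp (y - s_i) (θ - a_i) + λ ∑_j ∫ kn u (θ - α j) killDens E (ν j) (ξ j) (y - u) du`. The first sum is
finite (`χ (s_i) ≠ 0` only if `s_i < R`), and the densities are bounded as `E` is integrable and bounded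
(`E s ≤ E t e^{ε|s-t|}` and integrable, `E` bounded: average over `[t, t+1]`).

(1) a.e. `y ≥ Y`: `T y (θ i) ≤ χ y g_i` (`cutErr`, `rightKill`, `UB`, `χ ≥ 0`:
    `e^{-ρy} ∑ χ(s_i) kp ≤ χ y e^{-ρy} U y (θ i) + (C₂/L) E y`), and for a.e. `y < Y`:
    `T y (θ i) ≤ C₀` with `C₀` independent of `R` (`ZD.U_le`, `ZD.N_cmp`, the second part of `T` is `≤ 0`).
(2) a.e. `y`: `T y θ₀ ≤ ∑_i ∫ T (y + t) (θ i) dm_i(t)` (`dom_point` for the finitely many zeros, `dom_dens`,
    `dom_int`), so with (1) (the exceptional null sets: for a.e. `y`, for `m_i`-a.e. `t`, `y + t` is not in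
    the null set, by Tonelli)
    `T y θ₀ ≤ ∑_i (∫_{t ≥ Y - y} χ (y + t) g_i dm_i + C₀⁺ m_i {t < Y - y})`.
(3) `e^{-ρy} U y θ₀ ≤ T y θ₀ + (C₂/L) E y + λ C (∫_{-∞}^y E + E y)` if `χ y = 1` i.e. `R ≥ 2 y`, and by `ER_bound` the
    last terms are `≤ B(y) C' / R`. Let `R → ∞` (through a sequence) for fixed `y`: `χ (y + t) → 1`
    boundedly: `e^{-ρy} U y θ₀ ≤ ∑_i (g_i m_i {t ≥ Y - y} + C₀⁺ m_i {t < Y - y})` for a.e. `y`.
(4) `LB` gives arbitrarily large such `y` with `e^{-ρy} U y θ₀ > M`; as `y → ∞` the right side tends to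
    `∑_i g_i m_i(ℝ)`.
-/

namespace HBInf

open HBInd Complex Filter Topology Set MeasureTheory
open scoped Real ComplexConjugate

variable {p : ℕ} {ρ : ℝ} {ι : Type}

theorem cak_shift (m : Measure ℝ) [IsFiniteMeasure m] {P : ℝ → Prop} (h : ∀ᵐ y : ℝ, P y) :
    ∀ᵐ y : ℝ, ∀ᵐ t ∂m, P (y + t) := by
  have h1 : volume {y : ℝ | ¬ P y} = 0 := h
  set Z := toMeasurable volume {y : ℝ | ¬ P y} with hZ
  have hZm : MeasurableSet Z := measurableSet_toMeasurable _ _
  have hZ0 : volume Z = 0 := by rw [hZ, measure_toMeasurable, h1]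
  set S : Set (ℝ × ℝ) := {z | z.1 + z.2 ∈ Z} with hS
  have hSm : MeasurableSet S := (measurable_fst.add measurable_snd) hZm
  have hS0 : (volume.prod m) S = 0 := by
    rw [Measure.prod_apply_symm hSm]
    have h2 : ∀ t : ℝ, volume ((fun x => (x, t)) ⁻¹' S) = 0 := by
      intro t
      have h3 : (fun x : ℝ => (x, t)) ⁻¹' S = (fun x => x + t) ⁻¹' Z := by
        ext x
        simp [hS]
      rw [h3, measure_preimage_add_right, hZ0]
    simp [h2]
  have h2 := Measure.measure_ae_null_of_prod_null hS0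
  filter_upwards [h2] with y hy
  rw [ae_iff]
  refine measure_mono_null (fun t ht => ?_) hy
  exact subset_toMeasurable _ _ ht

theorem cak_lim {n : ℕ} {m : Fin n → Measure ℝ} (hm : ∀ i, IsFiniteMeasure (m i)) (g : Fin n → ℝ)
    (Y C₀ : ℝ) {χ : ℕ → ℝ → ℝ} (hχ : ∀ N, Measurable (χ N))
    (hχ01 : ∀ N x, 0 ≤ χ N x ∧ χ N x ≤ 1) (hχ1 : ∀ x, ∀ᶠ N in atTop, χ N x = 1) {u₀ y : ℝ}
    {e : ℕ → ℝ} (he : Tendsto e atTop (𝓝 0))
    (h : ∀ᶠ N in atTop, u₀ ≤
      ∑ l, (∫ t, (if Y ≤ y + t then χ N (y + t) * g l else C₀) ∂(m l)) + e N) :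
    u₀ ≤ ∑ l, ∫ t, (if Y ≤ y + t then g l else C₀) ∂(m l) := by
  have h1 : Tendsto (fun N => ∑ l, (∫ t, (if Y ≤ y + t then χ N (y + t) * g l else C₀) ∂(m l)) +
      e N) atTop (𝓝 (∑ l, (∫ t, (if Y ≤ y + t then g l else C₀) ∂(m l)) + 0)) := by
    refine Tendsto.add (tendsto_finsetSum _ fun l _ => ?_) he
    have := hm l
    refine tendsto_integral_of_dominated_convergence (fun _ => |g l| + |C₀|) ?_ ?_ ?_ ?_
    · intro N
      apply Measurable.aestronglyMeasurable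
      refine Measurable.ite ?_ ?_ measurable_const
      · exact measurableSet_le measurable_const (measurable_const.add measurable_id)
      · exact ((hχ N).comp (measurable_const.add measurable_id)).mul_const _
    · exact integrable_const _
    · intro N
      refine Eventually.of_forall fun t => ?_
      rw [Real.norm_eq_abs]
      split_ifs
      · rw [abs_mul, abs_of_nonneg (hχ01 N _).1]
        have h2 := mul_le_mul_of_nonneg_right (hχ01 N (y + t)).2 (abs_nonneg (g l))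
        have := abs_nonneg C₀
        linarith
      · have := abs_nonneg (g l)
        linarith
    · refine Eventually.of_forall fun t => ?_
      refine tendsto_const_nhds.congr' ?_
      filter_upwards [hχ1 (y + t)] with N hN
      rw [hN, one_mul]
  rw [add_zero] at h1
  exact ge_of_tendsto h1 h

theorem cak_final {n : ℕ} {m : Fin n → Measure ℝ} (hm : ∀ i, IsFiniteMeasure (m i))
    (g : Fin n → ℝ) (Y C₀ : ℝ) :
    Tendsto (fun y : ℝ => ∑ l, ∫ t, (if Y ≤ y + t then g l else C₀) ∂(m l)) atTop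
      (𝓝 (∑ l, (m l).real univ * g l)) := by
  refine tendsto_finsetSum _ fun l _ => ?_
  have := hm l
  have h1 : (m l).real univ * g l = ∫ _t, g l ∂(m l) := by
    rw [integral_const, smul_eq_mul]
  rw [h1]
  refine tendsto_integral_filter_of_dominated_convergence (fun _ => |g l| + |C₀|) ?_ ?_ ?_ ?_
  · refine Eventually.of_forall fun y => ?_
    apply Measurable.aestronglyMeasurable
    refine Measurable.ite ?_ measurable_const measurable_const
    exact measurableSet_le measurable_const (measurable_const.add measurable_id)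
  · refine Eventually.of_forall fun y => Eventually.of_forall fun t => ?_
    rw [Real.norm_eq_abs]
    have h2 := abs_nonneg C₀
    have h3 := abs_nonneg (g l)
    split_ifs <;> linarith
  · exact integrable_const _
  · refine Eventually.of_forall fun t => ?_
    refine tendsto_const_nhds.congr' ?_
    filter_upwards [eventually_ge_atTop (Y - t)] with y hy
    rw [if_pos (by linarith)]

theorem cak_end {D : ZD p ρ ι} {n : ℕ} {m : Fin n → Measure ℝ} (hm : ∀ i, IsFiniteMeasure (m i))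
    {g : Fin n → ℝ} {Y C₀ θ₀ M : ℝ} (hL : D.LB θ₀ M)
    (h : ∀ᵐ y : ℝ, Real.exp (-ρ * y) * D.U y θ₀ ≤
      ∑ l, ∫ t, (if Y ≤ y + t then g l else C₀) ∂(m l)) :
    M ≤ ∑ l, (m l).real univ * g l := by
  by_contra hlt
  rw [not_le] at hlt
  have h1 := (cak_final hm g Y C₀).eventually (gt_mem_nhds hlt)
  obtain ⟨Y₁, hY₁⟩ := eventually_atTop.1 h1
  have h2 := hL Y₁
  have h3 : volume {y : ℝ | ¬ (Real.exp (-ρ * y) * D.U y θ₀ ≤
      ∑ l, ∫ t, (if Y ≤ y + t then g l else C₀) ∂(m l))} = 0 := h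
  have h4 := measure_mono_null (s := {y : ℝ | Y₁ ≤ y ∧ M * Real.exp (ρ * y) < D.U y θ₀})
    (fun y hy => ?_) h3
  · rw [h4] at h2
    exact lt_irrefl _ h2
  · rintro h5
    have h6 := hY₁ y hy.1
    have h7 : M < Real.exp (-ρ * y) * D.U y θ₀ := by
      have h8 := mul_lt_mul_of_pos_left hy.2 (Real.exp_pos (-ρ * y))
      have h9 : Real.exp (-ρ * y) * (M * Real.exp (ρ * y)) = M := by
        rw [mul_comm M, ← mul_assoc, ← Real.exp_add]
        simp
      linarith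
    linarith

theorem cak_bdd {ε : ℝ} (hε : 0 < ε) {E : ℝ → ℝ} (hE : Slow ε E) (hi : Integrable E) (s : ℝ) :
    E s ≤ Real.exp ε * ∫ t, E t := by
  have h1 : ∀ t ∈ Icc s (s + 1), E s ≤ Real.exp ε * E t := by
    intro t ht
    refine (hE.slow s t).trans ?_
    rw [mul_comm]
    apply mul_le_mul_of_nonneg_right _ (hE.pos t).le
    apply Real.exp_le_exp.2
    have : |s - t| ≤ 1 := by
      rw [abs_le]
      constructor <;> linarith [ht.1, ht.2]
    nlinarith
  have h2 : ∫ _t in s..(s + 1), E s ≤ ∫ t in s..(s + 1), Real.exp ε * E t := by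
    apply intervalIntegral.integral_mono_on (by linarith)
    · exact intervalIntegrable_const
    · exact (continuous_const.mul hE.cont).intervalIntegrable _ _
    · exact h1
  rw [intervalIntegral.integral_const, intervalIntegral.integral_const_mul] at h2
  simp only [add_sub_cancel_left, one_smul] at h2
  refine h2.trans (mul_le_mul_of_nonneg_left ?_ (Real.exp_pos _).le)
  rw [intervalIntegral.integral_of_le (by linarith)]
  exact setIntegral_le_integral hi (Eventually.of_forall fun t => (hE.pos t).le)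

theorem cak_dens_bdd {ε : ℝ} (hε : 0 < ε) {E : ℝ → ℝ} (hE : Slow ε E) (hi : Integrable E)
    (ν ξ : ℝ) : ∃ B : ℝ, ∀ t, killDens E ν ξ t ≤ B := by
  refine ⟨|ν| * (∫ t, E t) + |ξ| * (Real.exp ε * ∫ t, E t), fun t => ?_⟩
  unfold killDens
  have h1 : ∫ s in Iic t, E s ≤ ∫ s, E s :=
    setIntegral_le_integral hi (Eventually.of_forall fun t => (hE.pos t).le)
  have h2 : 0 ≤ ∫ s in Iic t, E s := setIntegral_nonneg measurableSet_Iic
    (fun s _ => (hE.pos s).le)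
  have h3 := cak_bdd hε hE hi t
  have h4 := (hE.pos t).le
  have h5 : ν * (∫ s in Iic t, E s) ≤ |ν| * (∫ s, E s) :=
    mul_le_mul (le_abs_self ν) h1 h2 (abs_nonneg ν)
  have h6 : ξ * E t ≤ |ξ| * (Real.exp ε * ∫ t, E t) :=
    mul_le_mul (le_abs_self ξ) h3 h4 (abs_nonneg ξ)
  linarith

/-- the truncated potential, normalised -/
noncomputable def cakS (D : ZD p ρ ι) (R L y θ : ℝ) : ℝ :=
  Real.exp (-ρ * y) * ∑' i, chiL R L (D.s i) * kp p (y - D.s i) (θ - D.a i)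

theorem cak_chi_zero {R L s : ℝ} (hL : 0 < L) (h : R ≤ s) : chiL R L s = 0 := by
  unfold chiL
  have : (R - s) / L ≤ 0 := div_nonpos_of_nonpos_of_nonneg (by linarith) hL.le
  rw [max_eq_left]
  exact (min_le_right _ _).trans this

theorem cak_chi_one {R s : ℝ} (hR : 0 < R) (h : s ≤ R / 2) : chiL R (R / 2) s = 1 := by
  unfold chiL
  have : 1 ≤ (R - s) / (R / 2) := by
    rw [le_div_iff₀ (by linarith)]
    linarith
  rw [min_eq_left this]
  exact max_eq_right zero_le_one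

theorem cakS_eq (D : ZD p ρ ι) {R L : ℝ} (hL : 0 < L) (y θ : ℝ) :
    cakS D R L y θ = ∑ i ∈ (D.finite_lt R).toFinset, chiL R L (D.s i) * Real.exp (-ρ * D.s i) *
      kn p ρ (y - D.s i) (θ - D.a i) := by
  unfold cakS
  rw [tsum_eq_sum (s := (D.finite_lt R).toFinset), Finset.mul_sum]
  · apply Finset.sum_congr rfl
    intro i _
    unfold kn
    have : Real.exp (-ρ * y) = Real.exp (-ρ * D.s i) * Real.exp (-ρ * (y - D.s i)) := by
      rw [← Real.exp_add]
      ring_nf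
    rw [this]
    ring
  · intro i hi
    rw [Set.Finite.mem_toFinset] at hi
    have : R ≤ D.s i := not_lt.1 hi
    rw [cak_chi_zero hL this, zero_mul]

theorem cakS_dom (hp : p ≤ 1) (h1 : (p : ℝ) < ρ) (h2 : ρ < p + 1) (D : ZD p ρ ι) {R L : ℝ}
    (hL : 0 < L) {n : ℕ} {θ : Fin n → ℝ} {m : Fin n → Measure ℝ}
    (hm : ∀ i, IsFiniteMeasure (m i)) {θ₀ : ℝ} (hd : Dom p ρ θ m θ₀) :
    ∀ᵐ y : ℝ, (∀ l, Integrable (fun t => cakS D R L (y + t) (θ l)) (m l)) ∧
      cakS D R L y θ₀ ≤ ∑ l, ∫ t, cakS D R L (y + t) (θ l) ∂(m l) := by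
  simp only [cakS_eq D hL]
  have ha : ∀ᵐ y : ℝ, ∀ i ∈ (D.finite_lt R).toFinset,
      kn p ρ (y - D.s i) (θ₀ - D.a i) ≤ ∑ l, ∫ t, kn p ρ (y + t - D.s i) (θ l - D.a i) ∂(m l) :=
    (eventually_all_finset _).2 fun i _ => dom_point hd (D.ha i) (D.s i)
  have hb : ∀ᵐ y : ℝ, ∀ i ∈ (D.finite_lt R).toFinset, ∀ l,
      Integrable (fun t => kn p ρ (y + t - D.s i) (θ l - D.a i)) (m l) :=
    (eventually_all_finset _).2 fun i _ => eventually_all.2 fun l =>
      have := hm l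
      dom_int hp h1 h2 (m l) (D.s i) (θ l - D.a i)
  filter_upwards [ha, hb] with y hy1 hy2
  have h3 : ∀ l, ∀ i ∈ (D.finite_lt R).toFinset,
      Integrable (fun t => chiL R L (D.s i) * Real.exp (-ρ * D.s i) *
        kn p ρ (y + t - D.s i) (θ l - D.a i)) (m l) :=
    fun l i hi => (hy2 i hi l).const_mul _
  refine ⟨fun l => integrable_finsetSum _ (h3 l), ?_⟩
  have h4 : ∀ l, ∫ t, ∑ i ∈ (D.finite_lt R).toFinset, chiL R L (D.s i) *
      Real.exp (-ρ * D.s i) * kn p ρ (y + t - D.s i) (θ l - D.a i) ∂(m l) =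
      ∑ i ∈ (D.finite_lt R).toFinset, chiL R L (D.s i) *
      Real.exp (-ρ * D.s i) * ∫ t, kn p ρ (y + t - D.s i) (θ l - D.a i) ∂(m l) := by
    intro l
    rw [integral_finsetSum _ (h3 l)]
    apply Finset.sum_congr rfl
    intro i _
    rw [integral_const_mul]
  simp only [h4]
  rw [Finset.sum_comm]
  apply Finset.sum_le_sum
  intro i hi
  rw [← Finset.mul_sum]
  exact mul_le_mul_of_nonneg_left (hy1 i hi) (mul_nonneg chiL_mem.1 (Real.exp_pos _).le)

/-- the potential of the densities, normalised -/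
noncomputable def cakI (p : ℕ) (ρ : ℝ) {k : ℕ} (α : Fin k → ℝ) (r : Fin k → ℝ → ℝ) (y θ : ℝ) : ℝ :=
  ∑ j, ∫ u, kn p ρ u (θ - α j) * r j (y - u)

theorem cakI_dom (hp : p ≤ 1) (h1 : (p : ℝ) < ρ) (h2 : ρ < p + 1) {n : ℕ} {θ : Fin n → ℝ}
    {m : Fin n → Measure ℝ} (hm : ∀ i, IsFiniteMeasure (m i)) {θ₀ : ℝ} (hd : Dom p ρ θ m θ₀)
    {k : ℕ} {α : Fin k → ℝ} (hα : ∀ j, α j ∈ TT p) {r : Fin k → ℝ → ℝ}
    (hr : ∀ j, Measurable (r j)) (hB : ∀ j, ∃ B : ℝ, ∀ t, 0 ≤ r j t ∧ r j t ≤ B) (y : ℝ) :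
    (∀ l, Integrable (fun t => cakI p ρ α r (y + t) (θ l)) (m l)) ∧
      cakI p ρ α r y θ₀ ≤ ∑ l, ∫ t, cakI p ρ α r (y + t) (θ l) ∂(m l) := by
  unfold cakI
  choose B hB using hB
  have h3 := fun j => dom_dens hp h1 h2 hm hd (hα j) (hr j) (hB j) y
  refine ⟨fun l => integrable_finsetSum _ fun j _ => (h3 j).1 l, ?_⟩
  have h4 : ∀ l, ∫ t, ∑ j, (∫ u, kn p ρ u (θ l - α j) * r j (y + t - u)) ∂(m l) =
      ∑ j, ∫ t, (∫ u, kn p ρ u (θ l - α j) * r j (y + t - u)) ∂(m l) := by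
    intro l
    rw [integral_finsetSum _ fun j _ => (h3 j).1 l]
  simp only [h4]
  rw [Finset.sum_comm]
  exact Finset.sum_le_sum fun j _ => (h3 j).2

theorem cak_key (hp : p ≤ 1) (h1 : (p : ℝ) < ρ) (h2 : ρ < p + 1) (D : ZD p ρ ι) {n : ℕ}
    {θ : Fin n → ℝ} {m : Fin n → Measure ℝ} (hm : ∀ i, IsFiniteMeasure (m i)) {g : Fin n → ℝ}
    {θ₀ Y : ℝ} (hY : ∀ l, ∀ᵐ y : ℝ, Y ≤ y → D.U y (θ l) ≤ g l * Real.exp (ρ * y))
    (hk : KillData p ρ θ) (hd : Dom p ρ θ m θ₀) :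
    ∃ C₀ ε K : ℝ, 0 < ε ∧ ε ≤ sg p ρ ∧ 0 ≤ K ∧ ∀ R : ℝ, 0 < R → ∀ᵐ y : ℝ, y ≤ R / 2 →
      Real.exp (-ρ * y) * D.U y θ₀ ≤
        ∑ l, (∫ t, (if Y ≤ y + t then chiL R (R / 2) (y + t) * g l else C₀) ∂(m l)) +
          K / R * ((∫ s in Iic y, D.ER (sg p ρ) ε R s) + D.ER (sg p ρ) ε R y) := by
  obtain ⟨k, α, ν, ξ, κ, ε, Ck, hα, hκ, hε, hεs, hCk, hK⟩ := rightKill hp h1 h2 hk
  obtain ⟨C₂, hC₂, hcut⟩ := cutErr hp h1 h2
  obtain ⟨C₃, hC₃, hUle⟩ := ZD.U_le hp h1 h2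
  have hsg := sg_pos h1 h2
  obtain ⟨B₁, hB₁⟩ := D.N_cmp hsg Y
  refine ⟨C₃ * B₁, ε, 2 * C₂ + 2 * C₂ / κ * Ck, hε, hεs, by positivity, fun R hR => ?_⟩
  set L := R / 2 with hLdef
  have hL : 0 < L := by positivity
  obtain ⟨hE, hEi⟩ := slow_ER D hsg hε hR.le
  obtain ⟨hr0, hrint, hrneg, hrabs⟩ := hK ε ⟨hε, le_rfl⟩ _ hE
  set E := D.ER (sg p ρ) ε R with hEdef
  set r : Fin k → ℝ → ℝ := fun j => killDens E (ν j) (ξ j) with hrdef
  set lam := C₂ / (κ * L) with hlam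
  have hlam0 : 0 < lam := by positivity
  have hT1 : ∀ l, ∀ᵐ x : ℝ, cakS D R L x (θ l) + lam * cakI p ρ α r x (θ l) ≤
      if Y ≤ x then chiL R L x * g l else C₃ * B₁ := by
    intro l
    filter_upwards [hY l, D.ae_ne] with x hx hne
    have hI : cakI p ρ α r x (θ l) ≤ -κ * E x := hrneg l x
    have hIl : lam * cakI p ρ α r x (θ l) ≤ -(C₂ / L * E x) := by
      have h3 := mul_le_mul_of_nonneg_left hI hlam0.le
      have h4 : lam * (-κ * E x) = -(C₂ / L * E x) := by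
        rw [hlam]
        field_simp
      linarith
    have hex : Real.exp (-ρ * x) * Real.exp (ρ * x) = 1 := by
      rw [← Real.exp_add]; simp
    split_ifs with h
    · have h3 := (abs_le.1 (hcut D R L ε hL hε hεs x (θ l) hne)).2
      have h4 := mul_le_mul_of_nonneg_left h3 (Real.exp_pos (-ρ * x)).le
      have h5 := mul_le_mul_of_nonneg_left (hx h)
        (mul_nonneg (Real.exp_pos (-ρ * x)).le (chiL_mem (R := R) (L := L) (s := x)).1)
      have h6 : Real.exp (-ρ * x) * chiL R L x * (g l * Real.exp (ρ * x)) = chiL R L x * g l := by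
        rw [show Real.exp (-ρ * x) * chiL R L x * (g l * Real.exp (ρ * x)) =
          (Real.exp (-ρ * x) * Real.exp (ρ * x)) * (chiL R L x * g l) by ring, hex, one_mul]
      have h7 : Real.exp (-ρ * x) * (C₂ / L * Real.exp (ρ * x) * E x) = C₂ / L * E x := by
        rw [show Real.exp (-ρ * x) * (C₂ / L * Real.exp (ρ * x) * E x) =
          (Real.exp (-ρ * x) * Real.exp (ρ * x)) * (C₂ / L * E x) by ring, hex, one_mul]
      rw [mul_sub] at h4
      unfold cakS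
      nlinarith
    · have h3 := hUle D (fun i => chiL R L (D.s i)) (fun i => chiL_mem) x (θ l) hne
      have h4 := mul_le_mul_of_nonneg_left h3 (Real.exp_pos (-ρ * x)).le
      have h5 : Real.exp (-ρ * x) * (C₃ * Real.exp (ρ * x) * D.N (sg p ρ) x) =
          C₃ * D.N (sg p ρ) x := by
        rw [show Real.exp (-ρ * x) * (C₃ * Real.exp (ρ * x) * D.N (sg p ρ) x) =
          (Real.exp (-ρ * x) * Real.exp (ρ * x)) * (C₃ * D.N (sg p ρ) x) by ring, hex, one_mul]
      have h6 := mul_le_mul_of_nonneg_left (hB₁ x (not_le.1 h).le) hC₃.le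
      have h7 : 0 ≤ C₂ / L * E x := mul_nonneg (by positivity) (hE.pos x).le
      unfold cakS
      linarith
  have hT2 : ∀ᵐ y : ℝ,
      (∀ l, Integrable (fun t => cakS D R L (y + t) (θ l) + lam * cakI p ρ α r (y + t) (θ l))
        (m l)) ∧ cakS D R L y θ₀ + lam * cakI p ρ α r y θ₀ ≤
        ∑ l, ∫ t, (cakS D R L (y + t) (θ l) + lam * cakI p ρ α r (y + t) (θ l)) ∂(m l) := by
    filter_upwards [cakS_dom hp h1 h2 D hL hm hd] with y hy
    have h3 := cakI_dom hp h1 h2 hm hd hα (r := r)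
      (fun j => (killDens_cont hε hE (ν j) (ξ j)).measurable)
      (fun j => by
        obtain ⟨B, hB⟩ := cak_dens_bdd hε hE hEi (ν j) (ξ j)
        exact ⟨B, fun t => ⟨hr0 j t, hB t⟩⟩) y
    refine ⟨fun l => (hy.1 l).add ((h3.1 l).const_mul lam), ?_⟩
    have h4 : ∀ l, ∫ t, (cakS D R L (y + t) (θ l) + lam * cakI p ρ α r (y + t) (θ l)) ∂(m l) =
        (∫ t, cakS D R L (y + t) (θ l) ∂(m l)) + lam * ∫ t, cakI p ρ α r (y + t) (θ l) ∂(m l) := by
      intro l
      rw [integral_add (hy.1 l) ((h3.1 l).const_mul lam), integral_const_mul]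
    simp only [h4]
    rw [Finset.sum_add_distrib, ← Finset.mul_sum]
    have h5 := mul_le_mul_of_nonneg_left h3.2 hlam0.le
    linarith [hy.2]
  have hT3 : ∀ᵐ y : ℝ, ∀ l, ∀ᵐ t ∂(m l),
      cakS D R L (y + t) (θ l) + lam * cakI p ρ α r (y + t) (θ l) ≤
        if Y ≤ y + t then chiL R L (y + t) * g l else C₃ * B₁ :=
    eventually_all.2 fun l =>
      have := hm l
      cak_shift (m l) (hT1 l)
  have hchi : Measurable (chiL R L) := by
    unfold chiL
    fun_prop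
  filter_upwards [hT2, hT3, D.ae_ne] with y hy2 hy3 hne hyR
  have h3 : ∀ l, ∫ t, (cakS D R L (y + t) (θ l) + lam * cakI p ρ α r (y + t) (θ l)) ∂(m l) ≤
      ∫ t, (if Y ≤ y + t then chiL R L (y + t) * g l else C₃ * B₁) ∂(m l) := by
    intro l
    have := hm l
    refine integral_mono_ae (hy2.1 l) ?_ (hy3 l)
    refine Integrable.of_bound (C := |g l| + |C₃ * B₁|) ?_ ?_
    · apply Measurable.aestronglyMeasurable
      refine Measurable.ite ?_ ?_ measurable_const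
      · exact measurableSet_le measurable_const (measurable_const.add measurable_id)
      · exact (hchi.comp (measurable_const.add measurable_id)).mul_const _
    · refine Eventually.of_forall fun t => ?_
      rw [Real.norm_eq_abs]
      have h5 := abs_nonneg (g l)
      have h6 := abs_nonneg (C₃ * B₁)
      split_ifs
      · rw [abs_mul, abs_of_nonneg chiL_mem.1]
        have h7 := mul_le_mul_of_nonneg_right (chiL_mem (R := R) (L := L) (s := y + t)).2 h5
        linarith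
      · linarith
  have h4 := hy2.2.trans (Finset.sum_le_sum fun l _ => h3 l)
  have h5 := (abs_le.1 (hcut D R L ε hL hε hεs y θ₀ hne)).1
  rw [hLdef, cak_chi_one hR hyR, ← hLdef, one_mul] at h5
  have hex : Real.exp (-ρ * y) * Real.exp (ρ * y) = 1 := by
    rw [← Real.exp_add]; simp
  have h6 := mul_le_mul_of_nonneg_left h5 (Real.exp_pos (-ρ * y)).le
  have h7 : Real.exp (-ρ * y) * -(C₂ / L * Real.exp (ρ * y) * D.ER (sg p ρ) ε R y) =
      -(C₂ / L * E y) := by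
    rw [show Real.exp (-ρ * y) * -(C₂ / L * Real.exp (ρ * y) * D.ER (sg p ρ) ε R y) =
      -((Real.exp (-ρ * y) * Real.exp (ρ * y)) * (C₂ / L * E y)) by rw [hEdef]; ring, hex, one_mul]
  rw [h7, mul_sub] at h6
  have h8 := (abs_le.1 (hrabs θ₀ y)).1
  have h9 : -(Ck * ((∫ s in Iic y, E s) + E y)) ≤ cakI p ρ α r y θ₀ := h8
  have h10 := mul_le_mul_of_nonneg_left h9 hlam0.le
  have h11 : (2 * C₂ + 2 * C₂ / κ * Ck) / R * ((∫ s in Iic y, E s) + E y) =
      C₂ / L * ((∫ s in Iic y, E s) + E y) + lam * (Ck * ((∫ s in Iic y, E s) + E y)) := by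
    rw [hlam, hLdef]
    field_simp
  have h12 : 0 ≤ ∫ s in Iic y, E s := setIntegral_nonneg measurableSet_Iic
    (fun s _ => (hE.pos s).le)
  have h13 : 0 ≤ C₂ / L * ∫ s in Iic y, E s := mul_nonneg (by positivity) h12
  rw [h11]
  unfold cakS at h4
  rw [mul_add (C₂ / L)]
  linarith

theorem condA_kill {p : ℕ} (hp : p ≤ 1) {ρ : ℝ} (h1 : (p : ℝ) < ρ) (h2 : ρ < p + 1) {ι : Type}
    (D : ZD p ρ ι) {n : ℕ} {θ : Fin n → ℝ} {m : Fin n → Measure ℝ} (hm : ∀ i, IsFiniteMeasure (m i))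
    {g : Fin n → ℝ} {θ₀ M : ℝ} (hU : ∀ i, D.UB (θ i) (g i)) (hL : D.LB θ₀ M)
    (hk : KillData p ρ θ) (hd : Dom p ρ θ m θ₀) : M ≤ ∑ i, (m i).real univ * g i := by
  choose Yi hYi using hU
  obtain ⟨Y, hYY⟩ : ∃ Y, ∀ l, Yi l ≤ Y :=
    ⟨∑ l, |Yi l|, fun l => (le_abs_self _).trans
      (Finset.single_le_sum (f := fun l => |Yi l|) (fun _ _ => abs_nonneg _) (Finset.mem_univ l))⟩
  have hY : ∀ l, ∀ᵐ y : ℝ, Y ≤ y → D.U y (θ l) ≤ g l * Real.exp (ρ * y) := by
    intro l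
    filter_upwards [hYi l] with y hy h
    exact hy ((hYY l).trans h)
  obtain ⟨C₀, ε, K, hε, hεs, hK, hkey⟩ := cak_key hp h1 h2 D hm hY hk hd
  refine cak_end hm (Y := Y) (C₀ := C₀) hL ?_
  have h3 : ∀ᵐ y : ℝ, ∀ N : ℕ, y ≤ ((N : ℝ) + 1) / 2 →
      Real.exp (-ρ * y) * D.U y θ₀ ≤
        ∑ l, (∫ t, (if Y ≤ y + t then chiL ((N : ℝ) + 1) (((N : ℝ) + 1) / 2) (y + t) * g l
          else C₀) ∂(m l)) +
          K / ((N : ℝ) + 1) * ((∫ s in Iic y, D.ER (sg p ρ) ε ((N : ℝ) + 1) s) +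
            D.ER (sg p ρ) ε ((N : ℝ) + 1) y) :=
    ae_all_iff.2 fun N => hkey _ (by positivity)
  filter_upwards [h3] with y hy
  obtain ⟨B, hB⟩ := ER_bound D (sg_pos h1 h2) hε hεs y
  refine cak_lim hm g Y C₀ (χ := fun N => chiL ((N : ℝ) + 1) (((N : ℝ) + 1) / 2)) ?_ ?_ ?_
    (e := fun N : ℕ => 1 / ((N : ℝ) + 1) * (K * (2 * B))) ?_ ?_
  · intro N
    unfold chiL
    fun_prop
  · intro N x
    exact chiL_mem
  · intro x
    filter_upwards [tendsto_natCast_atTop_atTop.eventually_ge_atTop (2 * x)] with N hN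
    exact cak_chi_one (by positivity) (by linarith)
  · have := (tendsto_one_div_add_atTop_nhds_zero_nat (𝕜 := ℝ)).mul_const (K * (2 * B))
    simpa using this
  · filter_upwards [tendsto_natCast_atTop_atTop.eventually_ge_atTop (2 * y)] with N hN
    refine (hy N (by linarith)).trans ?_
    have hN1 : (0 : ℝ) < (N : ℝ) + 1 := by positivity
    have h4 := hB ((N : ℝ) + 1) hN1.le
    have h5 : K / ((N : ℝ) + 1) * ((∫ s in Iic y, D.ER (sg p ρ) ε ((N : ℝ) + 1) s) +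
            D.ER (sg p ρ) ε ((N : ℝ) + 1) y) ≤ K / ((N : ℝ) + 1) * (2 * B) := by
      apply mul_le_mul_of_nonneg_left _ (by positivity)
      linarith [h4.1, h4.2]
    have h6 : K / ((N : ℝ) + 1) * (2 * B) = 1 / ((N : ℝ) + 1) * (K * (2 * B)) := by ring
    linarith

end HBInf
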