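import Pool.Agent.HBInf.Defs
import Pool.Agent.HBInd.Nec

/-!
# Trigonometrically convex functions with values in `[-∞, ∞]`

Everything follows from `CondT` with real upper bounds `A ≥ h a`, `B ≥ h b`.

* `condT_between`: clear. `condT_bot_left`: `h a = ⊥`, `B ≥ h b` real: let `A → -∞` (`sin ρ(b - t) > 0`); similarly
  `condT_bot_right`. `condT_bot`: combine.
* `condT_usc`: `x` with `h ≠ ⊤` at `x - δ`, `x`, `x + δ` (`δ < π/ρ`), `h x < g' < g`: for `q ∈ (x - δ, x)`:
  `h q ≤ (C sin ρ(x - q) + g' sin ρ(q - (x - δ))) / sin ρδ → g'` as `q → x`.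
* `condT_lsc`: `g < g' < h x`, `C ≥ h (x + δ)`: if `h q ≤ g` for some `q < x` close to `x` then
  `h x ≤ (g sin ρ(x + δ - x) + C sin ρ(x - q)) / sin ρ(x + δ - q)`, which tends to `g` as `q → x`: contradiction.
* `condT_countable`: let `D = {h ≠ ⊤}`. Every interval `I` of length `< π/ρ` has `D ∩ I` order connected
  (`condT_between`). If `x ∈ D`, `x` in the interior of `I`, is neither the least nor the greatest element of `D ∩ I`
  then it is interior in `D`. So `D \ interior D` has at most two points in `I`; cover the line by countably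
  many such intervals.
* `condT_sigma`: similarly `{h = ⊤} ∩ I` is the complement of an order connected set in the compact
  interval `I`, a union of two order connected sets, and an order connected set `S ⊆ ℝ` is a countable
  union of compact intervals: choose a countable `Q ⊆ S` such that every `x ∈ S` lies between two elements
  of `Q` (the rational points of `S` together with its least and greatest elements, if they exist).
* `squeeze_upper`: let `x ∈ D`, `x ∉ Q`; so `x` is interior. If `h x = ⊥` then `h = ⊥` near `x` (`condT_bot_left/right`),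
  so `k = ⊥` at points of `Q` on both sides, `k x = ⊥`. Otherwise for real `g > h x`: `h < g` near `x`
  (`condT_usc`), so `k q, k q' < g` for some `q < x < q'` in `Q` arbitrarily close to `x`,
  `k x ≤ g (sin ρ(q' - x) + sin ρ(x - q)) / sin ρ(q' - q)`, which tends to `g`.
* `squeeze_lower`: if `k x < g < h x`: `k < g` near `x` (`condT_usc` for `k`; `k ≤ h` near `x`), `g < h` near `x`
  (`condT_lsc`), contradiction at a point of `Q` near `x`.
* `condT_ind`: `ind_le_sinusoid` with `A + ε`, `B + ε`, `ε → 0`.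
-/

namespace HBInf

open HBInd Complex Filter Topology Set
open scoped Real ComplexConjugate

variable {ρ : ℝ} {h k : ℝ → EReal}

lemma tre_lt_pi (hρ : 0 < ρ) {a b : ℝ} (hl : b - a < π / ρ) : ρ * (b - a) < π := by
  rwa [lt_div_iff₀ hρ, mul_comm] at hl

lemma tre_sin_pos (hρ : 0 < ρ) {a b : ℝ} (hab : a < b) (hl : b - a < π / ρ) :
    0 < Real.sin (ρ * (b - a)) :=
  Real.sin_pos_of_pos_of_lt_pi (mul_pos hρ (sub_pos.2 hab)) (tre_lt_pi hρ hl)

theorem condT_ind (hρ : 0 < ρ) {f : ℂ → ℂ} (hf : InClass ρ f) : CondT ρ (ind ρ f) := by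
  intro a t b A B hat htb hl ha hb
  have hab : a < b := hat.trans htb
  have hsin := tre_sin_pos hρ hab hl
  refine EReal.le_of_forall_lt_iff_le.1 fun z hz => ?_
  have hz' : (A * Real.sin (ρ * (b - t)) + B * Real.sin (ρ * (t - a))) /
      Real.sin (ρ * (b - a)) < z := by exact_mod_cast hz
  set s := (A * Real.sin (ρ * (b - t)) + B * Real.sin (ρ * (t - a))) /
      Real.sin (ρ * (b - a)) with hs
  set ε : ℝ := (z - s) * Real.sin (ρ * (b - a)) / 2 with hε
  have hε0 : 0 < ε := by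
    rw [hε]
    have := sub_pos.2 hz'
    positivity
  have h1 := ind_le_sinusoid hf hρ (A := A + ε) (B := B + ε) hab (tre_lt_pi hρ hl)
    ⟨hat.le, htb.le⟩ (ha.trans_lt (by exact_mod_cast (by linarith : A < A + ε)))
    (hb.trans_lt (by exact_mod_cast (by linarith : B < B + ε)))
  refine h1.trans ?_
  rw [EReal.coe_le_coe_iff, div_le_iff₀ hsin]
  have h2 : s * Real.sin (ρ * (b - a)) =
      A * Real.sin (ρ * (b - t)) + B * Real.sin (ρ * (t - a)) := by
    rw [hs, div_mul_cancel₀ _ hsin.ne']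
  have h3 := Real.sin_le_one (ρ * (b - t))
  have h4 := Real.sin_le_one (ρ * (t - a))
  have h5 : ε * (Real.sin (ρ * (b - t)) + Real.sin (ρ * (t - a))) ≤ ε * 2 :=
    mul_le_mul_of_nonneg_left (by linarith) hε0.le
  have h6 : ε * 2 = (z - s) * Real.sin (ρ * (b - a)) := by rw [hε]; ring
  linarith

theorem condT_between (hh : CondT ρ h) {a t b : ℝ} (hat : a < t) (htb : t < b)
    (hl : b - a < π / ρ) (ha : h a ≠ ⊤) (hb : h b ≠ ⊤) : h t ≠ ⊤ := by
  obtain ⟨A, hA⟩ := exists_real_gt ha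
  obtain ⟨B, hB⟩ := exists_real_gt hb
  exact ((hh a t b A B hat htb hl hA.le hB.le).trans_lt (EReal.coe_lt_top _)).ne

theorem condT_bot_left (hρ : 0 < ρ) (hh : CondT ρ h) {a t b : ℝ} (hat : a < t) (htb : t < b)
    (hl : b - a < π / ρ) (ha : h a = ⊥) (hb : h b ≠ ⊤) : h t = ⊥ := by
  have hab : a < b := hat.trans htb
  have hsin := tre_sin_pos hρ hab hl
  have hsin2 : 0 < Real.sin (ρ * (b - t)) := tre_sin_pos hρ htb (by linarith)
  obtain ⟨B, hB⟩ := exists_real_gt hb
  rw [EReal.eq_bot_iff_forall_lt]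
  intro z
  set A : ℝ := ((z - 1) * Real.sin (ρ * (b - a)) - B * Real.sin (ρ * (t - a))) /
    Real.sin (ρ * (b - t)) with hA
  have h3 := hh a t b A B hat htb hl (by rw [ha]; exact bot_le) hB.le
  have h4 : (A * Real.sin (ρ * (b - t)) + B * Real.sin (ρ * (t - a))) /
      Real.sin (ρ * (b - a)) = z - 1 := by
    rw [hA]
    field_simp
    ring
  rw [h4] at h3
  refine h3.trans_lt ?_
  exact_mod_cast (by linarith : z - 1 < z)

theorem condT_bot_right (hρ : 0 < ρ) (hh : CondT ρ h) {a t b : ℝ} (hat : a < t) (htb : t < b)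
    (hl : b - a < π / ρ) (ha : h a ≠ ⊤) (hb : h b = ⊥) : h t = ⊥ := by
  have hab : a < b := hat.trans htb
  have hsin := tre_sin_pos hρ hab hl
  have hsin2 : 0 < Real.sin (ρ * (t - a)) := tre_sin_pos hρ hat (by linarith)
  obtain ⟨A, hA⟩ := exists_real_gt ha
  rw [EReal.eq_bot_iff_forall_lt]
  intro z
  set B : ℝ := ((z - 1) * Real.sin (ρ * (b - a)) - A * Real.sin (ρ * (b - t))) /
    Real.sin (ρ * (t - a)) with hB
  have h3 := hh a t b A B hat htb hl hA.le (by rw [hb]; exact bot_le)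
  have h4 : (A * Real.sin (ρ * (b - t)) + B * Real.sin (ρ * (t - a))) /
      Real.sin (ρ * (b - a)) = z - 1 := by
    rw [hB]
    field_simp
    ring
  rw [h4] at h3
  refine h3.trans_lt ?_
  exact_mod_cast (by linarith : z - 1 < z)

theorem condT_bot (hρ : 0 < ρ) (hh : CondT ρ h) {a b t₀ : ℝ} (hl : b - a < π / ρ)
    (ha : h a ≠ ⊤) (hb : h b ≠ ⊤) (ht₀ : t₀ ∈ Ioo a b) (h0 : h t₀ = ⊥) :
    ∀ t ∈ Ioo a b, h t = ⊥ := by
  intro t ht
  rcases lt_trichotomy t t₀ with hlt | rfl | hgt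
  · exact condT_bot_right hρ hh ht.1 hlt (by linarith [ht₀.2]) ha h0
  · exact h0
  · exact condT_bot_left hρ hh hgt ht.2 (by linarith [ht₀.1]) h0 hb

/-- a radius -/
lemma tre_radius (hρ : 0 < ρ) {s : Set ℝ} {x : ℝ} (hx : s ∈ 𝓝 x) :
    ∃ δ : ℝ, 0 < δ ∧ 2 * δ < π / ρ ∧ ∀ t, |t - x| ≤ δ → t ∈ s := by
  obtain ⟨ε, hε, h⟩ := Metric.mem_nhds_iff.1 hx
  have hπ : 0 < π / ρ := div_pos Real.pi_pos hρ
  refine ⟨min (ε / 2) (π / ρ / 4), by positivity, ?_, fun t ht => ?_⟩
  · have := min_le_right (ε / 2) (π / ρ / 4)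
    linarith
  · apply h
    rw [Metric.mem_ball, Real.dist_eq]
    have := min_le_left (ε / 2) (π / ρ / 4)
    linarith

theorem condT_usc (hρ : 0 < ρ) (hh : CondT ρ h) {x g : ℝ} (hx : {t | h t ≠ ⊤} ∈ 𝓝 x)
    (hg : h x < g) : ∀ᶠ t in 𝓝 x, h t < g := by
  obtain ⟨δ, hδ, hδ2, hδs⟩ := tre_radius hρ hx
  obtain ⟨g', hg', hg'2⟩ := EReal.exists_between_coe_real hg
  have hg'3 : g' < g := by exact_mod_cast hg'2
  have hL : h (x - δ) ≠ ⊤ := hδs (x - δ) (by rw [sub_sub_cancel_left, abs_neg, abs_of_pos hδ])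
  have hR : h (x + δ) ≠ ⊤ := hδs (x + δ) (by rw [add_sub_cancel_left, abs_of_pos hδ])
  obtain ⟨C1, hC1⟩ := exists_real_gt hL
  obtain ⟨C2, hC2⟩ := exists_real_gt hR
  have hs : 0 < Real.sin (ρ * δ) := by
    have := tre_sin_pos hρ (a := 0) (b := δ) hδ (by linarith)
    simpa using this
  have e1 : ∀ᶠ t in 𝓝 x, (C1 * Real.sin (ρ * (x - t)) + g' * Real.sin (ρ * (t - (x - δ)))) /
      Real.sin (ρ * (x - (x - δ))) < g := by
    have hc : Continuous fun t : ℝ => (C1 * Real.sin (ρ * (x - t)) +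
        g' * Real.sin (ρ * (t - (x - δ)))) / Real.sin (ρ * (x - (x - δ))) := by fun_prop
    refine hc.continuousAt.eventually_lt continuousAt_const ?_
    rw [sub_self, mul_zero, Real.sin_zero, mul_zero, zero_add, sub_sub_cancel,
      mul_div_assoc, div_self hs.ne', mul_one]
    exact hg'3
  have e2 : ∀ᶠ t in 𝓝 x, (g' * Real.sin (ρ * (x + δ - t)) + C2 * Real.sin (ρ * (t - x))) /
      Real.sin (ρ * (x + δ - x)) < g := by
    have hc : Continuous fun t : ℝ => (g' * Real.sin (ρ * (x + δ - t)) +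
        C2 * Real.sin (ρ * (t - x))) / Real.sin (ρ * (x + δ - x)) := by fun_prop
    refine hc.continuousAt.eventually_lt continuousAt_const ?_
    rw [sub_self, mul_zero, Real.sin_zero, mul_zero, add_zero, add_sub_cancel_left,
      mul_div_assoc, div_self hs.ne', mul_one]
    exact hg'3
  have e3 : ∀ᶠ t in 𝓝 x, |t - x| < δ := by
    have hc : Continuous fun t : ℝ => |t - x| := by fun_prop
    refine hc.continuousAt.eventually_lt continuousAt_const ?_
    rw [sub_self, abs_zero]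
    exact hδ
  filter_upwards [e1, e2, e3] with t h1 h2 h3
  rw [abs_lt] at h3
  rcases lt_trichotomy t x with hlt | rfl | hgt
  · refine (hh (x - δ) t x C1 g' (by linarith) hlt (by linarith) hC1.le hg'.le).trans_lt ?_
    exact_mod_cast h1
  · exact hg
  · refine (hh x t (x + δ) g' C2 hgt (by linarith) (by linarith) hg'.le hC2.le).trans_lt ?_
    exact_mod_cast h2

theorem condT_lsc (hρ : 0 < ρ) (hh : CondT ρ h) {x g : ℝ} (hx : {t | h t ≠ ⊤} ∈ 𝓝 x)
    (hg : (g : EReal) < h x) : ∀ᶠ t in 𝓝 x, (g : EReal) < h t := by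
  obtain ⟨δ, hδ, hδ2, hδs⟩ := tre_radius hρ hx
  obtain ⟨g', hg'2, hg'⟩ := EReal.exists_between_coe_real hg
  have hg'3 : g < g' := by exact_mod_cast hg'2
  have hL : h (x - δ) ≠ ⊤ := hδs (x - δ) (by rw [sub_sub_cancel_left, abs_neg, abs_of_pos hδ])
  have hR : h (x + δ) ≠ ⊤ := hδs (x + δ) (by rw [add_sub_cancel_left, abs_of_pos hδ])
  obtain ⟨C1, hC1⟩ := exists_real_gt hL
  obtain ⟨C2, hC2⟩ := exists_real_gt hR
  have hs : 0 < Real.sin (ρ * δ) := by
    have := tre_sin_pos hρ (a := 0) (b := δ) hδ (by linarith)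
    simpa using this
  have e1 : ∀ᶠ t in 𝓝 x, (g * Real.sin (ρ * (x + δ - x)) + C2 * Real.sin (ρ * (x - t))) /
      Real.sin (ρ * (x + δ - t)) < g' := by
    have hc : ContinuousAt (fun t : ℝ => (g * Real.sin (ρ * (x + δ - x)) +
        C2 * Real.sin (ρ * (x - t))) / Real.sin (ρ * (x + δ - t))) x := by
      refine ContinuousAt.div (by fun_prop) (by fun_prop) ?_
      rw [add_sub_cancel_left]
      exact hs.ne'
    refine hc.eventually_lt continuousAt_const ?_
    rw [sub_self, mul_zero, Real.sin_zero, mul_zero, add_zero, add_sub_cancel_left,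
      mul_div_assoc, div_self hs.ne', mul_one]
    exact hg'3
  have e2 : ∀ᶠ t in 𝓝 x, (C1 * Real.sin (ρ * (t - x)) + g * Real.sin (ρ * (x - (x - δ)))) /
      Real.sin (ρ * (t - (x - δ))) < g' := by
    have hc : ContinuousAt (fun t : ℝ => (C1 * Real.sin (ρ * (t - x)) +
        g * Real.sin (ρ * (x - (x - δ)))) / Real.sin (ρ * (t - (x - δ)))) x := by
      refine ContinuousAt.div (by fun_prop) (by fun_prop) ?_
      rw [sub_sub_cancel]
      exact hs.ne'
    refine hc.eventually_lt continuousAt_const ?_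
    rw [sub_self, mul_zero, Real.sin_zero, mul_zero, zero_add, sub_sub_cancel,
      mul_div_assoc, div_self hs.ne', mul_one]
    exact hg'3
  have e3 : ∀ᶠ t in 𝓝 x, |t - x| < δ := by
    have hc : Continuous fun t : ℝ => |t - x| := by fun_prop
    refine hc.continuousAt.eventually_lt continuousAt_const ?_
    rw [sub_self, abs_zero]
    exact hδ
  filter_upwards [e1, e2, e3] with t h1 h2 h3
  rw [abs_lt] at h3
  by_contra hcon
  rw [not_lt] at hcon
  rcases lt_trichotomy t x with hlt | rfl | hgt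
  · have h4 := hh t x (x + δ) g C2 hlt (by linarith) (by linarith) hcon hC2.le
    have h5 : h x < g' := h4.trans_lt (by exact_mod_cast h1)
    exact absurd h5 (not_lt.2 hg'.le)
  · exact absurd hg (not_lt.2 hcon)
  · have h4 := hh (x - δ) x t C1 g (by linarith) hgt (by linarith) hC1.le hcon
    have h5 : h x < g' := h4.trans_lt (by exact_mod_cast h2)
    exact absurd h5 (not_lt.2 hg'.le)

/-- covering the line by short intervals with rational centres -/
lemma tre_cover (hρ : 0 < ρ) (x : ℝ) : ∃ r : ℚ, x ∈ Ioo ((r : ℝ) - π / ρ / 4) (r + π / ρ / 4) := by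
  have hπ : 0 < π / ρ := div_pos Real.pi_pos hρ
  obtain ⟨r, h1, h2⟩ := exists_rat_btwn (show x - π / ρ / 4 < x by linarith)
  exact ⟨r, by linarith, by linarith⟩

theorem condT_countable (hρ : 0 < ρ) (hh : CondT ρ h) :
    ({t | h t ≠ ⊤} \ interior {t | h t ≠ ⊤}).Countable := by
  set D : Set ℝ := {t | h t ≠ ⊤} with hD
  let J : ℚ → Set ℝ := fun r => Ioo ((r : ℝ) - π / ρ / 4) (r + π / ρ / 4)
  have hπ : 0 < π / ρ := div_pos Real.pi_pos hρ
  have key : D \ interior D ⊆ ⋃ r : ℚ, ({x | IsLeast (D ∩ J r) x} ∪ {x | IsGreatest (D ∩ J r) x}) := by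
    rintro x ⟨hxD, hxi⟩
    obtain ⟨r, hr⟩ := tre_cover hρ x
    refine mem_iUnion.2 ⟨r, ?_⟩
    by_contra hcon
    rw [mem_union, not_or] at hcon
    have hxm : x ∈ D ∩ J r := ⟨hxD, hr⟩
    have h1 : ∃ y ∈ D ∩ J r, y < x := by
      by_contra h'
      push Not at h'
      exact hcon.1 ⟨hxm, fun y hy => h' y hy⟩
    have h2 : ∃ y ∈ D ∩ J r, x < y := by
      by_contra h'
      push Not at h'
      exact hcon.2 ⟨hxm, fun y hy => h' y hy⟩
    obtain ⟨y, hy, hyx⟩ := h1
    obtain ⟨z, hz, hxz⟩ := h2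
    apply hxi
    rw [mem_interior]
    refine ⟨Ioo y z, fun t ht => ?_, isOpen_Ioo, ⟨hyx, hxz⟩⟩
    have hy2 := hy.2.1
    have hz2 := hz.2.2
    exact condT_between hh ht.1 ht.2 (by linarith) hy.1 hz.1
  refine Countable.mono key (countable_iUnion fun r => Countable.union ?_ ?_)
  · exact (Set.Subsingleton.countable fun x hx y hy => IsLeast.unique hx hy)
  · exact (Set.Subsingleton.countable fun x hx y hy => IsGreatest.unique hx hy)

lemma tre_sigma_open {s : Set ℝ} (hs : IsOpen s) : IsSigmaCompact s := by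
  rw [isSigmaCompact_iff_sigmaCompactSpace]
  have := hs.locallyCompactSpace
  exact sigmaCompactSpace_of_locallyCompact_secondCountable

lemma tre_sigma_countable {s : Set ℝ} (hs : s.Countable) : IsSigmaCompact s := by
  have h1 : s = ⋃ x ∈ s, {x} := (biUnion_of_singleton s).symm
  rw [h1]
  exact isSigmaCompact_biUnion hs fun x _ => isCompact_singleton.isSigmaCompact

theorem condT_sigma (hρ : 0 < ρ) (hh : CondT ρ h) : IsSigmaCompact {t | h t = ⊤} := by
  set T : Set ℝ := {t | h t = ⊤} with hT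
  set D : Set ℝ := {t | h t ≠ ⊤} with hD
  let J : ℚ → Set ℝ := fun r => Ioo ((r : ℝ) - π / ρ / 4) (r + π / ρ / 4)
  have hπ : 0 < π / ρ := div_pos Real.pi_pos hρ
  have key : T \ interior T ⊆ ⋃ r : ℚ, ({x | IsGLB (D ∩ J r) x} ∪ {x | IsLUB (D ∩ J r) x}) := by
    rintro x ⟨hxT, hxi⟩
    obtain ⟨r, hr⟩ := tre_cover hρ x
    refine mem_iUnion.2 ⟨r, ?_⟩
    have hcl : x ∈ closure (D ∩ J r) := by
      rw [mem_closure_iff]
      intro o ho hxo
      by_contra hne
      rw [not_nonempty_iff_eq_empty] at hne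
      apply hxi
      rw [mem_interior]
      refine ⟨o ∩ J r, fun t ht => ?_, ho.inter isOpen_Ioo, ⟨hxo, hr⟩⟩
      by_contra htT
      have : t ∈ o ∩ (D ∩ J r) := ⟨ht.1, htT, ht.2⟩
      rw [hne] at this
      exact this
    by_cases hlow : ∃ y ∈ D ∩ J r, y < x
    · right
      obtain ⟨y, hy, hyx⟩ := hlow
      have hup : x ∈ upperBounds (D ∩ J r) := by
        intro z hz
        by_contra hzx
        rw [not_le] at hzx
        have hy2 := hy.2.1
        have hz2 := hz.2.2
        exact condT_between hh hyx hzx (by linarith) hy.1 hz.1 hxT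
      exact isLUB_of_mem_closure hup hcl
    · left
      push Not at hlow
      exact isGLB_of_mem_closure (fun y hy => hlow y hy) hcl
  have hc : (T \ interior T).Countable := by
    refine Countable.mono key (countable_iUnion fun r => Countable.union ?_ ?_)
    · exact (Set.Subsingleton.countable fun x hx y hy => IsGLB.unique hx hy)
    · exact (Set.Subsingleton.countable fun x hx y hy => IsLUB.unique hx hy)
  have e : T = interior T ∪ (T \ interior T) := (union_sdiff_cancel interior_subset).symm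
  rw [e, union_eq_iUnion]
  refine isSigmaCompact_iUnion _ fun b => ?_
  cases b
  · exact tre_sigma_countable hc
  · exact tre_sigma_open isOpen_interior

theorem squeeze_upper (hρ : 0 < ρ) (hh : CondT ρ h) (hk : CondT ρ k) {Q : Set ℝ}
    (hQ : ∀ q ∈ Q, k q ≤ h q) (hQ1 : {t | h t ≠ ⊤} \ interior {t | h t ≠ ⊤} ⊆ Q)
    (hQ2 : ∀ a b : ℝ, a < b → Ioo a b ⊆ {t | h t ≠ ⊤} → (Q ∩ Ioo a b).Nonempty) (x : ℝ) :
    k x ≤ h x := by
  by_cases hxQ : x ∈ Q
  · exact hQ x hxQ
  by_cases hxT : h x = ⊤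
  · rw [hxT]; exact le_top
  have hxi : x ∈ interior {t | h t ≠ ⊤} := by
    by_contra hcon
    exact hxQ (hQ1 ⟨hxT, hcon⟩)
  have hx : {t | h t ≠ ⊤} ∈ 𝓝 x := mem_interior_iff_mem_nhds.1 hxi
  refine EReal.le_of_forall_lt_iff_le.1 fun g hg => ?_
  refine EReal.le_of_forall_lt_iff_le.1 fun z hz => ?_
  have hz' : g < z := by exact_mod_cast hz
  have e1 := condT_usc hρ hh hx hg
  obtain ⟨δ, hδ, hδ2, hδs⟩ := tre_radius hρ (Filter.inter_mem hx e1)
  -- the quotient
  have hc : ContinuousAt (fun p : ℝ × ℝ => g * Real.cos (ρ * (p.1 + p.2 - 2 * x) / 2) /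
      Real.cos (ρ * (p.2 - p.1) / 2)) (x, x) := by
    refine ContinuousAt.div (by fun_prop) (by fun_prop) ?_
    simp
  have e2 : ∀ᶠ p : ℝ × ℝ in 𝓝 (x, x), g * Real.cos (ρ * (p.1 + p.2 - 2 * x) / 2) /
      Real.cos (ρ * (p.2 - p.1) / 2) < z := by
    refine hc.eventually_lt continuousAt_const ?_
    have : x + x - 2 * x = 0 := by ring
    simp [this, hz']
  rw [Metric.eventually_nhds_iff] at e2
  obtain ⟨ε, hε, he⟩ := e2
  set η := min δ (ε / 2) with hη
  have hη0 : 0 < η := by positivity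
  have hηδ : η ≤ δ := min_le_left _ _
  have hηε : η ≤ ε / 2 := min_le_right _ _
  obtain ⟨q, hq, hq1, hq2⟩ := hQ2 (x - η) x (by linarith) fun t ht =>
    (hδs t (by rw [abs_le]; constructor <;> linarith [ht.1, ht.2])).1
  obtain ⟨q', hq', hq'1, hq'2⟩ := hQ2 x (x + η) (by linarith) fun t ht =>
    (hδs t (by rw [abs_le]; constructor <;> linarith [ht.1, ht.2])).1
  have hkq : k q ≤ g := (hQ q hq).trans
    (hδs q (by rw [abs_le]; constructor <;> linarith)).2.le
  have hkq' : k q' ≤ g := (hQ q' hq').trans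
    (hδs q' (by rw [abs_le]; constructor <;> linarith)).2.le
  have h1 := hk q x q' g g hq2 hq'1 (by linarith) hkq hkq'
  have h2 : (g * Real.sin (ρ * (q' - x)) + g * Real.sin (ρ * (x - q))) / Real.sin (ρ * (q' - q)) < z := by
    have h3 := he (y := (q, q')) (by
      rw [Prod.dist_eq, Real.dist_eq, Real.dist_eq]
      refine max_lt ?_ ?_ <;> (rw [abs_lt]; constructor <;> dsimp only <;> linarith))
    dsimp only at h3
    have hl : q' - q < π / ρ := by linarith
    have hsin : 0 < Real.sin (ρ * (q' - q) / 2) := by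
      have := tre_sin_pos hρ (a := q) (b := (q + q') / 2) (by linarith) (by linarith)
      have e : ρ * ((q + q') / 2 - q) = ρ * (q' - q) / 2 := by ring
      rwa [e] at this
    have hsin2 := tre_sin_pos hρ (hq2.trans hq'1) hl
    have hdbl : Real.sin (ρ * (q' - q)) =
        2 * Real.sin (ρ * (q' - q) / 2) * Real.cos (ρ * (q' - q) / 2) := by
      rw [← Real.sin_two_mul]
      congr 1
      ring
    have hcos : Real.cos (ρ * (q' - q) / 2) ≠ 0 := by
      intro h0
      rw [hdbl, h0, mul_zero] at hsin2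
      exact lt_irrefl _ hsin2
    have hadd : Real.sin (ρ * (q' - x)) + Real.sin (ρ * (x - q)) =
        2 * Real.sin (ρ * (q' - q) / 2) * Real.cos (ρ * (q + q' - 2 * x) / 2) := by
      have e1 : ρ * (q' - x) = ρ * (q' - q) / 2 + ρ * (q + q' - 2 * x) / 2 := by ring
      have e2 : ρ * (x - q) = ρ * (q' - q) / 2 - ρ * (q + q' - 2 * x) / 2 := by ring
      rw [e1, e2, Real.sin_add, Real.sin_sub]
      ring
    have e : (g * Real.sin (ρ * (q' - x)) + g * Real.sin (ρ * (x - q))) / Real.sin (ρ * (q' - q)) =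
        g * Real.cos (ρ * (q + q' - 2 * x) / 2) / Real.cos (ρ * (q' - q) / 2) := by
      rw [← mul_add, hadd, hdbl]
      field_simp
    rw [e]
    exact h3
  exact h1.trans (by exact_mod_cast h2.le)

theorem squeeze_lower (hρ : 0 < ρ) (hh : CondT ρ h) (hk : CondT ρ k) (hkh : ∀ x, k x ≤ h x)
    {Q : Set ℝ} (hQ : ∀ q ∈ Q, h q ≤ k q)
    (hQ2 : ∀ a b : ℝ, a < b → Ioo a b ⊆ {t | h t ≠ ⊤} → (Q ∩ Ioo a b).Nonempty) {x : ℝ}
    (hx : {t | h t ≠ ⊤} ∈ 𝓝 x) : h x ≤ k x := by
  by_contra hcon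
  rw [not_le] at hcon
  obtain ⟨g, hg1, hg2⟩ := EReal.exists_between_coe_real hcon
  have hx' : {t | k t ≠ ⊤} ∈ 𝓝 x := by
    filter_upwards [hx] with t ht
    exact ne_top_of_le_ne_top ht (hkh t)
  have e1 := condT_usc hρ hk hx' hg1
  have e2 := condT_lsc hρ hh hx hg2
  obtain ⟨δ, hδ, hδ2, hδs⟩ := tre_radius hρ (Filter.inter_mem hx (Filter.inter_mem e1 e2))
  obtain ⟨q, hq, hq1, hq2⟩ := hQ2 (x - δ) (x + δ) (by linarith) fun t ht =>
    (hδs t (by rw [abs_le]; constructor <;> linarith [ht.1, ht.2])).1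
  have h3 := (hδs q (by rw [abs_le]; constructor <;> linarith)).2
  exact absurd (h3.2.trans_le ((hQ q hq).trans h3.1.le)) (lt_irrefl _)

end HBInf
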