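import Pool.Agent.HBInf.HRS
import Pool.Agent.HBInf.TrigE

/-!
# The domination inequality at the real axis, `1 < ρ < 2`

`ω = π/(2ρ) ∈ (π/4, π/2)`. By periodicity and the mirror image (`mirror_condA`, ...) let `θ₀ = 0` (`θ₀ = 2πm` or
`π + 2πm`). `D = {h ≠ ⊤}` is not a neighbourhood of `0`. Let `V_0 θ = VV θ`, `V_π θ = VV (θ - π)`.

(1) `D ∩ (-π/2, π/2) ⊆ {0}`: if `0 < θ < π/2`, `h θ < ⊤` then `h < ⊤` on `(0, θ]` (`condA_shift`), on `[-θ, 0)` (`condA_even`)
and at `0` (`condT_between`; `2 θ'' < π/ρ` for small `θ''`), a neighbourhood of `0`.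
(2) No `θ ∈ D` has `V_0 θ > 0` and `V_π θ > 0` (`nonP` with one ray; there is `t₀` near `0` with `h t₀ = ⊤`, `sin t₀ ≠ 0`).
For `θ ∈ [π/2, π - ω)`: `V_0 θ = -c cos ρ(π - θ) > 0` as `π - θ ∈ (ω, π/2]`, `π/2 < 3ω`; `V_π θ = -c cos ρθ > 0` as
`ω < θ < π - ω < 3ω` (`4ω = 2π/ρ > π`). So every `θ ∈ D` has, mod `2π` and up to the sign, `θ = 0` or
`θ ∈ [π - ω, π]`.
(3) `Θ x = ∫_x^∞ kn 1 ρ t 0 dt`, `Θ_θ x = ∫_x^∞ kn 1 ρ t θ dt`. For `|θ| ∈ [π - ω, π]`: `Θ_θ ≤ 0`: with `c = |cos θ| > 0`, `r = e^t`,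
`kp 1 t θ = (1/2) log (1 + 2 r c + r²) - r c` has derivative `r (1 - 2c² - c r)/(1 + 2rc + r²)` in `r`, so it is
`≥ 0` up to some `t₀ ∈ [-∞, ∞)` and `≤ 0` afterwards, and `∫ kn = V_0 θ = -c' cos ρ(π - θ) ≤ 0`; so for `x ≥ t₀`, `Θ_θ x ≤ 0`
and for `x ≤ t₀`, `Θ_θ x ≤ Θ_θ (-∞) = V_0 θ ≤ 0`. And `Θ x > 0` for large `x` (`kn 1 ρ t 0 > 0` for large `t`), `Θ` is bounded.
(4) Let `Dom 1 ρ θ m 0`, `h (θ i) ≤ g i`. Integrate the inequality for `α = 0`
`kn (x) 0 ≤ ∑ ∫ kn (x + t) (θ i) dm_i(t)` over `x ∈ (x₀, ∞)`: `Θ x₀ ≤ ∑_i ∫ Θ_{θ i} (x₀ + t) dm_i(t) ≤ ∫ Θ (x₀ + t) dμ(t)`, where `μ` is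
the sum of the `m i` with `θ i ≡ 0`. With `S = sup Θ > 0`: `S ≤ S μ(ℝ)`, so `M₀ = μ(ℝ) ≥ 1`. In particular some
`θ i ≡ 0`, `h 0 ≤ g₀ := ` the least of these `g i`.
(5) Integrating the domination over all `s`, for `α = 0` and `π`: `V_α 0 ≤ ∑ m_i(ℝ) V_α (θ i)`, so with
`x i = m_i(ℝ)`, and at one index `i₀` with `θ i₀ ≡ 0`, `g i₀ = g₀`: subtracting `1` (collect the mass of all indices with
`θ i ≡ 0`, whose sum is `M₀ ≥ 1`, at `i₀`): `HRS` gives `(M₀ - 1) g₀ + ∑_{θ i ≢ 0} m_i(ℝ) g i ≥ 0`. So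
`h 0 ≤ g₀ ≤ M₀ g₀ + ∑_{θ i ≢ 0} m_i(ℝ) g i ≤ ∑ m_i(ℝ) g i`.
-/

namespace HBInf

open HBInd Complex Filter Topology Set MeasureTheory
open scoped Real ComplexConjugate

/-! ### the kernel on the rays close to the negative axis -/

private theorem car_cast {ρ : ℝ} (h1 : 1 < ρ) : ((1 : ℕ) : ℝ) < ρ := by simpa using h1

private theorem car_cast' {ρ : ℝ} (h2 : ρ < 2) : ρ < ((1 : ℕ) : ℝ) + 1 := by
  norm_num; linarith

private theorem car_deriv {c r : ℝ} (hc : 0 ≤ c) (hr : 0 ≤ r) :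
    HasDerivAt (fun r : ℝ => Real.log (1 + 2 * r * c + r ^ 2) / 2 - r * c)
      (r * (1 - 2 * c ^ 2 - c * r) / (1 + 2 * r * c + r ^ 2)) r := by
  have h0 : 0 < 1 + 2 * r * c + r ^ 2 := by positivity
  have h3 : HasDerivAt (fun r : ℝ => 1 + 2 * r * c + r ^ 2) (2 * 1 * c + (2 : ℕ) * r ^ (2 - 1) * 1) r := by
    have h4 : HasDerivAt (fun r : ℝ => 1 + 2 * r * c) (2 * 1 * c) r :=
      (((hasDerivAt_id r).const_mul 2).mul_const c).const_add 1
    exact h4.add ((hasDerivAt_id r).pow 2)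
  have h6 := ((h3.log h0.ne').div_const 2).sub ((hasDerivAt_id r).mul_const c)
  have h7 : r * (1 - 2 * c ^ 2 - c * r) / (1 + 2 * r * c + r ^ 2) =
      (2 * 1 * c + (2 : ℕ) * r ^ (2 - 1) * 1) / (1 + 2 * r * c + r ^ 2) / 2 - 1 * c := by
    rw [eq_sub_iff_add_eq, div_div, div_add' _ _ _ h0.ne', div_eq_div_iff h0.ne' (by positivity)]
    push_cast
    ring
  rw [h7]
  exact h6

private theorem car_mono {c r r' : ℝ} (hc : 0 ≤ c) (hr : 0 < r) (hrr : r ≤ r')
    (h : Real.log (1 + 2 * r * c + r ^ 2) / 2 - r * c ≤ 0) :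
    Real.log (1 + 2 * r' * c + r' ^ 2) / 2 - r' * c ≤ 0 := by
  set f : ℝ → ℝ := fun r => Real.log (1 + 2 * r * c + r ^ 2) / 2 - r * c with hf
  by_cases h0 : 0 < 1 - 2 * c ^ 2 - c * r
  · exfalso
    have h1 : StrictMonoOn f (Icc 0 r) := by
      apply strictMonoOn_of_deriv_pos (convex_Icc 0 r)
      · intro x hx
        exact (car_deriv hc hx.1).continuousAt.continuousWithinAt
      · intro x hx
        rw [interior_Icc] at hx
        rw [(car_deriv hc hx.1.le).deriv]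
        have h3 : 0 < x := hx.1
        have h4 : 0 < 1 - 2 * c ^ 2 - c * x := by
          have := mul_le_mul_of_nonneg_left hx.2.le hc
          linarith
        positivity
    have h2 := h1 ⟨le_rfl, hr.le⟩ ⟨hr.le, le_rfl⟩ hr
    have h3 : f 0 = 0 := by simp [hf]
    rw [h3] at h2
    exact absurd h2 (not_lt.2 h)
  · rw [not_lt] at h0
    have h1 : AntitoneOn f (Ici r) := by
      apply antitoneOn_of_deriv_nonpos (convex_Ici r)
      · intro x hx
        exact (car_deriv hc (hr.le.trans hx)).continuousAt.continuousWithinAt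
      · intro x hx
        rw [interior_Ici] at hx
        have hx' : r < x := hx
        exact (car_deriv hc (hr.le.trans hx'.le)).differentiableAt.differentiableWithinAt
      · intro x hx
        rw [interior_Ici] at hx
        have hx' : r < x := hx
        have h3 : 0 < x := hr.trans hx'
        rw [(car_deriv hc h3.le).deriv]
        have h4 : 1 - 2 * c ^ 2 - c * x ≤ 0 := by
          have := mul_le_mul_of_nonneg_left hx'.le hc
          linarith
        apply div_nonpos_of_nonpos_of_nonneg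
        · exact mul_nonpos_of_nonneg_of_nonpos h3.le h4
        · positivity
    exact (h1 (mem_Ici.2 le_rfl) (mem_Ici.2 hrr) hrr).trans h

private theorem car_kp_mono {ψ t t' : ℝ} (hc : Real.cos ψ ≤ 0) (ht : t ≤ t')
    (h : kp 1 t ψ ≤ 0) : kp 1 t' ψ ≤ 0 := by
  have e : ∀ t : ℝ, kp 1 t ψ = Real.log (1 + 2 * Real.exp t * (-Real.cos ψ) + Real.exp t ^ 2) / 2 -
      Real.exp t * (-Real.cos ψ) := by
    intro t
    rw [kp_eq, ker_eq, Nat.cast_one]
    have e1 : 1 - 2 * Real.exp t * Real.cos ψ + Real.exp t ^ 2 =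
      1 + 2 * Real.exp t * (-Real.cos ψ) + Real.exp t ^ 2 := by ring
    rw [e1]
    ring
  rw [e] at h ⊢
  exact car_mono (by linarith) (Real.exp_pos _) (Real.exp_le_exp.2 ht) h

private theorem car_int {ρ : ℝ} (h1 : 1 < ρ) (h2 : ρ < 2) (ψ : ℝ) :
    Integrable fun t => kn 1 ρ t ψ :=
  integrable_kn le_rfl (car_cast h1) (car_cast' h2) ψ

private theorem car_om {ρ : ℝ} (h1 : 1 < ρ) (h2 : ρ < 2) :
    0 < π / (2 * ρ) ∧ ρ * (π / (2 * ρ)) = π / 2 ∧ π / (2 * ρ) < π / 2 ∧ π / 4 < π / (2 * ρ) := by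
  have hpi := Real.pi_pos
  have h3 : ρ * (π / (2 * ρ)) = π / 2 := by field_simp
  have h4 : 0 < π / (2 * ρ) := by positivity
  refine ⟨h4, h3, ?_, ?_⟩
  · nlinarith
  · nlinarith

private theorem car_VV_nonpos {ρ : ℝ} (h1 : 1 < ρ) (h2 : ρ < 2) {ψ : ℝ}
    (hψ : π - π / (2 * ρ) ≤ |ψ|) (hψ' : |ψ| ≤ π) : VV 1 ρ ψ ≤ 0 := by
  obtain ⟨o1, o2, o3, o4⟩ := car_om h1 h2
  rw [VV_eq le_rfl (car_cast h1) (car_cast' h2), G_of_abs_le hψ']
  apply mul_nonpos_of_nonpos_of_nonneg (VV_pi_one h1 h2).le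
  apply Real.cos_nonneg_of_neg_pi_div_two_le_of_le
  · have h3 : 0 ≤ ρ * (π - |ψ|) := mul_nonneg (by linarith) (by linarith)
    have := Real.pi_pos
    linarith
  · rw [← o2]
    exact mul_le_mul_of_nonneg_left (by linarith) (by linarith)

/-- the tail of the kernel -/
private noncomputable def car_T (ρ ψ x : ℝ) : ℝ := ∫ t in Ioi x, kn 1 ρ t ψ

private theorem car_T_nonpos {ρ : ℝ} (h1 : 1 < ρ) (h2 : ρ < 2) {ψ : ℝ}
    (hψ : π - π / (2 * ρ) ≤ |ψ|) (hψ' : |ψ| ≤ π) (x : ℝ) : car_T ρ ψ x ≤ 0 := by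
  obtain ⟨o1, o2, o3, o4⟩ := car_om h1 h2
  have hc : Real.cos ψ ≤ 0 := by
    rw [← Real.cos_abs]
    apply Real.cos_nonpos_of_pi_div_two_le_of_le
    · linarith
    · have := Real.pi_pos
      linarith
  unfold car_T
  by_cases hx : kp 1 x ψ ≤ 0
  · apply setIntegral_nonpos measurableSet_Ioi
    intro t ht
    have h3 := car_kp_mono hc (le_of_lt ht) hx
    rw [kn]
    exact mul_nonpos_of_nonpos_of_nonneg h3 (Real.exp_pos _).le
  · have h3 := intervalIntegral.integral_Iic_add_Ioi (b := x) (car_int h1 h2 ψ).integrableOn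
      (car_int h1 h2 ψ).integrableOn
    have h4 : 0 ≤ ∫ t in Iic x, kn 1 ρ t ψ := by
      apply setIntegral_nonneg measurableSet_Iic
      intro t ht
      rw [kn]
      apply mul_nonneg _ (Real.exp_pos _).le
      by_contra hcon
      rw [not_le] at hcon
      exact hx (car_kp_mono hc ht hcon.le)
    have h5 := car_VV_nonpos h1 h2 hψ hψ'
    unfold VV at h5
    linarith

private theorem car_T_le {ρ : ℝ} (h1 : 1 < ρ) (h2 : ρ < 2) (ψ x : ℝ) :
    car_T ρ ψ x ≤ ∫ t, |kn 1 ρ t ψ| := by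
  calc car_T ρ ψ x ≤ ∫ t in Ioi x, |kn 1 ρ t ψ| :=
        integral_mono (car_int h1 h2 ψ).integrableOn (car_int h1 h2 ψ).abs.integrableOn
          fun t => le_abs_self _
    _ ≤ ∫ t, |kn 1 ρ t ψ| := setIntegral_le_integral (car_int h1 h2 ψ).abs
        (Eventually.of_forall fun t => abs_nonneg _)

private theorem car_T_pos {ρ : ℝ} (h1 : 1 < ρ) (h2 : ρ < 2) : 0 < car_T ρ 0 (Real.log 2) := by
  have h3 : ∫ t in Ioi (Real.log 2), Real.exp ((1 - ρ) * t) ≤ car_T ρ 0 (Real.log 2) := by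
    apply setIntegral_mono_on (integrableOn_exp_mul_Ioi (by linarith) _)
      (car_int h1 h2 0).integrableOn measurableSet_Ioi
    intro t ht
    have ht' : Real.log 2 < t := ht
    have h4 : 2 < Real.exp t := by
      rw [← Real.exp_log (show (0 : ℝ) < 2 by norm_num)]
      exact Real.exp_lt_exp.2 ht'
    rw [kn, kp_eq, ker_eq, Real.cos_zero, Nat.cast_one]
    have h5 : 0 ≤ Real.log (1 - 2 * Real.exp t * 1 + Real.exp t ^ 2) := by
      apply Real.log_nonneg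
      nlinarith
    have h6 : (1 - ρ) * t = t + -ρ * t := by ring
    rw [h6, Real.exp_add]
    apply mul_le_mul_of_nonneg_right _ (Real.exp_pos _).le
    linarith
  refine lt_of_lt_of_le ?_ h3
  rw [integral_exp_mul_Ioi (by linarith)]
  have h4 : 1 - ρ < 0 := by linarith
  rw [neg_div]
  have := div_neg_of_pos_of_neg (Real.exp_pos ((1 - ρ) * Real.log 2)) h4
  linarith

/-! ### integrating the domination -/

private theorem car_prod {ρ : ℝ} (h1 : 1 < ρ) (h2 : ρ < 2) (μ : Measure ℝ) [IsFiniteMeasure μ]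
    (ψ : ℝ) : Integrable (Function.uncurry fun x t : ℝ => kn 1 ρ (x + t) ψ)
      ((volume : Measure ℝ).prod μ) := by
  have hm : Measurable (Function.uncurry fun x t : ℝ => kn 1 ρ (x + t) ψ) :=
    (measurable_kn 1 ρ).comp ((measurable_fst.add measurable_snd).prodMk measurable_const)
  rw [integrable_prod_iff' hm.aestronglyMeasurable]
  constructor
  · exact Eventually.of_forall fun t => (car_int h1 h2 ψ).comp_add_right t
  · have e : (fun t : ℝ => ∫ x : ℝ, ‖Function.uncurry (fun x t : ℝ => kn 1 ρ (x + t) ψ) (x, t)‖) =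
        fun _ => ∫ x : ℝ, ‖kn 1 ρ x ψ‖ := by
      funext t
      exact integral_add_right_eq_self (μ := volume) (fun x => ‖kn 1 ρ x ψ‖) t
    rw [e]
    exact integrable_const _

private theorem car_prod_on {ρ : ℝ} (h1 : 1 < ρ) (h2 : ρ < 2) (μ : Measure ℝ)
    [IsFiniteMeasure μ] (ψ : ℝ) (E : Set ℝ) :
    Integrable (Function.uncurry fun x t : ℝ => kn 1 ρ (x + t) ψ)
      ((volume.restrict E : Measure ℝ).prod μ) := by
  refine (car_prod h1 h2 μ ψ).mono_measure ?_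
  exact Measure.prod_mono Measure.restrict_le_self le_rfl

private theorem car_dom {ρ : ℝ} (h1 : 1 < ρ) (h2 : ρ < 2) {n : ℕ} {θ : Fin n → ℝ}
    {m : Fin n → Measure ℝ} (hm : ∀ i, IsFiniteMeasure (m i)) (hd : Dom 1 ρ θ m 0) {α : ℝ}
    (hα : α ∈ TT 1) (E : Set ℝ) :
    ∫ x in E, kn 1 ρ x (0 - α) ≤ ∑ i, ∫ t, (∫ x in E, kn 1 ρ (x + t) (θ i - α)) ∂(m i) := by
  have h3 : ∀ᵐ x : ℝ, kn 1 ρ x (0 - α) ≤ ∑ i, ∫ t, kn 1 ρ (x + t) (θ i - α) ∂(m i) := by
    have h4 := (Measure.measurePreserving_neg (volume : Measure ℝ)).quasiMeasurePreserving.ae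
      (hd α hα)
    filter_upwards [h4] with x hx
    rw [neg_neg] at hx
    have h5 := mul_le_mul_of_nonneg_right hx (Real.exp_pos (-ρ * x)).le
    rw [Finset.sum_mul] at h5
    refine h5.trans (le_of_eq ?_)
    refine Finset.sum_congr rfl fun i _ => ?_
    rw [← integral_mul_const]
    refine integral_congr_ae (Eventually.of_forall fun t => ?_)
    simp only
    rw [kn, sub_neg_eq_add, add_comm t x, show -ρ * (x + t) = -ρ * t + -ρ * x by ring, Real.exp_add]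
    ring
  have h4 : ∀ i, ∫ t, (∫ x in E, kn 1 ρ (x + t) (θ i - α)) ∂(m i) =
      ∫ x in E, ∫ t, kn 1 ρ (x + t) (θ i - α) ∂(m i) := by
    intro i
    have := hm i
    exact (integral_integral_swap (car_prod_on h1 h2 (m i) (θ i - α) E)).symm
  simp_rw [h4]
  have h5 : ∀ i ∈ Finset.univ, Integrable (fun x => ∫ t, kn 1 ρ (x + t) (θ i - α) ∂(m i))
      (volume.restrict E) := by
    intro i _
    have := hm i
    exact (car_prod_on h1 h2 (m i) (θ i - α) E).integral_prod_left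
  rw [← integral_finsetSum _ h5]
  refine integral_mono_ae (car_int h1 h2 _).integrableOn (integrable_finsetSum _ h5) ?_
  exact ae_restrict_of_ae h3

private theorem car_TT0 : (0 : ℝ) ∈ TT 1 :=
  ⟨⟨le_rfl, Real.pi_pos.le⟩, fun _ => Or.inl rfl⟩

private theorem car_TTpi : π ∈ TT 1 :=
  ⟨⟨Real.pi_pos.le, le_rfl⟩, fun _ => Or.inr rfl⟩

private theorem car_shift (ρ ψ x t : ℝ) : ∫ y in Ioi x, kn 1 ρ (y + t) ψ = car_T ρ ψ (x + t) := by
  have h3 : MeasurePreserving (fun y : ℝ => y + t) volume volume :=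
    measurePreserving_add_right volume t
  have h4 := h3.setIntegral_preimage_emb (MeasurableEquiv.addRight t).measurableEmbedding
    (fun y => kn 1 ρ y ψ) (Ioi (x + t))
  have h5 : (fun y : ℝ => y + t) ⁻¹' Ioi (x + t) = Ioi x := by
    ext y
    simp
  rw [h5] at h4
  exact h4

/-- the potentials -/
private theorem car_dom_VV {ρ : ℝ} (h1 : 1 < ρ) (h2 : ρ < 2) {n : ℕ} {θ : Fin n → ℝ}
    {m : Fin n → Measure ℝ} (hm : ∀ i, IsFiniteMeasure (m i)) (hd : Dom 1 ρ θ m 0) {α : ℝ}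
    (hα : α ∈ TT 1) : VV 1 ρ (0 - α) ≤ ∑ i, (m i).real univ * VV 1 ρ (θ i - α) := by
  have h3 := car_dom h1 h2 hm hd hα univ
  rw [Measure.restrict_univ] at h3
  refine h3.trans (le_of_eq ?_)
  refine Finset.sum_congr rfl fun i _ => ?_
  have h4 : ∀ t : ℝ, ∫ x, kn 1 ρ (x + t) (θ i - α) = VV 1 ρ (θ i - α) := fun t =>
    integral_add_right_eq_self (μ := volume) (fun x => kn 1 ρ x (θ i - α)) t
  simp_rw [h4]
  rw [integral_const, smul_eq_mul]

/-- the tails -/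
private theorem car_dom_T {ρ : ℝ} (h1 : 1 < ρ) (h2 : ρ < 2) {n : ℕ} {θ : Fin n → ℝ}
    {m : Fin n → Measure ℝ} (hm : ∀ i, IsFiniteMeasure (m i)) (hd : Dom 1 ρ θ m 0) (x : ℝ) :
    car_T ρ 0 x ≤ ∑ i, ∫ t, car_T ρ (θ i) (x + t) ∂(m i) := by
  have h3 := car_dom h1 h2 hm hd car_TT0 (Ioi x)
  simp only [sub_zero, car_shift] at h3
  exact h3

private theorem car_T_add_int (ρ ψ x : ℝ) (n : ℤ) :
    car_T ρ (ψ + n * (2 * π)) x = car_T ρ ψ x := by
  simp only [car_T, kn_add_int]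

/-- a ray is in class one or two -/
private theorem car_mass {ρ : ℝ} (h1 : 1 < ρ) (h2 : ρ < 2) {n : ℕ} {θ : Fin n → ℝ}
    {m : Fin n → Measure ℝ} (hm : ∀ i, IsFiniteMeasure (m i)) (hd : Dom 1 ρ θ m 0)
    (J : Finset (Fin n)) (hJ : ∀ i ∈ J, ∃ k : ℤ, θ i = k * (2 * π))
    (hJ' : ∀ i, i ∉ J → ∃ (ψ : ℝ) (k : ℤ), θ i = ψ + k * (2 * π) ∧ π - π / (2 * ρ) ≤ |ψ| ∧
      |ψ| ≤ π) : 1 ≤ ∑ i ∈ J, (m i).real univ := by
  set S := ⨆ x, car_T ρ 0 x with hS
  have hb : BddAbove (range fun x => car_T ρ 0 x) := by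
    refine ⟨∫ t, |kn 1 ρ t 0|, ?_⟩
    rintro _ ⟨x, rfl⟩
    exact car_T_le h1 h2 0 x
  have hS0 : 0 < S := (car_T_pos h1 h2).trans_le (le_ciSup hb (Real.log 2))
  have h3 : ∀ x, car_T ρ 0 x ≤ S * ∑ i ∈ J, (m i).real univ := by
    intro x
    refine (car_dom_T h1 h2 hm hd x).trans ?_
    rw [← Finset.sum_add_sum_compl J]
    have h4 : ∑ i ∈ Jᶜ, ∫ t, car_T ρ (θ i) (x + t) ∂(m i) ≤ 0 := by
      apply Finset.sum_nonpos
      intro i hi
      rw [Finset.mem_compl] at hi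
      obtain ⟨ψ, k, h5, h6, h7⟩ := hJ' i hi
      apply integral_nonpos
      intro t
      simp only [Pi.zero_apply]
      rw [h5, car_T_add_int]
      exact car_T_nonpos h1 h2 h6 h7 _
    have h5 : ∑ i ∈ J, ∫ t, car_T ρ (θ i) (x + t) ∂(m i) ≤ S * ∑ i ∈ J, (m i).real univ := by
      rw [Finset.mul_sum]
      apply Finset.sum_le_sum
      intro i hi
      have := hm i
      obtain ⟨k, h6⟩ := hJ i hi
      have h7 : ∀ y, car_T ρ (θ i) y = car_T ρ 0 y := by
        intro y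
        have h8 := car_T_add_int ρ 0 y k
        rw [zero_add] at h8
        rw [h6, h8]
      simp_rw [h7]
      calc ∫ t, car_T ρ 0 (x + t) ∂(m i) ≤ ∫ _t, S ∂(m i) := by
            by_cases hi : Integrable (fun t => car_T ρ 0 (x + t)) (m i)
            · exact integral_mono hi (integrable_const _) fun t => le_ciSup hb (x + t)
            · rw [integral_undef hi]
              exact integral_nonneg fun _ => hS0.le
        _ = S * (m i).real univ := by
            rw [integral_const, smul_eq_mul, mul_comm]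
    linarith
  have h4 : S ≤ S * ∑ i ∈ J, (m i).real univ := ciSup_le h3
  by_contra hcon
  rw [not_le] at hcon
  have := mul_lt_mul_of_pos_left hcon hS0
  rw [mul_one] at this
  linarith

/-! ### the rays with finite values -/

private theorem car_top {ρ : ℝ} (h1 : 1 < ρ) (h2 : ρ < 2) {h : ℝ → EReal}
    (hper : ∀ θ, h (θ + 2 * π) = h θ) (hT : CondT ρ h) (hA : CondA 1 ρ h)
    (hD : {t | h t ≠ ⊤} ∉ 𝓝 0) {θ : ℝ} (h3 : θ ≠ 0) (h4 : |θ| < π / 2) : h θ = ⊤ := by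
  by_contra hθ
  apply hD
  have hpi := Real.pi_pos
  have h5 : h |θ| ≠ ⊤ := by
    rcases abs_choice θ with h6 | h6
    · rw [h6]; exact hθ
    · rw [h6, condA_even hper hA]; exact hθ
  have h6 : 0 < |θ| := abs_pos.2 h3
  have h7 : ∀ t, 0 < t → t ≤ |θ| → h t ≠ ⊤ := fun t ht ht' => condA_shift hA ht ht' h4 h5
  have h8 : h 0 ≠ ⊤ := by
    set t := min |θ| (π / (2 * ρ) / 2) with ht
    obtain ⟨o1, o2, o3, o4⟩ := car_om h1 h2
    have ht0 : 0 < t := by positivity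
    have h9 := h7 t ht0 (min_le_left _ _)
    have h10 : h (-t) ≠ ⊤ := by rw [condA_even hper hA]; exact h9
    refine condT_between hT (a := -t) (t := 0) (b := t) (by linarith) ht0 ?_ h10 h9
    have h11 : t ≤ π / (2 * ρ) / 2 := min_le_right _ _
    have h12 : π / ρ = 2 * (π / (2 * ρ)) := by field_simp
    rw [h12]
    linarith
  refine Filter.mem_of_superset (Ioo_mem_nhds (neg_lt_zero.2 h6) h6) ?_
  intro t ht
  rcases lt_trichotomy t 0 with h9 | h9 | h9
  · show h t ≠ ⊤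
    rw [← neg_neg t, condA_even hper hA]
    exact h7 _ (by linarith) (by linarith [ht.1])
  · show h t ≠ ⊤
    rw [h9]; exact h8
  · exact h7 t h9 ht.2.le

private theorem car_dich {ρ : ℝ} (h1 : 1 < ρ) (h2 : ρ < 2) {h : ℝ → EReal}
    (hper : ∀ θ, h (θ + 2 * π) = h θ) (hT : CondT ρ h) (hA : CondA 1 ρ h)
    (hD : {t | h t ≠ ⊤} ∉ 𝓝 0) {θ : ℝ} (hθ : h θ ≠ ⊤) :
    (∃ k : ℤ, θ = k * (2 * π)) ∨
    ∃ (ψ : ℝ) (k : ℤ), θ = ψ + k * (2 * π) ∧ π - π / (2 * ρ) ≤ |ψ| ∧ |ψ| ≤ π := by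
  obtain ⟨o1, o2, o3, o4⟩ := car_om h1 h2
  have hpi := Real.pi_pos
  obtain ⟨k, hk1, hk2⟩ := exists_int_Ioc θ
  set ψ := θ - k * (2 * π) with hψ
  have e : θ = ψ + k * (2 * π) := by rw [hψ]; ring
  have hP : Function.Periodic h (2 * π) := hper
  have hψ2 : h ψ ≠ ⊤ := by
    have h3 := hP.sub_zsmul_eq k (x := θ)
    rw [zsmul_eq_mul] at h3
    rw [hψ, h3]
    exact hθ
  have hψ3 : |ψ| ≤ π := abs_le.2 ⟨hk1.le, hk2⟩
  by_cases h0 : ψ = 0
  · left
    exact ⟨k, by rw [e, h0, zero_add]⟩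
  right
  refine ⟨ψ, k, e, ?_, hψ3⟩
  by_contra hcon
  rw [not_le] at hcon
  have h3 : π / 2 ≤ |ψ| := by
    by_contra h4
    rw [not_le] at h4
    exact hψ2 (car_top h1 h2 hper hT hA hD h0 h4)
  have hneg := VV_pi_one h1 h2
  have h4 : 0 < VV 1 ρ ψ := by
    rw [VV_eq le_rfl (car_cast h1) (car_cast' h2), G_of_abs_le hψ3]
    apply mul_pos_of_neg_of_neg hneg
    apply Real.cos_neg_of_pi_div_two_lt_of_lt
    · rw [← o2]
      exact mul_lt_mul_of_pos_left (by linarith) (by linarith)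
    · have h5 : ρ * (π - |ψ|) ≤ 2 * (π - |ψ|) := mul_le_mul_of_nonneg_right h2.le (by linarith)
      linarith
  have h5 : 0 < VV 1 ρ (ψ - π) := by
    rw [VV_eq le_rfl (car_cast h1) (car_cast' h2), G_sub_pi hψ3, ← Real.cos_abs, abs_mul,
      abs_of_pos (show 0 < ρ by linarith)]
    apply mul_pos_of_neg_of_neg hneg
    apply Real.cos_neg_of_pi_div_two_lt_of_lt
    · have h6 : 1 * |ψ| < ρ * |ψ| := mul_lt_mul_of_pos_right h1 (by linarith)
      linarith
    · have h6 : ρ * |ψ| < ρ * (π - π / (2 * ρ)) := mul_lt_mul_of_pos_left hcon (by linarith)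
      have h7 : ρ * (π - π / (2 * ρ)) = ρ * π - π / 2 := by rw [mul_sub, o2]
      have h8 : ρ * π < 2 * π := mul_lt_mul_of_pos_right h2 hpi
      linarith
  have h6 : h (π / 4) = ⊤ := by
    apply car_top h1 h2 hper hT hA hD
    · positivity
    · rw [abs_of_pos (by positivity)]
      linarith
  refine nonP le_rfl (car_cast h1) (car_cast' h2) hA h6 (fun _ => ?_) (n := 1)
    (θ := fun _ => ψ) (x := fun _ => 1) (fun _ => hψ2) (fun _ => zero_le_one) ?_
  · rw [Real.sin_pi_div_four]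
    positivity
  · intro α hα
    simp only [Finset.univ_unique, one_mul, Finset.sum_singleton]
    rcases hα.2 rfl with h7 | h7
    · rw [h7, sub_zero]; exact h4
    · rw [h7]; exact h5

/-- the theorem for `θ₀ = 0` -/
private theorem car_core {ρ : ℝ} (h1 : 1 < ρ) (h2 : ρ < 2) {h : ℝ → EReal}
    (hper : ∀ θ, h (θ + 2 * π) = h θ) (hT : CondT ρ h) (hA : CondA 1 ρ h) (hH : HRS 1 ρ h)
    (hD : {t | h t ≠ ⊤} ∉ 𝓝 0) {n : ℕ} {θ : Fin n → ℝ}
    {m : Fin n → Measure ℝ} {g : Fin n → ℝ} (hm : ∀ i, IsFiniteMeasure (m i))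
    (hg : ∀ i, h (θ i) ≤ g i) (hd : Dom 1 ρ θ m 0) :
    h 0 ≤ ((∑ i, (m i).real univ * g i : ℝ) : EReal) := by
  classical
  have hP : Function.Periodic h (2 * π) := hper
  set J : Finset (Fin n) := Finset.univ.filter fun i => ∃ k : ℤ, θ i = k * (2 * π) with hJdef
  have hJ : ∀ i ∈ J, ∃ k : ℤ, θ i = k * (2 * π) := fun i hi => by
    rw [hJdef, Finset.mem_filter] at hi
    exact hi.2
  have hJ' : ∀ i, i ∉ J → ∃ (ψ : ℝ) (k : ℤ), θ i = ψ + k * (2 * π) ∧ π - π / (2 * ρ) ≤ |ψ| ∧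
      |ψ| ≤ π := by
    intro i hi
    have h3 : h (θ i) ≠ ⊤ := ((hg i).trans_lt (EReal.coe_lt_top _)).ne
    rcases car_dich h1 h2 hper hT hA hD h3 with h4 | h4
    · exfalso
      apply hi
      rw [hJdef, Finset.mem_filter]
      exact ⟨Finset.mem_univ _, h4⟩
    · exact h4
  have hM := car_mass h1 h2 hm hd J hJ hJ'
  set M := ∑ i ∈ J, (m i).real univ with hMdef
  have hM0 : 0 < M := by linarith
  -- the values on `J`
  have hgJ : ∀ i ∈ J, h 0 ≤ g i := by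
    intro i hi
    obtain ⟨k, hk⟩ := hJ i hi
    have h3 := hP.sub_zsmul_eq k (x := θ i)
    rw [zsmul_eq_mul, hk, sub_self, ← hk] at h3
    rw [h3]
    exact hg i
  -- the homogeneous relation
  have hrs : 0 ≤ ∑ i, (if i ∈ J then (m i).real univ * ((M - 1) / M) else (m i).real univ) * g i := by
    refine hH n θ _ g (fun i => ?_) hg fun α hα => ?_
    · have h3 : 0 ≤ (m i).real univ := measureReal_nonneg
      have h4 : 0 ≤ (M - 1) / M := div_nonneg (by linarith) hM0.le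
      split_ifs <;> positivity
    · have h3 := car_dom_VV h1 h2 hm hd hα
      rw [← Finset.sum_add_sum_compl J] at h3 ⊢
      have h4 : ∀ i ∈ J, VV 1 ρ (θ i - α) = VV 1 ρ (0 - α) := by
        intro i hi
        obtain ⟨k, hk⟩ := hJ i hi
        rw [hk, show (k : ℝ) * (2 * π) - α = 0 - α + k * (2 * π) by ring, VV_add_int]
      have h5 : ∑ i ∈ J, (m i).real univ * VV 1 ρ (θ i - α) = M * VV 1 ρ (0 - α) := by
        rw [hMdef, Finset.sum_mul]
        exact Finset.sum_congr rfl fun i hi => by rw [h4 i hi]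
      have h6 : ∑ i ∈ J, (if i ∈ J then (m i).real univ * ((M - 1) / M) else (m i).real univ) *
          VV 1 ρ (θ i - α) = (M - 1) * VV 1 ρ (0 - α) := by
        have h7 : (M - 1) * VV 1 ρ (0 - α) = ∑ i ∈ J, (m i).real univ * ((M - 1) / M *
            VV 1 ρ (0 - α)) := by
          rw [← Finset.sum_mul, ← hMdef]
          field_simp
        rw [h7]
        refine Finset.sum_congr rfl fun i hi => ?_
        rw [if_pos hi, h4 i hi]
        ring
      have h7 : ∑ i ∈ Jᶜ, (if i ∈ J then (m i).real univ * ((M - 1) / M) else (m i).real univ) *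
          VV 1 ρ (θ i - α) = ∑ i ∈ Jᶜ, (m i).real univ * VV 1 ρ (θ i - α) :=
        Finset.sum_congr rfl fun i hi => by rw [if_neg (Finset.mem_compl.1 hi)]
      rw [h5] at h3
      rw [h6, h7]
      linarith
  have hsum : ∑ i, (m i).real univ * g i =
      (∑ i ∈ J, (m i).real univ * g i) / M +
      ∑ i, (if i ∈ J then (m i).real univ * ((M - 1) / M) else (m i).real univ) * g i := by
    rw [← Finset.sum_add_sum_compl J, ← Finset.sum_add_sum_compl J (fun i =>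
      (if i ∈ J then (m i).real univ * ((M - 1) / M) else (m i).real univ) * g i)]
    have h7 : ∑ i ∈ Jᶜ, (if i ∈ J then (m i).real univ * ((M - 1) / M) else (m i).real univ) *
        g i = ∑ i ∈ Jᶜ, (m i).real univ * g i :=
      Finset.sum_congr rfl fun i hi => by rw [if_neg (Finset.mem_compl.1 hi)]
    have h6 : ∑ i ∈ J, (if i ∈ J then (m i).real univ * ((M - 1) / M) else (m i).real univ) *
        g i = (M - 1) / M * ∑ i ∈ J, (m i).real univ * g i := by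
      rw [Finset.mul_sum]
      exact Finset.sum_congr rfl fun i hi => by rw [if_pos hi]; ring
    rw [h6, h7]
    field_simp
    ring
  have key : ∀ r : ℝ, (∀ i ∈ J, r ≤ g i) → r ≤ ∑ i, (m i).real univ * g i := by
    intro r hr
    rw [hsum]
    have h3 : r ≤ (∑ i ∈ J, (m i).real univ * g i) / M := by
      rw [le_div_iff₀ hM0, hMdef, Finset.mul_sum]
      refine Finset.sum_le_sum fun i hi => ?_
      rw [mul_comm]
      exact mul_le_mul_of_nonneg_left (hr i hi) measureReal_nonneg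
    linarith
  have hne : J.Nonempty := by
    rw [Finset.nonempty_iff_ne_empty]
    intro h0
    rw [hMdef, h0, Finset.sum_empty] at hM0
    exact lt_irrefl _ hM0
  obtain ⟨i₀, hi₀⟩ := hne
  rcases eq_or_ne (h 0) ⊥ with h3 | h3
  · rw [h3]; exact bot_le
  have h4 : h 0 ≠ ⊤ := ((hgJ i₀ hi₀).trans_lt (EReal.coe_lt_top _)).ne
  have h5 : ((h 0).toReal : EReal) = h 0 := EReal.coe_toReal h4 h3
  rw [← h5, EReal.coe_le_coe_iff]
  apply key
  intro i hi
  have h6 := hgJ i hi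
  rw [← h5, EReal.coe_le_coe_iff] at h6
  exact h6

private theorem car_kp_add_int (u ψ : ℝ) (k : ℤ) : kp 1 u (ψ + k * (2 * π)) = kp 1 u ψ := by
  rw [kp_eq, kp_eq, ker_eq, ker_eq, Real.cos_add_int_mul_two_pi]

private theorem car_kp_neg (u ψ : ℝ) : kp 1 u (-ψ) = kp 1 u ψ := by
  rw [kp_eq, kp_eq, ker_eq, ker_eq, Real.cos_neg]

private theorem car_TT_sub {α : ℝ} (hα : α ∈ TT 1) : π - α ∈ TT 1 := by
  rcases hα.2 rfl with h | h
  · rw [h, sub_zero]; exact car_TTpi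
  · rw [h, sub_self]; exact car_TT0

private theorem car_mirror_hrs {ρ : ℝ} {h : ℝ → EReal} (hH : HRS 1 ρ h) :
    HRS 1 ρ fun θ => h (π - θ) := by
  intro n θ x g hx hg hα
  refine hH n (fun i => π - θ i) x g hx hg fun α h3 => ?_
  have h4 := hα (π - α) (car_TT_sub h3)
  refine h4.trans (le_of_eq ?_)
  refine Finset.sum_congr rfl fun i _ => ?_
  rw [← VV_neg, show -(θ i - (π - α)) = π - θ i - α by ring]

private theorem car_nhds {h : ℝ → EReal} {θ₀ : ℝ} (e : ℝ ≃ₜ ℝ) (h0 : e 0 = θ₀)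
    (hD : {t | h t ≠ ⊤} ∉ 𝓝 θ₀) : {t | h (e t) ≠ ⊤} ∉ 𝓝 0 := by
  intro h3
  apply hD
  rw [← h0, ← e.map_nhds_eq]
  exact h3

theorem condA_real {ρ : ℝ} (h1 : 1 < ρ) (h2 : ρ < 2) {h : ℝ → EReal}
    (hper : ∀ θ, h (θ + 2 * π) = h θ) (hT : CondT ρ h) (hA : CondA 1 ρ h) (hH : HRS 1 ρ h)
    {θ₀ : ℝ} (hs : Real.sin θ₀ = 0) (hD : {t | h t ≠ ⊤} ∉ 𝓝 θ₀) {n : ℕ} {θ : Fin n → ℝ}
    {m : Fin n → Measure ℝ} {g : Fin n → ℝ} (hm : ∀ i, IsFiniteMeasure (m i))
    (hg : ∀ i, h (θ i) ≤ g i) (hd : Dom 1 ρ θ m θ₀) :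
    h θ₀ ≤ ((∑ i, (m i).real univ * g i : ℝ) : EReal) := by
  have hP : Function.Periodic h (2 * π) := hper
  have hPk : ∀ (k : ℤ) (t : ℝ), h (t + k * (2 * π)) = h t := by
    intro k t
    have h3 := hP.sub_zsmul_eq (-k) (x := t)
    rw [zsmul_eq_mul] at h3
    push_cast at h3
    rw [← h3]
    congr 1
    ring
  obtain ⟨k, hk⟩ := Real.sin_eq_zero_iff.1 hs
  rcases Int.even_or_odd' k with ⟨j, hj | hj⟩
  · have h3 : θ₀ = j * (2 * π) := by rw [← hk, hj]; push_cast; ring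
    have h4 : h θ₀ = h 0 := by
      rw [h3, ← zero_add ((j : ℝ) * (2 * π)), hPk]
    rw [h4]
    refine car_core h1 h2 hper hT hA hH ?_ hm hg ?_
    · have h5 := car_nhds (h := h) (Homeomorph.addRight ((j : ℝ) * (2 * π))) (by simp [h3]) hD
      have h6 : {t | h ((Homeomorph.addRight ((j : ℝ) * (2 * π))) t) ≠ ⊤} = {t | h t ≠ ⊤} := by
        ext t
        simp only [mem_setOf_eq, Homeomorph.coe_addRight, hPk]
      rwa [h6] at h5
    · intro α hα
      filter_upwards [hd α hα] with s hs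
      refine le_trans (le_of_eq ?_) hs
      rw [h3, show (j : ℝ) * (2 * π) - α = 0 - α + j * (2 * π) by ring, car_kp_add_int]
  · have h3 : θ₀ = π + j * (2 * π) := by rw [← hk, hj]; push_cast; ring
    have h4 : h θ₀ = h (π - 0) := by
      rw [h3, hPk, sub_zero]
    rw [h4]
    have hπ : ∀ θ, h (π - (θ + 2 * π)) = h (π - θ) := by
      intro θ
      rw [← hper (π - (θ + 2 * π))]
      congr 1
      ring
    refine car_core (h := fun θ => h (π - θ)) (θ := fun i => π - θ i) h1 h2 hπ (mirror_condT hT)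
      (mirror_condA hA) (car_mirror_hrs hH) ?_ hm (fun i => ?_) ?_
    · have h5 := car_nhds (h := h) ((Homeomorph.subLeft π).trans
        (Homeomorph.addRight ((j : ℝ) * (2 * π)))) (by simp [h3]) hD
      have h6 : {t | h (((Homeomorph.subLeft π).trans
          (Homeomorph.addRight ((j : ℝ) * (2 * π)))) t) ≠ ⊤} = {t | h (π - t) ≠ ⊤} := by
        ext t
        simp only [mem_setOf_eq, Homeomorph.trans_apply, Homeomorph.coe_addRight,
          Homeomorph.coe_subLeft, hPk]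
      rwa [h6] at h5
    · have h5 : π - (π - θ i) = θ i := by ring
      simp only [h5]
      exact hg i
    · intro α hα
      filter_upwards [hd (π - α) (car_TT_sub hα)] with s hs
      rw [h3, show π + (j : ℝ) * (2 * π) - (π - α) = -(0 - α) + j * (2 * π) by ring,
        car_kp_add_int, car_kp_neg] at hs
      refine hs.trans (le_of_eq ?_)
      refine Finset.sum_congr rfl fun i _ => ?_
      rw [show π - θ i - α = -(θ i - (π - α)) by ring]
      simp only [car_kp_neg]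

end HBInf
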