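import Pool.Agent.HBInf.DensS

/-!
# The condition `3 h(ω) + h(3ω) ≥ 0`

`1 < ρ < 2`, `ω = π/(2ρ)`, `3ω ≤ π`. For `α ∈ {0, π}` put `k_α t = 3 kn t (ω - α) + kn t (3ω - α)`. With `c = -VV 1 ρ π > 0`
(`VV_pi_one`): `VV (ω - π) = -c cos ρω = 0`, `VV (3ω - π) = 0`, `VV ω = -c cos (ρπ - π/2) = -c sin ρπ =: v > 0`,
`VV (3ω) = -c cos (ρπ - 3π/2) = -v`; `WW (ω - π) = c ω sin ρω = c ω`, `WW (3ω - π) = 3 c ω sin (3π/2) = -3 c ω`
(`WW_eq`). So `∫ k_π = 0`, `∫ t k_π dt = -(3 c ω - 3 c ω) = 0`, and `∫ k_0 = 2 v > 0`.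

For large `L` let `w y = max 0 (L - |y - 2L|) / L²` (support `[L, 3L]`, `∫ w = 1`, Lipschitz constant `1/L²`). By the
hypotheses `∫ w y (3 u y ω + u y (3ω)) dy ≤ 3 g_A + g_B`, `u y θ = e^{-ρy} U y θ`. The left side is
`∑_i e^{-ρ s_i} ∫ w y k_{a_i} (y - s_i) dy` (absolutely convergent).
* `a_i = π`: let `κ` be the second primitive of `k_π` from `-∞`; because of the vanishing moments it is
  bounded by `C e^{-sg |t|}`, and integrating by parts twice
  `∫ w y k_π (y - s) dy = (κ (3L - s) - 2 κ (2L - s) + κ (L - s)) / L²`; so the sum over these zeros is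
  bounded by `(C / L²) (N (3L) + 2 N (2L) + N L) ≤ C' L / L² → 0` (`N = N (sg)`, linear bound by `densS`).
* `a_i = 0`: `∫ w y k_0 (y - s) dy ≥ 2 v w s - (1/L²) ∫ |t| |k_0 t| dt`, and if `s ∉ [L, 3L]` at the distance `d` from
  `[L, 3L]` it is `≥ -(C/L²) e^{-sg d}` (`|w (s + t)| ≤ max 0 (|t| - d) / L²`). And the total mass
  `∑_{a_i = 0, s_i ≤ y} e^{-ρ s_i} ≤ C (1 + y)`, `y ≥ 0`: in the proof of `densS`,
  `∑ e^{-ρ s_i} K_{a_i} (y - s_i) ≤ g (y - Y) + C_Y` with `K ≥ 0`, and `K_0 x ≥ c₀ > 0` for all `x ≥ 0` (it increases to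
  `VV ω = v`). So the sum over these zeros is `≥ -(C / L²) ∑_{a_i = 0} e^{-ρ s_i} e^{-sg d_i} ≥ -C'/L → 0`.
Let `L → ∞`: `0 ≤ 3 g_A + g_B`.
-/

namespace HBInf

open HBInd Complex Filter Topology Set MeasureTheory
open scoped Real ComplexConjugate

/-! ### primitives of a kernel dominated by `Psi` -/

/-- the exponential majorant -/
private noncomputable def cr3g (ρ : ℝ) (t : ℝ) : ℝ := (1 + |t|) ^ 2 * Psi 1 ρ t * Real.exp (sg 1 ρ * |t|)

private theorem cr3g_nonneg (ρ t : ℝ) : 0 ≤ cr3g ρ t := by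
  unfold cr3g
  have := Psi_nonneg 1 ρ t
  positivity

private theorem cr3g_int {ρ : ℝ} (h1 : 1 < ρ) (h2 : ρ < 2) : Integrable (cr3g ρ) := by
  apply integrable_psi (p := 1) le_rfl
  · simpa using h1
  · norm_num; linarith

/-- the total mass of the majorant -/
private noncomputable def cr3J (ρ : ℝ) : ℝ := ∫ t, cr3g ρ t

private theorem cr3J_nonneg (ρ : ℝ) : 0 ≤ cr3J ρ := integral_nonneg fun t => cr3g_nonneg ρ t

private theorem cr3_sg {ρ : ℝ} (h1 : 1 < ρ) (h2 : ρ < 2) : 0 < sg 1 ρ := by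
  apply sg_pos (p := 1)
  · simpa using h1
  · norm_num; linarith

/-- `k` is measurable and dominated by `A Psi` -/
private structure Cr3K (ρ : ℝ) (A : ℝ) (k : ℝ → ℝ) : Prop where
  meas : Measurable k
  nn : 0 ≤ A
  le : ∀ t, t ≠ 0 → |k t| ≤ A * Psi 1 ρ t

private theorem cr3_ae_ne (c : ℝ) : ∀ᵐ t : ℝ, t ≠ c := by
  rw [ae_iff]
  simp

private theorem Cr3K.bound {ρ A : ℝ} {k : ℝ → ℝ} (hk : Cr3K ρ A k) {t : ℝ} (ht : t ≠ 0) :
    (1 + |t|) * |k t| ≤ A * cr3g ρ t * Real.exp (-(sg 1 ρ * |t|)) := by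
  have h1 := hk.le t ht
  have h2 := Psi_nonneg 1 ρ t
  have h3 := hk.nn
  have h4 : 0 ≤ |t| := abs_nonneg t
  unfold cr3g
  rw [show A * ((1 + |t|) ^ 2 * Psi 1 ρ t * Real.exp (sg 1 ρ * |t|)) *
      Real.exp (-(sg 1 ρ * |t|)) = A * ((1 + |t|) ^ 2 * Psi 1 ρ t) *
      (Real.exp (sg 1 ρ * |t|) * Real.exp (-(sg 1 ρ * |t|))) by ring, ← Real.exp_add,
    add_neg_cancel, Real.exp_zero, mul_one]
  calc (1 + |t|) * |k t| ≤ (1 + |t|) * (A * Psi 1 ρ t) := by gcongr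
    _ = A * Psi 1 ρ t * (1 + |t|) := by ring
    _ ≤ A * Psi 1 ρ t * (1 + |t|) ^ 2 := by
        gcongr
        nlinarith
    _ = A * ((1 + |t|) ^ 2 * Psi 1 ρ t) := by ring

/-- the basic estimate -/
private theorem Cr3K.est {ρ A : ℝ} (h1 : 1 < ρ) (h2 : ρ < 2) {k : ℝ → ℝ} (hk : Cr3K ρ A k)
    {q : ℝ} {h : ℝ → ℝ}
    (hh : ∀ t, h t = 0 ∨ (|h t| ≤ (1 + |t|) * |k t| ∧ -(sg 1 ρ * |t|) ≤ q)) :
    |∫ t, h t| ≤ A * cr3J ρ * Real.exp q := by
  have hae := cr3_ae_ne 0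
  have h3 : ∀ᵐ t : ℝ, ‖h t‖ ≤ A * cr3g ρ t * Real.exp q := by
    filter_upwards [hae] with t ht
    rw [Real.norm_eq_abs]
    have hA := hk.nn
    have hg := cr3g_nonneg ρ t
    rcases hh t with h0 | ⟨h4, h5⟩
    · rw [h0, abs_zero]
      positivity
    · refine h4.trans ((hk.bound ht).trans ?_)
      gcongr
  have h4 := norm_integral_le_of_norm_le (((cr3g_int h1 h2).const_mul A).mul_const (Real.exp q)) h3
  rw [Real.norm_eq_abs] at h4
  refine h4.trans (le_of_eq ?_)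
  rw [integral_mul_const, integral_const_mul]
  rfl

private theorem Cr3K.dom {ρ A : ℝ} (h1 : 1 < ρ) (h2 : ρ < 2) {k : ℝ → ℝ} (hk : Cr3K ρ A k)
    {h : ℝ → ℝ} (hm : AEStronglyMeasurable h volume)
    (hh : ∀ t, |h t| ≤ (1 + |t|) * |k t|) : Integrable h := by
  have hae := cr3_ae_ne 0
  refine Integrable.mono' ((cr3g_int h1 h2).const_mul A) hm ?_
  filter_upwards [hae] with t ht
  rw [Real.norm_eq_abs]
  refine (hh t).trans ((hk.bound ht).trans ?_)
  have hA := hk.nn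
  have hg := cr3g_nonneg ρ t
  have h3 : Real.exp (-(sg 1 ρ * |t|)) ≤ 1 := by
    rw [Real.exp_le_one_iff]
    have := cr3_sg h1 h2
    have : 0 ≤ sg 1 ρ * |t| := by positivity
    linarith
  calc A * cr3g ρ t * Real.exp (-(sg 1 ρ * |t|)) ≤ A * cr3g ρ t * 1 := by gcongr
    _ = A * cr3g ρ t := mul_one _

private theorem Cr3K.integrable {ρ A : ℝ} (h1 : 1 < ρ) (h2 : ρ < 2) {k : ℝ → ℝ}
    (hk : Cr3K ρ A k) : Integrable k := by
  apply hk.dom h1 h2 hk.meas.aestronglyMeasurable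
  intro t
  have h3 : 0 ≤ |t| := abs_nonneg t
  have h4 : 0 ≤ |k t| := abs_nonneg _
  nlinarith

private theorem Cr3K.integrable_mul {ρ A : ℝ} (h1 : 1 < ρ) (h2 : ρ < 2) {k : ℝ → ℝ}
    (hk : Cr3K ρ A k) : Integrable fun t => t * k t := by
  have hm : Measurable fun t => t * k t := measurable_id.mul hk.meas
  apply hk.dom h1 h2 hm.aestronglyMeasurable
  intro t
  have h3 : 0 ≤ |t| := abs_nonneg t
  have h4 : 0 ≤ |k t| := abs_nonneg _
  rw [abs_mul]
  nlinarith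

/-- the first primitive -/
private noncomputable def cr3P (k : ℝ → ℝ) (x : ℝ) : ℝ := ∫ t in Iic x, k t

/-- the second primitive -/
private noncomputable def cr3Q (k : ℝ → ℝ) (x : ℝ) : ℝ := ∫ t, max (x - t) 0 * k t

private theorem cr3P_eq (k : ℝ → ℝ) (x : ℝ) : cr3P k x = ∫ t, (Iic x).indicator k t := by
  rw [cr3P, integral_indicator measurableSet_Iic]

private theorem Cr3K.P_le {ρ A : ℝ} (h1 : 1 < ρ) (h2 : ρ < 2) {k : ℝ → ℝ} (hk : Cr3K ρ A k)
    (x : ℝ) : |cr3P k x| ≤ A * cr3J ρ * Real.exp (sg 1 ρ * x) := by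
  rw [cr3P_eq]
  apply hk.est h1 h2
  intro t
  by_cases ht : t ∈ Iic x
  · right
    rw [indicator_of_mem ht]
    refine ⟨?_, ?_⟩
    · have h3 : 0 ≤ |t| := abs_nonneg t
      have h4 : 0 ≤ |k t| := abs_nonneg _
      nlinarith
    · have h3 := cr3_sg h1 h2
      have h4 : -|t| ≤ x := le_trans (neg_abs_le t) ht
      nlinarith
  · left
    rw [indicator_of_notMem ht]

private theorem cr3_neg_abs {s t x : ℝ} (hs : 0 < s) (h : |x| ≤ |t|) : -(s * |t|) ≤ -(s * |x|) := by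
  nlinarith

private theorem Cr3K.P_sub {ρ A : ℝ} (h1 : 1 < ρ) (h2 : ρ < 2) {k : ℝ → ℝ} (hk : Cr3K ρ A k)
    (x : ℝ) : |cr3P k x - (if 0 ≤ x then ∫ t, k t else 0)| ≤
      A * cr3J ρ * Real.exp (-(sg 1 ρ * |x|)) := by
  have hs := cr3_sg h1 h2
  by_cases hx : 0 ≤ x
  · rw [if_pos hx, cr3P_eq, ← integral_sub ((hk.integrable h1 h2).indicator measurableSet_Iic)
      (hk.integrable h1 h2)]
    apply hk.est h1 h2
    intro t
    by_cases ht : t ∈ Iic x
    · left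
      rw [indicator_of_mem ht, sub_self]
    · right
      rw [indicator_of_notMem ht, zero_sub, abs_neg]
      have ht' : x < t := not_le.1 ht
      refine ⟨?_, ?_⟩
      · have h3 : 0 ≤ |t| := abs_nonneg t
        have h4 : 0 ≤ |k t| := abs_nonneg _
        nlinarith
      · apply cr3_neg_abs hs
        rw [abs_of_nonneg hx, abs_of_pos (by linarith)]
        exact ht'.le
  · rw [if_neg hx, sub_zero, cr3P_eq]
    have hx' : x < 0 := not_le.1 hx
    apply hk.est h1 h2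
    intro t
    by_cases ht : t ∈ Iic x
    · right
      rw [indicator_of_mem ht]
      have ht' : t ≤ x := ht
      refine ⟨?_, ?_⟩
      · have h3 : 0 ≤ |t| := abs_nonneg t
        have h4 : 0 ≤ |k t| := abs_nonneg _
        nlinarith
      · apply cr3_neg_abs hs
        rw [abs_of_neg hx', abs_of_neg (by linarith)]
        linarith
    · left
      rw [indicator_of_notMem ht]

private theorem Cr3K.integrable_max {ρ A : ℝ} (h1 : 1 < ρ) (h2 : ρ < 2) {k : ℝ → ℝ}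
    (hk : Cr3K ρ A k) (x : ℝ) : Integrable fun t => max (x - t) 0 * k t := by
  have h3 : Integrable fun t => (1 + |x|) * |k t| + |t * k t| :=
    ((hk.integrable h1 h2).abs.const_mul _).add (hk.integrable_mul h1 h2).abs
  refine Integrable.mono' h3
    (((measurable_const.sub measurable_id).max measurable_const).mul
      hk.meas).aestronglyMeasurable ?_
  refine Eventually.of_forall fun t => ?_
  rw [Real.norm_eq_abs, abs_mul, abs_mul]
  have h4 : |max (x - t) 0| ≤ |x| + |t| := by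
    rw [abs_of_nonneg (le_max_right _ _)]
    apply max_le
    · have := le_abs_self x
      have := neg_abs_le t
      linarith
    · positivity
  have h5 : 0 ≤ |k t| := abs_nonneg _
  nlinarith

private theorem Cr3K.Q_sub {ρ A : ℝ} (h1 : 1 < ρ) (h2 : ρ < 2) {k : ℝ → ℝ} (hk : Cr3K ρ A k)
    (x : ℝ) : |cr3Q k x - (if 0 ≤ x then x * (∫ t, k t) - ∫ t, t * k t else 0)| ≤
      A * cr3J ρ * Real.exp (-(sg 1 ρ * |x|)) := by
  have hs := cr3_sg h1 h2
  by_cases hx : 0 ≤ x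
  · have hi : Integrable fun t => x * k t - t * k t :=
      ((hk.integrable h1 h2).const_mul x).sub (hk.integrable_mul h1 h2)
    rw [if_pos hx, cr3Q, ← integral_const_mul, ← integral_sub ((hk.integrable h1 h2).const_mul x)
      (hk.integrable_mul h1 h2), ← integral_sub (hk.integrable_max h1 h2 x) hi]
    apply hk.est h1 h2
    intro t
    by_cases ht : t ≤ x
    · left
      rw [max_eq_left (by linarith)]
      ring
    · right
      have ht' : x < t := not_le.1 ht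
      rw [max_eq_right (by linarith)]
      refine ⟨?_, ?_⟩
      · rw [show (0 : ℝ) * k t - (x * k t - t * k t) = (t - x) * k t by ring, abs_mul,
          abs_of_pos (by linarith : (0 : ℝ) < t - x), abs_of_pos (by linarith : (0 : ℝ) < t)]
        have h4 : 0 ≤ |k t| := abs_nonneg _
        nlinarith
      · apply cr3_neg_abs hs
        rw [abs_of_nonneg hx, abs_of_pos (by linarith)]
        exact ht'.le
  · rw [if_neg hx, sub_zero, cr3Q]
    have hx' : x < 0 := not_le.1 hx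
    apply hk.est h1 h2
    intro t
    by_cases ht : t ≤ x
    · right
      rw [max_eq_left (by linarith)]
      refine ⟨?_, ?_⟩
      · rw [abs_mul, abs_of_nonneg (by linarith : (0 : ℝ) ≤ x - t),
          abs_of_neg (by linarith : t < 0)]
        have h4 : 0 ≤ |k t| := abs_nonneg _
        nlinarith
      · apply cr3_neg_abs hs
        rw [abs_of_neg hx', abs_of_neg (by linarith)]
        linarith
    · left
      rw [max_eq_right (by linarith), zero_mul]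

private theorem Cr3K.hasDerivAt_Q {ρ A : ℝ} (h1 : 1 < ρ) (h2 : ρ < 2) {k : ℝ → ℝ}
    (hk : Cr3K ρ A k) (x : ℝ) : HasDerivAt (cr3Q k) (cr3P k x) x := by
  rw [cr3P_eq]
  refine (hasDerivAt_integral_of_dominated_loc_of_lip (F := fun x t => max (x - t) 0 * k t)
    (bound := fun t => |k t|) (s := Set.univ) univ_mem ?_ (hk.integrable_max h1 h2 x) ?_ ?_
    (hk.integrable h1 h2).abs ?_).2
  · exact Eventually.of_forall fun y => (hk.integrable_max h1 h2 y).aestronglyMeasurable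
  · exact (hk.meas.indicator measurableSet_Iic).aestronglyMeasurable
  · refine Eventually.of_forall fun t => ?_
    refine LipschitzOnWith.of_dist_le_mul fun y _ z _ => ?_
    rw [Real.dist_eq, Real.dist_eq, Real.coe_nnabs, abs_abs, ← sub_mul, abs_mul, mul_comm]
    refine mul_le_mul_of_nonneg_left ?_ (abs_nonneg _)
    have h3 := abs_max_sub_max_le_abs (y - t) (z - t) 0
    rwa [show y - t - (z - t) = y - z by ring] at h3
  · filter_upwards [cr3_ae_ne x] with t ht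
    rcases lt_or_gt_of_ne ht with h | h
    · have h3 : (Iic x).indicator k t = k t := indicator_of_mem (mem_Iic.2 h.le) k
      rw [h3]
      have h4 : HasDerivAt (fun y => (y - t) * k t) (1 * k t) x :=
        ((hasDerivAt_id x).sub_const t).mul_const (k t)
      rw [one_mul] at h4
      refine h4.congr_of_eventuallyEq ?_
      filter_upwards [lt_mem_nhds h] with y hy
      rw [max_eq_left (by linarith)]
    · have h3 : (Iic x).indicator k t = 0 := indicator_of_notMem (fun h' => absurd (mem_Iic.1 h') (not_le.2 h)) k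
      rw [h3]
      refine (hasDerivAt_const x (0 : ℝ)).congr_of_eventuallyEq ?_
      filter_upwards [gt_mem_nhds h] with y hy
      rw [max_eq_right (by linarith), zero_mul]

private theorem Cr3K.P_diff {ρ A : ℝ} (h1 : 1 < ρ) (h2 : ρ < 2) {k : ℝ → ℝ}
    (hk : Cr3K ρ A k) (x y : ℝ) : cr3P k y - cr3P k x = ∫ t in x..y, k t :=
  intervalIntegral.integral_Iic_sub_Iic (hk.integrable h1 h2).integrableOn
    (hk.integrable h1 h2).integrableOn

private theorem Cr3K.continuous_P {ρ A : ℝ} (h1 : 1 < ρ) (h2 : ρ < 2) {k : ℝ → ℝ}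
    (hk : Cr3K ρ A k) : Continuous (cr3P k) := by
  have h3 : cr3P k = fun y => cr3P k 0 + ∫ t in (0 : ℝ)..y, k t := by
    ext y
    rw [← hk.P_diff h1 h2]
    ring
  rw [h3]
  refine continuous_const.add ?_
  exact intervalIntegral.continuous_primitive
    (fun a b => (hk.integrable h1 h2).intervalIntegrable) 0

/-! ### the kernels -/

private theorem cr3_cast {ρ : ℝ} (h1 : 1 < ρ) : ((1 : ℕ) : ℝ) < ρ := by simpa using h1

private theorem cr3_cast' {ρ : ℝ} (h2 : ρ < 2) : ρ < ((1 : ℕ) : ℝ) + 1 := by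
  norm_num; linarith

private theorem cr3_kn (ρ ψ : ℝ) : Cr3K ρ 1 fun t => kn 1 ρ t ψ where
  meas := (measurable_kn 1 ρ).comp (measurable_id.prodMk measurable_const)
  nn := zero_le_one
  le := fun t ht => by rw [one_mul]; exact abs_kn_le le_rfl ρ ht ψ

/-- the combination of the two rays -/
private noncomputable def cr3k (ρ α t : ℝ) : ℝ :=
  3 * kn 1 ρ t (π / (2 * ρ) - α) + kn 1 ρ t (3 * (π / (2 * ρ)) - α)

private theorem cr3_k (ρ α : ℝ) : Cr3K ρ 4 (cr3k ρ α) where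
  meas := ((cr3_kn ρ _).meas.const_mul 3).add (cr3_kn ρ _).meas
  nn := by norm_num
  le := fun t ht => by
    have h1 := (cr3_kn ρ (π / (2 * ρ) - α)).le t ht
    have h2 := (cr3_kn ρ (3 * (π / (2 * ρ)) - α)).le t ht
    unfold cr3k
    calc |3 * kn 1 ρ t (π / (2 * ρ) - α) + kn 1 ρ t (3 * (π / (2 * ρ)) - α)|
        ≤ |3 * kn 1 ρ t (π / (2 * ρ) - α)| + |kn 1 ρ t (3 * (π / (2 * ρ)) - α)| := abs_add_le _ _
      _ = 3 * |kn 1 ρ t (π / (2 * ρ) - α)| + |kn 1 ρ t (3 * (π / (2 * ρ)) - α)| := by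
          rw [abs_mul]; norm_num
      _ ≤ 4 * Psi 1 ρ t := by linarith

private theorem cr3_P_k {ρ : ℝ} (h1 : 1 < ρ) (h2 : ρ < 2) (α x : ℝ) :
    cr3P (cr3k ρ α) x = 3 * cr3P (fun t => kn 1 ρ t (π / (2 * ρ) - α)) x +
      cr3P (fun t => kn 1 ρ t (3 * (π / (2 * ρ)) - α)) x := by
  unfold cr3P cr3k
  rw [integral_add, integral_const_mul]
  · exact (((cr3_kn ρ _).integrable h1 h2).const_mul 3).integrableOn
  · exact ((cr3_kn ρ _).integrable h1 h2).integrableOn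

private theorem cr3_int_k {ρ : ℝ} (h1 : 1 < ρ) (h2 : ρ < 2) (α : ℝ) :
    ∫ t, cr3k ρ α t = 3 * VV 1 ρ (π / (2 * ρ) - α) + VV 1 ρ (3 * (π / (2 * ρ)) - α) := by
  unfold cr3k VV
  rw [integral_add, integral_const_mul]
  · exact ((cr3_kn ρ _).integrable h1 h2).const_mul 3
  · exact (cr3_kn ρ _).integrable h1 h2

private theorem cr3_int_mul_k {ρ : ℝ} (h1 : 1 < ρ) (h2 : ρ < 2) (α : ℝ) :
    ∫ t, t * cr3k ρ α t = -(3 * WW 1 ρ (π / (2 * ρ) - α) + WW 1 ρ (3 * (π / (2 * ρ)) - α)) := by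
  have h3 : ∀ t, t * cr3k ρ α t = 3 * (t * kn 1 ρ t (π / (2 * ρ) - α)) +
      t * kn 1 ρ t (3 * (π / (2 * ρ)) - α) := by
    intro t
    unfold cr3k
    ring
  simp_rw [h3]
  rw [integral_add, integral_const_mul]
  · unfold WW
    ring
  · exact ((cr3_kn ρ _).integrable_mul h1 h2).const_mul 3
  · exact (cr3_kn ρ _).integrable_mul h1 h2

/-! ### the values of the potentials -/

private theorem cr3_om {ρ : ℝ} (h1 : 1 < ρ) : 0 < π / (2 * ρ) ∧ ρ * (π / (2 * ρ)) = π / 2 := by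
  have hpi := Real.pi_pos
  constructor
  · positivity
  · field_simp

private theorem cr3_V1 {ρ : ℝ} (h1 : 1 < ρ) (h2 : ρ < 2) (hω : 3 * (π / (2 * ρ)) ≤ π) :
    VV 1 ρ (π / (2 * ρ) - π) = 0 := by
  obtain ⟨h3, h4⟩ := cr3_om h1
  rw [VV_eq le_rfl (cr3_cast h1) (cr3_cast' h2), G_of_abs_le, abs_of_nonpos (by linarith),
    show ρ * (π - -(π / (2 * ρ) - π)) = ρ * (π / (2 * ρ)) by ring, h4, Real.cos_pi_div_two, mul_zero]
  rw [abs_of_nonpos (by linarith)]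
  linarith

private theorem cr3_V2 {ρ : ℝ} (h1 : 1 < ρ) (h2 : ρ < 2) (hω : 3 * (π / (2 * ρ)) ≤ π) :
    VV 1 ρ (3 * (π / (2 * ρ)) - π) = 0 := by
  obtain ⟨h3, h4⟩ := cr3_om h1
  rw [VV_eq le_rfl (cr3_cast h1) (cr3_cast' h2), G_of_abs_le, abs_of_nonpos (by linarith),
    show ρ * (π - -(3 * (π / (2 * ρ)) - π)) = 3 * (ρ * (π / (2 * ρ))) by ring, h4,
    show 3 * (π / 2) = π + π / 2 by ring, Real.cos_add, Real.cos_pi_div_two, Real.sin_pi]
  · ring
  · rw [abs_of_nonpos (by linarith)]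
    linarith

private theorem cr3_sin_neg {ρ : ℝ} (h1 : 1 < ρ) (h2 : ρ < 2) : Real.sin (ρ * π) < 0 := by
  have hpi := Real.pi_pos
  rw [show ρ * π = (ρ - 1) * π + π by ring, Real.sin_add_pi, neg_lt_zero]
  apply Real.sin_pos_of_pos_of_lt_pi
  · nlinarith
  · nlinarith

private theorem cr3_V3 {ρ : ℝ} (h1 : 1 < ρ) (h2 : ρ < 2) (hω : 3 * (π / (2 * ρ)) ≤ π) :
    VV 1 ρ (π / (2 * ρ)) = VV 1 ρ π * Real.sin (ρ * π) := by
  obtain ⟨h3, h4⟩ := cr3_om h1
  rw [VV_eq le_rfl (cr3_cast h1) (cr3_cast' h2), G_of_abs_le, abs_of_pos h3,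
    show ρ * (π - π / (2 * ρ)) = ρ * π - ρ * (π / (2 * ρ)) by ring, h4, Real.cos_sub,
    Real.cos_pi_div_two, Real.sin_pi_div_two]
  · ring
  · rw [abs_of_pos h3]
    linarith

private theorem cr3_V4 {ρ : ℝ} (h1 : 1 < ρ) (h2 : ρ < 2) (hω : 3 * (π / (2 * ρ)) ≤ π) :
    VV 1 ρ (3 * (π / (2 * ρ))) = -(VV 1 ρ π * Real.sin (ρ * π)) := by
  obtain ⟨h3, h4⟩ := cr3_om h1
  rw [VV_eq le_rfl (cr3_cast h1) (cr3_cast' h2), G_of_abs_le, abs_of_pos (by linarith),
    show ρ * (π - 3 * (π / (2 * ρ))) = ρ * π - 3 * (ρ * (π / (2 * ρ))) by ring, h4, Real.cos_sub,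
    show 3 * (π / 2) = π + π / 2 by ring, Real.cos_add, Real.sin_add, Real.cos_pi_div_two,
    Real.sin_pi_div_two, Real.sin_pi, Real.cos_pi]
  · ring
  · rw [abs_of_pos (by linarith)]
    linarith

private theorem cr3_v_pos {ρ : ℝ} (h1 : 1 < ρ) (h2 : ρ < 2) (hω : 3 * (π / (2 * ρ)) ≤ π) :
    0 < VV 1 ρ (π / (2 * ρ)) := by
  rw [cr3_V3 h1 h2 hω]
  exact mul_pos_of_neg_of_neg (VV_pi_one h1 h2) (cr3_sin_neg h1 h2)

private theorem cr3_int_k_zero {ρ : ℝ} (h1 : 1 < ρ) (h2 : ρ < 2) (hω : 3 * (π / (2 * ρ)) ≤ π) :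
    0 ≤ ∫ t, cr3k ρ 0 t := by
  have h3 := cr3_v_pos h1 h2 hω
  rw [cr3_int_k h1 h2, sub_zero, sub_zero, cr3_V4 h1 h2 hω]
  rw [cr3_V3 h1 h2 hω] at h3 ⊢
  linarith

private theorem cr3_int_k_pi {ρ : ℝ} (h1 : 1 < ρ) (h2 : ρ < 2) (hω : 3 * (π / (2 * ρ)) ≤ π) :
    ∫ t, cr3k ρ π t = 0 := by
  rw [cr3_int_k h1 h2, cr3_V1 h1 h2 hω, cr3_V2 h1 h2 hω]
  ring

private theorem cr3_int_mul_k_pi {ρ : ℝ} (h1 : 1 < ρ) (h2 : ρ < 2) (hω : 3 * (π / (2 * ρ)) ≤ π) :
    ∫ t, t * cr3k ρ π t = 0 := by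
  obtain ⟨h3, h4⟩ := cr3_om h1
  have hpi := Real.pi_pos
  have ha1 : |π / (2 * ρ) - π| = π - π / (2 * ρ) := by
    rw [abs_of_nonpos (by linarith)]; ring
  have ha2 : |3 * (π / (2 * ρ)) - π| = π - 3 * (π / (2 * ρ)) := by
    rw [abs_of_nonpos (by linarith)]; ring
  have hw1 := WW_eq (ψ := π / (2 * ρ) - π) le_rfl (cr3_cast h1) (cr3_cast' h2)
    (by rw [ha1]; linarith)
  have hw2 := WW_eq (ψ := 3 * (π / (2 * ρ)) - π) le_rfl (cr3_cast h1) (cr3_cast' h2)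
    (by rw [ha2]; linarith)
  rw [cr3_int_mul_k h1 h2, hw1, hw2, ha1, ha2,
    show π - (π - π / (2 * ρ)) = π / (2 * ρ) by ring,
    show π - (π - 3 * (π / (2 * ρ))) = 3 * (π / (2 * ρ)) by ring,
    show ρ * (3 * (π / (2 * ρ))) = 3 * (ρ * (π / (2 * ρ))) by ring, h4,
    show 3 * (π / 2) = π + π / 2 by ring, Real.cos_add, Real.sin_add, Real.cos_pi_div_two,
    Real.sin_pi_div_two, Real.sin_pi, Real.cos_pi]
  ring

/-! ### the sums -/

variable {ρ : ℝ} {ι : Type}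

private theorem cr3_summable_exp (h1 : 1 < ρ) (h2 : ρ < 2) (D : ZD 1 ρ ι) (y : ℝ) :
    Summable fun i => Real.exp (-ρ * D.s i) * Real.exp (sg 1 ρ * (y - D.s i)) := by
  have h3 := (D.sum (ρ + sg 1 ρ) (by have := cr3_sg h1 h2; linarith)).mul_left
    (Real.exp (sg 1 ρ * y))
  refine h3.congr fun i => ?_
  rw [← Real.exp_add, ← Real.exp_add]
  congr 1
  ring

private theorem cr3_summable_P (h1 : 1 < ρ) (h2 : ρ < 2) (D : ZD 1 ρ ι) {A : ℝ} {k : ι → ℝ → ℝ}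
    (hk : ∀ i, Cr3K ρ A (k i)) (y : ℝ) :
    Summable fun i => Real.exp (-ρ * D.s i) * cr3P (k i) (y - D.s i) := by
  refine Summable.of_norm_bounded (g := fun i => A * cr3J ρ *
    (Real.exp (-ρ * D.s i) * Real.exp (sg 1 ρ * (y - D.s i))))
    ((cr3_summable_exp h1 h2 D y).mul_left _) fun i => ?_
  rw [Real.norm_eq_abs, abs_mul, abs_of_pos (Real.exp_pos _)]
  have h3 := (hk i).P_le h1 h2 (y - D.s i)
  calc Real.exp (-ρ * D.s i) * |cr3P (k i) (y - D.s i)|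
      ≤ Real.exp (-ρ * D.s i) * (A * cr3J ρ * Real.exp (sg 1 ρ * (y - D.s i))) := by gcongr
    _ = _ := by ring

/-- the integrated potential -/
private noncomputable def cr3T (D : ZD 1 ρ ι) (θ y : ℝ) : ℝ :=
  ∑' i, Real.exp (-ρ * D.s i) * cr3P (fun t => kn 1 ρ t (θ - D.a i)) (y - D.s i)

private theorem cr3_T_sub (h1 : 1 < ρ) (h2 : ρ < 2) (D : ZD 1 ρ ι) (θ : ℝ) {y y' : ℝ}
    (hy : y ≤ y') : IntervalIntegrable (fun t => Real.exp (-ρ * t) * D.U t θ) volume y y' ∧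
      ∫ t in y..y', Real.exp (-ρ * t) * D.U t θ = cr3T D θ y' - cr3T D θ y := by
  obtain ⟨h3, -, h5⟩ := D.U_int le_rfl (cr3_cast h1) (cr3_cast' h2) θ y y' hy
  refine ⟨h3, ?_⟩
  rw [h5]
  unfold cr3T
  rw [← (cr3_summable_P h1 h2 D (fun i => cr3_kn ρ (θ - D.a i)) y').tsum_sub
    (cr3_summable_P h1 h2 D (fun i => cr3_kn ρ (θ - D.a i)) y)]
  refine tsum_congr fun i => ?_
  rw [← mul_sub, (cr3_kn ρ (θ - D.a i)).P_diff h1 h2,
    intervalIntegral.integral_comp_sub_right (fun t => kn 1 ρ t (θ - D.a i))]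

private theorem cr3_T_le (h1 : 1 < ρ) (h2 : ρ < 2) (D : ZD 1 ρ ι) {θ g : ℝ} (hU : D.UB θ g) :
    ∃ Y : ℝ, ∀ y y', Y ≤ y → y ≤ y' → cr3T D θ y' - cr3T D θ y ≤ g * (y' - y) := by
  obtain ⟨Y, hY⟩ := hU
  refine ⟨Y, fun y y' hYy hyy' => ?_⟩
  obtain ⟨h3, h4⟩ := cr3_T_sub h1 h2 D θ hyy'
  rw [← h4]
  have h5 : ∫ t in y..y', Real.exp (-ρ * t) * D.U t θ ≤ ∫ _t in y..y', g := by
    apply intervalIntegral.integral_mono_ae_restrict hyy' h3 intervalIntegrable_const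
    rw [EventuallyLE, ae_restrict_iff' measurableSet_Icc]
    filter_upwards [hY] with t ht htm
    have h6 := ht (hYy.trans htm.1)
    have h7 : Real.exp (-ρ * t) * D.U t θ ≤ Real.exp (-ρ * t) * (g * Real.exp (ρ * t)) := by
      gcongr
    refine h7.trans (le_of_eq ?_)
    rw [show Real.exp (-ρ * t) * (g * Real.exp (ρ * t)) =
      g * (Real.exp (-ρ * t) * Real.exp (ρ * t)) by ring, ← Real.exp_add,
      show -ρ * t + ρ * t = 0 by ring, Real.exp_zero, mul_one]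
  rw [intervalIntegral.integral_const, smul_eq_mul] at h5
  linarith

/-- indicator of the zeros on the positive axis with `s i ≤ y` -/
private noncomputable def cr3M (D : ZD 1 ρ ι) (y : ℝ) (i : ι) : ℝ :=
  open Classical in if D.a i = 0 ∧ D.s i ≤ y then Real.exp (-ρ * D.s i) else 0

private theorem cr3M_nonneg (D : ZD 1 ρ ι) (y : ℝ) (i : ι) : 0 ≤ cr3M D y i := by
  unfold cr3M
  split_ifs
  · positivity
  · exact le_rfl

private theorem cr3_N_summable (h1 : 1 < ρ) (h2 : ρ < 2) (D : ZD 1 ρ ι) (y : ℝ) :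
    Summable fun i => Real.exp (-ρ * D.s i) * Real.exp (-(sg 1 ρ * |y - D.s i|)) := by
  refine (D.N_summable (cr3_sg h1 h2) y).congr fun i => ?_
  rw [neg_mul (sg 1 ρ)]

private theorem cr3_N_eq (D : ZD 1 ρ ι) (y : ℝ) :
    ∑' i, Real.exp (-ρ * D.s i) * Real.exp (-(sg 1 ρ * |y - D.s i|)) = D.N (sg 1 ρ) y := by
  unfold ZD.N
  refine tsum_congr fun i => ?_
  rw [neg_mul (sg 1 ρ)]

private theorem cr3_M_le (h1 : 1 < ρ) (h2 : ρ < 2) (hω : 3 * (π / (2 * ρ)) ≤ π) (D : ZD 1 ρ ι)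
    (y : ℝ) : (Summable fun i => cr3M D y i) ∧ VV 1 ρ (π / (2 * ρ)) * ∑' i, cr3M D y i ≤
      cr3T D (π / (2 * ρ)) y + cr3J ρ * D.N (sg 1 ρ) y := by
  have hv := cr3_v_pos h1 h2 hω
  have h3 : ∀ i, VV 1 ρ (π / (2 * ρ)) * cr3M D y i ≤
      Real.exp (-ρ * D.s i) * cr3P (fun t => kn 1 ρ t (π / (2 * ρ) - D.a i)) (y - D.s i) +
        cr3J ρ * (Real.exp (-ρ * D.s i) * Real.exp (-(sg 1 ρ * |y - D.s i|))) := by
    intro i
    have h4 := (cr3_kn ρ (π / (2 * ρ) - D.a i)).P_sub h1 h2 (y - D.s i)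
    rw [abs_le] at h4
    have h5 := h4.1
    have h6 : ∫ t, kn 1 ρ t (π / (2 * ρ) - D.a i) = VV 1 ρ (π / (2 * ρ) - D.a i) := rfl
    rw [h6, one_mul] at h5
    have h7 : 0 < Real.exp (-ρ * D.s i) := Real.exp_pos _
    have h8 : (if 0 ≤ y - D.s i then VV 1 ρ (π / (2 * ρ) - D.a i) else 0) * Real.exp (-ρ * D.s i) =
        VV 1 ρ (π / (2 * ρ)) * cr3M D y i := by
      rcases (D.ha i).2 rfl with ha | ha
      · unfold cr3M
        rw [ha, sub_zero]
        by_cases hs : D.s i ≤ y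
        · rw [if_pos (sub_nonneg.2 hs), if_pos ⟨rfl, hs⟩]
        · rw [if_neg (fun h => hs (sub_nonneg.1 h)), if_neg (fun h => hs h.2), zero_mul, mul_zero]
      · have h9 : cr3M D y i = 0 := by
          unfold cr3M
          rw [if_neg]
          intro h
          rw [ha] at h
          exact Real.pi_pos.ne' h.1
        rw [h9, ha, cr3_V1 h1 h2 hω, mul_zero]
        split_ifs <;> simp
    nlinarith
  have hs1 := cr3_summable_P h1 h2 D (fun i => cr3_kn ρ (π / (2 * ρ) - D.a i)) y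
  have hs2 := (cr3_N_summable h1 h2 D y).mul_left (cr3J ρ)
  have hs3 : Summable fun i => VV 1 ρ (π / (2 * ρ)) * cr3M D y i :=
    Summable.of_nonneg_of_le (fun i => mul_nonneg hv.le (cr3M_nonneg D y i)) h3 (hs1.add hs2)
  refine ⟨(summable_mul_left_iff hv.ne').1 hs3, ?_⟩
  rw [← tsum_mul_left]
  refine (hs3.tsum_le_tsum h3 (hs1.add hs2)).trans (le_of_eq ?_)
  rw [hs1.tsum_add hs2, tsum_mul_left, cr3_N_eq]
  rfl

/-- the integrated combination -/
private noncomputable def cr3S (D : ZD 1 ρ ι) (y : ℝ) : ℝ :=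
  ∑' i, Real.exp (-ρ * D.s i) * cr3P (cr3k ρ (D.a i)) (y - D.s i)

private theorem cr3_S_eq (h1 : 1 < ρ) (h2 : ρ < 2) (D : ZD 1 ρ ι) (y : ℝ) :
    cr3S D y = 3 * cr3T D (π / (2 * ρ)) y + cr3T D (3 * (π / (2 * ρ))) y := by
  have hs1 := cr3_summable_P h1 h2 D (fun i => cr3_kn ρ (π / (2 * ρ) - D.a i)) y
  have hs2 := cr3_summable_P h1 h2 D (fun i => cr3_kn ρ (3 * (π / (2 * ρ)) - D.a i)) y
  unfold cr3S cr3T
  rw [← tsum_mul_left, ← (hs1.mul_left 3).tsum_add hs2]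
  refine tsum_congr fun i => ?_
  rw [cr3_P_k h1 h2]
  ring

private theorem cr3_S_bound (h1 : 1 < ρ) (h2 : ρ < 2) (D : ZD 1 ρ ι) (i : ι) {y z : ℝ}
    (h : y ≤ z) : ‖Real.exp (-ρ * D.s i) * cr3P (cr3k ρ (D.a i)) (y - D.s i)‖ ≤
      4 * cr3J ρ * (Real.exp (-ρ * D.s i) * Real.exp (sg 1 ρ * (z - D.s i))) := by
  rw [Real.norm_eq_abs, abs_mul, abs_of_pos (Real.exp_pos _)]
  have h3 := (cr3_k ρ (D.a i)).P_le h1 h2 (y - D.s i)
  have hJ := cr3J_nonneg ρ
  have hs := cr3_sg h1 h2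
  calc Real.exp (-ρ * D.s i) * |cr3P (cr3k ρ (D.a i)) (y - D.s i)|
      ≤ Real.exp (-ρ * D.s i) * (4 * cr3J ρ * Real.exp (sg 1 ρ * (y - D.s i))) := by gcongr
    _ ≤ Real.exp (-ρ * D.s i) * (4 * cr3J ρ * Real.exp (sg 1 ρ * (z - D.s i))) := by gcongr
    _ = _ := by ring

private theorem cr3_S_cont (h1 : 1 < ρ) (h2 : ρ < 2) (D : ZD 1 ρ ι) (a b : ℝ) :
    ContinuousOn (cr3S D) (Icc a b) := by
  unfold cr3S
  refine continuousOn_tsum (u := fun i => 4 * cr3J ρ *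
    (Real.exp (-ρ * D.s i) * Real.exp (sg 1 ρ * (b - D.s i)))) ?_
    ((cr3_summable_exp h1 h2 D b).mul_left _) ?_
  · intro i
    refine Continuous.continuousOn ?_
    exact continuous_const.mul (((cr3_k ρ (D.a i)).continuous_P h1 h2).comp
      (continuous_id.sub continuous_const))
  · intro i y hy
    exact cr3_S_bound h1 h2 D i hy.2

private theorem cr3_R (h1 : 1 < ρ) (h2 : ρ < 2) (D : ZD 1 ρ ι) {L : ℝ} (hL : 0 ≤ L) :
    HasSum (fun i => Real.exp (-ρ * D.s i) * (cr3Q (cr3k ρ (D.a i)) (2 * L - D.s i) -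
      cr3Q (cr3k ρ (D.a i)) (L - D.s i))) (∫ y in L..(2 * L), cr3S D y) := by
  have hc : Countable ι := D.countable
  have hLL : L ≤ 2 * L := by linarith
  have key := intervalIntegral.hasSum_integral_of_dominated_convergence (μ := volume)
    (a := L) (b := 2 * L)
    (F := fun i t => Real.exp (-ρ * D.s i) * cr3P (cr3k ρ (D.a i)) (t - D.s i))
    (f := cr3S D)
    (fun i _ => 4 * cr3J ρ * (Real.exp (-ρ * D.s i) * Real.exp (sg 1 ρ * (2 * L - D.s i))))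
    (fun i => ?_) (fun i => ?_) ?_ ?_ ?_
  · have he : (fun i => Real.exp (-ρ * D.s i) * (cr3Q (cr3k ρ (D.a i)) (2 * L - D.s i) -
        cr3Q (cr3k ρ (D.a i)) (L - D.s i))) = fun i => ∫ t in L..(2 * L),
        Real.exp (-ρ * D.s i) * cr3P (cr3k ρ (D.a i)) (t - D.s i) := by
      ext i
      rw [intervalIntegral.integral_const_mul,
        intervalIntegral.integral_comp_sub_right (fun t => cr3P (cr3k ρ (D.a i)) t),
        intervalIntegral.integral_eq_sub_of_hasDerivAt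
          (fun x _ => (cr3_k ρ (D.a i)).hasDerivAt_Q h1 h2 x)
          (((cr3_k ρ (D.a i)).continuous_P h1 h2).intervalIntegrable _ _)]
    rw [he]
    exact key
  · exact (continuous_const.mul (((cr3_k ρ (D.a i)).continuous_P h1 h2).comp
      (continuous_id.sub continuous_const))).aestronglyMeasurable
  · refine Eventually.of_forall fun t ht => ?_
    rw [uIoc_of_le hLL] at ht
    exact cr3_S_bound h1 h2 D i ht.2
  · exact Eventually.of_forall fun t _ => (cr3_summable_exp h1 h2 D (2 * L)).mul_left _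
  · exact intervalIntegrable_const
  · refine Eventually.of_forall fun t _ => ?_
    exact (cr3_summable_P h1 h2 D (fun i => cr3_k ρ (D.a i)) t).hasSum

/-- the lower bound of one term -/
private theorem cr3_term (h1 : 1 < ρ) (h2 : ρ < 2) (hω : 3 * (π / (2 * ρ)) ≤ π) (D : ZD 1 ρ ι)
    {L : ℝ} (hL : 0 ≤ L) (i : ι) :
    -(|∫ t, t * cr3k ρ 0 t| * cr3M D (2 * L) i) -
      4 * cr3J ρ * (Real.exp (-ρ * D.s i) * Real.exp (-(sg 1 ρ * |2 * L - D.s i|))) -
      4 * cr3J ρ * (Real.exp (-ρ * D.s i) * Real.exp (-(sg 1 ρ * |L - D.s i|))) ≤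
    Real.exp (-ρ * D.s i) * (cr3Q (cr3k ρ (D.a i)) (2 * L - D.s i) -
      cr3Q (cr3k ρ (D.a i)) (L - D.s i)) := by
  have hE : 0 < Real.exp (-ρ * D.s i) := Real.exp_pos _
  have h3 := (abs_le.1 ((cr3_k ρ (D.a i)).Q_sub h1 h2 (2 * L - D.s i))).1
  have h4 := (abs_le.1 ((cr3_k ρ (D.a i)).Q_sub h1 h2 (L - D.s i))).2
  have h5 : -(|∫ t, t * cr3k ρ 0 t| * cr3M D (2 * L) i) ≤ Real.exp (-ρ * D.s i) *
      ((if 0 ≤ 2 * L - D.s i then (2 * L - D.s i) * (∫ t, cr3k ρ (D.a i) t) -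
        ∫ t, t * cr3k ρ (D.a i) t else 0) -
      (if 0 ≤ L - D.s i then (L - D.s i) * (∫ t, cr3k ρ (D.a i) t) -
        ∫ t, t * cr3k ρ (D.a i) t else 0)) := by
    rcases (D.ha i).2 rfl with ha | ha
    · rw [ha]
      have hk := cr3_int_k_zero h1 h2 hω
      have hm := le_abs_self (∫ t, t * cr3k ρ 0 t)
      have hm' := abs_nonneg (∫ t, t * cr3k ρ 0 t)
      by_cases hs : D.s i ≤ 2 * L
      · have h6 : cr3M D (2 * L) i = Real.exp (-ρ * D.s i) := by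
          unfold cr3M
          rw [if_pos ⟨ha, hs⟩]
        rw [h6, if_pos (sub_nonneg.2 hs)]
        by_cases hs' : D.s i ≤ L
        · rw [if_pos (sub_nonneg.2 hs')]
          have h7 : 0 ≤ Real.exp (-ρ * D.s i) * (L * ∫ t, cr3k ρ 0 t) := by positivity
          have h8 : 0 ≤ |∫ t, t * cr3k ρ 0 t| * Real.exp (-ρ * D.s i) := by positivity
          nlinarith
        · rw [if_neg (fun h => hs' (sub_nonneg.1 h))]
          have h7 : 0 ≤ Real.exp (-ρ * D.s i) * ((2 * L - D.s i) * ∫ t, cr3k ρ 0 t) := by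
            have := sub_nonneg.2 hs
            positivity
          nlinarith
      · have h6 : cr3M D (2 * L) i = 0 := by
          unfold cr3M
          rw [if_neg (fun h => hs h.2)]
        rw [h6, if_neg (fun h => hs (sub_nonneg.1 h)),
          if_neg (fun h => hs (by linarith [sub_nonneg.1 h]))]
        simp
    · have h6 : cr3M D (2 * L) i = 0 := by
        unfold cr3M
        rw [if_neg]
        intro h
        rw [ha] at h
        exact Real.pi_pos.ne' h.1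
      rw [h6, ha, cr3_int_k_pi h1 h2 hω, cr3_int_mul_k_pi h1 h2 hω]
      simp
  nlinarith

private theorem cr3_lower (h1 : 1 < ρ) (h2 : ρ < 2) (hω : 3 * (π / (2 * ρ)) ≤ π) (D : ZD 1 ρ ι)
    {L : ℝ} (hL : 0 ≤ L) :
    -(|∫ t, t * cr3k ρ 0 t| * ∑' i, cr3M D (2 * L) i) -
      4 * cr3J ρ * D.N (sg 1 ρ) (2 * L) - 4 * cr3J ρ * D.N (sg 1 ρ) L ≤
      ∫ y in L..(2 * L), cr3S D y := by
  have hR := cr3_R h1 h2 D hL
  have hM := (cr3_M_le h1 h2 hω D (2 * L)).1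
  have hs := ((hM.mul_left (|∫ t, t * cr3k ρ 0 t|)).neg.sub
    ((cr3_N_summable h1 h2 D (2 * L)).mul_left (4 * cr3J ρ))).sub
    ((cr3_N_summable h1 h2 D L).mul_left (4 * cr3J ρ))
  have h3 := hs.tsum_le_tsum (fun i => cr3_term h1 h2 hω D hL i) hR.summable
  rw [hR.tsum_eq] at h3
  refine le_trans (le_of_eq ?_) h3
  rw [((hM.mul_left (|∫ t, t * cr3k ρ 0 t|)).neg.sub
    ((cr3_N_summable h1 h2 D (2 * L)).mul_left (4 * cr3J ρ))).tsum_sub
    ((cr3_N_summable h1 h2 D L).mul_left (4 * cr3J ρ)),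
    (hM.mul_left (|∫ t, t * cr3k ρ 0 t|)).neg.tsum_sub
    ((cr3_N_summable h1 h2 D (2 * L)).mul_left (4 * cr3J ρ)), tsum_neg, tsum_mul_left,
    tsum_mul_left, tsum_mul_left, cr3_N_eq, cr3_N_eq]

private theorem cr3_upper (h1 : 1 < ρ) (h2 : ρ < 2) (D : ZD 1 ρ ι) {Y G : ℝ} (hY : 0 ≤ Y)
    (hS : ∀ y, Y ≤ y → cr3S D y ≤ cr3S D Y + G * (y - Y)) {L : ℝ} (hL : Y ≤ L) :
    ∫ y in L..(2 * L), cr3S D y ≤ L * cr3S D Y + G * (3 / 2 * L ^ 2 - L * Y) := by
  have hL0 : 0 ≤ L := hY.trans hL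
  have hLL : L ≤ 2 * L := by linarith
  have hc1 : IntervalIntegrable (cr3S D) volume L (2 * L) := by
    apply ContinuousOn.intervalIntegrable
    rw [uIcc_of_le hLL]
    exact cr3_S_cont h1 h2 D _ _
  have hc2 : IntervalIntegrable (fun y => cr3S D Y + G * (y - Y)) volume L (2 * L) :=
    Continuous.intervalIntegrable (by fun_prop) _ _
  have h3 := intervalIntegral.integral_mono_on hLL hc1 hc2
    (fun y hy => hS y (hL.trans hy.1))
  refine h3.trans (le_of_eq ?_)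
  have h4 : ∀ y ∈ uIcc L (2 * L), HasDerivAt (fun y => cr3S D Y * y + G * (y ^ 2 / 2 - Y * y))
      (cr3S D Y + G * (y - Y)) y := by
    intro y _
    have h5 : HasDerivAt (fun y => cr3S D Y * y + G * (y ^ 2 / 2 - Y * y))
        (cr3S D Y * 1 + G * (2 * y ^ (2 - 1) * 1 / 2 - Y * 1)) y :=
      ((hasDerivAt_id y).const_mul _).add
        ((((hasDerivAt_id y).pow 2).div_const 2 |>.sub ((hasDerivAt_id y).const_mul Y)).const_mul G)
    convert h5 using 1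
    ring
  rw [intervalIntegral.integral_eq_sub_of_hasDerivAt h4 hc2]
  ring

private theorem cr3_final {G p q Y : ℝ} (h : ∀ L, Y ≤ L → -G * (3 / 2 * L ^ 2) ≤ p * L + q) :
    0 ≤ G := by
  by_contra hG
  rw [not_le] at hG
  set c := -G * (3 / 2) with hc
  have hc0 : 0 < c := by rw [hc]; linarith
  set L := max Y (max 1 ((|p| + |q| + 1) / c)) with hLdef
  have hL1 : 1 ≤ L := (le_max_left _ _).trans (le_max_right _ _)
  have hL2 : (|p| + |q| + 1) / c ≤ L := (le_max_right _ _).trans (le_max_right _ _)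
  rw [div_le_iff₀ hc0] at hL2
  have h3 := h L (le_max_left _ _)
  have h4 : c * L ^ 2 ≤ p * L + q := by rw [hc]; linarith
  have h5 := le_abs_self p
  have h6 := le_abs_self q
  have h7 := abs_nonneg p
  have h8 := abs_nonneg q
  have h9 : (|p| + |q| + 1) * L ≤ L * c * L := mul_le_mul_of_nonneg_right hL2 (by linarith)
  have h10 : p * L ≤ |p| * L := mul_le_mul_of_nonneg_right h5 (by linarith)
  have h11 : |q| ≤ |q| * L := le_mul_of_one_le_right h8 hL1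
  nlinarith

theorem critThree {ρ : ℝ} (h1 : 1 < ρ) (h2 : ρ < 2) {ι : Type} (D : ZD 1 ρ ι) {gA gB : ℝ}
    (hω : 3 * (π / (2 * ρ)) ≤ π) (hA : D.UB (π / (2 * ρ)) gA) (hB : D.UB (3 * (π / (2 * ρ))) gB) :
    0 ≤ 3 * gA + gB := by
  obtain ⟨hgA, B, hN⟩ := densS h1 h2 D (θ := π / (2 * ρ)) ⟨0, Or.inl (by simp)⟩ hA
  obtain ⟨YA, hYA⟩ := cr3_T_le h1 h2 D hA
  obtain ⟨YB, hYB⟩ := cr3_T_le h1 h2 D hB
  set Y := max (max YA YB) 0 with hY
  have hY0 : 0 ≤ Y := le_max_right _ _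
  have hYA' : YA ≤ Y := (le_max_left _ _).trans (le_max_left _ _)
  have hYB' : YB ≤ Y := (le_max_right _ _).trans (le_max_left _ _)
  have hS : ∀ y, Y ≤ y → cr3S D y ≤ cr3S D Y + (3 * gA + gB) * (y - Y) := by
    intro y hy
    rw [cr3_S_eq h1 h2, cr3_S_eq h1 h2]
    have h3 := hYA Y y hYA' hy
    have h4 := hYB Y y hYB' hy
    linarith
  have hv := cr3_v_pos h1 h2 hω
  have hJ := cr3J_nonneg ρ
  set m := |∫ t, t * cr3k ρ 0 t| with hm
  have hm0 : 0 ≤ m := abs_nonneg _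
  set v := VV 1 ρ (π / (2 * ρ)) with hvdef
  set a := m / v with ha
  have ha0 : 0 ≤ a := by positivity
  apply cr3_final (G := 3 * gA + gB)
    (p := cr3S D Y - (3 * gA + gB) * Y + a * (2 * gA + 2 * cr3J ρ * B) + 12 * cr3J ρ * B)
    (q := a * (cr3T D (π / (2 * ρ)) Y - gA * Y + cr3J ρ * B) + 8 * cr3J ρ * B) (Y := Y)
  intro L hL
  have hL0 : 0 ≤ L := hY0.trans hL
  have h3 := cr3_lower h1 h2 hω D hL0
  have h4 := cr3_upper h1 h2 D hY0 hS hL
  have h5 := (cr3_M_le h1 h2 hω D (2 * L)).2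
  have h6 := hYA Y (2 * L) hYA' (by linarith)
  have h7 := hN (2 * L)
  have h8 := hN L
  rw [abs_of_nonneg (by linarith : (0 : ℝ) ≤ 2 * L)] at h7
  rw [abs_of_nonneg hL0] at h8
  have h9 : m * ∑' i, cr3M D (2 * L) i = a * (v * ∑' i, cr3M D (2 * L) i) := by
    rw [ha]
    field_simp
  have h10 : a * (v * ∑' i, cr3M D (2 * L) i) ≤
      a * (cr3T D (π / (2 * ρ)) Y + gA * (2 * L - Y) + cr3J ρ * (B * (1 + 2 * L))) := by
    apply mul_le_mul_of_nonneg_left _ ha0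
    have h11 : cr3J ρ * D.N (sg 1 ρ) (2 * L) ≤ cr3J ρ * (B * (1 + 2 * L)) :=
      mul_le_mul_of_nonneg_left h7 hJ
    linarith
  have h11 : 4 * cr3J ρ * D.N (sg 1 ρ) (2 * L) ≤ 4 * cr3J ρ * (B * (1 + 2 * L)) :=
    mul_le_mul_of_nonneg_left h7 (by linarith)
  have h12 : 4 * cr3J ρ * D.N (sg 1 ρ) L ≤ 4 * cr3J ρ * (B * (1 + L)) :=
    mul_le_mul_of_nonneg_left h8 (by linarith)
  rw [h9] at h3
  nlinarith

end HBInf
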