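import Pool.Agent.HBInf.KillDefs

/-!
# Compensating an error term

Let `E > 0` be continuous with `E s ≤ E t e^{ε|s - t|}`, integrable at `-∞`, `0 < ε ≤ ε₀`, `C₁ t = ∫_{-∞}^t E`
(finite: `E` is continuous, so integrable on `Iic t`), `r_j = killDens E (ν j) (ξ j) = ν j C₁ + ξ j E`. Then:

* `C₁ t ≥ ∫_{-∞}^t E t e^{-ε (t - s)} ds = E t / ε` (`rightKill_mass`), and `C₁` is continuous.
* `|C₁ (y - u) - C₁ y + u E y| ≤ ε |u|² e^{ε|u|} E y` and `|C₁ (y - u)| ≤ C₁ y + |u| e^{ε|u|} E y`,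
  `|E (y - u) - E y| ≤ ε |u| e^{ε|u|} E y` (as `|e^x - 1| ≤ |x| e^{|x|}`, and `E s - E t ≥ -(E t)(e^{ε|s-t|}-1)`-type:
  `E y e^{-ε|u|} ≤ E (y - u) ≤ E y e^{ε|u|}`).
* Integrate against `kn p ρ u (θ - α j)` (with `|kn| ≤ Psi` a.e., `integrable_psi`, `ε ≤ sg p ρ`):
  `∫ kn u (θ - α j) r_j (y - u) du = ν j VV (θ - α j) C₁ y + (ν j WW (θ - α j) + ξ j VV (θ - α j)) E y + O(ε E y)`
  with a constant depending only on `p, ρ, ν, ξ` (recall `WW = -∫ u kn`).
* Sum over `j`. If `∑ ν j VV (θ i - α j) = -a < 0`, then with `C₁ y ≥ E y / ε` the sum is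
  `≤ (-a/ε + C) E y ≤ - E y` for small `ε`; if it is `0` and `∑ ν j WW + ∑ ξ j VV = -b < 0` it is
  `≤ (-b + C ε) E y ≤ - (b/2) E y`. Finitely many `i`.
* `r_j ≥ 0`: if `ξ j ≥ 0` clear; otherwise `ν j > 0` and `ν j C₁ + ξ j E ≥ (ν j / ε + ξ j) E ≥ 0`.
-/

namespace HBInf

open HBInd Complex Filter Topology Set MeasureTheory
open scoped Real ComplexConjugate

/-- slowly varying positive functions, integrable at `-∞` -/
structure Slow (ε : ℝ) (E : ℝ → ℝ) : Prop where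
  cont : Continuous E
  pos : ∀ t, 0 < E t
  slow : ∀ s t, E s ≤ E t * Real.exp (ε * |s - t|)
  int : IntegrableOn E (Iic 0)

private theorem slow_intOn {ε : ℝ} {E : ℝ → ℝ} (hE : Slow ε E) (t : ℝ) : IntegrableOn E (Iic t) := by
  have h1 : IntegrableOn E (Icc 0 t) := hE.cont.integrableOn_Icc
  refine (hE.int.union h1).mono_set ?_
  intro x hx
  rcases le_total x 0 with h | h
  · exact Or.inl h
  · exact Or.inr ⟨h, hx⟩

theorem rightKill_mass {ε : ℝ} (hε : 0 < ε) {E : ℝ → ℝ} (hE : Slow ε E) (t : ℝ) :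
    IntegrableOn E (Iic t) ∧ E t / ε ≤ ∫ s in Iic t, E s := by
  have h1 := slow_intOn hE t
  refine ⟨h1, ?_⟩
  have h2 : IntegrableOn (fun s => E t * Real.exp (-(ε * t)) * Real.exp (ε * s)) (Iic t) :=
    (integrableOn_exp_mul_Iic hε t).const_mul _
  have h3 : ∫ s in Iic t, E t * Real.exp (-(ε * t)) * Real.exp (ε * s) = E t / ε := by
    rw [MeasureTheory.integral_const_mul, integral_exp_mul_Iic hε t]
    rw [mul_assoc, ← mul_div_assoc, ← Real.exp_add, neg_add_cancel, Real.exp_zero]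
    ring
  rw [← h3]
  refine setIntegral_mono_on h2 h1 measurableSet_Iic fun s hs => ?_
  have h4 := hE.slow t s
  have h5 : |t - s| = t - s := abs_of_nonneg (sub_nonneg.2 hs)
  rw [h5] at h4
  have h6 : E t * Real.exp (-(ε * t)) * Real.exp (ε * s) = E t * Real.exp (-(ε * (t - s))) := by
    rw [mul_assoc, ← Real.exp_add]
    congr 2
    ring
  rw [h6, Real.exp_neg, ← div_eq_mul_inv, div_le_iff₀ (Real.exp_pos _)]
  exact h4

private theorem slow_sub {ε : ℝ} {E : ℝ → ℝ} (hE : Slow ε E) (s t : ℝ) :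
    (∫ x in Iic t, E x) - (∫ x in Iic s, E x) = ∫ x in s..t, E x :=
  intervalIntegral.integral_Iic_sub_Iic (slow_intOn hE s) (slow_intOn hE t)

private theorem slow_prim_cont {ε : ℝ} {E : ℝ → ℝ} (hE : Slow ε E) :
    Continuous fun t => ∫ x in Iic t, E x := by
  have h1 : (fun t => ∫ x in Iic t, E x) = fun t => (∫ x in Iic 0, E x) + ∫ x in (0 : ℝ)..t, E x := by
    funext t
    rw [← slow_sub hE 0 t]
    ring
  rw [h1]
  exact continuous_const.add (intervalIntegral.continuous_primitive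
    (fun a b => hE.cont.intervalIntegrable a b) 0)

theorem killDens_cont {ε : ℝ} (hε : 0 < ε) {E : ℝ → ℝ} (hE : Slow ε E) (ν ξ : ℝ) :
    Continuous (killDens E ν ξ) := by
  unfold killDens
  exact (continuous_const.mul (slow_prim_cont hE)).add (continuous_const.mul hE.cont)

private theorem exp_sub_one_le {x : ℝ} : Real.exp x - 1 ≤ x * Real.exp x := by
  have h1 := Real.add_one_le_exp (-x)
  have h2 := Real.exp_pos x
  have h3 : Real.exp (-x) * Real.exp x = 1 := by rw [← Real.exp_add, neg_add_cancel, Real.exp_zero]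
  nlinarith

/-- `|E s - E y| ≤ ε |u| e^{ε|u|} E y` if `|s - y| ≤ |u|` -/
private theorem slow_diff {ε : ℝ} (hε : 0 < ε) {E : ℝ → ℝ} (hE : Slow ε E) {s y u : ℝ}
    (h : |s - y| ≤ |u|) : |E s - E y| ≤ ε * |u| * Real.exp (ε * |u|) * E y := by
  have hy := hE.pos y
  have h1 := hE.slow s y
  have h2 := hE.slow y s
  rw [abs_sub_comm] at h2
  set x := ε * |s - y| with hx
  have hx0 : 0 ≤ x := by positivity
  have h3 := exp_sub_one_le (x := x)
  have h4 : x * Real.exp x ≤ ε * |u| * Real.exp (ε * |u|) := by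
    have h5 : x ≤ ε * |u| := mul_le_mul_of_nonneg_left h hε.le
    exact mul_le_mul h5 (Real.exp_le_exp.2 h5) (Real.exp_pos _).le (by positivity)
  have h6 : E y * Real.exp (-x) ≤ E s := by
    rw [Real.exp_neg, ← div_eq_mul_inv, div_le_iff₀ (Real.exp_pos _)]
    exact h2
  have h7 := Real.add_one_le_exp (-x)
  have h8 : 1 ≤ Real.exp x := Real.one_le_exp hx0
  have h9 : x * Real.exp x * E y ≤ ε * |u| * Real.exp (ε * |u|) * E y :=
    mul_le_mul_of_nonneg_right h4 hy.le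
  rw [abs_le]
  constructor
  · nlinarith [mul_nonneg hx0 (sub_nonneg.2 h8)]
  · nlinarith

private theorem slow_prim {ε : ℝ} (hε : 0 < ε) {E : ℝ → ℝ} (hE : Slow ε E) (y u : ℝ) :
    |(∫ x in Iic (y - u), E x) - (∫ x in Iic y, E x) + u * E y| ≤
      ε * |u| ^ 2 * Real.exp (ε * |u|) * E y := by
  have h1 : (∫ x in Iic (y - u), E x) - (∫ x in Iic y, E x) + u * E y =
      -∫ x in (y - u)..y, (E x - E y) := by
    rw [intervalIntegral.integral_sub (hE.cont.intervalIntegrable _ _)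
      (intervalIntegrable_const), intervalIntegral.integral_const, ← slow_sub hE (y - u) y]
    simp only [smul_eq_mul]
    ring
  rw [h1, abs_neg]
  have h2 := intervalIntegral.norm_integral_le_of_norm_le_const (a := y - u) (b := y)
    (f := fun x => E x - E y) (C := ε * |u| * Real.exp (ε * |u|) * E y) (by
      intro s hs
      rw [Real.norm_eq_abs]
      refine slow_diff hε hE ?_
      rcases le_total 0 u with hu | hu
      · rw [uIoc_of_le (by linarith)] at hs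
        rw [abs_of_nonneg hu, abs_le]
        exact ⟨by linarith [hs.1], by linarith [hs.2]⟩
      · rw [uIoc_of_ge (by linarith)] at hs
        rw [abs_of_nonpos hu, abs_le]
        exact ⟨by linarith [hs.1], by linarith [hs.2]⟩)
  rw [Real.norm_eq_abs] at h2
  refine h2.trans (le_of_eq ?_)
  rw [sub_sub_cancel]
  ring

private theorem prim_nonneg {ε : ℝ} {E : ℝ → ℝ} (hE : Slow ε E) (y : ℝ) : 0 ≤ ∫ x in Iic y, E x :=
  setIntegral_nonneg measurableSet_Iic fun s _ => (hE.pos s).le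

/-- `|c₁ (y - u)| ≤ (c₁ y + E y) (1 + |u|) e^{ε|u|}` -/
private theorem prim_bound {ε : ℝ} (hε : 0 < ε) {E : ℝ → ℝ} (hE : Slow ε E) (y u : ℝ) :
    |∫ x in Iic (y - u), E x| ≤ ((∫ x in Iic y, E x) + E y) * ((1 + |u|) * Real.exp (ε * |u|)) := by
  have h0 := prim_nonneg hE y
  have hy := hE.pos y
  have h1 : (∫ x in Iic (y - u), E x) = (∫ x in Iic y, E x) - ∫ x in (y - u)..y, E x := by
    rw [← slow_sub hE (y - u) y]
    ring
  have h2 := intervalIntegral.norm_integral_le_of_norm_le_const (a := y - u) (b := y)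
    (f := E) (C := Real.exp (ε * |u|) * E y) (by
      intro s hs
      rw [Real.norm_eq_abs, abs_of_pos (hE.pos s)]
      have h3 : |s - y| ≤ |u| := by
        rcases le_total 0 u with hu | hu
        · rw [uIoc_of_le (by linarith)] at hs
          rw [abs_of_nonneg hu, abs_le]
          exact ⟨by linarith [hs.1], by linarith [hs.2]⟩
        · rw [uIoc_of_ge (by linarith)] at hs
          rw [abs_of_nonpos hu, abs_le]
          exact ⟨by linarith [hs.1], by linarith [hs.2]⟩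
      have h4 := hE.slow s y
      have h5 : Real.exp (ε * |s - y|) ≤ Real.exp (ε * |u|) :=
        Real.exp_le_exp.2 (mul_le_mul_of_nonneg_left h3 hε.le)
      nlinarith)
  rw [Real.norm_eq_abs, sub_sub_cancel] at h2
  rw [h1]
  have h3 := abs_sub (∫ x in Iic y, E x) (∫ x in (y - u)..y, E x)
  rw [abs_of_nonneg h0] at h3
  have h4 : 1 ≤ Real.exp (ε * |u|) := Real.one_le_exp (by positivity)
  have h5 := abs_nonneg u
  set c := ∫ x in Iic y, E x
  set e := Real.exp (ε * |u|)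
  have h6 : c ≤ c * ((1 + |u|) * e) := by
    refine le_mul_of_one_le_right h0 ?_
    nlinarith
  have h7 : e * E y * |u| ≤ E y * ((1 + |u|) * e) := by nlinarith [mul_pos (zero_lt_one.trans_le h4) hy]
  nlinarith

private theorem E_bound {ε : ℝ} (hε : 0 < ε) {E : ℝ → ℝ} (hE : Slow ε E) (y u : ℝ) :
    |E (y - u)| ≤ ((∫ x in Iic y, E x) + E y) * ((1 + |u|) * Real.exp (ε * |u|)) := by
  have h0 := prim_nonneg hE y
  have hy := hE.pos y
  rw [abs_of_pos (hE.pos _)]
  have h1 := hE.slow (y - u) y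
  have h2 : |y - u - y| = |u| := by rw [sub_sub_cancel_left, abs_neg]
  rw [h2] at h1
  have h4 : 1 ≤ Real.exp (ε * |u|) := Real.one_le_exp (by positivity)
  have h5 := abs_nonneg u
  set c := ∫ x in Iic y, E x
  set e := Real.exp (ε * |u|)
  have h6 : 0 ≤ c * ((1 + |u|) * e) := by positivity
  have h7 : E y * e ≤ E y * ((1 + |u|) * e) := by
    refine mul_le_mul_of_nonneg_left ?_ hy.le
    nlinarith
  nlinarith

private theorem kill_bound {ε : ℝ} (hε : 0 < ε) {E : ℝ → ℝ} (hE : Slow ε E) (ν ξ y u : ℝ) :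
    |killDens E ν ξ (y - u)| ≤ (|ν| + |ξ|) * ((∫ x in Iic y, E x) + E y) *
      ((1 + |u|) * Real.exp (ε * |u|)) := by
  unfold killDens
  have h1 := abs_add_le (ν * ∫ x in Iic (y - u), E x) (ξ * E (y - u))
  rw [abs_mul, abs_mul] at h1
  have h2 := mul_le_mul_of_nonneg_left (prim_bound hε hE y u) (abs_nonneg ν)
  have h3 := mul_le_mul_of_nonneg_left (E_bound hε hE y u) (abs_nonneg ξ)
  nlinarith

/-- the main error estimate for the density -/
private theorem kill_err {ε : ℝ} (hε : 0 < ε) {E : ℝ → ℝ} (hE : Slow ε E) (ν ξ y u : ℝ) :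
    |killDens E ν ξ (y - u) - (ν * (∫ x in Iic y, E x) - ν * u * E y + ξ * E y)| ≤
      ε * (|ν| + |ξ|) * E y * ((1 + |u|) ^ 2 * Real.exp (ε * |u|)) := by
  unfold killDens
  have h1 := slow_prim hε hE y u
  have h2 : |E (y - u) - E y| ≤ ε * |u| * Real.exp (ε * |u|) * E y :=
    slow_diff hε hE (by rw [sub_sub_cancel_left, abs_neg])
  have hy := hE.pos y
  have h5 := abs_nonneg u
  have he := Real.exp_pos (ε * |u|)
  have h3 : ν * (∫ x in Iic (y - u), E x) + ξ * E (y - u) -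
      (ν * (∫ x in Iic y, E x) - ν * u * E y + ξ * E y) =
      ν * ((∫ x in Iic (y - u), E x) - (∫ x in Iic y, E x) + u * E y) + ξ * (E (y - u) - E y) := by
    ring
  rw [h3]
  refine (abs_add_le _ _).trans ?_
  rw [abs_mul, abs_mul]
  have h6 := mul_le_mul_of_nonneg_left h1 (abs_nonneg ν)
  have h7 := mul_le_mul_of_nonneg_left h2 (abs_nonneg ξ)
  set e := Real.exp (ε * |u|)
  have h8 : ε * |u| ^ 2 * e * E y ≤ ε * E y * ((1 + |u|) ^ 2 * e) := by
    have : 0 ≤ ε * E y * e := by positivity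
    nlinarith
  have h9 : ε * |u| * e * E y ≤ ε * E y * ((1 + |u|) ^ 2 * e) := by
    have : 0 ≤ ε * E y * e := by positivity
    nlinarith [mul_nonneg this h5, mul_nonneg this (mul_nonneg h5 h5)]
  have h10 := mul_le_mul_of_nonneg_left h8 (abs_nonneg ν)
  have h11 := mul_le_mul_of_nonneg_left h9 (abs_nonneg ξ)
  nlinarith

/-- the constant of all the estimates -/
private noncomputable def MM (p : ℕ) (ρ : ℝ) : ℝ :=
  ∫ u, (1 + |u|) ^ 2 * Psi p ρ u * Real.exp (sg p ρ * |u|)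

private theorem MM_nonneg (p : ℕ) (ρ : ℝ) : 0 ≤ MM p ρ :=
  integral_nonneg fun u => by
    have := Psi_nonneg p ρ u
    positivity

private theorem ae_ne_zero : ∀ᵐ u : ℝ, u ≠ 0 := by
  rw [ae_iff]
  simp

private theorem measurable_kn_left (p : ℕ) (ρ ψ : ℝ) : Measurable fun u => kn p ρ u ψ := by
  have h1 : Measurable fun u : ℝ => (u, ψ) := measurable_id.prodMk measurable_const
  have h2 := (measurable_kn p ρ).comp h1
  exact h2

private theorem mono_exp {p : ℕ} {ρ ε : ℝ} (hε : ε ≤ sg p ρ) (u : ℝ) :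
    Real.exp (ε * |u|) ≤ Real.exp (sg p ρ * |u|) :=
  Real.exp_le_exp.2 (mul_le_mul_of_nonneg_right hε (abs_nonneg u))

section main

variable {p : ℕ} (hp : p ≤ 1) {ρ : ℝ} (h1 : (p : ℝ) < ρ) (h2 : ρ < p + 1)

include hp h1 h2

private theorem int_dom {f : ℝ → ℝ} (hf : Measurable f) {c : ℝ} (ψ : ℝ)
    (hb : ∀ u, |f u| ≤ c * ((1 + |u|) ^ 2 * Real.exp (sg p ρ * |u|))) :
    Integrable (fun u => kn p ρ u ψ * f u) ∧ |∫ u, kn p ρ u ψ * f u| ≤ c * MM p ρ := by
  have hI := integrable_psi hp h1 h2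
  have hm : Measurable fun u => kn p ρ u ψ := measurable_kn_left p ρ ψ
  have hae : ∀ᵐ u : ℝ, ‖kn p ρ u ψ * f u‖ ≤
      c * ((1 + |u|) ^ 2 * Psi p ρ u * Real.exp (sg p ρ * |u|)) := by
    filter_upwards [ae_ne_zero] with u hu
    rw [norm_mul, Real.norm_eq_abs, Real.norm_eq_abs]
    have h3 := abs_kn_le hp ρ hu ψ
    have h4 := mul_le_mul h3 (hb u) (abs_nonneg _) (Psi_nonneg p ρ u)
    refine h4.trans (le_of_eq ?_)
    ring
  constructor
  · exact (hI.const_mul c).mono' (hm.mul hf).aestronglyMeasurable hae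
  · have h5 := norm_integral_le_of_norm_le (hI.const_mul c) hae
    rw [MeasureTheory.integral_const_mul] at h5
    rw [← Real.norm_eq_abs]
    exact h5

private theorem kill_int {ε : ℝ} (hε : 0 < ε) (hs : ε ≤ sg p ρ) {E : ℝ → ℝ} (hE : Slow ε E)
    (ν ξ ψ y : ℝ) : Integrable (fun u => kn p ρ u ψ * killDens E ν ξ (y - u)) ∧
      |∫ u, kn p ρ u ψ * killDens E ν ξ (y - u)| ≤
        (|ν| + |ξ|) * ((∫ x in Iic y, E x) + E y) * MM p ρ := by
  have hm : Measurable fun u => killDens E ν ξ (y - u) :=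
    ((killDens_cont hε hE ν ξ).comp (continuous_const.sub continuous_id)).measurable
  refine int_dom hp h1 h2 hm ψ fun u => ?_
  refine (kill_bound hε hE ν ξ y u).trans ?_
  have h0 := prim_nonneg hE y
  have hy := hE.pos y
  have h5 := abs_nonneg u
  refine mul_le_mul_of_nonneg_left ?_ (by positivity)
  refine mul_le_mul ?_ (mono_exp hs u) (Real.exp_pos _).le (by positivity)
  nlinarith

private theorem kill_main {ε : ℝ} (hε : 0 < ε) (hs : ε ≤ sg p ρ) {E : ℝ → ℝ} (hE : Slow ε E)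
    (ν ξ ψ y : ℝ) : |(∫ u, kn p ρ u ψ * killDens E ν ξ (y - u)) -
      (ν * VV p ρ ψ * (∫ x in Iic y, E x) + (ν * WW p ρ ψ + ξ * VV p ρ ψ) * E y)| ≤
        ε * (|ν| + |ξ|) * E y * MM p ρ := by
  have hy := hE.pos y
  have hm : Measurable fun u => killDens E ν ξ (y - u) :=
    ((killDens_cont hε hE ν ξ).comp (continuous_const.sub continuous_id)).measurable
  set c := ∫ x in Iic y, E x with hc
  have hlin : Measurable fun u : ℝ => ν * c - ν * u * E y + ξ * E y := by fun_prop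
  have hA := int_dom hp h1 h2 (hm.sub hlin) ψ (c := ε * (|ν| + |ξ|) * E y) (fun u => by
    refine (kill_err hε hE ν ξ y u).trans ?_
    refine mul_le_mul_of_nonneg_left ?_ (by positivity)
    exact mul_le_mul_of_nonneg_left (mono_exp hs u) (by positivity))
  have hB : Integrable fun u => kn p ρ u ψ := integrable_kn hp h1 h2 ψ
  have hC := (int_dom hp h1 h2 (f := fun u => u) measurable_id (c := 1) ψ (fun u => by
    have h3 : 1 ≤ Real.exp (sg p ρ * |u|) :=
      Real.one_le_exp (mul_nonneg (sg_pos h1 h2).le (abs_nonneg u))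
    have h4 := abs_nonneg u
    nlinarith [mul_nonneg h4 h4])).1
  have hD := (kill_int hp h1 h2 hε hs hE ν ξ ψ y).1
  have hE1 : (∫ u, kn p ρ u ψ * ((fun u => killDens E ν ξ (y - u)) - fun u : ℝ => ν * c - ν * u * E y + ξ * E y) u) =
      (∫ u, kn p ρ u ψ * killDens E ν ξ (y - u)) -
      (ν * VV p ρ ψ * c + (ν * WW p ρ ψ + ξ * VV p ρ ψ) * E y) := by
    have e1 : (fun u => kn p ρ u ψ * ((fun u => killDens E ν ξ (y - u)) -
        fun u : ℝ => ν * c - ν * u * E y + ξ * E y) u) =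
        fun u => kn p ρ u ψ * killDens E ν ξ (y - u) -
          ((ν * c + ξ * E y) * kn p ρ u ψ - (ν * E y) * (kn p ρ u ψ * u)) := by
      funext u
      simp only [Pi.sub_apply]
      ring
    have e2 : (∫ u, kn p ρ u ψ * u) = -WW p ρ ψ := by
      unfold WW
      rw [neg_neg]
      exact integral_congr_ae (ae_of_all _ fun u => mul_comm _ _)
    have hX : Integrable fun u => (ν * c + ξ * E y) * kn p ρ u ψ := hB.const_mul _
    have hY : Integrable fun u => (ν * E y) * (kn p ρ u ψ * u) := hC.const_mul _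
    have hZ : Integrable fun u => (ν * c + ξ * E y) * kn p ρ u ψ -
      (ν * E y) * (kn p ρ u ψ * u) := hX.sub hY
    rw [e1, integral_sub hD hZ, integral_sub hX hY, MeasureTheory.integral_const_mul,
      MeasureTheory.integral_const_mul, e2]
    unfold VV
    ring
  rw [← hE1]
  exact hA.2

end main

private theorem pos_lower {n : ℕ} (f : Fin n → ℝ) (hf : ∀ i, 0 < f i) : ∃ δ : ℝ, 0 < δ ∧ ∀ i, δ ≤ f i := by
  have h1 : 0 < 1 + ∑ i, (f i)⁻¹ := by
    have := Finset.sum_nonneg fun i (_ : i ∈ Finset.univ) => (inv_pos.2 (hf i)).le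
    linarith
  refine ⟨(1 + ∑ i, (f i)⁻¹)⁻¹, inv_pos.2 h1, fun i => ?_⟩
  rw [inv_le_comm₀ h1 (hf i)]
  have := Finset.single_le_sum (f := fun i => (f i)⁻¹) (fun i _ => (inv_pos.2 (hf i)).le)
    (Finset.mem_univ i)
  linarith

private theorem rate {A B' M : ℝ} (hM : 0 ≤ M) (h : A < 0 ∨ (A = 0 ∧ B' < 0)) :
    ∃ κ ε₀ : ℝ, 0 < κ ∧ 0 < ε₀ ∧ ∀ ε ∈ Ioc 0 ε₀, ∀ c e : ℝ, 0 < e → e / ε ≤ c →
      A * c + B' * e + ε * M * e ≤ -κ * e := by
  rcases h with h | ⟨h, h'⟩
  · refine ⟨1, min 1 (-A / (1 + |B'| + M)), one_pos, lt_min one_pos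
      (div_pos (neg_pos.2 h) (by positivity)), fun ε hε c e he hc => ?_⟩
    obtain ⟨h1, h2⟩ := hε
    have h3 := h2.trans (min_le_left _ _)
    have h4 := h2.trans (min_le_right _ _)
    rw [le_div_iff₀ (by positivity)] at h4
    have h5 : A * c ≤ A * (e / ε) := mul_le_mul_of_nonpos_left hc h.le
    have h6 : A * (e / ε) ≤ -(1 + |B'| + M) * e := by
      rw [← mul_div_assoc, div_le_iff₀ h1]
      nlinarith
    have h7 : B' * e ≤ |B'| * e := mul_le_mul_of_nonneg_right (le_abs_self _) he.le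
    have h8 : ε * M * e ≤ M * e := by
      refine mul_le_mul_of_nonneg_right ?_ he.le
      nlinarith
    nlinarith
  · refine ⟨-B' / 2, -B' / (2 * (1 + M)), by linarith, div_pos (by linarith) (by positivity),
      fun ε hε c e he hc => ?_⟩
    obtain ⟨h1, h2⟩ := hε
    rw [le_div_iff₀ (by positivity)] at h2
    rw [h, zero_mul, zero_add]
    have h3 : ε * M ≤ -B' / 2 := by nlinarith
    nlinarith

theorem rightKill {p : ℕ} (hp : p ≤ 1) {ρ : ℝ} (h1 : (p : ℝ) < ρ) (h2 : ρ < p + 1) {n : ℕ}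
    {θ : Fin n → ℝ} (hk : KillData p ρ θ) :
    ∃ (k : ℕ) (α ν ξ : Fin k → ℝ) (κ ε₀ C : ℝ), (∀ j, α j ∈ TT p) ∧ 0 < κ ∧ 0 < ε₀ ∧
      ε₀ ≤ sg p ρ ∧ 0 < C ∧ ∀ ε ∈ Ioc 0 ε₀, ∀ E : ℝ → ℝ, Slow ε E →
        (∀ j t, 0 ≤ killDens E (ν j) (ξ j) t) ∧
        (∀ j θ₀ y, Integrable fun u => kn p ρ u (θ₀ - α j) * killDens E (ν j) (ξ j) (y - u)) ∧
        (∀ i y, ∑ j, ∫ u, kn p ρ u (θ i - α j) * killDens E (ν j) (ξ j) (y - u) ≤ -κ * E y) ∧
        ∀ θ₀ y, |∑ j, ∫ u, kn p ρ u (θ₀ - α j) * killDens E (ν j) (ξ j) (y - u)| ≤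
          C * ((∫ s in Iic y, E s) + E y) := by
  obtain ⟨k, α, ν, ξ, hα, hν, hνξ, hi⟩ := hk
  set S : ℝ := ∑ j, (|ν j| + |ξ j|) with hS
  have hS0 : 0 ≤ S := Finset.sum_nonneg fun j _ => by positivity
  have hM0 := MM_nonneg p ρ
  have hSM : 0 ≤ S * MM p ρ := mul_nonneg hS0 hM0
  choose κ' ε' hκ' hε' hrate using fun i => rate hSM (hi i)
  obtain ⟨κ, hκ, hκi⟩ := pos_lower κ' hκ'
  obtain ⟨ε1, hε1, hε1i⟩ := pos_lower ε' hε'
  have hex : ∀ j, ∃ δ : ℝ, 0 < δ ∧ ∀ ε ∈ Ioc 0 δ, ∀ c e : ℝ, 0 < e → e / ε ≤ c →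
      0 ≤ ν j * c + ξ j * e := by
    intro j
    rcases le_or_gt 0 (ξ j) with h | h
    · refine ⟨1, one_pos, fun ε hε c e he hc => ?_⟩
      have h3 : 0 < e / ε := div_pos he hε.1
      exact add_nonneg (mul_nonneg (hν j) (h3.le.trans hc)) (mul_nonneg h he.le)
    · have h3 : 0 < ν j := by
        rcases hνξ j with h4 | h4
        · exact h4
        · exact absurd h4 (not_le.2 h)
      refine ⟨ν j / (-ξ j), div_pos h3 (neg_pos.2 h), fun ε hε c e he hc => ?_⟩
      obtain ⟨h5, h6⟩ := hε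
      rw [le_div_iff₀ (neg_pos.2 h)] at h6
      have h7 : ν j * (e / ε) ≤ ν j * c := mul_le_mul_of_nonneg_left hc h3.le
      have h8 : -ξ j * e ≤ ν j * (e / ε) := by
        rw [← mul_div_assoc, le_div_iff₀ h5]
        nlinarith
      linarith
  choose δ hδ hδj using hex
  obtain ⟨ε2, hε2, hε2j⟩ := pos_lower δ hδ
  refine ⟨k, α, ν, ξ, κ, min (sg p ρ) (min ε1 ε2), S * MM p ρ + 1, hα, hκ,
    lt_min (sg_pos h1 h2) (lt_min hε1 hε2), min_le_left _ _, by linarith, ?_⟩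
  intro ε hε E hE
  obtain ⟨hε0, hεle⟩ := hε
  have hs : ε ≤ sg p ρ := hεle.trans (min_le_left _ _)
  have hεa : ε ≤ ε1 := hεle.trans ((min_le_right _ _).trans (min_le_left _ _))
  have hεb : ε ≤ ε2 := hεle.trans ((min_le_right _ _).trans (min_le_right _ _))
  refine ⟨fun j t => ?_, fun j θ₀ y => ?_, fun i y => ?_, fun θ₀ y => ?_⟩
  · exact hδj j ε ⟨hε0, hεb.trans (hε2j j)⟩ _ _ (hE.pos t) (rightKill_mass hε0 hE t).2
  · exact (kill_int hp h1 h2 hε0 hs hE (ν j) (ξ j) (θ₀ - α j) y).1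
  · have hy := hE.pos y
    set c := ∫ x in Iic y, E x with hc
    have h3 : ∑ j, ∫ u, kn p ρ u (θ i - α j) * killDens E (ν j) (ξ j) (y - u) ≤
        ∑ j, ((ν j * VV p ρ (θ i - α j) * c + (ν j * WW p ρ (θ i - α j) +
          ξ j * VV p ρ (θ i - α j)) * E y) + ε * (|ν j| + |ξ j|) * E y * MM p ρ) := by
      refine Finset.sum_le_sum fun j _ => ?_
      have h4 := (abs_le.1 (kill_main hp h1 h2 hε0 hs hE (ν j) (ξ j) (θ i - α j) y)).2
      linarith
    have h5 : ∑ j, ((ν j * VV p ρ (θ i - α j) * c + (ν j * WW p ρ (θ i - α j) +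
          ξ j * VV p ρ (θ i - α j)) * E y) + ε * (|ν j| + |ξ j|) * E y * MM p ρ) =
        (∑ j, ν j * VV p ρ (θ i - α j)) * c + (∑ j, ν j * WW p ρ (θ i - α j) +
          ∑ j, ξ j * VV p ρ (θ i - α j)) * E y + ε * (S * MM p ρ) * E y := by
      have e1 : ∀ j, (ν j * VV p ρ (θ i - α j) * c + (ν j * WW p ρ (θ i - α j) +
          ξ j * VV p ρ (θ i - α j)) * E y) + ε * (|ν j| + |ξ j|) * E y * MM p ρ =
          ν j * VV p ρ (θ i - α j) * c + ν j * WW p ρ (θ i - α j) * E y +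
            ξ j * VV p ρ (θ i - α j) * E y + (|ν j| + |ξ j|) * (ε * E y * MM p ρ) := by
        intro j
        ring
      rw [Finset.sum_congr rfl fun j _ => e1 j, Finset.sum_add_distrib, Finset.sum_add_distrib,
        Finset.sum_add_distrib, ← Finset.sum_mul, ← Finset.sum_mul, ← Finset.sum_mul,
        ← Finset.sum_mul, ← hS]
      ring
    rw [h5] at h3
    refine h3.trans ((hrate i ε ⟨hε0, hεa.trans (hε1i i)⟩ c (E y) hy
      (rightKill_mass hε0 hE y).2).trans ?_)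
    have := hκi i
    nlinarith
  · have hy := hE.pos y
    have hc0 := prim_nonneg hE y
    refine (Finset.abs_sum_le_sum_abs _ _).trans ?_
    refine (Finset.sum_le_sum fun j _ =>
      (kill_int hp h1 h2 hε0 hs hE (ν j) (ξ j) (θ₀ - α j) y).2).trans ?_
    rw [← Finset.sum_mul, ← Finset.sum_mul, ← hS]
    nlinarith

end HBInf
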