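import Pool.Agent.HBInf.ZDTools
import Pool.Agent.HBInf.RightKill

/-!
# Cutting off the zeros

`chiL R L s = max 0 (min 1 ((R - s)/L))` is `1` for `s ≤ R - L`, `0` for `s ≥ R`, and
`|chiL s - chiL t| ≤ |min s R - min t R| / L`.

* `cutErr`: `e^{-ρy} |∑ chiL (s_i) kp (y - s_i) - chiL (y) U y| ≤ (1/L) ∑ e^{-ρ s_i} |min s_i R - min y R| |kn (y - s_i)|`.
  If `s_i ≤ R`: `|min s_i R - min y R| ≤ |y - s_i|`, and `|u| |kn u| ≤ |u| Psi u ≤ C e^{-σ |u|}` (`psi_le`,
  `σ = sg p ρ`), `|y - s_i| = |y - min s_i R|`. If `s_i > R`: the term is `0` if `y ≥ R`; if `y < R` it is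
  `(R - y) |kn (y - s_i)| ≤ |y - s_i| |kn (y - s_i)| ≤ C e^{-σ (s_i - y)} = C e^{-σ (s_i - R)} e^{-σ |y - R|}`.
  And `e^{-σ |x|} ≤ e^{-ε |x|}`.
* `slow_ER`: sums of functions `e^{-ρ s - σ (s - R)₊} e^{-ε |y - c|}` with summable weights
  (`e^{-ρ s - σ (s - R)₊} ≤ e^{σR} e^{-(ρ+σ)s}`, `R ≥ 0`), all are `Slow ε`; continuity: uniform convergence
  (`continuous_tsum`).
* `ER_bound`: `e^{-ρ s - σ (s - R)₊ - ε |y - min s R|} ≤ e^{ε|y|} e^{-(ρ + ε) s}` (for `s > R`:
  `σ (s - R) + ε R ≥ ε s`), and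
  `∫_{-∞}^y e^{-ε |t - c|} dt ≤ (2/ε) e^{ε |y|} e^{-ε c}` for `c ≥ 0`.
-/

namespace HBInf

open HBInd Complex Filter Topology Set MeasureTheory
open scoped Real ComplexConjugate

variable {p : ℕ} {ρ : ℝ} {ι : Type}

noncomputable def chiL (R L s : ℝ) : ℝ := max 0 (min 1 ((R - s) / L))

noncomputable def ZD.ER (D : ZD p ρ ι) (σ ε R y : ℝ) : ℝ :=
  (∑' i, Real.exp (-ρ * D.s i - σ * max 0 (D.s i - R)) * Real.exp (-ε * |y - min (D.s i) R|)) +
    Real.exp (-ε * |y|)

theorem chiL_mem {R L s : ℝ} : 0 ≤ chiL R L s ∧ chiL R L s ≤ 1 := by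
  unfold chiL
  exact ⟨le_max_left _ _, max_le zero_le_one (min_le_left _ _)⟩

/-- `chiL` is Lipschitz in `min s R` -/
theorem ctr_chiL_sub {R L : ℝ} (hL : 0 < L) (s t : ℝ) :
    |chiL R L s - chiL R L t| ≤ |min s R - min t R| / L := by
  have key : ∀ s : ℝ, chiL R L s = min 1 ((R - min s R) / L) := by
    intro s
    unfold chiL
    rcases le_total s R with h | h
    · rw [min_eq_left h]
      apply max_eq_right
      exact le_min zero_le_one (div_nonneg (by linarith) hL.le)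
    · rw [min_eq_right h, sub_self, zero_div, min_eq_right (zero_le_one)]
      apply max_eq_left
      exact (min_le_right _ _).trans (div_nonpos_of_nonpos_of_nonneg (by linarith) hL.le)
  rw [key s, key t]
  have h1 := abs_min_sub_min_le_max 1 ((R - min s R) / L) 1 ((R - min t R) / L)
  refine h1.trans ?_
  rw [sub_self, abs_zero]
  apply max_le (by positivity)
  rw [← sub_div, abs_div, abs_of_pos hL, abs_sub_comm]
  have : R - min t R - (R - min s R) = min s R - min t R := by ring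
  rw [this]

theorem ctr_w_le {σ R : ℝ} (hσ : 0 < σ) (ρ s : ℝ) :
    Real.exp (-ρ * s - σ * max 0 (s - R)) ≤ Real.exp (σ * R) * Real.exp (-(ρ + σ) * s) := by
  rw [← Real.exp_add]
  apply Real.exp_le_exp.2
  have := le_max_right 0 (s - R)
  nlinarith

theorem ctr_w_summable (D : ZD p ρ ι) {σ : ℝ} (hσ : 0 < σ) (R : ℝ) :
    Summable fun i => Real.exp (-ρ * D.s i - σ * max 0 (D.s i - R)) :=
  Summable.of_nonneg_of_le (fun i => (Real.exp_pos _).le) (fun i => ctr_w_le hσ ρ (D.s i))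
    ((D.sum (ρ + σ) (by linarith)).mul_left _)

theorem ctr_summable (D : ZD p ρ ι) {σ ε : ℝ} (hσ : 0 < σ) (hε : 0 < ε) (R y : ℝ) :
    Summable fun i => Real.exp (-ρ * D.s i - σ * max 0 (D.s i - R)) *
      Real.exp (-ε * |y - min (D.s i) R|) := by
  refine Summable.of_nonneg_of_le (fun i => by positivity) (fun i => ?_) (ctr_w_summable D hσ R)
  have h : Real.exp (-ε * |y - min (D.s i) R|) ≤ 1 := by
    apply Real.exp_le_one_iff.2
    have := abs_nonneg (y - min (D.s i) R)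
    nlinarith
  have h0 := (Real.exp_pos (-ρ * D.s i - σ * max 0 (D.s i - R))).le
  nlinarith

/-- the elementary inequality behind `cutErr` -/
theorem ctr_elem {Ψ : ℝ → ℝ} {C σ : ℝ} (hC : 0 < C)
    (h : ∀ u : ℝ, |u| * Ψ u ≤ C * Real.exp (-σ * |u|)) (h0 : ∀ u, 0 ≤ Ψ u) (y s R : ℝ) :
    |min s R - min y R| * Ψ (y - s) ≤
      C * (Real.exp (-σ * max 0 (s - R)) * Real.exp (-σ * |y - min s R|)) := by
  have hu := h (y - s)
  rcases le_total s R with hs | hs
  · rw [min_eq_left hs, max_eq_left (by linarith), mul_zero, Real.exp_zero, one_mul]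
    refine le_trans (mul_le_mul_of_nonneg_right ?_ (h0 _)) hu
    have h1 := abs_min_sub_min_le_max s R y R
    rw [min_eq_left hs, sub_self, abs_zero, max_eq_left (abs_nonneg _), abs_sub_comm s y] at h1
    exact h1
  · rw [min_eq_right hs, max_eq_right (by linarith)]
    rcases le_total y R with hy | hy
    · rw [min_eq_left hy]
      have e1 : |y - s| = (s - R) + |y - R| := by
        rw [abs_of_nonpos (by linarith), abs_of_nonpos (by linarith)]
        ring
      have e2 : -σ * |y - s| = -σ * (s - R) + -σ * |y - R| := by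
        rw [e1]; ring
      rw [← Real.exp_add, ← e2]
      refine le_trans (mul_le_mul_of_nonneg_right ?_ (h0 _)) hu
      rw [e1, abs_sub_comm R y]
      linarith
    · rw [min_eq_right hy, sub_self, abs_zero, zero_mul]
      positivity

theorem cutErr (hp : p ≤ 1) (h1 : (p : ℝ) < ρ) (h2 : ρ < p + 1) :
    ∃ C : ℝ, 0 < C ∧ ∀ {ι : Type} (D : ZD p ρ ι) (R L ε : ℝ), 0 < L → 0 < ε → ε ≤ sg p ρ →
      ∀ y θ : ℝ, (∀ i, y ≠ D.s i) →
        |∑' i, chiL R L (D.s i) * kp p (y - D.s i) (θ - D.a i) - chiL R L y * D.U y θ| ≤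
          C / L * Real.exp (ρ * y) * D.ER (sg p ρ) ε R y := by
  obtain ⟨C, hC, hpsi⟩ := psi_le hp h1 h2
  have hpsi' : ∀ u : ℝ, |u| * Psi p ρ u ≤ C * Real.exp (-(sg p ρ) * |u|) := by
    intro u
    refine le_trans (mul_le_mul_of_nonneg_right ?_ (Psi_nonneg p ρ u)) (hpsi u)
    have := sq_nonneg |u|
    linarith
  refine ⟨C, hC, fun {ι} D R L ε hL hε hεσ y θ hy => ?_⟩
  have hσ := sg_pos h1 h2
  have hsum := D.U_summable hp h1 h2 hy θ
  have hsumU : Summable fun i => kp p (y - D.s i) (θ - D.a i) := hsum.of_abs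
  have hsumc : Summable fun i => chiL R L (D.s i) * kp p (y - D.s i) (θ - D.a i) := by
    refine Summable.of_norm_bounded hsum fun i => ?_
    rw [Real.norm_eq_abs, abs_mul, abs_of_nonneg chiL_mem.1]
    have := (chiL_mem (R := R) (L := L) (s := D.s i)).2
    have h0 := abs_nonneg (kp p (y - D.s i) (θ - D.a i))
    nlinarith
  have hterm : ∀ i, ‖(chiL R L (D.s i) - chiL R L y) * kp p (y - D.s i) (θ - D.a i)‖ ≤
      C / L * Real.exp (ρ * y) * (Real.exp (-ρ * D.s i - (sg p ρ) * max 0 (D.s i - R)) *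
        Real.exp (-ε * |y - min (D.s i) R|)) := by
    intro i
    have hu : y - D.s i ≠ 0 := sub_ne_zero.2 (hy i)
    rw [Real.norm_eq_abs, abs_mul, zdt_kp_eq p ρ (y - D.s i) (θ - D.a i), abs_mul, Real.abs_exp]
    have e1 : Real.exp (ρ * (y - D.s i)) = Real.exp (ρ * y) * Real.exp (-ρ * D.s i) := by
      rw [← Real.exp_add]; ring_nf
    have e2 : Real.exp (-ρ * D.s i - (sg p ρ) * max 0 (D.s i - R)) =
        Real.exp (-ρ * D.s i) * Real.exp (-(sg p ρ) * max 0 (D.s i - R)) := by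
      rw [← Real.exp_add]; ring_nf
    rw [e1, e2]
    have hkn := abs_kn_le hp ρ hu (θ - D.a i)
    have hel := ctr_elem hC hpsi' (Psi_nonneg p ρ) y (D.s i) R
    have hchi := ctr_chiL_sub (R := R) hL (D.s i) y
    have hexp : Real.exp (-(sg p ρ) * |y - min (D.s i) R|) ≤
        Real.exp (-ε * |y - min (D.s i) R|) := by
      apply Real.exp_le_exp.2
      have := abs_nonneg (y - min (D.s i) R)
      nlinarith
    have hP := Psi_nonneg p ρ (y - D.s i)
    calc |chiL R L (D.s i) - chiL R L y| * (|kn p ρ (y - D.s i) (θ - D.a i)| *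
          (Real.exp (ρ * y) * Real.exp (-ρ * D.s i)))
        ≤ (|min (D.s i) R - min y R| / L) * (Psi p ρ (y - D.s i) *
          (Real.exp (ρ * y) * Real.exp (-ρ * D.s i))) := by gcongr
      _ = (1 / L * Real.exp (ρ * y) * Real.exp (-ρ * D.s i)) *
          (|min (D.s i) R - min y R| * Psi p ρ (y - D.s i)) := by ring
      _ ≤ (1 / L * Real.exp (ρ * y) * Real.exp (-ρ * D.s i)) *
          (C * (Real.exp (-(sg p ρ) * max 0 (D.s i - R)) *
            Real.exp (-(sg p ρ) * |y - min (D.s i) R|))) := by gcongr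
      _ ≤ (1 / L * Real.exp (ρ * y) * Real.exp (-ρ * D.s i)) *
          (C * (Real.exp (-(sg p ρ) * max 0 (D.s i - R)) *
            Real.exp (-ε * |y - min (D.s i) R|))) := by gcongr
      _ = _ := by ring
  have hsumE := (ctr_summable D hσ hε R y).mul_left (C / L * Real.exp (ρ * y))
  have e : ∑' i, chiL R L (D.s i) * kp p (y - D.s i) (θ - D.a i) - chiL R L y * D.U y θ =
      ∑' i, (chiL R L (D.s i) - chiL R L y) * kp p (y - D.s i) (θ - D.a i) := by
    unfold ZD.U
    rw [← tsum_mul_left, ← hsumc.tsum_sub (hsumU.mul_left _)]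
    refine tsum_congr fun i => ?_
    ring
  rw [e, ← Real.norm_eq_abs]
  refine (tsum_of_norm_bounded hsumE.hasSum hterm).trans ?_
  rw [tsum_mul_left]
  unfold ZD.ER
  have : 0 ≤ C / L * Real.exp (ρ * y) := by positivity
  refine mul_le_mul_of_nonneg_left ?_ this
  have := Real.exp_pos (-ε * |y|)
  linarith

theorem ctr_exp_le {ε : ℝ} (hε : 0 < ε) (s t c : ℝ) :
    Real.exp (-ε * |s - c|) ≤ Real.exp (-ε * |t - c|) * Real.exp (ε * |s - t|) := by
  rw [← Real.exp_add]
  apply Real.exp_le_exp.2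
  have := abs_sub_le t s c
  rw [abs_sub_comm t s] at this
  nlinarith

theorem ctr_cont (D : ZD p ρ ι) {σ ε R : ℝ} (hσ : 0 < σ) (hε : 0 < ε) :
    Continuous (D.ER σ ε R) := by
  unfold ZD.ER
  refine Continuous.add ?_ ?_
  · refine continuous_tsum (fun i => ?_) (ctr_w_summable D hσ R) (fun i y => ?_)
    · refine continuous_const.mul (Real.continuous_exp.comp (continuous_const.mul ?_))
      exact (continuous_id.sub continuous_const).abs
    · rw [Real.norm_eq_abs, abs_of_nonneg (by positivity)]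
      have h : Real.exp (-ε * |y - min (D.s i) R|) ≤ 1 := by
        apply Real.exp_le_one_iff.2
        have := abs_nonneg (y - min (D.s i) R)
        nlinarith
      have h0 := (Real.exp_pos (-ρ * D.s i - σ * max 0 (D.s i - R))).le
      nlinarith
  · exact Real.continuous_exp.comp (continuous_const.mul continuous_abs)

theorem ctr_nonneg (D : ZD p ρ ι) (σ ε R y : ℝ) : 0 < D.ER σ ε R y := by
  unfold ZD.ER
  have h : 0 ≤ ∑' i, Real.exp (-ρ * D.s i - σ * max 0 (D.s i - R)) *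
      Real.exp (-ε * |y - min (D.s i) R|) := tsum_nonneg fun i => by positivity
  have := Real.exp_pos (-ε * |y|)
  linarith

theorem ctr_int (D : ZD p ρ ι) {σ ε R : ℝ} (hσ : 0 < σ) (hε : 0 < ε) (hR : 0 ≤ R) :
    Integrable (D.ER σ ε R) := by
  have hexp : Integrable fun y : ℝ => Real.exp (-ε * |y|) := by
    rw [← integrableOn_univ, ← Iic_union_Ioi (a := (0 : ℝ))]
    refine IntegrableOn.union ?_ ?_
    · refine (integrableOn_exp_mul_Iic hε 0).congr_fun (fun y hy => ?_) measurableSet_Iic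
      have hy' : y ≤ 0 := hy
      simp only
      rw [abs_of_nonpos hy']
      ring_nf
    · refine (integrableOn_exp_mul_Ioi (a := -ε) (by linarith) 0).congr_fun (fun y hy => ?_)
        measurableSet_Ioi
      have hy' : 0 < y := hy
      simp only
      rw [abs_of_pos hy']
  set W : ℝ := ∑' i, Real.exp (-ρ * D.s i - σ * max 0 (D.s i - R)) with hW
  refine (hexp.const_mul (Real.exp (ε * R) * W + 1)).mono'
    (ctr_cont D hσ hε).aestronglyMeasurable (ae_of_all _ fun y => ?_)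
  rw [Real.norm_eq_abs, abs_of_pos (ctr_nonneg D σ ε R y)]
  unfold ZD.ER
  have h : ∑' i, Real.exp (-ρ * D.s i - σ * max 0 (D.s i - R)) *
      Real.exp (-ε * |y - min (D.s i) R|) ≤ ∑' i, Real.exp (-ρ * D.s i - σ * max 0 (D.s i - R)) *
        (Real.exp (-ε * |y|) * Real.exp (ε * R)) := by
    refine Summable.tsum_le_tsum (fun i => ?_) (ctr_summable D hσ hε R y)
      ((ctr_w_summable D hσ R).mul_right _)
    refine mul_le_mul_of_nonneg_left ?_ (Real.exp_pos _).le
    rw [← Real.exp_add]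
    apply Real.exp_le_exp.2
    have h1 : |y| ≤ |y - min (D.s i) R| + |min (D.s i) R| := by
      have := abs_add_le (y - min (D.s i) R) (min (D.s i) R)
      simpa using this
    have h3 : |min (D.s i) R| ≤ R := by
      rw [abs_of_nonneg (le_min (D.s0 i) hR)]
      exact min_le_right _ _
    nlinarith
  rw [tsum_mul_right, ← hW] at h
  nlinarith [Real.exp_pos (-ε * |y|)]

theorem slow_ER (D : ZD p ρ ι) {σ ε R : ℝ} (hσ : 0 < σ) (hε : 0 < ε) (hR : 0 ≤ R) :
    Slow ε (D.ER σ ε R) ∧ Integrable (D.ER σ ε R) := by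
  refine ⟨⟨ctr_cont D hσ hε, ctr_nonneg D σ ε R, fun s t => ?_, (ctr_int D hσ hε hR).integrableOn⟩,
    ctr_int D hσ hε hR⟩
  unfold ZD.ER
  rw [add_mul, ← tsum_mul_right]
  refine add_le_add ?_ ?_
  · refine Summable.tsum_le_tsum (fun i => ?_) (ctr_summable D hσ hε R s)
      ((ctr_summable D hσ hε R t).mul_right _)
    rw [mul_assoc]
    refine mul_le_mul_of_nonneg_left ?_ (Real.exp_pos _).le
    exact ctr_exp_le hε s t _
  · have := ctr_exp_le hε s t 0
    simpa using this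

theorem ctr_ER_le (D : ZD p ρ ι) {σ ε : ℝ} (hσ : 0 < σ) (hε : 0 < ε) (hεσ : ε ≤ σ) (R t : ℝ) :
    D.ER σ ε R t ≤ (∑' i, Real.exp (-(ρ + ε) * D.s i) + 1) * Real.exp (ε * t) := by
  unfold ZD.ER
  have h : ∑' i, Real.exp (-ρ * D.s i - σ * max 0 (D.s i - R)) *
      Real.exp (-ε * |t - min (D.s i) R|) ≤ ∑' i, Real.exp (-(ρ + ε) * D.s i) *
        Real.exp (ε * t) := by
    refine Summable.tsum_le_tsum (fun i => ?_) (ctr_summable D hσ hε R t)
      ((D.sum (ρ + ε) (by linarith)).mul_right _)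
    rw [← Real.exp_add, ← Real.exp_add]
    apply Real.exp_le_exp.2
    have h1 : min (D.s i) R - t ≤ |t - min (D.s i) R| := by
      have := neg_abs_le (t - min (D.s i) R)
      linarith
    have h3 : max 0 (D.s i - R) + min (D.s i) R = D.s i := by
      rcases le_total (D.s i) R with h | h
      · rw [min_eq_left h, max_eq_left (by linarith)]; ring
      · rw [min_eq_right h, max_eq_right (by linarith)]; ring
    have h4 := le_max_left 0 (D.s i - R)
    nlinarith
  rw [tsum_mul_right] at h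
  have h5 : Real.exp (-ε * |t|) ≤ Real.exp (ε * t) := by
    apply Real.exp_le_exp.2
    have := neg_abs_le t
    nlinarith
  linarith

theorem ER_bound (D : ZD p ρ ι) {σ ε : ℝ} (hσ : 0 < σ) (hε : 0 < ε) (hεσ : ε ≤ σ) (y : ℝ) :
    ∃ B : ℝ, ∀ R, 0 ≤ R → D.ER σ ε R y ≤ B ∧ ∫ s in Iic y, D.ER σ ε R s ≤ B := by
  set K : ℝ := ∑' i, Real.exp (-(ρ + ε) * D.s i) + 1 with hK
  have hK0 : 0 ≤ K := by
    have : 0 ≤ ∑' i, Real.exp (-(ρ + ε) * D.s i) := tsum_nonneg fun i => (Real.exp_pos _).le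
    linarith
  have hI : IntegrableOn (fun t : ℝ => Real.exp (ε * t)) (Iic y) :=
    integrableOn_exp_mul_Iic hε y
  refine ⟨max (K * Real.exp (ε * y)) (∫ s in Iic y, K * Real.exp (ε * s)), fun R hR => ⟨?_, ?_⟩⟩
  · exact (ctr_ER_le D hσ hε hεσ R y).trans (le_max_left _ _)
  · refine le_trans ?_ (le_max_right _ _)
    exact setIntegral_mono (ctr_int D hσ hε hR).integrableOn (hI.const_mul K)
      (fun t => ctr_ER_le D hσ hε hεσ R t)

end HBInf
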