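import Pool.Agent.HBInd.KerP
import Pool.Agent.HBInd.Trig

/-!
# Extended valued indicators: definitions
-/

namespace HBInf

open HBInd Complex Filter Topology Set MeasureTheory
open scoped Real ComplexConjugate

/-- the arguments of the possible zeros: the closed upper half-plane for `p = 0`, the real axis for
`p = 1` -/
def TT (p : ℕ) : Set ℝ := {α | α ∈ Icc 0 π ∧ (p = 1 → α = 0 ∨ α = π)}

/-- the finite measures `m i` on the rays with arguments `θ i` (in the variable `t = log r`) dominate the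
point `e^{iθ₀}`: for all places `e^{s + iα}` of zeros, `K_p(e^{iθ₀} / e^{s + iα}) ≤
∑_i ∫ e^{-ρt} K_p(e^{t + iθ_i} / e^{s + iα}) dm_i(t)`, where `K_p(w) = log |1 - w| + p Re w` -/
def Dom (p : ℕ) (ρ : ℝ) {n : ℕ} (θ : Fin n → ℝ) (m : Fin n → Measure ℝ) (θ₀ : ℝ) : Prop :=
  ∀ α ∈ TT p, ∀ᵐ s : ℝ, kp p (-s) (θ₀ - α) ≤
    ∑ i, ∫ t, Real.exp (-ρ * t) * kp p (t - s) (θ i - α) ∂(m i)

/-- `ρ`-trigonometric convexity of an extended valued function -/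
def CondT (ρ : ℝ) (h : ℝ → EReal) : Prop :=
  ∀ a t b A B : ℝ, a < t → t < b → b - a < π / ρ → h a ≤ A → h b ≤ B →
    h t ≤ (((A * Real.sin (ρ * (b - t)) + B * Real.sin (ρ * (t - a))) /
      Real.sin (ρ * (b - a)) : ℝ) : EReal)

/-- whenever measures on finitely many rays on which `h < ∞` dominate a point `e^{iθ₀}`, the value `h θ₀` is
at most the corresponding combination of the values of `h` on these rays (for `p = 1` the points on the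
real axis are excluded) -/
def CondA (p : ℕ) (ρ : ℝ) (h : ℝ → EReal) : Prop :=
  ∀ (n : ℕ) (θ : Fin n → ℝ) (m : Fin n → Measure ℝ) (g : Fin n → ℝ) (θ₀ : ℝ),
    (∀ i, IsFiniteMeasure (m i)) → (∀ i, h (θ i) ≤ g i) → (p = 1 → Real.sin θ₀ ≠ 0) →
    Dom p ρ θ m θ₀ → h θ₀ ≤ ((∑ i, (m i).real univ * g i : ℝ) : EReal)

/-- `h a + h (a + π / ρ) ≥ 0` whenever both values are `< ∞` -/
def CondC (ρ : ℝ) (h : ℝ → EReal) : Prop :=
  ∀ a A B : ℝ, h a ≤ A → h (a + π / ρ) ≤ B → 0 ≤ A + B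

/-- the exceptional indicators for `1/2 < ρ < 1` (besides `CondT`): `h < ∞` exactly on the arc `[a, b]`,
`b = a + 2π - π/ρ`, whose midpoint is the argument of a point of the closed upper half-plane,
`h a + h b < 0`, `h θ ≤ h (-θ)` on `(0, π)`, and either the arc is in the closed upper half-plane or
`h = -∞` inside the arc -/
def ExcZero (ρ : ℝ) (h : ℝ → EReal) : Prop :=
  ∃ a A B : ℝ, 0 ≤ a + (π - π / (2 * ρ)) ∧ a + (π - π / (2 * ρ)) ≤ π ∧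
    h a ≤ A ∧ h (a + (2 * π - π / ρ)) ≤ B ∧ A + B < 0 ∧
    (∀ θ ∈ Ioo (a + (2 * π - π / ρ)) (a + 2 * π), h θ = ⊤) ∧
    (∀ θ ∈ Ioo 0 π, h θ ≤ h (-θ)) ∧
    ((0 ≤ a ∧ a + (2 * π - π / ρ) ≤ π) ∨ ∀ θ ∈ Ioo a (a + (2 * π - π / ρ)), h θ = ⊥)

/-- the exceptional indicators for `1 < ρ < 2` (besides `CondT`): `h` is even, and with `b = a + π/ρ`,
`0 ≤ a ≤ π/(2ρ)`, `π - π/(2ρ) ≤ b ≤ π`, one has `h = ∞` on `(a, b)`, `h = -∞` on `[0, a)` and on `(b, π]`,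
`h a + h b < 0`; if `a = π/(2ρ)` also `3 h a + h b ≥ 0`, and if `b = π - π/(2ρ)` also `h a + 3 h b ≥ 0` -/
def ExcOne (ρ : ℝ) (h : ℝ → EReal) : Prop :=
  ∃ a A B : ℝ, 0 ≤ a ∧ a ≤ π / (2 * ρ) ∧ π - π / (2 * ρ) ≤ a + π / ρ ∧ a + π / ρ ≤ π ∧
    h a ≤ A ∧ h (a + π / ρ) ≤ B ∧ A + B < 0 ∧ (∀ θ, h (-θ) = h θ) ∧
    (∀ θ ∈ Ioo a (a + π / ρ), h θ = ⊤) ∧
    (∀ θ ∈ Ico 0 a, h θ = ⊥) ∧ (∀ θ ∈ Ioc (a + π / ρ) π, h θ = ⊥) ∧
    (a = π / (2 * ρ) → ∀ A B : ℝ, h a ≤ A → h (a + π / ρ) ≤ B → 0 ≤ 3 * A + B) ∧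
    (a + π / ρ = π - π / (2 * ρ) → ∀ A B : ℝ, h a ≤ A → h (a + π / ρ) ≤ B → 0 ≤ A + 3 * B)

end HBInf
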