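import Pool.Agent.HBInf.KnTools2

/-!
# Systems of densities on countably many rays

`r i` is the density on the ray `α i`, it starts at `S i ≥ 0` and `r i t ≤ B i (1 + |t|)²`. For `t - u > S i` and
`0 < κ`: `r i (t - u) ≤ B i (1 + |t - u|)² e^{κ (t - u - S i)}`, hence always
(*) `r i (t - u) ≤ C_κ B i e^{-κ S i} e^{2κ|t|} e^{2κ|u|}`.
* `dens_sum`: from (*) with `u = 0`.
* `dpot_int`, `dpot_summable`: (*) and `integrable_psi` with `2κ ≤ sg`.
* `dpot_shift`: `dpot (t + v) θ - dpot t θ = ∑_i ∫ (kn (u + v) - kn u) (θ - α i) r i (t - u) du`, (*), `kn_l1w`.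
* `dpot_cont`: from `dpot_shift`.
* `dpot_kq`: `kq - kp` is supported in `|u| ≤ 4 δ ≤ 1`, (*) and `kq_sub`.
-/

namespace HBInf

open HBInd Complex Filter Topology Set MeasureTheory
open scoped Real ComplexConjugate

/-- the potential of densities `r i` on the rays `α i` -/
noncomputable def dpot (p : ℕ) (ρ : ℝ) {ι : Type} (α : ι → ℝ) (r : ι → ℝ → ℝ) (t θ : ℝ) : ℝ :=
  ∑' i, ∫ u, kn p ρ u (θ - α i) * r i (t - u)

structure Dens (p : ℕ) {ι : Type} (α : ι → ℝ) (r : ι → ℝ → ℝ) (S B : ι → ℝ) : Prop where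
  ang : ∀ i, α i ∈ TT p
  cont : ∀ i, Continuous (r i)
  nn : ∀ i t, 0 ≤ r i t
  supp : ∀ i t, t ≤ S i → r i t = 0
  S0 : ∀ i, 0 ≤ S i
  bd : ∀ i t, r i t ≤ B i * (1 + |t|) ^ 2
  sum : ∀ κ : ℝ, 0 < κ → Summable fun i => (1 + B i) * Real.exp (-κ * S i)

variable {p : ℕ} {ρ : ℝ} {ι : Type} {α : ι → ℝ} {r : ι → ℝ → ℝ} {S B : ι → ℝ}

theorem dens_B (h : Dens p α r S B) (i : ι) : 0 ≤ B i := by
  have h1 := h.nn i 0
  have h2 := h.bd i 0
  rw [abs_zero, add_zero, one_pow, mul_one] at h2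
  exact h1.trans h2

theorem dnt_sq {κ : ℝ} (hκ : 0 < κ) {x : ℝ} (hx : 0 ≤ x) :
    (1 + x) ^ 2 ≤ (1 + 1 / (κ / 2)) ^ 2 * Real.exp (κ * x) := by
  have h := lin_le_exp (half_pos hκ) hx
  calc (1 + x) ^ 2 ≤ ((1 + 1 / (κ / 2)) * Real.exp (κ / 2 * x)) ^ 2 :=
        pow_le_pow_left₀ (by positivity) h 2
    _ = (1 + 1 / (κ / 2)) ^ 2 * Real.exp (κ * x) := by
        rw [mul_pow, ← Real.exp_nat_mul]
        congr 2
        push_cast
        ring

/-- the basic bound of the densities -/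
theorem dnt_star {κ : ℝ} (hκ : 0 < κ) : ∃ C : ℝ, 0 < C ∧ ∀ {ι : Type} {p : ℕ} {α : ι → ℝ}
    {r : ι → ℝ → ℝ} {S B : ι → ℝ}, Dens p α r S B → ∀ (i : ι) (t u : ℝ),
      r i (t - u) ≤ C * (B i * Real.exp (-κ * S i)) *
        (Real.exp (2 * κ * |t|) * Real.exp (2 * κ * |u|)) := by
  refine ⟨(1 + 1 / (κ / 2)) ^ 2, by positivity, ?_⟩
  intro ι p α r S B h i t u
  have hB := dens_B h i
  rcases le_or_gt (t - u) (S i) with hle | hgt
  · rw [h.supp i (t - u) hle]
    positivity
  · have h0 := h.S0 i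
    have h1 := h.bd i (t - u)
    have h2 := dnt_sq hκ (abs_nonneg (t - u))
    have h3 : |t - u| ≤ |t| + |u| := abs_sub _ _
    have h4 : t - u ≤ |t - u| := le_abs_self _
    have h5 : Real.exp (κ * |t - u|) ≤ Real.exp (-κ * S i) *
        (Real.exp (2 * κ * |t|) * Real.exp (2 * κ * |u|)) := by
      rw [← Real.exp_add, ← Real.exp_add]
      apply Real.exp_le_exp.2
      have h6 : κ * |t - u| + κ * S i ≤ κ * (2 * (|t| + |u|)) := by
        rw [← mul_add]
        apply mul_le_mul_of_nonneg_left _ hκ.le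
        linarith
      linarith
    calc r i (t - u) ≤ B i * (1 + |t - u|) ^ 2 := h1
      _ ≤ B i * ((1 + 1 / (κ / 2)) ^ 2 * Real.exp (κ * |t - u|)) :=
          mul_le_mul_of_nonneg_left h2 hB
      _ ≤ B i * ((1 + 1 / (κ / 2)) ^ 2 * (Real.exp (-κ * S i) *
          (Real.exp (2 * κ * |t|) * Real.exp (2 * κ * |u|)))) := by
          apply mul_le_mul_of_nonneg_left _ hB
          exact mul_le_mul_of_nonneg_left h5 (by positivity)
      _ = _ := by ring

theorem dnt_summable (h : Dens p α r S B) {κ : ℝ} (hκ : 0 < κ) :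
    Summable fun i => B i * Real.exp (-κ * S i) := by
  refine Summable.of_nonneg_of_le (fun i => mul_nonneg (dens_B h i) (Real.exp_pos _).le)
    (fun i => ?_) (h.sum κ hκ)
  apply mul_le_mul_of_nonneg_right _ (Real.exp_pos _).le
  linarith

theorem dens_sum (h : Dens p α r S B) {κ : ℝ} (hκ : 0 < κ) :
    ∃ C : ℝ, 0 < C ∧ ∀ t, (Summable fun i => r i t) ∧ ∑' i, r i t ≤ C * Real.exp (κ * |t|) := by
  obtain ⟨C, hC, hst⟩ := dnt_star (half_pos hκ)
  have hs := dnt_summable h (half_pos hκ)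
  have hT : 0 ≤ ∑' i, B i * Real.exp (-(κ / 2) * S i) :=
    tsum_nonneg fun i => mul_nonneg (dens_B h i) (Real.exp_pos _).le
  refine ⟨C * (∑' i, B i * Real.exp (-(κ / 2) * S i)) + 1, by positivity, fun t => ?_⟩
  have hb : ∀ i, r i t ≤ C * (B i * Real.exp (-(κ / 2) * S i)) * Real.exp (κ * |t|) := by
    intro i
    have h1 := hst h i t 0
    rw [sub_zero, abs_zero, mul_zero, Real.exp_zero, mul_one] at h1
    rwa [show 2 * (κ / 2) * |t| = κ * |t| by ring] at h1
  have hs2 : Summable fun i => C * (B i * Real.exp (-(κ / 2) * S i)) * Real.exp (κ * |t|) :=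
    (hs.mul_left C).mul_right _
  have hsr : Summable fun i => r i t := Summable.of_nonneg_of_le (fun i => h.nn i t) hb hs2
  refine ⟨hsr, ?_⟩
  have h2 := hsr.tsum_le_tsum hb hs2
  rw [tsum_mul_right, tsum_mul_left] at h2
  have h3 := Real.exp_pos (κ * |t|)
  rw [add_mul]
  linarith

/-- number of active rays -/
theorem dens_card (h : Dens p α r S B) {κ : ℝ} (hκ : 0 < κ) :
    ∃ C : ℝ, 0 < C ∧ ∀ (t : ℝ) (F : Finset ι), (∀ i ∈ F, S i < t) →
      (F.card : ℝ) ≤ C * Real.exp (κ * |t|) := by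
  have hs := h.sum κ hκ
  have hT : 0 ≤ ∑' i, (1 + B i) * Real.exp (-κ * S i) := tsum_nonneg fun i => by
    have := dens_B h i
    positivity
  refine ⟨(∑' i, (1 + B i) * Real.exp (-κ * S i)) + 1, by positivity, fun t F hF => ?_⟩
  have h1 : ∑ i ∈ F, (1 + B i) * Real.exp (-κ * S i) ≤ ∑' i, (1 + B i) * Real.exp (-κ * S i) :=
    hs.sum_le_tsum F (fun i _ => by
      have := dens_B h i
      positivity)
  have h2 : ∀ i ∈ F, (1 : ℝ) ≤ (1 + B i) * Real.exp (-κ * S i) * Real.exp (κ * |t|) := by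
    intro i hi
    have h3 := hF i hi
    have h4 := dens_B h i
    have h5 := le_abs_self t
    have h6 : 1 ≤ Real.exp (-κ * S i) * Real.exp (κ * |t|) := by
      rw [← Real.exp_add]
      apply Real.one_le_exp
      nlinarith
    rw [mul_assoc]
    nlinarith
  calc (F.card : ℝ) = ∑ i ∈ F, (1 : ℝ) := by simp
    _ ≤ ∑ i ∈ F, (1 + B i) * Real.exp (-κ * S i) * Real.exp (κ * |t|) := Finset.sum_le_sum h2
    _ = (∑ i ∈ F, (1 + B i) * Real.exp (-κ * S i)) * Real.exp (κ * |t|) := by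
        rw [Finset.sum_mul]
    _ ≤ (∑' i, (1 + B i) * Real.exp (-κ * S i)) * Real.exp (κ * |t|) :=
        mul_le_mul_of_nonneg_right h1 (Real.exp_pos _).le
    _ ≤ _ := by
        rw [add_mul]
        have := Real.exp_pos (κ * |t|)
        linarith

theorem dnt_psi_le {p : ℕ} {ρ κ : ℝ} (hκ : 2 * κ ≤ sg p ρ) (u : ℝ) :
    Psi p ρ u * Real.exp (2 * κ * |u|) ≤
      (1 + |u|) ^ 2 * Psi p ρ u * Real.exp (sg p ρ * |u|) := by
  have hP := Psi_nonneg p ρ u
  have h1 : (1 : ℝ) ≤ (1 + |u|) ^ 2 := by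
    have := abs_nonneg u
    nlinarith
  have h2 : Real.exp (2 * κ * |u|) ≤ Real.exp (sg p ρ * |u|) :=
    Real.exp_le_exp.2 (mul_le_mul_of_nonneg_right hκ (abs_nonneg _))
  apply mul_le_mul _ h2 (Real.exp_pos _).le (by positivity)
  nlinarith

theorem dnt_meas (h : Dens p α r S B) (i : ι) (t ψ : ℝ) :
    Measurable fun u => kn p ρ u ψ * r i (t - u) := by
  have h1 := knt_meas_kn p ρ ψ
  have h2 := (h.cont i).measurable
  fun_prop

/-- pointwise bound of the integrand -/
theorem dnt_abs_le (hp : p ≤ 1) (h : Dens p α r S B) {κ C : ℝ} (hκ : 2 * κ ≤ sg p ρ)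
    (hC : 0 ≤ C)
    (hst : ∀ (i : ι) (t u : ℝ), r i (t - u) ≤ C * (B i * Real.exp (-κ * S i)) *
        (Real.exp (2 * κ * |t|) * Real.exp (2 * κ * |u|)))
    (i : ι) (t ψ : ℝ) {u : ℝ} (hu : u ≠ 0) : |kn p ρ u ψ * r i (t - u)| ≤
      C * (B i * Real.exp (-κ * S i)) * Real.exp (2 * κ * |t|) *
        ((1 + |u|) ^ 2 * Psi p ρ u * Real.exp (sg p ρ * |u|)) := by
  have hB := dens_B h i
  have h1 := abs_kn_le hp ρ hu ψ
  have h2 := hst i t u
  have h3 := h.nn i (t - u)
  have h4 := dnt_psi_le hκ u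
  have h5 := Psi_nonneg p ρ u
  rw [abs_mul, abs_of_nonneg h3]
  calc |kn p ρ u ψ| * r i (t - u) ≤ Psi p ρ u * (C * (B i * Real.exp (-κ * S i)) *
        (Real.exp (2 * κ * |t|) * Real.exp (2 * κ * |u|))) := mul_le_mul h1 h2 h3 h5
    _ = C * (B i * Real.exp (-κ * S i)) * Real.exp (2 * κ * |t|) *
        (Psi p ρ u * Real.exp (2 * κ * |u|)) := by ring
    _ ≤ _ := mul_le_mul_of_nonneg_left h4 (by positivity)

theorem dpot_int (hp : p ≤ 1) (h1 : (p : ℝ) < ρ) (h2 : ρ < p + 1) (h : Dens p α r S B)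
    (i : ι) (t ψ : ℝ) : Integrable fun u => kn p ρ u ψ * r i (t - u) := by
  have hs := sg_pos h1 h2
  have hκ : 0 < sg p ρ / 2 := by positivity
  obtain ⟨C, hC, hst⟩ := dnt_star hκ
  refine Integrable.mono' ((integrable_psi hp h1 h2).const_mul
    (C * (B i * Real.exp (-(sg p ρ / 2) * S i)) * Real.exp (2 * (sg p ρ / 2) * |t|)))
    (dnt_meas h i t ψ).aestronglyMeasurable ?_
  filter_upwards [knt_ae_ne] with u hu
  rw [Real.norm_eq_abs]
  exact dnt_abs_le hp h (by linarith) hC.le (fun i t u => hst h i t u) i t ψ hu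

theorem dpot_summable (hp : p ≤ 1) (h1 : (p : ℝ) < ρ) (h2 : ρ < p + 1) (h : Dens p α r S B)
    (t θ : ℝ) : Summable fun i => |∫ u, kn p ρ u (θ - α i) * r i (t - u)| := by
  have hs := sg_pos h1 h2
  have hκ : 0 < sg p ρ / 2 := by positivity
  obtain ⟨C, hC, hst⟩ := dnt_star hκ
  have hI := integrable_psi hp h1 h2
  have hsum := dnt_summable h hκ
  refine Summable.of_nonneg_of_le (fun i => abs_nonneg _) (fun i => ?_)
    (((hsum.mul_left C).mul_right (Real.exp (2 * (sg p ρ / 2) * |t|))).mul_right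
      (∫ u, (1 + |u|) ^ 2 * Psi p ρ u * Real.exp (sg p ρ * |u|)))
  rw [← integral_const_mul]
  refine (abs_integral_le_integral_abs).trans ?_
  refine integral_mono_ae (dpot_int hp h1 h2 h i t (θ - α i)).abs (hI.const_mul _) ?_
  filter_upwards [knt_ae_ne] with u hu
  exact dnt_abs_le hp h (by linarith) hC.le (fun i t u => hst h i t u) i t _ hu

theorem dnt_tsum_diff {ι : Type} {a b c : ι → ℝ} (ha : Summable a) (hb : Summable b)
    (hc : Summable c) (h : ∀ i, |a i - b i| ≤ c i) : |∑' i, a i - ∑' i, b i| ≤ ∑' i, c i := by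
  rw [← ha.tsum_sub hb]
  have hsub := ha.sub hb
  have habs : Summable fun i => |a i - b i| :=
    Summable.of_nonneg_of_le (fun i => abs_nonneg _) h hc
  refine le_trans ?_ (habs.tsum_le_tsum h hc)
  have := norm_tsum_le_tsum_norm (f := fun i => a i - b i) (by simpa using habs)
  simpa using this

theorem dpot_shift (hp : p ≤ 1) (h1 : (p : ℝ) < ρ) (h2 : ρ < p + 1) (h : Dens p α r S B)
    {κ : ℝ} (hκ : 0 < κ) : ∃ C : ℝ, 0 < C ∧ ∀ t v θ : ℝ, 0 ≤ v → v ≤ 1 / 4 →
      |dpot p ρ α r (t + v) θ - dpot p ρ α r t θ| ≤ C * Real.exp (κ * |t|) * √v := by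
  have hs := sg_pos h1 h2
  set κ' := min κ (sg p ρ / 2) / 2 with hκ'
  have hκ'0 : 0 < κ' := by
    have : 0 < min κ (sg p ρ / 2) := lt_min hκ (by positivity)
    positivity
  have hk1 : 2 * κ' ≤ κ := by
    have := min_le_left κ (sg p ρ / 2)
    linarith
  have hk2 : 2 * κ' ≤ sg p ρ / 2 := by
    have := min_le_right κ (sg p ρ / 2)
    linarith
  obtain ⟨C, hC, hst⟩ := dnt_star hκ'0
  obtain ⟨K, hK, hkl⟩ := kn_l1w hp h1 h2
  have hsum := dnt_summable h hκ'0
  have hT : 0 ≤ ∑' i, B i * Real.exp (-κ' * S i) :=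
    tsum_nonneg fun i => mul_nonneg (dens_B h i) (Real.exp_pos _).le
  refine ⟨C * (∑' i, B i * Real.exp (-κ' * S i)) * K + 1, by positivity, ?_⟩
  intro t v θ hv0 hv1
  have hE : Real.exp (2 * κ' * |t|) ≤ Real.exp (κ * |t|) :=
    Real.exp_le_exp.2 (mul_le_mul_of_nonneg_right hk1 (abs_nonneg _))
  have hterm : ∀ i, |(∫ u, kn p ρ u (θ - α i) * r i (t + v - u)) -
      ∫ u, kn p ρ u (θ - α i) * r i (t - u)| ≤
      C * (B i * Real.exp (-κ' * S i)) * (Real.exp (κ * |t|) * (K * √v)) := by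
    intro i
    have hB := dens_B h i
    obtain ⟨hi1, hi2⟩ := hkl v (θ - α i) (θ - α i) (by
      rw [sub_self, abs_zero, add_zero, abs_of_nonneg hv0]
      exact hv1)
    rw [sub_self, abs_zero, add_zero, abs_of_nonneg hv0] at hi2
    have e1 : ∫ u, kn p ρ u (θ - α i) * r i (t + v - u) =
        ∫ u, kn p ρ (u + v) (θ - α i) * r i (t - u) := by
      rw [← integral_add_right_eq_self (μ := volume)
        (fun u => kn p ρ u (θ - α i) * r i (t + v - u)) v]
      congr 1
      funext u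
      congr 2
      ring
    have iI : Integrable fun u => kn p ρ (u + v) (θ - α i) * r i (t - u) := by
      have := (dpot_int hp h1 h2 h i (t + v) (θ - α i)).comp_add_right v
      refine this.congr (Filter.Eventually.of_forall fun u => ?_)
      show kn p ρ (u + v) (θ - α i) * r i (t + v - (u + v)) = _
      congr 2
      ring
    rw [e1, ← integral_sub iI (dpot_int hp h1 h2 h i t (θ - α i))]
    have hb : ∀ u : ℝ, |kn p ρ (u + v) (θ - α i) * r i (t - u) -
        kn p ρ u (θ - α i) * r i (t - u)| ≤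
        C * (B i * Real.exp (-κ' * S i)) * Real.exp (κ * |t|) *
          (|kn p ρ (u + v) (θ - α i) - kn p ρ u (θ - α i)| * Real.exp (sg p ρ / 2 * |u|)) := by
      intro u
      have h3 := h.nn i (t - u)
      have h4 := hst h i t u
      have h5 : Real.exp (2 * κ' * |u|) ≤ Real.exp (sg p ρ / 2 * |u|) :=
        Real.exp_le_exp.2 (mul_le_mul_of_nonneg_right hk2 (abs_nonneg _))
      rw [← sub_mul, abs_mul, abs_of_nonneg h3]
      have h6 : r i (t - u) ≤ C * (B i * Real.exp (-κ' * S i)) *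
          (Real.exp (κ * |t|) * Real.exp (sg p ρ / 2 * |u|)) := by
        refine h4.trans (mul_le_mul_of_nonneg_left ?_ (by positivity))
        exact mul_le_mul hE h5 (Real.exp_pos _).le (Real.exp_pos _).le
      calc |kn p ρ (u + v) (θ - α i) - kn p ρ u (θ - α i)| * r i (t - u)
          ≤ |kn p ρ (u + v) (θ - α i) - kn p ρ u (θ - α i)| *
            (C * (B i * Real.exp (-κ' * S i)) *
          (Real.exp (κ * |t|) * Real.exp (sg p ρ / 2 * |u|))) :=
            mul_le_mul_of_nonneg_left h6 (abs_nonneg _)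
        _ = _ := by ring
    calc |∫ u, (kn p ρ (u + v) (θ - α i) * r i (t - u) - kn p ρ u (θ - α i) * r i (t - u))|
        ≤ ∫ u, |kn p ρ (u + v) (θ - α i) * r i (t - u) - kn p ρ u (θ - α i) * r i (t - u)| :=
          abs_integral_le_integral_abs
      _ ≤ ∫ u, C * (B i * Real.exp (-κ' * S i)) * Real.exp (κ * |t|) *
          (|kn p ρ (u + v) (θ - α i) - kn p ρ u (θ - α i)| * Real.exp (sg p ρ / 2 * |u|)) := by
          refine integral_mono_of_nonneg (Filter.Eventually.of_forall fun u => abs_nonneg _)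
            (hi1.const_mul _) (Filter.Eventually.of_forall hb)
      _ = C * (B i * Real.exp (-κ' * S i)) * Real.exp (κ * |t|) *
          ∫ u, |kn p ρ (u + v) (θ - α i) - kn p ρ u (θ - α i)| *
            Real.exp (sg p ρ / 2 * |u|) := integral_const_mul _ _
      _ ≤ C * (B i * Real.exp (-κ' * S i)) * Real.exp (κ * |t|) * (K * √v) :=
          mul_le_mul_of_nonneg_left hi2 (by positivity)
      _ = _ := by ring
  have hs3 : Summable fun i => C * (B i * Real.exp (-κ' * S i)) *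
      (Real.exp (κ * |t|) * (K * √v)) := (hsum.mul_left C).mul_right _
  have h7 := dnt_tsum_diff (dpot_summable hp h1 h2 h (t + v) θ).of_abs
    (dpot_summable hp h1 h2 h t θ).of_abs hs3 hterm
  rw [tsum_mul_right, tsum_mul_left] at h7
  refine h7.trans ?_
  have h8 : 0 ≤ Real.exp (κ * |t|) * √v := by positivity
  calc C * (∑' i, B i * Real.exp (-κ' * S i)) * (Real.exp (κ * |t|) * (K * √v)) =
      C * (∑' i, B i * Real.exp (-κ' * S i)) * K * (Real.exp (κ * |t|) * √v) := by ring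
    _ ≤ (C * (∑' i, B i * Real.exp (-κ' * S i)) * K + 1) * (Real.exp (κ * |t|) * √v) :=
        mul_le_mul_of_nonneg_right (by linarith) h8
    _ = _ := by ring

theorem dpot_cont (hp : p ≤ 1) (h1 : (p : ℝ) < ρ) (h2 : ρ < p + 1) (h : Dens p α r S B)
    (θ : ℝ) : Continuous fun t => dpot p ρ α r t θ := by
  obtain ⟨C, hC, hsh⟩ := dpot_shift hp h1 h2 h one_pos
  rw [continuous_iff_continuousAt]
  intro t₀
  rw [ContinuousAt, tendsto_iff_norm_sub_tendsto_zero]
  have hlim : Tendsto (fun t => C * Real.exp (1 * (|t₀| + 1)) * √|t - t₀|) (𝓝 t₀) (𝓝 0) := by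
    have hc : Continuous fun t => C * Real.exp (1 * (|t₀| + 1)) * √|t - t₀| := by fun_prop
    have := hc.tendsto t₀
    simpa using this
  refine squeeze_zero' (Filter.Eventually.of_forall fun t => norm_nonneg _) ?_ hlim
  have hnear : ∀ᶠ t in 𝓝 t₀, |t - t₀| < 1 / 4 := by
    have := Metric.ball_mem_nhds t₀ (show (0 : ℝ) < 1 / 4 by norm_num)
    filter_upwards [this] with t ht
    rwa [Metric.mem_ball, Real.dist_eq] at ht
  filter_upwards [hnear] with t ht
  rw [Real.norm_eq_abs]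
  rcases le_total t₀ t with hle | hle
  · have h3 := hsh t₀ (t - t₀) θ (by linarith) (by linarith [le_abs_self (t - t₀)])
    rw [add_sub_cancel] at h3
    rw [abs_of_nonneg (show 0 ≤ t - t₀ by linarith)]
    refine h3.trans ?_
    apply mul_le_mul_of_nonneg_right _ (Real.sqrt_nonneg _)
    apply mul_le_mul_of_nonneg_left _ hC.le
    apply Real.exp_le_exp.2
    linarith
  · have h3 := hsh t (t₀ - t) θ (by linarith) (by
      have := neg_le_abs (t - t₀)
      linarith)
    rw [add_sub_cancel, abs_sub_comm] at h3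
    rw [abs_sub_comm t t₀, abs_of_nonneg (show 0 ≤ t₀ - t by linarith)]
    refine h3.trans ?_
    apply mul_le_mul_of_nonneg_right _ (Real.sqrt_nonneg _)
    apply mul_le_mul_of_nonneg_left _ hC.le
    apply Real.exp_le_exp.2
    have h4 : |t| ≤ |t₀| + |t - t₀| := by
      have := abs_add_le t₀ (t - t₀)
      rwa [add_sub_cancel] at this
    linarith

theorem dpot_kq (hp : p ≤ 1) (h1 : (p : ℝ) < ρ) (h2 : ρ < p + 1) (h : Dens p α r S B)
    {κ : ℝ} (hκ : 0 < κ) : ∃ C : ℝ, 0 < C ∧ ∀ δ ∈ Ioo (0 : ℝ) (1 / 4), ∀ t θ : ℝ,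
      (Summable fun i => ∫ u, kq p δ u (θ - α i) * Real.exp (-ρ * u) * r i (t - u)) ∧
      0 ≤ (∑' i, ∫ u, kq p δ u (θ - α i) * Real.exp (-ρ * u) * r i (t - u)) -
        dpot p ρ α r t θ ∧
      (∑' i, ∫ u, kq p δ u (θ - α i) * Real.exp (-ρ * u) * r i (t - u)) -
        dpot p ρ α r t θ ≤ C * Real.exp (κ * |t|) * δ := by
  have hκ2 := half_pos hκ
  obtain ⟨C, hC, hst⟩ := dnt_star hκ2
  obtain ⟨K, hK, hkq⟩ := kq_sub (p := p) ρ
  have hsum := dnt_summable h hκ2
  have hT : 0 ≤ ∑' i, B i * Real.exp (-(κ / 2) * S i) :=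
    tsum_nonneg fun i => mul_nonneg (dens_B h i) (Real.exp_pos _).le
  refine ⟨C * (∑' i, B i * Real.exp (-(κ / 2) * S i)) * (Real.exp κ * K) + 1, by positivity, ?_⟩
  intro δ hδ t θ
  have hδ0 := hδ.1
  have hδ1 := hδ.2
  -- one ray
  have hone : ∀ i, Integrable (fun u => (kq p δ u (θ - α i) - kp p u (θ - α i)) *
        Real.exp (-ρ * u) * r i (t - u)) ∧
      0 ≤ ∫ u, (kq p δ u (θ - α i) - kp p u (θ - α i)) * Real.exp (-ρ * u) * r i (t - u) ∧
      ∫ u, (kq p δ u (θ - α i) - kp p u (θ - α i)) * Real.exp (-ρ * u) * r i (t - u) ≤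
        C * (B i * Real.exp (-(κ / 2) * S i)) * (Real.exp (κ * |t|) * (Real.exp κ * (K * δ))) := by
    intro i
    have hB := dens_B h i
    obtain ⟨q1, q2, q3, q4⟩ := hkq δ ⟨hδ0, by linarith⟩ (θ - α i)
    have hb : ∀ u : ℝ, u ≠ 0 →
        0 ≤ (kq p δ u (θ - α i) - kp p u (θ - α i)) * Real.exp (-ρ * u) * r i (t - u) ∧
        (kq p δ u (θ - α i) - kp p u (θ - α i)) * Real.exp (-ρ * u) * r i (t - u) ≤
        C * (B i * Real.exp (-(κ / 2) * S i)) * (Real.exp (κ * |t|) * Real.exp κ) *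
          ((kq p δ u (θ - α i) - kp p u (θ - α i)) * Real.exp (-ρ * u)) := by
      intro u hu
      have h3 := h.nn i (t - u)
      have h4 := q1 u hu
      have h5 : 0 ≤ (kq p δ u (θ - α i) - kp p u (θ - α i)) * Real.exp (-ρ * u) := by positivity
      refine ⟨by positivity, ?_⟩
      rcases lt_or_ge (4 * δ) |u| with hu4 | hu4
      · rw [q2 u hu4, sub_self]
        simp
      · have h6 := hst h i t u
        have h7 : Real.exp (2 * (κ / 2) * |t|) * Real.exp (2 * (κ / 2) * |u|) ≤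
            Real.exp (κ * |t|) * Real.exp κ := by
          rw [show 2 * (κ / 2) * |t| = κ * |t| by ring]
          apply mul_le_mul_of_nonneg_left _ (Real.exp_pos _).le
          apply Real.exp_le_exp.2
          nlinarith
        have h8 : r i (t - u) ≤ C * (B i * Real.exp (-(κ / 2) * S i)) *
            (Real.exp (κ * |t|) * Real.exp κ) :=
          h6.trans (mul_le_mul_of_nonneg_left h7 (by positivity))
        rw [mul_comm]
        exact mul_le_mul_of_nonneg_right h8 h5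
    have hI : Integrable (fun u => (kq p δ u (θ - α i) - kp p u (θ - α i)) *
        Real.exp (-ρ * u) * r i (t - u)) := by
      refine Integrable.mono' (q3.const_mul
        (C * (B i * Real.exp (-(κ / 2) * S i)) * (Real.exp (κ * |t|) * Real.exp κ))) ?_ ?_
      · have m1 := knt_meas_kq p δ (θ - α i)
        have m2 := knt_meas_kp p (θ - α i)
        have m3 := (h.cont i).measurable
        have : Measurable (fun u => (kq p δ u (θ - α i) - kp p u (θ - α i)) *
          Real.exp (-ρ * u) * r i (t - u)) := by fun_prop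
        exact this.aestronglyMeasurable
      · filter_upwards [knt_ae_ne] with u hu
        rw [Real.norm_of_nonneg (hb u hu).1]
        exact (hb u hu).2
    refine ⟨hI, ?_, ?_⟩
    · apply integral_nonneg_of_ae
      filter_upwards [knt_ae_ne] with u hu
      exact (hb u hu).1
    · calc ∫ u, (kq p δ u (θ - α i) - kp p u (θ - α i)) * Real.exp (-ρ * u) * r i (t - u)
          ≤ ∫ u, C * (B i * Real.exp (-(κ / 2) * S i)) * (Real.exp (κ * |t|) * Real.exp κ) *
            ((kq p δ u (θ - α i) - kp p u (θ - α i)) * Real.exp (-ρ * u)) := by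
            refine integral_mono_ae hI (q3.const_mul _) ?_
            filter_upwards [knt_ae_ne] with u hu
            exact (hb u hu).2
        _ = C * (B i * Real.exp (-(κ / 2) * S i)) * (Real.exp (κ * |t|) * Real.exp κ) *
            ∫ u, (kq p δ u (θ - α i) - kp p u (θ - α i)) * Real.exp (-ρ * u) :=
            integral_const_mul _ _
        _ ≤ C * (B i * Real.exp (-(κ / 2) * S i)) * (Real.exp (κ * |t|) * Real.exp κ) *
            (K * δ) := mul_le_mul_of_nonneg_left q4 (by positivity)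
        _ = _ := by ring
  have hdec : ∀ i, ∫ u, kq p δ u (θ - α i) * Real.exp (-ρ * u) * r i (t - u) =
      (∫ u, kn p ρ u (θ - α i) * r i (t - u)) +
      ∫ u, (kq p δ u (θ - α i) - kp p u (θ - α i)) * Real.exp (-ρ * u) * r i (t - u) := by
    intro i
    rw [← integral_add (dpot_int hp h1 h2 h i t (θ - α i)) (hone i).1]
    congr 1
    funext u
    unfold kn
    ring
  have hs3 : Summable fun i => C * (B i * Real.exp (-(κ / 2) * S i)) *
      (Real.exp (κ * |t|) * (Real.exp κ * (K * δ))) := (hsum.mul_left C).mul_right _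
  have hsE : Summable fun i =>
      ∫ u, (kq p δ u (θ - α i) - kp p u (θ - α i)) * Real.exp (-ρ * u) * r i (t - u) :=
    Summable.of_nonneg_of_le (fun i => (hone i).2.1) (fun i => (hone i).2.2) hs3
  have hsP : Summable fun i => ∫ u, kn p ρ u (θ - α i) * r i (t - u) :=
    (dpot_summable hp h1 h2 h t θ).of_abs
  have hdiff : (∑' i, ∫ u, kq p δ u (θ - α i) * Real.exp (-ρ * u) * r i (t - u)) -
      dpot p ρ α r t θ =
      ∑' i, ∫ u, (kq p δ u (θ - α i) - kp p u (θ - α i)) * Real.exp (-ρ * u) * r i (t - u) := by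
    unfold dpot
    rw [tsum_congr hdec, hsP.tsum_add hsE]
    ring
  refine ⟨?_, ?_, ?_⟩
  · refine (hsP.add hsE).congr fun i => ?_
    exact (hdec i).symm
  · rw [hdiff]
    exact tsum_nonneg fun i => (hone i).2.1
  · rw [hdiff]
    have h9 := hsE.tsum_le_tsum (fun i => (hone i).2.2) hs3
    rw [tsum_mul_right, tsum_mul_left] at h9
    refine h9.trans ?_
    have h10 : 0 ≤ Real.exp (κ * |t|) * δ := by positivity
    calc C * (∑' i, B i * Real.exp (-(κ / 2) * S i)) *
          (Real.exp (κ * |t|) * (Real.exp κ * (K * δ))) =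
        C * (∑' i, B i * Real.exp (-(κ / 2) * S i)) * (Real.exp κ * K) *
          (Real.exp (κ * |t|) * δ) := by ring
      _ ≤ (C * (∑' i, B i * Real.exp (-(κ / 2) * S i)) * (Real.exp κ * K) + 1) *
          (Real.exp (κ * |t|) * δ) := mul_le_mul_of_nonneg_right (by linarith) h10
      _ = _ := by ring

end HBInf
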