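import Pool.Agent.HBInf.Moments

/-!
# Rays which dominate everything

Let `∑ x_i VV (θ i - α) ≥ c > 0` for `α ∈ TT p` (compactness, `continuous_VV`). For small `κ ∈ (0, sg p ρ / 2)` the measures
`m i = x_i (κ/2) A e^{-κ|t|} dt` have the masses `A x_i` and
`∑_i ∫ kn (t - s) (θ i - α) dm_i(t) = (κ A/2) ∫ e^{-κ|u + s|} ∑_i x_i kn u (θ i - α) du ≥ (κA/2) e^{-κ|s|} (c - C κ) ≥
(κ A c/4) e^{-κ|s|}` (`|e^{-κ|u+s|} - e^{-κ|s|}| ≤ κ |u| e^{κ|u|} e^{-κ|s|}`, `integrable_psi`), which is `≥ kn (-s) (θ₀ - α)` for all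
`s`, `θ₀` if `A ≥ A₀` (`kn_le`: `kn ≤ C e^{-sg |s|}`). Multiply by `e^{-ρs}`.

`hrs_pos`: let `h (θ i) ≤ g i`. If `∑ x_i g i < 0`, then `h θ₀ ≤ A ∑ x_i g i` for all `A ≥ A₀` and all `θ₀` (with
`sin θ₀ ≠ 0` if `p = 1`), so `h θ₀ = ⊥`; choose `a` with `sin a ≠ 0`, `sin (a + π/ρ) ≠ 0`: contradiction to
`CondC` with `A = B = -1`.
-/

namespace HBInf

open HBInd Complex Filter Topology Set MeasureTheory
open scoped Real ComplexConjugate

variable {p : ℕ} {ρ : ℝ}

theorem dal_compact (hp : p ≤ 1) : IsCompact (TT p) := by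
  rcases Nat.le_one_iff_eq_zero_or_eq_one.1 hp with rfl | rfl
  · have : TT 0 = Icc 0 π := by
      ext α
      simp [TT]
    rw [this]
    exact isCompact_Icc
  · have : TT 1 = ({0, π} : Set ℝ) := by
      ext α
      simp only [TT, mem_ofPred_eq, mem_insert_iff, mem_singleton_iff]
      constructor
      · rintro ⟨-, h⟩
        exact h trivial
      · intro h
        refine ⟨?_, fun _ => h⟩
        rcases h with h | h
        · rw [h]; exact ⟨le_refl _, Real.pi_pos.le⟩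
        · rw [h]; exact ⟨Real.pi_pos.le, le_refl _⟩
    rw [this]
    exact (Set.toFinite _).isCompact

theorem dal_zero_mem : (0 : ℝ) ∈ TT p :=
  ⟨⟨le_refl _, Real.pi_pos.le⟩, fun _ => Or.inl rfl⟩

theorem dal_lower (hp : p ≤ 1) (h1 : (p : ℝ) < ρ) (h2 : ρ < p + 1) {n : ℕ} {θ x : Fin n → ℝ}
    (hP : ∀ α ∈ TT p, 0 < ∑ i, x i * VV p ρ (θ i - α)) :
    ∃ c : ℝ, 0 < c ∧ ∀ α ∈ TT p, c ≤ ∑ i, x i * VV p ρ (θ i - α) := by
  have hc : Continuous fun α : ℝ => ∑ i, x i * VV p ρ (θ i - α) := by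
    have h3 := continuous_VV hp h1 h2
    refine continuous_finsetSum _ fun i _ => ?_
    exact continuous_const.mul (h3.comp (continuous_const.sub continuous_id))
  obtain ⟨α₀, hα₀, hmin⟩ := (dal_compact hp).exists_isMinOn ⟨0, dal_zero_mem⟩ hc.continuousOn
  exact ⟨_, hP α₀ hα₀, fun α hα => hmin hα⟩

theorem dal_exp_sub (a b : ℝ) : |Real.exp a - Real.exp b| ≤ |a - b| * Real.exp (b + |a - b|) := by
  rcases le_total b a with h | h
  · rw [abs_of_nonneg (sub_nonneg.2 (Real.exp_le_exp.2 h)), abs_of_nonneg (sub_nonneg.2 h)]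
    have h1 := Real.add_one_le_exp (b - a)
    have h2 : Real.exp b = Real.exp a * Real.exp (b - a) := by
      rw [← Real.exp_add]; congr 1; ring
    have h3 : b + (a - b) = a := by ring
    rw [h3, h2]
    have h4 := Real.exp_pos a
    nlinarith
  · rw [abs_of_nonpos (sub_nonpos.2 (Real.exp_le_exp.2 h)), abs_of_nonpos (sub_nonpos.2 h)]
    have h1 := Real.add_one_le_exp (a - b)
    have h2 : Real.exp a = Real.exp b * Real.exp (a - b) := by
      rw [← Real.exp_add]; congr 1; ring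
    have h3 : Real.exp b ≤ Real.exp (b + -(a - b)) := Real.exp_le_exp.2 (by linarith)
    have h4 := Real.exp_pos b
    have h5 : -(Real.exp a - Real.exp b) ≤ -(a - b) * Real.exp b := by
      rw [h2]; nlinarith
    exact h5.trans (mul_le_mul_of_nonneg_left h3 (by linarith))

/-- the weights vary slowly -/
theorem dal_weight {κ : ℝ} (hκ : 0 ≤ κ) (u s : ℝ) :
    |Real.exp (-κ * |u + s|) - Real.exp (-κ * |s|)| ≤
      κ * (|u| * Real.exp (κ * |u|)) * Real.exp (-κ * |s|) := by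
  have h1 := dal_exp_sub (-κ * |u + s|) (-κ * |s|)
  have h2 : |(-κ * |u + s|) - (-κ * |s|)| ≤ κ * |u| := by
    have e : (-κ * |u + s|) - (-κ * |s|) = κ * (|s| - |u + s|) := by ring
    rw [e, abs_mul, abs_of_nonneg hκ]
    refine mul_le_mul_of_nonneg_left ?_ hκ
    have h3 := abs_abs_sub_abs_le s (u + s)
    have h4 : s - (u + s) = -u := by ring
    rw [h4, abs_neg] at h3
    exact h3
  refine h1.trans ?_
  calc |(-κ * |u + s|) - (-κ * |s|)| * Real.exp (-κ * |s| + |(-κ * |u + s|) - (-κ * |s|)|)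
      ≤ (κ * |u|) * Real.exp (-κ * |s| + κ * |u|) := by
        refine mul_le_mul h2 (Real.exp_le_exp.2 (by linarith)) (Real.exp_pos _).le (by positivity)
    _ = κ * (|u| * Real.exp (κ * |u|)) * Real.exp (-κ * |s|) := by
        rw [Real.exp_add]; ring

theorem dal_mass {κ : ℝ} (hκ : 0 < κ) : ∫ t : ℝ, Real.exp (-κ * |t|) = 2 / κ := by
  rw [integral_comp_abs (f := fun t => Real.exp (-κ * t)), integral_exp_mul_Ioi (by linarith)]
  simp
  field_simp

/-- the main lower bound -/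
theorem dal_main (hp : p ≤ 1) (h1 : (p : ℝ) < ρ) (h2 : ρ < p + 1) {n : ℕ} {θ x : Fin n → ℝ}
    (hx : ∀ i, 0 ≤ x i) (hP : ∀ α ∈ TT p, 0 < ∑ i, x i * VV p ρ (θ i - α)) :
    ∃ κ c : ℝ, 0 < κ ∧ κ ≤ sg p ρ ∧ 0 < c ∧ ∀ α ∈ TT p, ∀ s : ℝ,
      c * Real.exp (-κ * |s|) ≤
        ∑ i, x i * ∫ t : ℝ, Real.exp (-κ * |t|) * kn p ρ (t - s) (θ i - α) := by
  obtain ⟨c, hc, hcl⟩ := dal_lower hp h1 h2 hP
  have hsg := sg_pos h1 h2
  have hJ := integrable_psi hp h1 h2
  set J : ℝ := ∫ u : ℝ, (1 + |u|) ^ 2 * Psi p ρ u * Real.exp (sg p ρ * |u|) with hJd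
  have hJ0 : 0 ≤ J := integral_nonneg fun u => by
    have := Psi_nonneg p ρ u
    positivity
  set X : ℝ := ∑ i, x i with hX
  have hX0 : 0 ≤ X := Finset.sum_nonneg fun i _ => hx i
  set κ : ℝ := min (sg p ρ) (c / (2 * (X * J + 1))) with hκ
  have hκ0 : 0 < κ := lt_min hsg (by positivity)
  have hκ1 : κ ≤ sg p ρ := min_le_left _ _
  have hκ2 : κ * (X * J) ≤ c / 2 := by
    have h3 : κ ≤ c / (2 * (X * J + 1)) := min_le_right _ _
    have h4 : 0 ≤ X * J := by positivity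
    calc κ * (X * J) ≤ c / (2 * (X * J + 1)) * (X * J) := mul_le_mul_of_nonneg_right h3 h4
      _ ≤ c / (2 * (X * J + 1)) * (X * J + 1) :=
          mul_le_mul_of_nonneg_left (by linarith) (by positivity)
      _ = c / 2 := by field_simp
  refine ⟨κ, c / 2, hκ0, hκ1, by positivity, fun α hα s => ?_⟩
  -- each term
  have hterm : ∀ i, VV p ρ (θ i - α) * Real.exp (-κ * |s|) - κ * J * Real.exp (-κ * |s|) ≤
      ∫ t : ℝ, Real.exp (-κ * |t|) * kn p ρ (t - s) (θ i - α) := by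
    intro i
    have hk := integrable_kn hp h1 h2 (θ i - α)
    have e1 : ∫ t : ℝ, Real.exp (-κ * |t|) * kn p ρ (t - s) (θ i - α) =
        ∫ u : ℝ, Real.exp (-κ * |u + s|) * kn p ρ u (θ i - α) := by
      rw [← integral_add_right_eq_self
        (fun t : ℝ => Real.exp (-κ * |t|) * kn p ρ (t - s) (θ i - α)) s]
      simp
    have hbd : ∀ u : ℝ, Real.exp (-κ * |u + s|) ≤ 1 := fun u => by
      rw [Real.exp_le_one_iff]
      have := abs_nonneg (u + s)
      nlinarith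
    have hw : Continuous fun u : ℝ => Real.exp (-κ * |u + s|) := by fun_prop
    have hi1 : Integrable fun u : ℝ => Real.exp (-κ * |u + s|) * kn p ρ u (θ i - α) := by
      refine hk.bdd_mul (c := 1) hw.aestronglyMeasurable (Eventually.of_forall fun u => ?_)
      rw [Real.norm_of_nonneg (Real.exp_pos _).le]
      exact hbd u
    have hi2 : Integrable fun u : ℝ => Real.exp (-κ * |s|) * kn p ρ u (θ i - α) :=
      hk.const_mul _
    have hi3 : Integrable fun u : ℝ => κ * Real.exp (-κ * |s|) *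
        ((1 + |u|) ^ 2 * Psi p ρ u * Real.exp (sg p ρ * |u|)) := hJ.const_mul _
    have h5 : ∫ u : ℝ, (Real.exp (-κ * |s|) * kn p ρ u (θ i - α) - κ * Real.exp (-κ * |s|) *
        ((1 + |u|) ^ 2 * Psi p ρ u * Real.exp (sg p ρ * |u|))) ≤
        ∫ u : ℝ, Real.exp (-κ * |u + s|) * kn p ρ u (θ i - α) := by
      refine integral_mono_ae (hi2.sub hi3) hi1 ?_
      filter_upwards [knt_ae_ne] with u hu
      have h6 := abs_kn_le hp ρ hu (θ i - α)
      have h7 := dal_weight hκ0.le u s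
      have h8 := Psi_nonneg p ρ u
      have h9 : |(Real.exp (-κ * |u + s|) - Real.exp (-κ * |s|)) * kn p ρ u (θ i - α)| ≤
          κ * Real.exp (-κ * |s|) * ((1 + |u|) ^ 2 * Psi p ρ u * Real.exp (sg p ρ * |u|)) := by
        rw [abs_mul]
        calc |Real.exp (-κ * |u + s|) - Real.exp (-κ * |s|)| * |kn p ρ u (θ i - α)|
            ≤ (κ * (|u| * Real.exp (κ * |u|)) * Real.exp (-κ * |s|)) * Psi p ρ u :=
              mul_le_mul h7 h6 (abs_nonneg _) (by positivity)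
          _ = κ * Real.exp (-κ * |s|) * (|u| * Psi p ρ u * Real.exp (κ * |u|)) := by ring
          _ ≤ κ * Real.exp (-κ * |s|) *
              ((1 + |u|) ^ 2 * Psi p ρ u * Real.exp (sg p ρ * |u|)) := by
              refine mul_le_mul_of_nonneg_left ?_ (by positivity)
              have h10 : |u| ≤ (1 + |u|) ^ 2 := by nlinarith [abs_nonneg u]
              have h11 : Real.exp (κ * |u|) ≤ Real.exp (sg p ρ * |u|) :=
                Real.exp_le_exp.2 (mul_le_mul_of_nonneg_right hκ1 (abs_nonneg u))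
              exact mul_le_mul (mul_le_mul_of_nonneg_right h10 h8) h11 (Real.exp_pos _).le
                (by positivity)
      have h12 := (abs_le.1 h9).1
      show Real.exp (-κ * |s|) * kn p ρ u (θ i - α) - κ * Real.exp (-κ * |s|) *
        ((1 + |u|) ^ 2 * Psi p ρ u * Real.exp (sg p ρ * |u|)) ≤
        Real.exp (-κ * |u + s|) * kn p ρ u (θ i - α)
      linarith
    rw [integral_sub hi2 hi3, integral_const_mul, integral_const_mul] at h5
    rw [e1]
    have e2 : ∫ u : ℝ, kn p ρ u (θ i - α) = VV p ρ (θ i - α) := rfl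
    rw [e2] at h5
    calc VV p ρ (θ i - α) * Real.exp (-κ * |s|) - κ * J * Real.exp (-κ * |s|)
        = Real.exp (-κ * |s|) * VV p ρ (θ i - α) - κ * Real.exp (-κ * |s|) * J := by ring
      _ ≤ _ := h5
  have hsum : ∑ i, x i * (VV p ρ (θ i - α) * Real.exp (-κ * |s|) -
      κ * J * Real.exp (-κ * |s|)) ≤
      ∑ i, x i * ∫ t : ℝ, Real.exp (-κ * |t|) * kn p ρ (t - s) (θ i - α) :=
    Finset.sum_le_sum fun i _ => mul_le_mul_of_nonneg_left (hterm i) (hx i)
  have e3 : ∑ i, x i * (VV p ρ (θ i - α) * Real.exp (-κ * |s|) -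
      κ * J * Real.exp (-κ * |s|)) =
      (∑ i, x i * VV p ρ (θ i - α)) * Real.exp (-κ * |s|) -
        κ * (X * J) * Real.exp (-κ * |s|) := by
    rw [hX, Finset.sum_mul, Finset.sum_mul, Finset.mul_sum, Finset.sum_mul,
      ← Finset.sum_sub_distrib]
    exact Finset.sum_congr rfl fun i _ => by ring
  rw [e3] at hsum
  refine le_trans ?_ hsum
  have h13 := hcl α hα
  have h14 := Real.exp_pos (-κ * |s|)
  nlinarith

theorem dom_all (hp : p ≤ 1) (h1 : (p : ℝ) < ρ) (h2 : ρ < p + 1) {n : ℕ} {θ x : Fin n → ℝ}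
    (hx : ∀ i, 0 ≤ x i) (hP : ∀ α ∈ TT p, 0 < ∑ i, x i * VV p ρ (θ i - α)) :
    ∃ A₀ : ℝ, 0 < A₀ ∧ ∀ A : ℝ, A₀ ≤ A → ∃ m : Fin n → Measure ℝ, (∀ i, IsFiniteMeasure (m i)) ∧
      (∀ i, (m i).real univ = A * x i) ∧ ∀ θ₀, Dom p ρ θ m θ₀ := by
  obtain ⟨κ, c, hκ, hκs, hc, hmain⟩ := dal_main hp h1 h2 hx hP
  obtain ⟨C, hC, hkn⟩ := kn_le hp h1 h2
  refine ⟨2 * C / (κ * c), by positivity, fun A hA => ?_⟩
  have hA0 : 0 < A := lt_of_lt_of_le (by positivity) hA
  set w : Fin n → ℝ → ℝ := fun i t => A * x i * (κ / 2) * Real.exp (-κ * |t|) with hw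
  have hw0 : ∀ i t, 0 ≤ w i t := fun i t => by
    have := hx i
    positivity
  have hwc : ∀ i, Continuous (w i) := fun i => by
    simp only [hw]
    fun_prop
  have hwi : ∀ i, Integrable (w i) := fun i => (knt_int_exp hκ).const_mul _
  have hwint : ∀ i, ∫ t, w i t = A * x i := fun i => by
    simp only [hw]
    rw [integral_const_mul, dal_mass hκ]
    field_simp
  set m : Fin n → Measure ℝ := fun i => volume.withDensity (fun t => ENNReal.ofReal (w i t))
    with hm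
  have hmfin : ∀ i, IsFiniteMeasure (m i) := fun i =>
    isFiniteMeasure_withDensity_ofReal (hwi i).2
  have hmint : ∀ i (f : ℝ → ℝ), ∫ t, f t ∂(m i) = ∫ t, w i t * f t := by
    intro i f
    simp only [hm]
    rw [integral_withDensity_eq_integral_toReal_smul (f := fun t => ENNReal.ofReal (w i t))
      (ENNReal.measurable_ofReal.comp (hwc i).measurable)
      (Eventually.of_forall fun t => ENNReal.ofReal_lt_top)]
    refine integral_congr_ae (Eventually.of_forall fun t => ?_)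
    simp only [smul_eq_mul]
    rw [ENNReal.toReal_ofReal (hw0 i t)]
  refine ⟨m, hmfin, fun i => ?_, fun θ₀ α hα => Eventually.of_forall fun s => ?_⟩
  · have h3 := hmint i (fun _ => 1)
    simp only [integral_const, smul_eq_mul, mul_one] at h3
    rw [h3, hwint i]
  · have h4 := hmain α hα s
    have hterm : ∀ i, ∫ t, Real.exp (-ρ * t) * kp p (t - s) (θ i - α) ∂(m i) =
        (A * (κ / 2) * Real.exp (-ρ * s)) *
          (x i * ∫ t : ℝ, Real.exp (-κ * |t|) * kn p ρ (t - s) (θ i - α)) := by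
      intro i
      rw [hmint i, ← integral_const_mul, ← integral_const_mul]
      refine integral_congr_ae (Eventually.of_forall fun t => ?_)
      simp only [hw, kn]
      have e : Real.exp (-ρ * t) = Real.exp (-ρ * s) * Real.exp (-ρ * (t - s)) := by
        rw [← Real.exp_add]; congr 1; ring
      rw [e]
      ring
    rw [Finset.sum_congr rfl fun i _ => hterm i, ← Finset.mul_sum]
    have h5 : kp p (-s) (θ₀ - α) ≤ C * Real.exp (-κ * |s|) * Real.exp (-ρ * s) := by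
      have h6 := hkn (-s) (θ₀ - α)
      rw [kn, abs_neg] at h6
      have h7 : C * Real.exp (-(sg p ρ) * |s|) ≤ C * Real.exp (-κ * |s|) := by
        refine mul_le_mul_of_nonneg_left (Real.exp_le_exp.2 ?_) hC.le
        have := abs_nonneg s
        nlinarith
      have h8 := h6.trans h7
      have h9 : kp p (-s) (θ₀ - α) = (kp p (-s) (θ₀ - α) * Real.exp (-ρ * -s)) *
          Real.exp (-ρ * s) := by
        rw [mul_assoc, ← Real.exp_add]
        simp
      rw [h9]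
      exact mul_le_mul_of_nonneg_right h8 (Real.exp_pos _).le
    refine h5.trans ?_
    have h10 : C ≤ A * (κ / 2) * c := by
      rw [div_le_iff₀ (by positivity)] at hA
      nlinarith
    have h11 := Real.exp_pos (-κ * |s|)
    have h12 := Real.exp_pos (-ρ * s)
    calc C * Real.exp (-κ * |s|) * Real.exp (-ρ * s)
        ≤ (A * (κ / 2) * c) * Real.exp (-κ * |s|) * Real.exp (-ρ * s) := by
          refine mul_le_mul_of_nonneg_right (mul_le_mul_of_nonneg_right h10 h11.le) h12.le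
      _ = (A * (κ / 2) * Real.exp (-ρ * s)) * (c * Real.exp (-κ * |s|)) := by ring
      _ ≤ _ := mul_le_mul_of_nonneg_left h4 (by positivity)

theorem nonP (hp : p ≤ 1) (h1 : (p : ℝ) < ρ) (h2 : ρ < p + 1) {h : ℝ → EReal}
    (hA : CondA p ρ h) {t₀ : ℝ} (ht₀ : h t₀ = ⊤) (hs : p = 1 → Real.sin t₀ ≠ 0) {n : ℕ}
    {θ x : Fin n → ℝ} (hθ : ∀ i, h (θ i) ≠ ⊤) (hx : ∀ i, 0 ≤ x i) :
    ¬∀ α ∈ TT p, 0 < ∑ i, x i * VV p ρ (θ i - α) := by
  intro hP
  obtain ⟨A₀, _, hdom⟩ := dom_all hp h1 h2 hx hP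
  obtain ⟨m, hm1, _, hm3⟩ := hdom A₀ (le_refl _)
  have h3 := hA n θ m (fun i => (h (θ i)).toReal) t₀ hm1
    (fun i => EReal.le_coe_toReal (hθ i)) hs (hm3 t₀)
  rw [ht₀, top_le_iff] at h3
  exact EReal.coe_ne_top _ h3

theorem dal_choose (ρ : ℝ) : ∃ a : ℝ, Real.sin a ≠ 0 ∧ Real.sin (a + π / ρ) ≠ 0 := by
  by_cases h : Real.cos (π / ρ) = 0
  · refine ⟨π / 4, ?_, ?_⟩
    · rw [Real.sin_pi_div_four]
      positivity
    · rw [Real.sin_add, h, mul_zero, zero_add, Real.cos_pi_div_four]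
      have h1 : Real.sin (π / ρ) ≠ 0 := by
        intro h2
        have := Real.sin_sq_add_cos_sq (π / ρ)
        rw [h, h2] at this
        norm_num at this
      exact mul_ne_zero (by positivity) h1
  · refine ⟨π / 2, by simp, ?_⟩
    rw [Real.sin_add]
    simpa using h

theorem hrs_pos (hp : p ≤ 1) (h1 : (p : ℝ) < ρ) (h2 : ρ < p + 1) {h : ℝ → EReal}
    (hA : CondA p ρ h) (hC : CondC ρ h) {n : ℕ} {θ x g : Fin n → ℝ} (hθ : ∀ i, h (θ i) ≤ g i)
    (hx : ∀ i, 0 ≤ x i) (hP : ∀ α ∈ TT p, 0 < ∑ i, x i * VV p ρ (θ i - α)) :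
    0 ≤ ∑ i, x i * g i := by
  by_contra hneg
  rw [not_le] at hneg
  obtain ⟨A₀, hA₀, hdom⟩ := dom_all hp h1 h2 hx hP
  set L : ℝ := ∑ i, x i * g i with hL
  set A : ℝ := max A₀ (-1 / L) with hAd
  have hAL : A * L ≤ -1 := by
    have h3 : -1 / L ≤ A := le_max_right _ _
    have h4 : A * L ≤ (-1 / L) * L := mul_le_mul_of_nonpos_right h3 hneg.le
    rwa [div_mul_cancel₀ _ hneg.ne] at h4
  obtain ⟨m, hm1, hm2, hm3⟩ := hdom A (le_max_left _ _)
  have hall : ∀ θ₀ : ℝ, Real.sin θ₀ ≠ 0 → h θ₀ ≤ ((-1 : ℝ) : EReal) := by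
    intro θ₀ hs
    have h5 := hA n θ m g θ₀ hm1 hθ (fun _ => hs) (hm3 θ₀)
    refine h5.trans ?_
    have e : ∑ i, (m i).real univ * g i = A * L := by
      rw [hL, Finset.mul_sum]
      exact Finset.sum_congr rfl fun i _ => by rw [hm2 i]; ring
    rw [e]
    exact_mod_cast hAL
  obtain ⟨a, ha1, ha2⟩ := dal_choose ρ
  have := hC a (-1) (-1) (hall a ha1) (hall _ ha2)
  norm_num at this

end HBInf
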