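import Pool.Agent.HBInf.PotE
import Pool.Agent.HBInf.DomApply

/-!
# Reading the dual certificate

`m i` finite measures on `EReal`, `m i` restricted to the real line: `(m i).comap Real.toEReal`
(`Real.toEReal` is a measurable embedding, `EReal = {⊥} ∪ range ∪ {⊤}`).

* `cert_mass`: additivity.
* `cert_top`: take continuous `c_T : EReal → [0, 1]`, `c_T = 0` below `T` and `c_T = 1` above `T + 1` (for instance
  `max 0 (min 1 (t - T))` through `EReal`). As `T → ∞`: `potE ψ c_T t → 0` for `t < ⊤`, `potE ψ c_T ⊤ = VV ψ`, all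
  bounded by `∫ Psi`; dominated convergence in the hypothesis. `cert_bot` similarly.
* `cert_dom` (`lam = 1`): for continuous `c ≥ 0` on `ℝ` with compact support, extended by `0` to `±∞`
  (continuous on `EReal`): `potE ψ c (±∞) = 0`, so
  `∫ c s kn (-s) (θ₀ - α) ds ≤ ∑_i ∫∫ c s kn (t - s) (θ i - α) ds dm_i(t) = ∫ c s (∑_i ∫ kn (t - s) (θ i - α) dm_i(t)) ds`
  (Fubini: `kn` is integrable, `m i` finite). So `kn (-s) (θ₀ - α) ≤ ∑_i ∫ kn (t - s) (θ i - α) dm_i(t)` for a.e. `s`
  (both sides locally integrable; `ae_le_of_forall_setIntegral_le`-type lemma via approximation of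
  indicators, or `ae_nonneg_of_forall...` for continuous compactly supported test functions). Multiply
  by `e^{-ρs}`: `kn (t - s) e^{-ρs} = e^{-ρt} kp (t - s)`.
-/

namespace HBInf

open HBInd Complex Filter Topology Set MeasureTheory
open scoped Real ComplexConjugate

variable {p : ℕ} {ρ : ℝ}

theorem duc_compl : (range Real.toEReal)ᶜ = ({⊤} : Set EReal) ∪ {⊥} := by
  ext x
  induction x using EReal.rec <;> simp

/-- splitting off the points at infinity -/
theorem duc_integral (m : Measure EReal) [IsFiniteMeasure m] {f : EReal → ℝ}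
    (hf : Integrable f m) : ∫ t, f t ∂m = ∫ t : ℝ, f t ∂(m.comap Real.toEReal) +
      m.real {⊤} * f ⊤ + m.real {⊥} * f ⊥ := by
  have hr : MeasurableSet (range Real.toEReal) := EReal.measurableEmbedding_coe.measurableSet_range
  rw [← integral_add_compl hr hf, duc_compl, setIntegral_union (by simp)
    (measurableSet_singleton _) hf.integrableOn hf.integrableOn, integral_singleton,
    integral_singleton, ← EReal.measurableEmbedding_coe.map_comap,
    EReal.measurableEmbedding_coe.integral_map, smul_eq_mul, smul_eq_mul, add_assoc]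

theorem cert_fin (m : Measure EReal) [IsFiniteMeasure m] :
    IsFiniteMeasure (m.comap Real.toEReal) := by
  refine ⟨?_⟩
  rw [EReal.measurableEmbedding_coe.comap_apply]
  exact measure_lt_top m _

theorem cert_mass (m : Measure EReal) [IsFiniteMeasure m] :
    m.real univ = (m.comap Real.toEReal).real univ + m.real {⊤} + m.real {⊥} := by
  have h := duc_integral m (integrable_const (1 : ℝ))
  simpa using h

theorem duc_sub_real (t : EReal) (u : ℝ) (e : EReal) (he : e = ⊤ ∨ e = ⊥) :
    t - (u : EReal) = e ↔ t = e := by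
  rcases he with rfl | rfl
  · induction t using EReal.rec with
    | bot => simp
    | coe a => exact iff_of_false (EReal.coe_ne_top (a - u)) (EReal.coe_ne_top a)
    | top => simp
  · induction t using EReal.rec with
    | bot => simp
    | coe a => exact iff_of_false (EReal.coe_ne_bot (a - u)) (EReal.coe_ne_bot a)
    | top => simp

/-- densities concentrating at a point at infinity -/
theorem duc_lim (hp : p ≤ 1) (h1 : (p : ℝ) < ρ) (h2 : ρ < p + 1) {n : ℕ} {θ : Fin n → ℝ}
    {m : Fin n → Measure EReal} (hm : ∀ i, IsFiniteMeasure (m i)) {lam θ₀ α : ℝ}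
    (h : ∀ c : C(EReal, ℝ), (∀ t, 0 ≤ c t) →
      lam * potE p ρ (θ₀ - α) c 0 ≤ ∑ i, ∫ t, potE p ρ (θ i - α) c t ∂(m i))
    (e : EReal) (he : e = ⊤ ∨ e = ⊥) (c : ℕ → C(EReal, ℝ)) (hc : ∀ k t, 0 ≤ c k t ∧ c k t ≤ 1)
    (hce : ∀ k, c k e = 1) (hc0 : ∀ t, t ≠ e → ∀ᶠ k in atTop, c k t = 0) :
    0 ≤ ∑ i, (m i).real {e} * VV p ρ (θ i - α) := by
  classical
  have hnorm : ∀ k, ‖c k‖ ≤ 1 := by
    intro k
    rw [ContinuousMap.norm_le _ zero_le_one]
    intro t
    rw [Real.norm_of_nonneg (hc k t).1]
    exact (hc k t).2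
  -- pointwise limit of the potentials
  have hlim : ∀ (ψ : ℝ) (t : EReal), Tendsto (fun k => potE p ρ ψ (c k) t) atTop
      (𝓝 (({e} : Set EReal).indicator (fun _ => VV p ρ ψ) t)) := by
    intro ψ t
    by_cases ht : t = e
    · subst ht
      rw [Set.indicator_of_mem (Set.mem_singleton t)]
      have h3 : ∀ k, potE p ρ ψ (c k) t = VV p ρ ψ := by
        intro k
        rcases he with rfl | rfl
        · rw [potE_top, hce k, mul_one]
          rfl
        · rw [potE_bot, hce k, mul_one]
          rfl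
      simp only [h3]
      exact tendsto_const_nhds
    · rw [Set.indicator_of_notMem (by simpa using ht)]
      have h4 : (0 : ℝ) = ∫ _ : ℝ, (0 : ℝ) := by simp
      rw [h4]
      unfold potE
      refine tendsto_integral_of_dominated_convergence (fun u => ‖kn p ρ u ψ‖) ?_ ?_ ?_ ?_
      · intro k
        exact (potE_integrable hp h1 h2 ψ (c k) t).aestronglyMeasurable
      · exact (integrable_kn hp h1 h2 ψ).norm
      · intro k
        refine Filter.Eventually.of_forall fun u => ?_
        rw [norm_mul]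
        have h5 : ‖c k (t - (u : EReal))‖ ≤ 1 := ((c k).norm_coe_le_norm _).trans (hnorm k)
        exact mul_le_of_le_one_right (norm_nonneg _) h5
      · refine Filter.Eventually.of_forall fun u => ?_
        have h6 : t - (u : EReal) ≠ e := by
          rw [Ne, duc_sub_real t u e he]
          exact ht
        refine tendsto_const_nhds.congr' ?_
        filter_upwards [hc0 _ h6] with k hk
        rw [hk, mul_zero]
  have hbd : ∀ (ψ : ℝ) (k : ℕ) (t : EReal), ‖potE p ρ ψ (c k) t‖ ≤ ∫ u, Psi p ρ u := by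
    intro ψ k t
    have h5 := abs_potE_le hp h1 h2 ψ (c k) t
    have h6 : 0 ≤ ∫ u, Psi p ρ u := integral_nonneg fun u => Psi_nonneg p ρ u
    rw [Real.norm_eq_abs]
    refine h5.trans ?_
    exact mul_le_of_le_one_left h6 (hnorm k)
  have hR : ∀ i, Tendsto (fun k => ∫ t, potE p ρ (θ i - α) (c k) t ∂(m i)) atTop
      (𝓝 ((m i).real {e} * VV p ρ (θ i - α))) := by
    intro i
    have := hm i
    have h7 : (m i).real {e} * VV p ρ (θ i - α) =
        ∫ t, ({e} : Set EReal).indicator (fun _ => VV p ρ (θ i - α)) t ∂(m i) := by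
      rw [integral_indicator_const _ (measurableSet_singleton e), smul_eq_mul]
    rw [h7]
    refine tendsto_integral_of_dominated_convergence (fun _ => ∫ u, Psi p ρ u) ?_ ?_ ?_ ?_
    · intro k
      exact (potE_continuous hp h1 h2 (θ i - α) (c k)).aestronglyMeasurable
    · exact integrable_const _
    · intro k
      exact Filter.Eventually.of_forall fun t => hbd _ k t
    · exact Filter.Eventually.of_forall fun t => hlim _ t
  have hL : Tendsto (fun k => lam * potE p ρ (θ₀ - α) (c k) 0) atTop (𝓝 (lam * 0)) := by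
    have h8 := (hlim (θ₀ - α) 0).const_mul lam
    rw [Set.indicator_of_notMem] at h8
    · exact h8
    · rcases he with rfl | rfl
      · simp
      · simp
  have h9 := le_of_tendsto_of_tendsto' hL (tendsto_finsetSum _ fun i _ => hR i)
    (fun k => h (c k) fun t => (hc k t).1)
  rwa [mul_zero] at h9

theorem cert_top (hp : p ≤ 1) (h1 : (p : ℝ) < ρ) (h2 : ρ < p + 1) {n : ℕ} {θ : Fin n → ℝ}
    {m : Fin n → Measure EReal} (hm : ∀ i, IsFiniteMeasure (m i)) {lam θ₀ α : ℝ}
    (h : ∀ c : C(EReal, ℝ), (∀ t, 0 ≤ c t) →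
      lam * potE p ρ (θ₀ - α) c 0 ≤ ∑ i, ∫ t, potE p ρ (θ i - α) c t ∂(m i)) :
    0 ≤ ∑ i, (m i).real {⊤} * VV p ρ (θ i - α) ∧ 0 ≤ ∑ i, (m i).real {⊥} * VV p ρ (θ i - α) := by
  constructor
  · have hU : ∀ k : ℕ, ∃ f : C(EReal, ℝ), EqOn f 0 (Iic ((k : ℝ) : EReal)) ∧ EqOn f 1 {⊤} ∧
        ∀ x, f x ∈ Icc (0 : ℝ) 1 := by
      intro k
      refine exists_continuous_zero_one_of_isClosed isClosed_Iic isClosed_singleton ?_
      rw [Set.disjoint_singleton_right]
      intro hmem
      exact EReal.coe_ne_top _ (top_le_iff.1 hmem)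
    choose c hc1 hc2 hc3 using hU
    refine duc_lim hp h1 h2 hm h ⊤ (Or.inl rfl) c (fun k t => ⟨(hc3 k t).1, (hc3 k t).2⟩)
      (fun k => hc2 k rfl) ?_
    intro t ht
    obtain ⟨N, hN⟩ : ∃ N : ℕ, t ≤ ((N : ℝ) : EReal) := by
      induction t using EReal.rec with
      | bot => exact ⟨0, bot_le⟩
      | coe a =>
        obtain ⟨N, hN⟩ := exists_nat_ge a
        exact ⟨N, by exact_mod_cast hN⟩
      | top => exact absurd rfl ht
    filter_upwards [eventually_ge_atTop N] with k hk
    refine hc1 k (hN.trans ?_)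
    exact_mod_cast hk
  · have hU : ∀ k : ℕ, ∃ f : C(EReal, ℝ), EqOn f 0 (Ici ((-(k : ℝ) : ℝ) : EReal)) ∧
        EqOn f 1 {⊥} ∧ ∀ x, f x ∈ Icc (0 : ℝ) 1 := by
      intro k
      refine exists_continuous_zero_one_of_isClosed isClosed_Ici isClosed_singleton ?_
      rw [Set.disjoint_singleton_right]
      intro hmem
      exact EReal.coe_ne_bot _ (le_bot_iff.1 hmem)
    choose c hc1 hc2 hc3 using hU
    refine duc_lim hp h1 h2 hm h ⊥ (Or.inr rfl) c (fun k t => ⟨(hc3 k t).1, (hc3 k t).2⟩)
      (fun k => hc2 k rfl) ?_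
    intro t ht
    obtain ⟨N, hN⟩ : ∃ N : ℕ, ((-(N : ℝ) : ℝ) : EReal) ≤ t := by
      induction t using EReal.rec with
      | bot => exact absurd rfl ht
      | coe a =>
        obtain ⟨N, hN⟩ := exists_nat_ge (-a)
        exact ⟨N, by exact_mod_cast (by linarith : -(N : ℝ) ≤ a)⟩
      | top => exact ⟨0, le_top⟩
    filter_upwards [eventually_ge_atTop N] with k hk
    refine hc1 k (le_trans ?_ hN)
    have h3 : (-(k : ℝ) : ℝ) ≤ -(N : ℝ) := by
      have : (N : ℝ) ≤ k := by exact_mod_cast hk
      linarith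
    exact_mod_cast h3

/-- an integrable function with nonnegative integrals against nonnegative test functions -/
theorem duc_ae_nonneg {F : ℝ → ℝ} (hF : Integrable F)
    (h : ∀ c : ℝ → ℝ, Continuous c → HasCompactSupport c → (∀ x, 0 ≤ c x) →
      0 ≤ ∫ x, c x * F x) : 0 ≤ᵐ[volume] F := by
  apply ae_nonneg_of_forall_setIntegral_nonneg hF
  intro s hs _
  set μ' : Measure ℝ := volume.withDensity (fun x => (‖F x‖₊ : ENNReal)) with hμ'
  have : IsFiniteMeasure μ' := isFiniteMeasure_withDensity hF.2.ne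
  have hden : ∀ g : ℝ → ℝ, ∫ x, g x ∂μ' = ∫ x, |F x| * g x := by
    intro g
    rw [hμ', integral_withDensity_eq_integral_smul₀ hF.1.aemeasurable.nnnorm]
    rfl
  by_contra hneg
  rw [not_le] at hneg
  obtain ⟨g, hg1, hg2, hg3, hg4⟩ := Integrable.exists_hasCompactSupport_integral_sub_le
    (μ := μ') (f := s.indicator (fun _ => (1 : ℝ)))
    ((integrable_const (1 : ℝ)).indicator hs) (ε := -(∫ x in s, F x) / 2) (by linarith)
  have hc := h (fun x => max (g x) 0) (hg3.max continuous_const)
    (hg1.comp_left (g := fun y : ℝ => max y 0) (by simp)) (fun x => le_max_right _ _)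
  obtain ⟨B, hB⟩ := hg1.exists_bound_of_continuous hg3
  have hi1 : Integrable (fun x => max (g x) 0 * F x) := by
    refine hF.bdd_mul (c := B) (hg3.max continuous_const).aestronglyMeasurable ?_
    refine Filter.Eventually.of_forall fun x => ?_
    rw [Real.norm_of_nonneg (le_max_right _ _)]
    have h3 := hB x
    rw [Real.norm_eq_abs] at h3
    exact max_le ((le_abs_self _).trans h3) ((abs_nonneg _).trans h3)
  have hi2 : Integrable (fun x => s.indicator (fun _ => (1 : ℝ)) x * F x) := by
    have h4 : (fun x => s.indicator (fun _ => (1 : ℝ)) x * F x) = s.indicator F := by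
      ext x
      by_cases hx : x ∈ s <;> simp [hx]
    rw [h4]
    exact hF.indicator hs
  have h5 : ∫ x in s, F x = ∫ x, s.indicator (fun _ => (1 : ℝ)) x * F x := by
    rw [← integral_indicator hs]
    congr 1
    ext x
    by_cases hx : x ∈ s <;> simp [hx]
  have h6 : (∫ x, max (g x) 0 * F x) - ∫ x, s.indicator (fun _ => (1 : ℝ)) x * F x ≤
      -(∫ x in s, F x) / 2 := by
    rw [← integral_sub hi1 hi2]
    refine le_trans ?_ hg2
    rw [hden]
    have hi3 : Integrable (fun x => |F x| * ‖s.indicator (fun _ => (1 : ℝ)) x - g x‖) := by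
      refine hF.abs.mul_bdd (c := 1 + B) ?_ ?_
      · exact ((measurable_const.indicator hs).aestronglyMeasurable.sub
          hg3.aestronglyMeasurable).norm
      · refine Filter.Eventually.of_forall fun x => ?_
        rw [norm_norm]
        refine (norm_sub_le _ _).trans (add_le_add ?_ (hB x))
        by_cases hx : x ∈ s <;> simp [hx]
    refine integral_mono (hi1.sub hi2) hi3 fun x => ?_
    show max (g x) 0 * F x - s.indicator (fun _ => (1 : ℝ)) x * F x ≤
      |F x| * ‖s.indicator (fun _ => (1 : ℝ)) x - g x‖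
    have h7 : |max (g x) 0 - s.indicator (fun _ => (1 : ℝ)) x| ≤
        ‖s.indicator (fun _ => (1 : ℝ)) x - g x‖ := by
      rw [Real.norm_eq_abs, abs_sub_comm (s.indicator (fun _ => (1 : ℝ)) x)]
      have h8 : 0 ≤ s.indicator (fun _ => (1 : ℝ)) x := by
        by_cases hx : x ∈ s <;> simp [hx]
      have h9 := abs_max_sub_max_le_abs (g x) (s.indicator (fun _ => (1 : ℝ)) x) 0
      rwa [max_eq_left h8] at h9
    calc _ = (max (g x) 0 - s.indicator (fun _ => (1 : ℝ)) x) * F x := by ring
      _ ≤ |(max (g x) 0 - s.indicator (fun _ => (1 : ℝ)) x) * F x| := le_abs_self _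
      _ = |max (g x) 0 - s.indicator (fun _ => (1 : ℝ)) x| * |F x| := abs_mul _ _
      _ ≤ ‖s.indicator (fun _ => (1 : ℝ)) x - g x‖ * |F x| :=
        mul_le_mul_of_nonneg_right h7 (abs_nonneg _)
      _ = _ := mul_comm _ _
  rw [← h5] at h6
  linarith

/-- extension of a test function by zero to the points at infinity -/
theorem duc_extend (c : ℝ → ℝ) (hc : Continuous c) (hs : HasCompactSupport c) :
    ∃ c' : C(EReal, ℝ), (∀ t : ℝ, c' t = c t) ∧ c' ⊤ = 0 ∧ c' ⊥ = 0 := by
  obtain ⟨R, hR⟩ := hs.isCompact.isBounded.subset_closedBall 0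
  set R' : ℝ := max R 0 + 1 with hR'
  have hR0 : 0 < R' := by
    have := le_max_right R 0
    linarith
  have hcR : ∀ t : ℝ, R' ≤ |t| → c t = 0 := by
    intro t ht
    by_contra hne
    have h1 := hR (subset_tsupport c hne)
    rw [Metric.mem_closedBall, dist_zero_right, Real.norm_eq_abs] at h1
    have := le_max_left R 0
    linarith
  -- the clamp
  have hcl : Continuous fun t : EReal => (max ((-R' : ℝ) : EReal) (min ((R' : ℝ) : EReal) t)).toReal := by
    rw [continuous_iff_continuousAt]
    intro t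
    have hcont : ContinuousAt (fun t : EReal => max ((-R' : ℝ) : EReal) (min ((R' : ℝ) : EReal) t)) t := by
      fun_prop
    refine ContinuousAt.comp (g := EReal.toReal) ?_ hcont
    refine EReal.tendsto_toReal ?_ ?_
    · intro h
      rcases max_eq_iff.1 h with h | h
      · exact EReal.coe_ne_top _ h.1
      · have := min_le_left ((R' : ℝ) : EReal) t
        rw [h.1] at this
        exact EReal.coe_ne_top _ (top_le_iff.1 this)
    · intro h
      have := le_max_left ((-R' : ℝ) : EReal) (min ((R' : ℝ) : EReal) t)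
      rw [h] at this
      exact EReal.coe_ne_bot _ (le_bot_iff.1 this)
  refine ⟨⟨fun t => c (max ((-R' : ℝ) : EReal) (min ((R' : ℝ) : EReal) t)).toReal, hc.comp hcl⟩,
    ?_, ?_, ?_⟩
  · intro t
    show c (max ((-R' : ℝ) : EReal) (min ((R' : ℝ) : EReal) t)).toReal = c t
    have h1 : (max ((-R' : ℝ) : EReal) (min ((R' : ℝ) : EReal) t)).toReal = max (-R') (min R' t) := by
      have h2 : max ((-R' : ℝ) : EReal) (min ((R' : ℝ) : EReal) t) = ((max (-R') (min R' t) : ℝ) : EReal) := by
        rw [EReal.coe_strictMono.monotone.map_max, EReal.coe_strictMono.monotone.map_min]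
      rw [h2, EReal.toReal_coe]
    rw [h1]
    rcases le_total R' t with h3 | h3
    · rw [min_eq_left h3, max_eq_right (by linarith), hcR R' (le_abs_self _),
        hcR t (h3.trans (le_abs_self _))]
    · rw [min_eq_right h3]
      rcases le_total (-R') t with h4 | h4
      · rw [max_eq_right h4]
      · rw [max_eq_left h4, hcR (-R') (by rw [abs_neg]; exact le_abs_self _),
          hcR t (by rw [← abs_neg]; exact le_trans (by linarith) (le_abs_self _))]
  · show c (max ((-R' : ℝ) : EReal) (min ((R' : ℝ) : EReal) ⊤)).toReal = 0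
    rw [min_eq_left le_top, max_eq_right (by exact_mod_cast (by linarith : -R' ≤ R')),
      EReal.toReal_coe]
    exact hcR R' (le_abs_self _)
  · show c (max ((-R' : ℝ) : EReal) (min ((R' : ℝ) : EReal) ⊥)).toReal = 0
    rw [min_eq_right bot_le, max_eq_left bot_le, EReal.toReal_coe]
    exact hcR (-R') (by rw [abs_neg]; exact le_abs_self _)

theorem cert_dom (hp : p ≤ 1) (h1 : (p : ℝ) < ρ) (h2 : ρ < p + 1) {n : ℕ} {θ : Fin n → ℝ}
    {m : Fin n → Measure EReal} (hm : ∀ i, IsFiniteMeasure (m i)) {θ₀ : ℝ}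
    (h : ∀ α ∈ TT p, ∀ c : C(EReal, ℝ), (∀ t, 0 ≤ c t) →
      potE p ρ (θ₀ - α) c 0 ≤ ∑ i, ∫ t, potE p ρ (θ i - α) c t ∂(m i)) :
    Dom p ρ θ (fun i => (m i).comap Real.toEReal) θ₀ := by
  intro α hα
  have hν : ∀ i, IsFiniteMeasure ((m i).comap Real.toEReal) := fun i => by
    have := hm i
    exact cert_fin (m i)
  have hprod := fun i => dom_prod hp h1 h2 ((m i).comap Real.toEReal) (θ i - α) 0
  have hk0 : Integrable (fun s => kn p ρ (-s) (θ₀ - α)) := (integrable_kn hp h1 h2 _).comp_neg
  have hI : ∀ i, Integrable (fun s => ∫ t, kn p ρ (0 + t - s) (θ i - α)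
      ∂((m i).comap Real.toEReal)) := fun i => (hprod i).integral_prod_left
  have hsum : Integrable (fun s => ∑ i, ∫ t, kn p ρ (0 + t - s) (θ i - α)
      ∂((m i).comap Real.toEReal)) := integrable_finsetSum _ fun i _ => hI i
  have key := duc_ae_nonneg (hsum.sub hk0) (by
    intro c hc hs hc0
    obtain ⟨c', hc1, hc2, hc3⟩ := duc_extend c hc hs
    obtain ⟨B, hB⟩ := hs.exists_bound_of_continuous hc
    have hB' : ∀ t, 0 ≤ c t ∧ c t ≤ B := fun t =>
      ⟨hc0 t, (le_abs_self _).trans (by rw [← Real.norm_eq_abs]; exact hB t)⟩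
    have hc'0 : ∀ t, 0 ≤ c' t := by
      intro t
      induction t using EReal.rec with
      | bot => rw [hc3]
      | coe a => rw [hc1]; exact hc0 a
      | top => rw [hc2]
    have h3 := h α hα c' hc'0
    have hreal : ∀ (ψ t : ℝ), potE p ρ ψ c' t = ∫ s, kn p ρ (0 + t - s) ψ * c s := by
      intro ψ t
      rw [potE_real]
      simp only [hc1]
      rw [← integral_sub_left_eq_self (fun s => kn p ρ (0 + t - s) ψ * c s) volume t]
      congr 1
      ext u
      congr 2
      ring
    have h4 : potE p ρ (θ₀ - α) c' 0 = ∫ s, c s * kn p ρ (-s) (θ₀ - α) := by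
      have h5 := hreal (θ₀ - α) 0
      rw [EReal.coe_zero] at h5
      rw [h5]
      congr 1
      ext s
      rw [mul_comm, show (0 : ℝ) + 0 - s = -s by ring]
    have h6 : ∀ i, ∫ t, potE p ρ (θ i - α) c' t ∂(m i) =
        ∫ s, c s * ∫ t, kn p ρ (0 + t - s) (θ i - α) ∂((m i).comap Real.toEReal) := by
      intro i
      have := hm i
      have hint : Integrable (potE p ρ (θ i - α) c') (m i) := by
        refine Integrable.of_bound
          (potE_continuous hp h1 h2 (θ i - α) c').aestronglyMeasurable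
          (‖c'‖ * ∫ u, Psi p ρ u) (Filter.Eventually.of_forall fun t => ?_)
        rw [Real.norm_eq_abs]
        exact abs_potE_le hp h1 h2 _ c' t
      rw [duc_integral (m i) hint, potE_top, potE_bot, hc2, hc3]
      simp only [mul_zero, add_zero, hreal]
      have h7 := integral_integral_swap (f := fun s t => kn p ρ (0 + t - s) (θ i - α) * c s)
        (dom_prod_r hp h1 h2 ((m i).comap Real.toEReal)
        (θ i - α) 0 hc.measurable hB')
      rw [← h7]
      congr 1
      ext s
      rw [← integral_const_mul]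
      congr 1
      ext t
      exact mul_comm _ _
    rw [h4] at h3
    simp only [h6] at h3
    have hcb : ∀ {G : ℝ → ℝ}, Integrable G → Integrable (fun s => c s * G s) := by
      intro G hG
      exact hG.bdd_mul (c := B) hc.aestronglyMeasurable (Filter.Eventually.of_forall hB)
    have h8 : ∫ x, c x * (((fun s => ∑ i, ∫ t, kn p ρ (0 + t - s) (θ i - α)
        ∂((m i).comap Real.toEReal)) - fun s => kn p ρ (-s) (θ₀ - α)) x) =
        ∑ i, (∫ s, c s * ∫ t, kn p ρ (0 + t - s) (θ i - α) ∂((m i).comap Real.toEReal)) -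
          ∫ s, c s * kn p ρ (-s) (θ₀ - α) := by
      rw [← integral_finsetSum _ (fun i _ => hcb (hI i)),
        ← integral_sub (integrable_finsetSum _ fun i _ => hcb (hI i)) (hcb hk0)]
      congr 1
      ext s
      simp only [Pi.sub_apply]
      rw [mul_sub, Finset.mul_sum]
    rw [h8]
    linarith)
  filter_upwards [key] with s hs
  have h9 : 0 ≤ (∑ i, ∫ t, kn p ρ (0 + t - s) (θ i - α) ∂((m i).comap Real.toEReal)) -
      kn p ρ (-s) (θ₀ - α) := hs
  have h10 : ∀ i, ∫ t, kn p ρ (0 + t - s) (θ i - α) ∂((m i).comap Real.toEReal) =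
      Real.exp (ρ * s) * ∫ t, Real.exp (-ρ * t) * kp p (t - s) (θ i - α)
        ∂((m i).comap Real.toEReal) := by
    intro i
    rw [← integral_const_mul]
    congr 1
    ext t
    rw [zero_add]
    show kp p (t - s) (θ i - α) * Real.exp (-ρ * (t - s)) =
      Real.exp (ρ * s) * (Real.exp (-ρ * t) * kp p (t - s) (θ i - α))
    rw [show -ρ * (t - s) = ρ * s + -ρ * t by ring, Real.exp_add]
    ring
  simp only [h10] at h9
  rw [← Finset.mul_sum] at h9
  have h11 : kn p ρ (-s) (θ₀ - α) = Real.exp (ρ * s) * kp p (-s) (θ₀ - α) := by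
    show kp p (-s) (θ₀ - α) * Real.exp (-ρ * -s) = _
    rw [show -ρ * -s = ρ * s by ring]
    ring
  rw [h11, ← mul_sub] at h9
  have h12 := nonneg_of_mul_nonneg_right h9 (Real.exp_pos (ρ * s))
  linarith

end HBInf
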