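import Pool.Agent.HBInf.RepOne
import Pool.Agent.HBInf.DensS

/-!
# The indicator is even, order between one and two

Let `0 < θ < π`; `ind ρ f θ ≤ ind ρ f (-θ)` is `InClass.ind_le`. Let `ind ρ f θ < g` (real); we show
`ind ρ f (-θ) ≤ g`. Let `D` be from `repOne`, `U y (-θ) = U y θ` (`ZD.U_neg`), `σ'` from (3) with `θ`; we may assume
`0 ≤ σ'`. Let `0 < κ` small: `σ' + 2κ < ρ`. For `y` large and `η = e^{-2κy}`:
* `(1/η) ∫_y^{y+η} e^{-ρt} U t θ dt ≤ g + (1/η) C e^{σ'y} e^{-ρy} = g + o(1)` (`‖f (ray (e^t) θ)‖ ≤ e^{g e^{ρt}}`, `log 0 = 0`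
  in Lean at the countably many zeros; `repOne` (3)).
* for `t ∈ [y, y + η]`: `|e^{-ρt} U t (-θ) - e^{-ρy} U y (-θ)| ≤ C η N(y)` with `N = N κ'`-type averages: the derivative
  of `t ↦ kn t ψ`, `sin ψ ≠ 0`, is bounded by `C_ψ e^{-2 sg |t|}` (`hasDerivAt_kp`, `abs_dkp_le`, `mp_le`-like bounds), so
  it is `≤ C η ∑ e^{-ρ s_i} e^{-sg |y - s_i|}`, and for `0 < κ < sg`:
  `e^{-ρ s - sg |y - s|} ≤ e^{κy} e^{-(ρ+κ) s}`, so `≤ C' η e^{κy} → 0`.
So `e^{-ρy} U y (-θ) ≤ g + o(1)`, and by `repOne` (1) for `-θ`: `log ‖f (ray (e^y) (-θ))‖ ≤ (g + o(1)) e^{ρy}`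
(`ρ > 1`). Then `ind_le_of_eventually`. For general `θ`: `θ ↦ θ + 2πm`, `sin θ = 0` trivial (`-θ = θ + 2πm`).
-/

namespace HBInf

open HBInd Complex Filter Topology Set MeasureTheory
open scoped Real ComplexConjugate

namespace EvenP

variable {ρ : ℝ} {ι : Type}

/-- Lipschitz bound for the kernel away from the real axis -/
theorem kp_lip {β : ℝ} (hβ1 : 1 ≤ β) (hβ2 : β ≤ 2) {ψ : ℝ} (hψ : Real.sin ψ ≠ 0) {u v M : ℝ}
    (hu : u ≤ M) (hv : v ≤ M) :
    |kp 1 v ψ - kp 1 u ψ| ≤ Real.exp (β * M) / |Real.sin ψ| * |v - u| := by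
  have hs : 0 < |Real.sin ψ| := abs_pos.2 hψ
  have key : ∀ x ∈ Iic M, ‖dkp 1 x ψ‖ ≤ Real.exp (β * M) / |Real.sin ψ| := by
    intro x hx
    rw [Real.norm_eq_abs]
    refine (abs_dkp_le le_rfl hψ x).trans ?_
    refine div_le_div_of_nonneg_right ?_ hs.le
    rw [mp_one]
    have hx' : x ≤ M := hx
    rcases le_total 0 x with h | h
    · refine (min_le_left _ _).trans (Real.exp_le_exp.2 ?_)
      nlinarith
    · refine (min_le_right _ _).trans ?_
      rw [← Real.exp_nat_mul]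
      refine Real.exp_le_exp.2 ?_
      push_cast
      nlinarith
  have h := Convex.norm_image_sub_le_of_norm_hasDerivWithin_le (𝕜 := ℝ)
    (f := fun u => kp 1 u ψ) (f' := fun u => dkp 1 u ψ) (s := Iic M) (x := u) (y := v)
    (fun x _ => (hasDerivAt_kp 1 hψ x).hasDerivWithinAt) key (convex_Iic M) hu hv
  simpa [Real.norm_eq_abs] using h

theorem sin_sub' (D : ZD 1 ρ ι) (θ : ℝ) (i : ι) : |Real.sin (θ - D.a i)| = |Real.sin θ| := by
  rcases (D.ha i).2 rfl with h | h
  · rw [h, sub_zero]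
  · rw [h, Real.sin_sub_pi, abs_neg]

theorem sin_sub_ne (D : ZD 1 ρ ι) {θ : ℝ} (hθ : Real.sin θ ≠ 0) (i : ι) :
    Real.sin (θ - D.a i) ≠ 0 := by
  rw [← abs_pos, sin_sub']
  exact abs_pos.2 hθ

theorem summable_kp (D : ZD 1 ρ ι) (h1 : 1 < ρ) (h2 : ρ < 2) {θ : ℝ} (hθ : Real.sin θ ≠ 0)
    (y : ℝ) : Summable fun i => kp 1 (y - D.s i) (θ - D.a i) := by
  obtain ⟨y', hy'⟩ : ∃ y', ∀ i, y' ≠ D.s i := (D.ae_ne).exists
  have hS := (D.U_summable le_rfl (by simpa using h1) (by push_cast; linarith) hy' θ).of_abs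
  have hρ2 := D.sum 2 h2
  have key : Summable fun i =>
      kp 1 (y - D.s i) (θ - D.a i) - kp 1 (y' - D.s i) (θ - D.a i) := by
    refine Summable.of_norm_bounded
      (g := fun i => (Real.exp (2 * max y y') / |Real.sin θ| * |y - y'|) * Real.exp (-2 * D.s i))
      (hρ2.mul_left _) fun i => ?_
    rw [Real.norm_eq_abs]
    have h := kp_lip (β := 2) one_le_two le_rfl (sin_sub_ne D hθ i) (u := y' - D.s i)
      (v := y - D.s i) (M := max y y' - D.s i) (by linarith [le_max_right y y'])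
      (by linarith [le_max_left y y'])
    rw [sin_sub'] at h
    refine h.trans (le_of_eq ?_)
    rw [show 2 * (max y y' - D.s i) = 2 * max y y' + -2 * D.s i by ring, Real.exp_add,
      show y - D.s i - (y' - D.s i) = y - y' by ring]
    ring
  simpa using key.add hS

theorem U_lip (D : ZD 1 ρ ι) (h1 : 1 < ρ) (h2 : ρ < 2) {β : ℝ} (hβ : ρ < β) (hβ2 : β ≤ 2)
    {θ : ℝ} (hθ : Real.sin θ ≠ 0) {y t : ℝ} (hyt : y ≤ t) :
    |D.U t θ - D.U y θ| ≤
      (∑' i, Real.exp (-β * D.s i)) / |Real.sin θ| * Real.exp (β * t) * (t - y) := by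
  have hS := D.sum β hβ
  have hb : ∀ i, ‖kp 1 (t - D.s i) (θ - D.a i) - kp 1 (y - D.s i) (θ - D.a i)‖ ≤
      Real.exp (-β * D.s i) * (Real.exp (β * t) * (t - y) / |Real.sin θ|) := by
    intro i
    rw [Real.norm_eq_abs]
    have h := kp_lip (β := β) (by linarith) hβ2 (sin_sub_ne D hθ i) (u := y - D.s i)
      (v := t - D.s i) (M := t - D.s i) (by linarith) le_rfl
    rw [sin_sub'] at h
    refine h.trans (le_of_eq ?_)
    rw [show β * (t - D.s i) = β * t + -β * D.s i by ring, Real.exp_add,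
      show t - D.s i - (y - D.s i) = t - y by ring, abs_of_nonneg (by linarith : 0 ≤ t - y)]
    ring
  have e : D.U t θ - D.U y θ =
      ∑' i, (kp 1 (t - D.s i) (θ - D.a i) - kp 1 (y - D.s i) (θ - D.a i)) := by
    rw [ZD.U, ZD.U, ← (summable_kp D h1 h2 hθ t).tsum_sub (summable_kp D h1 h2 hθ y)]
  rw [e, ← Real.norm_eq_abs]
  refine (tsum_of_norm_bounded (hS.mul_right _).hasSum hb).trans (le_of_eq ?_)
  rw [tsum_mul_right]
  ring

theorem ray_exp (t θ : ℝ) : ray (Real.exp t) θ = Complex.exp ((t : ℂ) + (θ : ℂ) * I) := by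
  rw [ray, Complex.exp_add, Complex.ofReal_exp]

/-- an entire function that does not vanish identically is different from zero at almost all
points of a ray -/
theorem ae_ne_zero {f : ℂ → ℂ} (hf : Differentiable ℂ f) (hf0 : ∃ z, f z ≠ 0) (θ : ℝ) :
    ∀ᵐ t : ℝ, f (ray (Real.exp t) θ) ≠ 0 := by
  have hG : Differentiable ℂ fun z : ℂ => f (Complex.exp (z + (θ : ℂ) * I)) := by fun_prop
  have hA : AnalyticOnNhd ℝ (fun t : ℝ => f (ray (Real.exp t) θ)) univ := by
    intro t _
    have h1 : AnalyticAt ℝ (fun z : ℂ => f (Complex.exp (z + (θ : ℂ) * I))) (Complex.ofRealCLM t) :=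
      (hG.analyticAt _).restrictScalars
    have h2 := AnalyticAt.comp (f := fun t : ℝ => Complex.ofRealCLM t) h1
      (Complex.ofRealCLM.analyticAt t)
    refine h2.congr (Eventually.of_forall fun s => ?_)
    simp only [Function.comp_apply, ray_exp, Complex.ofRealCLM_apply]
  have hx : ∃ t : ℝ, f (ray (Real.exp t) θ) ≠ 0 := by
    by_contra hcon
    push Not at hcon
    have hfa : AnalyticOnNhd ℂ f univ := fun z _ => hf.analyticAt z
    have hinj : Function.Injective fun t : ℝ => ray (Real.exp t) θ := by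
      intro s t hst
      have := congrArg norm hst
      simp only at this
      rw [norm_ray (Real.exp_pos _).le, norm_ray (Real.exp_pos _).le] at this
      exact Real.exp_injective this
    have hc : Continuous fun t : ℝ => ray (Real.exp t) θ := by
      simp only [ray_exp]
      fun_prop
    have ht : Tendsto (fun t : ℝ => ray (Real.exp t) θ) (𝓝[≠] 0) (𝓝[≠] (ray (Real.exp 0) θ)) := by
      refine tendsto_nhdsWithin_of_tendsto_nhds_of_eventually_within _
        (hc.continuousAt.tendsto.mono_left nhdsWithin_le_nhds) ?_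
      filter_upwards [self_mem_nhdsWithin] with t ht h
      exact ht (hinj h)
    have hfreq : ∃ᶠ z in 𝓝[≠] (ray (Real.exp 0) θ), f z = (fun _ => (0 : ℂ)) z :=
      ht.frequently (Eventually.of_forall fun t => hcon t).frequently
    have h0 := hfa.eq_of_frequently_eq (g := fun _ => (0 : ℂ))
      (fun _ _ => analyticAt_const) hfreq
    obtain ⟨z, hz⟩ := hf0
    exact hz (congrFun h0 z)
  obtain ⟨x, hx⟩ := hx
  have h := hA.preimage_zero_mem_codiscrete hx
  have h3 := ae_restrict_le_codiscreteWithin (U := (univ : Set ℝ)) (μ := volume)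
    MeasurableSet.univ h
  rw [Measure.restrict_univ] at h3
  filter_upwards [h3] with t ht using ht

theorem tendsto_exp_mul {c : ℝ} (hc : c < 0) :
    Tendsto (fun y : ℝ => Real.exp (c * y)) atTop (𝓝 0) :=
  Real.tendsto_exp_atBot.comp (tendsto_id.const_mul_atTop_of_neg hc)

theorem ind_neg_le {ρ : ℝ} (h1 : 1 < ρ) (h2 : ρ < 2) {f : ℂ → ℂ} (hf : InClass ρ f) {θ : ℝ}
    (hθ : θ ∈ Ioo 0 π) : ind ρ f (-θ) ≤ ind ρ f θ := by
  have hs : 0 < Real.sin θ := Real.sin_pos_of_pos_of_lt_pi hθ.1 hθ.2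
  obtain ⟨ι, D, hD1, -, hD3⟩ := repOne h1 h2 hf
  obtain ⟨C1, hC1⟩ := hD1 (-θ) (by rw [Real.sin_neg]; linarith)
  obtain ⟨C3, σ', hσ', hC3⟩ := hD3 θ hs
  have hne0 : ∃ z, f z ≠ 0 := ⟨-I, hf.zero_free _ (by simp)⟩
  have hae := ae_ne_zero hf.entire hne0 θ
  rw [← EReal.le_of_forall_lt_iff_le]
  intro g' hg'
  obtain ⟨g, hg, hgg'⟩ := EReal.lt_iff_exists_real_btwn.1 hg'
  have hgg : g < g' := by exact_mod_cast hgg'
  obtain ⟨R, hR⟩ := eventually_atTop.1 (eventually_of_ind_lt hg)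
  -- parameters
  obtain ⟨κ, hκ0, hκ1, hκ2⟩ : ∃ κ : ℝ, 0 < κ ∧ σ' + 2 * κ < ρ ∧ ρ + κ ≤ 2 := by
    refine ⟨min ((ρ - σ') / 4) (2 - ρ), lt_min (by linarith) (by linarith), ?_, ?_⟩
    · linarith [min_le_left ((ρ - σ') / 4) (2 - ρ)]
    · linarith [min_le_right ((ρ - σ') / 4) (2 - ρ)]
  set L : ℝ := (∑' i, Real.exp (-(ρ + κ) * D.s i)) / |Real.sin θ| with hL
  have hL0 : 0 ≤ L := div_nonneg (tsum_nonneg fun i => (Real.exp_pos _).le) (abs_nonneg _)
  -- the bound for the potential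
  have hU : ∀ y, 0 ≤ y → R ≤ Real.exp y →
      D.U y θ ≤ Real.exp (ρ * y) * (g + (|g| * ρ * Real.exp ρ * Real.exp (-(2 * κ) * y) +
        C3 * Real.exp ((σ' + 2 * κ - ρ) * y) + L * Real.exp (ρ + κ) * Real.exp (-κ * y))) := by
    intro y hy hRy
    set η : ℝ := Real.exp (-(2 * κ) * y) with hη
    have hη0 : 0 < η := Real.exp_pos _
    have hη1 : η ≤ 1 := by
      rw [hη]
      refine Real.exp_le_one_iff.2 ?_
      nlinarith
    set B : ℝ := g * Real.exp (ρ * y) + |g| * (ρ * η * Real.exp (ρ * (y + 1))) +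
      L * Real.exp ((ρ + κ) * (y + 1)) * η with hB
    obtain ⟨hI, hI2⟩ := hC3 y hy
    have hI' : IntervalIntegrable (fun t => |Real.log ‖f (ray (Real.exp t) θ)‖ - D.U t θ|) volume
        y (y + η) := by
      refine hI.mono_set ?_
      rw [uIcc_of_le (by linarith), uIcc_of_le (by linarith)]
      exact Icc_subset_Icc le_rfl (by linarith)
    have hpt : ∀ᵐ t : ℝ, t ∈ Icc y (y + η) →
        D.U y θ - B ≤ |Real.log ‖f (ray (Real.exp t) θ)‖ - D.U t θ| := by
      filter_upwards [hae] with t ht0 ht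
      have hlog : Real.log ‖f (ray (Real.exp t) θ)‖ ≤ g * Real.exp (ρ * t) := by
        have h := hR (Real.exp t) (hRy.trans (Real.exp_le_exp.2 ht.1))
        have h' := (Real.log_lt_iff_lt_exp (norm_pos_iff.2 ht0)).2 h
        rw [← Real.exp_mul, mul_comm t ρ] at h'
        exact h'.le
      have hexp : Real.exp (ρ * t) - Real.exp (ρ * y) ≤ ρ * η * Real.exp (ρ * (y + 1)) := by
        have h3 : Real.exp (ρ * y) = Real.exp (ρ * t) * Real.exp (-(ρ * (t - y))) := by
          rw [← Real.exp_add]; ring_nf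
        have h4 : 1 - ρ * (t - y) ≤ Real.exp (-(ρ * (t - y))) := by
          have := Real.add_one_le_exp (-(ρ * (t - y)))
          linarith
        have h5 : Real.exp (ρ * t) ≤ Real.exp (ρ * (y + 1)) := by
          refine Real.exp_le_exp.2 ?_
          have := ht.2
          nlinarith
        have h6 : 0 < Real.exp (ρ * t) := Real.exp_pos _
        have h7 : ρ * (t - y) ≤ ρ * η := by
          have := ht.2
          nlinarith
        have h8 : 0 ≤ ρ * (t - y) := by
          have := ht.1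
          nlinarith
        calc Real.exp (ρ * t) - Real.exp (ρ * y)
            = Real.exp (ρ * t) * (1 - Real.exp (-(ρ * (t - y)))) := by rw [h3]; ring
          _ ≤ Real.exp (ρ * t) * (ρ * (t - y)) := by
              refine mul_le_mul_of_nonneg_left (by linarith) h6.le
          _ ≤ Real.exp (ρ * (y + 1)) * (ρ * η) :=
              mul_le_mul h5 h7 h8 (Real.exp_pos _).le
          _ = ρ * η * Real.exp (ρ * (y + 1)) := by ring
      have hexp0 : 0 ≤ Real.exp (ρ * t) - Real.exp (ρ * y) := by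
        refine sub_nonneg.2 (Real.exp_le_exp.2 ?_)
        have := ht.1
        nlinarith
      have hg1 : g * Real.exp (ρ * t) ≤
          g * Real.exp (ρ * y) + |g| * (ρ * η * Real.exp (ρ * (y + 1))) := by
        have h3 : g * (Real.exp (ρ * t) - Real.exp (ρ * y)) ≤
            |g| * (Real.exp (ρ * t) - Real.exp (ρ * y)) :=
          mul_le_mul_of_nonneg_right (le_abs_self g) hexp0
        have h4 : |g| * (Real.exp (ρ * t) - Real.exp (ρ * y)) ≤
            |g| * (ρ * η * Real.exp (ρ * (y + 1))) :=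
          mul_le_mul_of_nonneg_left hexp (abs_nonneg g)
        linarith
      have hlip := U_lip D h1 h2 (β := ρ + κ) (by linarith) hκ2 hs.ne' ht.1
      rw [← hL] at hlip
      have hlip2 : L * Real.exp ((ρ + κ) * t) * (t - y) ≤
          L * Real.exp ((ρ + κ) * (y + 1)) * η := by
        have h5 : Real.exp ((ρ + κ) * t) ≤ Real.exp ((ρ + κ) * (y + 1)) := by
          refine Real.exp_le_exp.2 ?_
          have := ht.2
          nlinarith
        refine mul_le_mul (mul_le_mul_of_nonneg_left h5 hL0) ?_ ?_ ?_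
        · linarith [ht.2]
        · linarith [ht.1]
        · exact mul_nonneg hL0 (Real.exp_pos _).le
      have h9 := (abs_le.1 hlip).1
      have h10 := neg_abs_le (Real.log ‖f (ray (Real.exp t) θ)‖ - D.U t θ)
      rw [hB]
      linarith
    have hint : η * (D.U y θ - B) ≤ C3 * Real.exp (σ' * y) := by
      have e1 : ∫ _t in y..(y + η), (D.U y θ - B) = η * (D.U y θ - B) := by
        rw [intervalIntegral.integral_const]
        simp
      rw [← e1]
      refine le_trans ?_ hI2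
      refine le_trans (intervalIntegral.integral_mono_ae_restrict (by linarith)
        intervalIntegrable_const hI' ?_) ?_
      · exact (ae_restrict_iff' measurableSet_Icc).2 hpt
      · exact intervalIntegral.integral_mono_interval le_rfl (by linarith) (by linarith)
          (Eventually.of_forall fun t => abs_nonneg _) hI
    have hfin : D.U y θ ≤ B + C3 * Real.exp ((σ' + 2 * κ) * y) := by
      have e2 : C3 * Real.exp (σ' * y) = η * (C3 * Real.exp ((σ' + 2 * κ) * y)) := by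
        rw [hη, mul_left_comm, ← Real.exp_add]
        ring_nf
      rw [e2] at hint
      have := le_of_mul_le_mul_left hint hη0
      linarith
    refine hfin.trans (le_of_eq ?_)
    have e3 : Real.exp (ρ * (y + 1)) = Real.exp (ρ * y) * Real.exp ρ := by
      rw [← Real.exp_add]; ring_nf
    have e4 : Real.exp ((ρ + κ) * (y + 1)) * η =
        Real.exp (ρ * y) * (Real.exp (ρ + κ) * Real.exp (-κ * y)) := by
      rw [hη, ← Real.exp_add, ← Real.exp_add, ← Real.exp_add]; ring_nf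
    have e5 : Real.exp ((σ' + 2 * κ) * y) =
        Real.exp (ρ * y) * Real.exp ((σ' + 2 * κ - ρ) * y) := by
      rw [← Real.exp_add]; ring_nf
    rw [hB, e3, mul_assoc L, e4, e5]
    ring
  -- conclusion
  have hlim : Tendsto (fun y : ℝ => |g| * ρ * Real.exp ρ * Real.exp (-(2 * κ) * y) +
        C3 * Real.exp ((σ' + 2 * κ - ρ) * y) + L * Real.exp (ρ + κ) * Real.exp (-κ * y) +
        C1 * Real.exp ((1 - ρ) * y)) atTop (𝓝 0) := by
    have a1 := (tendsto_exp_mul (c := -(2 * κ)) (by linarith)).const_mul (|g| * ρ * Real.exp ρ)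
    have a2 := (tendsto_exp_mul (c := σ' + 2 * κ - ρ) (by linarith)).const_mul C3
    have a3 := (tendsto_exp_mul (c := -κ) (by linarith)).const_mul (L * Real.exp (ρ + κ))
    have a4 := (tendsto_exp_mul (c := 1 - ρ) (by linarith)).const_mul C1
    have := ((a1.add a2).add a3).add a4
    simpa using this
  have hev : ∀ᶠ y : ℝ in atTop, Real.log ‖f (ray (Real.exp y) (-θ))‖ ≤
      g' * Real.exp (ρ * y) := by
    filter_upwards [hlim.eventually_lt_const (sub_pos.2 hgg), eventually_ge_atTop 0,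
      Real.tendsto_exp_atTop.eventually_ge_atTop R] with y hy1 hy0 hyR
    have h3 := hU y hy0 hyR
    have h4 := (abs_le.1 (hC1 y hy0)).2
    rw [D.U_neg] at h4
    have h5 : Real.exp y = Real.exp (ρ * y) * Real.exp ((1 - ρ) * y) := by
      rw [← Real.exp_add]; ring_nf
    have h6 : 0 < Real.exp (ρ * y) := Real.exp_pos _
    have h7 := mul_lt_mul_of_pos_left hy1 h6
    have h8 : C1 * Real.exp y = Real.exp (ρ * y) * (C1 * Real.exp ((1 - ρ) * y)) := by
      rw [h5]; ring
    linarith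
  refine ind_le_of_eventually ?_
  filter_upwards [Real.tendsto_log_atTop.eventually hev, eventually_gt_atTop 0] with r hr hr0
  rw [Real.exp_log hr0] at hr
  have hpos : 0 < ‖f (ray r (-θ))‖ := by
    refine norm_pos_iff.2 (hf.zero_free _ ?_)
    rw [ray_im, Real.sin_neg]
    nlinarith [mul_pos hr0 hs]
  have h3 := (Real.log_le_iff_le_exp hpos).1 hr
  have h4 : Real.exp (ρ * Real.log r) = r ^ ρ := by
    rw [Real.rpow_def_of_pos hr0, mul_comm]
  rwa [h4] at h3

theorem even_Ioo {ρ : ℝ} (h1 : 1 < ρ) (h2 : ρ < 2) {f : ℂ → ℂ} (hf : InClass ρ f) {θ : ℝ}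
    (hθ : θ ∈ Ioo 0 π) : ind ρ f (-θ) = ind ρ f θ :=
  le_antisymm (ind_neg_le h1 h2 hf hθ) (hf.ind_le hθ)

theorem even_Ioc {ρ : ℝ} (h1 : 1 < ρ) (h2 : ρ < 2) {f : ℂ → ℂ} (hf : InClass ρ f) {θ : ℝ}
    (hθ : θ ∈ Ioc (-π) π) : ind ρ f (-θ) = ind ρ f θ := by
  rcases lt_trichotomy θ 0 with h | h | h
  · have := even_Ioo h1 h2 hf (θ := -θ) ⟨by linarith, by linarith [hθ.1]⟩
    rw [neg_neg] at this
    exact this.symm
  · rw [h, neg_zero]
  · rcases hθ.2.lt_or_eq with h' | h'
    · exact even_Ioo h1 h2 hf ⟨h, h'⟩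
    · rw [h']
      have := ind_add_two_pi ρ f (-π)
      rw [← this]
      ring_nf

end EvenP

theorem ind_even {ρ : ℝ} (h1 : 1 < ρ) (h2 : ρ < 2) {f : ℂ → ℂ} (hf : InClass ρ f) (θ : ℝ) :
    ind ρ f (-θ) = ind ρ f θ := by
  obtain ⟨n, hn, -⟩ := existsUnique_add_zsmul_mem_Ioc Real.two_pi_pos θ (-π)
  rw [show -π + 2 * π = π by ring] at hn
  have h := EvenP.even_Ioc h1 h2 hf hn
  rw [zsmul_eq_mul] at h
  rw [ind_add_int] at h
  rw [← h, neg_add, show -((n : ℝ) * (2 * π)) = ((-n : ℤ) : ℝ) * (2 * π) by push_cast; ring,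
    ind_add_int]

end HBInf
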