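import Pool.Agent.HBInf.KnTools

/-!
# The vertical shift, `1 < ρ < 2`

`shiftV`: for real `x ≠ 0` the function `K_1 (z/x) = log |1 - z/x| + Re (z/x)` increases if `z` moves vertically away
from the real axis. Let `0 ≤ θ' ≤ θ < π/2`, `q = cos θ' / cos θ ≥ 1`: `e^{iθ'}` and `q e^{iθ}` have the same real part and
`q sin θ ≥ sin θ'`. So `kp 1 (-s) (θ' - α) ≤ kp 1 (log q - s) (θ - α)` for `α ∈ {0, π}` (`s ≠ 0`; the only exception is a
zero of `1 - z/x`, `θ' = 0`, `s = 0`), i.e. the measure `q^ρ δ_{log q}` on the ray `θ` dominates the point `θ'`: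
`e^{-ρ log q} q^ρ = 1`. Reflections: `kp 1 u (-ψ) = kp 1 u ψ`, and `θ ↦ π - θ` exchanges `α = 0, π`.
-/

namespace HBInf

open HBInd Complex Filter Topology Set MeasureTheory
open scoped Real ComplexConjugate

theorem shv_kp_congr {p : ℕ} {u ψ ψ' : ℝ} (h : Real.cos ψ = Real.cos ψ') :
    kp p u ψ = kp p u ψ' := by
  rw [kp_eq, kp_eq, ker_eq, ker_eq, h]

theorem shv_kp_neg (p : ℕ) (u ψ : ℝ) : kp p u (-ψ) = kp p u ψ :=
  shv_kp_congr (Real.cos_neg ψ)

theorem shiftV_dom {ρ θ θ' : ℝ} (h0 : 0 ≤ θ') (h1 : θ' ≤ θ) (h2 : θ < π / 2) :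
    Dom 1 ρ (fun _ : Fin 1 => θ)
      (fun _ => ENNReal.ofReal ((Real.cos θ' / Real.cos θ) ^ ρ) •
        Measure.dirac (Real.log (Real.cos θ' / Real.cos θ))) θ' := by
  have hc : 0 < Real.cos θ := Real.cos_pos_of_mem_Ioo ⟨by linarith [Real.pi_pos], h2⟩
  have hc' : Real.cos θ ≤ Real.cos θ' :=
    Real.cos_le_cos_of_nonneg_of_le_pi h0 (by linarith [Real.pi_pos]) h1
  set q : ℝ := Real.cos θ' / Real.cos θ with hq
  have hq1 : 1 ≤ q := by
    rw [hq, le_div_iff₀ hc, one_mul]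
    exact hc'
  have hq0 : 0 < q := by linarith
  have hqc : q * Real.cos θ = Real.cos θ' := div_mul_cancel₀ _ hc.ne'
  intro α hα
  have hne : ∀ᵐ s : ℝ, s ≠ 0 := by
    have := Set.Countable.ae_notMem (Set.countable_singleton (0 : ℝ)) (volume : Measure ℝ)
    filter_upwards [this] with s hs h
    exact hs h
  filter_upwards [hne] with s hs
  rw [Fin.sum_univ_one, integral_smul_measure, integral_dirac,
    ENNReal.toReal_ofReal (Real.rpow_nonneg hq0.le _), smul_eq_mul, Real.rpow_def_of_pos hq0,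
    ← mul_assoc, ← Real.exp_add]
  have e0 : Real.log q * ρ + -ρ * Real.log q = 0 := by ring
  rw [e0, Real.exp_zero, one_mul]
  rw [kp_eq, kp_eq, ker_eq, ker_eq]
  have e1 : Real.exp (Real.log q - s) = q * Real.exp (-s) := by
    rw [sub_eq_add_neg, Real.exp_add, Real.exp_log hq0]
  rw [e1]
  have hx0 : 0 < Real.exp (-s) := Real.exp_pos _
  have hx1 : Real.exp (-s) ≠ 1 := by
    intro h
    apply hs
    have := Real.exp_eq_one_iff (-s) |>.1 h
    linarith
  set x := Real.exp (-s) with hx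
  have hcos : q * Real.cos (θ - α) = Real.cos (θ' - α) := by
    rcases hα.2 rfl with h | h
    · rw [h, sub_zero, sub_zero, hqc]
    · rw [h, Real.cos_sub_pi, Real.cos_sub_pi, mul_neg, hqc]
  have e2 : q * x * Real.cos (θ - α) = x * Real.cos (θ' - α) := by
    rw [← hcos]; ring
  have hpos : 0 < 1 - 2 * x * Real.cos (θ' - α) + x ^ 2 := by
    have hsq : (0 : ℝ) < (1 - x) ^ 2 := by
      have : 1 - x ≠ 0 := fun h => hx1 (by linarith)
      positivity
    have := Real.cos_le_one (θ' - α)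
    nlinarith
  have hle : 1 - 2 * x * Real.cos (θ' - α) + x ^ 2 ≤
      1 - 2 * (q * x) * Real.cos (θ - α) + (q * x) ^ 2 := by
    have e3 : 2 * (q * x) * Real.cos (θ - α) = 2 * (q * x * Real.cos (θ - α)) := by ring
    rw [e3, e2]
    have e4 : x ^ 2 ≤ (q * x) ^ 2 := by
      rw [mul_pow]
      have h5 : 1 ≤ q ^ 2 := by nlinarith
      have h6 : 0 ≤ x ^ 2 := by positivity
      nlinarith
    linarith
  have hlog := Real.log_le_log hpos hle
  have e5 : q * x * Real.cos (θ - α) = x * Real.cos (θ' - α) := e2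
  rw [e5]
  linarith

theorem neg_dom (ρ θ : ℝ) : Dom 1 ρ (fun _ : Fin 1 => θ) (fun _ => Measure.dirac 0) (-θ) := by
  intro α hα
  refine ae_of_all _ fun s => ?_
  rw [Fin.sum_univ_one, integral_dirac, mul_zero, Real.exp_zero, one_mul, zero_sub]
  refine le_of_eq (shv_kp_congr ?_)
  rcases hα.2 rfl with h | h
  · rw [h, sub_zero, sub_zero, Real.cos_neg]
  · rw [h, Real.cos_sub_pi, Real.cos_sub_pi, Real.cos_neg]

theorem shv_le_of_forall {x y : EReal} (h : ∀ g : ℝ, y ≤ g → x ≤ g) : x ≤ y := by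
  induction y with
  | bot =>
    by_contra hx
    rw [not_le, bot_lt_iff_ne_bot] at hx
    induction x with
    | bot => exact hx rfl
    | coe r =>
      have := h (r - 1) bot_le
      rw [EReal.coe_le_coe_iff] at this
      linarith
    | top =>
      have := h 0 bot_le
      rw [top_le_iff] at this
      exact EReal.coe_ne_top 0 this
  | coe r => exact h r le_rfl
  | top => exact le_top

theorem shv_le_coe {x : EReal} (h : x ≠ ⊤) : ∃ g : ℝ, x ≤ g := by
  induction x with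
  | bot => exact ⟨0, bot_le⟩
  | coe r => exact ⟨r, le_rfl⟩
  | top => exact absurd rfl h

theorem shv_neg_le {ρ : ℝ} {h : ℝ → EReal} (hA : CondA 1 ρ h) {θ : ℝ} (hs : Real.sin θ ≠ 0) :
    h (-θ) ≤ h θ := by
  refine shv_le_of_forall fun g hg => ?_
  have := hA 1 (fun _ => θ) (fun _ => Measure.dirac 0) (fun _ => g) (-θ) (fun _ => inferInstance)
    (fun _ => hg) (fun _ => by rw [Real.sin_neg]; exact neg_ne_zero.2 hs) (neg_dom ρ θ)
  rw [Fin.sum_univ_one] at this
  simpa using this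

theorem condA_even {ρ : ℝ} {h : ℝ → EReal} (hp : ∀ θ, h (θ + 2 * π) = h θ) (hA : CondA 1 ρ h)
    (θ : ℝ) : h (-θ) = h θ := by
  by_cases hs : Real.sin θ = 0
  · obtain ⟨n, hn⟩ := Real.sin_eq_zero_iff.1 hs
    have hper : Function.Periodic h (2 * π) := hp
    have := hper.int_mul n (-θ)
    rw [← this]
    congr 1
    rw [← hn]
    ring
  · refine le_antisymm (shv_neg_le hA hs) ?_
    have := shv_neg_le (θ := -θ) hA (by rw [Real.sin_neg]; exact neg_ne_zero.2 hs)
    rwa [neg_neg] at this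

/-- `h < ∞` at `θ < π/2` implies `h < ∞` on `(0, θ]` -/
theorem condA_shift {ρ : ℝ} {h : ℝ → EReal} (hA : CondA 1 ρ h) {θ θ' : ℝ} (h0 : 0 < θ')
    (h1 : θ' ≤ θ) (h2 : θ < π / 2) (hh : h θ ≠ ⊤) : h θ' ≠ ⊤ := by
  obtain ⟨g, hg⟩ := shv_le_coe hh
  have hsin : Real.sin θ' ≠ 0 :=
    (Real.sin_pos_of_pos_of_lt_pi h0 (by linarith [Real.pi_pos])).ne'
  have := hA 1 (fun _ => θ) _ (fun _ => g) θ'
    (fun _ => Measure.smul_finite _ ENNReal.ofReal_ne_top)
    (fun _ => hg) (fun _ => hsin) (shiftV_dom (ρ := ρ) h0.le h1 h2)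
  exact (this.trans_lt (EReal.coe_lt_top _)).ne

theorem shv_TT {p : ℕ} {α : ℝ} (h : α ∈ TT p) : π - α ∈ TT p := by
  obtain ⟨⟨h1, h2⟩, h3⟩ := h
  refine ⟨⟨by linarith, by linarith⟩, fun hp => ?_⟩
  rcases h3 hp with h | h
  · right; rw [h, sub_zero]
  · left; rw [h, sub_self]

theorem shv_mirror_dom {p n : ℕ} {ρ : ℝ} {θ : Fin n → ℝ} {m : Fin n → Measure ℝ} {θ₀ : ℝ}
    (h : Dom p ρ θ m θ₀) : Dom p ρ (fun i => π - θ i) m (π - θ₀) := by
  intro α hα
  filter_upwards [h (π - α) (shv_TT hα)] with s hs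
  have e : ∀ ψ u : ℝ, kp p u (π - ψ - α) = kp p u (ψ - (π - α)) := by
    intro ψ u
    rw [← shv_kp_neg]
    congr 1
    ring
  simp only [e]
  exact hs

theorem shv_mirror {p : ℕ} {ρ : ℝ} {h : ℝ → EReal} (hA : CondA p ρ h) :
    CondA p ρ (fun θ => h (π - θ)) := by
  intro n θ m g θ₀ hm hg hs hD
  exact hA n (fun i => π - θ i) m g (π - θ₀) hm hg
    (fun hp => by rw [Real.sin_pi_sub]; exact hs hp) (shv_mirror_dom hD)

theorem mirror_condA {ρ : ℝ} {h : ℝ → EReal} (hA : CondA 1 ρ h) :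
    CondA 1 ρ (fun θ => h (π - θ)) := shv_mirror hA

theorem mirror_condA_zero {ρ : ℝ} {h : ℝ → EReal} (hA : CondA 0 ρ h) :
    CondA 0 ρ (fun θ => h (π - θ)) := shv_mirror hA

theorem mirror_condT {ρ : ℝ} {h : ℝ → EReal} (hT : CondT ρ h) :
    CondT ρ (fun θ => h (π - θ)) := by
  intro a t b A B hat htb hba hA hB
  have := hT (π - b) (π - t) (π - a) B A (by linarith) (by linarith) (by linarith) hB hA
  have e1 : π - a - (π - t) = t - a := by ring
  have e2 : π - t - (π - b) = b - t := by ring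
  have e3 : π - a - (π - b) = b - a := by ring
  rw [e1, e2, e3, add_comm] at this
  exact this

theorem mirror_condC {ρ : ℝ} {h : ℝ → EReal} (hC : CondC ρ h) :
    CondC ρ (fun θ => h (π - θ)) := by
  intro a A B hA hB
  have e1 : π - (a + π / ρ) + π / ρ = π - a := by ring
  have := hC (π - (a + π / ρ)) B A hB (by rw [e1]; exact hA)
  linarith

end HBInf
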