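import Pool.Agent.HBInf.Link
import Pool.Agent.HBInd.Contact
import Pool.Agent.HBInf.BotInt
import Pool.Agent.HBInf.TrigE
import Pool.Agent.HBInf.CritThree
import Pool.Agent.HBInf.ShiftV

/-!
# The exceptional indicators are of the stated form, `1 < ρ < 2`

`ω = π/(2ρ) ∈ (π/4, π/2)`. `h` is even and `2π`-periodic. Let `h x ≤ A`, `h (x + 2ω) ≤ B`, `A + B < 0`.
(1) If `h ω < ⊤` then `h ω ≥ 0` and if `h (π - ω) < ⊤` then `h (π - ω) ≥ 0` (`densS` with `g > h`).
(2) The open interval `(x, x + 2ω)` contains no multiple of `π`: by periodicity suppose `x < 0 < x + 2ω` (an even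
multiple; the case of an odd multiple follows by the mirror image `θ ↦ π - θ`, `mirror_condT`, `Link.mirror`).
Write `x = -ω + d`, `|d| < ω`: `h (ω - d) = h x ≤ A`, `h (ω + d) ≤ B`. If `d = 0` then `2 h ω ≤ A + B < 0`-type
contradiction with (1); otherwise `CondT` on the interval with end points `ω ± d` of length `2|d| < π/ρ` gives
`h ω ≤ (A + B) sin ρ|d| / sin 2ρ|d| < 0`, contradiction with (1).
So, using periodicity and evenness (`(x, x + 2ω) ↦ (-x - 2ω, -x)`), we may assume `0 ≤ x =: a`,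
`b := a + π/ρ ≤ π` (either `h a ≤ A`, `h b ≤ B` or with `A, B` exchanged).
(3) `a ≤ ω`: by `excGeo_one` for `θ = a`: `0 ≤ G ρ a = cos ρ(π - a)` or `0 ≤ G ρ (a - π) = cos ρa`. If `a > ω`: `a ≤ π - 2ω`, so
`ρa ∈ (π/2, ρπ - π]` with `ρπ - π < 3π/2`: actually `ρπ - π < π`, so `cos ρa < 0`; and `π - a ∈ [2ω, π - ω)`,
`ρ(π - a) ∈ [π, ρπ - π/2) ⊆ [π, 3π/2)`, so `cos < 0`. Contradiction. By symmetry `π - b ≤ ω`.
(4) `h = ⊤` on `(a, b)`: hypothesis `hPL`.
(5) `h = ⊥` on `[0, a)`: let `a > 0`. `h < ⊤` on `(0, a]` (`condA_shift`, `a ≤ ω < π/2`), so on `[-a, a]` (evenness, and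
`condT_between` at `0`). For `θ₁ ∈ (-a, 0)`: `botInterior` with the rays `-a` and `-a - π/ρ = -b` (bounds `A + ε`,
`B + ε`), `a₀ = -a`, and `Link.lb` (`sin θ₁ ≠ 0`) give `h θ₁ = ⊥`. At `0`: `condT_bot_left` between `-a/2` and `a/2`.
`h = ⊥` on `(b, π]` by the mirror image (`D.mirror`, `h (π - ·)`, `a' = π - b`, `b' = π - a`).
(6) If `a = ω`: for real `A' ≥ h a`, `B' ≥ h b`: `critThree` with `A' + ε`, `B' + ε` (`b = 3ω`), `ε → 0`. If `b = π - ω`, by the
mirror image (`a' = ω`).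
-/

namespace HBInf

open HBInd Complex Filter Topology Set MeasureTheory
open scoped Real ComplexConjugate

theorem en1_ub {ρ : ℝ} {h : ℝ → EReal} {ι : Type} {D : ZD 1 ρ ι} (hl : Link 1 ρ h D)
    {θ g g' : ℝ} (hg : h θ ≤ g) (hg' : g < g') : D.UB θ g' :=
  hl.ub θ g' (lt_of_le_of_lt hg (EReal.coe_lt_coe_iff.2 hg'))

theorem en1_crit {ρ : ℝ} (h1 : 1 < ρ) (h2 : ρ < 2) {h : ℝ → EReal} {ι : Type} {D : ZD 1 ρ ι}
    (hl : Link 1 ρ h D) {θ g : ℝ}
    (hθ : ∃ m : ℤ, θ = π / (2 * ρ) + m * (2 * π) ∨ θ = -(π / (2 * ρ)) + m * (2 * π) ∨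
      θ = π - π / (2 * ρ) + m * (2 * π) ∨ θ = -(π - π / (2 * ρ)) + m * (2 * π))
    (hg : h θ ≤ g) : 0 ≤ g :=
  le_of_forall_pos_le_add fun ε hε =>
    (densS h1 h2 D hθ (en1_ub hl hg (by linarith : g < g + ε))).1

/-- two values at the distance less than `π/ρ`, symmetric about a point where `h` is not negative -/
theorem en1_two {ρ : ℝ} (hρ : 0 < ρ) {h : ℝ → EReal} (hT : CondT ρ h) {c d A B : ℝ}
    (hc : ∀ g : ℝ, h c ≤ g → 0 ≤ g) (hd : |d| < π / (2 * ρ)) (hA : h (c - d) ≤ A)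
    (hB : h (c + d) ≤ B) : 0 ≤ A + B := by
  wlog hd0 : 0 ≤ d generalizing d A B
  · have := this (d := -d) (A := B) (B := A) (by rwa [abs_neg]) (by rwa [sub_neg_eq_add])
      (by rwa [← sub_eq_add_neg]) (by linarith)
    linarith
  rcases hd0.eq_or_lt with h0 | h0
  · subst h0
    rw [sub_zero] at hA
    rw [add_zero] at hB
    exact add_nonneg (hc A hA) (hc B hB)
  rw [abs_of_pos h0] at hd
  have e1 : 2 * (π / (2 * ρ)) = π / ρ := by field_simp
  have e2 : ρ * (π / (2 * ρ)) = π / 2 := by field_simp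
  have hd2 : ρ * d < π / 2 := by
    rw [← e2]
    exact mul_lt_mul_of_pos_left hd hρ
  have hd1 : 0 < ρ * d := mul_pos hρ h0
  have h3 := hT (c - d) c (c + d) A B (by linarith) (by linarith) (by linarith) hA hB
  have h4 := hc _ h3
  have e3 : ρ * (c + d - c) = ρ * d := by ring
  have e4 : ρ * (c - (c - d)) = ρ * d := by ring
  have e5 : ρ * (c + d - (c - d)) = 2 * (ρ * d) := by ring
  rw [e3, e4, e5, ← add_mul] at h4
  have s1 : 0 < Real.sin (ρ * d) := Real.sin_pos_of_pos_of_lt_pi hd1 (by linarith)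
  have s2 : 0 < Real.sin (2 * (ρ * d)) :=
    Real.sin_pos_of_pos_of_lt_pi (by linarith) (by linarith)
  by_contra hcon
  push Not at hcon
  have : (A + B) * Real.sin (ρ * d) / Real.sin (2 * (ρ * d)) < 0 :=
    div_neg_of_neg_of_pos (mul_neg_of_neg_of_pos hcon s1) s2
  linarith

/-- both cosines are negative -/
theorem en1_cos {ρ t : ℝ} (h1 : 1 < ρ) (h2 : ρ < 2) (ht : π / (2 * ρ) < t)
    (ht2 : t ≤ π - π / ρ) : Real.cos (ρ * t) < 0 ∧ Real.cos (ρ * (π - t)) < 0 := by
  have hρ : 0 < ρ := by linarith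
  have hpi := Real.pi_pos
  have e1 : ρ * (π / (2 * ρ)) = π / 2 := by field_simp
  have e2 : ρ * (π / ρ) = π := by field_simp
  have i1 : π / 2 < ρ * t := by
    rw [← e1]
    exact mul_lt_mul_of_pos_left ht hρ
  have i2 : ρ * t ≤ ρ * π - π := by
    have := mul_le_mul_of_nonneg_left ht2 hρ.le
    rw [mul_sub, e2] at this
    exact this
  have i3 : ρ * π < 2 * π := mul_lt_mul_of_pos_right h2 hpi
  constructor
  · exact Real.cos_neg_of_pi_div_two_lt_of_lt i1 (by linarith)
  · have : Real.cos (ρ * (π - t)) = -Real.cos (ρ * (π - t) - π) := by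
      rw [Real.cos_sub_pi, neg_neg]
    rw [this, neg_neg_iff_pos]
    have e3 : ρ * (π - t) = ρ * π - ρ * t := by ring
    refine Real.cos_pos_of_mem_Ioo ⟨by linarith, by linarith⟩

/-- `-∞` before the first ray -/
theorem en1_bot {ρ : ℝ} (h1 : 1 < ρ) (h2 : ρ < 2) {h : ℝ → EReal} (hT : CondT ρ h)
    (heven : ∀ θ, h (-θ) = h θ) (hA : CondA 1 ρ h) {ι : Type} {D : ZD 1 ρ ι}
    (hl : Link 1 ρ h D) {a A B : ℝ} (ha : a ≤ π / (2 * ρ)) (hAa : h a ≤ A)
    (hB : h (a + π / ρ) ≤ B) (hAB : A + B < 0) : ∀ θ ∈ Ico 0 a, h θ = ⊥ := by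
  have hρ : 0 < ρ := by linarith
  have hpi := Real.pi_pos
  have hω : π / (2 * ρ) < π / 2 := by
    apply div_lt_div_of_pos_left hpi (by norm_num) (by linarith)
  have hω2 : π / (2 * ρ) < π / ρ := by
    apply div_lt_div_of_pos_left hpi hρ (by linarith)
  have hat : h a ≠ ⊤ := fun h0 => by
    rw [h0, top_le_iff] at hAa
    exact EReal.coe_ne_top A hAa
  -- the open interval
  have key : ∀ θ ∈ Ioo 0 a, h θ = ⊥ := by
    intro θ hθ
    rw [EReal.eq_bot_iff_forall_lt]
    by_contra hcon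
    push Not at hcon
    obtain ⟨y, hy⟩ := hcon
    set ε := -(A + B) / 4 with hε
    have hε0 : 0 < ε := by rw [hε]; linarith
    have hsin : Real.sin (-θ) ≠ 0 := by
      rw [Real.sin_neg, neg_ne_zero]
      exact (Real.sin_pos_of_pos_of_lt_pi hθ.1 (by linarith [hθ.2])).ne'
    have hLB : D.LB (-θ) (y - 1) := by
      refine hl.lb (-θ) (y - 1) ?_ fun _ => hsin
      rw [heven]
      exact lt_of_lt_of_le (EReal.coe_lt_coe_iff.2 (by linarith)) hy
    refine botInterior (p := 1) le_rfl (by push_cast; linarith) (by push_cast; linarith)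
      (by linarith) D (a := -a) (g₁ := A + ε) (g₂ := B + ε)
      (en1_ub hl (g := A) (by rwa [heven]) (by linarith))
      (en1_ub hl (g := B) ?_ (by linarith)) (by rw [hε]; linarith) (a₀ := -a) (by linarith)
      (by linarith [hθ.2]) (by linarith [hθ.1]) ?_ (y - 1) hLB
    · have e : -a - π / ρ = -(a + π / ρ) := by ring
      rw [e, heven]
      exact hB
    · intro φ hφ
      have hne : h φ ≠ ⊤ := by
        rw [← heven]
        exact condA_shift hA (θ := a) (by linarith [hφ.2, hθ.1]) (by linarith [hφ.1])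
          (by linarith) hat
      obtain ⟨g, hg⟩ := EReal.exists_between_coe_real (lt_top_iff_ne_top.2 hne)
      exact ⟨g, hl.ub φ g hg.1⟩
  intro θ hθ
  rcases hθ.1.eq_or_lt with h0 | h0
  · subst h0
    have ha0 : 0 < a := hθ.2
    refine condT_bot_left hρ hT (a := -(a / 2)) (b := a / 2) (by linarith) (by linarith)
      (by linarith) ?_ ?_
    · rw [heven]
      exact key _ ⟨by linarith, by linarith⟩
    · rw [key _ ⟨by linarith, by linarith⟩]
      exact bot_ne_top
  · exact key θ ⟨h0, hθ.2⟩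

theorem en1_three {ρ : ℝ} (h1 : 1 < ρ) (h2 : ρ < 2) {h : ℝ → EReal} {ι : Type} {D : ZD 1 ρ ι}
    (hl : Link 1 ρ h D) {a : ℝ} (ha : a = π / (2 * ρ)) (hb : a + π / ρ ≤ π) :
    ∀ A B : ℝ, h a ≤ A → h (a + π / ρ) ≤ B → 0 ≤ 3 * A + B := by
  intro A B hA hB
  have hρ : 0 < ρ := by linarith
  have e : a + π / ρ = 3 * (π / (2 * ρ)) := by
    rw [ha]
    field_simp
    ring
  rw [e] at hB hb
  rw [ha] at hA
  refine le_of_forall_pos_le_add fun ε hε => ?_
  have := critThree h1 h2 D (gA := A + ε / 4) (gB := B + ε / 4) hb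
    (en1_ub hl hA (by linarith)) (en1_ub hl hB (by linarith))
  linarith

theorem excNecOne {ρ : ℝ} (h1 : 1 < ρ) (h2 : ρ < 2) {h : ℝ → EReal}
    (hper : ∀ θ, h (θ + 2 * π) = h θ) (hT : CondT ρ h) (heven : ∀ θ, h (-θ) = h θ)
    (hA : CondA 1 ρ h)
    (hPL : ∀ a A B : ℝ, h a ≤ A → h (a + π / ρ) ≤ B → A + B < 0 →
      ∀ θ ∈ Ioo a (a + π / ρ), h θ = ⊤)
    {ι : Type} {D : ZD 1 ρ ι} (hl : Link 1 ρ h D) (hC : ¬CondC ρ h) : ExcOne ρ h := by
  have hρ : 0 < ρ := by linarith
  have hpi := Real.pi_pos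
  have hω2 : 2 * (π / (2 * ρ)) = π / ρ := by field_simp
  have hω : π / (2 * ρ) < π / 2 := by
    apply div_lt_div_of_pos_left hpi (by norm_num) (by linarith)
  have hω0 : 0 < π / (2 * ρ) := by positivity
  have hperi : ∀ (n : ℤ) (θ : ℝ), h (θ + n * (2 * π)) = h θ := fun n θ =>
    (show Function.Periodic h (2 * π) from hper).int_mul n θ
  -- (1)
  have hc1 : ∀ g : ℝ, h (π / (2 * ρ)) ≤ g → 0 ≤ g := fun g hg =>
    en1_crit h1 h2 hl ⟨0, Or.inl (by push_cast; ring)⟩ hg
  have hc2 : ∀ g : ℝ, h (π - π / (2 * ρ)) ≤ g → 0 ≤ g := fun g hg =>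
    en1_crit h1 h2 hl ⟨0, Or.inr (Or.inr (Or.inl (by push_cast; ring)))⟩ hg
  -- (2)
  obtain ⟨a, A, B, ha0, hb, hAa, hBb, hAB⟩ : ∃ a A B : ℝ, 0 ≤ a ∧ a + π / ρ ≤ π ∧ h a ≤ A ∧
      h (a + π / ρ) ≤ B ∧ A + B < 0 := by
    unfold CondC at hC
    push Not at hC
    obtain ⟨x₀, A, B, hx0, hy0, hAB⟩ := hC
    obtain ⟨x, hx1, hx2, hx, hy⟩ : ∃ x : ℝ, -π ≤ x ∧ x < π ∧ h x ≤ A ∧ h (x + π / ρ) ≤ B := by
      refine ⟨toIcoMod Real.two_pi_pos (-π) x₀, (toIcoMod_mem_Ico _ _ _).1, ?_, ?_, ?_⟩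
      · have := (toIcoMod_mem_Ico Real.two_pi_pos (-π) x₀).2
        linarith
      · rw [toIcoMod, zsmul_eq_mul]
        have := hperi (-(toIcoDiv Real.two_pi_pos (-π) x₀)) x₀
        push_cast at this
        rw [neg_mul, ← sub_eq_add_neg] at this
        rw [this]
        exact hx0
      · rw [toIcoMod, zsmul_eq_mul]
        have := hperi (-(toIcoDiv Real.two_pi_pos (-π) x₀)) (x₀ + π / ρ)
        push_cast at this
        rw [neg_mul, ← sub_eq_add_neg] at this
        rw [sub_add_eq_add_sub, this]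
        exact hy0
    rcases lt_or_ge x 0 with h0 | h0
    · rcases le_or_gt (x + π / ρ) 0 with h3 | h3
      · refine ⟨-(x + π / ρ), B, A, by linarith, by linarith, by rwa [heven], ?_, by linarith⟩
        have e : -(x + π / ρ) + π / ρ = -x := by ring
        rw [e, heven]
        exact hx
      · exfalso
        have := en1_two hρ hT (c := π / (2 * ρ)) (d := x + π / (2 * ρ)) (A := A) (B := B) hc1
          (by rw [abs_lt]; constructor <;> linarith)
          (by
            have e : π / (2 * ρ) - (x + π / (2 * ρ)) = -x := by ring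
            rw [e, heven]
            exact hx)
          (by
            have e : π / (2 * ρ) + (x + π / (2 * ρ)) = x + π / ρ := by rw [← hω2]; ring
            rw [e]
            exact hy)
        linarith
    · rcases le_or_gt (x + π / ρ) π with h3 | h3
      · exact ⟨x, A, B, h0, h3, hx, hy, hAB⟩
      · exfalso
        have := en1_two hρ hT (c := π - π / (2 * ρ)) (d := π - π / (2 * ρ) - x) (A := A) (B := B)
          hc2 (by rw [abs_lt]; constructor <;> linarith)
          (by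
            have e : π - π / (2 * ρ) - (π - π / (2 * ρ) - x) = x := by ring
            rw [e]
            exact hx)
          (by
            have e : π - π / (2 * ρ) + (π - π / (2 * ρ) - x) = -(x + π / ρ) + 2 * π := by
              rw [← hω2]; ring
            rw [e, hper, heven]
            exact hy)
        linarith
  -- (3)
  set ε := -(A + B) / 4 with hε
  have hε0 : 0 < ε := by rw [hε]; linarith
  have hUa : D.UB a (A + ε) := en1_ub hl hAa (by linarith)
  have hUb : D.UB (a + π / ρ) (B + ε) := en1_ub hl hBb (by linarith)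
  have hneg : A + ε + (B + ε) < 0 := by rw [hε]; linarith
  have hρω : 0 < π / ρ := by positivity
  have ha : a ≤ π / (2 * ρ) := by
    by_contra hcon
    push Not at hcon
    obtain ⟨c1, c2⟩ := en1_cos h1 h2 hcon (by linarith)
    have habs : |a| ≤ π := by rw [abs_of_nonneg ha0]; linarith
    rcases excGeo_one h1 h2 D hUa hUb hneg hUa with h3 | h3
    · rw [G_of_abs_le habs, abs_of_nonneg ha0] at h3
      linarith
    · rw [G_sub_pi habs] at h3
      linarith
  have hb2 : π - π / (2 * ρ) ≤ a + π / ρ := by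
    by_contra hcon
    push Not at hcon
    obtain ⟨c1, c2⟩ := en1_cos (t := π - (a + π / ρ)) h1 h2 (by linarith) (by linarith)
    rw [sub_sub_cancel] at c2
    have hb0 : 0 ≤ a + π / ρ := by linarith
    have habs : |a + π / ρ| ≤ π := by rw [abs_of_nonneg hb0]; linarith
    rcases excGeo_one h1 h2 D hUa hUb hneg hUb with h3 | h3
    · rw [G_of_abs_le habs, abs_of_nonneg hb0] at h3
      linarith
    · rw [G_sub_pi habs] at h3
      linarith
  -- the mirror image
  have hl' := hl.mirror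
  have hT' := mirror_condT hT
  have hA' := mirror_condA hA
  have heven' : ∀ θ, (fun θ => h (π - θ)) (-θ) = (fun θ => h (π - θ)) θ := by
    intro θ
    have e : π - -θ = -(π - θ) + 2 * π := by ring
    show h (π - -θ) = h (π - θ)
    rw [e, hper, heven]
  have ea : π - (π - (a + π / ρ)) = a + π / ρ := by ring
  have eb : π - (π - (a + π / ρ) + π / ρ) = a := by ring
  refine ⟨a, A, B, ha0, ha, hb2, hb, hAa, hBb, hAB, heven, hPL a A B hAa hBb hAB,
    en1_bot h1 h2 hT heven hA hl ha hAa hBb hAB, ?_, fun h3 => en1_three h1 h2 hl h3 hb, ?_⟩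
  · intro θ hθ
    have := en1_bot h1 h2 hT' heven' hA' hl' (a := π - (a + π / ρ)) (A := B) (B := A)
      (by linarith) (by show h (π - (π - (a + π / ρ))) ≤ B; rw [ea]; exact hBb)
      (by show h (π - (π - (a + π / ρ) + π / ρ)) ≤ A; rw [eb]; exact hAa) (by linarith)
      (π - θ) ⟨by linarith [hθ.2], by linarith [hθ.1]⟩
    have e : π - (π - θ) = θ := by ring
    rw [← e]
    exact this
  · intro h3 A' B' hA1 hB1
    have := en1_three h1 h2 hl' (a := π - (a + π / ρ)) (by linarith) (by linarith) B' A'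
      (by show h (π - (π - (a + π / ρ))) ≤ B'; rw [ea]; exact hB1)
      (by show h (π - (π - (a + π / ρ) + π / ρ)) ≤ A'; rw [eb]; exact hA1)
    linarith

end HBInf
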