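import Pool.Agent.HBInf.Link
import Pool.Agent.HBInf.BotInt
import Pool.Agent.HBInf.TrigE

/-!
# The exceptional indicators are of the stated form, `1/2 < ρ < 1`

`β = π - π/(2ρ) ∈ (0, π/2)`, `2β = 2π - π/ρ < π < π/ρ`. Let `h x ≤ A`, `h (x + π/ρ) ≤ B`, `A + B < 0` (negation of `CondC`).
Choose `ε > 0` with `A + B + 2ε < 0`; `UB x (A + ε)`, `UB (x + π/ρ) (B + ε)` (`Link.ub`). For every `θ` with `h θ < ⊤`,
`excGeo_zero` with the three rays `x`, `x' = x + π/ρ - 2π`, `θ` (`ZD.U_add_int`) gives `α ∈ [0, π]` such that all three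
are within `β` of `α` mod `2π`. As `x - x' = 2β < π`, `α ≡ x - β` mod `2π`, so `α` is the same for all `θ`
(if `α = 0` and `α = π` both occurred they would be congruent mod `2π`). Put `a = α - β`, `b = α + β = a + (2π - π/ρ)`;
`a ≡ x'`, `b ≡ x`, so `h a ≤ B`, `h b ≤ A`. If `θ ∈ (b, a + 2π)` then `θ` is not within `β` of `α` mod `2π`, so `h θ = ⊤`.
Alternatives: if `0 ≤ a` and `b ≤ π` we are done. Suppose `a < 0`; `a ≥ -β > -π/2`. `h < ⊤` on `[a, b]`
(`condT_between`). For `θ₁ ∈ (a, 0)`: `botInterior` (with `a`, `a - π/ρ = b - 2π`, `a₀ = a`) and `Link.lb` give `h θ₁ = ⊥`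
(otherwise `h θ₁ > M` for a real `M`). So `h = ⊥` on `(a, b)` (`condT_bot`, `b - a < π/ρ`). If `b > π`, apply the same to
`D.mirror` and `θ ↦ h (π - θ)` with `π - b < 0` in the place of `a` (`Link.mirror`, `mirror_condT`-like computation:
`h (π - (π - b)) = h b`, `h (π - (π - b - π/ρ)) = h (b + π/ρ) = h (a + 2π)`).
-/

namespace HBInf

open HBInd Complex Filter Topology Set MeasureTheory
open scoped Real ComplexConjugate

private theorem en0_per {h : ℝ → EReal} (hper : ∀ θ, h (θ + 2 * π) = h θ) (θ : ℝ) (n : ℤ) :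
    h (θ + n * (2 * π)) = h θ := by
  have h1 : Function.Periodic h (2 * π) := hper
  exact h1.int_mul n θ

private theorem en0_ub {p : ℕ} {ρ : ℝ} {h : ℝ → EReal} {ι : Type} {D : ZD p ρ ι}
    (hl : Link p ρ h D) {θ : ℝ} (ht : h θ ≠ ⊤) : ∃ g, D.UB θ g := by
  obtain ⟨g, hg⟩ := exists_real_gt ht
  exact ⟨g, hl.ub θ g hg⟩

private theorem en0_alpha {β x α : ℝ} (hβ : 0 < β) (hβ2 : β < π / 2) {m m' : ℤ}
    (h1 : |x + m * (2 * π) - α| ≤ β) (h2 : |x - 2 * β + m' * (2 * π) - α| ≤ β) :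
    α = x + m * (2 * π) - β := by
  have hπ := Real.pi_pos
  rw [abs_le] at h1 h2
  have hm : m = m' := by
    by_contra hne
    rcases lt_or_gt_of_ne hne with h | h
    · have h3 : (m : ℝ) + 1 ≤ m' := by exact_mod_cast h
      have h4 := mul_le_mul_of_nonneg_right h3 hπ.le
      linarith
    · have h3 : (m' : ℝ) + 1 ≤ m := by exact_mod_cast h
      have h4 := mul_le_mul_of_nonneg_right h3 hπ.le
      linarith
  subst hm
  linarith

private theorem en0_uniq {x α α' β : ℝ} {m m' : ℤ} (hα : α ∈ Icc 0 π) (hα' : α' ∈ Icc 0 π)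
    (h1 : α = x + m * (2 * π) - β) (h2 : α' = x + m' * (2 * π) - β) : α' = α := by
  have hπ := Real.pi_pos
  obtain ⟨a1, a2⟩ := hα
  obtain ⟨b1, b2⟩ := hα'
  have hm : m = m' := by
    by_contra hne
    rcases lt_or_gt_of_ne hne with h | h
    · have h3 : (m : ℝ) + 1 ≤ m' := by exact_mod_cast h
      have h4 := mul_le_mul_of_nonneg_right h3 hπ.le
      linarith
    · have h3 : (m' : ℝ) + 1 ≤ m := by exact_mod_cast h
      have h4 := mul_le_mul_of_nonneg_right h3 hπ.le
      linarith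
  subst hm
  rw [h1, h2]

private theorem en0_bot {ρ : ℝ} (h1 : 1 / 2 < ρ) (h2 : ρ < 1) {h : ℝ → EReal} {ι : Type}
    {D : ZD 0 ρ ι} (hl : Link 0 ρ h D) {a A B t : ℝ} (hA : h a < A) (hB : h (a - π / ρ) < B)
    (hAB : A + B < 0) (ha : -(π / 2) ≤ a) (hat : a < t) (ht : t < 0)
    (hU : ∀ θ ∈ Ioc a t, h θ ≠ ⊤) : h t = ⊥ := by
  by_contra hne
  obtain ⟨M, -, hM⟩ := EReal.lt_iff_exists_real_btwn.1 (bot_lt_iff_ne_bot.2 hne)
  have h3 : ((0 : ℕ) : ℝ) < ρ := by
    rw [Nat.cast_zero]
    linarith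
  have h4 : ρ < ((0 : ℕ) : ℝ) + 1 := by
    rw [Nat.cast_zero]
    linarith
  exact botInterior (by norm_num) h3 h4 h1 D (hl.ub _ _ hA) (hl.ub _ _ hB) hAB ha hat ht
    (fun θ hθ => en0_ub hl (hU θ hθ)) M (hl.lb t M hM (fun h => absurd h zero_ne_one))

theorem excNecZero {ρ : ℝ} (h1 : 1 / 2 < ρ) (h2 : ρ < 1) {h : ℝ → EReal}
    (hper : ∀ θ, h (θ + 2 * π) = h θ) (hT : CondT ρ h) (hs : ∀ θ ∈ Ioo 0 π, h θ ≤ h (-θ))
    {ι : Type} {D : ZD 0 ρ ι} (hl : Link 0 ρ h D) (hC : ¬CondC ρ h) : ExcZero ρ h := by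
  unfold CondC at hC
  push Not at hC
  obtain ⟨x, A, B, hA, hB, hAB⟩ := hC
  have hπ := Real.pi_pos
  have hρ0 : 0 < ρ := by linarith
  have hq1 : π < π / ρ := by
    rw [lt_div_iff₀ hρ0]
    nlinarith
  have hq2 : π / ρ < 2 * π := by
    rw [div_lt_iff₀ hρ0]
    nlinarith
  set β : ℝ := π - π / (2 * ρ) with hβ
  have hβq : 2 * β = 2 * π - π / ρ := by
    rw [hβ]
    field_simp
  have hβ0 : 0 < β := by linarith
  have hβ2 : β < π / 2 := by linarith
  set ε : ℝ := -(A + B) / 4 with hε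
  have hε0 : 0 < ε := by linarith
  have hltA : h x < ((A + ε : ℝ) : EReal) :=
    hA.trans_lt (by exact_mod_cast (by linarith : A < A + ε))
  have hltB : h (x + π / ρ) < ((B + ε : ℝ) : EReal) :=
    hB.trans_lt (by exact_mod_cast (by linarith : B < B + ε))
  have hneg : A + ε + (B + ε) < 0 := by linarith
  -- every ray with a finite upper bound
  have key : ∀ t : ℝ, h t ≠ ⊤ → ∃ α ∈ Icc 0 π, (∃ m : ℤ, α = x + m * (2 * π) - β) ∧
      ∃ m : ℤ, |t + m * (2 * π) - α| ≤ β := by
    intro t ht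
    have hx' : h (x - 2 * β) ≠ ⊤ := by
      have e : x - 2 * β = x + π / ρ + ((-1 : ℤ) : ℝ) * (2 * π) := by
        push_cast
        linarith
      rw [e, en0_per hper]
      exact (hB.trans_lt (EReal.coe_lt_top _)).ne
    obtain ⟨α, hα, hall⟩ := excGeo_zero h1 h2 D (hl.ub _ _ hltA) (hl.ub _ _ hltB) hneg
      (n := 3) (θ := ![x, x - 2 * β, t]) (by
        intro i
        fin_cases i
        · exact ⟨_, hl.ub _ _ hltA⟩
        · exact en0_ub hl hx'
        · exact en0_ub hl ht)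
    obtain ⟨m0, hm0⟩ := hall 0
    obtain ⟨m1, hm1⟩ := hall 1
    obtain ⟨m2, hm2⟩ := hall 2
    refine ⟨α, hα, ⟨m0, ?_⟩, m2, ?_⟩
    · exact en0_alpha hβ0 hβ2 hm0 hm1
    · exact hm2
  obtain ⟨α, hα, ⟨m0, hm0⟩, -⟩ := key x (hA.trans_lt (EReal.coe_lt_top _)).ne
  have ha : h (α - β) ≤ B := by
    have e : α - β = x + π / ρ + ((m0 - 1 : ℤ) : ℝ) * (2 * π) := by
      push_cast
      linarith
    rw [e, en0_per hper]
    exact hB
  have hb : h (α + β) ≤ A := by
    have e : α + β = x + (m0 : ℝ) * (2 * π) := by linarith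
    rw [e, en0_per hper]
    exact hA
  have hbe : α - β + (2 * π - π / ρ) = α + β := by linarith
  have haT : h (α - β) ≠ ⊤ := (ha.trans_lt (EReal.coe_lt_top _)).ne
  have hbT : h (α + β) ≠ ⊤ := (hb.trans_lt (EReal.coe_lt_top _)).ne
  have hlen : α + β - (α - β) < π / ρ := by linarith
  have hinT : ∀ t ∈ Ioo (α - β) (α + β), h t ≠ ⊤ :=
    fun t ht => condT_between hT ht.1 ht.2 hlen haT hbT
  refine ⟨α - β, B, A, ?_, ?_, ha, ?_, by linarith, ?_, hs, ?_⟩
  · have := hα.1
    linarith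
  · have := hα.2
    linarith
  · rw [hbe]
    exact hb
  · intro t ht
    rw [hbe] at ht
    by_contra hne
    obtain ⟨α', hα', ⟨m1, hm1⟩, m, hm⟩ := key t hne
    rw [en0_uniq hα hα' hm0 hm1, abs_le] at hm
    obtain ⟨ht1, ht2⟩ := ht
    rcases le_or_gt 0 m with h3 | h3
    · have h4 : (0 : ℝ) ≤ m := by exact_mod_cast h3
      have h5 := mul_nonneg h4 hπ.le
      linarith
    · have h4 : (m : ℝ) + 1 ≤ 0 := by exact_mod_cast h3
      have h5 := mul_le_mul_of_nonneg_right h4 hπ.le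
      linarith
  · rw [hbe]
    have hltA' : h (α + β) < ((A + ε : ℝ) : EReal) :=
      hb.trans_lt (by exact_mod_cast (by linarith : A < A + ε))
    have hltB' : h (α - β) < ((B + ε : ℝ) : EReal) :=
      ha.trans_lt (by exact_mod_cast (by linarith : B < B + ε))
    rcases lt_or_ge (α - β) 0 with h3 | h3
    · right
      have hb0 : 0 < α + β := by
        have := hα.1
        linarith
      have hbot : h ((α - β) / 2) = ⊥ := by
        refine en0_bot h1 h2 hl (a := α - β) (A := B + ε) (B := A + ε) hltB' ?_ (by linarith)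
          ?_ (by linarith) (by linarith) ?_
        · have e : α - β - π / ρ = α + β + ((-1 : ℤ) : ℝ) * (2 * π) := by
            push_cast
            linarith
          rw [e, en0_per hper]
          exact hltA'
        · have := hα.1
          linarith
        · intro t ht
          exact hinT t ⟨ht.1, by linarith [ht.2]⟩
      exact condT_bot hρ0 hT hlen haT hbT ⟨by linarith, by linarith⟩ hbot
    · rcases le_or_gt (α + β) π with h4 | h4
      · left
        exact ⟨h3, h4⟩
      · right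
        have hm := hl.mirror
        have hα2 := hα.2
        have hbot : (fun θ => h (π - θ)) ((π - (α + β)) / 2) = ⊥ := by
          refine en0_bot h1 h2 hm (a := π - (α + β)) (A := A + ε) (B := B + ε) ?_ ?_
            (by linarith) (by linarith) (by linarith) (by linarith) ?_
          · show h (π - (π - (α + β))) < _
            rw [sub_sub_cancel]
            exact hltA'
          · show h (π - (π - (α + β) - π / ρ)) < _
            have e : π - (π - (α + β) - π / ρ) = α - β + ((1 : ℤ) : ℝ) * (2 * π) := by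
              push_cast
              linarith
            rw [e, en0_per hper]
            exact hltB'
          · intro t ht
            show h (π - t) ≠ ⊤
            obtain ⟨ht1, ht2⟩ := ht
            exact hinT (π - t) ⟨by linarith, by linarith⟩
        have hbot' : h (π - (π - (α + β)) / 2) = ⊥ := hbot
        exact condT_bot hρ0 hT hlen haT hbT ⟨by linarith, by linarith⟩ hbot'

end HBInf
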