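import Pool.Agent.HBInf.Realize

/-!
# The indicator of the realisation

`≤`: for real `g > limsup dpot`: for large `t`, `dpot < g`, so `‖f‖ ≤ exp ((g + ε) r^ρ)` with `r = e^t`
(`ind_le_of_eventually`), `ε → 0`. `≥`: for real `g < limsup dpot` there are arbitrarily large `t` with
`dpot t θ > g`, hence `t' ∈ [t, t + ε]` with `‖f (ray (e^{t'}) θ)‖ ≥ exp ((g - ε) e^{ρt'})` (`le_ind_of_frequently`).
-/

namespace HBInf

open HBInd Complex Filter Topology Set MeasureTheory
open scoped Real ComplexConjugate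

theorem ind_realize {p : ℕ} (hp : p ≤ 1) {ρ : ℝ} (h1 : (p : ℝ) < ρ) (h2 : ρ < p + 1) {ι : Type}
    [Countable ι] {α : ι → ℝ} {r : ι → ℝ → ℝ} {S B : ι → ℝ} (h : Dens p α r S B) :
    ∃ f : ℂ → ℂ, Pre ρ f ∧ ∀ θ : ℝ,
      ind ρ f θ = limsup (fun t : ℝ => ((dpot p ρ α r t θ : ℝ) : EReal)) atTop := by
  obtain ⟨f, hpre, hU, hL⟩ := realize hp h1 h2 h
  have hpow : ∀ t : ℝ, (Real.exp t) ^ ρ = Real.exp (ρ * t) := by
    intro t
    rw [← Real.exp_mul, mul_comm]
  refine ⟨f, hpre, fun θ => le_antisymm ?_ ?_⟩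
  · rw [← EReal.le_of_forall_lt_iff_le]
    intro g hg
    obtain ⟨g', hg1, hg2⟩ := EReal.lt_iff_exists_real_btwn.1 hg
    have hg3 : g' < g := EReal.coe_lt_coe_iff.1 hg2
    have h3 := eventually_lt_of_limsup_lt hg1
    have h4 := (hU (g - g') (by linarith)).and h3
    apply ind_le_of_eventually
    filter_upwards [Real.tendsto_log_atTop.eventually h4, eventually_gt_atTop 0] with x hx hx0
    obtain ⟨hx1, hx2⟩ := hx
    have h5 := hx1 θ
    rw [Real.exp_log hx0] at h5
    refine h5.trans (Real.exp_le_exp.2 ?_)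
    have h6 : dpot p ρ α r (Real.log x) θ < g' := EReal.coe_lt_coe_iff.1 hx2
    have h7 : Real.exp (ρ * Real.log x) = x ^ ρ := by
      rw [← hpow, Real.exp_log hx0]
    rw [h7, mul_comm]
    exact mul_le_mul_of_nonneg_right (by linarith) (Real.rpow_nonneg hx0.le _)
  · rw [← EReal.ge_of_forall_gt_iff_ge]
    intro g hg
    obtain ⟨g', hg1, hg2⟩ := EReal.lt_iff_exists_real_btwn.1 hg
    have hg3 : g < g' := EReal.coe_lt_coe_iff.1 hg1
    have h3 := frequently_lt_of_lt_limsup (h := hg2)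
    have h4 := h3.and_eventually (hL (g' - g) (by linarith))
    apply le_ind_of_frequently
    rw [frequently_atTop] at h4 ⊢
    intro X
    obtain ⟨t, ht, ht1, ht2⟩ := h4 (Real.log (max X 1))
    obtain ⟨t', ht', h5⟩ := ht2 θ
    have h6 : g' < dpot p ρ α r t θ := EReal.coe_lt_coe_iff.1 ht1
    refine ⟨Real.exp t', ?_, ?_⟩
    · have h7 : max X 1 ≤ Real.exp t' := by
        rw [← Real.log_le_iff_le_exp (by positivity)]
        exact le_trans ht ht'.1
      exact (le_max_left _ _).trans h7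
    · refine le_trans (Real.exp_le_exp.2 ?_) h5
      rw [hpow, mul_comm]
      exact mul_le_mul_of_nonneg_left (by linarith) (Real.exp_nonneg _)

end HBInf
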