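import Pool.Agent.HBInf.SlowAsym
import Pool.Agent.HBInf.IndReal

/-!
# Realisation with growing densities

`V = ∑ ν l VV (θ - γ l)`, `W = ∑ ν l WW (θ - γ l)`, `Vξ j = ∑ ξ j l VV (θ - γ l)`. Apply `slow_path` to the vectors
`(q j, ξ j) ∈ ℝ^{1 + K}`: paths `Q t`, `Ξ t l`; `C t = ∫_0^t Q`. For `t` large `Q t ≥ q₀`, so `C t ≥ q₀ t / 2` for large `t`,
`|Ξ t l| ≤ ε t`. Densities `r l t = max 0 (ν l C t + Ξ t l)`, zero for `t ≤ 1`, `≤ B (1 + |t|)²`, and equal to
`ν l C t + Ξ t l` for `t ≥ t₀`: if `ν l > 0` because `C t ≥ q₀ t/2`; if `ν l = 0` then all `ξ j l ≥ 0` (`hξ`) and `Ξ t l ≥ 0`. The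
difference `max 0 (..) - (..)` is supported in `[1, t₀]` and bounded, so its potential is `O(e^{-sg t})` (`Psi` bound).
`ind_realize` (`ι = Fin K`, `S = 0`) and `asym_C`, `asym_q`:
`dpot t θ = C t V + (Q t W + ∑ Ξ t l VV (θ - γ l)) + o(1)`, uniformly in `θ`.
* `V > 0`: `dpot ≥ q₀ t V/2 - ε' t`: tends to `+∞` (`|Q t|, |Ξ t| ≤ ε t` with `ε` small); `V < 0`: to `-∞`.
* `V = 0`: `dpot = (1 - s) x_j + s x_{j+1} + o(1)`, `x_j = q j W + Vξ j`, with `j → ∞`, and every `x_j` is attained; so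
  the `limsup` is `limsup_j x_j`.
-/

namespace HBInf

open HBInd Complex Filter Topology Set MeasureTheory
open scoped Real ComplexConjugate

/-- comparison of upper limits -/
lemma exr_limsup {x : ℕ → ℝ} {y z : ℝ → ℝ}
    (h1 : ∀ J : ℕ, ∀ᶠ t : ℝ in atTop, ∃ j, J ≤ j ∧ ∃ s ∈ Icc (0 : ℝ) 1,
      z t = (1 - s) * x j + s * x (j + 1))
    (h2 : ∀ j : ℕ, ∃ t : ℝ, (j : ℝ) ≤ t ∧ z t = x j)
    (h3 : ∀ ε : ℝ, 0 < ε → ∀ᶠ t : ℝ in atTop, |y t - z t| ≤ ε) :
    limsup (fun t => ((y t : ℝ) : EReal)) atTop = limsup (fun j => ((x j : ℝ) : EReal)) atTop := by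
  refine le_antisymm ?_ ?_
  · refine EReal.le_of_forall_lt_iff_le.1 fun g hg => ?_
    obtain ⟨g', hg1, hg2⟩ := EReal.exists_between_coe_real hg
    have hg3 : g' < g := by exact_mod_cast hg2
    have e1 : ∀ᶠ j : ℕ in atTop, ((x j : ℝ) : EReal) < g' := eventually_lt_of_limsup_lt hg1
    obtain ⟨J, hJ⟩ := eventually_atTop.1 e1
    refine limsup_le_of_le (h := ?_)
    filter_upwards [h1 J, h3 (g - g') (sub_pos.2 hg3)] with t ht1 ht2
    obtain ⟨j, hj, s, hs, hz⟩ := ht1
    have a1 : x j < g' := by exact_mod_cast hJ j hj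
    have a2 : x (j + 1) < g' := by exact_mod_cast hJ (j + 1) (by omega)
    have a3 : z t ≤ g' := by
      rw [hz]
      have b1 : (1 - s) * x j ≤ (1 - s) * g' :=
        mul_le_mul_of_nonneg_left a1.le (by linarith [hs.2])
      have b2 : s * x (j + 1) ≤ s * g' := mul_le_mul_of_nonneg_left a2.le hs.1
      linarith
    have a4 := (abs_le.1 ht2).2
    exact_mod_cast (by linarith : y t ≤ g)
  · refine EReal.ge_of_forall_gt_iff_ge.1 fun g hg => ?_
    obtain ⟨g', hg1, hg2⟩ := EReal.exists_between_coe_real hg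
    have hg3 : g < g' := by exact_mod_cast hg1
    have e1 : ∃ᶠ j : ℕ in atTop, (g' : EReal) < ((x j : ℝ) : EReal) :=
      frequently_lt_of_lt_limsup (by isBoundedDefault) hg2
    refine le_limsup_of_frequently_le ?_ (by isBoundedDefault)
    rw [frequently_atTop]
    intro T
    obtain ⟨T', hT'⟩ := eventually_atTop.1 (h3 (g' - g) (sub_pos.2 hg3))
    obtain ⟨N, hN⟩ := exists_nat_ge (max T T')
    obtain ⟨j, hj, hxj⟩ := (frequently_atTop.1 e1) N
    obtain ⟨t, ht, hz⟩ := h2 j
    have hjN : (N : ℝ) ≤ j := by exact_mod_cast hj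
    have a1 : T ≤ t := by linarith [le_max_left T T']
    have a2 : T' ≤ t := by linarith [le_max_right T T']
    have a3 := (abs_le.1 (hT' t a2)).1
    have a4 : g' < x j := by exact_mod_cast hxj
    rw [hz] at a3
    exact ⟨t, a1, by exact_mod_cast (by linarith : g ≤ y t)⟩

/-- the potential of a bounded density which vanishes far to the right -/
lemma exr_err {p : ℕ} (hp : p ≤ 1) {ρ : ℝ} (h1 : (p : ℝ) < ρ) (h2 : ρ < p + 1) {e : ℝ → ℝ}
    (he : Continuous e) {M t₀ : ℝ} (hM : ∀ t, |e t| ≤ M) (h0 : ∀ t, t₀ ≤ t → e t = 0) {ε : ℝ}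
    (hε : 0 < ε) : ∀ᶠ t : ℝ in atTop, ∀ ψ : ℝ,
      Integrable (fun u => kn p ρ u ψ * e (t - u)) ∧
      |∫ u, kn p ρ u ψ * e (t - u)| ≤ ε := by
  have hs := sg_pos h1 h2
  set s := sg p ρ with hsdef
  have hM0 : 0 ≤ M := (abs_nonneg _).trans (hM 0)
  have hI := integrable_psi hp h1 h2
  rw [← hsdef] at hI
  set P := ∫ u : ℝ, (1 + |u|) ^ 2 * Psi p ρ u * Real.exp (s * |u|) with hP
  have hP0 : 0 ≤ P := integral_nonneg fun u => by
    have := Psi_nonneg p ρ u
    positivity
  -- pointwise bound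
  have hpt : ∀ t ψ : ℝ, ∀ᵐ u : ℝ, ‖kn p ρ u ψ * e (t - u)‖ ≤
      (M * Real.exp (-s * (t - t₀))) * ((1 + |u|) ^ 2 * Psi p ρ u * Real.exp (s * |u|)) := by
    intro t ψ
    filter_upwards [knt_ae_ne] with u hu
    have b1 := abs_kn_le hp ρ hu ψ
    have b2 := Psi_nonneg p ρ u
    have hu0 := abs_nonneg u
    have b3 : |e (t - u)| ≤ M * Real.exp (-s * (t - t₀)) * Real.exp (s * |u|) := by
      rcases le_total t₀ (t - u) with h | h
      · rw [h0 _ h, abs_zero]
        positivity
      · rw [mul_assoc, ← Real.exp_add]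
        have b4 : 1 ≤ Real.exp (-s * (t - t₀) + s * |u|) := by
          apply Real.one_le_exp
          have : t - t₀ ≤ |u| := by linarith [le_abs_self u]
          nlinarith
        calc |e (t - u)| ≤ M * 1 := by rw [mul_one]; exact hM _
          _ ≤ _ := mul_le_mul_of_nonneg_left b4 hM0
    have b5 : 1 ≤ (1 + |u|) ^ 2 := by nlinarith
    rw [norm_mul, Real.norm_eq_abs, Real.norm_eq_abs]
    calc |kn p ρ u ψ| * |e (t - u)|
        ≤ Psi p ρ u * (M * Real.exp (-s * (t - t₀)) * Real.exp (s * |u|)) :=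
          mul_le_mul b1 b3 (abs_nonneg _) b2
      _ = 1 * ((M * Real.exp (-s * (t - t₀))) * (Psi p ρ u * Real.exp (s * |u|))) := by ring
      _ ≤ (1 + |u|) ^ 2 * ((M * Real.exp (-s * (t - t₀))) * (Psi p ρ u * Real.exp (s * |u|))) :=
          mul_le_mul_of_nonneg_right b5 (by positivity)
      _ = _ := by ring
  have hlim : Tendsto (fun t : ℝ => M * Real.exp (-s * (t - t₀)) * P) atTop (𝓝 0) := by
    have a1 : Tendsto (fun t : ℝ => s * (t - t₀)) atTop atTop :=
      (tendsto_atTop_add_const_right _ (-t₀) tendsto_id).const_mul_atTop hs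
    have a2 := (Real.tendsto_exp_neg_atTop_nhds_zero.comp a1).const_mul M
    have a3 := a2.mul_const P
    rw [mul_zero, zero_mul] at a3
    refine a3.congr fun t => ?_
    simp only [Function.comp, neg_mul]
  filter_upwards [hlim.eventually (gt_mem_nhds hε)] with t ht ψ
  have hint : Integrable (fun u => kn p ρ u ψ * e (t - u)) := by
    refine Integrable.mono' (hI.const_mul (M * Real.exp (-s * (t - t₀)))) ?_ (hpt t ψ)
    have m1 := knt_meas_kn p ρ ψ
    have m2 : Measurable fun u : ℝ => e (t - u) := (he.comp (by fun_prop)).measurable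
    exact (m1.mul m2).aestronglyMeasurable
  refine ⟨hint, ?_⟩
  rw [← Real.norm_eq_abs]
  refine (norm_integral_le_of_norm_le (hI.const_mul (M * Real.exp (-s * (t - t₀)))) (hpt t ψ)).trans
    ?_
  rw [integral_const_mul]
  exact ht.le

theorem exc_realize {p : ℕ} (hp : p ≤ 1) {ρ : ℝ} (h1 : (p : ℝ) < ρ) (h2 : ρ < p + 1) {K : ℕ}
    {γ ν : Fin K → ℝ} (hγ : ∀ l, γ l ∈ TT p) (hν : ∀ l, 0 ≤ ν l) {q : ℕ → ℝ}
    {ξ : ℕ → Fin K → ℝ} {q₀ : ℝ} (hq₀ : 0 < q₀) (hq : ∀ j, q₀ ≤ q j)
    (hξ : ∀ l, 0 < ν l ∨ ∀ j, 0 ≤ ξ j l) :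
    ∃ f : ℂ → ℂ, Pre ρ f ∧ ∀ θ : ℝ,
      (0 < ∑ l, ν l * VV p ρ (θ - γ l) → ind ρ f θ = ⊤) ∧
      (∑ l, ν l * VV p ρ (θ - γ l) < 0 → ind ρ f θ = ⊥) ∧
      (∑ l, ν l * VV p ρ (θ - γ l) = 0 → ind ρ f θ =
        limsup (fun j => ((q j * ∑ l, ν l * WW p ρ (θ - γ l) +
          ∑ l, ξ j l * VV p ρ (θ - γ l) : ℝ) : EReal)) atTop) := by
  obtain ⟨Q, hslow, hz, ⟨C₀, hC₀⟩, hsub, hany, hlate, hatt⟩ :=
    slow_path (m := K + 1) (fun j => Fin.cons (q j) (ξ j))
  -- the path of the main density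
  set R : ℝ → ℝ := fun t => Q t 0 with hR
  have hRs : SlowFn R := hslow 0
  have hRc : Continuous R := hRs.1
  have hC₀0 : 0 ≤ C₀ := by
    have := (abs_nonneg _).trans (hC₀ 0 0)
    simpa using this
  have hR0 : ∀ t, 0 ≤ R t := by
    intro t
    obtain ⟨s, hs, j, h | h⟩ := hany t
    · have := h 0
      simp only [Fin.cons_zero] at this
      rw [hR]
      simp only
      rw [this]
      exact mul_nonneg hs.1 (hq₀.le.trans (hq j))
    · have := h 0
      simp only [Fin.cons_zero] at this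
      rw [hR]
      simp only
      rw [this]
      have a1 := hq j
      have a2 := hq (j + 1)
      have a3 : 0 ≤ (1 - s) * q j := mul_nonneg (by linarith [hs.2]) (by linarith)
      have a4 : 0 ≤ s * q (j + 1) := mul_nonneg hs.1 (by linarith)
      linarith
  have hRlate : ∀ᶠ t : ℝ in atTop, q₀ ≤ R t := by
    filter_upwards [hlate 0] with t ht
    obtain ⟨j, -, s, hs, h⟩ := ht
    have := h 0
    simp only [Fin.cons_zero] at this
    rw [hR]
    simp only
    rw [this]
    have a1 : (1 - s) * q₀ ≤ (1 - s) * q j :=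
      mul_le_mul_of_nonneg_left (hq j) (by linarith [hs.2])
    have a2 : s * q₀ ≤ s * q (j + 1) := mul_le_mul_of_nonneg_left (hq (j + 1)) hs.1
    linarith
  have hXi0 : ∀ l, ν l = 0 → ∀ t, 0 ≤ Q t l.succ := by
    intro l hl t
    have hξ' : ∀ j, 0 ≤ ξ j l := (hξ l).resolve_left (by rw [hl]; exact lt_irrefl 0)
    obtain ⟨s, hs, j, h | h⟩ := hany t
    · have := h l.succ
      simp only [Fin.cons_succ] at this
      rw [this]
      exact mul_nonneg hs.1 (hξ' j)
    · have := h l.succ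
      simp only [Fin.cons_succ] at this
      rw [this]
      exact add_nonneg (mul_nonneg (by linarith [hs.2]) (hξ' j)) (mul_nonneg hs.1 (hξ' _))
  -- the primitive
  set C : ℝ → ℝ := fun t => ∫ s in (0 : ℝ)..t, R s with hCdef
  have hCc : Continuous C := intervalIntegral.continuous_primitive
    (fun a b => hRc.intervalIntegrable a b) 0
  have hC1 : ∀ t ≤ 1, C t = 0 := by
    intro t ht
    have : ∀ s ∈ uIcc 0 t, R s = (fun _ => (0 : ℝ)) s := by
      intro s hs
      refine hz s ?_ 0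
      have := hs.2
      have h5 : max 0 t ≤ 1 := max_le zero_le_one ht
      exact this.trans h5
    rw [hCdef]
    simp only
    rw [intervalIntegral.integral_congr this]
    simp
  have hCbd : ∀ t, |C t| ≤ C₀ * (1 + |t|) * |t| := by
    intro t
    have : ∀ s ∈ uIoc 0 t, ‖R s‖ ≤ C₀ * (1 + |t|) := by
      intro s hs
      have h5 : |s| ≤ |t| := by
        rcases le_total 0 t with h | h
        · rw [uIoc_of_le h] at hs
          rw [abs_of_nonneg hs.1.le, abs_of_nonneg h]
          exact hs.2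
        · rw [uIoc_of_ge h] at hs
          rw [abs_of_nonpos hs.2, abs_of_nonpos h]
          linarith [hs.1]
      rw [Real.norm_eq_abs]
      refine (hC₀ s 0).trans ?_
      exact mul_le_mul_of_nonneg_left (by linarith) hC₀0
    have := intervalIntegral.norm_integral_le_of_norm_le_const this
    rw [sub_zero, Real.norm_eq_abs] at this
    exact this
  obtain ⟨t₁, ht₁⟩ := eventually_atTop.1 hRlate
  set t₂ : ℝ := max 1 t₁ with ht₂
  have ht₂1 : 1 ≤ t₂ := le_max_left _ _
  have hClow : ∀ t, 2 * t₂ ≤ t → q₀ * t / 2 ≤ C t := by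
    intro t ht
    have a0 : 0 ≤ ∫ s in (0 : ℝ)..t₂, R s :=
      intervalIntegral.integral_nonneg (by linarith) fun s _ => hR0 s
    have a1 : ∫ s in t₂..t, q₀ ≤ ∫ s in t₂..t, R s := by
      refine intervalIntegral.integral_mono_on (by linarith) intervalIntegrable_const
        (hRc.intervalIntegrable _ _) fun s hs => ?_
      exact ht₁ s ((le_max_right _ _).trans hs.1)
    rw [intervalIntegral.integral_const, smul_eq_mul] at a1
    have a2 : C t = (∫ s in (0 : ℝ)..t₂, R s) + ∫ s in t₂..t, R s :=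
      (intervalIntegral.integral_add_adjacent_intervals (hRc.intervalIntegrable _ _)
        (hRc.intervalIntegrable _ _)).symm
    rw [a2]
    nlinarith
  -- the densities
  set g : Fin K → ℝ → ℝ := fun l t => ν l * C t + Q t l.succ with hg
  set r : Fin K → ℝ → ℝ := fun l t => max 0 (g l t) with hr
  have hgc : ∀ l, Continuous (g l) := fun l =>
    (hCc.const_mul (ν l)).add (hslow l.succ).1
  have hrc : ∀ l, Continuous (r l) := fun l => continuous_const.max (hgc l)
  have hg1 : ∀ l, ∀ t ≤ 1, g l t = 0 := by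
    intro l t ht
    rw [hg]
    simp only
    rw [hC1 t ht, hz t ht, mul_zero, add_zero]
  have hgb : ∀ l t, |g l t| ≤ (ν l + 1) * C₀ * (1 + |t|) ^ 2 := by
    intro l t
    have b1 := hCbd t
    have b2 := hC₀ t l.succ
    have ht0 := abs_nonneg t
    have b3 : |g l t| ≤ ν l * |C t| + |Q t l.succ| := by
      rw [hg]
      refine (abs_add_le _ _).trans ?_
      rw [abs_mul, abs_of_nonneg (hν l)]
    have b4 : ν l * |C t| ≤ ν l * (C₀ * (1 + |t|) * |t|) := mul_le_mul_of_nonneg_left b1 (hν l)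
    have b5 : C₀ * (1 + |t|) * |t| ≤ C₀ * (1 + |t|) ^ 2 := by
      have : 0 ≤ C₀ * (1 + |t|) := by positivity
      nlinarith
    have b6 : ν l * (C₀ * (1 + |t|) * |t|) ≤ ν l * (C₀ * (1 + |t|) ^ 2) :=
      mul_le_mul_of_nonneg_left b5 (hν l)
    have b7 : C₀ * (1 + |t|) ≤ C₀ * (1 + |t|) ^ 2 := by
      have : 0 ≤ C₀ * (1 + |t|) := by positivity
      nlinarith
    calc |g l t| ≤ ν l * (C₀ * (1 + |t|) ^ 2) + C₀ * (1 + |t|) ^ 2 := by linarith
      _ = (ν l + 1) * C₀ * (1 + |t|) ^ 2 := by ring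
  have hD : Dens p γ r (fun _ => 0) (fun l => (ν l + 1) * C₀) := by
    refine ⟨hγ, hrc, fun l t => le_max_left _ _, fun l t ht => ?_, fun _ => le_rfl,
      fun l t => ?_, fun κ hκ => Summable.of_finite⟩
    · rw [hr]
      simp only
      rw [hg1 l t (by linarith), max_self]
    · rw [hr]
      simp only
      refine max_le ?_ ((le_abs_self _).trans (hgb l t))
      exact (abs_nonneg _).trans (hgb l t)
  obtain ⟨f, hf, hind⟩ := ind_realize hp h1 h2 hD
  refine ⟨f, hf, ?_⟩
  -- the densities are unchanged for large t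
  have hgpos : ∀ l, ∀ᶠ t : ℝ in atTop, 0 ≤ g l t := by
    intro l
    rcases (hν l).eq_or_lt with h | h
    · filter_upwards [eventually_ge_atTop (2 * t₂)] with t ht
      rw [hg]
      simp only
      rw [← h, zero_mul, zero_add]
      exact hXi0 l h.symm t
    · have hε : 0 < ν l * q₀ / 2 := by positivity
      filter_upwards [eventually_ge_atTop (2 * t₂), hsub (ν l * q₀ / 2) hε] with t ht ht2
      have a1 := hClow t ht
      have a2 := (abs_le.1 (ht2 l.succ)).1
      rw [hg]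
      simp only
      have a3 : ν l * (q₀ * t / 2) ≤ ν l * C t := mul_le_mul_of_nonneg_left a1 h.le
      linarith
  obtain ⟨t₀, ht₀⟩ := eventually_atTop.1 (eventually_all.2 hgpos)
  set e : Fin K → ℝ → ℝ := fun l t => r l t - g l t with he
  have hec : ∀ l, Continuous (e l) := fun l => (hrc l).sub (hgc l)
  have he0 : ∀ l t, t₀ ≤ t → e l t = 0 := by
    intro l t ht
    rw [he, hr]
    simp only
    rw [max_eq_right (ht₀ t ht l), sub_self]
  have heb : ∀ l, ∃ M, ∀ t, |e l t| ≤ M := by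
    intro l
    obtain ⟨M, hM⟩ := (isCompact_Icc (a := (1 : ℝ)) (b := t₀)).exists_bound_of_continuousOn
      (hec l).continuousOn
    refine ⟨max 0 M, fun t => ?_⟩
    rcases le_total t 1 with h | h
    · rw [he, hr]
      simp only
      rw [hg1 l t h, max_self, sub_zero, abs_zero]
      exact le_max_left _ _
    · rcases le_total t₀ t with h' | h'
      · rw [he0 l t h', abs_zero]
        exact le_max_left _ _
      · exact (hM t ⟨h, h'⟩).trans (le_max_right _ _)
  -- asymptotics of the potential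
  have key : ∀ ε : ℝ, 0 < ε → ∀ᶠ t : ℝ in atTop, ∀ θ : ℝ,
      |dpot p ρ γ r t θ - (C t * ∑ l, ν l * VV p ρ (θ - γ l) +
        (R t * ∑ l, ν l * WW p ρ (θ - γ l) + ∑ l, Q t l.succ * VV p ρ (θ - γ l)))| ≤ ε := by
    intro ε hε
    set N : ℝ := ∑ l : Fin K, (ν l + 1 + 1) + 1 with hN
    have hN0 : 0 < N := by
      have : 0 ≤ ∑ l : Fin K, (ν l + 1 + 1) := Finset.sum_nonneg fun l _ => by linarith [hν l]
      linarith
    set δ : ℝ := ε / N with hδ
    have hδ0 : 0 < δ := by positivity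
    have A1 := asym_C hp h1 h2 hRs hδ0
    have A2 : ∀ᶠ t : ℝ in atTop, ∀ l : Fin K, ∀ ψ : ℝ,
        Integrable (fun u => kn p ρ u ψ * Q (t - u) l.succ) ∧
        |(∫ u, kn p ρ u ψ * Q (t - u) l.succ) - Q t l.succ * VV p ρ ψ| ≤ δ :=
      eventually_all.2 fun l => asym_q hp h1 h2 (hslow l.succ) hδ0
    have A3 : ∀ᶠ t : ℝ in atTop, ∀ l : Fin K, ∀ ψ : ℝ,
        Integrable (fun u => kn p ρ u ψ * e l (t - u)) ∧
        |∫ u, kn p ρ u ψ * e l (t - u)| ≤ δ :=
      eventually_all.2 fun l => by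
        obtain ⟨M, hM⟩ := heb l
        exact exr_err hp h1 h2 (hec l) hM (he0 l) hδ0
    filter_upwards [A1, A2, A3] with t B1 B2 B3 θ
    have hterm : ∀ l, |(∫ u, kn p ρ u (θ - γ l) * r l (t - u)) -
        (C t * (ν l * VV p ρ (θ - γ l)) + (R t * (ν l * WW p ρ (θ - γ l)) +
          Q t l.succ * VV p ρ (θ - γ l)))| ≤ (ν l + 1 + 1) * δ := by
      intro l
      obtain ⟨I1, b1⟩ := B1 (θ - γ l)
      obtain ⟨I2, b2⟩ := B2 l (θ - γ l)
      obtain ⟨I3, b3⟩ := B3 l (θ - γ l)
      have hdec : (fun u => kn p ρ u (θ - γ l) * r l (t - u)) = fun u =>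
          (ν l * (kn p ρ u (θ - γ l) * ∫ s in (0 : ℝ)..(t - u), R s) +
            kn p ρ u (θ - γ l) * Q (t - u) l.succ) + kn p ρ u (θ - γ l) * e l (t - u) := by
        funext u
        rw [he, hg, hCdef]
        simp only
        ring
      have hint : ∫ u, kn p ρ u (θ - γ l) * r l (t - u) =
          (ν l * (∫ u, kn p ρ u (θ - γ l) * ∫ s in (0 : ℝ)..(t - u), R s) +
            ∫ u, kn p ρ u (θ - γ l) * Q (t - u) l.succ) +
            ∫ u, kn p ρ u (θ - γ l) * e l (t - u) := by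
        have I12 : Integrable (fun u => ν l * (kn p ρ u (θ - γ l) * ∫ s in (0 : ℝ)..(t - u), R s) +
            kn p ρ u (θ - γ l) * Q (t - u) l.succ) := (I1.const_mul (ν l)).add I2
        rw [hdec, integral_add I12 I3, integral_add (I1.const_mul (ν l)) I2, integral_const_mul]
      rw [hint]
      set a := ∫ u, kn p ρ u (θ - γ l) * ∫ s in (0 : ℝ)..(t - u), R s with ha
      set b := ∫ u, kn p ρ u (θ - γ l) * Q (t - u) l.succ with hb
      set c := ∫ u, kn p ρ u (θ - γ l) * e l (t - u) with hc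
      have hCt : (∫ s in (0 : ℝ)..t, R s) = C t := rfl
      rw [hCt] at b1
      have hkey : ν l * a + b + c - (C t * (ν l * VV p ρ (θ - γ l)) +
          (R t * (ν l * WW p ρ (θ - γ l)) + Q t l.succ * VV p ρ (θ - γ l))) =
          ν l * (a - (C t * VV p ρ (θ - γ l) + R t * WW p ρ (θ - γ l))) +
            (b - Q t l.succ * VV p ρ (θ - γ l)) + c := by ring
      rw [hkey]
      refine (abs_add_le _ _).trans ?_
      have c1 := abs_add_le (ν l * (a - (C t * VV p ρ (θ - γ l) + R t * WW p ρ (θ - γ l))))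
        (b - Q t l.succ * VV p ρ (θ - γ l))
      rw [abs_mul, abs_of_nonneg (hν l)] at c1
      have c2 := mul_le_mul_of_nonneg_left b1 (hν l)
      linarith
    have hsum : dpot p ρ γ r t θ - (C t * ∑ l, ν l * VV p ρ (θ - γ l) +
        (R t * ∑ l, ν l * WW p ρ (θ - γ l) + ∑ l, Q t l.succ * VV p ρ (θ - γ l))) =
        ∑ l, ((∫ u, kn p ρ u (θ - γ l) * r l (t - u)) -
        (C t * (ν l * VV p ρ (θ - γ l)) + (R t * (ν l * WW p ρ (θ - γ l)) +
          Q t l.succ * VV p ρ (θ - γ l)))) := by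
      rw [Finset.sum_sub_distrib, Finset.sum_add_distrib, Finset.sum_add_distrib, dpot,
        tsum_fintype, Finset.mul_sum, Finset.mul_sum]
    rw [hsum]
    refine (Finset.abs_sum_le_sum_abs _ _).trans ((Finset.sum_le_sum fun l _ => hterm l).trans ?_)
    rw [← Finset.sum_mul]
    have : (∑ l : Fin K, (ν l + 1 + 1)) * δ ≤ N * δ :=
      mul_le_mul_of_nonneg_right (by rw [hN]; linarith) hδ0.le
    refine this.trans (le_of_eq ?_)
    rw [hδ, mul_div_cancel₀ _ hN0.ne']
  intro θ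
  rw [hind θ]
  set V := ∑ l, ν l * VV p ρ (θ - γ l) with hV
  set W := ∑ l, ν l * WW p ρ (θ - γ l) with hW
  set Z := |W| + ∑ l, |VV p ρ (θ - γ l)| with hZ
  have hZ0 : 0 ≤ Z := add_nonneg (abs_nonneg _) (Finset.sum_nonneg fun l _ => abs_nonneg _)
  -- size of the second term
  have hsec : ∀ ε : ℝ, 0 < ε → ∀ᶠ t : ℝ in atTop,
      |R t * W + ∑ l, Q t l.succ * VV p ρ (θ - γ l)| ≤ ε * t * Z := by
    intro ε hε
    filter_upwards [hsub ε hε] with t ht
    refine (abs_add_le _ _).trans ?_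
    rw [hZ, mul_add]
    refine add_le_add ?_ ?_
    · rw [abs_mul]
      exact mul_le_mul_of_nonneg_right (ht 0) (abs_nonneg _)
    · refine (Finset.abs_sum_le_sum_abs _ _).trans ?_
      rw [Finset.mul_sum]
      refine Finset.sum_le_sum fun l _ => ?_
      rw [abs_mul]
      exact mul_le_mul_of_nonneg_right (ht l.succ) (abs_nonneg _)
  refine ⟨fun hVp => ?_, fun hVn => ?_, fun hV0 => ?_⟩
  · refine Tendsto.limsup_eq ?_
    rw [EReal.tendsto_coe_nhds_top_iff]
    have hε : 0 < q₀ * V / (4 * (Z + 1)) := by positivity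
    have hlim : Tendsto (fun t : ℝ => q₀ * V / 4 * t + (-1)) atTop atTop :=
      tendsto_atTop_add_const_right _ _ (tendsto_id.const_mul_atTop (by positivity))
    refine tendsto_atTop_mono' _ ?_ hlim
    filter_upwards [key 1 one_pos, hsec _ hε, eventually_ge_atTop (2 * t₂)] with t k1 k2 k3
    have c1 := (abs_le.1 (k1 θ)).1
    have c2 := (abs_le.1 k2).1
    have c3 := mul_le_mul_of_nonneg_right (hClow t k3) hVp.le
    have ht0 : 0 ≤ t := by linarith
    have c4 : q₀ * V / (4 * (Z + 1)) * t * Z ≤ q₀ * V / 4 * t := by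
      have d1 : q₀ * V / (4 * (Z + 1)) * t * Z = q₀ * V / 4 * t * (Z / (Z + 1)) := by
        field_simp
      rw [d1]
      have d2 : Z / (Z + 1) ≤ 1 := by
        rw [div_le_one (by linarith)]
        linarith
      exact mul_le_of_le_one_right (by positivity) d2
    linarith
  · refine Tendsto.limsup_eq ?_
    rw [EReal.tendsto_coe_nhds_bot_iff]
    have hVn' : 0 < -V := by linarith
    have hε : 0 < q₀ * (-V) / (4 * (Z + 1)) := by positivity
    have hlim : Tendsto (fun t : ℝ => -(q₀ * (-V) / 4 * t + (-1))) atTop atBot :=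
      tendsto_neg_atTop_atBot.comp
        (tendsto_atTop_add_const_right _ _ (tendsto_id.const_mul_atTop (by positivity)))
    refine tendsto_atBot_mono' _ ?_ hlim
    filter_upwards [key 1 one_pos, hsec _ hε, eventually_ge_atTop (2 * t₂)] with t k1 k2 k3
    have c1 := (abs_le.1 (k1 θ)).2
    have c2 := (abs_le.1 k2).2
    have c3 := mul_le_mul_of_nonneg_right (hClow t k3) hVn'.le
    have ht0 : 0 ≤ t := by linarith
    have c4 : q₀ * (-V) / (4 * (Z + 1)) * t * Z ≤ q₀ * (-V) / 4 * t := by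
      have d1 : q₀ * (-V) / (4 * (Z + 1)) * t * Z = q₀ * (-V) / 4 * t * (Z / (Z + 1)) := by
        field_simp
      rw [d1]
      have d2 : Z / (Z + 1) ≤ 1 := by
        rw [div_le_one (by linarith)]
        linarith
      exact mul_le_of_le_one_right (by positivity) d2
    linarith
  · refine exr_limsup (z := fun t => R t * W + ∑ l, Q t l.succ * VV p ρ (θ - γ l)) ?_ ?_ ?_
    · intro J
      filter_upwards [hlate J] with t ht
      obtain ⟨j, hj, s, hs, h⟩ := ht
      refine ⟨j, hj, s, hs, ?_⟩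
      have a0 := h 0
      simp only [Fin.cons_zero] at a0
      have a1 : R t = (1 - s) * q j + s * q (j + 1) := a0
      have a2 : ∀ l : Fin K, Q t l.succ = (1 - s) * ξ j l + s * ξ (j + 1) l := by
        intro l
        have := h l.succ
        simpa only [Fin.cons_succ] using this
      have a3 : ∑ l, Q t l.succ * VV p ρ (θ - γ l) =
          (1 - s) * ∑ l, ξ j l * VV p ρ (θ - γ l) + s * ∑ l, ξ (j + 1) l * VV p ρ (θ - γ l) := by
        rw [Finset.mul_sum, Finset.mul_sum, ← Finset.sum_add_distrib]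
        refine Finset.sum_congr rfl fun l _ => ?_
        rw [a2 l]
        ring
      rw [a1, a3]
      ring
    · intro j
      obtain ⟨t, ht, h⟩ := hatt j
      refine ⟨t, ht, ?_⟩
      have a0 := h 0
      simp only [Fin.cons_zero] at a0
      have a1 : R t = q j := a0
      have a2 : ∀ l : Fin K, Q t l.succ = ξ j l := by
        intro l
        have := h l.succ
        simpa only [Fin.cons_succ] using this
      rw [a1]
      congr 1
      exact Finset.sum_congr rfl fun l _ => by rw [a2 l]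
    · intro ε hε
      filter_upwards [key ε hε] with t ht
      have := ht θ
      rw [← hV, ← hW, hV0, mul_zero, zero_add] at this
      exact this

end HBInf
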