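import Pool.Agent.HBInf.HBabs
import Pool.Agent.HBInf.DualCert

/-!
# Potentials with given upper bounds on finitely many rays and a large value at one point

Let `P` be the set of all `((∑_j potE (θ i - α j) (c j))_i, ∑_j potE (θ₀ - α j) (c j) 0)` with `k : ℕ`, `α j ∈ TT p`, `c j ≥ 0` in
`C(EReal, ℝ)`; a convex cone containing `0` (`potE_add`, `potE_smul`; concatenation of the families). If the
conclusion is false, `hb_abs` gives `m, lam` with (`k = 1`)
`lam potE (θ₀ - α) c 0 ≤ ∑_i ∫ potE (θ i - α) c dm_i` for `α ∈ TT p`, `c ≥ 0`, and `∑ m_i(EReal) g i ≤ lam M`.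
* `lam = 0`: `c = 1`: `0 ≤ ∑ m_i(EReal) VV (θ i - α)` (`potE ψ 1 t = VV ψ`), so `0 ≤ ∑ m_i(EReal) g' i < ∑ m_i(EReal) g i ≤ 0` (some
  `m i ≠ 0`), contradiction.
* `lam > 0`: divide by `lam`: `lam = 1`. With `x i = m_i {⊤}`, resp. `m_i {⊥}`, `cert_top` and `H1`: `∑ x i g' i ≥ 0`; with
  `cert_dom` and `H2`: `M' ≤ ∑ m_i(ℝ) g' i`. Sum up (`cert_mass`): `M' ≤ ∑ m_i(EReal) g' i ≤ ∑ m_i(EReal) g i ≤ M < M'`.
The densities `c j (t)`, `t` real, are continuous and bounded (`EReal` compact), `potE_real`.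
-/

namespace HBInf

open HBInd Complex Filter Topology Set MeasureTheory
open scoped Real ComplexConjugate

/-- the cone of the potentials -/
def epCone (p : ℕ) (ρ : ℝ) {n : ℕ} (θ : Fin n → ℝ) (θ₀ : ℝ) :
    Set ((Fin n → C(EReal, ℝ)) × ℝ) :=
  {x | ∃ (k : ℕ) (α : Fin k → ℝ) (c : Fin k → C(EReal, ℝ)), (∀ j, α j ∈ TT p) ∧
    (∀ j t, 0 ≤ c j t) ∧ (∀ i t, x.1 i t = ∑ j, potE p ρ (θ i - α j) (c j) t) ∧
    x.2 = ∑ j, potE p ρ (θ₀ - α j) (c j) 0}

theorem ep_add {p : ℕ} (hp : p ≤ 1) {ρ : ℝ} {n : ℕ}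
    {θ : Fin n → ℝ} {θ₀ : ℝ} (x : (Fin n → C(EReal, ℝ)) × ℝ) (hx : x ∈ epCone p ρ θ θ₀)
    (y : (Fin n → C(EReal, ℝ)) × ℝ) (hy : y ∈ epCone p ρ θ θ₀) :
    x + y ∈ epCone p ρ θ θ₀ := by
  obtain ⟨k, α, c, h1, h2, h3, h4⟩ := hx
  obtain ⟨k', α', c', h1', h2', h3', h4'⟩ := hy
  refine ⟨k + k', Fin.append α α', Fin.append c c', ?_, ?_, ?_, ?_⟩
  · intro j
    refine Fin.addCases (fun j => ?_) (fun j => ?_) j
    · rw [Fin.append_left]; exact h1 j
    · rw [Fin.append_right]; exact h1' j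
  · intro j t
    refine Fin.addCases (fun j => ?_) (fun j => ?_) j
    · rw [Fin.append_left]; exact h2 j t
    · rw [Fin.append_right]; exact h2' j t
  · intro i t
    rw [Fin.sum_univ_add]
    simp only [Fin.append_left, Fin.append_right]
    rw [← h3 i t, ← h3' i t]
    rfl
  · rw [Fin.sum_univ_add]
    simp only [Fin.append_left, Fin.append_right]
    rw [← h4, ← h4']
    rfl

theorem ep_smul {p : ℕ} {ρ : ℝ} {n : ℕ} {θ : Fin n → ℝ} {θ₀ : ℝ} (a : ℝ) (ha : 0 ≤ a)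
    (x : (Fin n → C(EReal, ℝ)) × ℝ) (hx : x ∈ epCone p ρ θ θ₀) :
    a • x ∈ epCone p ρ θ θ₀ := by
  obtain ⟨k, α, c, h1, h2, h3, h4⟩ := hx
  refine ⟨k, α, fun j => a • c j, h1, ?_, ?_, ?_⟩
  · intro j t
    exact mul_nonneg ha (h2 j t)
  · intro i t
    simp only [potE_smul]
    rw [← Finset.mul_sum, ← h3 i t]
    rfl
  · simp only [potE_smul]
    rw [← Finset.mul_sum, ← h4]
    rfl

theorem ep_one {p : ℕ} {ρ : ℝ} (ψ : ℝ) (t : EReal) : potE p ρ ψ 1 t = VV p ρ ψ := by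
  unfold potE VV
  congr 1
  funext u
  rw [ContinuousMap.one_apply, mul_one]

theorem exists_pot {p : ℕ} (hp : p ≤ 1) {ρ : ℝ} (h1 : (p : ℝ) < ρ) (h2 : ρ < p + 1) {n : ℕ}
    {θ g g' : Fin n → ℝ} {θ₀ M M' : ℝ} (hg : ∀ i, g' i < g i) (hM : M < M')
    (H1 : ∀ x : Fin n → ℝ, (∀ i, 0 ≤ x i) → (∀ α ∈ TT p, 0 ≤ ∑ i, x i * VV p ρ (θ i - α)) →
      0 ≤ ∑ i, x i * g' i)
    (H2 : ∀ m : Fin n → Measure ℝ, (∀ i, IsFiniteMeasure (m i)) → Dom p ρ θ m θ₀ →
      M' ≤ ∑ i, (m i).real univ * g' i) :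
    ∃ (k : ℕ) (α : Fin k → ℝ) (c : Fin k → ℝ → ℝ) (B : ℝ), (∀ j, α j ∈ TT p) ∧
      (∀ j, Continuous (c j)) ∧ (∀ j t, 0 ≤ c j t ∧ c j t ≤ B) ∧
      (∀ i t, ∑ j, ∫ u, kn p ρ u (θ i - α j) * c j (t - u) < g i) ∧
      M < ∑ j, ∫ u, kn p ρ u (θ₀ - α j) * c j (0 - u) := by
  by_contra hcon
  have hP : ¬∃ x ∈ epCone p ρ θ θ₀, (∀ i t, x.1 i t < g i) ∧ M < x.2 := by
    rintro ⟨x, ⟨k, α, c, a1, a2, a3, a4⟩, b1, b2⟩
    apply hcon
    refine ⟨k, α, fun j t => c j (t : EReal), ∑ j, ‖c j‖, a1, ?_, ?_, ?_, ?_⟩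
    · intro j
      exact (c j).continuous.comp continuous_coe_real_ereal
    · intro j t
      refine ⟨a2 j _, ?_⟩
      refine ((le_abs_self _).trans ((c j).norm_coe_le_norm (t : EReal))).trans ?_
      exact Finset.single_le_sum (f := fun j => ‖c j‖) (fun j _ => norm_nonneg _)
        (Finset.mem_univ j)
    · intro i t
      have := b1 i (t : EReal)
      rw [a3] at this
      simp only [potE_real] at this
      exact this
    · rw [a4] at b2
      have e : (0 : EReal) = ((0 : ℝ) : EReal) := EReal.coe_zero.symm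
      rw [e] at b2
      simp only [potE_real] at b2
      exact b2
  obtain ⟨m, lam, hm, hlam, hne, hdual, hsum⟩ := hb_abs (epCone p ρ θ θ₀)
    ⟨0, Fin.elim0, Fin.elim0, fun j => j.elim0, fun j => j.elim0, fun i t => by simp, by simp⟩
    (ep_add hp) ep_smul g M hP
  have hα : ∀ α ∈ TT p, ∀ c : C(EReal, ℝ), (∀ t, 0 ≤ c t) →
      lam * potE p ρ (θ₀ - α) c 0 ≤ ∑ i, ∫ t, potE p ρ (θ i - α) c t ∂(m i) := by
    intro α hα c hc
    have h3 := hdual (fun i => ⟨potE p ρ (θ i - α) c, potE_continuous hp h1 h2 _ c⟩,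
      potE p ρ (θ₀ - α) c 0)
      ⟨1, fun _ => α, fun _ => c, fun _ => hα, fun _ => hc, fun i t => by simp, by simp⟩
    exact h3
  rcases hlam.eq_or_lt with hl | hl
  · -- `lam = 0`
    rw [← hl] at hα hsum hne
    have hx : ∀ i, 0 ≤ (m i).real univ := fun i => measureReal_nonneg
    have h3 := H1 (fun i => (m i).real univ) hx (by
      intro α hα'
      have h4 := hα α hα' 1 (fun t => zero_le_one)
      simp only [ep_one, integral_const, smul_eq_mul, zero_mul] at h4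
      exact h4)
    obtain ⟨i₀, hi₀⟩ : ∃ i, m i ≠ 0 := by
      rcases hne with h | h
      · exact h
      · exact absurd h (lt_irrefl _)
    have h5 : ∑ i, (m i).real univ * g' i < ∑ i, (m i).real univ * g i := by
      refine Finset.sum_lt_sum (fun i _ => mul_le_mul_of_nonneg_left (hg i).le (hx i))
        ⟨i₀, Finset.mem_univ _, ?_⟩
      refine mul_lt_mul_of_pos_left (hg i₀) ?_
      have : IsFiniteMeasure (m i₀) := hm i₀
      rw [measureReal_def]
      exact ENNReal.toReal_pos (by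
        rw [ne_eq, Measure.measure_univ_eq_zero]
        exact hi₀) (measure_ne_top _ _)
    rw [zero_mul] at hsum
    linarith
  · -- `lam > 0`
    set m' : Fin n → Measure EReal := fun i => ENNReal.ofReal lam⁻¹ • m i with hm'
    have hfin : ∀ i, IsFiniteMeasure (m' i) := by
      intro i
      have := hm i
      exact Measure.smul_finite (m i) ENNReal.ofReal_ne_top
    have hli : 0 < lam⁻¹ := inv_pos.2 hl
    have hreal : ∀ i s, (m' i).real s = lam⁻¹ * (m i).real s := by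
      intro i s
      rw [hm']
      simp only [measureReal_def, Measure.smul_apply, smul_eq_mul]
      rw [ENNReal.toReal_mul, ENNReal.toReal_ofReal hli.le]
    have hα1 : ∀ α ∈ TT p, ∀ c : C(EReal, ℝ), (∀ t, 0 ≤ c t) →
        potE p ρ (θ₀ - α) c 0 ≤ ∑ i, ∫ t, potE p ρ (θ i - α) c t ∂(m' i) := by
      intro α hα' c hc
      have h3 := hα α hα' c hc
      have e : ∑ i, ∫ t, potE p ρ (θ i - α) c t ∂(m' i) =
          lam⁻¹ * ∑ i, ∫ t, potE p ρ (θ i - α) c t ∂(m i) := by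
        rw [Finset.mul_sum]
        refine Finset.sum_congr rfl fun i _ => ?_
        rw [hm']
        simp only
        rw [integral_smul_measure, ENNReal.toReal_ofReal hli.le, smul_eq_mul]
      rw [e]
      calc potE p ρ (θ₀ - α) c 0 = lam⁻¹ * (lam * potE p ρ (θ₀ - α) c 0) := by
            rw [← mul_assoc, inv_mul_cancel₀ hl.ne', one_mul]
        _ ≤ _ := by gcongr
    have hsum' : ∑ i, (m' i).real univ * g i ≤ M := by
      have e : ∑ i, (m' i).real univ * g i = lam⁻¹ * ∑ i, (m i).real univ * g i := by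
        rw [Finset.mul_sum]
        refine Finset.sum_congr rfl fun i _ => ?_
        rw [hreal, mul_assoc]
      rw [e]
      calc lam⁻¹ * ∑ i, (m i).real univ * g i ≤ lam⁻¹ * (lam * M) := by gcongr
        _ = M := by rw [← mul_assoc, inv_mul_cancel₀ hl.ne', one_mul]
    have htb : ∀ α ∈ TT p, 0 ≤ ∑ i, (m' i).real {⊤} * VV p ρ (θ i - α) ∧
        0 ≤ ∑ i, (m' i).real {⊥} * VV p ρ (θ i - α) := by
      intro α hα'
      exact cert_top hp h1 h2 hfin (lam := 1) (θ₀ := θ₀) (fun c hc => by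
        rw [one_mul]
        exact hα1 α hα' c hc)
    have ht := H1 (fun i => (m' i).real {⊤}) (fun i => measureReal_nonneg)
      (fun α hα' => (htb α hα').1)
    have hbt := H1 (fun i => (m' i).real {⊥}) (fun i => measureReal_nonneg)
      (fun α hα' => (htb α hα').2)
    have hd := H2 (fun i => (m' i).comap Real.toEReal)
      (fun i => by have := hfin i; exact cert_fin (m' i)) (cert_dom hp h1 h2 hfin hα1)
    have hmass : ∑ i, (m' i).real univ * g' i =
        ∑ i, ((m' i).comap Real.toEReal).real univ * g' i + ∑ i, (m' i).real {⊤} * g' i +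
          ∑ i, (m' i).real {⊥} * g' i := by
      rw [← Finset.sum_add_distrib, ← Finset.sum_add_distrib]
      refine Finset.sum_congr rfl fun i _ => ?_
      have := hfin i
      rw [cert_mass (m' i)]
      ring
    have hle : ∑ i, (m' i).real univ * g' i ≤ ∑ i, (m' i).real univ * g i :=
      Finset.sum_le_sum fun i _ => mul_le_mul_of_nonneg_left (hg i).le measureReal_nonneg
    linarith

end HBInf
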