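import Pool.Agent.HBInf.SlowPath
import Pool.Agent.HBInf.Moments

/-!
# Potentials of slowly varying densities

* `asym_q`: `|∫ kn u ψ (q (t - u) - q t) du| ≤ ω t ∫ Psi (1 + |u|)²` (`integrable_psi`).
* `asym_C`: `C t = ∫_0^t q`: `C (t - u) - C t + u q t = -∫_{t-u}^t (q s - q t) ds`, of absolute value
  `≤ |u| ω t (1 + |u|)²`; `∫ Psi |u| (1 + |u|)² < ∞` (`integrable_psi` with the exponential weight); `WW = -∫ u kn`.
-/

namespace HBInf

open HBInd Complex Filter Topology Set MeasureTheory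
open scoped Real ComplexConjugate

theorem sla_int3 {p : ℕ} (hp : p ≤ 1) {ρ : ℝ} (h1 : (p : ℝ) < ρ) (h2 : ρ < p + 1) :
    Integrable fun u : ℝ => (1 + |u|) ^ 3 * Psi p ρ u := by
  have hs := sg_pos h1 h2
  refine Integrable.mono' ((integrable_psi hp h1 h2).const_mul (1 + 1 / sg p ρ)) ?_
    (Filter.Eventually.of_forall fun u => ?_)
  · have := measurable_Psi p ρ
    exact (by fun_prop : Measurable fun u : ℝ => (1 + |u|) ^ 3 * Psi p ρ u).aestronglyMeasurable
  · have h0 := Psi_nonneg p ρ u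
    have h3 := lin_le_exp hs (abs_nonneg u)
    have hu := abs_nonneg u
    rw [Real.norm_eq_abs, abs_of_nonneg (by positivity)]
    calc (1 + |u|) ^ 3 * Psi p ρ u = (1 + |u|) * ((1 + |u|) ^ 2 * Psi p ρ u) := by ring
      _ ≤ ((1 + 1 / sg p ρ) * Real.exp (sg p ρ * |u|)) * ((1 + |u|) ^ 2 * Psi p ρ u) :=
          mul_le_mul_of_nonneg_right h3 (by positivity)
      _ = (1 + 1 / sg p ρ) * ((1 + |u|) ^ 2 * Psi p ρ u * Real.exp (sg p ρ * |u|)) := by ring

theorem sla_main {p : ℕ} (hp : p ≤ 1) {ρ : ℝ} (h1 : (p : ℝ) < ρ) (h2 : ρ < p + 1) {g : ℝ → ℝ}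
    (hg : Measurable g) {w : ℝ} (hb : ∀ u, |g u| ≤ w * (1 + |u|) ^ 3) (ψ : ℝ) :
    Integrable (fun u => kn p ρ u ψ * g u) ∧
    |∫ u, kn p ρ u ψ * g u| ≤ w * ∫ u : ℝ, (1 + |u|) ^ 3 * Psi p ρ u := by
  have hI := (sla_int3 hp h1 h2).const_mul w
  have hle : ∀ᵐ u : ℝ, ‖kn p ρ u ψ * g u‖ ≤ w * ((1 + |u|) ^ 3 * Psi p ρ u) := by
    filter_upwards [knt_ae_ne] with u hu
    rw [Real.norm_eq_abs, abs_mul]
    calc |kn p ρ u ψ| * |g u| ≤ Psi p ρ u * (w * (1 + |u|) ^ 3) :=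
          mul_le_mul (abs_kn_le hp ρ hu ψ) (hb u) (abs_nonneg _) (Psi_nonneg _ _ _)
      _ = w * ((1 + |u|) ^ 3 * Psi p ρ u) := by ring
  refine ⟨Integrable.mono' hI ((knt_meas_kn p ρ ψ).mul hg).aestronglyMeasurable hle, ?_⟩
  rw [← integral_const_mul, ← Real.norm_eq_abs]
  exact norm_integral_le_of_norm_le hI hle

theorem sla_ukn {p : ℕ} (hp : p ≤ 1) {ρ : ℝ} (h1 : (p : ℝ) < ρ) (h2 : ρ < p + 1) (ψ : ℝ) :
    Integrable (fun u => u * kn p ρ u ψ) := by
  have h := (sla_main hp h1 h2 (g := fun u => u) measurable_id (w := 1) (fun u => by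
    have hu := abs_nonneg u
    nlinarith [mul_nonneg hu hu, mul_nonneg (mul_nonneg hu hu) hu]) ψ).1
  exact h.congr (Filter.Eventually.of_forall fun u => mul_comm _ _)

theorem sla_small {ω : ℝ → ℝ} (hω : Tendsto ω atTop (𝓝 0)) (K : ℝ) {ε : ℝ} (hε : 0 < ε) :
    ∀ᶠ t : ℝ in atTop, ω t * K ≤ ε := by
  have h : Tendsto (fun t => ω t * K) atTop (𝓝 0) := by simpa using hω.mul_const K
  exact h.eventually_le_const hε

theorem asym_q {p : ℕ} (hp : p ≤ 1) {ρ : ℝ} (h1 : (p : ℝ) < ρ) (h2 : ρ < p + 1) {q : ℝ → ℝ}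
    (hq : SlowFn q) {ε : ℝ} (hε : 0 < ε) : ∀ᶠ t : ℝ in atTop, ∀ ψ : ℝ,
      Integrable (fun u => kn p ρ u ψ * q (t - u)) ∧
      |(∫ u, kn p ρ u ψ * q (t - u)) - q t * VV p ρ ψ| ≤ ε := by
  obtain ⟨hc, ω, hω, hb⟩ := hq
  filter_upwards [sla_small hω (∫ u : ℝ, (1 + |u|) ^ 3 * Psi p ρ u) hε, eventually_ge_atTop 0]
    with t ht ht0 ψ
  have hw : 0 ≤ ω t := by
    have := hb t 0 ht0
    simpa using this
  have hm : Measurable fun u => q (t - u) - q t := by
    have : Continuous fun u => q (t - u) - q t := by fun_prop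
    exact this.measurable
  obtain ⟨i1, i2⟩ := sla_main hp h1 h2 (g := fun u => q (t - u) - q t) hm (w := ω t) (fun u => by
    refine (hb t u ht0).trans (mul_le_mul_of_nonneg_left ?_ hw)
    have hu := abs_nonneg u
    exact pow_le_pow_right₀ (by linarith) (by norm_num)) ψ
  have i3 := (integrable_kn hp h1 h2 ψ).mul_const (q t)
  have he : (fun u => kn p ρ u ψ * q (t - u)) =
      fun u => kn p ρ u ψ * q t + kn p ρ u ψ * (q (t - u) - q t) := by
    funext u
    ring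
  constructor
  · rw [he]
    exact i3.add i1
  · rw [he, integral_add i3 i1, integral_mul_const]
    have h4 : (∫ u, kn p ρ u ψ) = VV p ρ ψ := rfl
    rw [h4]
    have h5 : VV p ρ ψ * q t + (∫ u, kn p ρ u ψ * (q (t - u) - q t)) - q t * VV p ρ ψ =
        ∫ u, kn p ρ u ψ * (q (t - u) - q t) := by ring
    rw [h5]
    exact i2.trans ht

theorem sla_prim {q : ℝ → ℝ} (hc : Continuous q) {t u w : ℝ} (hw : 0 ≤ w)
    (hb : ∀ u : ℝ, |q (t - u) - q t| ≤ w * (1 + |u|) ^ 2) :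
    |(∫ s in (0 : ℝ)..(t - u), q s) - (∫ s in (0 : ℝ)..t, q s) + u * q t| ≤
      w * (1 + |u|) ^ 3 := by
  have hi : ∀ a b : ℝ, IntervalIntegrable q volume a b := fun a b => hc.intervalIntegrable a b
  have e1 : (∫ s in (0 : ℝ)..(t - u), q s) - (∫ s in (0 : ℝ)..t, q s) + u * q t =
      ∫ s in t..(t - u), (q s - q t) := by
    rw [intervalIntegral.integral_sub (hi _ _) (by simp), intervalIntegral.integral_const,
      ← intervalIntegral.integral_interval_sub_left (hi 0 (t - u)) (hi 0 t)]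
    simp
  have hu := abs_nonneg u
  rw [e1, ← Real.norm_eq_abs]
  refine (intervalIntegral.norm_integral_le_of_norm_le_const (C := w * (1 + |u|) ^ 2)
    (fun s hs => ?_)).trans ?_
  · rw [Real.norm_eq_abs]
    have h1 := hb (t - s)
    rw [sub_sub_cancel] at h1
    refine h1.trans (mul_le_mul_of_nonneg_left ?_ hw)
    have h2 : |t - s| ≤ |u| := by
      rw [uIoc, mem_Ioc] at hs
      rcases le_total t (t - u) with h | h
      · rw [min_eq_left h, max_eq_right h] at hs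
        have h3 : u ≤ 0 := by linarith
        rw [abs_of_nonpos h3, abs_le]
        constructor <;> linarith [hs.1, hs.2]
      · rw [min_eq_right h, max_eq_left h] at hs
        have h3 : 0 ≤ u := by linarith
        rw [abs_of_nonneg h3, abs_le]
        constructor <;> linarith [hs.1, hs.2]
    exact pow_le_pow_left₀ (by positivity) (by linarith) 2
  · have e2 : |t - u - t| = |u| := by rw [sub_sub_cancel_left, abs_neg]
    rw [e2]
    have h3 : (1 + |u|) ^ 2 * |u| ≤ (1 + |u|) ^ 3 := by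
      have : (1 + |u|) ^ 3 = (1 + |u|) ^ 2 * (1 + |u|) := by ring
      rw [this]
      exact mul_le_mul_of_nonneg_left (by linarith) (by positivity)
    calc w * (1 + |u|) ^ 2 * |u| = w * ((1 + |u|) ^ 2 * |u|) := by ring
      _ ≤ w * (1 + |u|) ^ 3 := mul_le_mul_of_nonneg_left h3 hw

theorem asym_C {p : ℕ} (hp : p ≤ 1) {ρ : ℝ} (h1 : (p : ℝ) < ρ) (h2 : ρ < p + 1) {q : ℝ → ℝ}
    (hq : SlowFn q) {ε : ℝ} (hε : 0 < ε) : ∀ᶠ t : ℝ in atTop, ∀ ψ : ℝ,
      Integrable (fun u => kn p ρ u ψ * ∫ s in (0 : ℝ)..(t - u), q s) ∧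
      |(∫ u, kn p ρ u ψ * ∫ s in (0 : ℝ)..(t - u), q s) -
        ((∫ s in (0 : ℝ)..t, q s) * VV p ρ ψ + q t * WW p ρ ψ)| ≤ ε := by
  obtain ⟨hc, ω, hω, hb⟩ := hq
  filter_upwards [sla_small hω (∫ u : ℝ, (1 + |u|) ^ 3 * Psi p ρ u) hε, eventually_ge_atTop 0]
    with t ht ht0 ψ
  have hw : 0 ≤ ω t := by
    have := hb t 0 ht0
    simpa using this
  set C : ℝ → ℝ := fun x => ∫ s in (0 : ℝ)..x, q s with hC
  have hCc : Continuous C := intervalIntegral.continuous_primitive (fun a b =>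
    hc.intervalIntegrable a b) 0
  have hm : Measurable fun u => C (t - u) - C t + u * q t := by
    have : Continuous fun u => C (t - u) - C t + u * q t := by fun_prop
    exact this.measurable
  obtain ⟨i1, i2⟩ := sla_main hp h1 h2 (g := fun u => C (t - u) - C t + u * q t) hm (w := ω t)
    (fun u => sla_prim hc hw (fun u => hb t u ht0)) ψ
  have i3 := (integrable_kn hp h1 h2 ψ).mul_const (C t)
  have i4 := (sla_ukn hp h1 h2 ψ).mul_const (q t)
  have he : (fun u => kn p ρ u ψ * C (t - u)) =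
      fun u => kn p ρ u ψ * C t - u * kn p ρ u ψ * q t +
        kn p ρ u ψ * (C (t - u) - C t + u * q t) := by
    funext u
    ring
  change Integrable (fun u => kn p ρ u ψ * C (t - u)) ∧
    |(∫ u, kn p ρ u ψ * C (t - u)) - (C t * VV p ρ ψ + q t * WW p ρ ψ)| ≤ ε
  have i5 : Integrable fun u => kn p ρ u ψ * C t - u * kn p ρ u ψ * q t := i3.sub i4
  constructor
  · rw [he]
    exact i5.add i1
  · rw [he, integral_add i5 i1, integral_sub i3 i4, integral_mul_const,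
      integral_mul_const]
    have h4 : (∫ u, kn p ρ u ψ) = VV p ρ ψ := rfl
    have h6 : (∫ u, u * kn p ρ u ψ) = -WW p ρ ψ := by
      rw [WW, neg_neg]
    rw [h4, h6]
    have h5 : VV p ρ ψ * C t - -WW p ρ ψ * q t +
        (∫ u, kn p ρ u ψ * (C (t - u) - C t + u * q t)) -
        (C t * VV p ρ ψ + q t * WW p ρ ψ) =
        ∫ u, kn p ρ u ψ * (C (t - u) - C t + u * q t) := by ring
    rw [h5]
    exact i2.trans ht

end HBInf
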