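import Pool.Agent.HBInf.IndReal
import Pool.Agent.HBInd.GlueB

/-!
# Gluing windows over a base

Model: `exists_glue` in `Pool.Agent.HBInd.GlueB`. Given for every `j` densities `c j i`, `i < n j`, on the rays `α j i`,
`0 ≤ c j i ≤ D j`, and base densities `r l` on the rays `γ l`. Choose `T j`, `w j` with `0 < w j`, `T j + w j + 4 ≤ T (j+1)`, `0 ≤ T 0`,
`∑ n_j (1 + |D j|) (1/w j + 1/w (j+1)) < ∞`, `∑ n_j (1 + |D j|) e^{-κ T j} < ∞` for all `κ > 0` and
`n_j (1 + |D j|) + n_{j+1} (1 + |D (j+1)|) ≤ 2^{-j} T j` (`exists_windows2` as a model, or a new recursion). Densities on the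
index type `(Σ j, Fin (n j)) ⊕ Fin K`: `xi T w j t * c j i (t - mid T w j)` (starting at `T j`), and `r l` (starting at
`0`): a `Dens` system, `ind_realize`.
`∫ kn u (θ - α) xi T w j (t - u) c (t - u - mid) du = xi T w j t ∫ kn u (θ - α) c (t - mid - u) du + e`,
`|e| ≤ D j (1/w j + 1/w (j+1)) ∫ (1 + |u|) Psi` (`slow_var` in `Pool.Agent.HBInd.GlueA`, with `S = mid`), and for fixed `j`
both terms tend to `0` as `t → ∞` uniformly in `θ` (density supported in a compact interval, `Psi` decays), so by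
`tendsto_glue` (with `Y = ℝ × ℝ`, the filter `comap fst atTop`) `dpot t θ - (∑' j xi T w j t P_j (t - mid) θ + base t θ) → 0`
uniformly in `θ`. The `limsup` is not changed by adding a null function.
Last claim: for `t ∈ [T j, T (j+1)]` only `j - 1, j` contribute, `|P_j| ≤ n_j D_j ∫ Psi`, so the sum is
`≤ C 2^{-(j-1)} T (j-1) ≤ C 2^{-j} t`-small.
-/

namespace HBInf

open HBInd Complex Filter Topology Set MeasureTheory
open scoped Real ComplexConjugate

/-- the potential of a window -/
noncomputable def wpot (p : ℕ) (ρ : ℝ) {n : ℕ} (α : Fin n → ℝ) (c : Fin n → ℝ → ℝ) (t θ : ℝ) : ℝ :=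
  ∑ i, ∫ u, kn p ρ u (θ - α i) * c i (t - u)

/-- choice of the windows -/
private lemma gw_windows (n : ℕ → ℕ) (D : ℕ → ℝ) :
    ∃ T w : ℕ → ℝ, (∀ j, 0 < w j) ∧ (∀ j, T j + w j + 4 ≤ T (j + 1)) ∧ 0 ≤ T 0 ∧
      (Summable fun j => (n j : ℝ) * |D j| * (1 / w j + 1 / w (j + 1))) ∧
      (∀ κ : ℝ, 0 < κ → Summable fun j => (n j : ℝ) * (1 + |D j|) * Real.exp (-κ * T j)) ∧
      (∀ j : ℕ, (j : ℝ) * ((n j : ℝ) * |D j|) ≤ T j) := by
  set B : ℕ → ℝ := fun j => (n j : ℝ) * (1 + |D j|) with hB
  have hB0 : ∀ j, 0 ≤ B j := fun j => by positivity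
  have hBD : ∀ j, (n j : ℝ) * |D j| ≤ B j := fun j =>
    mul_le_mul_of_nonneg_left (by linarith) (Nat.cast_nonneg _)
  set A : ℕ → ℝ := fun j => ∑ k ∈ Finset.range (j + 1), B k with hA
  have hA0 : ∀ j, 0 ≤ A j := fun j => Finset.sum_nonneg fun k _ => hB0 k
  have hAB : ∀ j, B j ≤ A j := fun j =>
    Finset.single_le_sum (f := B) (fun k _ => hB0 k) (Finset.self_mem_range_succ j)
  have hAB' : ∀ j, B j ≤ A (j + 1) := fun j =>
    Finset.single_le_sum (f := B) (fun k _ => hB0 k)
      (Finset.mem_range.2 (by omega))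
  set w : ℕ → ℝ := fun j => 2 ^ j * (1 + A j) with hw
  have hw0 : ∀ j, 0 < w j := fun j => by
    have := hA0 j
    positivity
  set g : ℕ → ℝ := fun k => k * (Real.log (1 + B k) + 1) + k * B k + w k + w (k - 1) + 4 with hg
  have hlog : ∀ k, 0 ≤ Real.log (1 + B k) := fun k => Real.log_nonneg (by linarith [hB0 k])
  have hkB : ∀ k : ℕ, 0 ≤ (k : ℝ) * B k := fun k => mul_nonneg (Nat.cast_nonneg _) (hB0 k)
  have hg0 : ∀ k, 0 ≤ g k := fun k => by
    have h6 := hlog k
    have h7 := hw0 k
    have h8 := hw0 (k - 1)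
    have h9 : 0 ≤ (k : ℝ) * (Real.log (1 + B k) + 1) := by positivity
    have h10 := hkB k
    rw [hg]
    simp only
    linarith
  set T : ℕ → ℝ := fun j => ∑ k ∈ Finset.range (j + 1), g k with hTdef
  have hTg : ∀ j, g j ≤ T j := fun j =>
    Finset.single_le_sum (f := g) (fun k _ => hg0 k) (Finset.self_mem_range_succ j)
  have hTl : ∀ j : ℕ, (j : ℝ) * (Real.log (1 + B j) + 1) ≤ T j := fun j => by
    refine le_trans ?_ (hTg j)
    have h7 := hw0 j
    have h8 := hw0 (j - 1)
    have h10 := hkB j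
    rw [hg]
    simp only
    linarith
  have hTB : ∀ j : ℕ, (j : ℝ) * B j ≤ T j := fun j => by
    refine le_trans ?_ (hTg j)
    have h6 := hlog j
    have h7 := hw0 j
    have h8 := hw0 (j - 1)
    have h9 : 0 ≤ (j : ℝ) * (Real.log (1 + B j) + 1) := by positivity
    rw [hg]
    simp only
    linarith
  have hgeo : Summable fun j : ℕ => ((1 : ℝ) / 2) ^ j := summable_geometric_two
  refine ⟨T, w, hw0, ?_, ?_, ?_, ?_, ?_⟩
  · intro j
    have e : T (j + 1) = T j + g (j + 1) := by
      rw [hTdef]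
      simp only
      rw [Finset.sum_range_succ _ (j + 1)]
    rw [e, hg]
    simp only
    rw [Nat.add_sub_cancel]
    have h6 := hlog (j + 1)
    have h7 := hw0 (j + 1)
    have h9 : 0 ≤ ((j + 1 : ℕ) : ℝ) * (Real.log (1 + B (j + 1)) + 1) := by positivity
    have h10 := hkB (j + 1)
    linarith
  · exact (hg0 0).trans (hTg 0)
  · refine Summable.of_nonneg_of_le (fun j => ?_) (fun j => ?_) (hgeo.mul_left 2)
    · have h5 := hw0 j
      have h6 := hw0 (j + 1)
      positivity
    · have h5 := hw0 j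
      have h6 := hw0 (j + 1)
      have h7 : B j * (1 / w j) ≤ (1 / 2) ^ j := by
        rw [mul_one_div, div_le_iff₀ h5, hw]
        simp only
        rw [← mul_assoc, ← mul_pow]
        norm_num
        linarith [hAB j]
      have h8 : B j * (1 / w (j + 1)) ≤ (1 / 2) ^ j := by
        rw [mul_one_div, div_le_iff₀ h6, hw]
        simp only
        rw [← mul_assoc, pow_succ, ← mul_assoc, ← mul_pow]
        norm_num
        linarith [hAB' j, hA0 (j + 1)]
      have h9 : (n j : ℝ) * |D j| * (1 / w j + 1 / w (j + 1)) ≤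
          B j * (1 / w j + 1 / w (j + 1)) :=
        mul_le_mul_of_nonneg_right (hBD j) (by positivity)
      linarith
  · intro κ hκ
    change Summable fun j => B j * Real.exp (-κ * T j)
    have hr : Summable fun j : ℕ => Real.exp (-(κ / 2)) ^ j :=
      summable_geometric_of_lt_one (Real.exp_pos _).le
        (by rw [Real.exp_lt_one_iff]; linarith)
    refine Summable.of_norm_bounded_eventually_nat hr ?_
    filter_upwards [eventually_ge_atTop ⌈2 / κ⌉₊] with j hj
    have hj' : 2 / κ ≤ j := Nat.ceil_le.1 hj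
    have hj'' : 2 ≤ κ * j := by rwa [div_le_iff₀ hκ, mul_comm] at hj'
    rw [Real.norm_of_nonneg (mul_nonneg (hB0 j) (Real.exp_pos _).le)]
    have h5 : B j ≤ Real.exp (Real.log (1 + B j)) := by
      rw [Real.exp_log (by linarith [hB0 j])]
      linarith
    have h6 := hTl j
    have h7 := hlog j
    calc B j * Real.exp (-κ * T j) ≤
        Real.exp (Real.log (1 + B j)) * Real.exp (-κ * T j) :=
          mul_le_mul_of_nonneg_right h5 (Real.exp_pos _).le
      _ = Real.exp (Real.log (1 + B j) - κ * T j) := by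
          rw [← Real.exp_add]
          ring_nf
      _ ≤ Real.exp (j * -(κ / 2)) := by
          refine Real.exp_le_exp.2 ?_
          have h8 : κ * ((j : ℝ) * (Real.log (1 + B j) + 1)) ≤ κ * T j :=
            mul_le_mul_of_nonneg_left h6 hκ.le
          nlinarith
      _ = Real.exp (-(κ / 2)) ^ j := by rw [← Real.exp_nat_mul]
  · intro j
    exact (mul_le_mul_of_nonneg_left (hBD j) (Nat.cast_nonneg _)).trans (hTB j)

/-- one half of: a null function does not change the upper limit -/
private lemma gw_limsup_le {F G : ℝ → ℝ} (h : ∀ ε : ℝ, 0 < ε → ∀ᶠ t in atTop, F t ≤ G t + ε) :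
    limsup (fun t : ℝ => ((F t : ℝ) : EReal)) atTop ≤
      limsup (fun t : ℝ => ((G t : ℝ) : EReal)) atTop := by
  refine EReal.le_of_forall_lt_iff_le.1 fun x hx => ?_
  obtain ⟨y, hy1, hy2⟩ := EReal.lt_iff_exists_real_btwn.1 hx
  have hyx : y < x := EReal.coe_lt_coe_iff.1 hy2
  have h3 := eventually_lt_of_limsup_lt hy1
  refine limsup_le_of_le (by isBoundedDefault) ?_
  filter_upwards [h3, h (x - y) (by linarith)] with t ht1 ht2
  have h4 : G t < y := EReal.coe_lt_coe_iff.1 ht1
  exact EReal.coe_le_coe_iff.2 (by linarith)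

/-- the bound for the potential of a window -/
private lemma gw_wpot_le {p : ℕ} (hp : p ≤ 1) {ρ : ℝ} (h1 : (p : ℝ) < ρ) (h2 : ρ < p + 1) {n : ℕ}
    {α : Fin n → ℝ} {c : Fin n → ℝ → ℝ} {D : ℝ} (hcD : ∀ i t, 0 ≤ c i t ∧ c i t ≤ D) (t θ : ℝ) :
    |wpot p ρ α c t θ| ≤ (n : ℝ) * |D| * ∫ u : ℝ, (1 + |u|) * PhiP p u * Real.exp (-ρ * u) := by
  set IP := ∫ u : ℝ, (1 + |u|) * PhiP p u * Real.exp (-ρ * u) with hIP
  rw [wpot]
  refine (Finset.abs_sum_le_sum_abs _ _).trans ?_
  have h3 : ∀ i : Fin n, |∫ u, kn p ρ u (θ - α i) * c i (t - u)| ≤ |D| * IP := by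
    intro i
    have h4 := abs_integral_mul_le (ρ := ρ) (K := fun u => kp p u (θ - α i)) (P := PhiP p)
      (c := fun u => c i (t - u)) (ae_abs_kp_le hp _) (integrable_PhiP hp h1 h2) (D := |D|)
      (fun u => by
        rw [abs_of_nonneg (hcD _ _).1]
        have h5 := (hcD i (t - u)).2.trans (le_abs_self D)
        have h6 := abs_nonneg D
        have h7 := abs_nonneg u
        nlinarith)
    exact h4
  refine (Finset.sum_le_sum fun i _ => h3 i).trans (le_of_eq ?_)
  simp only [Finset.sum_const, Finset.card_univ, Fintype.card_fin, nsmul_eq_mul]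
  ring

theorem glueW {p : ℕ} (hp : p ≤ 1) {ρ : ℝ} (h1 : (p : ℝ) < ρ) (h2 : ρ < p + 1)
    {n : ℕ → ℕ} {α : (j : ℕ) → Fin (n j) → ℝ} {c : (j : ℕ) → Fin (n j) → ℝ → ℝ} {D : ℕ → ℝ}
    (hα : ∀ j i, α j i ∈ TT p) (hc : ∀ j i, Continuous (c j i))
    (hcD : ∀ j i t, 0 ≤ c j i t ∧ c j i t ≤ D j) {K : ℕ} {γ : Fin K → ℝ} (hγ : ∀ l, γ l ∈ TT p)
    {r : Fin K → ℝ → ℝ} {B : ℝ} (hr : ∀ l, Continuous (r l))
    (hrB : ∀ l t, 0 ≤ r l t ∧ r l t ≤ B * (1 + |t|) ^ 2) (hr0 : ∀ l, ∀ t ≤ 0, r l t = 0) :
    ∃ (f : ℂ → ℂ) (T w : ℕ → ℝ), Pre ρ f ∧ (∀ j, 0 < w j) ∧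
      (∀ j, T j + w j + 4 ≤ T (j + 1)) ∧ 0 ≤ T 0 ∧
      (∀ θ : ℝ, ind ρ f θ = limsup (fun t : ℝ =>
        (((∑' j, xi T w j t * wpot p ρ (α j) (c j) (t - mid T w j) θ) +
          wpot p ρ γ r t θ : ℝ) : EReal)) atTop) ∧
      ∀ ε : ℝ, 0 < ε → ∀ᶠ t : ℝ in atTop, ∀ θ : ℝ,
        |∑' j, xi T w j t * wpot p ρ (α j) (c j) (t - mid T w j) θ| ≤ ε * t := by
  obtain ⟨T, w, hw, hT, hT0, hs1, hs2, hs3⟩ := gw_windows n D
  have hTm := T_mono hw hT
  have hD0 : ∀ x : (j : ℕ) × Fin (n j), 0 ≤ D x.1 := fun x =>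
    (hcD x.1 x.2 0).1.trans (hcD x.1 x.2 0).2
  set IP := ∫ u : ℝ, (1 + |u|) * PhiP p u * Real.exp (-ρ * u) with hIP
  have hIP0 : 0 ≤ IP := integral_nonneg fun u =>
    mul_nonneg (mul_nonneg (by positivity) (PhiP_nonneg p u)) (Real.exp_pos _).le
  set dn : (x : (j : ℕ) × Fin (n j)) → ℝ → ℝ := fun x t =>
    c x.1 x.2 (t - mid T w x.1) * xi T w x.1 t with hdn
  have hdn0 : ∀ x t, 0 ≤ dn x t := fun x t =>
    mul_nonneg (hcD _ _ _).1 (xi_nonneg hw hT _ _)
  have hdnD : ∀ x t, dn x t ≤ D x.1 := fun x t => by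
    calc dn x t ≤ D x.1 * 1 :=
          mul_le_mul (hcD _ _ _).2 (xi_le_one _ _ _ _) (xi_nonneg hw hT _ _) (hD0 x)
      _ = D x.1 := mul_one _
  have hsq : ∀ t : ℝ, 1 ≤ (1 + |t|) ^ 2 := fun t => by nlinarith [abs_nonneg t]
  have hdens : Dens p (ι := ((j : ℕ) × Fin (n j)) ⊕ Fin K) (Sum.elim (fun x => α x.1 x.2) γ)
      (Sum.elim dn r) (Sum.elim (fun x => T x.1) (fun _ => 0))
      (Sum.elim (fun x => |D x.1|) (fun _ => |B|)) := by
    refine ⟨?_, ?_, ?_, ?_, ?_, ?_, ?_⟩
    · rintro (x | l)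
      · exact hα _ _
      · exact hγ l
    · rintro (x | l)
      · exact ((hc x.1 x.2).comp (by fun_prop)).mul (continuous_xi _ _ _)
      · exact hr l
    · rintro (x | l) t
      · exact hdn0 x t
      · exact (hrB l t).1
    · rintro (x | l) t ht
      · change c x.1 x.2 (t - mid T w x.1) * xi T w x.1 t = 0
        rw [xi_eq_zero_left hw hT ht, mul_zero]
      · exact hr0 l t ht
    · rintro (x | l)
      · exact hT0.trans (hTm (Nat.zero_le _))
      · exact le_rfl
    · rintro (x | l) t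
      · change dn x t ≤ |D x.1| * (1 + |t|) ^ 2
        have h3 := (hdnD x t).trans (le_abs_self _)
        have h4 := abs_nonneg (D x.1)
        nlinarith [hsq t]
      · change r l t ≤ |B| * (1 + |t|) ^ 2
        have h3 := (hrB l t).2
        have h4 := le_abs_self B
        nlinarith [hsq t]
    · intro κ hκ
      refine Summable.sum _ ?_ ?_
      · change Summable fun x : (j : ℕ) × Fin (n j) => (1 + |D x.1|) * Real.exp (-κ * T x.1)
        rw [summable_sigma_of_nonneg fun x => by positivity]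
        refine ⟨fun j => Summable.of_finite, ?_⟩
        simp only [tsum_fintype, Finset.sum_const, Finset.card_univ, Fintype.card_fin,
          nsmul_eq_mul]
        refine (hs2 κ hκ).congr fun j => ?_
        ring
      · exact Summable.of_finite
  obtain ⟨f, hf1, hf2⟩ := ind_realize hp h1 h2 hdens
  refine ⟨f, T, w, hf1, hw, hT, hT0, ?_, ?_⟩
  · intro θ
    rw [hf2 θ]
    -- the difference tends to zero
    have hlim := tendsto_glue (Y := ℝ) (l := atTop) (s := id) tendsto_id hw hT
      (a := fun j t => ∑ i, ∫ u, kn p ρ u (θ - α j i) * dn ⟨j, i⟩ (t - u))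
      (W := fun j t => wpot p ρ (α j) (c j) (t - mid T w j) θ)
      (L := fun t => dpot p ρ (ι := ((j : ℕ) × Fin (n j)) ⊕ Fin K)
        (Sum.elim (fun x => α x.1 x.2) γ) (Sum.elim dn r) t θ - wpot p ρ γ r t θ)
      (b := fun j => (n j : ℝ) * |D j| * (1 / w j + 1 / w (j + 1)) * IP)
      (hs1.mul_right IP) ?_ ?_ ?_
    · have h3 := Metric.tendsto_nhds.1 hlim
      refine le_antisymm (gw_limsup_le fun ε hε => ?_) (gw_limsup_le fun ε hε => ?_)
      · filter_upwards [h3 ε hε] with t ht
        rw [dist_zero_right, Real.norm_eq_abs] at ht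
        have := (abs_lt.1 ht).2
        simp only [id] at this
        linarith
      · filter_upwards [h3 ε hε] with t ht
        rw [dist_zero_right, Real.norm_eq_abs] at ht
        have := (abs_lt.1 ht).1
        simp only [id] at this
        linarith
    · intro j t
      simp only [id]
      have e1 : (∑ i, ∫ u, kn p ρ u (θ - α j i) * dn ⟨j, i⟩ (t - u)) -
          xi T w j t * wpot p ρ (α j) (c j) (t - mid T w j) θ =
          ∑ i, ((∫ u, kn p ρ u (θ - α j i) * dn ⟨j, i⟩ (t - u)) -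
            xi T w j t * ∫ u : ℝ, kn p ρ u (θ - α j i) * c j i (t - mid T w j - u)) := by
        rw [Finset.sum_sub_distrib, ← Finset.mul_sum, wpot]
      rw [e1]
      refine (Finset.abs_sum_le_sum_abs _ _).trans ?_
      have e2 : ∀ i : Fin (n j), |(∫ u, kn p ρ u (θ - α j i) * dn ⟨j, i⟩ (t - u)) -
            xi T w j t * ∫ u : ℝ, kn p ρ u (θ - α j i) * c j i (t - mid T w j - u)| ≤
          |D j| * (1 / w j + 1 / w (j + 1)) * IP := by
        intro i
        have a2 := slow_var (ρ := ρ) (K := fun u => kp p u (θ - α j i)) (P := PhiP p)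
          ((measurable_kp p).comp (by fun_prop : Measurable fun u : ℝ =>
              (u, θ - α j i))).aestronglyMeasurable (ae_abs_kp_le hp _)
          (integrable_PhiP hp h1 h2) (hc j i) (hcD j i) (continuous_xi T w j)
          (fun s => ⟨xi_nonneg hw hT j s, xi_le_one T w j s⟩) (abs_xi_sub_le hw j) t
          (mid T w j)
        rw [← hIP] at a2
        refine a2.trans ?_
        have : 0 ≤ 1 / w j + 1 / w (j + 1) := by
          have := hw j
          have := hw (j + 1)
          positivity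
        exact mul_le_mul_of_nonneg_right (mul_le_mul_of_nonneg_right (le_abs_self _) this) hIP0
      refine (Finset.sum_le_sum fun i _ => e2 i).trans (le_of_eq ?_)
      simp only [Finset.sum_const, Finset.card_univ, Fintype.card_fin, nsmul_eq_mul]
      ring
    · intro j
      have e1 : Tendsto (fun t => ∑ i : Fin (n j), ∫ u, kn p ρ u (θ - α j i) *
          dn ⟨j, i⟩ (t - u)) atTop (𝓝 (∑ i : Fin (n j), 0)) := by
        refine tendsto_finsetSum _ fun i _ => ?_
        set R := T (j + 1) + w (j + 1) with hR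
        have h3 : Tendsto (fun t : ℝ => D j / (1 + (t - R)) * IP) atTop (𝓝 0) := by
          have h4 : Tendsto (fun t : ℝ => 1 + (t - R)) atTop atTop := by
            refine tendsto_atTop_add_const_left _ _ ?_
            exact tendsto_atTop_add_const_right _ _ tendsto_id
          simpa using (h4.const_div_atTop (D j)).mul_const IP
        refine squeeze_zero_norm' ?_ h3
        filter_upwards [eventually_ge_atTop R] with t ht
        rw [Real.norm_eq_abs]
        refine abs_integral_mul_le (ρ := ρ) (K := fun u => kp p u (θ - α j i)) (P := PhiP p)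
          (c := fun u => dn ⟨j, i⟩ (t - u)) (ae_abs_kp_le hp _) (integrable_PhiP hp h1 h2)
          (D := D j / (1 + (t - R))) fun u => ?_
        rw [abs_of_nonneg (hdn0 _ _)]
        have hpos : 0 < 1 + (t - R) := by linarith
        have hDj := hD0 ⟨j, i⟩
        simp only at hDj
        by_cases hu : R ≤ t - u
        · change c j i (t - u - mid T w j) * xi T w j (t - u) ≤ _
          rw [xi_eq_zero_right hw hT hu, mul_zero]
          positivity
        · rw [not_le] at hu
          refine (hdnD ⟨j, i⟩ (t - u)).trans ?_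
          rw [div_mul_eq_mul_div, le_div_iff₀ hpos]
          refine mul_le_mul_of_nonneg_left ?_ hDj
          have := le_abs_self u
          linarith
      simpa using e1
    · intro t
      have h3 : Summable fun i : ((j : ℕ) × Fin (n j)) ⊕ Fin K =>
          ∫ u, kn p ρ u (θ - (Sum.elim (fun x => α x.1 x.2) γ) i) *
            (Sum.elim dn r) i (t - u) := (dpot_summable hp h1 h2 hdens t θ).of_abs
      have h4' := h3.comp_injective (i := fun x : (j : ℕ) × Fin (n j) => Sum.inl x)
        Sum.inl_injective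
      have h4 : Summable fun x : (j : ℕ) × Fin (n j) =>
          ∫ u, kn p ρ u (θ - α x.1 x.2) * dn x (t - u) := by
        simpa only [Function.comp_def, Sum.elim_inl] using h4'
      have h5 : Summable fun l : Fin K => ∫ u, kn p ρ u (θ - γ l) * r l (t - u) :=
        Summable.of_finite
      have h6 := Summable.tsum_sum (f := fun i : ((j : ℕ) × Fin (n j)) ⊕ Fin K =>
          ∫ u, kn p ρ u (θ - (Sum.elim (fun x => α x.1 x.2) γ) i) *
            (Sum.elim dn r) i (t - u)) (by simpa only [Function.comp_def, Sum.elim_inl] using h4)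
          (by simpa only [Function.comp_def, Sum.elim_inr] using h5)
      simp only [Sum.elim_inl, Sum.elim_inr] at h6
      rw [dpot, h6, tsum_fintype (L := SummationFilter.unconditional _)
        (fun l : Fin K => ∫ u, kn p ρ u (θ - γ l) * r l (t - u)), wpot, add_sub_cancel_right]
      exact h4.hasSum.sigma fun j => hasSum_fintype _
  · intro ε hε
    -- `C` bounds the first terms
    obtain ⟨J, hJ⟩ := exists_nat_ge (IP / ε)
    have hJ' : IP ≤ ε * J := by rwa [div_le_iff₀ hε, mul_comm] at hJ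
    set M := ∑ j ∈ Finset.range J, (n j : ℝ) * |D j| * IP with hM
    have hterm0 : ∀ j, 0 ≤ (n j : ℝ) * |D j| * IP := fun j => by positivity
    filter_upwards [eventually_ge_atTop (T 0 + w 0), eventually_ge_atTop (M / ε)] with t ht1 ht2 θ
    have ht2' : M ≤ ε * t := by rwa [div_le_iff₀ hε, mul_comm] at ht2
    have key : ∀ j, xi T w j t ≠ 0 → (n j : ℝ) * |D j| * IP ≤ ε * t := by
      intro j hj
      rcases lt_or_ge j J with h | h
      · refine le_trans ?_ ht2'
        exact Finset.single_le_sum (f := fun j => (n j : ℝ) * |D j| * IP) (fun k _ => hterm0 k)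
          (Finset.mem_range.2 h)
      · have h3 : T j ≤ t := by
          by_contra hcon
          exact hj (xi_eq_zero_left hw hT (not_le.1 hcon).le)
        have h4 := hs3 j
        have h5 : (J : ℝ) ≤ j := by exact_mod_cast h
        have h6 : 0 ≤ (n j : ℝ) * |D j| := by positivity
        calc (n j : ℝ) * |D j| * IP ≤ (n j : ℝ) * |D j| * (ε * J) :=
              mul_le_mul_of_nonneg_left hJ' h6
          _ ≤ (n j : ℝ) * |D j| * (ε * j) :=
              mul_le_mul_of_nonneg_left (mul_le_mul_of_nonneg_left h5 hε.le) h6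
          _ = ε * (j * ((n j : ℝ) * |D j|)) := by ring
          _ ≤ ε * T j := mul_le_mul_of_nonneg_left h4 hε.le
          _ ≤ ε * t := mul_le_mul_of_nonneg_left h3 hε.le
    have hb : ∀ j, |wpot p ρ (α j) (c j) (t - mid T w j) θ| ≤ (n j : ℝ) * |D j| * IP := fun j =>
      gw_wpot_le hp h1 h2 (hcD j) _ _
    rw [abs_le]
    constructor
    · have h3 := tsum_xi_le hw hT ht1 (a := fun j => -wpot p ρ (α j) (c j) (t - mid T w j) θ)
        (A := ε * t) (fun j hj => (neg_le_abs _).trans ((hb j).trans (key j hj)))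
      have h4 : ∑' j, xi T w j t * -wpot p ρ (α j) (c j) (t - mid T w j) θ =
          -∑' j, xi T w j t * wpot p ρ (α j) (c j) (t - mid T w j) θ := by
        rw [← tsum_neg]
        exact tsum_congr fun j => mul_neg _ _
      rw [h4] at h3
      linarith
    · exact tsum_xi_le hw hT ht1 (fun j hj => (le_abs_self _).trans ((hb j).trans (key j hj)))

end HBInf
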