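import Pool.Agent.HBInf.DomAll
import Pool.Agent.HBInf.GeoZero
import Pool.Agent.HBInf.GeoOne
import Pool.Agent.HBInf.ShiftV
import Pool.Agent.HBInd.Contact

/-!
# The condition on the homogeneous potentials

`HRS p ρ h`: whenever `x ≥ 0` and `∑ x_i VV (θ i - α) ≥ 0` for all `α ∈ TT p`, then `∑ x_i g i ≥ 0` for `g i ≥ h (θ i)`.

(I) Suppose some family `θ'`, `x' ≥ 0` of rays with `h (θ' i) < ⊤` has `∑ x'_i VV (θ' i - α) > 0` for all `α ∈ TT p`.
Let `g' i ≥ h (θ' i)`. For `δ > 0` the union of the families `(θ, x)` and `(θ', δ x')` (indices `Fin (n + n')`,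
`Fin.append`) has positive sums, so `∑ x_i g i + δ ∑ x'_i g' i ≥ 0` (`hrs_pos`), and `δ → 0`.

(II) Otherwise, `p = 0`, `β = π - π/(2ρ)`, `V ψ = VV 0 ρ ψ = VV 0 ρ π G ρ ψ`: `geoZero` for `θ` gives `α ∈ [0, π]` and
`ψ i = θ i + 2π m_i - α ∈ [-β, β]`, so `V (ψ i) ≤ 0` with equality iff `|ψ i| = β`; since `∑ x_i V (ψ i) ≥ 0`, `x_i = 0`
unless `|ψ i| = β`. Let `X± = ∑_{ψ i = ±β} x_i`. For small `s > 0` with `α + s ≤ π`: `V (β - s) = -VV π sin ρs`,
`V (-β - s) = VV π sin ρs`, so `X- ≥ X+` if `α < π`, and similarly `X+ ≥ X-` if `α > 0`. Let `A` be the least `g i` with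
`ψ i = β`, `x_i > 0`, `B` the least with `ψ i = -β`, `x_i > 0` (if `X+ > 0`, resp. `X- > 0`): `∑ x_i g i ≥ X+ A + X- B`.
`h (α + β) ≤ A`, `h (α - β) ≤ B`, `α - β = (α + β) + π/ρ - 2π`: `CondC` gives `A + B ≥ 0` if both exist. If
`α ∈ (0, π)` then `X+ = X-` and we are done. If `α = 0`: `X- ≥ X+`, and if `X- > 0` then `B ≥ 0`: `h β ≤ h (-β) ≤ B` (`CondA` with
the point `-β` dominating `β`: `kp 0 (-s) (β - α) ≤ kp 0 (-s) (-β - α)` for `α ∈ [0, π]`, `cos (β - α) ≥ cos (β + α)`), and
`CondC` for `β`, `β + π/ρ = 2π - β` gives `2B ≥ 0`. So `X+ A + X- B = X+ (A + B) + (X- - X+) B ≥ 0`. `α = π`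
similarly (or mirror: `mirror_condA_zero`, `mirror_condT`, `mirror_condC`).

(III) Otherwise, `p = 1`, `ω = π/(2ρ)`. `h` is even (`condA_even`), so replace `θ i` by the representative in `[0, π]`
(`VV` is even and `2π`-periodic). `V_0 θ = VV θ = -c cos ρ(π - θ)`, `V_π θ = VV (θ - π) = -c cos ρθ`, `c > 0`.
`geoOne`: (a) there are `ν₀, ν₁ > 0` with `V_ν = ν₀ V_0 + ν₁ V_π ≤ 0` at all `θ i`. As `∑ x_i V_ν (θ i) ≥ 0`, `x_i = 0` unless
`V_ν (θ i) = 0`, i.e. `θ i ∈ {A, B}`, `B = A + π/ρ` (see `Pool.Agent.HBInf.KillOne`), `V_0 B = -V_0 A`, `V_π B = -V_π A`.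
With `X_A, X_B` the sums: `(X_A - X_B) V_0 A ≥ 0` and `(X_A - X_B) V_π A ≥ 0`, and `V_0 A`, `V_π A` have strictly
opposite signs (`V_ν A = 0`, and not both vanish). So `X_A = X_B` and `∑ x_i g i ≥ X_A (g_A + g_B) ≥ 0`, `g_A, g_B` the
least values (`CondC`). (If `A` or `B` is not among the `θ i` then `X = 0`.)
(b) some `θ i` is `ω` or `π - ω`, no such `ν`, i.e. (see the proof of `geoOne`; `gordan` again) say `V_π (θ i) ≤ 0` for
all `i` (the other case `V_0 (θ i) ≤ 0` is the mirror image). As `∑ x_i V_π (θ i) ≥ 0`, `x_i = 0` unless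
`θ i ∈ {ω, 3ω}`; `V_0 ω = v > 0`, `V_0 (3ω) = -v`: `X_ω ≥ X_{3ω}`. `h ω + h (3ω) ≥ 0` and `2 h ω = h (-ω) + h (-ω + π/ρ) ≥ 0`
(`CondC`), so `X_ω g_ω + X_{3ω} g_{3ω} ≥ 0`. (`3ω` only if `3ω ≤ π`.)
-/

namespace HBInf

open HBInd Complex Filter Topology Set MeasureTheory
open scoped Real ComplexConjugate

def HRS (p : ℕ) (ρ : ℝ) (h : ℝ → EReal) : Prop :=
  ∀ (n : ℕ) (θ x g : Fin n → ℝ), (∀ i, 0 ≤ x i) → (∀ i, h (θ i) ≤ g i) →
    (∀ α ∈ TT p, 0 ≤ ∑ i, x i * VV p ρ (θ i - α)) → 0 ≤ ∑ i, x i * g i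

/-- two groups of weights with nonnegative pair sums -/
theorem hrs_pair {n : ℕ} {u v g : Fin n → ℝ} (hu : ∀ i, 0 ≤ u i) (hv : ∀ i, 0 ≤ v i)
    (hsum : ∑ i, u i ≤ ∑ i, v i) (hg : ∀ i j, 0 < u i → 0 < v j → 0 ≤ g i + g j)
    (h0 : ∑ i, u i = ∑ i, v i ∨ ∀ j, 0 < v j → 0 ≤ g j) : 0 ≤ ∑ i, (u i + v i) * g i := by
  rcases (Finset.sum_nonneg fun i _ => hv i).eq_or_lt with hV | hV
  · have hv0 : ∀ i, v i = 0 := fun i =>
      (Finset.sum_eq_zero_iff_of_nonneg (fun i _ => hv i)).1 hV.symm i (Finset.mem_univ i)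
    have hU : ∑ i, u i = 0 :=
      le_antisymm (hsum.trans hV.symm.le) (Finset.sum_nonneg fun i _ => hu i)
    have hu0 : ∀ i, u i = 0 := fun i =>
      (Finset.sum_eq_zero_iff_of_nonneg (fun i _ => hu i)).1 hU i (Finset.mem_univ i)
    simp [hu0, hv0]
  · have e : ∑ i, ∑ j, u i * v j * (g i + g j) =
        (∑ i, u i * g i) * (∑ j, v j) + (∑ i, u i) * ∑ j, v j * g j := by
      rw [Finset.sum_mul_sum, Finset.sum_mul_sum, ← Finset.sum_add_distrib]
      apply Finset.sum_congr rfl
      intro i _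
      rw [← Finset.sum_add_distrib]
      apply Finset.sum_congr rfl
      intro j _
      ring
    have e2 : ∑ i, (u i + v i) * g i = ∑ i, u i * g i + ∑ i, v i * g i := by
      rw [← Finset.sum_add_distrib]
      apply Finset.sum_congr rfl
      intro i _
      ring
    have n1 : 0 ≤ ∑ i, ∑ j, u i * v j * (g i + g j) := by
      refine Finset.sum_nonneg fun i _ => Finset.sum_nonneg fun j _ => ?_
      rcases (hu i).eq_or_lt with h | h
      · rw [← h]; simp
      rcases (hv j).eq_or_lt with h' | h'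
      · rw [← h']; simp
      exact mul_nonneg (mul_pos h h').le (hg i j h h')
    have n2 : 0 ≤ (∑ i, v i - ∑ i, u i) * ∑ j, v j * g j := by
      rcases h0 with h0 | h0
      · rw [h0, sub_self, zero_mul]
      · refine mul_nonneg (sub_nonneg.2 hsum) (Finset.sum_nonneg fun j _ => ?_)
        rcases (hv j).eq_or_lt with h' | h'
        · rw [← h']; simp
        · exact mul_nonneg h'.le (h0 j h')
    have key : 0 ≤ (∑ i, v i) * ∑ i, (u i + v i) * g i := by
      rw [e2]
      rw [e] at n1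
      linarith
    exact nonneg_of_mul_nonneg_right key hV

/-- case (I) -/
theorem hrs_of_pos {p : ℕ} (hp : p ≤ 1) {ρ : ℝ} (h1 : (p : ℝ) < ρ) (h2 : ρ < p + 1)
    {h : ℝ → EReal} (hA : CondA p ρ h) (hC : CondC ρ h) {n' : ℕ} {θ' x' : Fin n' → ℝ}
    (hθ : ∀ i, h (θ' i) ≠ ⊤) (hx : ∀ i, 0 ≤ x' i)
    (hP : ∀ α ∈ TT p, 0 < ∑ i, x' i * VV p ρ (θ' i - α)) : HRS p ρ h := by
  intro n θ x g hx0 hg hV
  have hg' : ∀ i, ∃ c : ℝ, h (θ' i) ≤ c := fun i => by
    obtain ⟨c, hc, -⟩ := EReal.lt_iff_exists_real_btwn.1 (lt_top_iff_ne_top.2 (hθ i))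
    exact ⟨c, hc.le⟩
  choose g' hg' using hg'
  have key : ∀ δ : ℝ, 0 < δ → 0 ≤ ∑ i, x i * g i + δ * ∑ i, x' i * g' i := by
    intro δ hδ
    have := hrs_pos hp h1 h2 hA hC (θ := Fin.append θ θ') (x := Fin.append x (fun i => δ * x' i))
      (g := Fin.append g g') (by
        intro i
        refine Fin.addCases (fun i => ?_) (fun i => ?_) i
        · simpa using hg i
        · simpa using hg' i) (by
        intro i
        refine Fin.addCases (fun i => ?_) (fun i => ?_) i
        · simpa using hx0 i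
        · simpa using mul_nonneg hδ.le (hx i)) (by
        intro α hα
        rw [Fin.sum_univ_add]
        simp only [Fin.append_left, Fin.append_right]
        have e : ∑ i, δ * x' i * VV p ρ (θ' i - α) = δ * ∑ i, x' i * VV p ρ (θ' i - α) := by
          rw [Finset.mul_sum]
          apply Finset.sum_congr rfl
          intro i _
          ring
        rw [e]
        exact add_pos_of_nonneg_of_pos (hV α hα) (mul_pos hδ (hP α hα)))
    rw [Fin.sum_univ_add] at this
    simp only [Fin.append_left, Fin.append_right] at this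
    have e : ∑ i, δ * x' i * g' i = δ * ∑ i, x' i * g' i := by
      rw [Finset.mul_sum]
      apply Finset.sum_congr rfl
      intro i _
      ring
    rwa [e] at this
  by_contra hcon
  push Not at hcon
  set S := ∑ i, x i * g i with hS
  set S' := ∑ i, x' i * g' i with hS'
  have hδ : 0 < -S / (2 * (|S'| + 1)) := by
    have : 0 ≤ |S'| := abs_nonneg _
    apply div_pos <;> linarith
  have h3 := key _ hδ
  have h4 : -S / (2 * (|S'| + 1)) * S' ≤ -S / 2 := by
    have h5 : S' ≤ |S'| + 1 := by linarith [le_abs_self S']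
    have h6 : 0 < |S'| + 1 := by linarith [abs_nonneg S']
    calc -S / (2 * (|S'| + 1)) * S' ≤ -S / (2 * (|S'| + 1)) * (|S'| + 1) :=
          mul_le_mul_of_nonneg_left h5 hδ.le
      _ = -S / 2 := by field_simp
  linarith

/-- the reflection of the upper half-plane, `p = 0` -/
theorem hrs_reflect {ρ : ℝ} {h : ℝ → EReal} (hA : CondA 0 ρ h) {θ : ℝ} (h0 : 0 ≤ θ) (h1 : θ ≤ π)
    {g : ℝ} (hg : h (-θ) ≤ g) : h θ ≤ g := by
  have hd : Dom 0 ρ (fun _ : Fin 1 => -θ) (fun _ => Measure.dirac 0) θ := by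
    intro α hα
    have hae : ∀ᵐ s : ℝ, s ≠ 0 := knt_ae_ne
    filter_upwards [hae] with s hs
    rw [Fin.sum_univ_one, integral_dirac]
    simp only [mul_zero, Real.exp_zero, one_mul, zero_sub]
    rw [kp_eq, kp_eq, ker_eq, ker_eq]
    simp only [Nat.cast_zero, zero_mul, add_zero]
    have hq : Real.exp (-s) ≠ 1 := by
      rw [Ne, Real.exp_eq_one_iff]
      simpa using hs
    have hq0 := Real.exp_pos (-s)
    have hc : Real.cos (-θ - α) ≤ Real.cos (θ - α) := by
      have e1 : Real.cos (-θ - α) = Real.cos (θ + α) := by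
        rw [← Real.cos_neg]
        congr 1
        ring
      rw [e1, Real.cos_add, Real.cos_sub]
      have s1 := Real.sin_nonneg_of_nonneg_of_le_pi h0 h1
      have s2 := Real.sin_nonneg_of_nonneg_of_le_pi hα.1.1 hα.1.2
      have := mul_nonneg s1 s2
      linarith
    have hpos : 0 < 1 - 2 * Real.exp (-s) * Real.cos (θ - α) + Real.exp (-s) ^ 2 := by
      have h3 := Real.cos_le_one (θ - α)
      have h4 : 0 < (1 - Real.exp (-s)) ^ 2 := by
        have : 1 - Real.exp (-s) ≠ 0 := sub_ne_zero.2 (Ne.symm hq)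
        positivity
      nlinarith
    have hle : Real.log (1 - 2 * Real.exp (-s) * Real.cos (θ - α) + Real.exp (-s) ^ 2) ≤
        Real.log (1 - 2 * Real.exp (-s) * Real.cos (-θ - α) + Real.exp (-s) ^ 2) := by
      apply Real.log_le_log hpos
      nlinarith
    linarith
  have h3 := hA 1 (fun _ => -θ) (fun _ => Measure.dirac 0) (fun _ => g) θ
    (fun _ => inferInstance) (fun _ => hg) (fun h => absurd h (by norm_num)) hd
  simpa using h3

theorem hrs_per {h : ℝ → EReal} (hper : ∀ θ, h (θ + 2 * π) = h θ) (θ : ℝ) (m : ℤ) :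
    h (θ + m * (2 * π)) = h θ := by
  have hp : Function.Periodic h (2 * π) := hper
  have := (hp.int_mul m) θ
  exact this

theorem hrs_zero {ρ : ℝ} (h1 : 1 / 2 < ρ) (h2 : ρ < 1) {h : ℝ → EReal}
    (hper : ∀ θ, h (θ + 2 * π) = h θ) (hA : CondA 0 ρ h) (hC : CondC ρ h) : HRS 0 ρ h := by
  have hpi := Real.pi_pos
  have hρ : 0 < ρ := by linarith
  have h1' : ((0 : ℕ) : ℝ) < ρ := by simpa using hρ
  have h2' : ρ < ((0 : ℕ) : ℝ) + 1 := by simpa using h2
  intro n θ x g hx hg hV
  by_cases hex : ∃ (n' : ℕ) (θ' x' : Fin n' → ℝ), (∀ i, h (θ' i) ≠ ⊤) ∧ (∀ i, 0 ≤ x' i) ∧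
      ∀ α ∈ TT 0, 0 < ∑ i, x' i * VV 0 ρ (θ' i - α)
  · obtain ⟨n', θ', x', a1, a2, a3⟩ := hex
    exact hrs_of_pos (by norm_num) h1' h2' hA hC a1 a2 a3 n θ x g hx hg hV
  have hVe : ∀ (x' : Fin n → ℝ) (α : ℝ), ∑ i, x' i * VV 0 ρ (θ i - α) =
      VV 0 ρ π * ∑ i, x' i * G ρ (θ i - α) := by
    intro x' α
    rw [Finset.mul_sum]
    apply Finset.sum_congr rfl
    intro i _
    rw [VV_eq (by norm_num) h1' h2']
    ring
  have hVpi := VV_pi_zero hρ h2
  have hG : ¬∃ x' : Fin n → ℝ, (∀ i, 0 ≤ x' i) ∧ ∀ α ∈ Icc 0 π, 0 < ∑ i, x' i * G ρ (θ i - α) := by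
    rintro ⟨x', hx', hx2⟩
    refine hex ⟨n, θ, x', fun i => ne_top_of_le_ne_top (EReal.coe_ne_top _) (hg i), hx',
      fun α hα => ?_⟩
    rw [hVe]
    exact mul_pos hVpi (hx2 α hα.1)
  obtain ⟨α, hα, hm⟩ := geoZero h1 h2 hG
  choose m hm using hm
  set β : ℝ := π - π / (2 * ρ) with hβ
  have hρβ : ρ * π - ρ * β = π / 2 := by
    rw [hβ]
    field_simp
    ring
  have hβ1 : β < π / 2 := by
    have : π / 2 < π / (2 * ρ) := by
      rw [div_lt_div_iff_of_pos_left hpi (by norm_num) (by positivity)]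
      linarith
    linarith
  have hβ0 : 0 < β := by
    have : π / (2 * ρ) < π := by
      rw [div_lt_iff₀ (by positivity)]
      nlinarith
    linarith
  have hl : π / ρ = 2 * π - 2 * β := by
    rw [hβ]
    field_simp
    ring
  have hGv : ∀ y : ℝ, |y| ≤ π → G ρ y = Real.sin (ρ * (|y| - β)) := by
    intro y hy
    rw [G_of_abs_le hy]
    have e : ρ * (π - |y|) = π / 2 - ρ * (|y| - β) := by
      rw [← hρβ]
      ring
    rw [e, Real.cos_pi_div_two_sub]
  set ψ : Fin n → ℝ := fun i => θ i + m i * (2 * π) - α with hψ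
  have hGs : ∀ (s : ℝ) (i : Fin n), G ρ (θ i - (α + s)) = G ρ (ψ i - s) := by
    intro s i
    rw [← G_add_int ρ (θ i - (α + s)) (m i)]
    congr 1
    rw [hψ]
    ring
  have hVG : ∀ s : ℝ, α + s ∈ Icc 0 π → 0 ≤ ∑ i, x i * G ρ (ψ i - s) := by
    intro s hs
    have h3 := hV (α + s) ⟨hs, fun h => absurd h (by norm_num)⟩
    rw [hVe] at h3
    have h4 := nonneg_of_mul_nonneg_right h3 hVpi
    simpa only [hGs] using h4
  have hψβ : ∀ i, |ψ i| ≤ β := hm
  have hGle : ∀ i, G ρ (ψ i) ≤ 0 ∧ (G ρ (ψ i) = 0 → |ψ i| = β) := by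
    intro i
    rw [hGv _ ((hψβ i).trans (by linarith))]
    have e : Real.sin (ρ * (|ψ i| - β)) = -Real.sin (ρ * (β - |ψ i|)) := by
      rw [← Real.sin_neg]
      congr 1
      ring
    have h3 : 0 ≤ β - |ψ i| := by linarith [hψβ i]
    have h4 : ρ * (β - |ψ i|) < π := by
      have := abs_nonneg (ψ i)
      nlinarith
    rw [e]
    constructor
    · rw [neg_nonpos]
      exact Real.sin_nonneg_of_nonneg_of_le_pi (mul_nonneg hρ.le h3) h4.le
    · intro h5
      by_contra hne
      have h6 : 0 < β - |ψ i| := lt_of_le_of_ne h3 (fun h => hne (by linarith))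
      have h7 := Real.sin_pos_of_pos_of_lt_pi (mul_pos hρ h6) h4
      linarith
  have hx0 : ∀ i, x i = 0 ∨ |ψ i| = β := by
    have h3 := hVG 0 (by simpa using hα)
    simp only [sub_zero] at h3
    have h4 : ∀ i ∈ Finset.univ, x i * G ρ (ψ i) ≤ 0 := fun i _ =>
      mul_nonpos_of_nonneg_of_nonpos (hx i) (hGle i).1
    have h5 : ∑ i, x i * G ρ (ψ i) = 0 := le_antisymm (Finset.sum_nonpos h4) h3
    have h6 := (Finset.sum_eq_zero_iff_of_nonpos h4).1 h5
    intro i
    rcases mul_eq_zero.1 (h6 i (Finset.mem_univ i)) with h7 | h7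
    · exact Or.inl h7
    · exact Or.inr ((hGle i).2 h7)
  set u : Fin n → ℝ := fun i => if ψ i = β then x i else 0 with hu
  set v : Fin n → ℝ := fun i => if ψ i = -β then x i else 0 with hv
  have huv : ∀ i, x i = u i + v i := by
    intro i
    rcases hx0 i with h3 | h3
    · simp [hu, hv, h3]
    · rcases (abs_eq hβ0.le).1 h3 with h4 | h4
      · simp only [hu, hv, h4, if_true]
        rw [if_neg (by linarith)]
        ring
      · simp only [hu, hv, h4, if_true]
        rw [if_neg (by linarith)]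
        ring
  have hu0 : ∀ i, 0 ≤ u i := fun i => by
    simp only [hu]
    split_ifs
    · exact hx i
    · exact le_rfl
  have hv0 : ∀ i, 0 ≤ v i := fun i => by
    simp only [hv]
    split_ifs
    · exact hx i
    · exact le_rfl
  have hsumG : ∀ s : ℝ, |s| ≤ β → ∑ i, x i * G ρ (ψ i - s) =
      Real.sin (ρ * s) * (∑ i, v i - ∑ i, u i) := by
    intro s hs
    obtain ⟨hs1, hs2⟩ := abs_le.1 hs
    have e1 : G ρ (β - s) = -Real.sin (ρ * s) := by
      rw [hGv _ (by rw [abs_of_nonneg (by linarith)]; linarith), abs_of_nonneg (by linarith),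
        ← Real.sin_neg]
      congr 1
      ring
    have e2 : G ρ (-β - s) = Real.sin (ρ * s) := by
      rw [hGv _ (by rw [abs_of_nonpos (by linarith)]; linarith), abs_of_nonpos (by linarith)]
      congr 1
      ring
    rw [mul_sub, Finset.mul_sum, Finset.mul_sum, ← Finset.sum_sub_distrib]
    apply Finset.sum_congr rfl
    intro i _
    rw [huv i]
    by_cases c1 : ψ i = β
    · have c2 : ψ i ≠ -β := by rw [c1]; linarith
      simp only [hu, hv, c1, if_true]
      rw [if_neg (by linarith), e1]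
      ring
    · by_cases c2 : ψ i = -β
      · simp only [hu, hv, c2, if_true]
        rw [if_neg (by linarith), e2]
        ring
      · simp only [hu, hv, if_neg c1, if_neg c2]
        ring
  have hle1 : α < π → ∑ i, u i ≤ ∑ i, v i := by
    intro hαπ
    set s := min β (π - α) with hs
    have hs0 : 0 < s := lt_min hβ0 (by linarith)
    have hs1 : s ≤ β := min_le_left _ _
    have hs2 : s ≤ π - α := min_le_right _ _
    have h3 := hVG s ⟨by linarith [hα.1], by linarith⟩
    rw [hsumG s (by rw [abs_of_pos hs0]; exact hs1)] at h3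
    have h4 := Real.sin_pos_of_pos_of_lt_pi (mul_pos hρ hs0) (by nlinarith)
    have := nonneg_of_mul_nonneg_right h3 h4
    linarith
  have hle2 : 0 < α → ∑ i, v i ≤ ∑ i, u i := by
    intro hα0
    set s := min β α with hs
    have hs0 : 0 < s := lt_min hβ0 hα0
    have hs1 : s ≤ β := min_le_left _ _
    have hs2 : s ≤ α := min_le_right _ _
    have h3 := hVG (-s) ⟨by linarith, by linarith [hα.2]⟩
    rw [hsumG (-s) (by rw [abs_neg, abs_of_pos hs0]; exact hs1)] at h3
    have h4 := Real.sin_pos_of_pos_of_lt_pi (mul_pos hρ hs0) (by nlinarith)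
    have e : Real.sin (ρ * -s) = -Real.sin (ρ * s) := by rw [mul_neg, Real.sin_neg]
    rw [e] at h3
    have h5 : 0 ≤ Real.sin (ρ * s) * (∑ i, u i - ∑ i, v i) := by linarith
    have := nonneg_of_mul_nonneg_right h5 h4
    linarith
  have hup : ∀ i, 0 < u i → h (α + β) ≤ g i := by
    intro i hi
    have c1 : ψ i = β := by
      by_contra hne
      simp only [hu, if_neg hne] at hi
      exact lt_irrefl _ hi
    have e : α + β = θ i + m i * (2 * π) := by
      rw [← c1, hψ]
      ring
    rw [e, hrs_per hper]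
    exact hg i
  have hvp : ∀ i, 0 < v i → h (α - β) ≤ g i := by
    intro i hi
    have c1 : ψ i = -β := by
      by_contra hne
      simp only [hv, if_neg hne] at hi
      exact lt_irrefl _ hi
    have e : α - β = θ i + m i * (2 * π) := by
      have : α - β = α + ψ i := by rw [c1]; ring
      rw [this, hψ]
      ring
    rw [e, hrs_per hper]
    exact hg i
  have hpair : ∀ i j, 0 < u i → 0 < v j → 0 ≤ g i + g j := by
    intro i j hi hj
    refine hC (α + β) (g i) (g j) (hup i hi) ?_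
    have e : α + β + π / ρ = α - β + 2 * π := by rw [hl]; ring
    rw [e, hper]
    exact hvp j hj
  have hfin : ∑ i, x i * g i = ∑ i, (u i + v i) * g i :=
    Finset.sum_congr rfl fun i _ => by rw [← huv i]
  rw [hfin]
  rcases hα.1.eq_or_lt with ha | ha
  · -- `α = 0`
    refine hrs_pair hu0 hv0 (hle1 (by linarith)) hpair (Or.inr fun j hj => ?_)
    have h3 := hvp j hj
    rw [← ha, zero_sub] at h3
    have h4 := hrs_reflect hA hβ0.le (by linarith) h3
    have h5 : h (β + π / ρ) ≤ g j := by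
      have e : β + π / ρ = -β + 2 * π := by rw [hl]; ring
      rw [e, hper]
      exact h3
    have := hC β (g j) (g j) h4 h5
    linarith
  · rcases hα.2.eq_or_lt with hb | hb
    · -- `α = π`
      have h6 : 0 ≤ ∑ i, (v i + u i) * g i := by
        refine hrs_pair hv0 hu0 (hle2 ha) (fun i j hi hj => by
          have := hpair j i hj hi
          linarith) (Or.inr fun j hj => ?_)
        have h3 := hup j hj
        rw [hb] at h3
        have h4 : h (-(π - β)) ≤ g j := by
          have e : -(π - β) + 2 * π = π + β := by ring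
          rw [← hper, e]
          exact h3
        have h5 := hrs_reflect hA (by linarith) (by linarith) h4
        have h7 : h (π + β + π / ρ) ≤ g j := by
          have e : π + β + π / ρ = (π - β) + 2 * π := by rw [hl]; ring
          rw [e, hper]
          exact h5
        have := hC (π + β) (g j) (g j) h3 h7
        linarith
      refine h6.trans (le_of_eq ?_)
      apply Finset.sum_congr rfl
      intro i _
      ring
    · exact hrs_pair hu0 hv0 (hle1 hb) hpair (Or.inl (le_antisymm (hle1 hb) (hle2 ha)))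

/-- Gordan's theorem for pairs -/
theorem hrs_gordan {n : ℕ} {A B : Fin n → ℝ}
    (h : ¬∃ x : Fin n → ℝ, (∀ i, 0 ≤ x i) ∧ (0 < ∑ i, x i * A i) ∧ 0 < ∑ i, x i * B i) :
    ∃ x y : ℝ, 0 ≤ x ∧ 0 ≤ y ∧ x + y = 1 ∧ ∀ i, x * A i + y * B i ≤ 0 := by
  obtain ⟨k, a, ν, hν, hs, hi⟩ := gordan (X := Bool) (fun i b => if b then A i else B i)
    (fun i => continuous_of_discreteTopology) (by
      rintro ⟨x, hx, hx2⟩
      exact h ⟨x, hx, by simpa using hx2 true, by simpa using hx2 false⟩)
  refine ⟨∑ j, ν j * (if a j then 1 else 0), ∑ j, ν j * (if a j then 0 else 1), ?_, ?_, ?_, ?_⟩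
  · apply Finset.sum_nonneg
    intro j _
    apply mul_nonneg (hν j)
    split_ifs <;> norm_num
  · apply Finset.sum_nonneg
    intro j _
    apply mul_nonneg (hν j)
    split_ifs <;> norm_num
  · rw [← Finset.sum_add_distrib]
    refine Eq.trans ?_ hs
    apply Finset.sum_congr rfl
    intro j _
    split_ifs <;> ring
  · intro i
    have e : (∑ j, ν j * (if a j then 1 else 0)) * A i + (∑ j, ν j * (if a j then 0 else 1)) * B i =
        ∑ j, ν j * (if a j then A i else B i) := by
      rw [Finset.sum_mul, Finset.sum_mul, ← Finset.sum_add_distrib]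
      apply Finset.sum_congr rfl
      intro j _
      split_ifs <;> ring
    rw [e]
    exact hi i

/-- zeros of `cos` on `[0, 2π)` -/
theorem hrs_cos_zero {x : ℝ} (h0 : 0 ≤ x) (h2 : x < 2 * π) (hc : Real.cos x = 0) :
    x = π / 2 ∨ x = 3 * π / 2 := by
  have hpi := Real.pi_pos
  rw [Real.cos_eq_zero_iff] at hc
  obtain ⟨k, hk⟩ := hc
  have hk0 : -1 < k := by
    by_contra hcon
    have : (k : ℝ) ≤ -1 := by exact_mod_cast (not_lt.mp hcon)
    nlinarith
  have hk1 : k < 2 := by
    by_contra hcon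
    have : (2 : ℝ) ≤ k := by exact_mod_cast (not_lt.mp hcon)
    nlinarith
  have : k = 0 ∨ k = 1 := by omega
  rcases this with rfl | rfl
  · left
    rw [hk]
    push_cast
    ring
  · right
    rw [hk]
    push_cast
    ring

/-- `cos x = -1`, `|x| < 2π` -/
theorem hrs_cos_neg_one {x : ℝ} (h2 : |x| < 2 * π) (hc : Real.cos x = -1) :
    x = π ∨ x = -π := by
  have hpi := Real.pi_pos
  obtain ⟨h0, h1⟩ := abs_lt.1 h2
  rw [Real.cos_eq_neg_one_iff] at hc
  obtain ⟨k, hk⟩ := hc
  have hk0 : -2 < k := by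
    by_contra hcon
    have : (k : ℝ) ≤ -2 := by exact_mod_cast (not_lt.mp hcon)
    nlinarith
  have hk1 : k < 1 := by
    by_contra hcon
    have : (1 : ℝ) ≤ k := by exact_mod_cast (not_lt.mp hcon)
    nlinarith
  have : k = -1 ∨ k = 0 := by omega
  rcases this with rfl | rfl
  · right
    rw [← hk]
    push_cast
    ring
  · left
    rw [← hk]
    push_cast
    ring

theorem hrs_sin_neg {ρ : ℝ} (h1 : 1 < ρ) (h2 : ρ < 2) : Real.sin (ρ * π) < 0 := by
  have hpi := Real.pi_pos
  have e : Real.sin (ρ * π) = -Real.sin (ρ * π - π) := by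
    rw [Real.sin_sub_pi, neg_neg]
  rw [e, neg_lt_zero]
  apply Real.sin_pos_of_pos_of_lt_pi <;> nlinarith

/-- the degenerate case -/
theorem hrs_caseb {ρ : ℝ} (h1 : 1 < ρ) (h2 : ρ < 2) {k : ℝ → EReal}
    (hk : k (-(π / (2 * ρ))) = k (π / (2 * ρ))) (hC : CondC ρ k) {n : ℕ} {x g σ : Fin n → ℝ}
    (hx : ∀ i, 0 ≤ x i) (hσ : ∀ i, 0 ≤ σ i ∧ σ i ≤ π) (hg : ∀ i, k (σ i) ≤ g i)
    (hz : ∀ i, x i ≠ 0 → Real.cos (ρ * σ i) = 0)
    (hs : 0 ≤ ∑ i, x i * (-Real.cos (ρ * (π - σ i)))) : 0 ≤ ∑ i, x i * g i := by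
  have hpi := Real.pi_pos
  have hρ : 0 < ρ := by linarith
  set ω : ℝ := π / (2 * ρ) with hω
  have hω0 : 0 < ω := by positivity
  have hρω : ρ * ω = π / 2 := by
    rw [hω]
    field_simp
  have hsin := hrs_sin_neg h1 h2
  have hcase : ∀ i, x i = 0 ∨ σ i = ω ∨ σ i = 3 * ω := by
    intro i
    by_cases hxi : x i = 0
    · exact Or.inl hxi
    right
    rcases hrs_cos_zero (mul_nonneg hρ.le (hσ i).1) (by nlinarith [(hσ i).2]) (hz i hxi) with h3 | h3
    · left
      have : ρ * σ i = ρ * ω := by rw [hρω]; exact h3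
      exact mul_left_cancel₀ hρ.ne' this
    · right
      have : ρ * σ i = ρ * (3 * ω) := by
        have e : ρ * (3 * ω) = 3 * (ρ * ω) := by ring
        rw [e, hρω, h3]
        ring
      exact mul_left_cancel₀ hρ.ne' this
  set u : Fin n → ℝ := fun i => if σ i = 3 * ω then x i else 0 with hu
  set v : Fin n → ℝ := fun i => if σ i = ω then x i else 0 with hv
  have huv : ∀ i, x i = u i + v i := by
    intro i
    rcases hcase i with h3 | h3 | h3
    · simp [hu, hv, h3]
    · simp only [hu, hv, h3, if_true]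
      rw [if_neg (by linarith)]
      ring
    · simp only [hu, hv, h3, if_true]
      rw [if_neg (by linarith)]
      ring
  have hu0 : ∀ i, 0 ≤ u i := fun i => by
    simp only [hu]
    split_ifs
    · exact hx i
    · exact le_rfl
  have hv0 : ∀ i, 0 ≤ v i := fun i => by
    simp only [hv]
    split_ifs
    · exact hx i
    · exact le_rfl
  have e1 : Real.cos (ρ * (π - ω)) = Real.sin (ρ * π) := by
    have e : ρ * (π - ω) = ρ * π - π / 2 := by rw [mul_sub, hρω]
    rw [e, Real.cos_sub_pi_div_two]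
  have e2 : Real.cos (ρ * (π - 3 * ω)) = -Real.sin (ρ * π) := by
    have e : ρ * (π - 3 * ω) = ρ * π + π / 2 - 2 * π := by
      have : ρ * (π - 3 * ω) = ρ * π - 3 * (ρ * ω) := by ring
      rw [this, hρω]
      ring
    rw [e, Real.cos_sub_two_pi, Real.cos_add_pi_div_two]
  have hsum : ∑ i, x i * (-Real.cos (ρ * (π - σ i))) =
      (-Real.sin (ρ * π)) * (∑ i, v i - ∑ i, u i) := by
    rw [mul_sub, Finset.mul_sum, Finset.mul_sum, ← Finset.sum_sub_distrib]
    apply Finset.sum_congr rfl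
    intro i _
    rcases hcase i with h3 | h3 | h3
    · have h4 := huv i
      rw [h3] at h4
      have h5 : u i = 0 := le_antisymm (by linarith [hv0 i]) (hu0 i)
      have h6 : v i = 0 := by linarith
      rw [h3, h5, h6]
      ring
    · have h5 : u i = 0 := by
        simp only [hu]
        rw [if_neg (by rw [h3]; linarith)]
      have h6 : v i = x i := by
        simp only [hv]
        rw [if_pos h3]
      rw [h5, h6, h3, e1]
      ring
    · have h5 : u i = x i := by
        simp only [hu]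
        rw [if_pos h3]
      have h6 : v i = 0 := by
        simp only [hv]
        rw [if_neg (by rw [h3]; linarith)]
      rw [h5, h6, h3, e2]
      ring
  rw [hsum] at hs
  have hle : ∑ i, u i ≤ ∑ i, v i := by
    have := nonneg_of_mul_nonneg_right hs (by linarith)
    linarith
  have hfin : ∑ i, x i * g i = ∑ i, (u i + v i) * g i :=
    Finset.sum_congr rfl fun i _ => by rw [← huv i]
  have hup : ∀ i, 0 < u i → k (3 * ω) ≤ g i := by
    intro i hi
    have c1 : σ i = 3 * ω := by
      by_contra hne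
      simp only [hu, if_neg hne] at hi
      exact lt_irrefl _ hi
    rw [← c1]
    exact hg i
  have hvp : ∀ i, 0 < v i → k ω ≤ g i := by
    intro i hi
    have c1 : σ i = ω := by
      by_contra hne
      simp only [hv, if_neg hne] at hi
      exact lt_irrefl _ hi
    rw [← c1]
    exact hg i
  have hπ : π / ρ = 2 * ω := by
    rw [hω]
    field_simp
  rw [hfin]
  refine hrs_pair hu0 hv0 hle (fun i j hi hj => ?_) (Or.inr fun j hj => ?_)
  · have e : ω + π / ρ = 3 * ω := by rw [hπ]; ring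
    have := hC ω (g j) (g i) (hvp j hj) (by rw [e]; exact hup i hi)
    linarith
  · have e : -ω + π / ρ = ω := by rw [hπ]; ring
    have := hC (-ω) (g j) (g j) (by rw [hk]; exact hvp j hj) (by rw [e]; exact hvp j hj)
    linarith

theorem hrs_one {ρ : ℝ} (h1 : 1 < ρ) (h2 : ρ < 2) {h : ℝ → EReal}
    (hper : ∀ θ, h (θ + 2 * π) = h θ) (hA : CondA 1 ρ h) (hC : CondC ρ h) : HRS 1 ρ h := by
  have hpi := Real.pi_pos
  have hρ : 0 < ρ := by linarith
  have h1' : ((1 : ℕ) : ℝ) < ρ := by simpa using h1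
  have h2' : ρ < ((1 : ℕ) : ℝ) + 1 := by push_cast; linarith
  intro n θ x g hx hg hV
  by_cases hex : ∃ (n' : ℕ) (θ' x' : Fin n' → ℝ), (∀ i, h (θ' i) ≠ ⊤) ∧ (∀ i, 0 ≤ x' i) ∧
      ∀ α ∈ TT 1, 0 < ∑ i, x' i * VV 1 ρ (θ' i - α)
  · obtain ⟨n', θ', x', a1, a2, a3⟩ := hex
    exact hrs_of_pos le_rfl h1' h2' hA hC a1 a2 a3 n θ x g hx hg hV
  have hVe : ∀ (x' : Fin n → ℝ) (α : ℝ), ∑ i, x' i * VV 1 ρ (θ i - α) =
      (-VV 1 ρ π) * ∑ i, x' i * (-G ρ (θ i - α)) := by
    intro x' α
    rw [Finset.mul_sum]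
    apply Finset.sum_congr rfl
    intro i _
    rw [VV_eq le_rfl h1' h2']
    ring
  have hVpi : 0 < -VV 1 ρ π := by linarith [VV_pi_one h1 h2]
  have hmem0 : (0 : ℝ) ∈ TT 1 := ⟨⟨le_rfl, hpi.le⟩, fun _ => Or.inl rfl⟩
  have hmemπ : π ∈ TT 1 := ⟨⟨hpi.le, le_rfl⟩, fun _ => Or.inr rfl⟩
  have hG : ¬∃ x' : Fin n → ℝ, (∀ i, 0 ≤ x' i) ∧ (0 < ∑ i, x' i * (-G ρ (θ i))) ∧
      0 < ∑ i, x' i * (-G ρ (θ i - π)) := by
    rintro ⟨x', hx', hx2, hx3⟩
    refine hex ⟨n, θ, x', fun i => ne_top_of_le_ne_top (EReal.coe_ne_top _) (hg i), hx',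
      fun α hα => ?_⟩
    rw [hVe]
    refine mul_pos hVpi ?_
    rcases hα.2 rfl with h3 | h3
    · rw [h3]
      simpa using hx2
    · rw [h3]
      exact hx3
  obtain ⟨X, Y, hX, hY, hXY, hi⟩ := hrs_gordan hG
  -- reduction
  have hred : ∀ i, ∃ t : ℝ, 0 ≤ t ∧ t ≤ π ∧ G ρ (θ i) = Real.cos (ρ * (π - t)) ∧
      G ρ (θ i - π) = Real.cos (ρ * t) ∧ h t ≤ g i := by
    intro i
    obtain ⟨m, hm1, hm2⟩ := exists_int_Ioc (θ i)
    have habs : |θ i - m * (2 * π)| ≤ π := abs_le.mpr ⟨hm1.le, hm2⟩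
    refine ⟨|θ i - m * (2 * π)|, abs_nonneg _, habs, ?_, ?_, ?_⟩
    · rw [← G_of_abs_le habs]
      have h3 := G_add_int ρ (θ i - m * (2 * π)) m
      rw [sub_add_cancel] at h3
      exact h3
    · have h4 := G_sub_pi (ρ := ρ) habs
      have h3 := G_add_int ρ (θ i - m * (2 * π) - π) m
      have e : θ i - m * (2 * π) - π + m * (2 * π) = θ i - π := by ring
      rw [e] at h3
      rw [h3, h4, ← Real.cos_abs (ρ * _), abs_mul, abs_of_pos hρ]
    · have e1 : h (θ i - m * (2 * π)) = h (θ i) := by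
        have := hrs_per hper (θ i - m * (2 * π)) m
        rw [sub_add_cancel] at this
        exact this.symm
      rcases abs_choice (θ i - m * (2 * π)) with h5 | h5
      · rw [h5, e1]
        exact hg i
      · rw [h5, condA_even hper hA, e1]
        exact hg i
  choose t ht0 htπ htG htG' hth using hred
  have hsa : 0 ≤ ∑ i, x i * (-Real.cos (ρ * (π - t i))) := by
    have h3 := hV 0 hmem0
    rw [hVe] at h3
    have h4 := nonneg_of_mul_nonneg_right h3 hVpi
    simpa only [sub_zero, htG] using h4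
  have hsb : 0 ≤ ∑ i, x i * (-Real.cos (ρ * t i)) := by
    have h3 := hV π hmemπ
    rw [hVe] at h3
    have h4 := nonneg_of_mul_nonneg_right h3 hVpi
    simpa only [htG'] using h4
  simp only [htG, htG'] at hi
  have hz : ∀ i, x i * (X * -Real.cos (ρ * (π - t i)) + Y * -Real.cos (ρ * t i)) = 0 := by
    have h4 : ∀ i ∈ Finset.univ,
        x i * (X * -Real.cos (ρ * (π - t i)) + Y * -Real.cos (ρ * t i)) ≤ 0 := fun i _ =>
      mul_nonpos_of_nonneg_of_nonpos (hx i) (hi i)
    have h5 : ∑ i, x i * (X * -Real.cos (ρ * (π - t i)) + Y * -Real.cos (ρ * t i)) =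
        X * ∑ i, x i * (-Real.cos (ρ * (π - t i))) + Y * ∑ i, x i * (-Real.cos (ρ * t i)) := by
      rw [Finset.mul_sum, Finset.mul_sum, ← Finset.sum_add_distrib]
      apply Finset.sum_congr rfl
      intro i _
      ring
    have h6 : ∑ i, x i * (X * -Real.cos (ρ * (π - t i)) + Y * -Real.cos (ρ * t i)) = 0 := by
      refine le_antisymm (Finset.sum_nonpos h4) ?_
      rw [h5]
      exact add_nonneg (mul_nonneg hX hsa) (mul_nonneg hY hsb)
    have h7 := (Finset.sum_eq_zero_iff_of_nonpos h4).1 h6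
    exact fun i => h7 i (Finset.mem_univ i)
  rcases hX.eq_or_lt with hX0 | hX0
  · -- `X = 0`
    have hY1 : Y = 1 := by linarith
    refine hrs_caseb h1 h2 (condA_even hper hA _) hC hx (fun i => ⟨ht0 i, htπ i⟩) hth
      (fun i hxi => ?_) hsa
    have h3 := hz i
    rw [← hX0, hY1, zero_mul, zero_add, one_mul, mul_eq_zero, or_iff_right hxi, neg_eq_zero] at h3
    exact h3
  rcases hY.eq_or_lt with hY0 | hY0
  · -- `Y = 0`
    have hX1 : X = 1 := by linarith
    refine hrs_caseb (k := fun θ => h (π - θ)) (σ := fun i => π - t i) h1 h2 ?_ ?_ hx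
      (fun i => ⟨by linarith [htπ i], by linarith [ht0 i]⟩) (fun i => ?_) (fun i hxi => ?_) ?_
    · show h (π - -(π / (2 * ρ))) = h (π - π / (2 * ρ))
      rw [← condA_even hper hA (π - π / (2 * ρ)), ← hper (-(π - π / (2 * ρ)))]
      congr 1
      ring
    · intro a A B hA' hB'
      have e : π - (a + π / ρ) + π / ρ = π - a := by ring
      have := hC (π - (a + π / ρ)) B A hB' (by rw [e]; exact hA')
      linarith
    · show h (π - (π - t i)) ≤ g i
      rw [sub_sub_cancel]
      exact hth i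
    · have h3 := hz i
      rw [← hY0, hX1, zero_mul, add_zero, one_mul, mul_eq_zero, or_iff_right hxi, neg_eq_zero] at h3
      exact h3
    · simpa only [sub_sub_cancel] using hsb
  · -- both positive
    by_cases hall : ∀ i, x i = 0
    · simp [hall]
    push Not at hall
    obtain ⟨i₀, hi₀⟩ := hall
    have hsin := hrs_sin_neg h1 h2
    set P : ℝ := X * Real.cos (ρ * π) + Y with hP
    set Q : ℝ := X * Real.sin (ρ * π) with hQ
    have hQ0 : Q ≠ 0 := (mul_neg_of_pos_of_neg hX0 hsin).ne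
    have ha : ∀ i, -Real.cos (ρ * (π - t i)) =
        -(Real.cos (ρ * π) * Real.cos (ρ * t i) + Real.sin (ρ * π) * Real.sin (ρ * t i)) := by
      intro i
      rw [mul_sub, Real.cos_sub]
    have hPQ : ∀ i, x i ≠ 0 → P * Real.cos (ρ * t i) + Q * Real.sin (ρ * t i) = 0 := by
      intro i hxi
      have h3 := hz i
      rw [mul_eq_zero, or_iff_right hxi, ha] at h3
      rw [hP, hQ]
      linarith
    have hsn : ∀ i, x i ≠ 0 → Real.sin (ρ * t i) * Real.cos (ρ * t i₀) -
        Real.cos (ρ * t i) * Real.sin (ρ * t i₀) = 0 := by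
      intro i hxi
      have h3 := hPQ i hxi
      have h4 := hPQ i₀ hi₀
      have h5 : Q * (Real.sin (ρ * t i) * Real.cos (ρ * t i₀) -
        Real.cos (ρ * t i) * Real.sin (ρ * t i₀)) = 0 := by
        linear_combination (Real.cos (ρ * t i₀)) * h3 - (Real.cos (ρ * t i)) * h4
      exact (mul_eq_zero.1 h5).resolve_left hQ0
    set ε : Fin n → ℝ := fun i => Real.cos (ρ * t i) * Real.cos (ρ * t i₀) +
      Real.sin (ρ * t i) * Real.sin (ρ * t i₀) with hε
    have hcs₀ := Real.sin_sq_add_cos_sq (ρ * t i₀)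
    have hc : ∀ i, x i ≠ 0 → Real.cos (ρ * t i) = ε i * Real.cos (ρ * t i₀) := by
      intro i hxi
      have h3 := hsn i hxi
      rw [hε]
      simp only
      linear_combination (-Real.cos (ρ * t i)) * hcs₀ - Real.sin (ρ * t i₀) * h3
    have hsi : ∀ i, x i ≠ 0 → Real.sin (ρ * t i) = ε i * Real.sin (ρ * t i₀) := by
      intro i hxi
      have h3 := hsn i hxi
      rw [hε]
      simp only
      linear_combination (-Real.sin (ρ * t i)) * hcs₀ + Real.cos (ρ * t i₀) * h3
    have hε1 : ∀ i, x i ≠ 0 → ε i = 1 ∨ ε i = -1 := by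
      intro i hxi
      have h3 := hsn i hxi
      have h4 := Real.sin_sq_add_cos_sq (ρ * t i)
      have h5 : ε i ^ 2 = 1 := by
        have h6 := hc i hxi
        have h7 := hsi i hxi
        calc ε i ^ 2 = ε i ^ 2 * (Real.sin (ρ * t i₀) ^ 2 + Real.cos (ρ * t i₀) ^ 2) := by
              rw [hcs₀, mul_one]
          _ = (ε i * Real.sin (ρ * t i₀)) ^ 2 + (ε i * Real.cos (ρ * t i₀)) ^ 2 := by ring
          _ = 1 := by rw [← h6, ← h7]; exact h4
      have h8 : (ε i - 1) * (ε i + 1) = 0 := by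
        linear_combination h5
      rcases mul_eq_zero.1 h8 with h9 | h9
      · exact Or.inl (by linarith)
      · exact Or.inr (by linarith)
    set a₀ : ℝ := -Real.cos (ρ * (π - t i₀)) with ha₀
    set b₀ : ℝ := -Real.cos (ρ * t i₀) with hb₀
    have hab : X * a₀ + Y * b₀ = 0 := by
      have h3 := hz i₀
      rw [mul_eq_zero, or_iff_right hi₀] at h3
      exact h3
    have hb0 : b₀ ≠ 0 := by
      intro h3
      have h4 : Real.cos (ρ * t i₀) = 0 := by linarith
      have h5 := hPQ i₀ hi₀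
      rw [h4, mul_zero, zero_add] at h5
      have h6 := (mul_eq_zero.1 h5).resolve_left hQ0
      rw [h4, h6] at hcs₀
      norm_num at hcs₀
    have hab2 : a₀ * b₀ < 0 := by
      have h3 : X * (a₀ * b₀) = -(Y * b₀ ^ 2) := by
        linear_combination b₀ * hab
      have h4 : 0 < Y * b₀ ^ 2 := by positivity
      by_contra hcon
      push Not at hcon
      have := mul_nonneg hX0.le hcon
      linarith
    have hai : ∀ i, x i ≠ 0 → -Real.cos (ρ * (π - t i)) = ε i * a₀ := by
      intro i hxi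
      have h3 := hc i hxi
      have h4 := hsi i hxi
      rw [ha i, ha₀, ha i₀]
      linear_combination (-Real.cos (ρ * π)) * h3 - Real.sin (ρ * π) * h4
    set E : ℝ := ∑ i, x i * ε i with hE
    have hsa2 : ∑ i, x i * (-Real.cos (ρ * (π - t i))) = a₀ * E := by
      rw [hE, Finset.mul_sum]
      apply Finset.sum_congr rfl
      intro i _
      by_cases hxi : x i = 0
      · rw [hxi]; ring
      · rw [hai i hxi]; ring
    have hsb2 : ∑ i, x i * (-Real.cos (ρ * t i)) = b₀ * E := by
      rw [hE, Finset.mul_sum]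
      apply Finset.sum_congr rfl
      intro i _
      by_cases hxi : x i = 0
      · rw [hxi]; ring
      · rw [hc i hxi, hb₀]; ring
    rw [hsa2] at hsa
    rw [hsb2] at hsb
    have hE0 : E = 0 := by
      have h3 := mul_nonneg hsa hsb
      by_contra hne
      have h4 : 0 < E ^ 2 := by positivity
      have h5 : a₀ * E * (b₀ * E) = (a₀ * b₀) * E ^ 2 := by ring
      have h6 := mul_neg_of_neg_of_pos hab2 h4
      linarith
    set u : Fin n → ℝ := fun i => if ε i = 1 then x i else 0 with hu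
    set v : Fin n → ℝ := fun i => if ε i = 1 then 0 else x i with hv
    have huv : ∀ i, x i = u i + v i := by
      intro i
      simp only [hu, hv]
      split_ifs <;> ring
    have hu0 : ∀ i, 0 ≤ u i := fun i => by
      simp only [hu]
      split_ifs
      · exact hx i
      · exact le_rfl
    have hv0 : ∀ i, 0 ≤ v i := fun i => by
      simp only [hv]
      split_ifs
      · exact le_rfl
      · exact hx i
    have hxe : ∀ i, x i * ε i = u i - v i := by
      intro i
      by_cases hxi : x i = 0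
      · have h3 := huv i
        have h5 : u i = 0 := le_antisymm (by linarith [hv0 i]) (hu0 i)
        have h6 : v i = 0 := by linarith
        rw [hxi, h5, h6]
        ring
      · rcases hε1 i hxi with h3 | h3
        · have h5 : u i = x i := by
            simp only [hu]
            rw [if_pos h3]
          have h6 : v i = 0 := by
            simp only [hv]
            rw [if_pos h3]
          rw [h5, h6, h3]
          ring
        · have hne : ¬ε i = 1 := by rw [h3]; norm_num
          have h5 : u i = 0 := by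
            simp only [hu]
            rw [if_neg hne]
          have h6 : v i = x i := by
            simp only [hv]
            rw [if_neg hne]
          rw [h5, h6, h3]
          ring
    have heq : ∑ i, u i = ∑ i, v i := by
      have h3 : E = ∑ i, u i - ∑ i, v i := by
        rw [hE, ← Finset.sum_sub_distrib]
        exact Finset.sum_congr rfl fun i _ => hxe i
      linarith
    have hπ2 : ρ * (π / ρ) = π := by field_simp
    have hfin : ∑ i, x i * g i = ∑ i, (u i + v i) * g i :=
      Finset.sum_congr rfl fun i _ => by rw [← huv i]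
    rw [hfin]
    refine hrs_pair hu0 hv0 heq.le (fun i j hi hj => ?_) (Or.inl heq)
    have hei : ε i = 1 := by
      by_contra hne
      simp only [hu, if_neg hne] at hi
      exact lt_irrefl _ hi
    have hxi : x i ≠ 0 := by
      simp only [hu, if_pos hei] at hi
      exact hi.ne'
    have hej' : ¬ε j = 1 := by
      intro hj1
      simp only [hv, if_pos hj1] at hj
      exact lt_irrefl _ hj
    have hxj : x j ≠ 0 := by
      simp only [hv, if_neg hej'] at hj
      exact hj.ne'
    have hej : ε j = -1 := (hε1 j hxj).resolve_left hej'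
    have hcos : Real.cos (ρ * t i - ρ * t j) = -1 := by
      rw [Real.cos_sub, hc i hxi, hc j hxj, hsi i hxi, hsi j hxj, hei, hej]
      linear_combination -hcs₀
    have habs : |ρ * t i - ρ * t j| < 2 * π := by
      rw [← mul_sub, abs_mul, abs_of_pos hρ]
      have h3 : |t i - t j| ≤ π := by
        rw [abs_le]
        constructor <;> linarith [ht0 i, ht0 j, htπ i, htπ j]
      have h4 : ρ * |t i - t j| ≤ ρ * π := mul_le_mul_of_nonneg_left h3 hρ.le
      nlinarith
    rcases hrs_cos_neg_one habs hcos with h3 | h3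
    · have e : t j + π / ρ = t i := by
        apply mul_left_cancel₀ hρ.ne'
        rw [mul_add, hπ2]
        linarith
      have := hC (t j) (g j) (g i) (hth j) (by rw [e]; exact hth i)
      linarith
    · have e : t i + π / ρ = t j := by
        apply mul_left_cancel₀ hρ.ne'
        rw [mul_add, hπ2]
        linarith
      exact hC (t i) (g i) (g j) (hth i) (by rw [e]; exact hth j)

end HBInf
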