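import Pool.Agent.HBInf.ExistsPot
import Pool.Agent.HBInf.HRS
import Pool.Agent.HBInf.TrigE
import Pool.Agent.HBInf.GlueW

/-!
# The sequence of windows

`D = {h ≠ ⊤}`, `2π`-periodic. `H1` is the condition `HRS`, `H2` the domination inequality (for `p = 1` at `θ₀ ∈ πℤ` only
if `θ₀` is not interior in `D`).

Let `Q ⊆ D` be countable with: `D \ interior D ⊆ Q` (`condT_countable`), `Q` dense in `interior D`, and if `p = 1`,
`sin q ≠ 0` for `q ∈ Q ∩ interior D` (a countable dense subset of the open set `interior D`, minus the countable set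
`πℤ`, which is nowhere dense). Enumerate `Q` (if `Q` is empty there is nothing to control): `q_0, q_1, ...` (a surjection
`ℕ → Q`, or use `Encodable`; finite `Q` with repetitions). Bounds: `g_i^l = h q_i + 1/(l+1)` if `h q_i` is real, `-l` if
`h q_i = ⊥`; `h q_i < g_i^l` and `g_i^l` decreases to `h q_i`. `{h = ⊤} = ⋃_l K_l`, `K_l` compact, increasing
(`condT_sigma`). For the level `l` and a target `(θ₀, M)` with `M < h θ₀` (real `M`), `θ₀ ∈ Q` or `h θ₀ = ⊤`: `exists_pot` with the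
rays `q_i`, `i < l`, `g_i = g_i^l`, `g'_i` between `h q_i` and `g_i^l`, `M < M' < h θ₀`: `H1`, `H2` hold by hypothesis (if
`h θ₀ = ⊤`, `H2` says that there is no domination at all). It gives a window `(α, c)` with `wpot t q_i < g_i^l` for all
`t`, `i < l`, and `wpot 0 θ₀ > M`; for the targets in `K_l` this holds in a neighbourhood of `θ₀` (`wpot 0 θ` is continuous
in `θ`: `kn_l1` with `v = 0`, `c` bounded; it is also `2π`-periodic). Level `l`: the finitely many windows for the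
targets `(q_i, h q_i - 1/(l+1))`, `i < l`, `h q_i` real, and finitely many windows for `M = l` whose neighbourhoods
cover `K_l`. Infinitely many levels are not empty: `hne` gives `θ` with `0 < h θ`; either `h θ = ⊤`, or `θ ∈ Q`, or
`θ ∈ interior D` and `h > 0` near `θ` (`condT_lsc`), so `h q > 0` for some `q ∈ Q`. So the (sigma type of the) windows of all levels
is countably infinite; enumerate it by `ℕ` bijectively: the level of the `j`-th window tends to `∞`.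
-/

namespace HBInf

open HBInd Complex Filter Topology Set MeasureTheory
open scoped Real ComplexConjugate

/-- a window -/
structure WinD (p : ℕ) where
  n : ℕ
  α : Fin n → ℝ
  c : Fin n → ℝ → ℝ
  D : ℝ
  hα : ∀ i, α i ∈ TT p
  hc : ∀ i, Continuous (c i)
  hD : ∀ i t, 0 ≤ c i t ∧ c i t ≤ D

lemma wsq_int {p : ℕ} (hp : p ≤ 1) {ρ : ℝ} (h1 : (p : ℝ) < ρ) (h2 : ρ < p + 1) {c : ℝ → ℝ}
    (hc : Continuous c) {D : ℝ} (hD : ∀ t, 0 ≤ c t ∧ c t ≤ D) (ψ : ℝ) :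
    Integrable fun u => kn p ρ u ψ * c (0 - u) := by
  refine (integrable_kn hp h1 h2 ψ).mul_bdd (c := D)
    (hc.comp (continuous_const.sub continuous_id)).aestronglyMeasurable (ae_of_all _ fun u => ?_)
  rw [Real.norm_of_nonneg (hD _).1]
  exact (hD _).2

lemma wsq_cont {p : ℕ} (hp : p ≤ 1) {ρ : ℝ} (h1 : (p : ℝ) < ρ) (h2 : ρ < p + 1) (w : WinD p) :
    Continuous fun θ => wpot p ρ w.α w.c 0 θ := by
  unfold wpot
  refine continuous_finsetSum _ fun i _ => ?_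
  obtain ⟨C, hC, hl⟩ := kn_l1 hp h1 h2
  have hD0 : 0 ≤ w.D := (w.hD i 0).1.trans (w.hD i 0).2
  rw [continuous_iff_continuousAt]
  intro θ
  have hb : ∀ᶠ θ' in 𝓝 θ, ‖(∫ u, kn p ρ u (θ' - w.α i) * w.c i (0 - u)) -
      ∫ u, kn p ρ u (θ - w.α i) * w.c i (0 - u)‖ ≤ w.D * (C * √(|θ' - θ|)) := by
    have e : ∀ᶠ θ' in 𝓝 θ, |θ' - θ| < 1 / 4 := by
      have hc : Continuous fun t : ℝ => |t - θ| := by fun_prop
      refine hc.continuousAt.eventually_lt continuousAt_const ?_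
      rw [sub_self, abs_zero]
      norm_num
    filter_upwards [e] with θ' hθ'
    rw [← integral_sub (wsq_int hp h1 h2 (w.hc i) (w.hD i) _)
      (wsq_int hp h1 h2 (w.hc i) (w.hD i) _)]
    have h3 := hl 0 (θ - w.α i) (θ' - w.α i) (by
      rw [abs_zero, zero_add, sub_sub_sub_cancel_right]; exact hθ'.le)
    rw [abs_zero, zero_add, sub_sub_sub_cancel_right] at h3
    simp only [add_zero] at h3
    have hi : Integrable fun u => |kn p ρ u (θ' - w.α i) - kn p ρ u (θ - w.α i)| :=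
      ((integrable_kn hp h1 h2 _).sub (integrable_kn hp h1 h2 _)).abs
    calc ‖∫ u, (kn p ρ u (θ' - w.α i) * w.c i (0 - u) - kn p ρ u (θ - w.α i) * w.c i (0 - u))‖ ≤
        ∫ u, w.D * |kn p ρ u (θ' - w.α i) - kn p ρ u (θ - w.α i)| := by
          refine norm_integral_le_of_norm_le (hi.const_mul _) (ae_of_all _ fun u => ?_)
          rw [← sub_mul, norm_mul, Real.norm_eq_abs, Real.norm_of_nonneg (w.hD i _).1, mul_comm]
          exact mul_le_mul_of_nonneg_right (w.hD i _).2 (abs_nonneg _)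
      _ = w.D * ∫ u, |kn p ρ u (θ' - w.α i) - kn p ρ u (θ - w.α i)| := integral_const_mul _ _
      _ ≤ w.D * (C * √(|θ' - θ|)) := mul_le_mul_of_nonneg_left h3 hD0
  have ht : Tendsto (fun θ' : ℝ => w.D * (C * √(|θ' - θ|))) (𝓝 θ) (𝓝 0) := by
    have hc : Continuous fun θ' : ℝ => w.D * (C * √(|θ' - θ|)) := by fun_prop
    have := hc.tendsto θ
    simpa using this
  exact tendsto_sub_nhds_zero_iff.1 (squeeze_zero_norm' hb ht)

/-- the countable set of the controlled rays -/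
lemma wsq_Q {ρ : ℝ} (hρ : 0 < ρ) {h : ℝ → EReal} (hT : CondT ρ h) :
    ∃ Q : Set ℝ, Q.Countable ∧ Q ⊆ {t | h t ≠ ⊤} ∧
      {t | h t ≠ ⊤} \ interior {t | h t ≠ ⊤} ⊆ Q ∧
      (∀ a b : ℝ, a < b → Ioo a b ⊆ {t | h t ≠ ⊤} → (Q ∩ Ioo a b).Nonempty) ∧
      ∀ θ ∈ Q, Real.sin θ ≠ 0 ∨ {t | h t ≠ ⊤} ∉ 𝓝 θ := by
  set D : Set ℝ := {t | h t ≠ ⊤} with hD
  have key : ∀ a b : ℝ, a < b → Ioo a b ⊆ D →
      ∃ r : ℚ, r ≠ 0 ∧ (r : ℝ) ∈ Ioo a b ∧ (r : ℝ) ∈ interior D := by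
    intro a b hab hs
    obtain ⟨r, hr1, hr2⟩ := exists_rat_btwn hab
    have hint : ∀ x ∈ Ioo a b, x ∈ interior D := fun x hx =>
      mem_interior.2 ⟨Ioo a b, hs, isOpen_Ioo, hx⟩
    by_cases h0 : r = 0
    · rw [h0, Rat.cast_zero] at hr1 hr2
      obtain ⟨r', hr'1, hr'2⟩ := exists_rat_btwn hr2
      refine ⟨r', ?_, ⟨hr1.trans hr'1, hr'2⟩, hint _ ⟨hr1.trans hr'1, hr'2⟩⟩
      have : (0 : ℚ) < r' := by exact_mod_cast hr'1
      exact this.ne'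
    · exact ⟨r, h0, ⟨hr1, hr2⟩, hint _ ⟨hr1, hr2⟩⟩
  refine ⟨(D \ interior D) ∪ {x | x ∈ interior D ∧ ∃ r : ℚ, r ≠ 0 ∧ (r : ℝ) = x}, ?_, ?_,
    subset_union_left, ?_, ?_⟩
  · refine (condT_countable hρ hT).union ((countable_range (fun r : ℚ => (r : ℝ))).mono ?_)
    rintro x ⟨-, r, -, hr⟩
    exact ⟨r, hr⟩
  · rintro x (hx | hx)
    · exact hx.1
    · exact interior_subset hx.1
  · intro a b hab hs
    obtain ⟨r, hr0, hr, hri⟩ := key a b hab hs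
    exact ⟨r, Or.inr ⟨hri, r, hr0, rfl⟩, hr⟩
  · rintro x (hx | ⟨-, r, hr0, rfl⟩)
    · right
      rw [← mem_interior_iff_mem_nhds]
      exact hx.2
    · left
      intro hs
      rw [Real.sin_eq_zero_iff] at hs
      obtain ⟨k, hk⟩ := hs
      have hk0 : (k : ℝ) ≠ 0 := by
        intro h0
        rw [h0, zero_mul] at hk
        exact hr0 (by exact_mod_cast hk.symm)
      have : π = ((r / k : ℚ) : ℝ) := by
        push_cast
        field_simp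
        rw [← hk]
        ring
      exact irrational_pi ⟨_, this.symm⟩

/-- the upper bounds of the level `l` -/
noncomputable def wsq_gb (h : ℝ → EReal) (l : ℕ) (x : ℝ) : ℝ :=
  if h x = ⊥ then -(l : ℝ) else (h x).toReal + 1 / ((l : ℝ) + 1)

lemma wsq_gb_gt {h : ℝ → EReal} {x : ℝ} (hx : h x ≠ ⊤) (l : ℕ) : h x < (wsq_gb h l x : EReal) := by
  unfold wsq_gb
  split_ifs with hb
  · rw [hb]
    exact EReal.bot_lt_coe _
  · have e : h x = ((h x).toReal : EReal) := (EReal.coe_toReal hx hb).symm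
    have h0 : (0 : ℝ) < 1 / ((l : ℝ) + 1) := by positivity
    calc h x = ((h x).toReal : EReal) := e
      _ < (((h x).toReal + 1 / ((l : ℝ) + 1) : ℝ) : EReal) := by
          exact_mod_cast (by linarith : (h x).toReal < (h x).toReal + 1 / ((l : ℝ) + 1))

lemma wsq_gb_lt {h : ℝ → EReal} {x g : ℝ} (hx : h x ≠ ⊤) (hg : h x < g) :
    ∀ᶠ l : ℕ in atTop, wsq_gb h l x < g := by
  unfold wsq_gb
  split_ifs with hb
  · have := (tendsto_natCast_atTop_atTop (R := ℝ)).eventually_gt_atTop (-g)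
    filter_upwards [this] with l hl
    linarith
  · have e : h x = ((h x).toReal : EReal) := (EReal.coe_toReal hx hb).symm
    rw [e] at hg
    have hg' : (h x).toReal < g := by exact_mod_cast hg
    have ht : Tendsto (fun l : ℕ => (h x).toReal + 1 / ((l : ℝ) + 1)) atTop
        (𝓝 ((h x).toReal + 0)) := tendsto_const_nhds.add tendsto_one_div_add_atTop_nhds_zero_nat
    rw [add_zero] at ht
    exact ht.eventually_lt_const hg'

/-- a window for one target -/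
lemma wsq_win {p : ℕ} (hp : p ≤ 1) {ρ : ℝ} (h1 : (p : ℝ) < ρ) (h2 : ρ < p + 1)
    {h : ℝ → EReal} (H1 : HRS p ρ h)
    (H2 : ∀ (n : ℕ) (θ : Fin n → ℝ) (m : Fin n → Measure ℝ) (g : Fin n → ℝ) (θ₀ : ℝ),
      (∀ i, IsFiniteMeasure (m i)) → (∀ i, h (θ i) ≤ g i) →
      (p = 1 → Real.sin θ₀ ≠ 0 ∨ {t | h t ≠ ⊤} ∉ 𝓝 θ₀) →
      Dom p ρ θ m θ₀ → h θ₀ ≤ ((∑ i, (m i).real univ * g i : ℝ) : EReal))
    {n : ℕ} {θ g : Fin n → ℝ} (hg : ∀ i, h (θ i) < g i) {θ₀ M : ℝ}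
    (hθ₀ : p = 1 → Real.sin θ₀ ≠ 0 ∨ {t | h t ≠ ⊤} ∉ 𝓝 θ₀) (hM : (M : EReal) < h θ₀) :
    ∃ w : WinD p, (∀ i t, wpot p ρ w.α w.c t (θ i) ≤ g i) ∧ M < wpot p ρ w.α w.c 0 θ₀ := by
  obtain ⟨M', hM1, hM2⟩ := EReal.exists_between_coe_real hM
  have hgg : ∀ i, ∃ z : ℝ, h (θ i) < z ∧ (z : EReal) < g i := fun i =>
    EReal.exists_between_coe_real (hg i)
  choose g' hg'1 hg'2 using hgg
  obtain ⟨k, α, c, B, hα, hc, hcB, hlt, hgt⟩ := exists_pot hp h1 h2 (θ := θ) (g := g) (g' := g')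
    (θ₀ := θ₀) (M := M) (M' := M') (fun i => by exact_mod_cast hg'2 i) (by exact_mod_cast hM1)
    (fun x hx hxa => H1 n θ x g' hx (fun i => (hg'1 i).le) hxa)
    (fun m hm hd => by
      have := hM2.le.trans (H2 n θ m g' θ₀ hm (fun i => (hg'1 i).le) hθ₀ hd)
      exact_mod_cast this)
  exact ⟨⟨k, α, c, B, hα, hc, hcB⟩, fun i t => (hlt i t).le, hgt⟩

/-- the windows of one level -/
lemma wsq_level {p : ℕ} (hp : p ≤ 1) {ρ : ℝ} (h1 : (p : ℝ) < ρ) (h2 : ρ < p + 1)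
    {h : ℝ → EReal} (H1 : HRS p ρ h)
    (H2 : ∀ (n : ℕ) (θ : Fin n → ℝ) (m : Fin n → Measure ℝ) (g : Fin n → ℝ) (θ₀ : ℝ),
      (∀ i, IsFiniteMeasure (m i)) → (∀ i, h (θ i) ≤ g i) →
      (p = 1 → Real.sin θ₀ ≠ 0 ∨ {t | h t ≠ ⊤} ∉ 𝓝 θ₀) →
      Dom p ρ θ m θ₀ → h θ₀ ≤ ((∑ i, (m i).real univ * g i : ℝ) : EReal))
    {N : ℕ} {q : ℕ → ℝ} (hq : ∀ i < N, h (q i) ≠ ⊤)
    (hqs : ∀ i < N, Real.sin (q i) ≠ 0 ∨ {t | h t ≠ ⊤} ∉ 𝓝 (q i)) (l : ℕ) {K : Set ℝ}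
    (hK : IsCompact K) (hKT : K ⊆ {t | h t = ⊤}) {θs Ms : ℝ}
    (hθs : p = 1 → Real.sin θs ≠ 0 ∨ {t | h t ≠ ⊤} ∉ 𝓝 θs) (hMs : (Ms : EReal) < h θs) :
    ∃ F : Set (WinD p), F.Finite ∧ F.Nonempty ∧
      (∀ w ∈ F, ∀ i < N, ∀ t, wpot p ρ w.α w.c t (q i) ≤ wsq_gb h l (q i)) ∧
      (∀ i < N, h (q i) ≠ ⊥ → ∃ w ∈ F,
        (h (q i)).toReal - 1 / ((l : ℝ) + 1) ≤ wpot p ρ w.α w.c 0 (q i)) ∧
      ∀ θ ∈ K, ∃ w ∈ F, (l : ℝ) ≤ wpot p ρ w.α w.c 0 θ := by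
  -- the valid windows
  set V : Set (WinD p) := {w | ∀ i < N, ∀ t, wpot p ρ w.α w.c t (q i) ≤ wsq_gb h l (q i)} with hV
  have hwin : ∀ θ₀ M : ℝ, (p = 1 → Real.sin θ₀ ≠ 0 ∨ {t | h t ≠ ⊤} ∉ 𝓝 θ₀) →
      (M : EReal) < h θ₀ → ∃ w ∈ V, M < wpot p ρ w.α w.c 0 θ₀ := by
    intro θ₀ M hs hM
    obtain ⟨w, hw1, hw2⟩ := wsq_win hp h1 h2 H1 H2 (n := N) (θ := fun i => q i)
      (g := fun i => wsq_gb h l (q i)) (fun i => wsq_gb_gt (hq i i.2) l) hs hM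
    exact ⟨w, fun i hi t => hw1 ⟨i, hi⟩ t, hw2⟩
  obtain ⟨ws, hwsV, -⟩ := hwin θs Ms hθs hMs
  have hW : ∀ i, ∃ w ∈ V, i < N → h (q i) ≠ ⊥ →
      (h (q i)).toReal - 1 / ((l : ℝ) + 1) ≤ wpot p ρ w.α w.c 0 (q i) := by
    intro i
    by_cases hi : i < N ∧ h (q i) ≠ ⊥
    · have e : h (q i) = ((h (q i)).toReal : EReal) := (EReal.coe_toReal (hq i hi.1) hi.2).symm
      have h0 : (0 : ℝ) < 1 / ((l : ℝ) + 1) := by positivity
      obtain ⟨w, hwV, hw⟩ := hwin (q i) ((h (q i)).toReal - 1 / ((l : ℝ) + 1))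
        (fun _ => hqs i hi.1) (by
          calc (((h (q i)).toReal - 1 / ((l : ℝ) + 1) : ℝ) : EReal) < ((h (q i)).toReal : EReal) := by
                exact_mod_cast (by linarith :
                  (h (q i)).toReal - 1 / ((l : ℝ) + 1) < (h (q i)).toReal)
            _ = h (q i) := e.symm)
      exact ⟨w, hwV, fun _ _ => hw.le⟩
    · exact ⟨ws, hwsV, fun h3 h4 => absurd ⟨h3, h4⟩ hi⟩
  choose W hWV hWq using hW
  obtain ⟨F₃, hF₃V, hF₃fin, hF₃K⟩ := hK.elim_finite_subcover_image (b := V)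
    (c := fun w => {θ | (l : ℝ) < wpot p ρ w.α w.c 0 θ})
    (fun w _ => isOpen_lt continuous_const (wsq_cont hp h1 h2 w)) (by
      intro θ hθ
      have hθT : h θ = ⊤ := hKT hθ
      obtain ⟨w, hwV, hw⟩ := hwin θ l (fun _ => Or.inr fun hn => by
          have := mem_of_mem_nhds hn
          exact this hθT) (by rw [hθT]; exact EReal.coe_lt_top _)
      exact mem_biUnion hwV hw)
  refine ⟨insert ws (W '' Iio N ∪ F₃), ?_, ⟨ws, mem_insert _ _⟩, ?_, ?_, ?_⟩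
  · exact (((finite_Iio N).image W).union hF₃fin).insert ws
  · rintro w (rfl | ⟨i, -, rfl⟩ | hw)
    · exact hwsV
    · exact hWV i
    · exact hF₃V hw
  · intro i hi hb
    exact ⟨W i, Or.inr (Or.inl ⟨i, hi, rfl⟩), hWq i hi hb⟩
  · intro θ hθ
    obtain ⟨w, hw, hw2⟩ := mem_iUnion₂.1 (hF₃K hθ)
    exact ⟨w, Or.inr (Or.inr hw), (show (l : ℝ) < _ from hw2).le⟩

theorem exists_winSeq {p : ℕ} (hp : p ≤ 1) {ρ : ℝ} (h1 : (p : ℝ) < ρ) (h2 : ρ < p + 1)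
    {h : ℝ → EReal} (hper : ∀ θ, h (θ + 2 * π) = h θ) (hT : CondT ρ h) (H1 : HRS p ρ h)
    (H2 : ∀ (n : ℕ) (θ : Fin n → ℝ) (m : Fin n → Measure ℝ) (g : Fin n → ℝ) (θ₀ : ℝ),
      (∀ i, IsFiniteMeasure (m i)) → (∀ i, h (θ i) ≤ g i) →
      (p = 1 → Real.sin θ₀ ≠ 0 ∨ {t | h t ≠ ⊤} ∉ 𝓝 θ₀) →
      Dom p ρ θ m θ₀ → h θ₀ ≤ ((∑ i, (m i).real univ * g i : ℝ) : EReal))
    (hne : ∃ θ, 0 < h θ) :
    ∃ (n : ℕ → ℕ) (α : (j : ℕ) → Fin (n j) → ℝ) (c : (j : ℕ) → Fin (n j) → ℝ → ℝ) (D : ℕ → ℝ)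
      (Q : Set ℝ), (∀ j i, α j i ∈ TT p) ∧ (∀ j i, Continuous (c j i)) ∧
      (∀ j i t, 0 ≤ c j i t ∧ c j i t ≤ D j) ∧ Q ⊆ {t | h t ≠ ⊤} ∧
      {t | h t ≠ ⊤} \ interior {t | h t ≠ ⊤} ⊆ Q ∧
      (∀ a b : ℝ, a < b → Ioo a b ⊆ {t | h t ≠ ⊤} → (Q ∩ Ioo a b).Nonempty) ∧
      (∀ θ ∈ Q, ∀ g : ℝ, h θ < g → ∀ᶠ j in atTop, ∀ t, wpot p ρ (α j) (c j) t θ ≤ g) ∧
      ∀ θ, (θ ∈ Q ∨ h θ = ⊤) → ∀ M : ℝ, (M : EReal) < h θ →
        ∃ᶠ j in atTop, M ≤ wpot p ρ (α j) (c j) 0 θ := by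
  have hρ : 0 < ρ := lt_of_le_of_lt (Nat.cast_nonneg p) h1
  obtain ⟨Q, hQc, hQD, hQ1, hQ2, hQs⟩ := wsq_Q hρ hT
  -- the enumeration
  obtain ⟨N, q, hNq, hqN⟩ : ∃ (N : ℕ → ℕ) (q : ℕ → ℝ), (∀ l, ∀ i < N l, q i ∈ Q) ∧
      ∀ x ∈ Q, ∃ i, q i = x ∧ ∀ᶠ l in atTop, i < N l := by
    rcases Q.eq_empty_or_nonempty with he | hne'
    · refine ⟨fun _ => 0, fun _ => 0, fun l i hi => absurd hi (Nat.not_lt_zero i), fun x hx => ?_⟩
      rw [he] at hx
      exact absurd hx (notMem_empty x)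
    · obtain ⟨q, hq⟩ := hQc.exists_eq_range hne'
      refine ⟨fun l => l, q, fun l i _ => ?_, fun x hx => ?_⟩
      · rw [hq]; exact mem_range_self i
      · rw [hq] at hx
        obtain ⟨i, hi⟩ := hx
        exact ⟨i, hi, eventually_gt_atTop i⟩
  -- the target that is always there
  obtain ⟨θs, Ms, hθs, hMs⟩ : ∃ θs Ms : ℝ, (Real.sin θs ≠ 0 ∨ {t | h t ≠ ⊤} ∉ 𝓝 θs) ∧
      (Ms : EReal) < h θs := by
    obtain ⟨θ, hθ⟩ := hne
    by_cases hθT : h θ = ⊤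
    · exact ⟨θ, 0, Or.inr fun hn => (mem_of_mem_nhds hn) hθT, by exact_mod_cast hθ⟩
    by_cases hθQ : θ ∈ Q
    · exact ⟨θ, 0, hQs θ hθQ, by exact_mod_cast hθ⟩
    have hi : θ ∈ interior {t | h t ≠ ⊤} := by
      by_contra hcon
      exact hθQ (hQ1 ⟨hθT, hcon⟩)
    have hn : {t | h t ≠ ⊤} ∈ 𝓝 θ := mem_interior_iff_mem_nhds.1 hi
    have e1 := condT_lsc hρ hT hn (g := 0) (by exact_mod_cast hθ)
    obtain ⟨a, b, hab, hsub⟩ := mem_nhds_iff_exists_Ioo_subset.1 (Filter.inter_mem hn e1)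
    obtain ⟨x, hxQ, hx⟩ := hQ2 a b (hab.1.trans hab.2) fun t ht => (hsub ht).1
    exact ⟨x, 0, hQs x hxQ, (hsub hx).2⟩
  -- the compact sets
  obtain ⟨K, hKc, hKU⟩ := condT_sigma hρ hT
  have hKl : ∀ l, IsCompact (⋃ k ∈ Iic l, K k) := fun l =>
    (finite_Iic l).isCompact_biUnion fun k _ => hKc k
  have hKT : ∀ l, (⋃ k ∈ Iic l, K k) ⊆ {t | h t = ⊤} := fun l => by
    rw [← hKU]
    exact iUnion₂_subset fun k _ => subset_iUnion K k
  have hlev := fun l => wsq_level hp h1 h2 H1 H2 (N := N l) (q := q)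
    (fun i hi => hQD (hNq l i hi)) (fun i hi => hQs _ (hNq l i hi)) l (hKl l) (hKT l)
    (fun _ => hθs) hMs
  choose F hFfin hFne hFV hFq hFK using hlev
  have : ∀ l, Finite (F l) := fun l => (hFfin l).to_subtype
  let ι := Σ l : ℕ, (F l)
  have : Infinite ι := Infinite.of_injective
    (fun l => (⟨l, ⟨(hFne l).some, (hFne l).some_mem⟩⟩ : ι)) fun a b hab => congrArg Sigma.fst hab
  obtain ⟨dι⟩ := nonempty_denumerable ι
  let e : ℕ ≃ ι := (Denumerable.eqv ι).symm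
  have hlevt : Tendsto (fun j => (e j).1) atTop atTop := by
    rw [← Nat.cofinite_eq_atTop]
    have h3 : Tendsto (fun x : ι => x.1) cofinite cofinite := by
      refine Tendsto.cofinite_of_finite_preimage_singleton fun l => ?_
      refine Set.Finite.subset (Set.finite_range (fun w : F l => (⟨l, w⟩ : ι))) ?_
      rintro ⟨l', w⟩ hl'
      have : l' = l := hl'
      subst this
      exact ⟨w, rfl⟩
    exact h3.comp e.injective.tendsto_cofinite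
  refine ⟨fun j => (e j).2.1.n, fun j => (e j).2.1.α, fun j => (e j).2.1.c,
    fun j => (e j).2.1.D, Q, fun j => (e j).2.1.hα, fun j => (e j).2.1.hc,
    fun j => (e j).2.1.hD, hQD, hQ1, hQ2, ?_, ?_⟩
  · intro θ hθ g hg
    obtain ⟨i, rfl, hi⟩ := hqN θ hθ
    filter_upwards [hlevt.eventually (hi.and (wsq_gb_lt (hQD hθ) hg))] with j hj t
    exact (hFV _ _ (e j).2.2 i hj.1 t).trans hj.2.le
  · intro θ hθ M hM
    -- the windows of all large levels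
    have hw : ∀ᶠ l in atTop, ∃ w ∈ F l, M ≤ wpot p ρ w.α w.c 0 θ := by
      rcases hθ with hθ | hθ
      · obtain ⟨i, rfl, hi⟩ := hqN θ hθ
        have hb : h (q i) ≠ ⊥ := (bot_le.trans_lt hM).ne'
        have ereal : h (q i) = ((h (q i)).toReal : EReal) := (EReal.coe_toReal (hQD hθ) hb).symm
        rw [ereal] at hM
        have hM' : M < (h (q i)).toReal := by exact_mod_cast hM
        have ht : Tendsto (fun l : ℕ => (h (q i)).toReal - 1 / ((l : ℝ) + 1)) atTop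
            (𝓝 ((h (q i)).toReal - 0)) :=
          tendsto_const_nhds.sub tendsto_one_div_add_atTop_nhds_zero_nat
        rw [sub_zero] at ht
        filter_upwards [hi, ht.eventually_const_lt hM'] with l hl1 hl2
        obtain ⟨w, hwF, hw⟩ := hFq l i hl1 hb
        exact ⟨w, hwF, hl2.le.trans hw⟩
      · have hθU : θ ∈ ⋃ k, K k := by rw [hKU]; exact hθ
        obtain ⟨k, hk⟩ := mem_iUnion.1 hθU
        filter_upwards [eventually_ge_atTop k,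
          (tendsto_natCast_atTop_atTop (R := ℝ)).eventually_ge_atTop M] with l hl1 hl2
        obtain ⟨w, hwF, hw⟩ := hFK l θ (mem_biUnion (show k ∈ Iic l from hl1) hk)
        exact ⟨w, hwF, hl2.trans hw⟩
    rw [frequently_atTop]
    intro a
    obtain ⟨l₀, hl₀⟩ := eventually_atTop.1 hw
    set L := (Finset.range a).sup fun j => (e j).1 with hL
    obtain ⟨w, hwF, hw⟩ := hl₀ (max l₀ (L + 1)) (le_max_left _ _)
    set x : ι := ⟨max l₀ (L + 1), ⟨w, hwF⟩⟩ with hx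
    refine ⟨e.symm x, ?_, ?_⟩
    · by_contra hcon
      rw [not_le] at hcon
      have h3 : (e (e.symm x)).1 ≤ L :=
        Finset.le_sup (f := fun j => (e j).1) (Finset.mem_range.2 hcon)
      rw [e.apply_symm_apply] at h3
      have h4 : L + 1 ≤ x.1 := le_max_right _ _
      omega
    · have gen : ∀ y : ι, y = x → M ≤ wpot p ρ y.2.1.α y.2.1.c 0 θ := by
        rintro y rfl
        exact hw
      exact gen _ (e.apply_symm_apply x)

end HBInf
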