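import Pool.Agent.HBInf.TentA
import Pool.Agent.HBInf.WinSeq
import Pool.Agent.HBInf.SlowAsym

/-!
# Exceptional indicators with a critical arc in the closed upper half-plane, real values

`1/2 < ρ < 1`, `v = VV 0 ρ π > 0`, `β = π - π/(2ρ)`, `b = a + 2β`, `0 ≤ a`, `b ≤ π`, `h = ⊤` on `(b, a + 2π)`, `h` real on `[a, b]`,
`h a + h b < 0`. Write `x = θ - a`. For `θ ∈ [a, b]`: `V θ := VV (θ - a) + VV (θ - b) = 0` and
`W θ := WW (θ - a) + WW (θ - b) = -v (π/ρ) sin ρ(π - x) < 0` (`VV_eq`, `WW_eq`: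
`(π - x) sin ρ(π - x) + (π - (2β - x)) sin ρ(π - (2β - x))` with `π - (2β - x) = π/ρ - (π - x)`), and `V > 0` on
`(b, a + 2π)`. Let `κ = -(h a + h b) / (2 v (π/ρ) sin ρπ) > 0` and `h̃ = h - κ W` on `[a, b]`, extended
`2π`-periodically, `⊤` elsewhere: `h̃ a + h̃ b = 0` (`sin ρ(π - 2β) = sin (π - ρπ)`), `CondT` (two points with `h̃ < ⊤` at a
distance `< π/ρ` are in the same arc `[a, b] + 2πm`, the gaps have length exactly `π/ρ`; `W` is a `ρ`-sinusoid on the
arc). `condA_tent`, `condC_tent`, `hrs_zero`: `exists_winSeq` for `h̃` (`hne`: `h̃ = ⊤` somewhere). `glueW` with `K = 2`,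
`γ = (a, b)`, `r t = ∫_0^t κ ramp 0 1` for both (`asym_C`): base
`= R t V θ + κ W θ + o(1)`, `R t → ∞` linearly.
* `θ ∈ Q` (`⊆ [a, b] + 2πℤ`): as in `SuffReg`, `limsup ∑' .. = h̃ θ`, so `ind ρ f θ = h̃ θ + κ W θ = h θ`.
* `h θ = ⊤`: `V θ > 0`, the windows are `≤ ε t` in absolute value (last claim of `glueW`), so `ind = ⊤`.
* other `θ`: `squeeze_upper`, `squeeze_lower` for `h` and `ind ρ f`. `f` is in the class (`Pre.inClass`).
-/

namespace HBInf

open HBInd Complex Filter Topology Set MeasureTheory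
open scoped Real ComplexConjugate

lemma se1_slow {κ : ℝ} (hκ : 0 ≤ κ) : SlowFn fun t => κ * ramp 0 1 t := by
  refine ⟨continuous_const.mul (continuous_ramp _ _), fun t => 2 * κ / (1 + t), ?_, ?_⟩
  · have h1 : Tendsto (fun t : ℝ => 1 + t) atTop atTop :=
      tendsto_atTop_add_const_left _ _ tendsto_id
    exact (tendsto_const_nhds (x := 2 * κ)).div_atTop h1
  · intro t u ht
    have h0 : 0 < 1 + t := by linarith
    by_cases hc : 1 ≤ t ∧ 1 ≤ t - u
    · simp only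
      rw [ramp_eq_one one_pos (by linarith [hc.1]), ramp_eq_one one_pos (by linarith [hc.2]),
        sub_self, abs_zero]
      positivity
    · have h1 : 1 + t ≤ 2 * (1 + |u|) := by
        by_contra hcon
        rw [not_le] at hcon
        apply hc
        constructor <;> linarith [abs_nonneg u, le_abs_self u]
      have h2 : |κ * ramp 0 1 (t - u) - κ * ramp 0 1 t| ≤ κ := by
        rw [← mul_sub, abs_mul, abs_of_nonneg hκ]
        have h3 : |ramp 0 1 (t - u) - ramp 0 1 t| ≤ 1 := by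
          rw [abs_le]
          constructor <;> linarith [ramp_nonneg 0 1 (t - u), ramp_nonneg 0 1 t,
            ramp_le_one 0 1 (t - u), ramp_le_one 0 1 t]
        calc κ * |ramp 0 1 (t - u) - ramp 0 1 t| ≤ κ * 1 := mul_le_mul_of_nonneg_left h3 hκ
          _ = κ := mul_one _
      refine h2.trans ?_
      rw [div_mul_eq_mul_div, le_div_iff₀ h0]
      have h4 : (1 + |u|) ≤ (1 + |u|) ^ 2 := by nlinarith [abs_nonneg u]
      have h5 : 1 + t ≤ 2 * (1 + |u|) ^ 2 := by linarith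
      calc κ * (1 + t) ≤ κ * (2 * (1 + |u|) ^ 2) := mul_le_mul_of_nonneg_left h5 hκ
        _ = 2 * κ * (1 + |u|) ^ 2 := by ring

lemma se1_int {κ : ℝ} (s t : ℝ) :
    IntervalIntegrable (fun t => κ * ramp 0 1 t) volume s t :=
  (continuous_const.mul (continuous_ramp _ _)).intervalIntegrable _ _

lemma se1_R_zero {κ t : ℝ} (ht : t ≤ 0) : ∫ s in (0 : ℝ)..t, κ * ramp 0 1 s = 0 := by
  rw [intervalIntegral.integral_symm, neg_eq_zero]
  have : ∫ s in t..0, κ * ramp 0 1 s = ∫ s in t..0, (0 : ℝ) := by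
    refine intervalIntegral.integral_congr fun s hs => ?_
    rw [uIcc_of_le ht] at hs
    rw [ramp_eq_zero one_pos hs.2, mul_zero]
  rw [this, intervalIntegral.integral_zero]

lemma se1_R_nonneg {κ : ℝ} (hκ : 0 ≤ κ) (t : ℝ) : 0 ≤ ∫ s in (0 : ℝ)..t, κ * ramp 0 1 s := by
  rcases le_total t 0 with ht | ht
  · rw [se1_R_zero ht]
  · exact intervalIntegral.integral_nonneg ht fun s _ => mul_nonneg hκ (ramp_nonneg _ _ _)

lemma se1_R_le {κ : ℝ} (hκ : 0 ≤ κ) (t : ℝ) :
    ∫ s in (0 : ℝ)..t, κ * ramp 0 1 s ≤ κ * (1 + |t|) ^ 2 := by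
  rcases le_total t 0 with ht | ht
  · rw [se1_R_zero ht]
    positivity
  · have h1 : ∫ s in (0 : ℝ)..t, κ * ramp 0 1 s ≤ ∫ s in (0 : ℝ)..t, κ := by
      refine intervalIntegral.integral_mono_on ht (se1_int _ _) intervalIntegrable_const
        fun s _ => ?_
      calc κ * ramp 0 1 s ≤ κ * 1 := mul_le_mul_of_nonneg_left (ramp_le_one _ _ _) hκ
        _ = κ := mul_one _
    rw [intervalIntegral.integral_const, smul_eq_mul, sub_zero] at h1
    rw [abs_of_nonneg ht]
    nlinarith [mul_nonneg hκ ht, mul_nonneg hκ (mul_nonneg ht ht)]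

lemma se1_R_ge {κ : ℝ} (hκ : 0 ≤ κ) {t : ℝ} (ht : 1 ≤ t) :
    κ * (t - 1) ≤ ∫ s in (0 : ℝ)..t, κ * ramp 0 1 s := by
  rw [← intervalIntegral.integral_add_adjacent_intervals (se1_int 0 1) (se1_int 1 t)]
  have h1 : ∫ s in (1 : ℝ)..t, κ * ramp 0 1 s = ∫ s in (1 : ℝ)..t, κ := by
    refine intervalIntegral.integral_congr fun s hs => ?_
    rw [uIcc_of_le ht] at hs
    rw [ramp_eq_one one_pos (by linarith [hs.1]), mul_one]
  rw [h1, intervalIntegral.integral_const, smul_eq_mul]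
  linarith [se1_R_nonneg hκ 1]

lemma se1_R_cont (κ : ℝ) : Continuous fun t => ∫ s in (0 : ℝ)..t, κ * ramp 0 1 s :=
  intervalIntegral.continuous_primitive (fun s t => se1_int s t) 0

/-- the `limsup` of a sum -/
lemma se1_limsup {X B : ℝ → ℝ} {s : ℝ} {e : EReal} (hB : Tendsto B atTop (𝓝 s))
    (hU : ∀ g : ℝ, e < g → ∀ᶠ t in atTop, X t ≤ g)
    (hL : ∀ M : ℝ, (M : EReal) < e → ∃ᶠ t in atTop, M ≤ X t) :
    limsup (fun t : ℝ => ((X t + B t : ℝ) : EReal)) atTop = e + s := by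
  apply le_antisymm
  · refine EReal.le_of_forall_lt_iff_le.1 fun z hz => ?_
    have h1 : e < ((z - s : ℝ) : EReal) := by
      rw [EReal.coe_sub]
      exact (EReal.lt_sub_iff_add_lt (Or.inl (EReal.coe_ne_bot _)) (Or.inl (EReal.coe_ne_top _))).2 hz
    obtain ⟨g, hg1, hg2⟩ := EReal.exists_between_coe_real h1
    have hg2' : g < z - s := by exact_mod_cast hg2
    refine limsup_le_of_le (by isBoundedDefault) ?_
    filter_upwards [hU g hg1, hB.eventually_le_const (show s < z - g by linarith)] with t h2 h3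
    exact_mod_cast (by linarith : X t + B t ≤ z)
  · refine EReal.ge_of_forall_gt_iff_ge.1 fun z hz => ?_
    have h1 : ((z - s : ℝ) : EReal) < e := by
      rw [EReal.coe_sub]
      exact (EReal.sub_lt_iff (Or.inl (EReal.coe_ne_bot _)) (Or.inl (EReal.coe_ne_top _))).2 hz
    obtain ⟨M, hM1, hM2⟩ := EReal.exists_between_coe_real h1
    have hM1' : z - s < M := by exact_mod_cast hM1
    refine le_limsup_of_frequently_le ?_ (by isBoundedDefault)
    refine ((hL M hM2).and_eventually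
      (hB.eventually_const_le (show z - M < s by linarith))).mono ?_
    rintro t ⟨h2, h3⟩
    exact_mod_cast (by linarith : z ≤ X t + B t)

/-- the windows at a point where they are controlled from above -/
lemma se1_up {T w : ℕ → ℝ} (hw : ∀ j, 0 < w j) (hT : ∀ j, T j + w j + 4 ≤ T (j + 1))
    {a : ℕ → ℝ → ℝ} {g : ℝ} (h : ∀ᶠ j in atTop, ∀ t, a j t ≤ g) :
    ∀ᶠ t : ℝ in atTop, ∑' j, xi T w j t * a j (t - mid T w j) ≤ g := by
  obtain ⟨J, hJ⟩ := eventually_atTop.1 h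
  filter_upwards [eventually_ge_atTop (T 0 + w 0), eventually_ge_atTop (T J + w J)] with t h1 h2
  refine tsum_xi_le hw hT h1 fun j hj => ?_
  rcases le_or_gt J j with h3 | h3
  · exact hJ j h3 _
  · exfalso
    apply hj
    apply xi_eq_zero_right hw hT
    rcases eq_or_lt_of_le (Nat.succ_le_of_lt h3) with h4 | h4
    · rw [Nat.succ_eq_add_one] at h4
      rw [h4]
      exact h2
    · have h5 : T (j + 1 + 1) ≤ T J := T_mono hw hT h4
      linarith [hT (j + 1), hw J]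

/-- the windows at a point where they are controlled from below -/
lemma se1_low {T w : ℕ → ℝ} (hw : ∀ j, 0 < w j) (hT : ∀ j, T j + w j + 4 ≤ T (j + 1))
    {a : ℕ → ℝ → ℝ} {M : ℝ} (h : ∃ᶠ j in atTop, M ≤ a j 0) :
    ∃ᶠ t : ℝ in atTop, M ≤ ∑' j, xi T w j t * a j (t - mid T w j) := by
  refine (tendsto_mid hw hT).frequently (h.mono fun j hj => ?_)
  have h1 := mid_mem hT j (t := 0) (by rw [abs_zero]; norm_num)
  rw [add_zero] at h1
  rw [tsum_xi_eq hw hT h1 (fun k => a k (mid T w j - mid T w k)), sub_self]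
  exact hj

/-- `VV` on `[0, 2π]` -/
lemma se1_VV {ρ : ℝ} (h1 : 1 / 2 < ρ) (h2 : ρ < 1) {x : ℝ} (hx0 : 0 ≤ x) (hx : x ≤ 2 * π) :
    VV 0 ρ x = VV 0 ρ π * Real.cos (ρ * (π - x)) := by
  have h1' : ((0 : ℕ) : ℝ) < ρ := by push_cast; linarith
  have h2' : ρ < ((0 : ℕ) : ℝ) + 1 := by push_cast; linarith
  rcases le_total x π with h | h
  · rw [VV_eq (by norm_num) h1' h2', G_of_abs_le (by rw [abs_of_nonneg hx0]; exact h),
      abs_of_nonneg hx0]
  · have e : x = (x - 2 * π) + ((1 : ℤ) : ℝ) * (2 * π) := by push_cast; ring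
    have hx2 : |x - 2 * π| = 2 * π - x := by
      rw [abs_of_nonpos (by linarith)]
      ring
    rw [e, VV_add_int, VV_eq (by norm_num) h1' h2', G_of_abs_le (by rw [hx2]; linarith), hx2]
    congr 1
    rw [← Real.cos_neg]
    congr 1
    push_cast
    ring

lemma se1_sinusoid (u p q : ℝ) : Real.sin (u + p) * Real.sin q + Real.sin (u - q) * Real.sin p =
    Real.sin u * Real.sin (p + q) := by
  rw [Real.sin_add, Real.sin_sub, Real.sin_add]
  ring

theorem suff_E1 {ρ : ℝ} (h1 : 1 / 2 < ρ) (h2 : ρ < 1) {h : ℝ → EReal} {η : ℝ → ℝ}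
    (hper : ∀ θ, h (θ + 2 * π) = h θ) (hT : CondT ρ h) {a b : ℝ} (hb : b = a + (2 * π - π / ρ))
    (ha0 : 0 ≤ a) (hbπ : b ≤ π) (htop : ∀ θ ∈ Ioo b (a + 2 * π), h θ = ⊤)
    (hη : ∀ θ ∈ Icc a b, h θ = (η θ : EReal)) (hab : η a + η b < 0) :
    ∃ f : ℂ → ℂ, InClass ρ f ∧ ∀ θ, ind ρ f θ = h θ := by
  have hπ := Real.pi_pos
  have hρ : 0 < ρ := by linarith
  have h1' : ((0 : ℕ) : ℝ) < ρ := by push_cast; linarith
  have h2' : ρ < ((0 : ℕ) : ℝ) + 1 := by push_cast; linarith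
  have hρρ : ρ * (π / ρ) = π := by field_simp
  have hπρ1 : π < π / ρ := by rw [lt_div_iff₀ hρ]; nlinarith
  have hπρ2 : π / ρ < 2 * π := by rw [div_lt_iff₀ hρ]; nlinarith
  have hab1 : a < b := by rw [hb]; linarith
  have hbaπ : b - a < π := by rw [hb]; linarith
  have hv := VV_pi_zero hρ h2
  set v := VV 0 ρ π with hvdef
  have hsπ : 0 < Real.sin (ρ * π) := Real.sin_pos_of_pos_of_lt_pi (by positivity) (by nlinarith)
  -- the potentials of the base
  have hV0 : ∀ x ∈ Icc a b, VV 0 ρ (x - a) + VV 0 ρ (x - b) = 0 := by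
    intro x hx
    have e1 : VV 0 ρ (x - b) = VV 0 ρ (b - x) := by rw [← VV_neg, neg_sub]
    rw [e1, se1_VV h1 h2 (x := x - a) (by linarith [hx.1]) (by linarith [hx.2]),
      se1_VV h1 h2 (x := b - x) (by linarith [hx.2]) (by linarith [hx.1])]
    have e2 : ρ * (π - (b - x)) = π - ρ * (π - (x - a)) := by
      rw [hb]
      linear_combination hρρ
    rw [e2, Real.cos_pi_sub]
    ring
  have hV1 : ∀ x ∈ Ioo b (a + 2 * π), 0 < VV 0 ρ (x - a) + VV 0 ρ (x - b) := by
    intro x hx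
    rw [se1_VV h1 h2 (x := x - a) (by linarith [hx.1]) (by linarith [hx.2]),
      se1_VV h1 h2 (x := x - b) (by linarith [hx.1]) (by linarith [hx.2]), ← mul_add,
      Real.cos_add_cos]
    have hc1 : 0 < Real.cos ((ρ * (π - (x - a)) + ρ * (π - (x - b))) / 2) := by
      apply Real.cos_pos_of_mem_Ioo
      have e1 : (ρ * (π - (x - a)) + ρ * (π - (x - b))) / 2 =
          ρ * (a + 2 * π - x) - π / 2 := by
        rw [hb]
        linear_combination (-1 / 2 : ℝ) * hρρ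
      have e2 : ρ * (a + 2 * π - x) < π := by
        have : ρ * (a + 2 * π - x) < ρ * (π / ρ) :=
          mul_lt_mul_of_pos_left (by linarith [hx.1]) hρ
        rwa [hρρ] at this
      have e3 : 0 < ρ * (a + 2 * π - x) := mul_pos hρ (by linarith [hx.2])
      rw [e1]
      constructor <;> linarith
    have hc2 : 0 < Real.cos ((ρ * (π - (x - a)) - ρ * (π - (x - b))) / 2) := by
      apply Real.cos_pos_of_mem_Ioo
      have e1 : (ρ * (π - (x - a)) - ρ * (π - (x - b))) / 2 = π / 2 - ρ * π := by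
        rw [hb]
        linear_combination (1 / 2 : ℝ) * hρρ
      rw [e1]
      constructor <;> nlinarith
    positivity
  have hW0 : ∀ x ∈ Icc a b, WW 0 ρ (x - a) + WW 0 ρ (x - b) =
      -(v * (π / ρ) * Real.sin (ρ * (π - (x - a)))) := by
    intro x hx
    have e1 : WW 0 ρ (x - b) = WW 0 ρ (b - x) := by rw [← WW_neg, neg_sub]
    have a1 : |x - a| = x - a := abs_of_nonneg (by linarith [hx.1])
    have a2 : |b - x| = b - x := abs_of_nonneg (by linarith [hx.2])
    rw [e1, WW_eq (ψ := x - a) (by norm_num) h1' h2' (by rw [a1]; linarith [hx.2]),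
      WW_eq (ψ := b - x) (by norm_num) h1' h2' (by rw [a2]; linarith [hx.1]), a1, a2]
    have e2 : ρ * (π - (b - x)) = π - ρ * (π - (x - a)) := by
      rw [hb]
      linear_combination hρρ
    have e3 : π - (b - x) = π / ρ - (π - (x - a)) := by rw [hb]; ring
    rw [e2, Real.cos_pi_sub, Real.sin_pi_sub, e3]
    ring
  -- the shift
  set κ : ℝ := -(η a + η b) / (2 * (v * (π / ρ) * Real.sin (ρ * π))) with hκdef
  have hκ : 0 < κ := by
    rw [hκdef]
    exact div_pos (by linarith) (by positivity)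
  set S : ℝ → ℝ := fun x => κ * (-(v * (π / ρ) * Real.sin (ρ * (π - (x - a))))) with hS
  have hκd : κ * (v * (π / ρ) * Real.sin (ρ * π)) = -(η a + η b) / 2 := by
    have hden : v * (π / ρ) * Real.sin (ρ * π) ≠ 0 := by positivity
    rw [hκdef]
    generalize v * (π / ρ) * Real.sin (ρ * π) = d at hden ⊢
    field_simp
  have hSa : S a = (η a + η b) / 2 := by
    simp only [hS, sub_self, sub_zero]
    linear_combination -hκd
  have hSb : S b = (η a + η b) / 2 := by
    have e : ρ * (π - (b - a)) = π - ρ * π := by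
      rw [hb]
      linear_combination hρρ
    simp only [hS, e, Real.sin_pi_sub]
    linear_combination -hκd
  set r : ℝ → ℝ := fun θ => toIcoMod Real.two_pi_pos a θ with hr
  have hrm : ∀ θ, r θ ∈ Ico a (a + 2 * π) := fun θ => toIcoMod_mem_Ico _ _ _
  have hre : ∀ θ, ∃ m : ℤ, r θ = θ - m * (2 * π) := fun θ =>
    ⟨toIcoDiv Real.two_pi_pos a θ, by
      have := self_sub_toIcoDiv_zsmul Real.two_pi_pos a θ
      rw [zsmul_eq_mul] at this
      exact this.symm⟩
  have hru : ∀ (θ : ℝ) (m : ℤ), θ - m * (2 * π) ∈ Ico a (a + 2 * π) → r θ = θ - m * (2 * π) := by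
    intro θ m hm
    have e : r θ = r (θ - m * (2 * π)) := by
      simp only [hr]
      rw [← zsmul_eq_mul, toIcoMod_sub_zsmul]
    rw [e]
    exact (toIcoMod_eq_self Real.two_pi_pos).2 hm
  have hperm : ∀ (θ : ℝ) (m : ℤ), h (θ - m * (2 * π)) = h θ := by
    intro θ m
    have hp : Function.Periodic h (2 * π) := hper
    exact hp.sub_int_mul_eq m
  have hrh : ∀ θ, h (r θ) = h θ := by
    intro θ
    obtain ⟨m, hm⟩ := hre θ
    rw [hm, hperm]
  have hrtop : ∀ θ, h θ = ⊤ → r θ ∈ Ioo b (a + 2 * π) := by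
    intro θ hθ
    refine ⟨?_, (hrm θ).2⟩
    by_contra hcon
    rw [not_lt] at hcon
    have h3 := hη (r θ) ⟨(hrm θ).1, hcon⟩
    rw [hrh, hθ] at h3
    exact EReal.coe_ne_top _ h3.symm
  have hrfin : ∀ θ, h θ ≠ ⊤ → r θ ∈ Icc a b := by
    intro θ hθ
    refine ⟨(hrm θ).1, ?_⟩
    by_contra hcon
    rw [not_le] at hcon
    have h3 := htop (r θ) ⟨hcon, (hrm θ).2⟩
    rw [hrh] at h3
    exact hθ h3
  set k : ℝ → EReal := fun θ => h θ - ((S (r θ) : ℝ) : EReal) with hk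
  have hkper : ∀ θ, k (θ + 2 * π) = k θ := by
    intro θ
    have e : r (θ + 2 * π) = r θ := toIcoMod_add_right _ _ _
    simp only [hk]
    rw [e, hper]
  have hkle : ∀ (θ A : ℝ), k θ ≤ (A : EReal) ↔ h θ ≤ ((A + S (r θ) : ℝ) : EReal) := by
    intro θ A
    simp only [hk]
    rw [EReal.coe_add]
    exact EReal.sub_le_iff_le_add (Or.inl (EReal.coe_ne_bot _)) (Or.inl (EReal.coe_ne_top _))
  have hkadd : ∀ θ, k θ + ((S (r θ) : ℝ) : EReal) = h θ := by
    intro θ
    simp only [hk]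
    exact EReal.sub_add_cancel
  have hktop : ∀ θ, k θ = ⊤ ↔ h θ = ⊤ := by
    intro θ
    constructor
    · intro hθ
      rw [← hkadd, hθ, EReal.top_add_coe]
    · intro hθ
      simp only [hk]
      rw [hθ, EReal.top_sub_coe]
  have hkT : CondT ρ k := by
    intro a' t b' A B hat htb hl hA hB
    have hsin : 0 < Real.sin (ρ * (b' - a')) := tre_sin_pos hρ (hat.trans htb) hl
    rw [hkle] at hA hB ⊢
    have hA1 : h a' ≠ ⊤ := (hA.trans_lt (EReal.coe_lt_top _)).ne
    have hB1 : h b' ≠ ⊤ := (hB.trans_lt (EReal.coe_lt_top _)).ne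
    obtain ⟨m, hm⟩ := hre a'
    have ha'' := hrfin a' hA1
    rw [hm] at ha''
    have hb'' : b' - m * (2 * π) ∈ Icc a b := by
      refine ⟨by linarith [ha''.1], ?_⟩
      by_contra hcon
      rw [not_le] at hcon
      have h3 : b' - m * (2 * π) < a + 2 * π := by
        have := ha''.2
        rw [hb] at this
        linarith
      have h4 := htop _ ⟨hcon, h3⟩
      rw [hperm] at h4
      exact hB1 h4
    have hrb : r b' = b' - m * (2 * π) := hru b' m ⟨hb''.1, by linarith [hb''.2]⟩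
    have hrt : r t = t - m * (2 * π) := hru t m ⟨by linarith [ha''.1], by linarith [hb''.2]⟩
    rw [hm] at hA
    rw [hrb] at hB
    rw [hrt]
    refine (hT a' t b' _ _ hat htb hl hA hB).trans (le_of_eq ?_)
    congr 1
    rw [div_add' _ _ _ hsin.ne', div_left_inj' hsin.ne']
    have h5 := se1_sinusoid (ρ * (π - (t - m * (2 * π) - a))) (ρ * (t - a')) (ρ * (b' - t))
    have e1 : ρ * (π - (t - m * (2 * π) - a)) + ρ * (t - a') =
        ρ * (π - (a' - m * (2 * π) - a)) := by ring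
    have e2 : ρ * (π - (t - m * (2 * π) - a)) - ρ * (b' - t) =
        ρ * (π - (b' - m * (2 * π) - a)) := by ring
    have e3 : ρ * (t - a') + ρ * (b' - t) = ρ * (b' - a') := by ring
    rw [e1, e2, e3] at h5
    simp only [hS]
    linear_combination (-(κ * v * (π / ρ))) * h5
  have hkη : ∀ θ ∈ Icc a b, k θ = ((η θ - S θ : ℝ) : EReal) := by
    intro θ hθ
    have e : r θ = θ := by
      have := hru θ 0 (by push_cast; rw [zero_mul, sub_zero]; exact ⟨hθ.1, by linarith [hθ.2]⟩)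
      push_cast at this
      rw [zero_mul, sub_zero] at this
      exact this
    simp only [hk]
    rw [e, hη θ hθ, EReal.coe_sub]
  have hktop2 : ∀ θ ∈ Ioo b (a + 2 * π), k θ = ⊤ := fun θ hθ => (hktop θ).2 (htop θ hθ)
  have hkab : (η a - S a) + (η b - S b) = 0 := by
    rw [hSa, hSb]
    ring
  have hA := condA_tent h1 h2 hkper hkT hb ha0 hbπ hktop2 hkη hkab
  have hC := condC_tent h1 h2 hkper hb hktop2 hkη hkab
  set θ₁ : ℝ := (b + (a + 2 * π)) / 2 with hθ₁
  have hθ₁m : θ₁ ∈ Ioo b (a + 2 * π) := by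
    rw [hθ₁]
    constructor <;> linarith
  obtain ⟨n, α, c, D, Q, hα, hc, hcD, hQD, hQ1, hQ2, hQup, hQlow⟩ :=
    exists_winSeq (p := 0) (by norm_num) h1' h2' hkper hkT (hrs_zero h1 h2 hkper hA hC)
      (fun n θ m g θ₀ hm hg _ hd => hA n θ m g θ₀ hm hg (by norm_num) hd)
      ⟨θ₁, by rw [hktop2 θ₁ hθ₁m]; exact EReal.zero_lt_top⟩
  have hsets : {t | k t ≠ ⊤} = {t | h t ≠ ⊤} := by
    ext t
    simp only [mem_ofPred_eq, ne_eq, hktop]
  rw [hsets] at hQD hQ1
  have hQ2' : ∀ a b : ℝ, a < b → Ioo a b ⊆ {t | h t ≠ ⊤} → (Q ∩ Ioo a b).Nonempty := by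
    rw [← hsets]
    exact hQ2
  have ha_TT : a ∈ TT 0 := ⟨⟨ha0, by linarith⟩, fun h => absurd h (by norm_num)⟩
  have hb_TT : b ∈ TT 0 := ⟨⟨by linarith, hbπ⟩, fun h => absurd h (by norm_num)⟩
  set R : ℝ → ℝ := fun t => ∫ s in (0 : ℝ)..t, κ * ramp 0 1 s with hR
  obtain ⟨f, T, w, hpre, hw, hTw, hT0, hind, hsmall⟩ := glueW (p := 0) (by norm_num) h1' h2'
    hα hc hcD (K := 2) (γ := ![a, b]) (by
      intro l
      fin_cases l
      · exact ha_TT
      · exact hb_TT) (r := fun _ => R) (B := κ) (fun _ => se1_R_cont κ)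
    (fun _ t => ⟨se1_R_nonneg hκ.le t, se1_R_le hκ.le t⟩) (fun _ t ht => se1_R_zero ht)
  -- the base
  have hbase : ∀ ε : ℝ, 0 < ε → ∀ᶠ t : ℝ in atTop, ∀ θ : ℝ,
      |wpot 0 ρ ![a, b] (fun _ => R) t θ - (R t * (VV 0 ρ (θ - a) + VV 0 ρ (θ - b)) +
        κ * (WW 0 ρ (θ - a) + WW 0 ρ (θ - b)))| ≤ ε := by
    intro ε hε
    filter_upwards [asym_C (p := 0) (by norm_num) h1' h2' (se1_slow hκ.le) (half_pos hε),
      eventually_ge_atTop 1] with t ht ht1 θ
    have e1 := (ht (θ - a)).2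
    have e2 := (ht (θ - b)).2
    have e3 : κ * ramp 0 1 t = κ := by rw [ramp_eq_one one_pos (by linarith), mul_one]
    rw [e3] at e1 e2
    have e4 : wpot 0 ρ ![a, b] (fun _ => R) t θ =
        (∫ u, kn 0 ρ u (θ - a) * R (t - u)) + ∫ u, kn 0 ρ u (θ - b) * R (t - u) := by
      rw [wpot, Fin.sum_univ_two]
      simp
    rw [e4]
    have e5 : (∫ u, kn 0 ρ u (θ - a) * R (t - u)) + (∫ u, kn 0 ρ u (θ - b) * R (t - u)) -
        (R t * (VV 0 ρ (θ - a) + VV 0 ρ (θ - b)) + κ * (WW 0 ρ (θ - a) + WW 0 ρ (θ - b))) =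
        ((∫ u, kn 0 ρ u (θ - a) * R (t - u)) - (R t * VV 0 ρ (θ - a) + κ * WW 0 ρ (θ - a))) +
        ((∫ u, kn 0 ρ u (θ - b) * R (t - u)) - (R t * VV 0 ρ (θ - b) + κ * WW 0 ρ (θ - b))) := by
      ring
    rw [e5]
    refine (abs_add_le _ _).trans ?_
    linarith
  -- the values of the potentials at an arbitrary point
  have hred : ∀ θ, VV 0 ρ (θ - a) + VV 0 ρ (θ - b) = VV 0 ρ (r θ - a) + VV 0 ρ (r θ - b) ∧
      WW 0 ρ (θ - a) + WW 0 ρ (θ - b) = WW 0 ρ (r θ - a) + WW 0 ρ (r θ - b) := by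
    intro θ
    obtain ⟨m, hm⟩ := hre θ
    have e1 : ∀ x, θ - x = (r θ - x) + (m : ℝ) * (2 * π) := by
      intro x
      rw [hm]
      ring
    rw [e1 a, e1 b, VV_add_int, VV_add_int, WW_add_int, WW_add_int]
    exact ⟨rfl, rfl⟩
  have htop' : ∀ θ, h θ = ⊤ → ind ρ f θ = ⊤ := by
    intro θ hθ
    have hVpos : 0 < VV 0 ρ (θ - a) + VV 0 ρ (θ - b) := by
      rw [(hred θ).1]
      exact hV1 _ (hrtop θ hθ)
    set V := VV 0 ρ (θ - a) + VV 0 ρ (θ - b) with hVdef
    set W := WW 0 ρ (θ - a) + WW 0 ρ (θ - b) with hWdef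
    rw [hind θ, EReal.eq_top_iff_forall_lt]
    intro z
    refine lt_of_lt_of_le (b := ((z + 1 : ℝ) : EReal)) (by exact_mod_cast lt_add_one z) ?_
    refine le_limsup_of_frequently_le ?_ (by isBoundedDefault)
    apply Eventually.frequently
    have hκV : 0 < κ * V := mul_pos hκ hVpos
    have hlin : Tendsto (fun t : ℝ => κ * V / 2 * t) atTop atTop :=
      tendsto_id.const_mul_atTop (by positivity)
    filter_upwards [hsmall (κ * V / 2) (by positivity), hbase 1 one_pos, eventually_ge_atTop 1,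
      hlin.eventually_ge_atTop (z + 2 + κ * V + |κ * W|)] with t g1 g2 g3 g4
    have g1' := g1 θ
    have g2' := g2 θ
    rw [abs_le] at g1' g2'
    have g5 : κ * (t - 1) * V ≤ R t * V := mul_le_mul_of_nonneg_right (se1_R_ge hκ.le g3) hVpos.le
    have g6 := neg_abs_le (κ * W)
    exact_mod_cast (by nlinarith [g1'.1, g2'.1] : z + 1 ≤
      (∑' j, xi T w j t * wpot 0 ρ (α j) (c j) (t - mid T w j) θ) +
        wpot 0 ρ ![a, b] (fun _ => R) t θ)
  have hclass : InClass ρ f := hpre.inClass hρ (θ := θ₁) (by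
    rw [htop' θ₁ (htop θ₁ hθ₁m)]
    exact EReal.zero_lt_top)
  have hQeq : ∀ θ ∈ Q, ind ρ f θ = h θ := by
    intro θ hθ
    have hθ1 : h θ ≠ ⊤ := hQD hθ
    have hrθ := hrfin θ hθ1
    have hB : Tendsto (fun t => wpot 0 ρ ![a, b] (fun _ => R) t θ) atTop (𝓝 (S (r θ))) := by
      rw [Metric.tendsto_nhds]
      intro ε hε
      filter_upwards [hbase (ε / 2) (half_pos hε)] with t ht
      have h3 := ht θ
      rw [(hred θ).1, (hred θ).2, hV0 _ hrθ, hW0 _ hrθ, mul_zero, zero_add] at h3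
      rw [Real.dist_eq]
      exact lt_of_le_of_lt h3 (half_lt_self hε)
    rw [hind θ, ← hkadd θ]
    refine se1_limsup hB (fun g hg => ?_) (fun M hM => ?_)
    · exact se1_up hw hTw (a := fun j t => wpot 0 ρ (α j) (c j) t θ) (hQup θ hθ g hg)
    · exact se1_low hw hTw (a := fun j t => wpot 0 ρ (α j) (c j) t θ)
        (hQlow θ (Or.inl hθ) M hM)
  have hindT := condT_ind hρ hclass
  have hle : ∀ x, ind ρ f x ≤ h x :=
    squeeze_upper hρ hT hindT (fun q hq => (hQeq q hq).le) hQ1 hQ2'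
  refine ⟨f, hclass, fun θ => ?_⟩
  by_cases hθ : h θ = ⊤
  · rw [htop' θ hθ, hθ]
  · by_cases hθQ : θ ∈ Q
    · exact hQeq θ hθQ
    · have hint : {t | h t ≠ ⊤} ∈ 𝓝 θ := by
        by_contra hcon
        exact hθQ (hQ1 ⟨hθ, fun h3 => hcon (mem_interior_iff_mem_nhds.1 h3)⟩)
      exact le_antisymm (hle θ) (squeeze_lower hρ hT hindT hle (fun q hq => (hQeq q hq).ge)
        hQ2' hint)

end HBInf
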