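import Pool.Agent.HBInf.ExcReal
import Pool.Agent.HBInf.TrigE

/-!
# Exceptional indicators which are `-∞` inside the critical arc, `1/2 < ρ < 1`

`v = VV 0 ρ π > 0`, `β = π - π/(2ρ) ∈ (0, π/2)`, `α = a + β ∈ [0, π]`, `b = a + 2β`. `VV (θ - α)` is `0` for `θ = a, b`, `< 0` on
`(a, b)`, `> 0` on `(b, a + 2π)`, and `WW (a - α) = WW (b - α) = -w`, `w = v π/(2ρ)` (see `Pool.Agent.HBInf.KillZero`).
For `α' ∈ [a, b]`: `VV (a - α') = -VV (b - α')`, which is `> 0` if `α' > α` and `< 0` if `α' < α`.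
Choose real sequences `A_j ↓ h a`, `B_j ↓ h b` (decreasing, constant if the value is real) with `A_j + B_j ≤ -c < 0`, and
`B_j ≤ A_j` if `α = 0`, `A_j ≤ B_j` if `α = π` (possible: if `α = 0` then `b = -a = β ∈ (0, π)` and `h b ≤ h a` by
`hs`; if `α = π` then `h a ≤ h (-a) = h (2π - a) = h b`; if one of them is `⊥` choose the sequences accordingly, e.g.
`A_j = max A_j B_j`). `exc_realize` with `K = 3`, `γ = (α, α', α'')`, `ν = (1, 0, 0)`, `q j = -(A_j + B_j)/(2w)`, `α' ∈ (α, b] ∩ [0, π]` if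
`α < π` (otherwise `α' = α`), `α'' ∈ [a, α) ∩ [0, π]` if `α > 0`; with `δ_j = (A_j - B_j)/2`: if `δ_j ≥ 0`,
`ξ j = (0, δ_j / VV (a - α'), 0)`, if `δ_j < 0`, `ξ j = (0, 0, δ_j / VV (a - α''))` (`ξ j = 0` if `δ_j = 0`). At `a`:
`q j (-w) + δ_j = A_j`, at `b`: `-w q j - δ_j = B_j`. `limsup A_j = h a`, `limsup B_j = h b`.
Periodicity gives all `θ`. `f` is in the class by `Pre.inClass` (`ind = ⊤` somewhere).
-/

namespace HBInf

open HBInd Complex Filter Topology Set MeasureTheory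
open scoped Real ComplexConjugate

/-- real approximations from above -/
noncomputable def se2S (x : EReal) (X : ℝ) (j : ℕ) : ℝ := (max x ((X - j : ℝ) : EReal)).toReal

theorem se2_coe {x : EReal} {X : ℝ} (hx : x ≤ X) (j : ℕ) :
    ((se2S x X j : ℝ) : EReal) = max x ((X - j : ℝ) : EReal) := by
  unfold se2S
  apply EReal.coe_toReal
  · have h1 : max x ((X - j : ℝ) : EReal) ≤ (X : EReal) := by
      refine max_le hx ?_
      rw [EReal.coe_le_coe_iff]
      have : (0 : ℝ) ≤ j := Nat.cast_nonneg j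
      linarith
    exact (h1.trans_lt (EReal.coe_lt_top X)).ne
  · exact ((EReal.bot_lt_coe _).trans_le (le_max_right _ _)).ne'

theorem se2_le {x : EReal} {X : ℝ} (hx : x ≤ X) (j : ℕ) : se2S x X j ≤ X := by
  rw [← EReal.coe_le_coe_iff, se2_coe hx]
  refine max_le hx ?_
  rw [EReal.coe_le_coe_iff]
  have : (0 : ℝ) ≤ j := Nat.cast_nonneg j
  linarith

theorem se2_mono {x y : EReal} {X Y : ℝ} (hxy : x ≤ y) (hXY : X ≤ Y) (hy : y ≤ Y) (hx : x ≤ X)
    (j : ℕ) : se2S x X j ≤ se2S y Y j := by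
  rw [← EReal.coe_le_coe_iff, se2_coe hx, se2_coe hy]
  refine max_le_max hxy ?_
  rw [EReal.coe_le_coe_iff]
  linarith

theorem se2_limsup {x : EReal} {X : ℝ} (hx : x ≤ X) :
    limsup (fun j => ((se2S x X j : ℝ) : EReal)) atTop = x := by
  have h1 : Tendsto (fun j : ℕ => X - (j : ℝ)) atTop atBot := by
    have := (tendsto_natCast_atTop_atTop (R := ℝ))
    exact tendsto_const_nhds.add_atBot (tendsto_neg_atTop_atBot.comp this)
  have h2 : Tendsto (fun j : ℕ => ((X - (j : ℝ) : ℝ) : EReal)) atTop (𝓝 ⊥) := by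
    rw [EReal.tendsto_nhds_bot_iff_real]
    intro c
    filter_upwards [h1.eventually_lt_atBot c] with j hj
    exact_mod_cast hj
  have h3 : Tendsto (fun j : ℕ => max x ((X - (j : ℝ) : ℝ) : EReal)) atTop (𝓝 (max x ⊥)) :=
    tendsto_const_nhds.max h2
  rw [max_eq_left bot_le] at h3
  refine Tendsto.limsup_eq ?_
  refine h3.congr fun j => ?_
  rw [se2_coe hx]

theorem suff_E2 {ρ : ℝ} (h1 : 1 / 2 < ρ) (h2 : ρ < 1) {h : ℝ → EReal}
    (hper : ∀ θ, h (θ + 2 * π) = h θ) {a b A B : ℝ} (hb : b = a + (2 * π - π / ρ))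
    (hα0 : 0 ≤ a + (π - π / (2 * ρ))) (hαπ : a + (π - π / (2 * ρ)) ≤ π)
    (hA : h a ≤ A) (hB : h b ≤ B) (hAB : A + B < 0)
    (htop : ∀ θ ∈ Ioo b (a + 2 * π), h θ = ⊤) (hs : ∀ θ ∈ Ioo 0 π, h θ ≤ h (-θ))
    (hbot : ∀ θ ∈ Ioo a b, h θ = ⊥) :
    ∃ f : ℂ → ℂ, InClass ρ f ∧ ∀ θ, ind ρ f θ = h θ := by
  have hpi := Real.pi_pos
  have hρ : 0 < ρ := by linarith
  have hc0 : ((0 : ℕ) : ℝ) < ρ := by push_cast; exact hρ
  have hc1 : ρ < ((0 : ℕ) : ℝ) + 1 := by push_cast; linarith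
  set v := VV 0 ρ π with hv
  have hV : 0 < v := VV_pi_zero hρ h2
  set β := π - π / (2 * ρ) with hβ
  have hdiv : 0 < π / (2 * ρ) := by positivity
  have hmul : ρ * (π / (2 * ρ)) = π / 2 := by field_simp
  have hd2 : π / ρ = 2 * (π / (2 * ρ)) := by field_simp
  have hlt : π / 2 < π / (2 * ρ) := by
    rw [div_lt_div_iff₀ (by norm_num) (by positivity)]
    nlinarith
  have hlt2 : π / (2 * ρ) < π := by
    rw [div_lt_iff₀ (by positivity)]
    nlinarith
  have hβ0 : 0 < β := by rw [hβ]; linarith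
  have hβ2 : β < π / 2 := by rw [hβ]; linarith
  have hb' : b = a + 2 * β := by rw [hb, hβ, hd2]; ring
  set α := a + β with hα
  have hρβ : ρ * (π - β) = π / 2 := by rw [hβ, sub_sub_cancel, hmul]
  -- the values of `VV` and `WW`
  have hVV : ∀ ψ : ℝ, |ψ| ≤ π → VV 0 ρ ψ = v * Real.cos (ρ * (π - |ψ|)) := by
    intro ψ hψ
    rw [VV_eq (by norm_num) hc0 hc1, G_of_abs_le hψ]
  have hVneg : ∀ ψ : ℝ, |ψ| < β → VV 0 ρ ψ < 0 := by
    intro ψ hψ
    rw [hVV ψ (by linarith)]
    refine mul_neg_of_pos_of_neg hV (Real.cos_neg_of_pi_div_two_lt_of_lt ?_ ?_)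
    · rw [← hρβ]
      exact mul_lt_mul_of_pos_left (by linarith) hρ
    · have := abs_nonneg ψ
      nlinarith
  have hVpos : ∀ ψ : ℝ, β < |ψ| → |ψ| ≤ π → 0 < VV 0 ρ ψ := by
    intro ψ hψ hψ'
    rw [hVV ψ hψ']
    refine mul_pos hV (Real.cos_pos_of_mem_Ioo ⟨?_, ?_⟩)
    · have : 0 ≤ ρ * (π - |ψ|) := mul_nonneg hρ.le (by linarith)
      linarith
    · rw [← hρβ]
      exact mul_lt_mul_of_pos_left (by linarith) hρ
  have hV0 : ∀ ψ : ℝ, |ψ| = β → VV 0 ρ ψ = 0 := by
    intro ψ hψ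
    rw [hVV ψ (by linarith), hψ, hρβ, Real.cos_pi_div_two, mul_zero]
  set w := v * (π / (2 * ρ)) with hw
  have hw0 : 0 < w := mul_pos hV hdiv
  have hW : ∀ ψ : ℝ, |ψ| = β → WW 0 ρ ψ = -w := by
    intro ψ hψ
    rw [WW_eq (by norm_num) hc0 hc1 (by linarith), hψ, hρβ, Real.cos_pi_div_two,
      Real.sin_pi_div_two, hβ, sub_sub_cancel]
    ring
  -- the reflection
  have hrefl : ∀ x : ℝ, a ≤ x → x ≤ b → VV 0 ρ (b - x) = -VV 0 ρ (a - x) := by
    intro x hx hx'
    have e1 : |b - x| = b - x := abs_of_nonneg (by linarith)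
    have e2 : |a - x| = x - a := by rw [abs_sub_comm, abs_of_nonneg (by linarith)]
    rw [hVV (b - x) (by rw [e1]; linarith), hVV (a - x) (by rw [e2]; linarith), e1, e2]
    have e3 : ρ * (π - (b - x)) = π - ρ * (π - (x - a)) := by
      have : ρ * (2 * (π - β)) = π := by linarith
      rw [hb']
      linear_combination this
    rw [e3, Real.cos_pi_sub]
    ring
  -- the two other rays
  obtain ⟨A', B', hA', hB', hAB', hc0', hcπ⟩ : ∃ A' B' : ℝ, h a ≤ A' ∧ h b ≤ B' ∧ A' + B' < 0 ∧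
      (α = 0 → ∀ j, se2S (h b) B' j ≤ se2S (h a) A' j) ∧
      (α = π → ∀ j, se2S (h a) A' j ≤ se2S (h b) B' j) := by
    by_cases ha0 : α = 0
    · have hba : h b ≤ h a := by
        have e : a = -b := by
          rw [hb']
          linarith
        rw [e]
        refine hs b ⟨?_, ?_⟩ <;> linarith
      have hB' : h b ≤ ((min A B : ℝ) : EReal) := by
        rw [EReal.coe_strictMono.monotone.map_min]
        exact le_min (hba.trans hA) hB
      refine ⟨A, min A B, hA, hB', by linarith [min_le_right A B], fun _ j => ?_, fun h3 => ?_⟩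
      · exact se2_mono hba (min_le_left _ _) hA hB' j
      · exact absurd h3 (by rw [ha0]; exact hpi.ne)
    · by_cases haπ : α = π
      · have hba : h a ≤ h b := by
          have e : b = -a + 2 * π := by
            rw [hb']
            linarith
          rw [e, hper]
          refine hs a ⟨?_, ?_⟩ <;> linarith
        have hA' : h a ≤ ((min A B : ℝ) : EReal) := by
          rw [EReal.coe_strictMono.monotone.map_min]
          exact le_min hA (hba.trans hB)
        refine ⟨min A B, B, hA', hB, by linarith [min_le_left A B], fun h3 => absurd h3 ha0,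
          fun _ j => ?_⟩
        exact se2_mono hba (min_le_right _ _) hB hA' j
      · exact ⟨A, B, hA, hB, hAB, fun h3 => absurd h3 ha0, fun h3 => absurd h3 haπ⟩
  set Aj := se2S (h a) A' with hAj
  set Bj := se2S (h b) B' with hBj
  set δ : ℕ → ℝ := fun j => (Aj j - Bj j) / 2 with hδ
  obtain ⟨α', hα'1, hα'2, hα'3, hα'4⟩ : ∃ α' ∈ Icc 0 π, a ≤ α' ∧ α' ≤ b ∧
      (0 < VV 0 ρ (a - α') ∨ ∀ j, δ j ≤ 0) := by
    rcases hαπ.lt_or_eq with hlt' | heq
    · have hm : α < min b π := lt_min (by linarith) hlt'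
      refine ⟨min b π, ⟨by linarith, min_le_right _ _⟩, by linarith, min_le_left _ _, Or.inl ?_⟩
      have hle := min_le_left b π
      refine hVpos _ ?_ ?_
      · rw [abs_sub_comm, abs_of_nonneg (by linarith)]
        linarith
      · rw [abs_sub_comm, abs_of_nonneg (by linarith)]
        linarith
    · refine ⟨α, ⟨hα0, hαπ⟩, by linarith, by linarith, Or.inr fun j => ?_⟩
      have := hcπ heq j
      rw [hδ]
      simp only
      linarith
  obtain ⟨α'', hα''1, hα''2, hα''3, hα''4⟩ : ∃ α'' ∈ Icc 0 π, a ≤ α'' ∧ α'' ≤ b ∧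
      (VV 0 ρ (a - α'') < 0 ∨ ∀ j, 0 ≤ δ j) := by
    rcases hα0.lt_or_eq with hlt' | heq
    · have hm : max a 0 < α := max_lt (by linarith) hlt'
      have hle := le_max_left a 0
      refine ⟨max a 0, ⟨le_max_right _ _, by linarith⟩, hle, by linarith, Or.inl ?_⟩
      refine hVneg _ ?_
      rw [abs_sub_comm, abs_of_nonneg (by linarith)]
      linarith
    · refine ⟨α, ⟨hα0, hαπ⟩, by linarith, by linarith, Or.inr fun j => ?_⟩
      have := hc0' heq.symm j
      rw [hδ]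
      simp only
      linarith
  set P := VV 0 ρ (a - α') with hP
  set P' := VV 0 ρ (a - α'') with hP'
  set γ : Fin 3 → ℝ := ![α, α', α''] with hγ
  set ν : Fin 3 → ℝ := ![1, 0, 0] with hν
  set q : ℕ → ℝ := fun j => -(Aj j + Bj j) / (2 * w) with hq
  set ξ : ℕ → Fin 3 → ℝ := fun j => ![0, max (δ j) 0 / P, max (-δ j) 0 / (-P')] with hξ
  have hq₀ : 0 < -(A' + B') / (2 * w) := by
    apply div_pos <;> linarith
  have hqj : ∀ j, -(A' + B') / (2 * w) ≤ q j := by
    intro j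
    have e1 : Aj j ≤ A' := se2_le hA' j
    have e2 : Bj j ≤ B' := se2_le hB' j
    rw [hq]
    simp only
    gcongr
  have hγT : ∀ l, γ l ∈ TT 0 := by
    have key : ∀ x ∈ Icc (0 : ℝ) π, x ∈ TT 0 := fun x hx => ⟨hx, fun h0 => absurd h0 (by norm_num)⟩
    intro l
    fin_cases l
    · exact key α ⟨hα0, hαπ⟩
    · exact key α' hα'1
    · exact key α'' hα''1
  have hν0 : ∀ l, 0 ≤ ν l := by
    intro l
    fin_cases l <;> simp [hν]
  have hξ0 : ∀ l, 0 < ν l ∨ ∀ j, 0 ≤ ξ j l := by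
    intro l
    fin_cases l
    · left; simp [hν]
    · right
      intro j
      show 0 ≤ max (δ j) 0 / P
      rcases hα'4 with h3 | h3
      · positivity
      · rw [max_eq_right (h3 j), zero_div]
    · right
      intro j
      show 0 ≤ max (-δ j) 0 / (-P')
      rcases hα''4 with h3 | h3
      · have : 0 < -P' := by linarith
        positivity
      · rw [max_eq_right (by linarith [h3 j]), zero_div]
  obtain ⟨f, hf, hind⟩ := exc_realize (p := 0) (by norm_num) hc0 hc1 hγT hν0 hq₀ hqj hξ0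
  have hsumV : ∀ θ, ∑ l, ν l * VV 0 ρ (θ - γ l) = VV 0 ρ (θ - α) := by
    intro θ
    rw [Fin.sum_univ_three]
    simp [hν, hγ]
  have hsumW : ∀ θ, ∑ l, ν l * WW 0 ρ (θ - γ l) = WW 0 ρ (θ - α) := by
    intro θ
    rw [Fin.sum_univ_three]
    simp [hν, hγ]
  have hsumξ : ∀ θ j, ∑ l, ξ j l * VV 0 ρ (θ - γ l) =
      max (δ j) 0 / P * VV 0 ρ (θ - α') + max (-δ j) 0 / (-P') * VV 0 ρ (θ - α'') := by
    intro θ j
    rw [Fin.sum_univ_three]
    simp [hξ, hγ]
  have hξa : ∀ j, max (δ j) 0 / P * P + max (-δ j) 0 / (-P') * P' = δ j := by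
    intro j
    have e1 : max (δ j) 0 / P * P = max (δ j) 0 := by
      rcases hα'4 with h3 | h3
      · exact div_mul_cancel₀ _ h3.ne'
      · rw [max_eq_right (h3 j), zero_div, zero_mul]
    have e2 : max (-δ j) 0 / (-P') * P' = -max (-δ j) 0 := by
      rcases hα''4 with h3 | h3
      · have : P' ≠ 0 := h3.ne
        field_simp
      · rw [max_eq_right (by linarith [h3 j]), zero_div, zero_mul, neg_zero]
    rw [e1, e2]
    rcases le_total 0 (δ j) with h3 | h3
    · rw [max_eq_left h3, max_eq_right (by linarith), neg_zero, add_zero]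
    · rw [max_eq_right h3, max_eq_left (by linarith)]
      ring
  have e_aα : |a - α| = β := by rw [hα, sub_add_cancel_left, abs_neg, abs_of_pos hβ0]
  have e_bα : |b - α| = β := by
    rw [hα, hb', show a + 2 * β - (a + β) = β by ring, abs_of_pos hβ0]
  -- the values
  have ia : ind ρ f a = h a := by
    rw [(hind a).2.2 (by rw [hsumV, hV0 _ e_aα])]
    rw [← se2_limsup hA']
    congr 1
    funext j
    congr 1
    rw [hsumW, hsumξ, hW _ e_aα, ← hP, ← hP', hξa j]
    simp only [hq, hδ]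
    field_simp
    ring
  have ib : ind ρ f b = h b := by
    rw [(hind b).2.2 (by rw [hsumV, hV0 _ e_bα])]
    rw [← se2_limsup hB']
    congr 1
    funext j
    congr 1
    rw [hsumW, hsumξ, hW _ e_bα, hrefl α' hα'2 hα'3, hrefl α'' hα''2 hα''3, ← hP, ← hP']
    have e : max (δ j) 0 / P * -P + max (-δ j) 0 / (-P') * -P' = -δ j := by
      linear_combination (-1) * hξa j
    rw [e]
    simp only [hq, hδ]
    field_simp
    ring
  have im : ∀ θ ∈ Ioo a b, ind ρ f θ = h θ := by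
    intro θ hθ
    rw [hbot θ hθ]
    refine (hind θ).2.1 ?_
    rw [hsumV]
    refine hVneg _ ?_
    rw [abs_lt]
    constructor <;> linarith [hθ.1, hθ.2]
  have io : ∀ θ ∈ Ioo b (a + 2 * π), ind ρ f θ = h θ := by
    intro θ hθ
    rw [htop θ hθ]
    refine (hind θ).1 ?_
    rw [hsumV]
    rcases le_or_gt (θ - α) π with h3 | h3
    · have e : |θ - α| = θ - α := abs_of_nonneg (by linarith [hθ.1])
      refine hVpos _ ?_ ?_
      · rw [e]; linarith [hθ.1]
      · rw [e]; exact h3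
    · rw [← VV_add_int 0 ρ (θ - α) (-1)]
      have e : |θ - α + ((-1 : ℤ) : ℝ) * (2 * π)| = 2 * π - (θ - α) := by
        push_cast
        rw [abs_of_nonpos (by linarith [hθ.2])]
        ring
      refine hVpos _ ?_ ?_
      · rw [e]; linarith [hθ.2]
      · rw [e]; linarith
  have hall : ∀ θ, ind ρ f θ = h θ := by
    intro θ
    have hperi : Function.Periodic h (2 * π) := hper
    set n : ℤ := toIcoDiv (show (0 : ℝ) < 2 * π by positivity) a θ with hn
    set θ' := toIcoMod (show (0 : ℝ) < 2 * π by positivity) a θ with hθ'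
    have e : θ = θ' + n * (2 * π) := by
      have := toIcoMod_add_toIcoDiv_zsmul (show (0 : ℝ) < 2 * π by positivity) a θ
      rw [zsmul_eq_mul] at this
      exact this.symm
    have hmem : θ' ∈ Ico a (a + 2 * π) := toIcoMod_mem_Ico _ a θ
    rw [e, ind_add_int, hperi.int_mul n θ']
    rcases hmem.1.lt_or_eq with h3 | h3
    · rcases lt_trichotomy θ' b with h4 | h4 | h4
      · exact im _ ⟨h3, h4⟩
      · rw [h4]; exact ib
      · exact io _ ⟨h4, hmem.2⟩
    · rw [← h3]; exact ia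
  refine ⟨f, ?_, hall⟩
  set θ₁ := (b + (a + 2 * π)) / 2 with hθ₁
  refine hf.inClass hρ (θ := θ₁) ?_
  rw [hall, htop θ₁ ⟨by linarith, by linarith⟩]
  simp

end HBInf
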