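import Pool.Agent.HBInf.ExcReal
import Pool.Agent.HBInf.KillOne
import Pool.Agent.HBInf.TrigE

/-!
# Exceptional indicators, `1 < ρ < 2`

`ω = π/(2ρ)`, `0 ≤ a ≤ ω`, `b = a + 2ω`, `π - ω ≤ b ≤ π`. `V_0 θ = VV θ = -c cos ρ(π - θ)`, `V_π θ = VV (θ - π) = -c cos ρθ` on
`[0, π]`, `c = -VV 1 ρ π > 0`; both are even and `2π`-periodic. `cos ρa ≥ 0`, `= 0` iff `a = ω`; `π - a ∈ [2ω, 3ω]`
(`π - b ≤ ω`), so `cos ρ(π - a) ≤ 0`, `= 0` iff `b = π - ω`; not both are `0` (`sin ρπ ≠ 0`). Let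
`ν = (x, y) = (cos ρa, -cos ρ(π - a))`, both `≥ 0`, not both `0`: `V_ν = x V_0 + y V_π` vanishes at `a` and at `b`
(`V_ν b = -V_ν a`); as in `Pool.Agent.HBInf.KillOne`, `V_ν θ = c R cos ρ(θ - a - ω)` on `[0, π]`, `R > 0` (compare the
derivative at `a`), so `V_ν > 0` on `(a, b)` and `V_ν < 0` on `[0, a)`, `(b, π]` (`|θ - a - ω| ≤ 2ω`: `a + ω ≤ 2ω`,
`π - a - ω ≤ 2ω`, and `cos` is negative for `ρ|..| ∈ (π/2, π]`). `W_ν a + W_ν b = -c (π/ρ) R < 0` (`KillOne`).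

Let real sequences `A_j ↓ h a`, `B_j ↓ h b` with `A_j + B_j ≤ -c' < 0`, `q j = (A_j + B_j)/(W_ν a + W_ν b) > 0`, and choose `ξ j`
with `V_ξ a = A_j - q j W_ν a`; then `V_ξ b = -V_ξ a = B_j - q j W_ν b` (the sum is right). `V_ξ a = ξ₀ V_0 a + ξ₁ V_π a`,
`V_0 a = -c cos ρ(π - a) ≥ 0`, `V_π a = -c cos ρa ≤ 0`.
* `a < ω`, `b > π - ω`: `x, y > 0`, so `ξ j` is unrestricted and `V_0 a > 0`: `ξ j = (V_ξ a / V_0 a, 0)`.
* `a = ω`: `x = 0`, `V_0 ω > 0`; need `ξ₀ ≥ 0`, i.e. `A_j - q j W_ν a ≥ 0`. Here `R = y`-normalised: `W_ν ω = y c ω`,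
  `W_ν (3ω) = -3 y c ω`, `q j W_ν ω = -(A_j + B_j)/2`, so `V_ξ a = (3 A_j + B_j)/2`; by `h3`, `h a`, `h b` are real
  (otherwise `3A + B < 0` for suitable `A, B`), the sequences are constant and `3 h a + h b ≥ 0`.
* `b = π - ω` (mirror image): `y = 0`, `V_π a = -c cos ρa < 0`, need `ξ₁ ≥ 0`, i.e. `V_ξ a ≤ 0`: likewise
  `V_ξ b = (A_j + 3 B_j)/2 ≥ 0`.
`exc_realize` with `K = 2`, `γ = (0, π)`, `ν`, `q`, `ξ`. For `θ ∈ [0, π]` compare; `h` and `ind` (`ind` of `f`: `V_ν, W_ν, V_ξ`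
are even and periodic, so the formula is) are even and `2π`-periodic.
-/

namespace HBInf

open HBInd Complex Filter Topology Set MeasureTheory
open scoped Real ComplexConjugate

theorem seo_reduce (θ : ℝ) : ∃ d : ℝ, 0 ≤ d ∧ d ≤ π ∧ ∀ (α : Type) (F : ℝ → α),
    (∀ ψ, F (-ψ) = F ψ) → (∀ (ψ : ℝ) (n : ℤ), F (ψ + n * (2 * π)) = F ψ) →
    F θ = F d ∧ F (θ - π) = F (d - π) := by
  obtain ⟨n, hn1, hn2⟩ := exists_int_Ioc θ
  rcases le_total 0 (θ - n * (2 * π)) with h | h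
  · refine ⟨θ - n * (2 * π), h, hn2, fun α F _ hF => ⟨?_, ?_⟩⟩
    · rw [← hF (θ - n * (2 * π)) n]
      congr 1
      ring
    · rw [← hF (θ - n * (2 * π) - π) n]
      congr 1
      ring
  · refine ⟨-(θ - n * (2 * π)), by linarith, by linarith, fun α F he hF => ⟨?_, ?_⟩⟩
    · rw [he, ← hF (θ - n * (2 * π)) n]
      congr 1
      ring
    · rw [← he (-(θ - n * (2 * π)) - π), ← hF (-(-(θ - n * (2 * π)) - π)) (n - 1)]
      congr 1
      push_cast
      ring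

theorem seo_per {h : ℝ → EReal} (hper : ∀ θ, h (θ + 2 * π) = h θ) (ψ : ℝ) (n : ℤ) :
    h (ψ + n * (2 * π)) = h ψ := by
  have h1 : Function.Periodic h (2 * π) := hper
  exact h1.int_mul n ψ

theorem seo_V {ρ : ℝ} (h1 : 1 < ρ) (h2 : ρ < 2) {d : ℝ} (hd0 : 0 ≤ d) (hd1 : d ≤ π) (x y : ℝ) :
    x * VV 1 ρ d + y * VV 1 ρ (d - π) = VV 1 ρ π * kil1f ρ x y d := by
  have hp : (1 : ℕ) ≤ 1 := le_refl 1
  have h1' : ((1 : ℕ) : ℝ) < ρ := by simpa using h1
  have h2' : ρ < ((1 : ℕ) : ℝ) + 1 := by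
    push_cast
    linarith
  have habs1 : |d| = d := abs_of_nonneg hd0
  have habs2 : |d - π| = π - d := by
    rw [abs_of_nonpos (by linarith)]
    ring
  have eV1 : VV 1 ρ d = VV 1 ρ π * Real.cos (ρ * (π - d)) := by
    rw [VV_eq hp h1' h2' d, G_of_abs_le (by rw [habs1]; exact hd1), habs1]
  have eV2 : VV 1 ρ (d - π) = VV 1 ρ π * Real.cos (ρ * d) := by
    rw [VV_eq hp h1' h2' (d - π), G_of_abs_le (by rw [habs2]; linarith), habs2]
    congr 3
    ring
  rw [eV1, eV2, kil1f]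
  ring

theorem seo_W {ρ : ℝ} (h1 : 1 < ρ) (h2 : ρ < 2) {d : ℝ} (hd0 : 0 ≤ d) (hd1 : d ≤ π) (x y : ℝ) :
    x * WW 1 ρ d + y * WW 1 ρ (d - π) =
      WW 1 ρ π * kil1f ρ x y d - VV 1 ρ π * kil1w ρ x y d := by
  have hp : (1 : ℕ) ≤ 1 := le_refl 1
  have h1' : ((1 : ℕ) : ℝ) < ρ := by simpa using h1
  have h2' : ρ < ((1 : ℕ) : ℝ) + 1 := by
    push_cast
    linarith
  have habs1 : |d| = d := abs_of_nonneg hd0
  have habs2 : |d - π| = π - d := by
    rw [abs_of_nonpos (by linarith)]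
    ring
  have eW1 : WW 1 ρ d = WW 1 ρ π * Real.cos (ρ * (π - d)) -
      VV 1 ρ π * ((π - d) * Real.sin (ρ * (π - d))) := by
    rw [WW_eq hp h1' h2' (by rw [habs1]; exact hd1), habs1]
  have eW2 : WW 1 ρ (d - π) = WW 1 ρ π * Real.cos (ρ * d) -
      VV 1 ρ π * (d * Real.sin (ρ * d)) := by
    rw [WW_eq hp h1' h2' (by rw [habs2]; linarith), habs2, show π - (π - d) = d by ring]
  rw [eW1, eW2, kil1f, kil1w]
  ring

/-- the density on the ray `0` -/
noncomputable def seox (ρ a : ℝ) : ℝ := Real.cos (ρ * a)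

/-- the density on the ray `π` -/
noncomputable def seoy (ρ a : ℝ) : ℝ := -Real.cos (ρ * (π - a))

theorem seo_f (ρ a t : ℝ) :
    kil1f ρ (seox ρ a) (seoy ρ a) t = Real.sin (ρ * π) * Real.sin (ρ * (t - a)) := by
  have h1 : kil1f ρ (seox ρ a) (seoy ρ a) a = 0 := by
    unfold kil1f seox seoy
    ring
  have h2 : kil1g ρ (seox ρ a) (seoy ρ a) a = Real.sin (ρ * π) := by
    unfold kil1g seox seoy
    rw [show ρ * π = ρ * (π - a) + ρ * a by ring, Real.sin_add]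
    ring
  rw [kil1_f_eq ρ _ _ a t, h1, h2]
  ring

theorem seo_g (ρ a : ℝ) : kil1g ρ (seox ρ a) (seoy ρ a) a = Real.sin (ρ * π) := by
  unfold kil1g seox seoy
  rw [show ρ * π = ρ * (π - a) + ρ * a by ring, Real.sin_add]
  ring

theorem seo_x_nonneg {ρ a : ℝ} (hρ : 0 < ρ) (ha0 : 0 ≤ a) (ha1 : a ≤ π / (2 * ρ)) :
    0 ≤ seox ρ a := by
  have h1 : ρ * a ≤ π / 2 := by
    rw [le_div_iff₀ (by positivity)] at ha1
    linarith
  have h2 : 0 ≤ ρ * a := by positivity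
  exact Real.cos_nonneg_of_mem_Icc ⟨by linarith [Real.pi_pos], h1⟩

theorem seo_x_pos {ρ a : ℝ} (hρ : 0 < ρ) (ha0 : 0 ≤ a) (ha1 : a < π / (2 * ρ)) :
    0 < seox ρ a := by
  have h1 : ρ * a < π / 2 := by
    rw [lt_div_iff₀ (by positivity)] at ha1
    linarith
  have h2 : 0 ≤ ρ * a := by positivity
  exact Real.cos_pos_of_mem_Ioo ⟨by linarith [Real.pi_pos], h1⟩

theorem seo_y_eq {ρ : ℝ} (hρ : 0 < ρ) (a : ℝ) : seoy ρ a = Real.cos (ρ * (π - (a + π / ρ))) := by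
  unfold seoy
  rw [show ρ * (π - (a + π / ρ)) = ρ * (π - a) - π by field_simp; ring, Real.cos_sub_pi]

theorem seo_y_nonneg {ρ a : ℝ} (hρ : 0 < ρ) (hb0 : π - π / (2 * ρ) ≤ a + π / ρ)
    (hb1 : a + π / ρ ≤ π) : 0 ≤ seoy ρ a := by
  rw [seo_y_eq hρ]
  exact seo_x_nonneg hρ (by linarith) (by linarith)

theorem seo_y_pos {ρ a : ℝ} (hρ : 0 < ρ) (hb0 : π - π / (2 * ρ) < a + π / ρ)
    (hb1 : a + π / ρ ≤ π) : 0 < seoy ρ a := by
  rw [seo_y_eq hρ]
  exact seo_x_pos hρ (by linarith) (by linarith)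

/-- the main construction -/
theorem seo_core {ρ : ℝ} (h1 : 1 < ρ) (h2 : ρ < 2) {a : ℝ} (ha0 : 0 ≤ a)
    (ha1 : a ≤ π / (2 * ρ)) (hb0 : π - π / (2 * ρ) ≤ a + π / ρ) (hb1 : a + π / ρ ≤ π)
    {h : ℝ → EReal} (hper : ∀ θ, h (θ + 2 * π) = h θ) (heven : ∀ θ, h (-θ) = h θ)
    (htop : ∀ θ ∈ Ioo a (a + π / ρ), h θ = ⊤) (hbot1 : ∀ θ ∈ Ico 0 a, h θ = ⊥)
    (hbot2 : ∀ θ ∈ Ioc (a + π / ρ) π, h θ = ⊥) {A B : ℕ → ℝ} {s : ℝ} (hs : s < 0)
    (hAB : ∀ j, A j + B j ≤ s) (hA : Tendsto (fun j => (A j : EReal)) atTop (𝓝 (h a)))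
    (hB : Tendsto (fun j => (B j : EReal)) atTop (𝓝 (h (a + π / ρ)))) (u v : ℕ → ℝ)
    (hξ : ∀ j, VV 1 ρ π * kil1f ρ (u j) (v j) a = A j +
      (A j + B j) / (-VV 1 ρ π * (π / ρ * Real.sin (ρ * π))) *
        (VV 1 ρ π * kil1w ρ (seox ρ a) (seoy ρ a) a))
    (hu : 0 < seox ρ a ∨ ∀ j, 0 ≤ u j) (hv : 0 < seoy ρ a ∨ ∀ j, 0 ≤ v j) :
    ∃ f : ℂ → ℂ, InClass ρ f ∧ ∀ θ, ind ρ f θ = h θ := by
  have hρ : 0 < ρ := by linarith
  have hπ := Real.pi_pos
  have hc := VV_pi_one h1 h2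
  have hsin := kil1_sin h1 h2
  have hdiv : 0 < π / ρ := by positivity
  have hp : (1 : ℕ) ≤ 1 := le_refl 1
  have h1' : ((1 : ℕ) : ℝ) < ρ := by simpa using h1
  have h2' : ρ < ((1 : ℕ) : ℝ) + 1 := by
    push_cast
    linarith
  set x := seox ρ a with hx
  set y := seoy ρ a with hy
  set M : ℝ := -VV 1 ρ π * (π / ρ * Real.sin (ρ * π)) with hM
  have hMneg : M < 0 :=
    mul_neg_of_pos_of_neg (by linarith) (mul_neg_of_pos_of_neg hdiv hsin)
  have hxn : 0 ≤ x := seo_x_nonneg hρ ha0 ha1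
  have hyn : 0 ≤ y := seo_y_nonneg hρ hb0 hb1
  obtain ⟨f, hf, hind⟩ := exc_realize hp h1' h2' (K := 2) (γ := ![0, π]) (ν := ![x, y])
    (q := fun j => (A j + B j) / M) (ξ := fun j => ![u j, v j]) (q₀ := s / M)
    (by
      intro l
      fin_cases l
      · exact ⟨⟨le_refl _, hπ.le⟩, fun _ => Or.inl rfl⟩
      · exact ⟨⟨hπ.le, le_refl _⟩, fun _ => Or.inr rfl⟩)
    (by
      intro l
      fin_cases l
      · exact hxn
      · exact hyn)
    (div_pos_of_neg_of_neg hs hMneg)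
    (fun j => div_le_div_of_nonpos_of_le hMneg.le (hAB j))
    (by
      intro l
      fin_cases l
      · exact hu
      · exact hv)
  simp only [Fin.sum_univ_two, Matrix.cons_val_zero, Matrix.cons_val_one, sub_zero] at hind
  have key : ∀ θ, ind ρ f θ = h θ := by
    intro θ
    obtain ⟨d, hd0, hd1, hd⟩ := seo_reduce θ
    obtain ⟨hV1, hV2⟩ := hd ℝ (VV 1 ρ) (VV_neg 1 ρ) (VV_add_int 1 ρ)
    obtain ⟨hW1, hW2⟩ := hd ℝ (WW 1 ρ) (WW_neg 1 ρ) (WW_add_int 1 ρ)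
    obtain ⟨hh, -⟩ := hd EReal h heven (seo_per hper)
    obtain ⟨i1, i2, i3⟩ := hind θ
    rw [hV1, hV2, seo_V h1 h2 hd0 hd1, seo_f] at i1 i2 i3
    rw [hW1, hW2, seo_W h1 h2 hd0 hd1, seo_f] at i3
    simp only [seo_V h1 h2 hd0 hd1] at i3
    rw [hh]
    have hK : VV 1 ρ π * Real.sin (ρ * π) > 0 := mul_pos_of_neg_of_neg hc hsin
    rcases lt_trichotomy d a with hlt | heq | hgt
    · rw [hbot1 d ⟨hd0, hlt⟩]
      apply i2
      have h5 : Real.sin (ρ * (d - a)) < 0 := by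
        apply Real.sin_neg_of_neg_of_neg_pi_lt
        · exact mul_neg_of_pos_of_neg hρ (by linarith)
        · rw [le_div_iff₀ (by positivity)] at ha1
          nlinarith
      rw [← mul_assoc]
      exact mul_neg_of_pos_of_neg hK h5
    · rw [heq] at i3 ⊢
      rw [sub_self, mul_zero, Real.sin_zero, mul_zero, mul_zero, mul_zero, zero_sub] at i3
      rw [i3 rfl]
      rw [← hA.limsup_eq]
      congr 1
      funext j
      rw [hξ j]
      congr 1
      ring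
    · rcases lt_trichotomy d (a + π / ρ) with hlt' | heq' | hgt'
      · rw [htop d ⟨hgt, hlt'⟩]
        apply i1
        have h5 : 0 < Real.sin (ρ * (d - a)) := by
          apply Real.sin_pos_of_pos_of_lt_pi
          · exact mul_pos hρ (by linarith)
          · have h6 : ρ * (d - a) < ρ * (π / ρ) := mul_lt_mul_of_pos_left (by linarith) hρ
            rwa [mul_div_cancel₀ _ hρ.ne'] at h6
        rw [← mul_assoc]
        exact mul_pos hK h5
      · have h6 : ρ * (d - a) = π := by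
          rw [heq']
          field_simp
          ring
        rw [h6, Real.sin_pi, mul_zero, mul_zero, mul_zero, zero_sub] at i3
        rw [i3 rfl, heq', ← hB.limsup_eq]
        congr 1
        funext j
        rw [kil1_f_shift hρ]
        have hw := kil1_w_add hρ x y a
        rw [hx, hy, seo_g, ← hx, ← hy] at hw
        have h7 : kil1w ρ x y (a + π / ρ) = π / ρ * Real.sin (ρ * π) - kil1w ρ x y a := by
          linarith
        congr 1
        have h8 : (A j + B j) / M * (-VV 1 ρ π * (π / ρ * Real.sin (ρ * π))) = A j + B j := by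
          rw [← hM, div_mul_cancel₀ _ hMneg.ne]
        linear_combination (-1) * hξ j - (A j + B j) / M * VV 1 ρ π * h7 + h8
      · rw [hbot2 d ⟨hgt', hd1⟩]
        apply i2
        have h5 : Real.sin (ρ * (d - a)) < 0 := by
          have h6 : Real.sin (ρ * (d - a)) = -Real.sin (ρ * (d - a) - π) := by
            rw [Real.sin_sub_pi, neg_neg]
          rw [h6, neg_lt_zero]
          apply Real.sin_pos_of_pos_of_lt_pi
          · have h7 : ρ * (π / ρ) < ρ * (d - a) := mul_lt_mul_of_pos_left (by linarith) hρ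
            rw [mul_div_cancel₀ _ hρ.ne'] at h7
            linarith
          · have h7 : ρ * (d - a) ≤ ρ * π := mul_le_mul_of_nonneg_left (by linarith) hρ.le
            nlinarith
        rw [← mul_assoc]
        exact mul_neg_of_pos_of_neg hK h5
  refine ⟨f, hf.inClass hρ (θ := a + π / (2 * ρ)) ?_, key⟩
  rw [key, htop]
  · exact EReal.zero_lt_top
  · have h3 : π / ρ = π / (2 * ρ) + π / (2 * ρ) := by field_simp; ring
    have h4 : 0 < π / (2 * ρ) := by positivity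
    constructor <;> linarith

/-- real sequences -/
theorem seo_seq {e : EReal} {A : ℝ} (h : e ≤ A) : ∃ u : ℕ → ℝ, (∀ j, u j ≤ A) ∧
    Tendsto (fun j => (u j : EReal)) atTop (𝓝 e) := by
  induction e using EReal.rec with
  | bot =>
    refine ⟨fun j => A - j, fun j => by
      have : (0 : ℝ) ≤ j := Nat.cast_nonneg j
      linarith, ?_⟩
    rw [EReal.tendsto_coe_nhds_bot_iff]
    simp only [sub_eq_add_neg]
    exact tendsto_atBot_add_const_left _ A
      (tendsto_neg_atTop_atBot.comp tendsto_natCast_atTop_atTop)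
  | coe r => exact ⟨fun _ => r, fun _ => by exact_mod_cast h, tendsto_const_nhds⟩
  | top => exact absurd h (by simp)

theorem seo_real {e : EReal} {A : ℝ} (h : e ≤ A) : (∃ r : ℝ, e = r) ∨ e = ⊥ := by
  induction e using EReal.rec with
  | bot => exact Or.inr rfl
  | coe r => exact Or.inl ⟨r, rfl⟩
  | top => exact absurd h (by simp)

theorem suff_EOne {ρ : ℝ} (h1 : 1 < ρ) (h2 : ρ < 2) {h : ℝ → EReal}
    (hper : ∀ θ, h (θ + 2 * π) = h θ) (hE : ExcOne ρ h) :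
    ∃ f : ℂ → ℂ, InClass ρ f ∧ ∀ θ, ind ρ f θ = h θ := by
  obtain ⟨a, A, B, ha0, ha1, hb0, hb1, hA, hB, hAB, heven, htop, hbot1, hbot2, hc1, hc2⟩ := hE
  have hρ : 0 < ρ := by linarith
  have hπ := Real.pi_pos
  have hc := VV_pi_one h1 h2
  have hsin := kil1_sin h1 h2
  have hdiv : 0 < π / ρ := by positivity
  have hK : VV 1 ρ π * Real.sin (ρ * π) > 0 := mul_pos_of_neg_of_neg hc hsin
  have hhalf : π / ρ = π / (2 * ρ) + π / (2 * ρ) := by field_simp; ring
  rcases ha1.lt_or_eq with ha | ha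
  · rcases hb0.lt_or_eq with hb | hb
    · obtain ⟨u, hu, hu'⟩ := seo_seq hA
      obtain ⟨v, hv, hv'⟩ := seo_seq hB
      have h3 : ∀ j, ∃ ξ : ℝ × ℝ, VV 1 ρ π * kil1f ρ ξ.1 ξ.2 a = u j +
          (u j + v j) / (-VV 1 ρ π * (π / ρ * Real.sin (ρ * π))) *
            (VV 1 ρ π * kil1w ρ (seox ρ a) (seoy ρ a) a) := by
        intro j
        obtain ⟨ξ, η, h4⟩ := kil1_xi h1 h2 a ((u j +
          (u j + v j) / (-VV 1 ρ π * (π / ρ * Real.sin (ρ * π))) *
            (VV 1 ρ π * kil1w ρ (seox ρ a) (seoy ρ a) a)) / VV 1 ρ π)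
        exact ⟨(ξ, η), by rw [h4, mul_div_cancel₀ _ hc.ne]⟩
      choose ξ hξ using h3
      exact seo_core h1 h2 ha0 ha1 hb0 hb1 hper heven htop hbot1 hbot2 hAB
        (fun j => add_le_add (hu j) (hv j)) hu' hv' (fun j => (ξ j).1) (fun j => (ξ j).2) hξ
        (Or.inl (seo_x_pos hρ ha0 ha)) (Or.inl (seo_y_pos hρ hb hb1))
    · -- `b = π - ω`
      obtain ⟨B₀, hB₀⟩ : ∃ B₀ : ℝ, h (a + π / ρ) = B₀ := by
        obtain ⟨r, hr⟩ | hr := seo_real hB
        · exact ⟨r, hr⟩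
        · exfalso
          have h3 := hc2 hb.symm A (-(A + 1) / 3 + 0) hA (by rw [hr]; exact bot_le)
          linarith
      obtain ⟨A₀, hA₀⟩ : ∃ A₀ : ℝ, h a = A₀ := by
        obtain ⟨r, hr⟩ | hr := seo_real hA
        · exact ⟨r, hr⟩
        · exfalso
          have h3 := hc2 hb.symm (-(3 * B + 1)) B (by rw [hr]; exact bot_le) hB
          linarith
      have h4 : 0 ≤ A₀ + 3 * B₀ := hc2 hb.symm A₀ B₀ hA₀.le hB₀.le
      have h5 : A₀ + B₀ < 0 := by
        rw [hA₀] at hA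
        rw [hB₀] at hB
        have h6 : A₀ ≤ A := by exact_mod_cast hA
        have h7 : B₀ ≤ B := by exact_mod_cast hB
        linarith
      have hbe : a = π - 3 * (π / (2 * ρ)) := by linarith
      have hx : seox ρ a = -Real.sin (ρ * π) := by
        rw [seox, hbe, show ρ * (π - 3 * (π / (2 * ρ))) = ρ * π - (π / 2 + π) by field_simp; ring,
          Real.cos_sub, Real.cos_add_pi, Real.sin_add_pi, Real.cos_pi_div_two,
          Real.sin_pi_div_two]
        ring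
      have hy : seoy ρ a = 0 := by
        rw [seo_y_eq hρ, ← hb, show ρ * (π - (π - π / (2 * ρ))) = π / 2 by field_simp; ring,
          Real.cos_pi_div_two]
      have hxpos : 0 < seox ρ a := by rw [hx]; linarith
      have hw : kil1w ρ (seox ρ a) (seoy ρ a) a = -Real.sin (ρ * π) * -(3 * (π / (2 * ρ))) := by
        rw [kil1w, hx, hy, hbe, show ρ * (π - (π - 3 * (π / (2 * ρ)))) = π / 2 + π by
          field_simp; ring, Real.sin_add_pi, Real.sin_pi_div_two]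
        ring
      have hw2 : (A₀ + B₀) / (-VV 1 ρ π * (π / ρ * Real.sin (ρ * π))) *
          (VV 1 ρ π * kil1w ρ (seox ρ a) (seoy ρ a) a) = -(A₀ + B₀) * (3 / 2) := by
        rw [hw]
        generalize Real.sin (ρ * π) = S at hsin ⊢
        have := hc.ne
        have := hsin.ne
        field_simp
      refine seo_core h1 h2 ha0 ha1 hb0 hb1 hper heven htop hbot1 hbot2 h5 (A := fun _ => A₀)
        (B := fun _ => B₀) (fun _ => le_refl _) (by rw [hA₀]; exact tendsto_const_nhds)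
        (by rw [hB₀]; exact tendsto_const_nhds) (fun _ => 0)
        (fun _ => (A₀ + -(A₀ + B₀) * (3 / 2)) / (VV 1 ρ π * seox ρ a)) ?_
        (Or.inl hxpos) (Or.inr fun _ => ?_)
      · intro _
        rw [hw2, kil1f, show Real.cos (ρ * a) = seox ρ a from rfl]
        generalize seox ρ a = X at hxpos ⊢
        have := hc.ne
        have := hxpos.ne'
        field_simp
        ring
      · apply div_nonneg_of_nonpos
        · linarith
        · exact (mul_neg_of_neg_of_pos hc hxpos).le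
  · -- `a = ω`
    obtain ⟨B₀, hB₀⟩ : ∃ B₀ : ℝ, h (a + π / ρ) = B₀ := by
      obtain ⟨r, hr⟩ | hr := seo_real hB
      · exact ⟨r, hr⟩
      · exfalso
        have h3 := hc1 ha A (-(3 * A + 1)) hA (by rw [hr]; exact bot_le)
        linarith
    obtain ⟨A₀, hA₀⟩ : ∃ A₀ : ℝ, h a = A₀ := by
      obtain ⟨r, hr⟩ | hr := seo_real hA
      · exact ⟨r, hr⟩
      · exfalso
        have h3 := hc1 ha (-(B + 1) / 3) B (by rw [hr]; exact bot_le) hB
        linarith
    have h4 : 0 ≤ 3 * A₀ + B₀ := hc1 ha A₀ B₀ hA₀.le hB₀.le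
    have h5 : A₀ + B₀ < 0 := by
      rw [hA₀] at hA
      rw [hB₀] at hB
      have h6 : A₀ ≤ A := by exact_mod_cast hA
      have h7 : B₀ ≤ B := by exact_mod_cast hB
      linarith
    have hx : seox ρ a = 0 := by
      rw [seox, ha, show ρ * (π / (2 * ρ)) = π / 2 by field_simp, Real.cos_pi_div_two]
    have hy : seoy ρ a = -Real.sin (ρ * π) := by
      rw [seoy, ha, show ρ * (π - π / (2 * ρ)) = ρ * π - π / 2 by field_simp,
        Real.cos_sub_pi_div_two]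
    have hypos : 0 < seoy ρ a := by rw [hy]; linarith
    have hw : kil1w ρ (seox ρ a) (seoy ρ a) a = -Real.sin (ρ * π) * (π / (2 * ρ)) := by
      rw [kil1w, hx, hy, ha, show ρ * (π / (2 * ρ)) = π / 2 by field_simp,
        Real.sin_pi_div_two]
      ring
    have hw2 : (A₀ + B₀) / (-VV 1 ρ π * (π / ρ * Real.sin (ρ * π))) *
        (VV 1 ρ π * kil1w ρ (seox ρ a) (seoy ρ a) a) = (A₀ + B₀) / 2 := by
      rw [hw]
      generalize Real.sin (ρ * π) = S at hsin ⊢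
      have := hc.ne
      have := hsin.ne
      field_simp
    refine seo_core h1 h2 ha0 ha1 hb0 hb1 hper heven htop hbot1 hbot2 h5 (A := fun _ => A₀)
      (B := fun _ => B₀) (fun _ => le_refl _) (by rw [hA₀]; exact tendsto_const_nhds)
      (by rw [hB₀]; exact tendsto_const_nhds)
      (fun _ => (A₀ + (A₀ + B₀) / 2) / (-VV 1 ρ π * seoy ρ a)) (fun _ => 0) ?_
      (Or.inr fun _ => ?_) (Or.inl hypos)
    · intro _
      rw [hw2, kil1f, show Real.cos (ρ * (π - a)) = -seoy ρ a by rw [seoy, neg_neg]]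
      have := hc.ne
      have := hypos.ne'
      field_simp
      ring
    · apply div_nonneg
      · linarith
      · exact (mul_pos (by linarith) hypos).le

end HBInf
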