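import Pool.Agent.HBInf.WinSeq
import Pool.Agent.HBInf.CondAReal

/-!
# Sufficiency, the regular case

`suff_reg`: `exists_winSeq`, `glueW` with `K = 0`. The first two items below show `ind ρ f θ = h θ` if `θ ∈ Q` or `h θ = ⊤`;
there is such a `θ` with `h θ > 0` (`hne`; if `h θ > 0` with `θ` interior in `{h ≠ ⊤}` then `h > 0` near `θ` by `condT_lsc`, and
`Q` is dense there), so `f` is in the class (`Pre.inClass`), which is needed for `condT_ind`.
* `θ ∈ Q`: for real `g > h θ`: for `j ≥ J`, `wpot ≤ g`; for large `t` only `xi` with `j ≥ J` are nonzero and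
  `∑ xi = 1` (`tsum_xi_le`), so the sum is `≤ g`: `ind ρ f θ ≤ h θ`.
* `θ ∈ Q` or `h θ = ⊤`, real `M < h θ`: at `t = mid T w j`, `∑' = wpot (α j) (c j) 0 θ` (`tsum_xi_eq`, `mid_mem`) `≥ M` for
  infinitely many `j` (`tendsto_mid`): `ind ρ f θ ≥ M`. So `ind ρ f θ = h θ` there.
* other `θ`: `squeeze_upper` and `squeeze_lower` (`condT_ind`), such `θ` are interior in `{h ≠ ⊤}`.
-/

namespace HBInf

open HBInd Complex Filter Topology Set MeasureTheory
open scoped Real ComplexConjugate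

/-- upper bound of the glued potential on a ray which is controlled by almost all windows -/
theorem srg_upper {T w : ℕ → ℝ} (hw : ∀ j, 0 < w j) (hT : ∀ j, T j + w j + 4 ≤ T (j + 1))
    {V : ℕ → ℝ → ℝ} {g : ℝ} (hV : ∀ᶠ j in atTop, ∀ t, V j t ≤ g) :
    limsup (fun t : ℝ => ((∑' j, xi T w j t * V j (t - mid T w j) : ℝ) : EReal)) atTop ≤ g := by
  obtain ⟨M, hM⟩ := eventually_atTop.1 hV
  refine limsup_le_of_le (by isBoundedDefault) ?_
  filter_upwards [eventually_ge_atTop (T M + w M)] with t ht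
  rw [EReal.coe_le_coe_iff]
  refine tsum_xi_le hw hT ?_ fun j hj => ?_
  · rcases Nat.eq_zero_or_pos M with h0 | h0
    · rwa [h0] at ht
    · have h4 : T 1 ≤ T M := T_mono hw hT h0
      have h5 := hT 0
      rw [zero_add] at h5
      have h6 := hw M
      linarith
  · have hjM : M ≤ j := by
      by_contra hcon
      rw [not_le] at hcon
      refine hj (xi_eq_zero_right hw hT ?_)
      refine le_trans ?_ ht
      rcases eq_or_lt_of_le (Nat.succ_le_of_lt hcon) with h' | h'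
      · rw [← h']
      · have h4 : T (j + 1 + 1) ≤ T M := T_mono hw hT h'
        have h5 := hT (j + 1)
        have h6 := hw M
        linarith
    exact hM j hjM _

/-- lower bound of the glued potential -/
theorem srg_lower {T w : ℕ → ℝ} (hw : ∀ j, 0 < w j) (hT : ∀ j, T j + w j + 4 ≤ T (j + 1))
    {V : ℕ → ℝ → ℝ} {M : ℝ} (hV : ∃ᶠ j in atTop, M ≤ V j 0) :
    (M : EReal) ≤
      limsup (fun t : ℝ => ((∑' j, xi T w j t * V j (t - mid T w j) : ℝ) : EReal)) atTop := by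
  refine le_limsup_of_frequently_le' ?_
  refine (tendsto_mid hw hT).frequently (hV.mono fun j hj => ?_)
  have h4 : mid T w j ∈ Icc (T j + w j) (T (j + 1)) := by
    have := mid_mem (w := w) hT j (t := 0) (by norm_num)
    rwa [add_zero] at this
  rw [tsum_xi_eq hw hT h4 fun k => V k (mid T w j - mid T w k), sub_self]
  exact_mod_cast hj

theorem suff_reg {p : ℕ} (hp : p ≤ 1) {ρ : ℝ} (h1 : (p : ℝ) < ρ) (h2 : ρ < p + 1)
    {h : ℝ → EReal} (hper : ∀ θ, h (θ + 2 * π) = h θ) (hT : CondT ρ h) (H1 : HRS p ρ h)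
    (H2 : ∀ (n : ℕ) (θ : Fin n → ℝ) (m : Fin n → Measure ℝ) (g : Fin n → ℝ) (θ₀ : ℝ),
      (∀ i, IsFiniteMeasure (m i)) → (∀ i, h (θ i) ≤ g i) →
      (p = 1 → Real.sin θ₀ ≠ 0 ∨ {t | h t ≠ ⊤} ∉ 𝓝 θ₀) →
      Dom p ρ θ m θ₀ → h θ₀ ≤ ((∑ i, (m i).real univ * g i : ℝ) : EReal))
    (hne : ∃ θ, 0 < h θ) : ∃ f : ℂ → ℂ, InClass ρ f ∧ ∀ θ, ind ρ f θ = h θ := by
  have hρ : 0 < ρ := lt_of_le_of_lt (Nat.cast_nonneg p) h1
  obtain ⟨n, α, c, D, Q, hα, hc, hcD, hQD, hQ1, hQ2, hUp, hLo⟩ :=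
    exists_winSeq hp h1 h2 hper hT H1 H2 hne
  obtain ⟨f, T, w, hf, hw, hTT, hT0, hind, -⟩ := glueW hp h1 h2 hα hc hcD (K := 0)
    (γ := Fin.elim0) (fun l => l.elim0) (r := fun l => l.elim0) (B := 0) (fun l => l.elim0)
    (fun l => l.elim0) (fun l => l.elim0)
  have hind' : ∀ θ : ℝ, ind ρ f θ = limsup (fun t : ℝ =>
      ((∑' j, xi T w j t * wpot p ρ (α j) (c j) (t - mid T w j) θ : ℝ) : EReal)) atTop := by
    intro θ
    rw [hind θ]
    congr 1
    funext t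
    have h0 : ∀ (γ : Fin 0 → ℝ) (r : Fin 0 → ℝ → ℝ), wpot p ρ γ r t θ = 0 := by
      intro γ r
      unfold wpot
      simp
    rw [h0, add_zero]
  have hle : ∀ θ ∈ Q, ind ρ f θ ≤ h θ := by
    intro θ hθ
    refine EReal.le_of_forall_lt_iff_le.1 fun g hg => ?_
    rw [hind' θ]
    exact srg_upper hw hTT (V := fun j t => wpot p ρ (α j) (c j) t θ) (hUp θ hθ g hg)
  have hge : ∀ θ, (θ ∈ Q ∨ h θ = ⊤) → h θ ≤ ind ρ f θ := by
    intro θ hθ
    refine EReal.ge_of_forall_gt_iff_ge.1 fun M hM => ?_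
    rw [hind' θ]
    exact srg_lower hw hTT (V := fun j t => wpot p ρ (α j) (c j) t θ) (hLo θ hθ M hM)
  have heq : ∀ θ, (θ ∈ Q ∨ h θ = ⊤) → ind ρ f θ = h θ := by
    intro θ hθ
    refine le_antisymm ?_ (hge θ hθ)
    rcases hθ with h3 | h3
    · exact hle θ h3
    · rw [h3]; exact le_top
  have hpos : ∃ θ, (θ ∈ Q ∨ h θ = ⊤) ∧ 0 < h θ := by
    obtain ⟨θ, hθ⟩ := hne
    by_cases h3 : θ ∈ Q ∨ h θ = ⊤
    · exact ⟨θ, h3, hθ⟩
    · rw [not_or] at h3
      have hx : {t | h t ≠ ⊤} ∈ 𝓝 θ := by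
        rw [← mem_interior_iff_mem_nhds]
        by_contra hcon
        exact h3.1 (hQ1 ⟨h3.2, hcon⟩)
      have e1 := condT_lsc hρ hT hx (g := 0) (by exact_mod_cast hθ)
      obtain ⟨δ, hδ, hδ2, hδs⟩ := tre_radius hρ (Filter.inter_mem hx e1)
      obtain ⟨q, hq, hq1, hq2⟩ := hQ2 (θ - δ) (θ + δ) (by linarith) fun t ht =>
        (hδs t (by rw [abs_le]; constructor <;> linarith [ht.1, ht.2])).1
      have h4 := (hδs q (by rw [abs_le]; constructor <;> linarith)).2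
      exact ⟨q, Or.inl hq, by exact_mod_cast h4⟩
  obtain ⟨θ₁, hθ₁, hpos₁⟩ := hpos
  have hfc : InClass ρ f := hf.inClass hρ (θ := θ₁) (by rw [heq θ₁ hθ₁]; exact hpos₁)
  have hk := condT_ind hρ hfc
  have hup := squeeze_upper hρ hT hk hle hQ1 hQ2
  refine ⟨f, hfc, fun θ => ?_⟩
  by_cases h3 : θ ∈ Q ∨ h θ = ⊤
  · exact heq θ h3
  · rw [not_or] at h3
    have hx : {t | h t ≠ ⊤} ∈ 𝓝 θ := by
      rw [← mem_interior_iff_mem_nhds]
      by_contra hcon
      exact h3.1 (hQ1 ⟨h3.2, hcon⟩)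
    exact le_antisymm (hup θ)
      (squeeze_lower hρ hT hk hup (fun q hq => hge q (Or.inl hq)) hQ2 hx)

theorem suff_zero {ρ : ℝ} (h1 : 1 / 2 < ρ) (h2 : ρ < 1) {h : ℝ → EReal}
    (hper : ∀ θ, h (θ + 2 * π) = h θ) (hT : CondT ρ h) (hA : CondA 0 ρ h) (hC : CondC ρ h)
    (hne : ∃ θ, 0 < h θ) : ∃ f : ℂ → ℂ, InClass ρ f ∧ ∀ θ, ind ρ f θ = h θ :=
  suff_reg (p := 0) (by norm_num) (by push_cast; linarith) (by push_cast; linarith) hper hT
    (hrs_zero h1 h2 hper hA hC)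
    (fun n θ m g θ₀ hm hg _ hd => hA n θ m g θ₀ hm hg (by norm_num) hd) hne

theorem suff_one {ρ : ℝ} (h1 : 1 < ρ) (h2 : ρ < 2) {h : ℝ → EReal}
    (hper : ∀ θ, h (θ + 2 * π) = h θ) (hT : CondT ρ h) (hA : CondA 1 ρ h) (hC : CondC ρ h)
    (hne : ∃ θ, 0 < h θ) : ∃ f : ℂ → ℂ, InClass ρ f ∧ ∀ θ, ind ρ f θ = h θ :=
  suff_reg (p := 1) le_rfl (by push_cast; linarith) (by push_cast; linarith) hper hT
    (hrs_one h1 h2 hper hA hC)
    (fun n θ m g θ₀ hm hg hs hd => by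
      by_cases hs0 : Real.sin θ₀ = 0
      · exact condA_real h1 h2 hper hT hA (hrs_one h1 h2 hper hA hC) hs0
          ((hs rfl).resolve_left (fun h => h hs0)) hm hg hd
      · exact hA n θ m g θ₀ hm hg (fun _ => hs0) hd) hne

end HBInf
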