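import Pool.Agent.HBInf.NecMain
import Pool.Agent.HBInf.SuffReg
import Pool.Agent.HBInf.SuffE1
import Pool.Agent.HBInf.SuffE2
import Pool.Agent.HBInf.SuffEOne
import Pool.Agent.HBInd.Special
import Pool.Agent.HBInd.MinimalP

/-!
# The set of indicators, `1/2 < ρ < 2`, `ρ ≠ 1`: assembly
-/

namespace HBInf

open HBInd Complex Filter Topology Set MeasureTheory
open scoped Real ComplexConjugate

theorem eq_zero_of_condC {ρ : ℝ} {h : ℝ → EReal} (hC : CondC ρ h) (hle : ∀ θ, h θ ≤ 0) (θ : ℝ) :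
    h θ = 0 := by
  refine le_antisymm (hle θ) (le_of_not_gt fun hlt => ?_)
  obtain ⟨A, h1, h2⟩ := EReal.lt_iff_exists_real_btwn.1 hlt
  have h3 := hC θ A 0 h1.le (by simpa using hle (θ + π / ρ))
  have h4 : A < 0 := by exact_mod_cast h2
  linarith

theorem suffExcZero {ρ : ℝ} (h1 : 1 / 2 < ρ) (h2 : ρ < 1) {h : ℝ → EReal}
    (hper : ∀ θ, h (θ + 2 * π) = h θ) (hT : CondT ρ h) (hE : ExcZero ρ h) :
    ∃ f : ℂ → ℂ, InClass ρ f ∧ ∀ θ, ind ρ f θ = h θ := by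
  have hρ : 0 < ρ := by linarith
  obtain ⟨a, A, B, ha0, haπ, hA, hB, hAB, htop, hs, halt⟩ := hE
  have hlen : (a + (2 * π - π / ρ)) - a < π / ρ := by
    have : π < π / ρ := by rw [lt_div_iff₀ hρ]; nlinarith [Real.pi_pos]
    linarith
  have hlen0 : a < a + (2 * π - π / ρ) := by
    have : π / ρ < 2 * π := by rw [div_lt_iff₀ hρ]; nlinarith [Real.pi_pos]
    linarith
  have hat : h a ≠ ⊤ := fun h0 => by rw [h0] at hA; exact absurd hA (by simp)
  have hbt : h (a + (2 * π - π / ρ)) ≠ ⊤ := fun h0 => by rw [h0] at hB; exact absurd hB (by simp)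
  by_cases hbot : ∀ θ ∈ Ioo a (a + (2 * π - π / ρ)), h θ = ⊥
  · exact suff_E2 h1 h2 hper rfl ha0 haπ hA hB hAB htop hs hbot
  · have halt' := halt.resolve_right hbot
    -- all values on the closed arc are real
    have hreal : ∀ θ ∈ Icc a (a + (2 * π - π / ρ)), h θ ≠ ⊤ ∧ h θ ≠ ⊥ := by
      intro θ hθ
      refine ⟨?_, fun h0 => hbot ?_⟩
      · rcases eq_or_lt_of_le hθ.1 with h3 | h3
        · rw [← h3]; exact hat
        · rcases eq_or_lt_of_le hθ.2 with h4 | h4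
          · rw [h4]; exact hbt
          · exact condT_between hT h3 h4 hlen hat hbt
      · rcases eq_or_lt_of_le hθ.1 with h3 | h3
        · intro t ht
          exact condT_bot_left hρ hT ht.1 ht.2 hlen (by rw [h3]; exact h0) hbt
        · rcases eq_or_lt_of_le hθ.2 with h4 | h4
          · intro t ht
            exact condT_bot_right hρ hT ht.1 ht.2 hlen hat (by rw [← h4]; exact h0)
          · exact condT_bot hρ hT hlen hat hbt ⟨h3, h4⟩ h0
    have hη : ∀ θ ∈ Icc a (a + (2 * π - π / ρ)), h θ = ((h θ).toReal : EReal) := fun θ hθ =>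
      (EReal.coe_toReal (hreal θ hθ).1 (hreal θ hθ).2).symm
    refine suff_E1 h1 h2 (η := fun θ => (h θ).toReal) hper hT rfl halt'.1 halt'.2 htop hη ?_
    have e1 := hη a ⟨le_rfl, hlen0.le⟩
    have e2 := hη _ (right_mem_Icc.2 hlen0.le)
    have h3 : (h a).toReal ≤ A := by rw [e1] at hA; exact_mod_cast hA
    have h4 : (h (a + (2 * π - π / ρ))).toReal ≤ B := by rw [e2] at hB; exact_mod_cast hB
    show (h a).toReal + (h (a + (2 * π - π / ρ))).toReal < 0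
    linarith

theorem inf_iff_zero {ρ : ℝ} (h1 : 1 / 2 < ρ) (h2 : ρ < 1) (h : ℝ → EReal) :
    (∃ f : ℂ → ℂ, InClass ρ f ∧ ∀ θ, ind ρ f θ = h θ) ↔
      (∀ θ, h (θ + 2 * π) = h θ) ∧ CondT ρ h ∧
        ((CondA 0 ρ h ∧ CondC ρ h) ∨ ExcZero ρ h) := by
  constructor
  · rintro ⟨f, hf, hh⟩
    obtain rfl : h = ind ρ f := funext fun θ => (hh θ).symm
    exact ⟨ind_add_two_pi ρ f, nec_zero h1 h2 hf⟩
  · rintro ⟨hper, hT, ⟨hA, hC⟩ | hE⟩
    · by_cases hne : ∃ θ, 0 < h θ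
      · exact suff_zero h1 h2 hper hT hA hC hne
      · push Not at hne
        obtain ⟨f, hf, hf0⟩ := exists_minimal (by linarith : 0 < ρ) h2
        exact ⟨f, hf, fun θ => by rw [hf0 θ, eq_zero_of_condC hC hne θ]⟩
    · exact suffExcZero h1 h2 hper hT hE

theorem inf_iff_one {ρ : ℝ} (h1 : 1 < ρ) (h2 : ρ < 2) (h : ℝ → EReal) :
    (∃ f : ℂ → ℂ, InClass ρ f ∧ ∀ θ, ind ρ f θ = h θ) ↔
      (∀ θ, h (θ + 2 * π) = h θ) ∧ CondT ρ h ∧
        ((CondA 1 ρ h ∧ CondC ρ h) ∨ ExcOne ρ h) := by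
  constructor
  · rintro ⟨f, hf, hh⟩
    obtain rfl : h = ind ρ f := funext fun θ => (hh θ).symm
    exact ⟨ind_add_two_pi ρ f, nec_one h1 h2 hf⟩
  · rintro ⟨hper, hT, ⟨hA, hC⟩ | hE⟩
    · by_cases hne : ∃ θ, 0 < h θ
      · exact suff_one h1 h2 hper hT hA hC hne
      · push Not at hne
        obtain ⟨f, hf, hf0⟩ := exists_minimal_gt_one h1 h2
        exact ⟨f, hf, fun θ => by rw [hf0 θ, eq_zero_of_condC hC hne θ]⟩
    · exact suff_EOne h1 h2 hper hE

end HBInf
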