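import Mathlib

/-!
# Gordan's theorem for finitely many continuous functions on a compact space

Let `K ⊆ ℝⁿ` be the convex hull of the compact set `{(v i a)_i : a ∈ X}`; it is compact
(`IsCompact.convexHull`) and convex. If it does not meet the closed convex set `Q = {z : ∀ i, z i ≤ 0}`,
separate (`geometric_hahn_banach_compact_closed`): a linear form `x` with `x · k > c > x · z` for `k ∈ K`, `z ∈ Q`
(up to sign); `Q` is a cone, so `x ≥ 0` and `c ≥ 0` (take `z = 0`), so `∑ x_i v_i a > 0` for all `a`,
contradiction. A point of `K ∩ Q` is a finite convex combination (`convexHull_eq`, `mem_convexHull_iff_exists_fintype`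
or Caratheodory `eq_pos_convex_span_of_mem_convexHull`); reindex by `Fin k`.
-/

namespace HBInf

open Set

/-- Caratheodory with exactly `n + 1` points -/
theorem gor_carath {X : Type} [Nonempty X] {n : ℕ} (V : X → (Fin n → ℝ)) :
    ∀ y ∈ convexHull ℝ (range V), ∃ (w : Fin (n + 1) → ℝ) (a : Fin (n + 1) → X),
      (∀ j, 0 ≤ w j) ∧ ∑ j, w j = 1 ∧ ∑ j, w j • V (a j) = y := by
  classical
  intro y hy
  obtain ⟨ι, hι, z, w, hz, hai, hw, hw1, hwz⟩ := eq_pos_convex_span_of_mem_convexHull hy
  have hcard : Fintype.card ι ≤ Fintype.card (Fin (n + 1)) := by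
    have h := hai.card_le_finrank_succ
    have h2 : Module.finrank ℝ (vectorSpan ℝ (range z)) ≤ n := by
      have h3 := Submodule.finrank_le (vectorSpan ℝ (range z))
      simpa using h3
    rw [Fintype.card_fin]
    omega
  obtain ⟨e⟩ := Function.Embedding.nonempty_of_card_le hcard
  have hz' : ∀ i, ∃ a, V a = z i := fun i => hz (mem_range_self i)
  choose a' ha' using hz'
  obtain ⟨x0⟩ := (inferInstance : Nonempty X)
  refine ⟨Function.extend e w 0, Function.extend e a' (fun _ => x0), ?_, ?_, ?_⟩
  · intro j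
    by_cases hj : ∃ i, e i = j
    · obtain ⟨i, rfl⟩ := hj
      rw [e.injective.extend_apply]
      exact (hw i).le
    · rw [Function.extend_apply' _ _ _ hj]
      exact le_rfl
  · rw [← hw1]
    refine (Fintype.sum_of_injective e e.injective w (Function.extend e w 0) ?_ ?_).symm
    · intro j hj
      rw [Function.extend_apply' _ _ _ (by simpa [mem_range] using hj)]
      rfl
    · intro i
      rw [e.injective.extend_apply]
  · rw [← hwz]
    refine (Fintype.sum_of_injective e e.injective (fun i => w i • z i)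
      (fun j => Function.extend e w 0 j • V (Function.extend e a' (fun _ => x0) j)) ?_ ?_).symm
    · intro j hj
      rw [Function.extend_apply' _ _ _ (by simpa [mem_range] using hj)]
      simp
    · intro i
      rw [e.injective.extend_apply, e.injective.extend_apply, ha']

theorem gor_compact {X : Type} [TopologicalSpace X] [CompactSpace X] [Nonempty X] {n : ℕ}
    (V : X → (Fin n → ℝ)) (hV : Continuous V) : IsCompact (convexHull ℝ (range V)) := by
  have h : convexHull ℝ (range V) =
      (fun p : (Fin (n + 1) → ℝ) × (Fin (n + 1) → X) => ∑ j, p.1 j • V (p.2 j)) ''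
        (stdSimplex ℝ (Fin (n + 1)) ×ˢ (univ : Set (Fin (n + 1) → X))) := by
    ext y
    constructor
    · intro hy
      obtain ⟨w, a, hw, hw1, hwz⟩ := gor_carath V y hy
      exact ⟨(w, a), ⟨⟨hw, hw1⟩, mem_univ _⟩, hwz⟩
    · rintro ⟨p, ⟨⟨hp0, hp1⟩, _⟩, rfl⟩
      exact mem_convexHull_of_exists_fintype p.1 (fun j => V (p.2 j)) hp0 hp1
        (fun j => mem_range_self _) rfl
  rw [h]
  apply IsCompact.image ((isCompact_stdSimplex ℝ (Fin (n + 1))).prod isCompact_univ)
  fun_prop

theorem gordan {X : Type} [TopologicalSpace X] [CompactSpace X] [Nonempty X] {n : ℕ}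
    (v : Fin n → X → ℝ) (hv : ∀ i, Continuous (v i))
    (h : ¬∃ x : Fin n → ℝ, (∀ i, 0 ≤ x i) ∧ ∀ a, 0 < ∑ i, x i * v i a) :
    ∃ (k : ℕ) (a : Fin k → X) (ν : Fin k → ℝ), (∀ j, 0 ≤ ν j) ∧ ∑ j, ν j = 1 ∧
      ∀ i, ∑ j, ν j * v i (a j) ≤ 0 := by
  classical
  set V : X → (Fin n → ℝ) := fun a i => v i a with hVdef
  have hV : Continuous V := continuous_pi fun i => hv i
  by_contra hcon
  have hdisj : Disjoint (convexHull ℝ (range V)) {z : Fin n → ℝ | ∀ i, z i ≤ 0} := by
    rw [Set.disjoint_left]
    intro y hy hyQ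
    obtain ⟨w, a, hw, hw1, hwz⟩ := gor_carath V y hy
    refine hcon ⟨n + 1, a, w, hw, hw1, fun i => ?_⟩
    have h1 : ∑ j, w j * v i (a j) = y i := by
      rw [← hwz]
      simp [V, Finset.sum_apply]
    rw [h1]
    exact hyQ i
  have hQc : Convex ℝ {z : Fin n → ℝ | ∀ i, z i ≤ 0} := by
    intro x hx y hy a b ha hb _ i
    have h1 := mul_nonpos_of_nonneg_of_nonpos ha (hx i)
    have h2 := mul_nonpos_of_nonneg_of_nonpos hb (hy i)
    simp only [Pi.add_apply, Pi.smul_apply, smul_eq_mul]
    linarith
  have hQcl : IsClosed {z : Fin n → ℝ | ∀ i, z i ≤ 0} := by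
    have : {z : Fin n → ℝ | ∀ i, z i ≤ 0} = ⋂ i, {z : Fin n → ℝ | z i ≤ 0} := by
      ext z
      simp
    rw [this]
    exact isClosed_iInter fun i => isClosed_le (continuous_apply i) continuous_const
  obtain ⟨f, u, u', hfu, huu, hfv⟩ := geometric_hahn_banach_compact_closed
    (convex_convexHull ℝ (range V)) (gor_compact V hV) hQc hQcl hdisj
  have hu0 : u' < 0 := by
    have := hfv 0 (fun i => le_rfl)
    simpa using this
  apply h
  refine ⟨fun i => -f (Pi.single i 1), fun i => ?_, fun a => ?_⟩
  · by_contra hneg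
    push Not at hneg
    have hpos : 0 < f (Pi.single i 1) := by linarith
    set t : ℝ := -u' / f (Pi.single i 1) with ht
    have ht0 : 0 < t := div_pos (by linarith) hpos
    have h2 := hfv ((-t) • Pi.single i (1 : ℝ)) (by
      intro j
      simp only [Pi.smul_apply, smul_eq_mul]
      by_cases hj : j = i
      · subst hj
        simp
        exact ht0.le
      · rw [Pi.single_eq_of_ne hj]
        simp)
    rw [map_smul, smul_eq_mul] at h2
    have h3 : t * f (Pi.single i 1) = -u' := by
      rw [ht]
      field_simp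
    linarith
  · have h2 := hfu (V a) (subset_convexHull ℝ _ (mem_range_self a))
    have h3 : f (V a) = ∑ i, v i a * f (Pi.single i 1) := by
      have h4 : V a = ∑ i, (v i a) • (Pi.single i (1 : ℝ) : Fin n → ℝ) := by
        funext j
        simp [V, Finset.sum_apply, Pi.single_apply]
      conv_lhs => rw [h4]
      rw [map_sum]
      refine Finset.sum_congr rfl fun i _ => ?_
      rw [map_smul, smul_eq_mul]
    have h5 : ∑ i, -f (Pi.single i 1) * v i a = -f (V a) := by
      rw [h3, ← Finset.sum_neg_distrib]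
      refine Finset.sum_congr rfl fun i _ => ?_
      ring
    rw [h5]
    linarith

end HBInf
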