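import Pool.Agent.HBInf.DensP

/-!
# Growth of the mixed sums if the sum of the bounds at distance `π / ρ` is negative

`J y = -∑_i e^{-ρ s_i} kap p ρ a (a_i) (y - s_i)`, `kap x = ∫_{-∞}^x (kn t (a - α) + kn t (a - π/ρ - α)) dt`.
* `kap_bound`: `|kap x| ≤ C e^{sg x}` for `x ≤ 0`, `|kap x| ≤ C` always (`integrable_psi`); so the series
  converges absolutely for every `y` (`ZD.N_summable`).
* `∫_Y^y e^{-ρt} (U t a + U t (a - π/ρ)) dt = ∑ e^{-ρ s_i} (kap (y - s_i) - kap (Y - s_i))` (`ZD.U_int`), and it is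
  `≤ (g₁ + g₂) (y - Y)` by the hypothesis. So `J y ≥ -(g₁ + g₂) (y - Y) + J Y`.
-/

namespace HBInf

open HBInd Complex Filter Topology Set MeasureTheory
open scoped Real ComplexConjugate

theorem gro_kn_ae {p : ℕ} (hp : p ≤ 1) (ρ ψ ψ' : ℝ) (μ : Measure ℝ) (hμ : μ ≪ volume) :
    ∀ᵐ t ∂μ, ‖kn p ρ t ψ + kn p ρ t ψ'‖ ≤ 2 * Psi p ρ t := by
  have h0 : ∀ᵐ t : ℝ, t ≠ 0 := by
    have : volume ({0} : Set ℝ) = 0 := Real.volume_singleton
    exact compl_mem_ae_iff.2 this
  filter_upwards [hμ.ae_le h0] with t ht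
  have h1 := abs_kn_le hp ρ ht ψ
  have h2 := abs_kn_le hp ρ ht ψ'
  rw [Real.norm_eq_abs]
  have h3 := abs_add_le (kn p ρ t ψ) (kn p ρ t ψ')
  linarith

theorem gro_min {σ u x : ℝ} (hσ : 0 < σ) (hu : u ≤ x) :
    1 ≤ Real.exp (σ * |u|) * min 1 (Real.exp (σ * x)) := by
  rcases le_total 0 x with hx | hx
  · rw [min_eq_left (Real.one_le_exp (by positivity)), mul_one]
    exact Real.one_le_exp (by positivity)
  · have hle : Real.exp (σ * x) ≤ 1 := by
      rw [Real.exp_le_one_iff]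
      exact mul_nonpos_of_nonneg_of_nonpos hσ.le hx
    rw [min_eq_right hle, ← Real.exp_add]
    apply Real.one_le_exp
    have h1 : |u| = -u := abs_of_nonpos (hu.trans hx)
    rw [h1]
    have : 0 ≤ σ * (x - u) := mul_nonneg hσ.le (by linarith)
    nlinarith

theorem kap_bound {p : ℕ} (hp : p ≤ 1) {ρ : ℝ} (h1 : (p : ℝ) < ρ) (h2 : ρ < p + 1) :
    ∃ C : ℝ, 0 < C ∧ ∀ a α x : ℝ, |kap p ρ a α x| ≤ C * min 1 (Real.exp (sg p ρ * x)) := by
  have hF := integrable_psi hp h1 h2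
  have hF0 : ∀ u : ℝ, 0 ≤ (1 + |u|) ^ 2 * Psi p ρ u * Real.exp (sg p ρ * |u|) := fun u =>
    mul_nonneg (mul_nonneg (by positivity) (Psi_nonneg p ρ u)) (Real.exp_pos _).le
  have hsg := sg_pos h1 h2
  refine ⟨2 * (∫ u : ℝ, (1 + |u|) ^ 2 * Psi p ρ u * Real.exp (sg p ρ * |u|)) + 1, ?_, ?_⟩
  · have : 0 ≤ ∫ u : ℝ, (1 + |u|) ^ 2 * Psi p ρ u * Real.exp (sg p ρ * |u|) :=
      integral_nonneg fun u => hF0 u
    linarith
  · intro a α x
    have hm0 : 0 ≤ min 1 (Real.exp (sg p ρ * x)) := le_min zero_le_one (Real.exp_pos _).le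
    have hI : 0 ≤ ∫ u : ℝ, (1 + |u|) ^ 2 * Psi p ρ u * Real.exp (sg p ρ * |u|) :=
      integral_nonneg fun u => hF0 u
    have hbd : ‖∫ t in Iic x, (kn p ρ t (a - α) + kn p ρ t (a - π / ρ - α))‖ ≤
        ∫ t in Iic x, min 1 (Real.exp (sg p ρ * x)) * (2 * ((1 + |t|) ^ 2 * Psi p ρ t *
          Real.exp (sg p ρ * |t|))) := by
      apply norm_integral_le_of_norm_le
      · exact ((hF.const_mul 2).const_mul _).integrableOn
      · have h3 := gro_kn_ae hp ρ (a - α) (a - π / ρ - α) (volume.restrict (Iic x))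
          Measure.absolutelyContinuous_restrict
        filter_upwards [h3, ae_restrict_mem measurableSet_Iic] with t ht htx
        refine ht.trans ?_
        have h4 := gro_min hsg (show t ≤ x from htx)
        have h5 := Psi_nonneg p ρ t
        have h6 : 1 ≤ (1 + |t|) ^ 2 := by
          have := abs_nonneg t
          nlinarith
        have h7 : Psi p ρ t ≤ (1 + |t|) ^ 2 * Psi p ρ t := by nlinarith
        have h8 : 0 ≤ (1 + |t|) ^ 2 * Psi p ρ t := by positivity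
        calc 2 * Psi p ρ t ≤ 2 * ((1 + |t|) ^ 2 * Psi p ρ t) := by linarith
          _ ≤ 2 * ((1 + |t|) ^ 2 * Psi p ρ t) *
              (Real.exp (sg p ρ * |t|) * min 1 (Real.exp (sg p ρ * x))) :=
            le_mul_of_one_le_right (by linarith) h4
          _ = _ := by ring
    have hle : ∫ t in Iic x, min 1 (Real.exp (sg p ρ * x)) * (2 * ((1 + |t|) ^ 2 * Psi p ρ t *
          Real.exp (sg p ρ * |t|))) ≤
        ∫ t, min 1 (Real.exp (sg p ρ * x)) * (2 * ((1 + |t|) ^ 2 * Psi p ρ t *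
          Real.exp (sg p ρ * |t|))) := by
      apply setIntegral_le_integral ((hF.const_mul 2).const_mul _)
      exact Filter.Eventually.of_forall fun t => mul_nonneg hm0 (mul_nonneg zero_le_two (hF0 t))
    have heq : ∫ t, min 1 (Real.exp (sg p ρ * x)) * (2 * ((1 + |t|) ^ 2 * Psi p ρ t *
          Real.exp (sg p ρ * |t|))) = min 1 (Real.exp (sg p ρ * x)) *
          (2 * ∫ t, (1 + |t|) ^ 2 * Psi p ρ t * Real.exp (sg p ρ * |t|)) := by
      rw [integral_const_mul, integral_const_mul]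
    rw [← Real.norm_eq_abs]
    unfold kap
    refine (hbd.trans hle).trans ?_
    rw [heq]
    nlinarith

theorem gro_kap_le {σ s y : ℝ} (hσ : 0 < σ) (hs : 0 ≤ s) :
    min 1 (Real.exp (σ * (y - s))) ≤ Real.exp (σ * |y|) * Real.exp (-σ * |y - s|) := by
  rcases le_total y s with h | h
  · rw [abs_of_nonpos (by linarith : y - s ≤ 0)]
    refine (min_le_right _ _).trans ?_
    have h1 : 1 ≤ Real.exp (σ * |y|) := Real.one_le_exp (by positivity)
    have h2 : Real.exp (σ * (y - s)) = Real.exp (-σ * -(y - s)) := by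
      congr 1
      ring
    rw [h2]
    exact le_mul_of_one_le_left (Real.exp_pos _).le h1
  · rw [abs_of_nonneg (by linarith : 0 ≤ y - s)]
    refine (min_le_left _ _).trans ?_
    rw [← Real.exp_add]
    apply Real.one_le_exp
    have h1 : y ≤ |y| := le_abs_self y
    have : 0 ≤ σ * (|y| - (y - s)) := mul_nonneg hσ.le (by linarith)
    nlinarith

theorem kap_summable {p : ℕ} (hp : p ≤ 1) {ρ : ℝ} (h1 : (p : ℝ) < ρ) (h2 : ρ < p + 1)
    {ι : Type} (D : ZD p ρ ι) (a y : ℝ) :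
    Summable fun i => Real.exp (-ρ * D.s i) * kap p ρ a (D.a i) (y - D.s i) := by
  obtain ⟨C, hC, hb⟩ := kap_bound hp h1 h2
  have hsg := sg_pos h1 h2
  have hN := (D.N_summable hsg y).mul_left (C * Real.exp (sg p ρ * |y|))
  refine Summable.of_norm_bounded hN fun i => ?_
  rw [norm_mul, Real.norm_eq_abs, Real.norm_eq_abs, abs_of_pos (Real.exp_pos _)]
  have h3 := hb a (D.a i) (y - D.s i)
  have h4 := gro_kap_le (y := y) hsg (D.s0 i)
  have h5 := Real.exp_pos (-ρ * D.s i)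
  calc Real.exp (-ρ * D.s i) * |kap p ρ a (D.a i) (y - D.s i)| ≤
      Real.exp (-ρ * D.s i) * (C * (Real.exp (sg p ρ * |y|) *
        Real.exp (-(sg p ρ) * |y - D.s i|))) := by
        apply mul_le_mul_of_nonneg_left _ h5.le
        exact h3.trans (mul_le_mul_of_nonneg_left h4 hC.le)
    _ = _ := by ring

theorem gro_kap_sub {p : ℕ} (hp : p ≤ 1) {ρ : ℝ} (h1 : (p : ℝ) < ρ) (h2 : ρ < p + 1)
    (a α Y y s : ℝ) : (∫ t in Y..y, kn p ρ (t - s) (a - α)) +
      (∫ t in Y..y, kn p ρ (t - s) (a - π / ρ - α)) =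
        kap p ρ a α (y - s) - kap p ρ a α (Y - s) := by
  have i1 := integrable_kn hp h1 h2 (a - α)
  have i2 := integrable_kn hp h1 h2 (a - π / ρ - α)
  rw [intervalIntegral.integral_comp_sub_right (fun t => kn p ρ t (a - α)),
    intervalIntegral.integral_comp_sub_right (fun t => kn p ρ t (a - π / ρ - α)),
    ← intervalIntegral.integral_add i1.intervalIntegrable i2.intervalIntegrable]
  unfold kap
  have i3 : Integrable fun t => kn p ρ t (a - α) + kn p ρ t (a - π / ρ - α) := i1.add i2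
  exact (intervalIntegral.integral_Iic_sub_Iic i3.integrableOn i3.integrableOn).symm

theorem growthJ {p : ℕ} (hp : p ≤ 1) {ρ : ℝ} (h1 : (p : ℝ) < ρ) (h2 : ρ < p + 1) {ι : Type}
    (D : ZD p ρ ι) {a g₁ g₂ : ℝ} (hA : D.UB a g₁) (hB : D.UB (a - π / ρ) g₂) :
    ∃ Y C : ℝ, ∀ y, Y ≤ y → -(g₁ + g₂) * y - C ≤
      -∑' i, Real.exp (-ρ * D.s i) * kap p ρ a (D.a i) (y - D.s i) := by
  obtain ⟨Y1, hY1⟩ := hA
  obtain ⟨Y2, hY2⟩ := hB
  refine ⟨max Y1 Y2, -(g₁ + g₂) * max Y1 Y2 +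
    ∑' i, Real.exp (-ρ * D.s i) * kap p ρ a (D.a i) (max Y1 Y2 - D.s i), fun y hy => ?_⟩
  set Y := max Y1 Y2 with hYdef
  obtain ⟨a1, a2, a3⟩ := D.U_int hp h1 h2 a Y y hy
  obtain ⟨b1, b2, b3⟩ := D.U_int hp h1 h2 (a - π / ρ) Y y hy
  have hsum : ∀ (θ : ℝ), (Summable fun i => Real.exp (-ρ * D.s i) *
      ∫ t in Y..y, |kn p ρ (t - D.s i) (θ - D.a i)|) →
      Summable fun i => Real.exp (-ρ * D.s i) * ∫ t in Y..y, kn p ρ (t - D.s i) (θ - D.a i) := by
    intro θ hθ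
    refine Summable.of_norm_bounded hθ fun i => ?_
    rw [norm_mul, Real.norm_eq_abs, abs_of_pos (Real.exp_pos _)]
    apply mul_le_mul_of_nonneg_left _ (Real.exp_pos _).le
    exact intervalIntegral.norm_integral_le_integral_norm hy
  have e1 : (∫ t in Y..y, Real.exp (-ρ * t) * D.U t a) +
      (∫ t in Y..y, Real.exp (-ρ * t) * D.U t (a - π / ρ)) =
      (∑' i, Real.exp (-ρ * D.s i) * kap p ρ a (D.a i) (y - D.s i)) -
        ∑' i, Real.exp (-ρ * D.s i) * kap p ρ a (D.a i) (Y - D.s i) := by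
    rw [a3, b3, ← (hsum _ a2).tsum_add (hsum _ b2),
      ← (kap_summable hp h1 h2 D a y).tsum_sub (kap_summable hp h1 h2 D a Y)]
    refine tsum_congr fun i => ?_
    rw [← mul_add, gro_kap_sub hp h1 h2, mul_sub]
  have hup : ∀ (θ g Y0 : ℝ), Y0 ≤ Y → (∀ᵐ y : ℝ, Y0 ≤ y → D.U y θ ≤ g * Real.exp (ρ * y)) →
      IntervalIntegrable (fun t => Real.exp (-ρ * t) * D.U t θ) volume Y y →
      (∫ t in Y..y, Real.exp (-ρ * t) * D.U t θ) ≤ g * (y - Y) := by
    intro θ g Y0 hY0 hae hint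
    have h3 : (∫ t in Y..y, Real.exp (-ρ * t) * D.U t θ) ≤ ∫ _t in Y..y, g := by
      apply intervalIntegral.integral_mono_ae_restrict hy hint intervalIntegrable_const
      filter_upwards [ae_restrict_of_ae hae, ae_restrict_mem measurableSet_Icc] with t ht htI
      have h4 := ht (hY0.trans htI.1)
      calc Real.exp (-ρ * t) * D.U t θ ≤ Real.exp (-ρ * t) * (g * Real.exp (ρ * t)) :=
            mul_le_mul_of_nonneg_left h4 (Real.exp_pos _).le
        _ = g * (Real.exp (-ρ * t) * Real.exp (ρ * t)) := by ring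
        _ = g := by
            rw [← Real.exp_add]
            have : -ρ * t + ρ * t = 0 := by ring
            rw [this, Real.exp_zero, mul_one]
    rw [intervalIntegral.integral_const, smul_eq_mul] at h3
    linarith
  have u1 := hup a g₁ Y1 (le_max_left _ _) hY1 a1
  have u2 := hup (a - π / ρ) g₂ Y2 (le_max_right _ _) hY2 b1
  nlinarith

end HBInf
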