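import Mathlib

/-!
# A separation theorem

`E = (Fin n → C(EReal, ℝ)) × ℝ`, a normed space. The set `Q = {(φ, r) : ∀ i t, φ i t < g i, M < r}` is convex and open
(`EReal` is compact), `P` is a convex cone, and they are disjoint. `geometric_hahn_banach_open`: a continuous
linear form `f` and `u` with `f q < u ≤ f x` for `q ∈ Q`, `x ∈ P`. As `0 ∈ P`, `u ≤ 0`; as `P` is a cone, `f ≥ 0` on `P`.
Write `f (φ, r) = ∑ i, Λ i (φ i) - lam r`. Adding to an element of `Q` large multiples of `(-ψ, 0)`, `ψ ≥ 0`, and of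
`(0, 1)`: `Λ i` is positive, `lam ≥ 0`. With `(g - ε, M + ε) ∈ Q`: `∑ (g i - ε) Λ i 1 - lam (M + ε) < 0`, `ε → 0`. By the
Riesz-Markov-Kakutani theorem (`RealRMK.rieszMeasure`, `RealRMK.integral_rieszMeasure`, on `C_c(EReal, ℝ)`; `EReal` is
compact Hausdorff, every continuous function has compact support) `Λ i φ = ∫ φ dm_i` with a finite measure
`m i`. If all `m i = 0` and `lam = 0` then `f = 0`, contradicting `f q < u ≤ f 0 = 0` (`Q` is not empty).
-/

namespace HBInf

open Set MeasureTheory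

/-- the measure of a positive linear form on the continuous functions on `EReal` -/
theorem hba_riesz (Λ : C(EReal, ℝ) →ₗ[ℝ] ℝ) (hΛ : ∀ φ : C(EReal, ℝ), (∀ t, 0 ≤ φ t) → 0 ≤ Λ φ) :
    ∃ m : Measure EReal, IsFiniteMeasure m ∧ ∀ φ : C(EReal, ℝ), ∫ t, φ t ∂m = Λ φ := by
  let L : CompactlySupportedContinuousMap EReal ℝ →ₗ[ℝ] ℝ :=
    { toFun := fun φ => Λ φ.toContinuousMap
      map_add' := fun φ ψ => by
        rw [← map_add]
        rfl
      map_smul' := fun a φ => by
        rw [RingHom.id_apply, ← map_smul]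
        rfl }
  let P : CompactlySupportedContinuousMap EReal ℝ →ₚ[ℝ] ℝ :=
    PositiveLinearMap.mk₀ L (fun φ hφ => hΛ φ.toContinuousMap hφ)
  refine ⟨RealRMK.rieszMeasure P, inferInstance, ?_⟩
  intro φ
  have h := RealRMK.integral_rieszMeasure P (CompactlySupportedContinuousMap.continuousMapEquiv φ)
  exact h

/-- a linear function bounded above on a half-line -/
theorem hba_ray {a b u : ℝ} (h : ∀ s : ℝ, 0 ≤ s → a - s * b < u) : 0 ≤ b := by
  by_contra hb
  rw [not_le] at hb
  have h0 := h 0 le_rfl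
  rw [zero_mul, sub_zero] at h0
  have h1 := h ((u - a) / -b) (div_nonneg (by linarith) (by linarith))
  have h2 : (u - a) / -b * b = -(u - a) := by
    rw [div_neg, neg_mul, div_mul_cancel₀ _ hb.ne]
  rw [h2] at h1
  linarith

theorem hb_abs {n : ℕ} (P : Set ((Fin n → C(EReal, ℝ)) × ℝ)) (hP0 : 0 ∈ P)
    (hPadd : ∀ x ∈ P, ∀ y ∈ P, x + y ∈ P) (hPs : ∀ a : ℝ, 0 ≤ a → ∀ x ∈ P, a • x ∈ P)
    (g : Fin n → ℝ) (M : ℝ) (h : ¬∃ x ∈ P, (∀ i t, x.1 i t < g i) ∧ M < x.2) :
    ∃ (m : Fin n → Measure EReal) (lam : ℝ), (∀ i, IsFiniteMeasure (m i)) ∧ 0 ≤ lam ∧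
      ((∃ i, m i ≠ 0) ∨ 0 < lam) ∧ (∀ x ∈ P, lam * x.2 ≤ ∑ i, ∫ t, x.1 i t ∂(m i)) ∧
      ∑ i, (m i).real univ * g i ≤ lam * M := by
  classical
  set Q : Set ((Fin n → C(EReal, ℝ)) × ℝ) := {x | (∀ i, ∀ t, x.1 i t < g i) ∧ M < x.2} with hQ
  have hQo : IsOpen Q := by
    have h1 : ∀ i, IsOpen {x : (Fin n → C(EReal, ℝ)) × ℝ | ∀ t, x.1 i t < g i} := by
      intro i
      have h2 : IsOpen {φ : C(EReal, ℝ) | ∀ t, φ t < g i} := by
        have h3 := ContinuousMap.isOpen_setOfPred_mapsTo (X := EReal) (Y := ℝ)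
          (K := univ) isCompact_univ (isOpen_Iio (a := g i))
        convert h3 using 1
        ext φ
        simp [MapsTo]
      have h5 : Continuous fun x : (Fin n → C(EReal, ℝ)) × ℝ => x.1 i :=
        (continuous_apply i).comp continuous_fst
      exact h2.preimage h5
    have h4 : Q = (⋂ i, {x : (Fin n → C(EReal, ℝ)) × ℝ | ∀ t, x.1 i t < g i}) ∩ {x | M < x.2} := by
      ext x
      simp [hQ]
    rw [h4]
    exact (isOpen_iInter_of_finite h1).inter (isOpen_lt continuous_const continuous_snd)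
  have hQc : Convex ℝ Q := by
    intro x hx y hy a b ha hb hab
    constructor
    · intro i t
      have h1 := hx.1 i t
      have h2 := hy.1 i t
      show a * x.1 i t + b * y.1 i t < g i
      have h3 : g i = a * g i + b * g i := by rw [← add_mul, hab, one_mul]
      rw [h3]
      rcases ha.eq_or_lt with h4 | h4
      · have h5 : b = 1 := by linarith
        rw [← h4, h5]
        linarith
      · have h5 : a * x.1 i t < a * g i := mul_lt_mul_of_pos_left h1 h4
        have h6 : b * y.1 i t ≤ b * g i := mul_le_mul_of_nonneg_left h2.le hb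
        linarith
    · have h1 := hx.2
      have h2 := hy.2
      show M < a * x.2 + b * y.2
      have h3 : M = a * M + b * M := by rw [← add_mul, hab, one_mul]
      rw [h3]
      rcases ha.eq_or_lt with h4 | h4
      · have h5 : b = 1 := by linarith
        rw [← h4, h5]
        linarith
      · have h5 : a * M < a * x.2 := mul_lt_mul_of_pos_left h1 h4
        have h6 : b * M ≤ b * y.2 := mul_le_mul_of_nonneg_left h2.le hb
        linarith
  have hPc : Convex ℝ P := fun x hx y hy a b ha hb _ =>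
    hPadd _ (hPs a ha x hx) _ (hPs b hb y hy)
  have hdis : Disjoint Q P := by
    rw [Set.disjoint_left]
    intro x hxQ hxP
    exact h ⟨x, hxP, hxQ.1, hxQ.2⟩
  obtain ⟨f, u, hfQ, hfP⟩ := geometric_hahn_banach_open hQc hQo hPc hdis
  have hu : u ≤ 0 := by
    have := hfP 0 hP0
    rwa [map_zero] at this
  have hfP0 : ∀ x ∈ P, 0 ≤ f x := by
    intro x hx
    refine hba_ray (a := 0) (u := -u + 1) (fun s hs => ?_)
    have h1 := hfP _ (hPs s hs x hx)
    rw [map_smul, smul_eq_mul] at h1
    linarith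
  -- the components of the linear form
  set Λ : Fin n → C(EReal, ℝ) →ₗ[ℝ] ℝ := fun i =>
    (f : ((Fin n → C(EReal, ℝ)) × ℝ) →ₗ[ℝ] ℝ).comp
      ((LinearMap.inl ℝ (Fin n → C(EReal, ℝ)) ℝ).comp
        (LinearMap.single ℝ (fun _ : Fin n => C(EReal, ℝ)) i)) with hΛ
  have hΛa : ∀ i φ, Λ i φ = f (Pi.single i φ, 0) := fun i φ => rfl
  set lam : ℝ := -f (0, 1) with hlam
  have hf : ∀ x, f x = ∑ i, Λ i (x.1 i) - lam * x.2 := by
    intro x
    have h1 : x = (∑ i, ((Pi.single i (x.1 i), 0) : (Fin n → C(EReal, ℝ)) × ℝ)) +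
        x.2 • ((0, 1) : (Fin n → C(EReal, ℝ)) × ℝ) := by
      apply Prod.ext
      · rw [Prod.fst_add, Prod.fst_sum, Prod.smul_fst, smul_zero, add_zero]
        exact (Finset.univ_sum_single x.1).symm
      · rw [Prod.snd_add, Prod.snd_sum, Prod.smul_snd]
        simp
    conv_lhs => rw [h1]
    rw [map_add, map_sum, map_smul, hlam, smul_eq_mul]
    simp only [hΛa]
    ring
  -- a point of `Q`
  have hq : ∀ ε : ℝ, 0 < ε →
      ((fun i => ContinuousMap.const EReal (g i - ε), M + ε) : (Fin n → C(EReal, ℝ)) × ℝ) ∈ Q := by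
    intro ε hε
    constructor
    · intro i t
      show g i - ε < g i
      linarith
    · show M < M + ε
      linarith
  set q₀ : (Fin n → C(EReal, ℝ)) × ℝ := (fun i => ContinuousMap.const EReal (g i - 1), M + 1)
    with hq₀
  have hlam0 : 0 ≤ lam := by
    refine hba_ray (a := f q₀) (u := u) (fun s hs => ?_)
    have h1 : q₀ + s • ((0, 1) : (Fin n → C(EReal, ℝ)) × ℝ) ∈ Q := by
      constructor
      · intro i t
        simp [hq₀]
      · show M < M + 1 + s * 1
        linarith
    have h2 := hfQ _ h1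
    rw [map_add, map_smul, smul_eq_mul] at h2
    rw [hlam]
    linarith
  have hΛ0 : ∀ i (φ : C(EReal, ℝ)), (∀ t, 0 ≤ φ t) → 0 ≤ Λ i φ := by
    intro i φ hφ
    refine hba_ray (a := f q₀) (u := u) (fun s hs => ?_)
    have h1 : q₀ - s • ((Pi.single i φ, 0) : (Fin n → C(EReal, ℝ)) × ℝ) ∈ Q := by
      constructor
      · intro j t
        show g j - 1 - s * (Pi.single (M := fun _ : Fin n => C(EReal, ℝ)) i φ j) t < g j
        have h3 : 0 ≤ (Pi.single (M := fun _ : Fin n => C(EReal, ℝ)) i φ j) t := by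
          by_cases hij : j = i
          · subst hij
            rw [Pi.single_eq_same]
            exact hφ t
          · rw [Pi.single_eq_of_ne hij]
            exact le_rfl
        have h4 := mul_nonneg hs h3
        linarith
      · show M < M + 1 - s * 0
        linarith
    have h2 := hfQ _ h1
    rw [map_sub, map_smul, smul_eq_mul] at h2
    exact h2
  choose m hm hmΛ using fun i => hba_riesz (Λ i) (hΛ0 i)
  have hm1 : ∀ i, (m i).real univ = Λ i (ContinuousMap.const EReal 1) := by
    intro i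
    rw [← hmΛ i]
    simp
  refine ⟨m, lam, hm, hlam0, ?_, ?_, ?_⟩
  · by_contra hcon
    rw [not_or] at hcon
    obtain ⟨hc1, hc2⟩ := hcon
    push Not at hc1
    have hl0 : lam = 0 := le_antisymm (not_lt.1 hc2) hlam0
    have h1 := hfQ q₀ (hq 1 one_pos)
    rw [hf q₀, hl0, zero_mul, sub_zero] at h1
    have h2 : ∑ i, Λ i (q₀.1 i) = 0 := by
      apply Finset.sum_eq_zero
      intro i _
      rw [← hmΛ i, hc1 i]
      simp
    rw [h2] at h1
    linarith
  · intro x hx
    have h1 := hfP0 x hx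
    rw [hf x] at h1
    simp only [hmΛ]
    linarith
  · have h1 : ∀ ε : ℝ, 0 < ε → ∑ i, (m i).real univ * g i - lam * M <
        0 + ε * (∑ i, (m i).real univ + lam) := by
      intro ε hε
      have h2 := hfQ _ (hq ε hε)
      rw [hf] at h2
      have h3 : ∀ i, Λ i (ContinuousMap.const EReal (g i - ε)) =
          (m i).real univ * (g i - ε) := by
        intro i
        rw [hm1 i, show ContinuousMap.const EReal (g i - ε) =
          (g i - ε) • ContinuousMap.const EReal (1 : ℝ) from by
            ext t; simp, map_smul, smul_eq_mul, mul_comm]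
      simp only [h3, mul_sub, Finset.sum_sub_distrib] at h2
      rw [← Finset.sum_mul] at h2
      nlinarith
    have hS : 0 ≤ ∑ i, (m i).real univ + lam :=
      add_nonneg (Finset.sum_nonneg fun i _ => measureReal_nonneg) hlam0
    have h4 : ∑ i, (m i).real univ * g i - lam * M ≤ 0 := by
      apply le_of_forall_pos_lt_add
      intro ε hε
      have h5 := h1 (ε / (∑ i, (m i).real univ + lam + 1)) (by positivity)
      refine h5.trans_le ?_
      rw [zero_add, zero_add, div_mul_eq_mul_div, div_le_iff₀ (by positivity)]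
      nlinarith
    linarith

end HBInf
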