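import Pool.Agent.HBInf.Grow

/-!
# The kernel inequality

`-π/2 < θ₂ < θ₁ < 0`, `τ > 0`, `r' e^{iθ'} = e^{iθ₁} - iτ`, `a` arbitrary, `p ∈ {0, 1}`. Write `x = log r`, `r > 0`,
`v z = K_p (z r e^{-iα})` for `z ∈ ℂ`, `K_p w = log |1 - w| + p Re w`, so `kp p x (θ - α) = v (e^{iθ})`,
`kp p (x + log r') (θ' - α) = v (z')`, `z' = e^{iθ₁} - iτ`, and `c₁ = cos θ₁ > c₂ = cos θ₂ > 0`.

(1) `v z' - v (e^{iθ₁}) ≥ c₀ (r sin α + min 1 r²)`-type bound: `≥ c₀ (r sin α + r²)` for `r ≤ 1` and `≥ c₀` for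
    `r ≥ 1`, `c₀ > 0` independent of `α ∈ TT p`: with `ζ = e^{iα}/r`, the difference is `log (|ζ - z'| / |ζ - e^{iθ₁}|)`
    (for `p = 1`, `ζ` is real and `Re ((z' - e^{iθ₁})/ζ) = 0`), and
    `|ζ - z'|² - |ζ - e^{iθ₁}|² = τ² + 2 τ (Im ζ + |sin θ₁|)`, `|ζ - e^{iθ₁}|² ≤ (1/r + 1)²`; use
    `log (1 + s) ≥ s / (1 + s)`.
(2) Let `λ₁ = -(cos a + cos (a - π/ρ)) / ((1 - ρ) c₁)` (so `λ₁ = (cos a + cos (a - π/ρ)) / ((ρ - 1) c₁)`), and
    `E α x = e^{ρx} (-kap p ρ a α x)`, `F α x = v (e^{iθ₂}) - (c₂/c₁) v (e^{iθ₁})`, `L α x = v (e^{iθ₁})`.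
    Claim: there is `C₃ ≥ 0` and `K` with, for all `α ∈ TT p`:
    `E α x - λ₁ L α x - C₃ F α x ≤ K (r sin α + r²)` for `r ≤ 1` and `≤ K` for `r ≥ 1`. Then `C₁ = K / c₀` proves the
    theorem.
    * `r ≤ 1`, `p = 0`: `|K_0 w + Re w| ≤ C |w|²` for `|w| ≤ 1`, `|Im w| ≥ ..` (here near `|w| = 1` everything is bounded
      because `θ₁, θ₂ < 0 ≤ α`; for `kap` near `x = 0` it is bounded by `kap_bound`):
      `L = -r cos (θ₁ - α) + O(r²)`, `F = r sin α sin (θ₁ - θ₂) / c₁ + O(r²) ≥ -O(r²)`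
      (`cos (θ₂ - α) - (c₂/c₁) cos (θ₁ - α) = sin α (sin θ₂ - c₂ tan θ₁)`),
      `E = (r/(1 - ρ)) (cos (a - α) + cos (a - π/ρ - α)) + O(r²)` (integrate `-∫_{-∞}^x -e^t cos ψ e^{-ρt}`).
      By the choice of `λ₁` the sum `E - λ₁ L` is `O(r sin α) + O(r²)`: the coefficient of `r` is
      `(1/(1-ρ)) (cos (a-α) + cos (a - π/ρ - α)) + λ₁ cos (θ₁ - α)`, a combination of `cos α` and `sin α` whose `cos α`
      coefficient vanishes.
    * `r ≤ 1`, `p = 1`: `|K_1 w| ≤ C |w|²`: all terms are `O(r²)`, and `sin α = 0`.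
    * `r ≥ 1`, `p = 0`: `L, F` are bounded on bounded sets, `L = x + O(1)`, `F = (1 - c₂/c₁) x + O(1)`,
      `E ≤ e^{ρx} ∫_x^∞ (kn + kn) dt ≤ (2/ρ) x + O(1)` because `kap(∞) = VV (a - α) + VV (a - π/ρ - α) ≥ 0` (`VV_pair`
      with `a - π/ρ`). So `C₃` with `C₃ (1 - c₂/c₁) + λ₁ ≥ 2/ρ` works.
    * `r ≥ 1`, `p = 1` (`α = 0` or `π`, `ε = cos α = ±1`): `L = ε r c₁ + x + O(1)`,
      `F = (1 - c₂/c₁) x + O(1)` (the linear terms cancel), and
      `E ≤ e^{ρx} ∫_x^∞ (kn + kn) dt = (r/(ρ - 1)) ε (cos a + cos (a - π/ρ)) + (2/ρ) x + O(1)`. By the choice of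
      `λ₁` the terms with `r` cancel.
-/

namespace HBInf

open HBInd Complex Filter Topology Set MeasureTheory
open scoped Real ComplexConjugate

namespace KerI

theorem q_eq (θ α r : ℝ) : 1 - 2 * r * Real.cos (θ - α) + r ^ 2 =
    (Real.cos α - r * Real.cos θ) ^ 2 + Real.sin α ^ 2 + 2 * (r * (Real.sin α * -Real.sin θ)) +
      r ^ 2 * Real.sin θ ^ 2 := by
  rw [Real.cos_sub]
  linear_combination -Real.sin_sq_add_cos_sq α - r ^ 2 * Real.sin_sq_add_cos_sq θ

theorem q_low {θ α r : ℝ} (hθ : Real.sin θ < 0) (hα : 0 ≤ Real.sin α) (hr : 0 < r) :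
    r ^ 2 * Real.sin θ ^ 2 ≤ 1 - 2 * r * Real.cos (θ - α) + r ^ 2 := by
  rw [q_eq]
  have h1 : 0 ≤ r * (Real.sin α * -Real.sin θ) :=
    mul_nonneg hr.le (mul_nonneg hα (by linarith))
  have h2 := sq_nonneg (Real.cos α - r * Real.cos θ)
  have h3 := sq_nonneg (Real.sin α)
  linarith

theorem q_pos {θ α r : ℝ} (hθ : Real.sin θ < 0) (hα : 0 ≤ Real.sin α) (hr : 0 < r) :
    0 < 1 - 2 * r * Real.cos (θ - α) + r ^ 2 := by
  refine lt_of_lt_of_le ?_ (q_low hθ hα hr)
  have : 0 < Real.sin θ ^ 2 := by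
    have := mul_pos_of_neg_of_neg hθ hθ
    nlinarith
  positivity

theorem q_up (ψ : ℝ) {r : ℝ} (hr : 0 < r) : 1 - 2 * r * Real.cos ψ + r ^ 2 ≤ (1 + r) ^ 2 := by
  have := Real.neg_one_le_cos ψ
  nlinarith

theorem ker_low {θ α : ℝ} (hθ : Real.sin θ < 0) (hα : 0 ≤ Real.sin α) (x : ℝ) :
    x + Real.log (-Real.sin θ) ≤ ker x (θ - α) := by
  have hr := Real.exp_pos x
  have h := q_low hθ hα hr
  have hs : 0 < -Real.sin θ := by linarith
  have e : Real.exp x ^ 2 * Real.sin θ ^ 2 = (Real.exp x * -Real.sin θ) ^ 2 := by ring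
  rw [e] at h
  have h2 := Real.log_le_log (by positivity) h
  rw [Real.log_pow, Real.log_mul hr.ne' hs.ne', Real.log_exp] at h2
  rw [ker_eq]
  push_cast at h2
  linarith

theorem ker_up (x ψ : ℝ) : ker x ψ ≤ Real.log (1 + Real.exp x) := by
  have hr := Real.exp_pos x
  rw [HBInd.ker]
  by_cases h0 : ‖1 - Complex.exp ((x : ℂ) + (ψ : ℂ) * I)‖ = 0
  · rw [h0, Real.log_zero]
    exact Real.log_nonneg (by linarith)
  · refine Real.log_le_log (lt_of_le_of_ne (norm_nonneg _) (Ne.symm h0)) ?_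
    have := norm_sub_le (1 : ℂ) (Complex.exp ((x : ℂ) + (ψ : ℂ) * I))
    rwa [norm_one, norm_expw] at this

theorem log_one_add_exp {x : ℝ} (hx : 0 ≤ x) : Real.log (1 + Real.exp x) ≤ x + 1 := by
  have h4 : 1 + Real.exp x ≤ Real.exp (x + 1) := by
    rw [Real.exp_add]
    have h5 : (2 : ℝ) ≤ Real.exp 1 := by linarith [Real.add_one_le_exp (1 : ℝ)]
    have h6 : (1 : ℝ) ≤ Real.exp x := Real.one_le_exp hx
    nlinarith
  have := Real.log_le_log (by positivity) h4
  rwa [Real.log_exp] at this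

theorem ker_big {θ α : ℝ} (hθ : Real.sin θ < 0) (hα : 0 ≤ Real.sin α) {x : ℝ} (hx : 0 ≤ x) :
    |ker x (θ - α) - x| ≤ |Real.log (-Real.sin θ)| + 1 := by
  have h1 := ker_low hθ hα x
  have h2 := (ker_up x (θ - α)).trans (log_one_add_exp hx)
  rw [abs_le]
  constructor
  · linarith [neg_abs_le (Real.log (-Real.sin θ))]
  · linarith [abs_nonneg (Real.log (-Real.sin θ))]

theorem ker_small' {ψ x : ℝ} (hx : Real.exp x ≤ 1 / 2) :
    |ker x ψ + Real.exp x * Real.cos ψ| ≤ Real.exp (2 * x) := by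
  have hn := norm_expw x ψ
  have h2 := abs_log_add_re_le (w := Complex.exp ((x : ℂ) + (ψ : ℂ) * I)) (by rw [hn]; exact hx)
  rw [hn, ← Real.exp_nat_mul, re_expw] at h2
  rw [HBInd.ker]
  simpa using h2

theorem ker_small {θ α : ℝ} (hθ : Real.sin θ < 0) (hα : 0 ≤ Real.sin α) {x : ℝ} (hx : x ≤ 0) :
    |ker x (θ - α) + Real.exp x * Real.cos (θ - α)| ≤
      4 * (|Real.log (-Real.sin θ)| + 3) * Real.exp (2 * x) := by
  have hlog := abs_nonneg (Real.log (-Real.sin θ))
  rcases le_total (Real.exp x) (1 / 2) with h | h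
  · refine (ker_small' h).trans ?_
    have := Real.exp_pos (2 * x)
    nlinarith
  · have h1 := ker_low hθ hα x
    have h2 := ker_up x (θ - α)
    have hr1 : Real.exp x ≤ 1 := Real.exp_le_one_iff.2 hx
    have h3 : Real.log (1 + Real.exp x) ≤ 1 := by
      have := Real.log_le_sub_one_of_pos (x := 1 + Real.exp x) (by positivity)
      linarith
    have h4 : -1 ≤ x := by
      have h5 : Real.exp (-1) ≤ Real.exp x := exp_neg_one_le_half.trans h
      exact Real.exp_le_exp.1 h5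
    have h6 := abs_le.1 (abs_re_expw_le x (θ - α))
    have h7 : |ker x (θ - α) + Real.exp x * Real.cos (θ - α)| ≤
        |Real.log (-Real.sin θ)| + 3 := by
      rw [abs_le]
      constructor
      · linarith [neg_abs_le (Real.log (-Real.sin θ)), h6.1]
      · linarith [h6.2]
    refine h7.trans ?_
    have h8 : 1 / 4 ≤ Real.exp (2 * x) := by
      rw [two_mul, Real.exp_add]
      nlinarith
    nlinarith

/-- the modulus after moving the point down -/
theorem q_move {θ₁ θ' r' τ α : ℝ}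
    (hz : (r' : ℂ) * Complex.exp ((θ' : ℂ) * I) = Complex.exp ((θ₁ : ℂ) * I) - (τ : ℂ) * I) :
    r' * Real.cos (θ' - α) = Real.cos (θ₁ - α) - τ * Real.sin α ∧
      r' ^ 2 = 1 - 2 * τ * Real.sin θ₁ + τ ^ 2 := by
  have hre := congrArg Complex.re hz
  have him := congrArg Complex.im hz
  simp [Complex.exp_ofReal_mul_I_re, Complex.exp_ofReal_mul_I_im] at hre him
  constructor
  · rw [Real.cos_sub, Real.cos_sub]
    linear_combination Real.cos α * hre + Real.sin α * him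
  · have h1 := Real.sin_sq_add_cos_sq θ'
    have h2 := Real.sin_sq_add_cos_sq θ₁
    linear_combination (-r' ^ 2) * h1 + h2 + (r' * Real.cos θ' + Real.cos θ₁) * hre +
      (r' * Real.sin θ' + (Real.sin θ₁ - τ)) * him

theorem gain {p : ℕ} {θ₁ θ' r' τ : ℝ} (hθ1 : Real.sin θ₁ < 0) (hτ : 0 < τ) (hr' : 0 < r')
    (hz : (r' : ℂ) * Complex.exp ((θ' : ℂ) * I) = Complex.exp ((θ₁ : ℂ) * I) - (τ : ℂ) * I) :
    ∃ c : ℝ, 0 < c ∧ ∀ α x : ℝ, 0 ≤ Real.sin α → (p : ℝ) * Real.sin α = 0 →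
      (x ≤ 0 → c * (Real.exp x * Real.sin α + Real.exp (2 * x)) ≤
        kp p (x + Real.log r') (θ' - α) - kp p x (θ₁ - α)) ∧
      (0 ≤ x → c ≤ kp p (x + Real.log r') (θ' - α) - kp p x (θ₁ - α)) := by
  have hm : 0 < min τ (τ ^ 2) := lt_min hτ (by positivity)
  refine ⟨min τ (τ ^ 2) / (2 * (1 + r') ^ 2), by positivity, ?_⟩
  intro α x hα hpα
  obtain ⟨hc, hr2⟩ := q_move (α := α) hz
  have hr := Real.exp_pos x
  set r := Real.exp x with hrdef
  set q1 := 1 - 2 * r * Real.cos (θ₁ - α) + r ^ 2 with hq1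
  set q2 := 1 - 2 * (r * r') * Real.cos (θ' - α) + (r * r') ^ 2 with hq2
  have hq1p : 0 < q1 := q_pos hθ1 hα hr
  have hdiff : q2 - q1 = 2 * r * τ * Real.sin α + r ^ 2 * (τ ^ 2 + 2 * τ * -Real.sin θ₁) := by
    rw [hq1, hq2]
    linear_combination (-2 * r) * hc + r ^ 2 * hr2
  have hge : min τ (τ ^ 2) * (r * Real.sin α + r ^ 2) ≤ q2 - q1 := by
    rw [hdiff]
    have h1 : min τ (τ ^ 2) ≤ τ := min_le_left _ _
    have h2 : min τ (τ ^ 2) ≤ τ ^ 2 := min_le_right _ _
    have h3 : 0 ≤ r * Real.sin α := by positivity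
    have h4 : 0 ≤ r ^ 2 * (2 * τ * -Real.sin θ₁) := by
      have : 0 ≤ -Real.sin θ₁ := by linarith
      positivity
    have h5 : 0 ≤ r ^ 2 := by positivity
    nlinarith [mul_le_mul_of_nonneg_right h1 h3, mul_le_mul_of_nonneg_right h2 h5,
      mul_nonneg hτ.le h3]
  have hnn : 0 ≤ min τ (τ ^ 2) * (r * Real.sin α + r ^ 2) := by positivity
  have hq2p : 0 < q2 := by linarith
  have hq2u : q2 ≤ (1 + r * r') ^ 2 := q_up (θ' - α) (by positivity)
  have hD : kp p (x + Real.log r') (θ' - α) - kp p x (θ₁ - α) =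
      (Real.log q2 - Real.log q1) / 2 := by
    rw [kp_eq, kp_eq, ker_eq, ker_eq, Real.exp_add, Real.exp_log hr', ← hrdef, ← hq1]
    have e1 : 1 - 2 * (r * r') * Real.cos (θ' - α) + (r * r') ^ 2 = q2 := hq2.symm
    rw [e1]
    have e2 : r * r' * Real.cos (θ' - α) = r * Real.cos (θ₁ - α) - r * τ * Real.sin α := by
      linear_combination r * hc
    rw [e2]
    linear_combination (-(r * τ)) * hpα
  have hlog : (q2 - q1) / q2 ≤ Real.log q2 - Real.log q1 := by
    have h1 := Real.one_sub_inv_le_log_of_pos (x := q2 / q1) (by positivity)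
    rw [Real.log_div hq2p.ne' hq1p.ne', inv_div] at h1
    have h2 : (q2 - q1) / q2 = 1 - q1 / q2 := by field_simp
    rw [h2]
    exact h1
  rw [hD]
  have hsq : r ^ 2 = Real.exp (2 * x) := by
    rw [hrdef, ← Real.exp_nat_mul]; norm_num
  constructor
  · intro hx
    have hr1 : r ≤ 1 := Real.exp_le_one_iff.2 hx
    have h1 : (1 + r * r') ^ 2 ≤ (1 + r') ^ 2 := by
      have : r * r' ≤ r' := by nlinarith
      have h0 : 0 ≤ r * r' := by positivity
      nlinarith
    have h2 : min τ (τ ^ 2) * (r * Real.sin α + r ^ 2) / (1 + r') ^ 2 ≤ (q2 - q1) / q2 := by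
      rw [div_le_div_iff₀ (by positivity) hq2p]
      calc min τ (τ ^ 2) * (r * Real.sin α + r ^ 2) * q2
          ≤ (q2 - q1) * q2 := mul_le_mul_of_nonneg_right hge hq2p.le
        _ ≤ (q2 - q1) * (1 + r') ^ 2 :=
            mul_le_mul_of_nonneg_left (hq2u.trans h1) (hnn.trans hge)
    rw [← hsq]
    have h3 : min τ (τ ^ 2) / (2 * (1 + r') ^ 2) * (r * Real.sin α + r ^ 2) =
        (min τ (τ ^ 2) * (r * Real.sin α + r ^ 2) / (1 + r') ^ 2) / 2 := by
      field_simp
    rw [h3]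
    linarith
  · intro hx
    have hr1 : 1 ≤ r := Real.one_le_exp hx
    have h1 : (1 + r * r') ^ 2 ≤ r ^ 2 * (1 + r') ^ 2 := by
      have h0 : 0 ≤ r * r' := by positivity
      have h4 : 1 + r * r' ≤ r * (1 + r') := by nlinarith
      have h5 : (r * (1 + r')) ^ 2 = r ^ 2 * (1 + r') ^ 2 := by ring
      rw [← h5]
      exact pow_le_pow_left₀ (by positivity) h4 2
    have h2 : min τ (τ ^ 2) / (1 + r') ^ 2 ≤ (q2 - q1) / q2 := by
      rw [div_le_div_iff₀ (by positivity) hq2p]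
      have h6 : min τ (τ ^ 2) * r ^ 2 ≤ q2 - q1 := by
        have h7 : 0 ≤ min τ (τ ^ 2) * (r * Real.sin α) := by positivity
        have h8 : min τ (τ ^ 2) * (r * Real.sin α + r ^ 2) =
            min τ (τ ^ 2) * (r * Real.sin α) + min τ (τ ^ 2) * r ^ 2 := by ring
        linarith
      calc min τ (τ ^ 2) * q2 ≤ min τ (τ ^ 2) * (r ^ 2 * (1 + r') ^ 2) :=
            mul_le_mul_of_nonneg_left (hq2u.trans h1) hm.le
        _ = (min τ (τ ^ 2) * r ^ 2) * (1 + r') ^ 2 := by ring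
        _ ≤ (q2 - q1) * (1 + r') ^ 2 := mul_le_mul_of_nonneg_right h6 (by positivity)
    have h3 : min τ (τ ^ 2) / (2 * (1 + r') ^ 2) = (min τ (τ ^ 2) / (1 + r') ^ 2) / 2 := by
      field_simp
    rw [h3]
    linarith

/-! ### the integrated kernel -/

theorem int_exp_Ioi {a : ℝ} (ha : a < 0) (x : ℝ) :
    ∫ t in Ioi x, Real.exp (a * t) = -(Real.exp (a * x)) / a := by
  have := integral_exp_mul_Ioi ha x
  simpa using this

theorem int_exp_Iic {a : ℝ} (ha : 0 < a) (x : ℝ) :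
    ∫ t in Iic x, Real.exp (a * t) = Real.exp (a * x) / a := by
  have := integral_exp_mul_Iic ha x
  simpa using this

theorem pexp_int {p : ℕ} (hp : p ≤ 1) {ρ : ℝ} (h1 : (p : ℝ) < ρ) (x : ℝ) :
    IntegrableOn (fun t => (p : ℝ) * Real.exp ((1 - ρ) * t)) (Ioi x) ∧
      ∫ t in Ioi x, (p : ℝ) * Real.exp ((1 - ρ) * t) =
        p * (Real.exp ((1 - ρ) * x) / (ρ - 1)) := by
  interval_cases p
  · simp
  · have h : 1 - ρ < 0 := by
      have : (1 : ℝ) < ρ := by simpa using h1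
      linarith
    constructor
    · exact (integrableOn_exp_mul_Ioi h x).const_mul _
    · rw [integral_const_mul, int_exp_Ioi h]
      have h3 : ρ - 1 ≠ 0 := by linarith
      have h4 : 1 - ρ ≠ 0 := by linarith
      field_simp
      ring

theorem kn_up (p : ℕ) (ρ ψ : ℝ) {t : ℝ} (ht : 0 ≤ t) :
    kn p ρ t ψ ≤ Real.cos ψ * (p * Real.exp ((1 - ρ) * t)) + (1 + t) * Real.exp (-ρ * t) := by
  rw [kn, kp_eq]
  have h1 := (ker_up t ψ).trans (log_one_add_exp ht)
  have h2 : Real.exp ((1 - ρ) * t) = Real.exp t * Real.exp (-ρ * t) := by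
    rw [← Real.exp_add]; ring_nf
  rw [h2]
  have h3 := mul_le_mul_of_nonneg_right h1 (Real.exp_pos (-ρ * t)).le
  nlinarith

theorem kap_big {p : ℕ} (hp : p ≤ 1) {ρ : ℝ} (h1 : (p : ℝ) < ρ) (h2 : ρ < p + 1)
    (hρ : 1 / 2 < ρ) (a : ℝ) : ∃ C : ℝ, 0 ≤ C ∧ ∀ α x : ℝ, 0 ≤ x →
      Real.exp (ρ * x) * (-kap p ρ a α x) ≤
        (p * (Real.exp x / (ρ - 1))) * (Real.cos (a - α) + Real.cos (a - π / ρ - α)) +
          C * (1 + x) := by
  have hρ0 : 0 < ρ := by linarith
  refine ⟨2 * (1 + 2 / ρ) * (2 / ρ), by positivity, ?_⟩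
  intro α x hx
  set S := Real.cos (a - α) + Real.cos (a - π / ρ - α) with hS
  set f : ℝ → ℝ := fun t => kn p ρ t (a - α) + kn p ρ t (a - π / ρ - α) with hf
  have hfi : Integrable f := (integrable_kn hp h1 h2 _).add (integrable_kn hp h1 h2 _)
  have htot : 0 ≤ ∫ t, f t := by
    rw [hf, integral_add (integrable_kn hp h1 h2 _) (integrable_kn hp h1 h2 _)]
    have := VV_pair hp h1 h2 hρ (a - π / ρ) α
    rw [sub_add_cancel] at this
    rw [VV, VV] at this
    linarith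
  have hsplit : (∫ t in Iic x, f t) + ∫ t in Ioi x, f t = ∫ t, f t := by
    rw [← setIntegral_union (Iic_disjoint_Ioi le_rfl) measurableSet_Ioi hfi.integrableOn
      hfi.integrableOn, Iic_union_Ioi, setIntegral_univ]
  have hkap : kap p ρ a α x = ∫ t in Iic x, f t := rfl
  obtain ⟨hi1, hv1⟩ := pexp_int hp h1 x
  have hb : -(ρ / 2) < 0 := by linarith
  have hi2 := integrableOn_exp_mul_Ioi hb x
  set K := 2 * ((1 + x) * (1 + 2 / ρ) * Real.exp (-(ρ / 2) * x)) with hK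
  have hle : ∫ t in Ioi x, f t ≤ ∫ t in Ioi x, (S * (p * Real.exp ((1 - ρ) * t)) +
      K * Real.exp (-(ρ / 2) * t)) := by
    refine setIntegral_mono_on hfi.integrableOn ((hi1.const_mul S).add (hi2.const_mul K))
      measurableSet_Ioi ?_
    intro t ht
    have ht : x < t := ht
    have ht0 : 0 ≤ t := hx.trans ht.le
    have e1 := kn_up p ρ (a - α) ht0
    have e2 := kn_up p ρ (a - π / ρ - α) ht0
    have e3 : (1 + t) * Real.exp (-ρ * t) ≤
        (1 + x) * (1 + 2 / ρ) * Real.exp (-(ρ / 2) * x) * Real.exp (-(ρ / 2) * t) := by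
      have h5 := lin_le_exp (ε := ρ / 2) (x := t - x) (by linarith) (by linarith)
      have h6 : 1 + t ≤ (1 + x) * (1 + (t - x)) := by nlinarith
      have h7 : 1 + t ≤ (1 + x) * ((1 + 1 / (ρ / 2)) * Real.exp (ρ / 2 * (t - x))) :=
        h6.trans (mul_le_mul_of_nonneg_left h5 (by linarith))
      have h8 := mul_le_mul_of_nonneg_right h7 (Real.exp_pos (-ρ * t)).le
      refine h8.trans (le_of_eq ?_)
      have h9 : Real.exp (ρ / 2 * (t - x)) * Real.exp (-ρ * t) =
          Real.exp (-(ρ / 2) * x) * Real.exp (-(ρ / 2) * t) := by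
        rw [← Real.exp_add, ← Real.exp_add]; ring_nf
      have h10 : 1 / (ρ / 2) = 2 / ρ := by field_simp
      rw [h10]
      linear_combination (1 + x) * (1 + 2 / ρ) * h9
    rw [hf]
    simp only
    rw [hS, hK]
    nlinarith
  rw [integral_add (hi1.const_mul S) (hi2.const_mul K), integral_const_mul, hv1,
    integral_const_mul, int_exp_Ioi hb] at hle
  have hmain : -kap p ρ a α x ≤ S * (p * (Real.exp ((1 - ρ) * x) / (ρ - 1))) +
      K * (-(Real.exp (-(ρ / 2) * x)) / (-(ρ / 2))) := by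
    rw [hkap]
    linarith
  have hex := Real.exp_pos (ρ * x)
  have h3 := mul_le_mul_of_nonneg_left hmain hex.le
  refine h3.trans (le_of_eq ?_)
  have e1 : Real.exp (ρ * x) * Real.exp ((1 - ρ) * x) = Real.exp x := by
    rw [← Real.exp_add]; ring_nf
  have e2 : Real.exp (ρ * x) * (Real.exp (-(ρ / 2) * x) * Real.exp (-(ρ / 2) * x)) = 1 := by
    rw [← Real.exp_add, ← Real.exp_add]
    ring_nf
    simp
  rw [hK]
  have e3 : -(Real.exp (-(ρ / 2) * x)) / (-(ρ / 2)) = (2 / ρ) * Real.exp (-(ρ / 2) * x) := by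
    field_simp
  rw [e3]
  linear_combination (S * p / (ρ - 1)) * e1 + (2 * (1 + x) * (1 + 2 / ρ) * (2 / ρ)) * e2

theorem kn_small_int {p : ℕ} (hp : p ≤ 1) {ρ : ℝ} (h1 : (p : ℝ) < ρ) (h2 : ρ < p + 1)
    (ψ : ℝ) {x : ℝ} (hx : x ≤ -1) :
    |(∫ t in Iic x, kn p ρ t ψ) + (1 - (p : ℝ)) * (Real.exp ((1 - ρ) * x) / (1 - ρ)) * Real.cos ψ| ≤
      Real.exp ((2 - ρ) * x) / (2 - ρ) := by
  have hp1 : (p : ℝ) ≤ 1 := by exact_mod_cast hp
  have hρ2 : 0 < 2 - ρ := by linarith
  have hi : IntegrableOn (fun t => (1 - (p : ℝ)) * Real.exp ((1 - ρ) * t)) (Iic x) ∧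
      ∫ t in Iic x, (1 - (p : ℝ)) * Real.exp ((1 - ρ) * t) =
        (1 - (p : ℝ)) * (Real.exp ((1 - ρ) * x) / (1 - ρ)) := by
    interval_cases p
    · have h : 0 < 1 - ρ := by
        have : ρ < 1 := by simpa using h2
        linarith
      constructor
      · exact (integrableOn_exp_mul_Iic h x).const_mul _
      · rw [integral_const_mul, int_exp_Iic h]
    · simp
  obtain ⟨hi1, hv1⟩ := hi
  have hk : IntegrableOn (fun t => kn p ρ t ψ) (Iic x) := (integrable_kn hp h1 h2 ψ).integrableOn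
  have heq : (∫ t in Iic x, kn p ρ t ψ) +
      (1 - (p : ℝ)) * (Real.exp ((1 - ρ) * x) / (1 - ρ)) * Real.cos ψ =
      ∫ t in Iic x, (kn p ρ t ψ + (1 - (p : ℝ)) * Real.exp ((1 - ρ) * t) * Real.cos ψ) := by
    rw [integral_add hk (hi1.mul_const _), integral_mul_const, hv1]
  rw [heq]
  have hb := integrableOn_exp_mul_Iic hρ2 x
  have h3 := norm_integral_le_of_norm_le (μ := volume.restrict (Iic x))
    (f := fun t => kn p ρ t ψ + (1 - (p : ℝ)) * Real.exp ((1 - ρ) * t) * Real.cos ψ) hb ?_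
  · rw [Real.norm_eq_abs, int_exp_Iic hρ2] at h3
    exact h3
  · filter_upwards [self_mem_ae_restrict measurableSet_Iic] with t ht
    have ht : t ≤ x := ht
    have h4 : Real.exp t ≤ 1 / 2 :=
      (Real.exp_le_exp.2 (ht.trans hx)).trans exp_neg_one_le_half
    have h5 := ker_small' (ψ := ψ) h4
    have e1 : Real.exp ((1 - ρ) * t) = Real.exp t * Real.exp (-ρ * t) := by
      rw [← Real.exp_add]; ring_nf
    have e2 : Real.exp ((2 - ρ) * t) = Real.exp (2 * t) * Real.exp (-ρ * t) := by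
      rw [← Real.exp_add]; ring_nf
    have e3 : kn p ρ t ψ + (1 - (p : ℝ)) * Real.exp ((1 - ρ) * t) * Real.cos ψ =
        (HBInd.ker t ψ + Real.exp t * Real.cos ψ) * Real.exp (-ρ * t) := by
      rw [kn, kp_eq, e1]; ring
    rw [e3, e2, norm_mul, Real.norm_eq_abs, Real.norm_of_nonneg (Real.exp_pos _).le]
    exact mul_le_mul_of_nonneg_right h5 (Real.exp_pos _).le

theorem kap_small {p : ℕ} (hp : p ≤ 1) {ρ : ℝ} (h1 : (p : ℝ) < ρ) (h2 : ρ < p + 1) (a : ℝ) :
    ∃ C : ℝ, 0 ≤ C ∧ ∀ α x : ℝ, x ≤ 0 →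
      |Real.exp (ρ * x) * (-kap p ρ a α x) - (1 - (p : ℝ)) * (Real.exp x / (1 - ρ)) *
        (Real.cos (a - α) + Real.cos (a - π / ρ - α))| ≤ C * Real.exp (2 * x) := by
  have hp1 : (p : ℝ) ≤ 1 := by exact_mod_cast hp
  have hρ0 : 0 < ρ := lt_of_le_of_lt (Nat.cast_nonneg p) h1
  have hρ2 : 0 < 2 - ρ := by linarith
  obtain ⟨C0, hC0, hk⟩ := kap_bound hp h1 h2
  set M := |(1 - (p : ℝ)) / (1 - ρ)| with hM
  have hM0 : 0 ≤ M := abs_nonneg _
  refine ⟨2 / (2 - ρ) + (C0 + 2 * M) * Real.exp 2, by positivity, ?_⟩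
  intro α x hx
  set S := Real.cos (a - α) + Real.cos (a - π / ρ - α) with hS
  have hx2 := Real.exp_pos (2 * x)
  rcases le_total x (-1) with hx1 | hx1
  · have e1 := kn_small_int hp h1 h2 (a - α) hx1
    have e2 := kn_small_int hp h1 h2 (a - π / ρ - α) hx1
    have hkap : kap p ρ a α x = (∫ t in Iic x, kn p ρ t (a - α)) +
        ∫ t in Iic x, kn p ρ t (a - π / ρ - α) := by
      rw [kap]
      exact integral_add (integrable_kn hp h1 h2 _).integrableOn
        (integrable_kn hp h1 h2 _).integrableOn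
    set I1 := ∫ t in Iic x, kn p ρ t (a - α) with hI1
    set I2 := ∫ t in Iic x, kn p ρ t (a - π / ρ - α) with hI2
    have e3 : Real.exp (ρ * x) * Real.exp ((1 - ρ) * x) = Real.exp x := by
      rw [← Real.exp_add]; ring_nf
    have e4 : Real.exp (ρ * x) * Real.exp ((2 - ρ) * x) = Real.exp (2 * x) := by
      rw [← Real.exp_add]; ring_nf
    have e5 : Real.exp (ρ * x) * (-kap p ρ a α x) - (1 - (p : ℝ)) * (Real.exp x / (1 - ρ)) * S =
        -(Real.exp (ρ * x) * ((I1 + (1 - (p : ℝ)) * (Real.exp ((1 - ρ) * x) / (1 - ρ)) *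
          Real.cos (a - α)) + (I2 + (1 - (p : ℝ)) * (Real.exp ((1 - ρ) * x) / (1 - ρ)) *
          Real.cos (a - π / ρ - α)))) := by
      rw [hkap, hS]
      linear_combination ((1 - (p : ℝ)) / (1 - ρ) *
        (Real.cos (a - α) + Real.cos (a - π / ρ - α))) * e3
    rw [e5, abs_neg, abs_mul, abs_of_pos (Real.exp_pos (ρ * x))]
    have e6 := (abs_add_le (I1 + (1 - (p : ℝ)) * (Real.exp ((1 - ρ) * x) / (1 - ρ)) *
          Real.cos (a - α)) (I2 + (1 - (p : ℝ)) * (Real.exp ((1 - ρ) * x) / (1 - ρ)) *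
          Real.cos (a - π / ρ - α))).trans (add_le_add e1 e2)
    have e7 := mul_le_mul_of_nonneg_left e6 (Real.exp_pos (ρ * x)).le
    have e8 : Real.exp (ρ * x) * (Real.exp ((2 - ρ) * x) / (2 - ρ) +
        Real.exp ((2 - ρ) * x) / (2 - ρ)) = 2 / (2 - ρ) * Real.exp (2 * x) := by
      linear_combination (2 / (2 - ρ)) * e4
    rw [e8] at e7
    refine e7.trans ?_
    have : 0 ≤ (C0 + 2 * M) * Real.exp 2 := by positivity
    nlinarith
  · have e1 := hk a α x
    have e2 : |kap p ρ a α x| ≤ C0 := by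
      refine e1.trans ?_
      have := min_le_left (1 : ℝ) (Real.exp (sg p ρ * x))
      nlinarith
    have e3 : Real.exp (ρ * x) ≤ 1 := Real.exp_le_one_iff.2 (by nlinarith)
    have e4 : |Real.exp (ρ * x) * (-kap p ρ a α x)| ≤ C0 := by
      rw [abs_mul, abs_neg, abs_of_pos (Real.exp_pos _)]
      have := abs_nonneg (kap p ρ a α x)
      have := Real.exp_pos (ρ * x)
      nlinarith
    have e5 : |S| ≤ 2 := by
      have := Real.abs_cos_le_one (a - α)
      have := Real.abs_cos_le_one (a - π / ρ - α)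
      have := abs_add_le (Real.cos (a - α)) (Real.cos (a - π / ρ - α))
      rw [hS]
      linarith
    have e6 : |(1 - (p : ℝ)) * (Real.exp x / (1 - ρ)) * S| ≤ 2 * M := by
      have h7 : (1 - (p : ℝ)) * (Real.exp x / (1 - ρ)) * S =
          ((1 - (p : ℝ)) / (1 - ρ)) * (Real.exp x * S) := by ring
      rw [h7, abs_mul, abs_mul, abs_of_pos (Real.exp_pos x), ← hM]
      have h8 : Real.exp x ≤ 1 := Real.exp_le_one_iff.2 hx
      have h9 : Real.exp x * |S| ≤ 2 := by
        have := Real.exp_pos x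
        have := abs_nonneg S
        nlinarith
      nlinarith
    have e7 := abs_sub (Real.exp (ρ * x) * (-kap p ρ a α x))
      ((1 - (p : ℝ)) * (Real.exp x / (1 - ρ)) * S)
    have e8 : 1 ≤ Real.exp 2 * Real.exp (2 * x) := by
      rw [← Real.exp_add]
      exact Real.one_le_exp (by linarith)
    have e9 : 0 ≤ 2 / (2 - ρ) * Real.exp (2 * x) := by positivity
    have e10 : C0 + 2 * M ≤ (C0 + 2 * M) * (Real.exp 2 * Real.exp (2 * x)) := by
      have : 0 ≤ C0 + 2 * M := by positivity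
      nlinarith
    nlinarith

end KerI

theorem kerIneq {p : ℕ} (hp : p ≤ 1) {ρ : ℝ} (h1 : (p : ℝ) < ρ) (h2 : ρ < p + 1)
    (hρ : 1 / 2 < ρ) (a : ℝ) {θ₁ θ₂ θ' r' τ : ℝ} (hθ2 : -(π / 2) < θ₂) (h21 : θ₂ < θ₁)
    (hθ1 : θ₁ < 0) (hτ : 0 < τ) (hr' : 0 < r')
    (hz : (r' : ℂ) * Complex.exp ((θ' : ℂ) * I) = Complex.exp ((θ₁ : ℂ) * I) - (τ : ℂ) * I) :
    ∃ lam C₁ C₃ : ℝ, 0 ≤ C₁ ∧ 0 ≤ C₃ ∧ ∀ α ∈ TT p, ∀ x : ℝ, -kap p ρ a α x ≤
      C₁ * (r' ^ ρ * kn p ρ (x + Real.log r') (θ' - α) - kn p ρ x (θ₁ - α)) +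
        lam * kn p ρ x (θ₁ - α) +
        C₃ * (kn p ρ x (θ₂ - α) - Real.cos θ₂ / Real.cos θ₁ * kn p ρ x (θ₁ - α)) := by
  have hs1 : Real.sin θ₁ < 0 := Real.sin_neg_of_neg_of_neg_pi_lt hθ1 (by linarith [Real.pi_pos])
  have hs2 : Real.sin θ₂ < 0 :=
    Real.sin_neg_of_neg_of_neg_pi_lt (by linarith) (by linarith [Real.pi_pos])
  have hc1 : 0 < Real.cos θ₁ :=
    Real.cos_pos_of_mem_Ioo ⟨by linarith, by linarith [Real.pi_pos]⟩
  have hc2 : 0 < Real.cos θ₂ :=
    Real.cos_pos_of_mem_Ioo ⟨by linarith, by linarith [Real.pi_pos]⟩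
  have hc21 : Real.cos θ₂ < Real.cos θ₁ := by
    rw [← Real.cos_neg θ₂, ← Real.cos_neg θ₁]
    exact Real.cos_lt_cos_of_nonneg_of_le_pi (by linarith) (by linarith [Real.pi_pos])
      (by linarith)
  obtain ⟨c0, hc0, hgain⟩ := KerI.gain (p := p) hs1 hτ hr' hz
  obtain ⟨Cs, hCs, hsmall⟩ := KerI.kap_small hp h1 h2 a
  obtain ⟨Cb, hCb, hbig⟩ := KerI.kap_big hp h1 h2 hρ a
  set κ := Real.cos θ₂ / Real.cos θ₁ with hκ
  have hκ0 : 0 < κ := by positivity
  have hκ1 : κ < 1 := by rw [hκ, div_lt_one hc1]; exact hc21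
  have hκc : κ * Real.cos θ₁ = Real.cos θ₂ := by rw [hκ]; field_simp
  set lam := -(Real.cos a + Real.cos (a - π / ρ)) / ((1 - ρ) * Real.cos θ₁) with hlam
  set C3 := (Cb + |lam|) / (1 - κ) with hC3
  have h1κ : 0 < 1 - κ := by linarith
  have hlam0 := abs_nonneg lam
  have hC30 : 0 ≤ C3 := by positivity
  have hC3e : C3 * (1 - κ) = Cb + |lam| := by rw [hC3]; field_simp
  set a1 := 4 * (|Real.log (-Real.sin θ₁)| + 3) with ha1
  set a2 := 4 * (|Real.log (-Real.sin θ₂)| + 3) with ha2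
  set b1 := |Real.log (-Real.sin θ₁)| + 1 with hb1
  set b2 := |Real.log (-Real.sin θ₂)| + 1 with hb2
  have ha10 : 0 ≤ a1 := by positivity
  have ha20 : 0 ≤ a2 := by positivity
  have hb10 : 0 ≤ b1 := by positivity
  have hb20 : 0 ≤ b2 := by positivity
  set Q := (Real.sin a + Real.sin (a - π / ρ)) / (1 - ρ) + lam * Real.sin θ₁ +
    C3 * (Real.sin θ₂ - κ * Real.sin θ₁) with hQ
  set K1 := |Q| + Cs + |lam| * a1 + C3 * (a2 + κ * a1) with hK1
  set K2 := Cb + |lam| * b1 + C3 * (b2 + κ * b1) with hK2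
  have hK10 : 0 ≤ K1 := by positivity
  have hK20 : 0 ≤ K2 := by positivity
  refine ⟨lam, (K1 + K2) / c0, C3, by positivity, hC30, ?_⟩
  intro α hα x
  have hsa : 0 ≤ Real.sin α := Real.sin_nonneg_of_nonneg_of_le_pi hα.1.1 hα.1.2
  have hpsa : (p : ℝ) * Real.sin α = 0 := by
    interval_cases p
    · simp
    · rcases hα.2 rfl with h | h <;> simp [h]
  have hp1 : (p : ℝ) ≤ 1 := by exact_mod_cast hp
  have hp0 : (0 : ℝ) ≤ p := Nat.cast_nonneg p
  obtain ⟨hg1, hg2⟩ := hgain α x hsa hpsa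
  have hS : Real.cos (a - α) + Real.cos (a - π / ρ - α) =
      Real.cos α * (Real.cos a + Real.cos (a - π / ρ)) +
        Real.sin α * (Real.sin a + Real.sin (a - π / ρ)) := by
    rw [Real.cos_sub, Real.cos_sub]; ring
  have hS1 : Real.cos (θ₁ - α) = Real.cos θ₁ * Real.cos α + Real.sin θ₁ * Real.sin α :=
    Real.cos_sub _ _
  have hS2 : Real.cos (θ₂ - α) = Real.cos θ₂ * Real.cos α + Real.sin θ₂ * Real.sin α :=
    Real.cos_sub _ _
  have hρ1 : 1 - ρ ≠ 0 := by
    interval_cases p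
    · have : ρ < 1 := by simpa using h2
      linarith
    · have : 1 < ρ := by simpa using h1
      linarith
  have hlc : lam * Real.cos θ₁ = -(Real.cos a + Real.cos (a - π / ρ)) / (1 - ρ) := by
    rw [hlam]; field_simp
  have hbr : (Real.cos (a - α) + Real.cos (a - π / ρ - α)) / (1 - ρ) + lam * Real.cos (θ₁ - α) +
      C3 * (Real.cos (θ₂ - α) - κ * Real.cos (θ₁ - α)) = Q * Real.sin α := by
    rw [hS, hS1, hS2, hQ]
    linear_combination Real.cos α * hlc - C3 * Real.cos α * hκc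
  set E := Real.exp (ρ * x) * (-kap p ρ a α x) with hE
  set L := kp p x (θ₁ - α) with hL
  set V := kp p x (θ₂ - α) with hV
  set W := kp p (x + Real.log r') (θ' - α) with hW
  have hmain : E ≤ (K1 + K2) / c0 * (W - L) + lam * L + C3 * (V - κ * L) := by
    rcases le_total x 0 with hx | hx
    · have hx1 := Real.exp_pos x
      have hx2 := Real.exp_pos (2 * x)
      have g := hg1 hx
      have e1 := abs_le.1 (KerI.ker_small hs1 hsa hx)
      have e2 := abs_le.1 (KerI.ker_small hs2 hsa hx)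
      have e3 := abs_le.1 (hsmall α x hx)
      rw [← hE] at e3
      have f1 : L = (HBInd.ker x (θ₁ - α) + Real.exp x * Real.cos (θ₁ - α)) -
          (1 - (p : ℝ)) * (Real.exp x * Real.cos (θ₁ - α)) := by
        rw [hL, kp_eq]; ring
      have f2 : V = (HBInd.ker x (θ₂ - α) + Real.exp x * Real.cos (θ₂ - α)) -
          (1 - (p : ℝ)) * (Real.exp x * Real.cos (θ₂ - α)) := by
        rw [hV, kp_eq]; ring
      set A1 := HBInd.ker x (θ₁ - α) + Real.exp x * Real.cos (θ₁ - α) with hA1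
      set A2 := HBInd.ker x (θ₂ - α) + Real.exp x * Real.cos (θ₂ - α) with hA2
      set A3 := E - (1 - (p : ℝ)) * (Real.exp x / (1 - ρ)) *
        (Real.cos (a - α) + Real.cos (a - π / ρ - α)) with hA3
      have f3 : E - lam * L - C3 * (V - κ * L) =
          (1 - (p : ℝ)) * Real.exp x * (Q * Real.sin α) + A3 - lam * A1 - C3 * (A2 - κ * A1) := by
        rw [← hbr, f1, f2, hA3]
        ring
      have f4 : -lam * A1 ≤ |lam| * (a1 * Real.exp (2 * x)) := by
        calc -lam * A1 ≤ |-lam * A1| := le_abs_self _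
          _ = |lam| * |A1| := by rw [abs_mul, abs_neg]
          _ ≤ _ := mul_le_mul_of_nonneg_left (abs_le.2 e1) hlam0
      have f5 : -C3 * (A2 - κ * A1) ≤ C3 * ((a2 + κ * a1) * Real.exp (2 * x)) := by
        have : -(A2 - κ * A1) ≤ (a2 + κ * a1) * Real.exp (2 * x) := by
          have := mul_le_mul_of_nonneg_left e1.2 hκ0.le
          linarith [e2.1]
        have := mul_le_mul_of_nonneg_left this hC30
        linarith
      have f6 : (1 - (p : ℝ)) * Real.exp x * (Q * Real.sin α) ≤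
          |Q| * (Real.exp x * Real.sin α) := by
        have g1 : (1 - (p : ℝ)) * Real.exp x * (Q * Real.sin α) =
            (1 - (p : ℝ)) * (Q * (Real.exp x * Real.sin α)) := by ring
        have g2 : Q * (Real.exp x * Real.sin α) ≤ |Q| * (Real.exp x * Real.sin α) :=
          mul_le_mul_of_nonneg_right (le_abs_self Q) (by positivity)
        have g3 : 0 ≤ |Q| * (Real.exp x * Real.sin α) := by positivity
        rw [g1]
        have g4 := mul_le_mul_of_nonneg_left g2 (by linarith : (0 : ℝ) ≤ 1 - p)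
        have g5 := mul_nonneg hp0 g3
        linarith
      have f7 : 0 ≤ Real.exp x * Real.sin α := by positivity
      have f8 : E - lam * L - C3 * (V - κ * L) ≤
          K1 * (Real.exp x * Real.sin α + Real.exp (2 * x)) := by
        rw [f3, hK1]
        have g1 : (|Q| + Cs + |lam| * a1 + C3 * (a2 + κ * a1)) *
            (Real.exp x * Real.sin α + Real.exp (2 * x)) =
            |Q| * (Real.exp x * Real.sin α) + Cs * Real.exp (2 * x) +
            |lam| * (a1 * Real.exp (2 * x)) + C3 * ((a2 + κ * a1) * Real.exp (2 * x)) +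
            (|Q| * Real.exp (2 * x) + (Cs + |lam| * a1 + C3 * (a2 + κ * a1)) *
              (Real.exp x * Real.sin α)) := by ring
        have g2 : 0 ≤ |Q| * Real.exp (2 * x) + (Cs + |lam| * a1 + C3 * (a2 + κ * a1)) *
              (Real.exp x * Real.sin α) := by positivity
        rw [g1]
        linarith [e3.2]
      have f9 : K1 * (Real.exp x * Real.sin α + Real.exp (2 * x)) ≤ (K1 + K2) / c0 * (W - L) := by
        have g1 : K1 * (Real.exp x * Real.sin α + Real.exp (2 * x)) ≤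
            (K1 + K2) * (Real.exp x * Real.sin α + Real.exp (2 * x)) :=
          mul_le_mul_of_nonneg_right (by linarith) (by positivity)
        have g2 : (K1 + K2) * (Real.exp x * Real.sin α + Real.exp (2 * x)) =
            (K1 + K2) / c0 * (c0 * (Real.exp x * Real.sin α + Real.exp (2 * x))) := by
          field_simp
        rw [g2] at g1
        exact g1.trans (mul_le_mul_of_nonneg_left g (by positivity))
      linarith
    · have hx1 := Real.exp_pos x
      have g := hg2 hx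
      have e1 := abs_le.1 (KerI.ker_big hs1 hsa hx)
      have e2 := abs_le.1 (KerI.ker_big hs2 hsa hx)
      have e3 := hbig α x hx
      rw [← hE] at e3
      have f1 : L = HBInd.ker x (θ₁ - α) + p * (Real.exp x * Real.cos (θ₁ - α)) := by
        rw [hL, kp_eq]
      have f2 : V = HBInd.ker x (θ₂ - α) + p * (Real.exp x * Real.cos (θ₂ - α)) := by
        rw [hV, kp_eq]
      set A1 := HBInd.ker x (θ₁ - α) - x with hA1
      set A2 := HBInd.ker x (θ₂ - α) - x with hA2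
      have hne : ρ - 1 = -(1 - ρ) := by ring
      have f3 : p * (Real.exp x / (ρ - 1)) * (Real.cos (a - α) + Real.cos (a - π / ρ - α)) -
          lam * L - C3 * (V - κ * L) =
          -(Real.exp x * Q * (p * Real.sin α)) - lam * (x + A1) -
            C3 * ((1 - κ) * x + (A2 - κ * A1)) := by
        have g1 : -(Real.exp x * Q * (p * Real.sin α)) = -(p * Real.exp x * (Q * Real.sin α)) := by
          ring
        rw [g1, ← hbr, f1, f2, hne, div_neg, hA1, hA2]
        ring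
      rw [hpsa, mul_zero, neg_zero] at f3
      have f4 : -lam * A1 ≤ |lam| * b1 := by
        calc -lam * A1 ≤ |-lam * A1| := le_abs_self _
          _ = |lam| * |A1| := by rw [abs_mul, abs_neg]
          _ ≤ _ := mul_le_mul_of_nonneg_left (abs_le.2 e1) hlam0
      have f5 : -C3 * (A2 - κ * A1) ≤ C3 * (b2 + κ * b1) := by
        have : -(A2 - κ * A1) ≤ b2 + κ * b1 := by
          have := mul_le_mul_of_nonneg_left e1.2 hκ0.le
          linarith [e2.1]
        have := mul_le_mul_of_nonneg_left this hC30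
        linarith
      have f6 : -lam * x ≤ |lam| * x := mul_le_mul_of_nonneg_right (neg_le_abs lam) hx
      have f7 : C3 * ((1 - κ) * x) = Cb * x + |lam| * x := by
        rw [← mul_assoc, hC3e]; ring
      have f8 : E - lam * L - C3 * (V - κ * L) ≤ K2 := by
        rw [hK2]
        linarith
      have f9 : K2 ≤ (K1 + K2) / c0 * (W - L) := by
        have g1 : K2 ≤ (K1 + K2) / c0 * c0 := by
          have : (K1 + K2) / c0 * c0 = K1 + K2 := by field_simp
          rw [this]; linarith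
        exact g1.trans (mul_le_mul_of_nonneg_left g (by positivity))
      linarith
  have hex : Real.exp (-ρ * x) * Real.exp (ρ * x) = 1 := by
    rw [← Real.exp_add]; ring_nf; simp
  have hr'e : r' ^ ρ * Real.exp (-ρ * (x + Real.log r')) = Real.exp (-ρ * x) := by
    rw [Real.rpow_def_of_pos hr', ← Real.exp_add]
    ring_nf
  have hfin := mul_le_mul_of_nonneg_left hmain (Real.exp_pos (-ρ * x)).le
  have l1 : Real.exp (-ρ * x) * E = -kap p ρ a α x := by
    rw [hE]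
    linear_combination (-kap p ρ a α x) * hex
  rw [l1] at hfin
  refine hfin.trans (le_of_eq ?_)
  rw [kn, kn, kn, ← hL, ← hV, ← hW]
  linear_combination (-((K1 + K2) / c0 * W)) * hr'e

end HBInf
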