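import Pool.Agent.HBInf.Moments

/-!
# Systems of rays on which every prescribed growth can be compensated: definitions
-/

namespace HBInf

open HBInd Complex Filter Topology Set MeasureTheory
open scoped Real ComplexConjugate

/-- zeros on the rays `α j` with densities close to `ν j C + ξ j C'`, `C` slowly growing, have a negative
potential on all the rays `θ i` -/
def KillData (p : ℕ) (ρ : ℝ) {n : ℕ} (θ : Fin n → ℝ) : Prop :=
  ∃ (k : ℕ) (α ν ξ : Fin k → ℝ), (∀ j, α j ∈ TT p) ∧ (∀ j, 0 ≤ ν j) ∧ (∀ j, 0 < ν j ∨ 0 ≤ ξ j) ∧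
    ∀ i, ∑ j, ν j * VV p ρ (θ i - α j) < 0 ∨ (∑ j, ν j * VV p ρ (θ i - α j) = 0 ∧
      ∑ j, ν j * WW p ρ (θ i - α j) + ∑ j, ξ j * VV p ρ (θ i - α j) < 0)

/-- the density on the ray `α j` built from the increment `E` -/
noncomputable def killDens (E : ℝ → ℝ) (ν ξ t : ℝ) : ℝ := ν * (∫ s in Iic t, E s) + ξ * E t

end HBInf
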