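import Pool.Agent.HBInf.Defs
import Pool.Agent.HBInd.GlueB

/-!
# The normalised kernel, zero data
-/

namespace HBInf

open HBInd Complex Filter Topology Set MeasureTheory
open scoped Real ComplexConjugate

/-- `K_p(e^{u + iψ}) e^{-ρu}` -/
noncomputable def kn (p : ℕ) (ρ u ψ : ℝ) : ℝ := kp p u ψ * Real.exp (-ρ * u)

/-- the value at `e^{iψ}` of the homogeneous potential of the ray of zeros with argument `0` -/
noncomputable def VV (p : ℕ) (ρ ψ : ℝ) : ℝ := ∫ u, kn p ρ u ψ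

/-- the derivative of `VV` with respect to `ρ` -/
noncomputable def WW (p : ℕ) (ρ ψ : ℝ) : ℝ := -∫ u, u * kn p ρ u ψ

/-- majorant of `|kn p ρ u ψ|` -/
noncomputable def Psi (p : ℕ) (ρ u : ℝ) : ℝ := PhiP p u * Real.exp (-ρ * u)

/-- half the rate of decay of the kernel -/
noncomputable def sg (p : ℕ) (ρ : ℝ) : ℝ := min (ρ - p) (p + 1 - ρ) / 2

/-- zeros `exp (s i + I a i)` with `s i ≥ 0`, of exponent of convergence at most `ρ` -/
structure ZD (p : ℕ) (ρ : ℝ) (ι : Type) where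
  s : ι → ℝ
  a : ι → ℝ
  s0 : ∀ i, 0 ≤ s i
  ha : ∀ i, a i ∈ TT p
  sum : ∀ σ, ρ < σ → Summable fun i => Real.exp (-σ * s i)

/-- the potential at `exp (y + I θ)` -/
noncomputable def ZD.U {p : ℕ} {ρ : ℝ} {ι : Type} (D : ZD p ρ ι) (y θ : ℝ) : ℝ :=
  ∑' i, kp p (y - D.s i) (θ - D.a i)

/-- the density of the zeros around `exp y`, exponentially averaged with rate `σ` -/
noncomputable def ZD.N {p : ℕ} {ρ : ℝ} {ι : Type} (D : ZD p ρ ι) (σ y : ℝ) : ℝ :=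
  ∑' i, Real.exp (-ρ * D.s i) * Real.exp (-σ * |y - D.s i|)

/-- `g` is an upper bound for the indicator on the ray `θ` -/
def ZD.UB {p : ℕ} {ρ : ℝ} {ι : Type} (D : ZD p ρ ι) (θ g : ℝ) : Prop :=
  ∃ Y : ℝ, ∀ᵐ y : ℝ, Y ≤ y → D.U y θ ≤ g * Real.exp (ρ * y)

/-- `M` is a lower bound for the indicator on the ray `θ` -/
def ZD.LB {p : ℕ} {ρ : ℝ} {ι : Type} (D : ZD p ρ ι) (θ M : ℝ) : Prop :=
  ∀ Y : ℝ, 0 < volume {y : ℝ | Y ≤ y ∧ M * Real.exp (ρ * y) < D.U y θ}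

/-- the integrated kernel of the pair of rays `a`, `a - π / ρ` for a zero with argument `α` -/
noncomputable def kap (p : ℕ) (ρ a α x : ℝ) : ℝ :=
  ∫ t in Iic x, (kn p ρ t (a - α) + kn p ρ t (a - π / ρ - α))

end HBInf
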