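import Pool.Agent.HBInf.KnDefs

/-!
# Elementary bounds for the normalised kernel

`kn p ρ u ψ = kp p u ψ * e^{-ρu}`, `Psi p ρ u = PhiP p u * e^{-ρu}`, `sg p ρ = min (ρ - p) (p + 1 - ρ) / 2`,
`p ≤ 1`, `p < ρ < p + 1`.

* `abs_kn_le`: `abs_kp_le_PhiP` (`Pool.Agent.HBInd.KerP`).
* `psi_le`, `integrable_psi`: for `u ≤ -1`: `PhiP p u ≤ 3 e^{(p+1) u}` (`Phi_le_neg`, definition of `PhiP`); for
  `u ≥ 1`: `PhiP p u ≤ 2 (1 + u) + p e^u` (`Phi_le_pos`), and `(1 + u)^k e^{-(ρ-p) u} ≤ C e^{-sg u / ..}`; for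
  `|u| ≤ 1`: `PhiP p u ≤ |log |u|| + C` (`Phi_le_mid`), `|u| |log |u|| ≤ 1`. See also `integrable_PhiP`,
  `integrable_Phi`, `lin_le_exp`. (For `integrable_psi`: outside `[-1, 1]` by `psi_le`-like bounds with
  `2 sg - η`; e.g. prove first `|u| ^ 3 * ..`; inside by `integrable_PhiP`.)
* `kn_le`: `kp p u ψ ≤ log (1 + e^u) + p e^u cos ψ`-type upper bounds, for `p = 1` and `u ≤ -1` use
  `|kp| ≤ PhiP`; near `u = 0` the kernel is bounded above: `‖1 - w‖ ≤ 1 + ‖w‖`.
* `kq_sub`: `kq p δ u ψ - kp p u ψ = log max (‖1-w‖, δ‖w‖) - log ‖1-w‖` is `0` unless `‖1-w‖ < δ ‖w‖`, and then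
  `|e^u - 1| ≤ δ e^u`, so `|u| ≤ 4 δ`, and it is `≤ log (δ e^u / |1 - e^u|) ≤ log (4 δ / |u|)`;
  `∫_{|u| ≤ 4δ} log (4 δ / |u|) du = 8 δ`. (For `p = 1` the terms `p Re w` cancel.)
* `kn_l1`: with `δ = √(|v| + |ψ' - ψ|) / 2`: `|kq p δ u ψ - kq p δ u' ψ'| ≤ (C/δ)(|u - u'| + |ψ - ψ'|) mp p u'`
  (`kd_lip`, in both directions), `∫ mp p u e^{-ρu} < ∞` and the factor `e^{-ρ(u+v)}` versus `e^{-ρu}`
  (`|e^{-ρv} - 1| ≤ C |v|`, `∫ |kn| < ∞`), plus `kq_sub` twice.
* `kn_neg`, `kn_add_int`: the kernel depends only on `cos ψ`: `ker_eq`, `kp_eq`.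
-/

namespace HBInf

open HBInd Complex Filter Topology Set MeasureTheory
open scoped Real ComplexConjugate

theorem sg_pos {p : ℕ} {ρ : ℝ} (h1 : (p : ℝ) < ρ) (h2 : ρ < p + 1) : 0 < sg p ρ := by
  unfold sg
  have := lt_min (sub_pos.2 h1) (sub_pos.2 h2)
  linarith

theorem sg_le {p : ℕ} {ρ : ℝ} : 2 * sg p ρ ≤ ρ - p ∧ 2 * sg p ρ ≤ p + 1 - ρ := by
  unfold sg
  constructor
  · have := min_le_left (ρ - p) (p + 1 - ρ); linarith
  · have := min_le_right (ρ - p) (p + 1 - ρ); linarith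

/-! ### auxiliary facts -/

theorem knt_int_exp {c : ℝ} (hc : 0 < c) : Integrable fun u : ℝ => Real.exp (-c * |u|) := by
  have hA : IntegrableOn (fun u : ℝ => Real.exp (-c * |u|)) (Iic 0) := by
    refine (integrableOn_exp_mul_Iic hc 0).congr_fun (fun u hu => ?_) measurableSet_Iic
    have hu : u ≤ 0 := hu
    simp only
    rw [abs_of_nonpos hu]
    congr 1
    ring
  have hB : IntegrableOn (fun u : ℝ => Real.exp (-c * |u|)) (Ioi 0) := by
    refine (integrableOn_exp_mul_Ioi (a := -c) (by linarith) 0).congr_fun (fun u hu => ?_)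
      measurableSet_Ioi
    have hu : 0 < u := hu
    simp only
    rw [abs_of_pos hu]
  rw [← integrableOn_univ, ← Iic_union_Ioi (a := (0 : ℝ))]
  exact hA.union hB

theorem knt_PhiP_neg {p : ℕ} (hp : p ≤ 1) {u : ℝ} (hu : u ≤ -1) :
    PhiP p u ≤ 3 * Real.exp ((p + 1) * u) := by
  interval_cases p
  · rw [PhiP, if_pos rfl]
    simpa using Phi_le_neg hu
  · rw [PhiP, if_neg one_ne_zero, if_pos hu]
    have h : (((1 : ℕ) : ℝ) + 1) * u = 2 * u := by norm_num
    rw [h]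
    linarith [Real.exp_pos (2 * u)]

theorem knt_PhiP_pos {p : ℕ} (hp : p ≤ 1) {u : ℝ} (hu : 1 ≤ u) :
    PhiP p u ≤ 3 * (1 + u) * Real.exp (p * u) := by
  have h0 := Phi_le_pos hu
  interval_cases p
  · rw [PhiP, if_pos rfl]
    simp only [Nat.cast_zero, zero_mul, Real.exp_zero, mul_one]
    linarith
  · rw [PhiP, if_neg one_ne_zero, if_neg (by linarith)]
    simp only [Nat.cast_one, one_mul]
    have h1 : 1 ≤ Real.exp u := Real.one_le_exp (by linarith)
    nlinarith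

theorem knt_exp_one : Real.exp 1 ≤ 3 := by
  linarith [Real.exp_one_lt_d9]

theorem knt_PhiP_mid (p : ℕ) {u : ℝ} (hu : |u| ≤ 1) :
    PhiP p u ≤ |Real.log u| + 7 := by
  have h0 := Phi_le_mid hu
  have h1 := Phi_nonneg u
  have h2 : Real.exp u ≤ 3 :=
    (Real.exp_le_exp.2 (le_of_abs_le hu)).trans knt_exp_one
  have h3 := abs_nonneg (Real.log u)
  unfold PhiP
  split_ifs with h4 h5
  · linarith
  · have h6 : Real.exp (2 * u) ≤ 1 := by
      rw [← Real.exp_zero]
      exact Real.exp_le_exp.2 (by linarith)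
    linarith
  · linarith

theorem knt_out {p : ℕ} (hp : p ≤ 1) {ρ u : ℝ} (hu : 1 ≤ |u|) :
    Psi p ρ u ≤ 3 * (1 + |u|) * Real.exp (-(2 * sg p ρ) * |u|) := by
  obtain ⟨s1, s2⟩ := sg_le (p := p) (ρ := ρ)
  rw [Psi]
  rcases le_abs.1 hu with h | h
  · have h1 := knt_PhiP_pos hp h
    have e : |u| = u := abs_of_nonneg (by linarith)
    rw [e]
    calc PhiP p u * Real.exp (-ρ * u)
        ≤ 3 * (1 + u) * Real.exp (p * u) * Real.exp (-ρ * u) :=
          mul_le_mul_of_nonneg_right h1 (Real.exp_pos _).le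
      _ = 3 * (1 + u) * Real.exp ((p - ρ) * u) := by
          rw [mul_assoc, ← Real.exp_add]
          congr 2
          ring
      _ ≤ 3 * (1 + u) * Real.exp (-(2 * sg p ρ) * u) := by
          refine mul_le_mul_of_nonneg_left (Real.exp_le_exp.2 ?_) (by linarith)
          exact mul_le_mul_of_nonneg_right (by linarith) (by linarith)
  · have h' : u ≤ -1 := by linarith
    have h1 := knt_PhiP_neg hp h'
    have e : |u| = -u := abs_of_nonpos (by linarith)
    rw [e]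
    calc PhiP p u * Real.exp (-ρ * u)
        ≤ 3 * Real.exp ((p + 1) * u) * Real.exp (-ρ * u) :=
          mul_le_mul_of_nonneg_right h1 (Real.exp_pos _).le
      _ = 3 * Real.exp (-(p + 1 - ρ) * (-u)) := by
          rw [mul_assoc, ← Real.exp_add]
          congr 2
          ring
      _ ≤ 3 * Real.exp (-(2 * sg p ρ) * (-u)) := by
          refine mul_le_mul_of_nonneg_left (Real.exp_le_exp.2 ?_) (by norm_num)
          exact mul_le_mul_of_nonneg_right (by linarith) (by linarith)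
      _ ≤ 3 * (1 + -u) * Real.exp (-(2 * sg p ρ) * (-u)) := by
          refine mul_le_mul_of_nonneg_right ?_ (Real.exp_pos _).le
          linarith

theorem knt_exp_rho {ρ u : ℝ} (hu : |u| ≤ 1) : Real.exp (-ρ * u) ≤ Real.exp |ρ| := by
  apply Real.exp_le_exp.2
  calc -ρ * u ≤ |-ρ * u| := le_abs_self _
    _ = |ρ| * |u| := by rw [abs_mul, abs_neg]
    _ ≤ |ρ| * 1 := mul_le_mul_of_nonneg_left hu (abs_nonneg _)
    _ = |ρ| := mul_one _

theorem knt_mid (p : ℕ) {ρ u : ℝ} (hu : |u| ≤ 1) :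
    Psi p ρ u ≤ (|Real.log u| + 7) * Real.exp |ρ| := by
  rw [Psi]
  exact mul_le_mul (knt_PhiP_mid p hu) (knt_exp_rho hu) (Real.exp_pos _).le
    (by positivity)

theorem knt_cube {ε : ℝ} (hε : 0 < ε) (u : ℝ) :
    (1 + |u|) ^ 3 ≤ (1 + 1 / ε) ^ 3 * Real.exp (3 * ε * |u|) := by
  have h := lin_le_exp hε (abs_nonneg u)
  calc (1 + |u|) ^ 3 ≤ ((1 + 1 / ε) * Real.exp (ε * |u|)) ^ 3 :=
        pow_le_pow_left₀ (by positivity) h 3
    _ = (1 + 1 / ε) ^ 3 * Real.exp (3 * ε * |u|) := by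
        rw [mul_pow, ← Real.exp_nat_mul]
        congr 2
        push_cast
        ring

theorem knt_mul_log {u : ℝ} (hu : |u| ≤ 1) : |u| * |Real.log u| ≤ 1 := by
  rcases eq_or_ne u 0 with rfl | h0
  · simp
  have h := Real.abs_log_mul_self_lt |u| (abs_pos.2 h0) hu
  rw [Real.log_abs, abs_mul, abs_abs] at h
  linarith

/-! ### the statements -/

theorem kn_neg (p : ℕ) (ρ u ψ : ℝ) : kn p ρ u (-ψ) = kn p ρ u ψ := by
  rw [kn, kn, kp_eq, kp_eq, ker_eq, ker_eq, Real.cos_neg]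

theorem kn_add_int (p : ℕ) (ρ u ψ : ℝ) (n : ℤ) : kn p ρ u (ψ + n * (2 * π)) = kn p ρ u ψ := by
  rw [kn, kn, kp_eq, kp_eq, ker_eq, ker_eq, Real.cos_add_int_mul_two_pi]

theorem measurable_kn (p : ℕ) (ρ : ℝ) : Measurable fun x : ℝ × ℝ => kn p ρ x.1 x.2 := by
  have h : (fun x : ℝ × ℝ => kn p ρ x.1 x.2) = fun x : ℝ × ℝ =>
      (Real.log (1 - 2 * Real.exp x.1 * Real.cos x.2 + Real.exp x.1 ^ 2) / 2 +
        p * (Real.exp x.1 * Real.cos x.2)) * Real.exp (-ρ * x.1) := by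
    funext x
    rw [kn, kp_eq, ker_eq]
  rw [h]
  fun_prop

theorem Psi_nonneg (p : ℕ) (ρ u : ℝ) : 0 ≤ Psi p ρ u :=
  mul_nonneg (PhiP_nonneg p u) (Real.exp_pos _).le

theorem measurable_Psi (p : ℕ) (ρ : ℝ) : Measurable (Psi p ρ) := by
  have := measurable_PhiP p
  unfold Psi
  fun_prop

theorem abs_kn_le {p : ℕ} (hp : p ≤ 1) (ρ : ℝ) {u : ℝ} (hu : u ≠ 0) (ψ : ℝ) :
    |kn p ρ u ψ| ≤ Psi p ρ u := by
  rw [kn, Psi, abs_mul, abs_of_pos (Real.exp_pos _)]
  exact mul_le_mul_of_nonneg_right (abs_kp_le_PhiP hp hu ψ) (Real.exp_pos _).le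

theorem psi_le {p : ℕ} (hp : p ≤ 1) {ρ : ℝ} (h1 : (p : ℝ) < ρ) (h2 : ρ < p + 1) :
    ∃ C : ℝ, 0 < C ∧ ∀ u : ℝ, (|u| + |u| ^ 2) * Psi p ρ u ≤ C * Real.exp (-(sg p ρ) * |u|) := by
  have hs := sg_pos h1 h2
  set s := sg p ρ with hsdef
  refine ⟨3 * (1 + 1 / (s / 3)) ^ 3 + 16 * Real.exp |ρ| * Real.exp s, by positivity, fun u => ?_⟩
  have hE := Real.exp_pos (-s * |u|)
  have hu0 := abs_nonneg u
  rcases le_total |u| 1 with hu | hu
  · have a1 := knt_mid p (ρ := ρ) hu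
    have a2 := knt_mul_log hu
    have a3 := abs_nonneg (Real.log u)
    have a4 : |u| + |u| ^ 2 ≤ 2 * |u| := by nlinarith
    have a5 : (|u| + |u| ^ 2) * Psi p ρ u ≤ 16 * Real.exp |ρ| := by
      calc (|u| + |u| ^ 2) * Psi p ρ u ≤ (2 * |u|) * ((|Real.log u| + 7) * Real.exp |ρ|) :=
            mul_le_mul a4 a1 (Psi_nonneg _ _ _) (by positivity)
        _ = (2 * (|u| * |Real.log u|) + 14 * |u|) * Real.exp |ρ| := by ring
        _ ≤ 16 * Real.exp |ρ| := by
            refine mul_le_mul_of_nonneg_right ?_ (Real.exp_pos _).le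
            linarith
    have a6 : 1 ≤ Real.exp s * Real.exp (-s * |u|) := by
      rw [← Real.exp_add]
      apply Real.one_le_exp
      nlinarith
    have a7 : 0 ≤ 16 * Real.exp |ρ| := by positivity
    have a8 : 0 ≤ 3 * (1 + 1 / (s / 3)) ^ 3 * Real.exp (-s * |u|) := by positivity
    calc (|u| + |u| ^ 2) * Psi p ρ u ≤ 16 * Real.exp |ρ| * 1 := by linarith
      _ ≤ 16 * Real.exp |ρ| * (Real.exp s * Real.exp (-s * |u|)) :=
          mul_le_mul_of_nonneg_left a6 a7
      _ ≤ _ := by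
          rw [add_mul]
          linarith
  · have a1 := knt_out hp (ρ := ρ) hu
    rw [← hsdef] at a1
    have a2 := knt_cube (ε := s / 3) (by positivity) u
    have a4 : |u| + |u| ^ 2 ≤ (1 + |u|) ^ 2 := by nlinarith
    have a8 : 0 ≤ 16 * Real.exp |ρ| * Real.exp s * Real.exp (-s * |u|) := by positivity
    calc (|u| + |u| ^ 2) * Psi p ρ u
        ≤ (1 + |u|) ^ 2 * (3 * (1 + |u|) * Real.exp (-(2 * s) * |u|)) :=
          mul_le_mul a4 a1 (Psi_nonneg _ _ _) (by positivity)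
      _ = 3 * ((1 + |u|) ^ 3) * Real.exp (-(2 * s) * |u|) := by ring
      _ ≤ 3 * ((1 + 1 / (s / 3)) ^ 3 * Real.exp (3 * (s / 3) * |u|)) *
            Real.exp (-(2 * s) * |u|) := by
          gcongr
      _ = 3 * (1 + 1 / (s / 3)) ^ 3 * (Real.exp (3 * (s / 3) * |u|) *
            Real.exp (-(2 * s) * |u|)) := by ring
      _ = 3 * (1 + 1 / (s / 3)) ^ 3 * Real.exp (-s * |u|) := by
          rw [← Real.exp_add]
          congr 2
          ring
      _ ≤ _ := by
          rw [add_mul]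
          linarith

theorem integrable_psi {p : ℕ} (hp : p ≤ 1) {ρ : ℝ} (h1 : (p : ℝ) < ρ) (h2 : ρ < p + 1) :
    Integrable fun u : ℝ => (1 + |u|) ^ 2 * Psi p ρ u * Real.exp (sg p ρ * |u|) := by
  have hs := sg_pos h1 h2
  set s := sg p ρ with hsdef
  have hI := ((integrable_PhiP hp h1 h2).const_mul (2 * Real.exp s)).add
    ((knt_int_exp (c := s / 2) (by positivity)).const_mul (3 * (1 + 1 / (s / 6)) ^ 3))
  refine Integrable.mono' hI ?_ (Filter.Eventually.of_forall fun u => ?_)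
  · have := measurable_Psi p ρ
    exact Measurable.aestronglyMeasurable (by fun_prop)
  have hP := Psi_nonneg p ρ u
  have hPh := PhiP_nonneg p u
  have hu0 := abs_nonneg u
  rw [Real.norm_of_nonneg (by positivity)]
  simp only [Pi.add_apply]
  rcases le_total |u| 1 with hu | hu
  · have a1 : Real.exp (s * |u|) ≤ Real.exp s := Real.exp_le_exp.2 (by nlinarith)
    have a2 : (1 + |u|) ^ 2 ≤ 2 * (1 + |u|) := by nlinarith
    have a3 : 0 ≤ 3 * (1 + 1 / (s / 6)) ^ 3 * Real.exp (-(s / 2) * |u|) := by positivity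
    calc (1 + |u|) ^ 2 * Psi p ρ u * Real.exp (s * |u|)
        ≤ (2 * (1 + |u|)) * Psi p ρ u * Real.exp s := by gcongr
      _ = 2 * Real.exp s * ((1 + |u|) * PhiP p u * Real.exp (-ρ * u)) := by
          rw [Psi]; ring
      _ ≤ _ := by linarith
  · have a1 := knt_out hp (ρ := ρ) hu
    rw [← hsdef] at a1
    have a2 := knt_cube (ε := s / 6) (by positivity) u
    have a3 : 0 ≤ 2 * Real.exp s * ((1 + |u|) * PhiP p u * Real.exp (-ρ * u)) := by positivity
    calc (1 + |u|) ^ 2 * Psi p ρ u * Real.exp (s * |u|)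
        ≤ (1 + |u|) ^ 2 * (3 * (1 + |u|) * Real.exp (-(2 * s) * |u|)) * Real.exp (s * |u|) := by
          gcongr
      _ = 3 * (1 + |u|) ^ 3 * (Real.exp (-(2 * s) * |u|) * Real.exp (s * |u|)) := by ring
      _ ≤ 3 * ((1 + 1 / (s / 6)) ^ 3 * Real.exp (3 * (s / 6) * |u|)) *
            (Real.exp (-(2 * s) * |u|) * Real.exp (s * |u|)) := by gcongr
      _ = 3 * (1 + 1 / (s / 6)) ^ 3 * (Real.exp (3 * (s / 6) * |u|) *
            (Real.exp (-(2 * s) * |u|) * Real.exp (s * |u|))) := by ring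
      _ = 3 * (1 + 1 / (s / 6)) ^ 3 * Real.exp (-(s / 2) * |u|) := by
          rw [← Real.exp_add, ← Real.exp_add]
          congr 2
          ring
      _ ≤ _ := by linarith

theorem knt_integrable_Psi {p : ℕ} (hp : p ≤ 1) {ρ : ℝ} (h1 : (p : ℝ) < ρ) (h2 : ρ < p + 1) :
    Integrable (Psi p ρ) := by
  refine Integrable.mono' (integrable_psi hp h1 h2) (measurable_Psi p ρ).aestronglyMeasurable
    (Filter.Eventually.of_forall fun u => ?_)
  have hP := Psi_nonneg p ρ u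
  have hs := sg_pos h1 h2
  have hu0 := abs_nonneg u
  rw [Real.norm_of_nonneg hP]
  have a1 : 1 ≤ Real.exp (sg p ρ * |u|) := Real.one_le_exp (by positivity)
  have a2 : 1 ≤ (1 + |u|) ^ 2 := by nlinarith
  calc Psi p ρ u = 1 * Psi p ρ u * 1 := by ring
    _ ≤ (1 + |u|) ^ 2 * Psi p ρ u * Real.exp (sg p ρ * |u|) := by gcongr

theorem knt_ae_ne : ∀ᵐ u : ℝ, u ≠ 0 := by
  have : ({0}ᶜ : Set ℝ) ∈ ae (volume : Measure ℝ) :=
    compl_mem_ae_iff.2 (by simp)
  exact this

theorem knt_meas_kn (p : ℕ) (ρ ψ : ℝ) : Measurable fun u : ℝ => kn p ρ u ψ :=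
  (measurable_kn p ρ).comp (measurable_id.prodMk measurable_const)

theorem integrable_kn {p : ℕ} (hp : p ≤ 1) {ρ : ℝ} (h1 : (p : ℝ) < ρ) (h2 : ρ < p + 1) (ψ : ℝ) :
    Integrable fun u : ℝ => kn p ρ u ψ := by
  refine Integrable.mono' (knt_integrable_Psi hp h1 h2) (knt_meas_kn p ρ ψ).aestronglyMeasurable ?_
  filter_upwards [knt_ae_ne] with u hu
  rw [Real.norm_eq_abs]
  exact abs_kn_le hp ρ hu ψ

/-- the kernel is bounded above -/
theorem kn_le {p : ℕ} (hp : p ≤ 1) {ρ : ℝ} (h1 : (p : ℝ) < ρ) (h2 : ρ < p + 1) :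
    ∃ C : ℝ, 0 < C ∧ ∀ u ψ : ℝ, kn p ρ u ψ ≤ C * Real.exp (-(sg p ρ) * |u|) := by
  have hs := sg_pos h1 h2
  obtain ⟨C, hC, hb⟩ := psi_le hp h1 h2
  refine ⟨C + 6 * Real.exp |ρ| * Real.exp (sg p ρ), by positivity, fun u ψ => ?_⟩
  set s := sg p ρ with hsdef
  have hE := Real.exp_pos (-s * |u|)
  have hu0 := abs_nonneg u
  rw [add_mul]
  rcases le_total |u| 1 with hu | hu
  · have hw := norm_expw u ψ
    have b1 : Real.exp u ≤ 3 := (Real.exp_le_exp.2 (le_of_abs_le hu)).trans knt_exp_one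
    have b2 : HBInd.ker u ψ ≤ 3 := by
      unfold HBInd.ker
      rcases (norm_nonneg (1 - Complex.exp ((u : ℂ) + (ψ : ℂ) * I))).eq_or_lt with h0 | h0
      · rw [← h0, Real.log_zero]; norm_num
      · have := Real.log_le_sub_one_of_pos h0
        have h3 := norm_sub_le (1 : ℂ) (Complex.exp ((u : ℂ) + (ψ : ℂ) * I))
        rw [hw, norm_one] at h3
        linarith
    have b3 : kp p u ψ ≤ 6 := by
      rw [kp_eq]
      have b4 := (abs_le.1 (abs_re_expw_le u ψ)).2
      have b5 : (p : ℝ) * (Real.exp u * Real.cos ψ) ≤ 3 := by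
        interval_cases p
        · simp
        · rw [Nat.cast_one, one_mul]
          linarith
      linarith
    have b6 : kn p ρ u ψ ≤ 6 * Real.exp |ρ| := by
      rw [kn]
      calc kp p u ψ * Real.exp (-ρ * u) ≤ 6 * Real.exp (-ρ * u) :=
            mul_le_mul_of_nonneg_right b3 (Real.exp_pos _).le
        _ ≤ 6 * Real.exp |ρ| := mul_le_mul_of_nonneg_left (knt_exp_rho hu) (by norm_num)
    have a6 : 1 ≤ Real.exp s * Real.exp (-s * |u|) := by
      rw [← Real.exp_add]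
      apply Real.one_le_exp
      nlinarith
    have a7 : 0 ≤ 6 * Real.exp |ρ| := by positivity
    have a8 : 0 ≤ C * Real.exp (-s * |u|) := by positivity
    calc kn p ρ u ψ ≤ 6 * Real.exp |ρ| * 1 := by linarith
      _ ≤ 6 * Real.exp |ρ| * (Real.exp s * Real.exp (-s * |u|)) :=
          mul_le_mul_of_nonneg_left a6 a7
      _ ≤ _ := by linarith
  · have hne : u ≠ 0 := by
      intro h
      rw [h, abs_zero] at hu
      linarith
    have a1 := (le_abs_self _).trans (abs_kn_le hp ρ hne ψ)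
    have hP := Psi_nonneg p ρ u
    have a2 : Psi p ρ u ≤ (|u| + |u| ^ 2) * Psi p ρ u := by
      have : 1 ≤ |u| + |u| ^ 2 := by nlinarith
      nlinarith
    have a3 := hb u
    have a4 : 0 ≤ 6 * Real.exp |ρ| * Real.exp s * Real.exp (-s * |u|) := by positivity
    linarith

theorem knt_lower {δ u : ℝ} (hδ : δ ∈ Ioo (0 : ℝ) (1 / 2)) (hu : 4 * δ < |u|) :
    δ * Real.exp u ≤ |1 - Real.exp u| := by
  have hδ0 := hδ.1
  have hδ1 := hδ.2
  have hE := Real.exp_pos u
  rcases le_total 0 u with h | h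
  · rw [abs_of_nonneg h] at hu
    have h1 := Real.add_one_le_exp u
    rw [abs_of_nonpos (by linarith)]
    nlinarith
  · rw [abs_of_nonpos h] at hu
    have h1 := Real.add_one_le_exp (-u)
    have h2 : Real.exp (-u) * Real.exp u = 1 := by rw [← Real.exp_add]; simp
    have h3 : (1 + δ) * Real.exp u ≤ 1 := by
      rw [← h2]
      exact mul_le_mul_of_nonneg_right (by linarith) hE.le
    rw [abs_of_nonneg (by nlinarith)]
    linarith

theorem knt_upper {u : ℝ} (hu : |u| ≤ 2) : |u| * Real.exp u ≤ 4 * |1 - Real.exp u| := by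
  have hE := Real.exp_pos u
  rcases le_total 0 u with h | h
  · rw [abs_of_nonneg h] at hu ⊢
    have h1 := Real.add_one_le_exp u
    rw [abs_of_nonpos (by linarith)]
    nlinarith
  · rw [abs_of_nonpos h] at hu ⊢
    have h1 := Real.add_one_le_exp (-u)
    have h2 : Real.exp (-u) * Real.exp u = 1 := by rw [← Real.exp_add]; simp
    have h3 : (1 - u) * Real.exp u ≤ 1 := by
      rw [← h2]
      exact mul_le_mul_of_nonneg_right (by linarith) hE.le
    rw [abs_of_nonneg (by nlinarith)]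
    nlinarith

theorem knt_norm_lower (u ψ : ℝ) :
    |1 - Real.exp u| ≤ ‖1 - Complex.exp ((u : ℂ) + (ψ : ℂ) * I)‖ := by
  have h := abs_norm_sub_norm_le (1 : ℂ) (Complex.exp ((u : ℂ) + (ψ : ℂ) * I))
  rwa [norm_one, norm_expw] at h

theorem knt_abs_pos {u : ℝ} (hu : u ≠ 0) : 0 < |1 - Real.exp u| := by
  rw [abs_pos, sub_ne_zero]
  intro h
  apply hu
  have := congrArg Real.log h
  rw [Real.log_one, Real.log_exp] at this
  exact this.symm

theorem knt_diff (p : ℕ) (δ u ψ : ℝ) : kq p δ u ψ - kp p u ψ =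
    Real.log (max ‖1 - Complex.exp ((u : ℂ) + (ψ : ℂ) * I)‖ (δ * Real.exp u)) -
      Real.log ‖1 - Complex.exp ((u : ℂ) + (ψ : ℂ) * I)‖ := by
  simp only [kq, KD, kp, KK, norm_expw]
  ring

theorem knt_diff_le {p : ℕ} {δ : ℝ} (hδ : δ ∈ Ioo (0 : ℝ) (1 / 2)) {u : ℝ} (hu0 : u ≠ 0)
    (hu : |u| ≤ 4 * δ) (ψ : ℝ) : kq p δ u ψ - kp p u ψ ≤ Real.log (4 * δ) - Real.log u := by
  have hδ0 := hδ.1
  have hδ1 := hδ.2
  have hE := Real.exp_pos u
  have hn := knt_norm_lower u ψ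
  have h0 := knt_abs_pos hu0
  have hup := knt_upper (u := u) (by linarith)
  have hu1 : 0 < |u| := abs_pos.2 hu0
  rw [knt_diff, ← Real.log_abs u]
  rcases le_total (δ * Real.exp u) ‖1 - Complex.exp ((u : ℂ) + (ψ : ℂ) * I)‖ with h | h
  · rw [max_eq_left h, sub_self, sub_nonneg]
    exact Real.log_le_log hu1 hu
  · rw [max_eq_right h]
    have h3 := Real.log_le_log h0 hn
    have h4 : Real.log (δ * Real.exp u) + Real.log |u| ≤
        Real.log (4 * δ) + Real.log |1 - Real.exp u| := by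
      rw [← Real.log_mul (by positivity) hu1.ne', ← Real.log_mul (by positivity) h0.ne']
      refine Real.log_le_log (by positivity) ?_
      nlinarith
    linarith

theorem knt_meas_kq (p : ℕ) (δ ψ : ℝ) : Measurable fun u : ℝ => kq p δ u ψ := by
  unfold kq KD
  fun_prop

theorem knt_meas_kp (p : ℕ) (ψ : ℝ) : Measurable fun u : ℝ => kp p u ψ := by
  unfold kp KK
  fun_prop

theorem kq_sub {p : ℕ} (ρ : ℝ) : ∃ C : ℝ, 0 < C ∧ ∀ δ ∈ Ioo (0 : ℝ) (1 / 2), ∀ ψ : ℝ,
    (∀ u : ℝ, u ≠ 0 → 0 ≤ kq p δ u ψ - kp p u ψ) ∧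
    (∀ u : ℝ, 4 * δ < |u| → kq p δ u ψ = kp p u ψ) ∧
    Integrable (fun u : ℝ => (kq p δ u ψ - kp p u ψ) * Real.exp (-ρ * u)) ∧
    ∫ u : ℝ, (kq p δ u ψ - kp p u ψ) * Real.exp (-ρ * u) ≤ C * δ := by
  refine ⟨8 * Real.exp (2 * |ρ|), by positivity, ?_⟩
  intro δ hδ ψ
  have hδ0 := hδ.1
  have hδ1 := hδ.2
  have A1 : ∀ u : ℝ, u ≠ 0 → 0 ≤ kq p δ u ψ - kp p u ψ := fun u hu =>
    sub_nonneg.2 (kp_le_kq hu ψ)
  have A2 : ∀ u : ℝ, 4 * δ < |u| → kq p δ u ψ = kp p u ψ := by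
    intro u hu
    have h := (knt_lower hδ hu).trans (knt_norm_lower u ψ)
    have h2 := knt_diff p δ u ψ
    rw [max_eq_left h, sub_self] at h2
    linarith
  set a := 4 * δ with ha
  have ha0 : 0 < a := by positivity
  have ha2 : a ≤ 2 := by linarith
  set E := Real.exp (2 * |ρ|) with hE
  set g : ℝ → ℝ := (Icc (-a) a).indicator (fun u => (Real.log a - Real.log u) * E) with hg
  have hII : IntervalIntegrable (fun u : ℝ => (Real.log a - Real.log u) * E) volume (-a) a :=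
    (intervalIntegrable_const.sub intervalIntegral.intervalIntegrable_log').mul_const E
  have hI : IntegrableOn (fun u : ℝ => (Real.log a - Real.log u) * E) (Icc (-a) a) := by
    rw [← intervalIntegrable_iff_integrableOn_Icc_of_le (by linarith)]
    exact hII
  have hgI : Integrable g := by
    rw [hg, integrable_indicator_iff measurableSet_Icc]
    exact hI
  have hgv : ∫ u, g u = 2 * a * E := by
    rw [hg, integral_indicator measurableSet_Icc, integral_Icc_eq_integral_Ioc,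
      ← intervalIntegral.integral_of_le (by linarith), intervalIntegral.integral_mul_const,
      intervalIntegral.integral_sub intervalIntegrable_const
        intervalIntegral.intervalIntegrable_log', intervalIntegral.integral_const,
      integral_log, Real.log_neg_eq_log]
    simp only [smul_eq_mul]
    ring
  have hbound : ∀ u : ℝ, u ≠ 0 →
      0 ≤ (kq p δ u ψ - kp p u ψ) * Real.exp (-ρ * u) ∧
      (kq p δ u ψ - kp p u ψ) * Real.exp (-ρ * u) ≤ g u := by
    intro u hu0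
    refine ⟨mul_nonneg (A1 u hu0) (Real.exp_pos _).le, ?_⟩
    rcases le_or_gt |u| a with h | h
    · have hmem : u ∈ Icc (-a) a := abs_le.1 h
      rw [hg, indicator_of_mem hmem]
      have b1 := knt_diff_le (p := p) hδ hu0 h ψ
      have b2 : Real.exp (-ρ * u) ≤ E := by
        apply Real.exp_le_exp.2
        calc -ρ * u ≤ |-ρ * u| := le_abs_self _
          _ = |ρ| * |u| := by rw [abs_mul, abs_neg]
          _ ≤ |ρ| * 2 := mul_le_mul_of_nonneg_left (by linarith) (abs_nonneg _)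
          _ = 2 * |ρ| := mul_comm _ _
      exact mul_le_mul b1 b2 (Real.exp_pos _).le ((A1 u hu0).trans b1)
    · have hmem : u ∉ Icc (-a) a := fun hm => absurd (abs_le.2 hm) (not_le.2 h)
      rw [hg, indicator_of_notMem hmem, A2 u h, sub_self, zero_mul]
  have hmeas : Measurable fun u : ℝ => (kq p δ u ψ - kp p u ψ) * Real.exp (-ρ * u) := by
    have m1 := knt_meas_kq p δ ψ
    have m2 := knt_meas_kp p ψ
    fun_prop
  have hfI : Integrable fun u : ℝ => (kq p δ u ψ - kp p u ψ) * Real.exp (-ρ * u) := by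
    refine Integrable.mono' hgI hmeas.aestronglyMeasurable ?_
    filter_upwards [knt_ae_ne] with u hu
    rw [Real.norm_of_nonneg (hbound u hu).1]
    exact (hbound u hu).2
  refine ⟨A1, A2, hfI, ?_⟩
  have h5 : ∫ u : ℝ, (kq p δ u ψ - kp p u ψ) * Real.exp (-ρ * u) ≤ ∫ u, g u := by
    refine integral_mono_ae hfI hgI ?_
    filter_upwards [knt_ae_ne] with u hu
    exact (hbound u hu).2
  rw [hgv] at h5
  refine h5.trans (le_of_eq ?_)
  rw [ha]
  ring

theorem knt_mp_le {p : ℕ} {ρ : ℝ} (u : ℝ) :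
    mp p u * Real.exp (-ρ * u) ≤ Real.exp (-(2 * sg p ρ) * |u|) := by
  obtain ⟨s1, s2⟩ := sg_le (p := p) (ρ := ρ)
  rcases le_total 0 u with h | h
  · rw [abs_of_nonneg h]
    calc mp p u * Real.exp (-ρ * u) ≤ Real.exp (p * u) * Real.exp (-ρ * u) :=
          mul_le_mul_of_nonneg_right (min_le_left _ _) (Real.exp_pos _).le
      _ = Real.exp ((p - ρ) * u) := by rw [← Real.exp_add]; congr 1; ring
      _ ≤ _ := by
          apply Real.exp_le_exp.2
          exact mul_le_mul_of_nonneg_right (by linarith) h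
  · rw [abs_of_nonpos h]
    calc mp p u * Real.exp (-ρ * u) ≤ Real.exp ((p + 1) * u) * Real.exp (-ρ * u) :=
          mul_le_mul_of_nonneg_right (min_le_right _ _) (Real.exp_pos _).le
      _ = Real.exp (-(p + 1 - ρ) * (-u)) := by rw [← Real.exp_add]; congr 1; ring
      _ ≤ _ := by
          apply Real.exp_le_exp.2
          exact mul_le_mul_of_nonneg_right (by linarith) (by linarith)

theorem knt_mp_nonneg (p : ℕ) (u : ℝ) : 0 ≤ mp p u :=
  le_min (Real.exp_pos _).le (Real.exp_pos _).le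

theorem knt_int_mp {p : ℕ} {ρ : ℝ} (h1 : (p : ℝ) < ρ) (h2 : ρ < p + 1) :
    Integrable fun u : ℝ => mp p u * Real.exp (-ρ * u) := by
  have hs := sg_pos h1 h2
  refine Integrable.mono' (knt_int_exp (c := 2 * sg p ρ) (by positivity)) ?_
    (Filter.Eventually.of_forall fun u => ?_)
  · apply Measurable.aestronglyMeasurable
    unfold mp
    fun_prop
  · rw [Real.norm_of_nonneg (mul_nonneg (knt_mp_nonneg p u) (Real.exp_pos _).le)]
    exact knt_mp_le u

/-- the modulus of continuity in the mean of the kernel -/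
theorem kn_l1 {p : ℕ} (hp : p ≤ 1) {ρ : ℝ} (h1 : (p : ℝ) < ρ) (h2 : ρ < p + 1) :
    ∃ C : ℝ, 0 < C ∧ ∀ v ψ ψ' : ℝ, |v| + |ψ' - ψ| ≤ 1 / 4 →
      ∫ u : ℝ, |kn p ρ (u + v) ψ' - kn p ρ u ψ| ≤ C * √(|v| + |ψ' - ψ|) := by
  obtain ⟨C1, hC1, hq⟩ := kq_sub (p := p) ρ
  obtain ⟨C2, hC2, hl⟩ := kd_lip
  have hρ0 : 0 < ρ := lt_of_le_of_lt (Nat.cast_nonneg p) h1
  have hρ2 : ρ < 2 := by
    have : (p : ℝ) ≤ 1 := by exact_mod_cast hp
    linarith
  set M := ∫ u : ℝ, mp p u * Real.exp (-ρ * u) with hM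
  have hMI := knt_int_mp h1 h2
  have hM0 : 0 ≤ M := integral_nonneg fun u => mul_nonneg (knt_mp_nonneg p u) (Real.exp_pos _).le
  set P := ∫ u : ℝ, Psi p ρ u with hP
  have hPI := knt_integrable_Psi hp h1 h2
  have hP0 : 0 ≤ P := integral_nonneg fun u => Psi_nonneg p ρ u
  refine ⟨2 * C1 + 8 * C2 * M + 2 * P, by positivity, ?_⟩
  intro v ψ ψ' hs
  set s := |v| + |ψ' - ψ| with hsdef
  have hs0 : 0 ≤ s := by positivity
  rcases hs0.eq_or_lt with h0 | hspos
  · have hv : v = 0 := by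
      have := abs_nonneg v
      have := abs_nonneg (ψ' - ψ)
      exact abs_eq_zero.1 (by linarith)
    have hψ : ψ' = ψ := by
      have := abs_nonneg v
      have := abs_nonneg (ψ' - ψ)
      have h := abs_eq_zero.1 (show |ψ' - ψ| = 0 by linarith)
      linarith
    have hz : (fun u : ℝ => |kn p ρ (u + v) ψ' - kn p ρ u ψ|) = fun _ => (0 : ℝ) := by
      funext u
      rw [hv, hψ, add_zero, sub_self, abs_zero]
    rw [hz, integral_zero]
    positivity
  have hsq : 0 < √s := Real.sqrt_pos.2 hspos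
  have hsq2 : √s * √s = s := Real.mul_self_sqrt hs0
  have hsq3 : √s ≤ 1 / 2 := by
    rw [Real.sqrt_le_left (by norm_num)]
    linarith
  set δ := √s / 2 with hδdef
  have hδ : δ ∈ Ioo (0 : ℝ) (1 / 2) := ⟨by positivity, by linarith⟩
  have hδ' : δ ∈ Ioo (0 : ℝ) 1 := ⟨hδ.1, by linarith [hδ.2]⟩
  have hδ0 := hδ.1
  obtain ⟨q1, -, q3, q4⟩ := hq δ hδ ψ
  obtain ⟨r1, -, r3, r4⟩ := hq δ hδ ψ'
  set A : ℝ → ℝ := fun u => (kq p δ u ψ - kp p u ψ) * Real.exp (-ρ * u) with hA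
  set A' : ℝ → ℝ := fun u => (kq p δ u ψ' - kp p u ψ') * Real.exp (-ρ * u) with hA'
  set m : ℝ → ℝ := fun u => mp p u * Real.exp (-ρ * u) with hm
  set K := C2 / δ * s with hK
  have hK0 : 0 ≤ K := by positivity
  set G : ℝ → ℝ := fun u => A' (u + v) + (K * 3 * m u + K * m (u + v)) +
    (4 * s * Psi p ρ u + 4 * s * A u) + A u with hG
  have iA' : Integrable fun u => A' (u + v) := r3.comp_add_right v
  have im' : Integrable fun u => m (u + v) := hMI.comp_add_right v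
  have i1 : Integrable fun u => K * 3 * m u + K * m (u + v) :=
    (hMI.const_mul (K * 3)).add (im'.const_mul K)
  have i2 : Integrable fun u => 4 * s * Psi p ρ u + 4 * s * A u :=
    (hPI.const_mul (4 * s)).add (q3.const_mul (4 * s))
  have hGI : Integrable G := ((iA'.add i1).add i2).add q3
  have hGv : ∫ u, G u = (∫ u, A' u) + (K * 3 * M + K * M) + (4 * s * P + 4 * s * ∫ u, A u) +
      ∫ u, A u := by
    have g1 : ∫ u, G u = (∫ u, (A' (u + v) + (K * 3 * m u + K * m (u + v)) +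
        (4 * s * Psi p ρ u + 4 * s * A u))) + ∫ u, A u :=
      integral_add (f := fun u => A' (u + v) + (K * 3 * m u + K * m (u + v)) +
        (4 * s * Psi p ρ u + 4 * s * A u)) ((iA'.add i1).add i2) q3
    have g2 : ∫ u, (A' (u + v) + (K * 3 * m u + K * m (u + v)) +
        (4 * s * Psi p ρ u + 4 * s * A u)) = (∫ u, (A' (u + v) + (K * 3 * m u + K * m (u + v)))) +
        ∫ u, (4 * s * Psi p ρ u + 4 * s * A u) :=
      integral_add (f := fun u => A' (u + v) + (K * 3 * m u + K * m (u + v))) (iA'.add i1) i2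
    have g3 : ∫ u, (A' (u + v) + (K * 3 * m u + K * m (u + v))) =
        (∫ u, A' (u + v)) + ∫ u, (K * 3 * m u + K * m (u + v)) := integral_add iA' i1
    rw [g1, g2, g3, integral_add (hMI.const_mul (K * 3)) (im'.const_mul K),
      integral_add (hPI.const_mul (4 * s)) (q3.const_mul (4 * s)),
      integral_const_mul, integral_const_mul, integral_const_mul, integral_const_mul,
      integral_add_right_eq_self (μ := volume) A' v, integral_add_right_eq_self (μ := volume) m v]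
  have hpt : ∀ u : ℝ, u ≠ 0 → u + v ≠ 0 → |kn p ρ (u + v) ψ' - kn p ρ u ψ| ≤ G u := by
    intro u hu hu'
    have a1 := q1 u hu
    have a2 := r1 (u + v) hu'
    have l1 := hl p hp δ hδ' (u + v) u ψ' ψ (by
      rw [add_sub_cancel_left]; linarith)
    have l2 := hl p hp δ hδ' u (u + v) ψ ψ' (by
      rw [sub_add_cancel_left, abs_neg, abs_sub_comm ψ ψ']; linarith)
    rw [add_sub_cancel_left] at l1
    rw [sub_add_cancel_left, abs_neg, abs_sub_comm ψ ψ'] at l2
    rw [← hsdef] at l1 l2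
    have n1 := knt_mp_nonneg p u
    have n2 := knt_mp_nonneg p (u + v)
    have habs : |kq p δ (u + v) ψ' - kq p δ u ψ| ≤ K * mp p u + K * mp p (u + v) := by
      have p1 : 0 ≤ K * mp p u := mul_nonneg hK0 n1
      have p2 : 0 ≤ K * mp p (u + v) := mul_nonneg hK0 n2
      rw [abs_le]
      constructor <;> linarith
    have e0 := Real.exp_pos (-ρ * u)
    have e1 := Real.exp_pos (-ρ * (u + v))
    have e2 : Real.exp (-ρ * (u + v)) = Real.exp (-ρ * u) * Real.exp (-ρ * v) := by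
      rw [← Real.exp_add]; congr 1; ring
    have hv4 : |v| ≤ 1 / 4 := by
      have := abs_nonneg (ψ' - ψ)
      linarith
    have hvs : |v| ≤ s := by
      have := abs_nonneg (ψ' - ψ)
      linarith
    have hx : |-ρ * v| ≤ 1 := by
      rw [abs_mul, abs_neg, abs_of_pos hρ0]
      nlinarith [abs_nonneg v]
    have hx2 : |-ρ * v| ≤ 2 * s := by
      rw [abs_mul, abs_neg, abs_of_pos hρ0]
      nlinarith [abs_nonneg v]
    have e3 := Real.abs_exp_sub_one_le hx
    have e4 : |Real.exp (-ρ * v) - 1| ≤ 4 * s := by linarith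
    have e5 : Real.exp (-ρ * v) ≤ 3 :=
      (Real.exp_le_exp.2 (le_of_abs_le hx)).trans knt_exp_one
    have e6 : Real.exp (-ρ * (u + v)) ≤ 3 * Real.exp (-ρ * u) := by
      rw [e2, mul_comm]
      exact mul_le_mul_of_nonneg_right e5 e0.le
    have e7 : |Real.exp (-ρ * (u + v)) - Real.exp (-ρ * u)| ≤ 4 * s * Real.exp (-ρ * u) := by
      have : Real.exp (-ρ * (u + v)) - Real.exp (-ρ * u) =
          (Real.exp (-ρ * v) - 1) * Real.exp (-ρ * u) := by rw [e2]; ring
      rw [this, abs_mul, abs_of_pos e0]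
      exact mul_le_mul_of_nonneg_right e4 e0.le
    have t1 : |(kq p δ (u + v) ψ' - kp p (u + v) ψ') * Real.exp (-ρ * (u + v))| = A' (u + v) := by
      rw [hA']
      exact abs_of_nonneg (mul_nonneg a2 e1.le)
    have t2 : |(kq p δ u ψ - kp p u ψ) * Real.exp (-ρ * u)| = A u := by
      rw [hA]
      exact abs_of_nonneg (mul_nonneg a1 e0.le)
    have t3 : |(kq p δ (u + v) ψ' - kq p δ u ψ) * Real.exp (-ρ * (u + v))| ≤
        K * 3 * m u + K * m (u + v) := by
      rw [abs_mul, abs_of_pos e1]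
      calc |kq p δ (u + v) ψ' - kq p δ u ψ| * Real.exp (-ρ * (u + v))
          ≤ (K * mp p u + K * mp p (u + v)) * Real.exp (-ρ * (u + v)) :=
            mul_le_mul_of_nonneg_right habs e1.le
        _ = K * mp p u * Real.exp (-ρ * (u + v)) + K * m (u + v) := by rw [hm]; ring
        _ ≤ K * mp p u * (3 * Real.exp (-ρ * u)) + K * m (u + v) := by
            have := mul_le_mul_of_nonneg_left e6 (mul_nonneg hK0 n1)
            linarith
        _ = K * 3 * m u + K * m (u + v) := by rw [hm]; ring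
    have t4 : |kq p δ u ψ * (Real.exp (-ρ * (u + v)) - Real.exp (-ρ * u))| ≤
        4 * s * Psi p ρ u + 4 * s * A u := by
      have b1 : |kq p δ u ψ| ≤ |kp p u ψ| + (kq p δ u ψ - kp p u ψ) := by
        have := abs_add_le (kp p u ψ) (kq p δ u ψ - kp p u ψ)
        rw [abs_of_nonneg a1] at this
        have e : kp p u ψ + (kq p δ u ψ - kp p u ψ) = kq p δ u ψ := by ring
        rwa [e] at this
      have b2 := abs_kn_le hp ρ hu ψ
      rw [kn, abs_mul, abs_of_pos e0] at b2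
      rw [abs_mul]
      calc |kq p δ u ψ| * |Real.exp (-ρ * (u + v)) - Real.exp (-ρ * u)|
          ≤ (|kp p u ψ| + (kq p δ u ψ - kp p u ψ)) * (4 * s * Real.exp (-ρ * u)) :=
            mul_le_mul b1 e7 (abs_nonneg _) (by positivity)
        _ = 4 * s * (|kp p u ψ| * Real.exp (-ρ * u)) + 4 * s * A u := by rw [hA]; ring
        _ ≤ 4 * s * Psi p ρ u + 4 * s * A u := by
            have := mul_le_mul_of_nonneg_left b2 (show 0 ≤ 4 * s by positivity)
            linarith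
    have hdec : kn p ρ (u + v) ψ' - kn p ρ u ψ =
        -((kq p δ (u + v) ψ' - kp p (u + v) ψ') * Real.exp (-ρ * (u + v))) +
        (kq p δ (u + v) ψ' - kq p δ u ψ) * Real.exp (-ρ * (u + v)) +
        kq p δ u ψ * (Real.exp (-ρ * (u + v)) - Real.exp (-ρ * u)) +
        (kq p δ u ψ - kp p u ψ) * Real.exp (-ρ * u) := by
      rw [kn, kn]; ring
    rw [hdec]
    refine (abs_add_le _ _).trans ?_
    rw [t2]
    have u1 := abs_add_le (-((kq p δ (u + v) ψ' - kp p (u + v) ψ') * Real.exp (-ρ * (u + v))) +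
        (kq p δ (u + v) ψ' - kq p δ u ψ) * Real.exp (-ρ * (u + v)))
        (kq p δ u ψ * (Real.exp (-ρ * (u + v)) - Real.exp (-ρ * u)))
    have u2 := abs_add_le (-((kq p δ (u + v) ψ' - kp p (u + v) ψ') * Real.exp (-ρ * (u + v))))
        ((kq p δ (u + v) ψ' - kq p δ u ψ) * Real.exp (-ρ * (u + v)))
    rw [abs_neg, t1] at u2
    simp only [hG]
    linarith
  have hle : ∫ u : ℝ, |kn p ρ (u + v) ψ' - kn p ρ u ψ| ≤ ∫ u, G u := by
    refine integral_mono_of_nonneg (Filter.Eventually.of_forall fun u => abs_nonneg _) hGI ?_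
    have hae : ∀ᵐ u : ℝ, u ≠ -v := by
      have : ({-v}ᶜ : Set ℝ) ∈ ae (volume : Measure ℝ) :=
        compl_mem_ae_iff.2 (by simp)
      exact this
    filter_upwards [knt_ae_ne, hae] with u hu hu'
    exact hpt u hu (fun h => hu' (by linarith))
  refine hle.trans ?_
  rw [hGv]
  have k1 : K = 2 * C2 * √s := by
    rw [hK, hδdef, div_mul_eq_mul_div, div_eq_iff (by positivity)]
    linear_combination (-C2) * hsq2
  have k2 : s ≤ √s / 2 := by nlinarith
  have k3 : (∫ u, A' u) ≤ C1 * δ := r4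
  have k4 : (∫ u, A u) ≤ C1 * δ := q4
  have k5 : K * 3 * M + K * M = 8 * C2 * M * √s := by rw [k1]; ring
  have k6 : 4 * s * P ≤ 2 * P * √s := by nlinarith
  have k7 : 4 * s * ∫ u, A u ≤ C1 * √s := by
    have j1 : 4 * s * ∫ u, A u ≤ 4 * s * (C1 * δ) :=
      mul_le_mul_of_nonneg_left k4 (by positivity)
    have j2 : 4 * s * (C1 * δ) ≤ C1 * √s := by
      rw [hδdef]
      have : 0 ≤ C1 * √s := by positivity
      nlinarith
    linarith
  rw [k5]
  have k8 : C1 * δ = C1 * √s / 2 := by rw [hδdef]; ring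
  rw [k8] at k3 k4
  calc (∫ u, A' u) + 8 * C2 * M * √s + (4 * s * P + 4 * s * ∫ u, A u) + ∫ u, A u
      ≤ C1 * √s / 2 + 8 * C2 * M * √s + (2 * P * √s + C1 * √s) + C1 * √s / 2 := by linarith
    _ = (2 * C1 + 8 * C2 * M + 2 * P) * √s := by ring

end HBInf
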