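import Pool.Agent.HBInf.KnTools

/-!
# Weighted modulus of continuity of the kernel

`kn_l1w`: as `kn_l1` with the weight `e^{(sg/2) |u|}` (note `(1 + |u|)^2 ≤ C e^{..}` can be absorbed by the user): with
`δ = √(|v| + |ψ' - ψ|) / 2`: the differences `kq - kp` are supported in `|u| ≤ 4 δ` (`kq_sub`), where the weight is bounded,
`|kq p δ u ψ - kq p δ u' ψ'| ≤ (C/δ)(|u - u'| + |ψ - ψ'|) mp p u'` (`kd_lip`), `mp p u e^{-ρu} ≤ e^{-2 sg |u|}`, and
`|e^{-ρv} - 1| ≤ C |v|` times `∫ |kn| e^{(sg/2)|u|}` (`integrable_psi`).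
-/

namespace HBInf

open HBInd Complex Filter Topology Set MeasureTheory
open scoped Real ComplexConjugate

theorem mp_exp_le {p : ℕ} {ρ : ℝ} (h1 : (p : ℝ) < ρ) (h2 : ρ < p + 1) (u : ℝ) :
    mp p u ≤ Real.exp (ρ * u) * Real.exp (-(2 * sg p ρ) * |u|) := by
  have h := mul_le_mul_of_nonneg_left (knt_mp_le (p := p) (ρ := ρ) u) (Real.exp_pos (ρ * u)).le
  have h3 : Real.exp (ρ * u) * (mp p u * Real.exp (-ρ * u)) = mp p u := by
    have : Real.exp (ρ * u) * Real.exp (-ρ * u) = 1 := by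
      rw [← Real.exp_add]
      have : ρ * u + -ρ * u = 0 := by ring
      rw [this, Real.exp_zero]
    calc _ = mp p u * (Real.exp (ρ * u) * Real.exp (-ρ * u)) := by ring
      _ = _ := by rw [this, mul_one]
  rwa [h3] at h

/-- the pointwise bound in `kn_l1` -/
theorem kn2_pt {p : ℕ} (hp : p ≤ 1) {ρ : ℝ} (h1 : (p : ℝ) < ρ) (h2 : ρ < p + 1) {C2 : ℝ}
    (hC2 : 0 < C2)
    (hl : ∀ p ≤ 1, ∀ δ ∈ Ioo (0 : ℝ) 1, ∀ u u' ψ ψ' : ℝ, |u - u'| + |ψ - ψ'| ≤ 1 →
      kq p δ u ψ ≤ kq p δ u' ψ' + C2 / δ * (|u - u'| + |ψ - ψ'|) * mp p u')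
    {v ψ ψ' s δ K : ℝ} (hs : s ≤ 1 / 4) (hsdef : s = |v| + |ψ' - ψ|)
    (hδ' : δ ∈ Ioo (0 : ℝ) 1) (hKdef : K = C2 / δ * s)
    (q1 : ∀ u : ℝ, u ≠ 0 → 0 ≤ kq p δ u ψ - kp p u ψ)
    (r1 : ∀ u : ℝ, u ≠ 0 → 0 ≤ kq p δ u ψ' - kp p u ψ')
    (u : ℝ) (hu : u ≠ 0) (hu' : u + v ≠ 0) :
    |kn p ρ (u + v) ψ' - kn p ρ u ψ| ≤
      (kq p δ (u + v) ψ' - kp p (u + v) ψ') * Real.exp (-ρ * (u + v)) +
      (K * 3 * (mp p u * Real.exp (-ρ * u)) + K * (mp p (u + v) * Real.exp (-ρ * (u + v)))) +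
      (4 * s * Psi p ρ u + 4 * s * ((kq p δ u ψ - kp p u ψ) * Real.exp (-ρ * u))) +
      (kq p δ u ψ - kp p u ψ) * Real.exp (-ρ * u) := by
  have hρ0 : 0 < ρ := lt_of_le_of_lt (Nat.cast_nonneg p) h1
  have hρ2 : ρ < 2 := by
    have : (p : ℝ) ≤ 1 := by exact_mod_cast hp
    linarith
  have hs0 : 0 ≤ s := by rw [hsdef]; positivity
  have hδ0 := hδ'.1
  have hK0 : 0 ≤ K := by rw [hKdef]; positivity
  have a1 := q1 u hu
  have a2 := r1 (u + v) hu'
  have l1 := hl p hp δ hδ' (u + v) u ψ' ψ (by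
    rw [add_sub_cancel_left]; linarith)
  have l2 := hl p hp δ hδ' u (u + v) ψ ψ' (by
    rw [sub_add_cancel_left, abs_neg, abs_sub_comm ψ ψ']; linarith)
  rw [add_sub_cancel_left] at l1
  rw [sub_add_cancel_left, abs_neg, abs_sub_comm ψ ψ'] at l2
  rw [← hsdef, ← hKdef] at l1 l2
  have n1 := knt_mp_nonneg p u
  have n2 := knt_mp_nonneg p (u + v)
  have habs : |kq p δ (u + v) ψ' - kq p δ u ψ| ≤ K * mp p u + K * mp p (u + v) := by
    have p1 : 0 ≤ K * mp p u := mul_nonneg hK0 n1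
    have p2 : 0 ≤ K * mp p (u + v) := mul_nonneg hK0 n2
    rw [abs_le]
    constructor <;> linarith
  have e0 := Real.exp_pos (-ρ * u)
  have e1 := Real.exp_pos (-ρ * (u + v))
  have e2 : Real.exp (-ρ * (u + v)) = Real.exp (-ρ * u) * Real.exp (-ρ * v) := by
    rw [← Real.exp_add]; congr 1; ring
  have hv4 : |v| ≤ 1 / 4 := by
    have := abs_nonneg (ψ' - ψ)
    linarith
  have hvs : |v| ≤ s := by
    have := abs_nonneg (ψ' - ψ)
    linarith
  have hx : |-ρ * v| ≤ 1 := by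
    rw [abs_mul, abs_neg, abs_of_pos hρ0]
    nlinarith [abs_nonneg v]
  have hx2 : |-ρ * v| ≤ 2 * s := by
    rw [abs_mul, abs_neg, abs_of_pos hρ0]
    nlinarith [abs_nonneg v]
  have e3 := Real.abs_exp_sub_one_le hx
  have e4 : |Real.exp (-ρ * v) - 1| ≤ 4 * s := by linarith
  have e5 : Real.exp (-ρ * v) ≤ 3 :=
    (Real.exp_le_exp.2 (le_of_abs_le hx)).trans knt_exp_one
  have e6 : Real.exp (-ρ * (u + v)) ≤ 3 * Real.exp (-ρ * u) := by
    rw [e2, mul_comm]
    exact mul_le_mul_of_nonneg_right e5 e0.le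
  have e7 : |Real.exp (-ρ * (u + v)) - Real.exp (-ρ * u)| ≤ 4 * s * Real.exp (-ρ * u) := by
    have : Real.exp (-ρ * (u + v)) - Real.exp (-ρ * u) =
        (Real.exp (-ρ * v) - 1) * Real.exp (-ρ * u) := by rw [e2]; ring
    rw [this, abs_mul, abs_of_pos e0]
    exact mul_le_mul_of_nonneg_right e4 e0.le
  have t1 : |(kq p δ (u + v) ψ' - kp p (u + v) ψ') * Real.exp (-ρ * (u + v))| =
      (kq p δ (u + v) ψ' - kp p (u + v) ψ') * Real.exp (-ρ * (u + v)) :=
    abs_of_nonneg (mul_nonneg a2 e1.le)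
  have t2 : |(kq p δ u ψ - kp p u ψ) * Real.exp (-ρ * u)| =
      (kq p δ u ψ - kp p u ψ) * Real.exp (-ρ * u) :=
    abs_of_nonneg (mul_nonneg a1 e0.le)
  have t3 : |(kq p δ (u + v) ψ' - kq p δ u ψ) * Real.exp (-ρ * (u + v))| ≤
      K * 3 * (mp p u * Real.exp (-ρ * u)) + K * (mp p (u + v) * Real.exp (-ρ * (u + v))) := by
    rw [abs_mul, abs_of_pos e1]
    calc |kq p δ (u + v) ψ' - kq p δ u ψ| * Real.exp (-ρ * (u + v))
        ≤ (K * mp p u + K * mp p (u + v)) * Real.exp (-ρ * (u + v)) :=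
          mul_le_mul_of_nonneg_right habs e1.le
      _ = K * mp p u * Real.exp (-ρ * (u + v)) +
          K * (mp p (u + v) * Real.exp (-ρ * (u + v))) := by ring
      _ ≤ K * mp p u * (3 * Real.exp (-ρ * u)) +
          K * (mp p (u + v) * Real.exp (-ρ * (u + v))) := by
          have := mul_le_mul_of_nonneg_left e6 (mul_nonneg hK0 n1)
          linarith
      _ = _ := by ring
  have t4 : |kq p δ u ψ * (Real.exp (-ρ * (u + v)) - Real.exp (-ρ * u))| ≤
      4 * s * Psi p ρ u + 4 * s * ((kq p δ u ψ - kp p u ψ) * Real.exp (-ρ * u)) := by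
    have b1 : |kq p δ u ψ| ≤ |kp p u ψ| + (kq p δ u ψ - kp p u ψ) := by
      have := abs_add_le (kp p u ψ) (kq p δ u ψ - kp p u ψ)
      rw [abs_of_nonneg a1] at this
      have e : kp p u ψ + (kq p δ u ψ - kp p u ψ) = kq p δ u ψ := by ring
      rwa [e] at this
    have b2 := abs_kn_le hp ρ hu ψ
    rw [kn, abs_mul, abs_of_pos e0] at b2
    rw [abs_mul]
    calc |kq p δ u ψ| * |Real.exp (-ρ * (u + v)) - Real.exp (-ρ * u)|
        ≤ (|kp p u ψ| + (kq p δ u ψ - kp p u ψ)) * (4 * s * Real.exp (-ρ * u)) :=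
          mul_le_mul b1 e7 (abs_nonneg _) (by positivity)
      _ = 4 * s * (|kp p u ψ| * Real.exp (-ρ * u)) +
          4 * s * ((kq p δ u ψ - kp p u ψ) * Real.exp (-ρ * u)) := by ring
      _ ≤ _ := by
          have := mul_le_mul_of_nonneg_left b2 (show 0 ≤ 4 * s by positivity)
          linarith
  have hdec : kn p ρ (u + v) ψ' - kn p ρ u ψ =
      -((kq p δ (u + v) ψ' - kp p (u + v) ψ') * Real.exp (-ρ * (u + v))) +
      (kq p δ (u + v) ψ' - kq p δ u ψ) * Real.exp (-ρ * (u + v)) +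
      kq p δ u ψ * (Real.exp (-ρ * (u + v)) - Real.exp (-ρ * u)) +
      (kq p δ u ψ - kp p u ψ) * Real.exp (-ρ * u) := by
    rw [kn, kn]; ring
  rw [hdec]
  refine (abs_add_le _ _).trans ?_
  rw [t2]
  have u1 := abs_add_le (-((kq p δ (u + v) ψ' - kp p (u + v) ψ') * Real.exp (-ρ * (u + v))) +
      (kq p δ (u + v) ψ' - kq p δ u ψ) * Real.exp (-ρ * (u + v)))
      (kq p δ u ψ * (Real.exp (-ρ * (u + v)) - Real.exp (-ρ * u)))
  have u2 := abs_add_le (-((kq p δ (u + v) ψ' - kp p (u + v) ψ') * Real.exp (-ρ * (u + v))))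
      ((kq p δ (u + v) ψ' - kq p δ u ψ) * Real.exp (-ρ * (u + v)))
  rw [abs_neg, t1] at u2
  linarith

theorem kn2_psiw {p : ℕ} (hp : p ≤ 1) {ρ : ℝ} (h1 : (p : ℝ) < ρ) (h2 : ρ < p + 1) :
    Integrable fun u : ℝ => Psi p ρ u * Real.exp (sg p ρ / 2 * |u|) := by
  have hs := sg_pos h1 h2
  refine Integrable.mono' (integrable_psi hp h1 h2) ?_ (Filter.Eventually.of_forall fun u => ?_)
  · have := measurable_Psi p ρ
    exact Measurable.aestronglyMeasurable (by fun_prop)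
  have hP := Psi_nonneg p ρ u
  have hu0 := abs_nonneg u
  rw [Real.norm_of_nonneg (by positivity)]
  have a1 : Real.exp (sg p ρ / 2 * |u|) ≤ Real.exp (sg p ρ * |u|) :=
    Real.exp_le_exp.2 (mul_le_mul_of_nonneg_right (by linarith) hu0)
  have a2 : 1 ≤ (1 + |u|) ^ 2 := by nlinarith
  calc Psi p ρ u * Real.exp (sg p ρ / 2 * |u|) = 1 * Psi p ρ u * Real.exp (sg p ρ / 2 * |u|) := by
        ring
    _ ≤ (1 + |u|) ^ 2 * Psi p ρ u * Real.exp (sg p ρ * |u|) := by gcongr

theorem kn2_mpw {p : ℕ} {ρ : ℝ} (h1 : (p : ℝ) < ρ) (h2 : ρ < p + 1) :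
    Integrable fun u : ℝ => mp p u * Real.exp (-ρ * u) * Real.exp (sg p ρ / 2 * |u|) := by
  have hs := sg_pos h1 h2
  refine Integrable.mono' (knt_int_exp (c := 3 / 2 * sg p ρ) (by positivity)) ?_
    (Filter.Eventually.of_forall fun u => ?_)
  · apply Measurable.aestronglyMeasurable
    unfold mp
    fun_prop
  · rw [Real.norm_of_nonneg (mul_nonneg (mul_nonneg (knt_mp_nonneg p u) (Real.exp_pos _).le)
      (Real.exp_pos _).le)]
    calc mp p u * Real.exp (-ρ * u) * Real.exp (sg p ρ / 2 * |u|)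
        ≤ Real.exp (-(2 * sg p ρ) * |u|) * Real.exp (sg p ρ / 2 * |u|) :=
          mul_le_mul_of_nonneg_right (knt_mp_le u) (Real.exp_pos _).le
      _ = Real.exp (-(3 / 2 * sg p ρ) * |u|) := by
          rw [← Real.exp_add]
          congr 1
          ring

theorem kn_l1w {p : ℕ} (hp : p ≤ 1) {ρ : ℝ} (h1 : (p : ℝ) < ρ) (h2 : ρ < p + 1) :
    ∃ C : ℝ, 0 < C ∧ ∀ v ψ ψ' : ℝ, |v| + |ψ' - ψ| ≤ 1 / 4 →
      Integrable (fun u : ℝ => |kn p ρ (u + v) ψ' - kn p ρ u ψ| *
        Real.exp (sg p ρ / 2 * |u|)) ∧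
      ∫ u : ℝ, |kn p ρ (u + v) ψ' - kn p ρ u ψ| * Real.exp (sg p ρ / 2 * |u|) ≤
        C * √(|v| + |ψ' - ψ|) := by
  have hsg := sg_pos h1 h2
  obtain ⟨C1, hC1, hq⟩ := kq_sub (p := p) ρ
  obtain ⟨C2, hC2, hl⟩ := kd_lip
  set w : ℝ → ℝ := fun u => Real.exp (sg p ρ / 2 * |u|) with hw
  have hw0 : ∀ u, 0 < w u := fun u => Real.exp_pos _
  set E := Real.exp (2 * sg p ρ) with hE
  have hE1 : 1 ≤ E := Real.one_le_exp (by positivity)
  have hE0 : 0 < E := Real.exp_pos _
  set mw : ℝ → ℝ := fun u => mp p u * Real.exp (-ρ * u) * w u with hmw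
  have hMI : Integrable mw := kn2_mpw h1 h2
  set M := ∫ u : ℝ, mw u with hM
  have hmw0 : ∀ u, 0 ≤ mw u := fun u =>
    mul_nonneg (mul_nonneg (knt_mp_nonneg p u) (Real.exp_pos _).le) (hw0 u).le
  have hM0 : 0 ≤ M := integral_nonneg hmw0
  set Pw : ℝ → ℝ := fun u => Psi p ρ u * w u with hPw
  have hPI : Integrable Pw := kn2_psiw hp h1 h2
  set P := ∫ u : ℝ, Pw u with hP
  have hP0 : 0 ≤ P := integral_nonneg fun u => mul_nonneg (Psi_nonneg p ρ u) (hw0 u).le
  refine ⟨E * (2 * C1) + E * (8 * C2 * M) + 2 * P, by positivity, ?_⟩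
  intro v ψ ψ' hs
  set s := |v| + |ψ' - ψ| with hsdef
  have hs0 : 0 ≤ s := by positivity
  have hmeas : Measurable fun u : ℝ => |kn p ρ (u + v) ψ' - kn p ρ u ψ| * w u := by
    have m1 := knt_meas_kn p ρ ψ
    have m2 : Measurable fun u : ℝ => kn p ρ (u + v) ψ' :=
      (knt_meas_kn p ρ ψ').comp (measurable_id.add_const v)
    have m3 : Measurable w := by rw [hw]; fun_prop
    exact ((m2.sub m1).norm).mul m3
  rcases hs0.eq_or_lt with h0 | hspos
  · have hv : v = 0 := by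
      have := abs_nonneg v
      have := abs_nonneg (ψ' - ψ)
      exact abs_eq_zero.1 (by linarith)
    have hψ : ψ' = ψ := by
      have := abs_nonneg v
      have := abs_nonneg (ψ' - ψ)
      have h := abs_eq_zero.1 (show |ψ' - ψ| = 0 by linarith)
      linarith
    have hz : (fun u : ℝ => |kn p ρ (u + v) ψ' - kn p ρ u ψ| * w u) = fun _ => (0 : ℝ) := by
      funext u
      rw [hv, hψ, add_zero, sub_self, abs_zero, zero_mul]
    constructor
    · rw [hz]; exact integrable_zero _ _ _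
    · rw [hz, integral_zero]
      positivity
  have hsq : 0 < √s := Real.sqrt_pos.2 hspos
  have hsq2 : √s * √s = s := Real.mul_self_sqrt hs0
  have hsq3 : √s ≤ 1 / 2 := by
    rw [Real.sqrt_le_left (by norm_num)]
    linarith
  set δ := √s / 2 with hδdef
  have hδ : δ ∈ Ioo (0 : ℝ) (1 / 2) := ⟨by positivity, by linarith⟩
  have hδ' : δ ∈ Ioo (0 : ℝ) 1 := ⟨hδ.1, by linarith [hδ.2]⟩
  have hδ0 := hδ.1
  obtain ⟨q1, q2, q3, q4⟩ := hq δ hδ ψ
  obtain ⟨r1, r2, r3, r4⟩ := hq δ hδ ψ'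
  set A : ℝ → ℝ := fun u => (kq p δ u ψ - kp p u ψ) * Real.exp (-ρ * u) with hA
  set A' : ℝ → ℝ := fun u => (kq p δ u ψ' - kp p u ψ') * Real.exp (-ρ * u) with hA'
  set K := C2 / δ * s with hK
  have hK0 : 0 ≤ K := by positivity
  have hvs : |v| ≤ s := by
    have := abs_nonneg (ψ' - ψ)
    linarith
  have hv4 : |v| ≤ 1 / 4 := by linarith
  have hδ4 : 4 * δ ≤ 1 := by rw [hδdef]; linarith
  -- weights
  have wE : ∀ u : ℝ, |u| ≤ 2 → w u ≤ E := by
    intro u hu
    apply Real.exp_le_exp.2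
    have : sg p ρ / 2 * |u| ≤ sg p ρ / 2 * 2 := mul_le_mul_of_nonneg_left hu (by positivity)
    linarith
  have wv : ∀ u : ℝ, w u ≤ E * w (u + v) := by
    intro u
    rw [hw, hE]
    simp only
    rw [← Real.exp_add]
    apply Real.exp_le_exp.2
    have h3 : |u| ≤ |u + v| + |v| := by
      have := abs_sub (u + v) v
      rw [add_sub_cancel_right] at this
      exact this
    have h4 : sg p ρ / 2 * |u| ≤ sg p ρ / 2 * (|u + v| + 1 / 4) :=
      mul_le_mul_of_nonneg_left (by linarith) (by positivity)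
    linarith
  have hAw : ∀ u, u ≠ 0 → A u * w u ≤ E * A u := by
    intro u hu
    have hA0 : 0 ≤ A u := mul_nonneg (q1 u hu) (Real.exp_pos _).le
    rcases le_or_gt |u| 2 with h | h
    · rw [mul_comm]
      exact mul_le_mul_of_nonneg_right (wE u h) hA0
    · have : A u = 0 := by
        rw [hA]
        simp only
        rw [q2 u (by linarith), sub_self, zero_mul]
      rw [this]
      simp
  have hAw' : ∀ u, u + v ≠ 0 → A' (u + v) * w u ≤ E * A' (u + v) := by
    intro u hu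
    have hA0 : 0 ≤ A' (u + v) := mul_nonneg (r1 (u + v) hu) (Real.exp_pos _).le
    rcases le_or_gt |u| 2 with h | h
    · rw [mul_comm]
      exact mul_le_mul_of_nonneg_right (wE u h) hA0
    · have h3 : |u| ≤ |u + v| + |v| := by
        have := abs_sub (u + v) v
        rw [add_sub_cancel_right] at this
        exact this
      have : A' (u + v) = 0 := by
        rw [hA']
        simp only
        rw [r2 (u + v) (by linarith), sub_self, zero_mul]
      rw [this]
      simp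
  set G : ℝ → ℝ := fun u => E * A' (u + v) + (K * 3 * mw u + K * E * mw (u + v)) +
    (4 * s * Pw u + 4 * s * (E * A u)) + E * A u with hG
  have iA' : Integrable fun u => E * A' (u + v) := (r3.comp_add_right v).const_mul E
  have iA : Integrable fun u => E * A u := q3.const_mul E
  have im' : Integrable fun u => mw (u + v) := hMI.comp_add_right v
  have i1 : Integrable fun u => K * 3 * mw u + K * E * mw (u + v) :=
    (hMI.const_mul (K * 3)).add (im'.const_mul (K * E))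
  have i2 : Integrable fun u => 4 * s * Pw u + 4 * s * (E * A u) :=
    (hPI.const_mul (4 * s)).add (iA.const_mul (4 * s))
  have hGI : Integrable G := ((iA'.add i1).add i2).add iA
  have hGv : ∫ u, G u = E * (∫ u, A' u) + (K * 3 * M + K * E * M) +
      (4 * s * P + 4 * s * (E * ∫ u, A u)) + E * ∫ u, A u := by
    have g1 : ∫ u, G u = (∫ u, (E * A' (u + v) + (K * 3 * mw u + K * E * mw (u + v)) +
        (4 * s * Pw u + 4 * s * (E * A u)))) + ∫ u, E * A u :=
      integral_add (f := fun u => E * A' (u + v) + (K * 3 * mw u + K * E * mw (u + v)) +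
        (4 * s * Pw u + 4 * s * (E * A u))) ((iA'.add i1).add i2) iA
    have g2 : ∫ u, (E * A' (u + v) + (K * 3 * mw u + K * E * mw (u + v)) +
        (4 * s * Pw u + 4 * s * (E * A u))) =
        (∫ u, (E * A' (u + v) + (K * 3 * mw u + K * E * mw (u + v)))) +
        ∫ u, (4 * s * Pw u + 4 * s * (E * A u)) :=
      integral_add (f := fun u => E * A' (u + v) + (K * 3 * mw u + K * E * mw (u + v)))
        (iA'.add i1) i2
    have g3 : ∫ u, (E * A' (u + v) + (K * 3 * mw u + K * E * mw (u + v))) =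
        (∫ u, E * A' (u + v)) + ∫ u, (K * 3 * mw u + K * E * mw (u + v)) := integral_add iA' i1
    have g4 : ∫ u, E * A' (u + v) = E * ∫ u, A' u := by
      rw [integral_const_mul, integral_add_right_eq_self (μ := volume) A' v]
    have g5 : ∫ u, E * A u = E * ∫ u, A u := integral_const_mul _ _
    rw [g1, g2, g3, g4, g5, integral_add (hMI.const_mul (K * 3)) (im'.const_mul (K * E)),
      integral_add (hPI.const_mul (4 * s)) (iA.const_mul (4 * s)),
      integral_const_mul, integral_const_mul, integral_const_mul, integral_const_mul, g5,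
      integral_add_right_eq_self (μ := volume) mw v]
  have hpt : ∀ u : ℝ, u ≠ 0 → u + v ≠ 0 →
      |kn p ρ (u + v) ψ' - kn p ρ u ψ| * w u ≤ G u := by
    intro u hu hu'
    have key := kn2_pt hp h1 h2 hC2 hl hs hsdef hδ' hK q1 r1 u hu hu'
    have key2 := mul_le_mul_of_nonneg_right key (hw0 u).le
    refine key2.trans ?_
    have b1 := hAw u hu
    have b2 := hAw' u hu'
    have b3 : mp p (u + v) * Real.exp (-ρ * (u + v)) * w u ≤ E * mw (u + v) := by
      have := mul_le_mul_of_nonneg_left (wv u)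
        (mul_nonneg (knt_mp_nonneg p (u + v)) (Real.exp_pos (-ρ * (u + v))).le)
      calc _ ≤ _ := this
        _ = _ := by rw [hmw]; ring
    have b4 := mul_le_mul_of_nonneg_left b3 hK0
    have b5 := mul_le_mul_of_nonneg_left b1 (by positivity : 0 ≤ 4 * s)
    rw [hG]
    simp only
    calc (A' (u + v) + (K * 3 * (mp p u * Real.exp (-ρ * u)) +
          K * (mp p (u + v) * Real.exp (-ρ * (u + v)))) +
          (4 * s * Psi p ρ u + 4 * s * A u) + A u) * w u
        = A' (u + v) * w u + (K * 3 * mw u + K * (mp p (u + v) * Real.exp (-ρ * (u + v)) * w u)) +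
          (4 * s * Pw u + 4 * s * (A u * w u)) + A u * w u := by rw [hmw, hPw]; ring
      _ ≤ E * A' (u + v) + (K * 3 * mw u + K * (E * mw (u + v))) +
          (4 * s * Pw u + 4 * s * (E * A u)) + E * A u := by linarith
      _ = _ := by ring
  have hae : ∀ᵐ u : ℝ, u ≠ -v := by
    have : ({-v}ᶜ : Set ℝ) ∈ ae (volume : Measure ℝ) :=
      compl_mem_ae_iff.2 (by simp)
    exact this
  have hint : Integrable (fun u : ℝ => |kn p ρ (u + v) ψ' - kn p ρ u ψ| * w u) := by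
    refine Integrable.mono' hGI hmeas.aestronglyMeasurable ?_
    filter_upwards [knt_ae_ne, hae] with u hu hu'
    rw [Real.norm_of_nonneg (mul_nonneg (abs_nonneg _) (hw0 u).le)]
    exact hpt u hu (fun h => hu' (by linarith))
  refine ⟨hint, ?_⟩
  have hle : ∫ u : ℝ, |kn p ρ (u + v) ψ' - kn p ρ u ψ| * w u ≤ ∫ u, G u := by
    refine integral_mono_ae hint hGI ?_
    filter_upwards [knt_ae_ne, hae] with u hu hu'
    exact hpt u hu (fun h => hu' (by linarith))
  refine hle.trans ?_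
  rw [hGv]
  have k1 : K = 2 * C2 * √s := by
    rw [hK, hδdef, div_mul_eq_mul_div, div_eq_iff (by positivity)]
    linear_combination (-C2) * hsq2
  have k2 : s ≤ √s / 2 := by
    have y1 : √s * √s ≤ √s * (1 / 2) := mul_le_mul_of_nonneg_left hsq3 hsq.le
    rw [hsq2] at y1
    linarith
  have k3 : (∫ u, A' u) ≤ C1 * δ := r4
  have k4 : (∫ u, A u) ≤ C1 * δ := q4
  have k5 : K * 3 * M + K * E * M ≤ E * (8 * C2 * M) * √s := by
    rw [k1]
    have y0 : 0 ≤ C2 * √s * M := by positivity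
    have y1 : C2 * √s * M * 1 ≤ C2 * √s * M * E := mul_le_mul_of_nonneg_left hE1 y0
    calc 2 * C2 * √s * 3 * M + 2 * C2 * √s * E * M
        = 6 * (C2 * √s * M * 1) + 2 * (C2 * √s * M * E) := by ring
      _ ≤ 6 * (C2 * √s * M * E) + 2 * (C2 * √s * M * E) := by linarith
      _ = _ := by ring
  have k6 : 4 * s * P ≤ 2 * P * √s := by
    have y1 : s * P ≤ √s / 2 * P := mul_le_mul_of_nonneg_right k2 hP0
    linarith
  have k8 : C1 * δ = C1 * √s / 2 := by rw [hδdef]; ring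
  rw [k8] at k3 k4
  have k3' := mul_le_mul_of_nonneg_left k3 hE0.le
  have k4' := mul_le_mul_of_nonneg_left k4 hE0.le
  have k7 : 4 * s * (E * ∫ u, A u) ≤ E * (C1 * √s) := by
    have j1 : 4 * s * (E * ∫ u, A u) ≤ 4 * s * (E * (C1 * √s / 2)) :=
      mul_le_mul_of_nonneg_left k4' (by positivity)
    have j2 : 4 * s * (E * (C1 * √s / 2)) ≤ E * (C1 * √s) := by
      have h3 : 0 ≤ E * (C1 * √s) := by positivity
      have h4 : 4 * s * (E * (C1 * √s / 2)) = (2 * s) * (E * (C1 * √s)) := by ring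
      rw [h4]
      exact mul_le_of_le_one_left h3 (by linarith)
    exact j1.trans j2
  calc E * (∫ u, A' u) + (K * 3 * M + K * E * M) + (4 * s * P + 4 * s * (E * ∫ u, A u)) +
        E * ∫ u, A u
      ≤ E * (C1 * √s / 2) + E * (8 * C2 * M) * √s + (2 * P * √s + E * (C1 * √s)) +
        E * (C1 * √s / 2) := by linarith
    _ = (E * (2 * C1) + E * (8 * C2 * M) + 2 * P) * √s := by ring

end HBInf
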