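import Pool.Agent.HBInf.RepZero
import Pool.Agent.HBInf.EvenP
import Pool.Agent.HBInf.CondAData

/-!
# The indicator and the zero data

* `link_zero`: `repZero`. `ub`: `ind < g' < g`; for large `y`, `‖f‖ < exp (g' e^{ρy})` (`eventually_of_ind_lt` with
  `r = e^y`), so if `f ≠ 0` there, `U ≤ g' e^{ρy} + C (1 + y) ≤ g e^{ρy}`; the zeros of `f` are countable. `lb`:
  `M < M' < ind`: for arbitrarily large `y`, `‖f‖ > exp (M' e^{ρy})` (`frequently_of_lt_ind`), by continuity also in a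
  neighbourhood of `y` (positive measure), and there `U ≥ M' e^{ρy} - C (1 + y) > M e^{ρy}`.
* `link_one`: `repOne`. `ub`: if `sin θ < 0` as before (errors `C e^y`, `ρ > 1`); if `sin θ = 0` by (2) for `y ∉ {s_i}`
  (`ZD.ae_ne`); if `sin θ > 0`: `ind ρ f (-θ) = ind ρ f θ < g` (`ind_even`) and `U y θ = U y (-θ)` (`ZD.U_neg`). `lb`: if
  `sin θ < 0` as before; if `sin θ > 0`: `ind_even` and `ZD.U_neg`.
* `condA_link`: let `L` be the right-hand side; if `L < h θ₀` choose `M` real with `L < M < h θ₀`; for `ε > 0`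
  `condA_data` with `g i + ε` gives `M ≤ ∑ m_i(ℝ) (g_i + ε)`; `ε → 0`.
-/

namespace HBInf

open HBInd Complex Filter Topology Set MeasureTheory
open scoped Real ComplexConjugate

/-- `h` is the indicator of the potential of the zero data `D` (for `p = 1` only from above on the real axis) -/
structure Link (p : ℕ) (ρ : ℝ) (h : ℝ → EReal) {ι : Type} (D : ZD p ρ ι) : Prop where
  ub : ∀ θ g : ℝ, h θ < g → D.UB θ g
  lb : ∀ θ M : ℝ, (M : EReal) < h θ → (p = 1 → Real.sin θ ≠ 0) → D.LB θ M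

theorem Link.mirror {p : ℕ} {ρ : ℝ} {h : ℝ → EReal} {ι : Type} {D : ZD p ρ ι}
    (hl : Link p ρ h D) : Link p ρ (fun θ => h (π - θ)) D.mirror := by
  constructor
  · intro θ g hg
    have h1 := hl.ub (π - θ) g hg
    simp only [ZD.UB, ZD.mirror_U]
    exact h1
  · intro θ M hM hp
    have h1 := hl.lb (π - θ) M hM (fun hp1 => by rw [Real.sin_pi_sub]; exact hp hp1)
    simp only [ZD.LB, ZD.mirror_U]
    exact h1

/-- the zeros on a ray are negligible -/
theorem lnk_ae_ne {f : ℂ → ℂ} (hf : Differentiable ℂ f) (h0 : ∃ z, f z ≠ 0) (θ : ℝ) :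
    ∀ᵐ y : ℝ, f (ray (Real.exp y) θ) ≠ 0 := by
  have hc : {u : ℂ | f u = 0}.Countable := by
    have h1 := countable_zeros hf h0
    exact Set.countable_coe_iff.1 h1
  have hinj : Function.Injective fun y : ℝ => ray (Real.exp y) θ := by
    intro y y' hyy
    have h1 : ‖ray (Real.exp y) θ‖ = ‖ray (Real.exp y') θ‖ := by
      simp only at hyy
      rw [hyy]
    rw [norm_ray (Real.exp_pos _).le, norm_ray (Real.exp_pos _).le] at h1
    exact Real.exp_injective h1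
  have h2 := (hc.preimage hinj).ae_notMem (volume : Measure ℝ)
  filter_upwards [h2] with y hy h3
  exact hy h3

/-- upper bounds -/
theorem lnk_ub {ρ θ g : ℝ} {f : ℂ → ℂ} {u Err : ℝ → ℝ} (h : ind ρ f θ < g)
    (hErr : ∀ ε : ℝ, 0 < ε → ∀ᶠ y : ℝ in atTop, Err y ≤ ε * Real.exp (ρ * y))
    (hU : ∀ᵐ y : ℝ, 0 ≤ y → f (ray (Real.exp y) θ) ≠ 0 ∧
      u y ≤ Real.log ‖f (ray (Real.exp y) θ)‖ + Err y) :
    ∃ Y : ℝ, ∀ᵐ y : ℝ, Y ≤ y → u y ≤ g * Real.exp (ρ * y) := by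
  obtain ⟨g', hg1, hg2⟩ := EReal.exists_between_coe_real h
  have hg2' : g' < g := by exact_mod_cast hg2
  have h1 := Real.tendsto_exp_atTop.eventually (eventually_of_ind_lt hg1)
  obtain ⟨Y, hY⟩ := eventually_atTop.1 ((h1.and (hErr (g - g') (by linarith))).and
    (eventually_ge_atTop 0))
  refine ⟨Y, ?_⟩
  filter_upwards [hU] with y hy hYy
  obtain ⟨⟨h2, h3⟩, h4⟩ := hY y hYy
  obtain ⟨h5, h6⟩ := hy h4
  have h7 : Real.log ‖f (ray (Real.exp y) θ)‖ ≤ g' * Real.exp (ρ * y) := by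
    rw [Real.log_le_iff_le_exp (norm_pos_iff.2 h5)]
    rw [← Real.exp_mul, mul_comm y ρ] at h2
    exact h2.le
  nlinarith

/-- lower bounds -/
theorem lnk_lb {ρ θ M : ℝ} {f : ℂ → ℂ} {u Err : ℝ → ℝ} (hf : Continuous f)
    (h : (M : EReal) < ind ρ f θ)
    (hErr : ∀ ε : ℝ, 0 < ε → ∀ᶠ y : ℝ in atTop, Err y < ε * Real.exp (ρ * y))
    (hU : ∀ y : ℝ, 0 ≤ y → f (ray (Real.exp y) θ) ≠ 0 →
      Real.log ‖f (ray (Real.exp y) θ)‖ - Err y ≤ u y) (Y : ℝ) :
    0 < volume {y : ℝ | Y ≤ y ∧ M * Real.exp (ρ * y) < u y} := by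
  obtain ⟨M', hM1, hM2⟩ := EReal.exists_between_coe_real h
  have hM1' : M < M' := by exact_mod_cast hM1
  have h1 := frequently_of_lt_ind hM2
  obtain ⟨Y', hY'⟩ := eventually_atTop.1 ((hErr (M' - M) (by linarith)).and
    (eventually_ge_atTop (max 0 Y)))
  obtain ⟨r, hr1, hr2⟩ := (frequently_atTop.1 h1) (Real.exp (Y' + 1))
  have hr0 : 0 < r := lt_of_lt_of_le (Real.exp_pos _) hr1
  set y₀ : ℝ := Real.log r with hy₀
  have hry : Real.exp y₀ = r := Real.exp_log hr0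
  have hy₀Y : Y' < y₀ := by
    have h2 : Y' + 1 ≤ y₀ := by
      rw [hy₀, Real.le_log_iff_exp_le hr0]
      exact hr1
    linarith
  have hc1 : Continuous fun y : ℝ => ‖f (ray (Real.exp y) θ)‖ := by
    refine (hf.comp ?_).norm
    unfold ray
    fun_prop
  have hc2 : Continuous fun y : ℝ => Real.exp (M' * Real.exp (ρ * y)) := by fun_prop
  have hopen : IsOpen ({y : ℝ | Real.exp (M' * Real.exp (ρ * y)) < ‖f (ray (Real.exp y) θ)‖} ∩
      Ioi Y') := (isOpen_lt hc2 hc1).inter isOpen_Ioi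
  have hne : ({y : ℝ | Real.exp (M' * Real.exp (ρ * y)) < ‖f (ray (Real.exp y) θ)‖} ∩
      Ioi Y').Nonempty := by
    refine ⟨y₀, ?_, hy₀Y⟩
    show Real.exp (M' * Real.exp (ρ * y₀)) < ‖f (ray (Real.exp y₀) θ)‖
    have e : Real.exp (ρ * y₀) = r ^ ρ := by
      rw [← hry, ← Real.exp_mul, mul_comm]
    rw [e, hry]
    exact hr2
  refine lt_of_lt_of_le (hopen.measure_pos volume hne) (measure_mono ?_)
  rintro y ⟨hy1, hy2⟩
  obtain ⟨h3, h4⟩ := hY' y (le_of_lt hy2)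
  have h5 : 0 ≤ y := (le_max_left _ _).trans h4
  have h6 : Y ≤ y := (le_max_right _ _).trans h4
  have hy1' : Real.exp (M' * Real.exp (ρ * y)) < ‖f (ray (Real.exp y) θ)‖ := hy1
  have h7 : 0 < ‖f (ray (Real.exp y) θ)‖ := lt_trans (Real.exp_pos _) hy1'
  have h8 : M' * Real.exp (ρ * y) < Real.log ‖f (ray (Real.exp y) θ)‖ :=
    (Real.lt_log_iff_exp_lt h7).2 hy1'
  have h9 := hU y h5 (norm_pos_iff.1 h7)
  refine ⟨h6, ?_⟩
  nlinarith

theorem lnk_err_lin {ρ : ℝ} (hρ : 0 < ρ) (C : ℝ) (ε : ℝ) (hε : 0 < ε) :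
    ∀ᶠ y : ℝ in atTop, C * (1 + y) < ε * Real.exp (ρ * y) := by
  have h1 : Tendsto (fun y : ℝ => Real.exp (ρ * y) / (ρ * y) ^ 1) atTop atTop :=
    (Real.tendsto_exp_div_pow_atTop 1).comp (tendsto_id.const_mul_atTop hρ)
  have h2 := h1.eventually_gt_atTop ((2 * |C|) / (ρ * ε))
  filter_upwards [h2, eventually_ge_atTop 1] with y hy hy1
  have h3 : 0 < ρ * y := by positivity
  rw [pow_one, lt_div_iff₀ h3] at hy
  have h4 : 2 * |C| / (ρ * ε) * (ρ * y) = 2 * |C| * y / ε := by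
    field_simp
  rw [h4, div_lt_iff₀ hε] at hy
  have h5 : C * (1 + y) ≤ |C| * (1 + y) :=
    mul_le_mul_of_nonneg_right (le_abs_self C) (by linarith)
  have h6 : |C| * (1 + y) ≤ 2 * |C| * y := by nlinarith [abs_nonneg C]
  linarith

theorem lnk_err_exp {ρ : ℝ} (hρ : 1 < ρ) (C : ℝ) (ε : ℝ) (hε : 0 < ε) :
    ∀ᶠ y : ℝ in atTop, C * Real.exp y < ε * Real.exp (ρ * y) := by
  have h1 : Tendsto (fun y : ℝ => Real.exp ((ρ - 1) * y)) atTop atTop :=
    Real.tendsto_exp_atTop.comp (tendsto_id.const_mul_atTop (by linarith))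
  filter_upwards [h1.eventually_gt_atTop (C / ε)] with y hy
  rw [div_lt_iff₀ hε] at hy
  have e : Real.exp (ρ * y) = Real.exp ((ρ - 1) * y) * Real.exp y := by
    rw [← Real.exp_add]; congr 1; ring
  rw [e]
  have h2 := Real.exp_pos y
  nlinarith

theorem lnk_ne {ρ : ℝ} {f : ℂ → ℂ} (hf : InClass ρ f) : ∃ z, f z ≠ 0 :=
  ⟨-I, hf.zero_free _ (by simp)⟩

theorem link_zero {ρ : ℝ} (h1 : 0 < ρ) (h2 : ρ < 1) {f : ℂ → ℂ} (hf : InClass ρ f) :
    ∃ (ι : Type) (D : ZD 0 ρ ι), Link 0 ρ (ind ρ f) D := by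
  obtain ⟨ι, D, C, hC⟩ := repZero h1 h2 hf
  refine ⟨ι, D, ?_, ?_⟩
  · intro θ g hg
    refine lnk_ub (Err := fun y => C * (1 + y)) hg
      (fun ε hε => (lnk_err_lin h1 C ε hε).mono fun y hy => hy.le) ?_
    filter_upwards [lnk_ae_ne hf.entire (lnk_ne hf) θ] with y hy hy0
    refine ⟨hy, ?_⟩
    have h3 := (abs_le.1 (hC y θ hy0 hy)).1
    linarith
  · intro θ M hM _ Y
    refine lnk_lb (Err := fun y => C * (1 + y)) hf.entire.continuous hM
      (lnk_err_lin h1 C) ?_ Y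
    intro y hy0 hy
    have h3 := (abs_le.1 (hC y θ hy0 hy)).2
    show Real.log ‖f (ray (Real.exp y) θ)‖ - C * (1 + y) ≤ D.U y θ
    linarith

theorem link_one {ρ : ℝ} (h1 : 1 < ρ) (h2 : ρ < 2) {f : ℂ → ℂ} (hf : InClass ρ f) :
    ∃ (ι : Type) (D : ZD 1 ρ ι), Link 1 ρ (ind ρ f) D := by
  obtain ⟨ι, D, hA, hB, -⟩ := repOne h1 h2 hf
  have hub : ∀ θ g : ℝ, Real.sin θ < 0 → ind ρ f θ < g → D.UB θ g := by
    intro θ g hθ hg
    obtain ⟨C, hC⟩ := hA θ hθ
    refine lnk_ub (Err := fun y => C * Real.exp y) hg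
      (fun ε hε => (lnk_err_exp h1 C ε hε).mono fun y hy => hy.le) ?_
    filter_upwards [lnk_ae_ne hf.entire (lnk_ne hf) θ] with y hy hy0
    refine ⟨hy, ?_⟩
    have h3 := (abs_le.1 (hC y hy0)).1
    linarith
  have hlb : ∀ θ M : ℝ, Real.sin θ < 0 → (M : EReal) < ind ρ f θ → D.LB θ M := by
    intro θ M hθ hM Y
    obtain ⟨C, hC⟩ := hA θ hθ
    refine lnk_lb (Err := fun y => C * Real.exp y) hf.entire.continuous hM
      (lnk_err_exp h1 C) ?_ Y
    intro y hy0 _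
    have h3 := (abs_le.1 (hC y hy0)).2
    show Real.log ‖f (ray (Real.exp y) θ)‖ - C * Real.exp y ≤ D.U y θ
    linarith
  refine ⟨ι, D, ?_, ?_⟩
  · intro θ g hg
    rcases lt_trichotomy (Real.sin θ) 0 with hs | hs | hs
    · exact hub θ g hs hg
    · obtain ⟨C, hC⟩ := hB
      refine lnk_ub (Err := fun y => C * Real.exp y) hg
        (fun ε hε => (lnk_err_exp h1 C ε hε).mono fun y hy => hy.le) ?_
      filter_upwards [D.ae_ne] with y hy hy0
      exact hC y θ hs hy0 hy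
    · have hs' : Real.sin (-θ) < 0 := by rw [Real.sin_neg]; linarith
      have h3 := hub (-θ) g hs' (by rw [ind_even h1 h2 hf]; exact hg)
      simp only [ZD.UB, ZD.U_neg] at h3
      exact h3
  · intro θ M hM hp
    rcases lt_trichotomy (Real.sin θ) 0 with hs | hs | hs
    · exact hlb θ M hs hM
    · exact absurd hs (hp rfl)
    · have hs' : Real.sin (-θ) < 0 := by rw [Real.sin_neg]; linarith
      have h3 := hlb (-θ) M hs' (by rw [ind_even h1 h2 hf]; exact hM)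
      simp only [ZD.LB, ZD.U_neg] at h3
      exact h3

theorem condA_link {p : ℕ} (hp : p ≤ 1) {ρ : ℝ} (h1 : (p : ℝ) < ρ) (h2 : ρ < p + 1)
    (hρ : 1 / 2 < ρ) {h : ℝ → EReal} {ι : Type} {D : ZD p ρ ι} (hl : Link p ρ h D) :
    CondA p ρ h := by
  intro n θ m g θ₀ hm hg hs hd
  by_contra hcon
  rw [not_le] at hcon
  obtain ⟨M, hM1, hM2⟩ := EReal.exists_between_coe_real hcon
  have hM1' : ∑ i, (m i).real univ * g i < M := by exact_mod_cast hM1
  have hL := hl.lb θ₀ M hM2 hs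
  set S : ℝ := ∑ i, (m i).real univ with hS
  have hS0 : 0 ≤ S := Finset.sum_nonneg fun i _ => measureReal_nonneg
  set ε : ℝ := (M - ∑ i, (m i).real univ * g i) / (2 * (S + 1)) with hε
  have hε0 : 0 < ε := div_pos (by linarith) (by linarith)
  have h3 := condA_data hp h1 h2 hρ D hm (g := fun i => g i + ε) (fun i => hl.ub (θ i) (g i + ε)
    (lt_of_le_of_lt (hg i) (by exact_mod_cast (by linarith : g i < g i + ε)))) hL hd
  have e : ∑ i, (m i).real univ * (g i + ε) = (∑ i, (m i).real univ * g i) + S * ε := by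
    rw [hS, Finset.sum_mul, ← Finset.sum_add_distrib]
    exact Finset.sum_congr rfl fun i _ => by ring
  rw [e] at h3
  have h4 : ε * (2 * (S + 1)) = M - ∑ i, (m i).real univ * g i := by
    rw [hε]
    field_simp
  nlinarith

end HBInf
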