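import Pool.Agent.HBInf.TrigE

/-!
# A critical sector

Let `b = a + π/ρ`, `A + B < 0` and suppose that `ind θ₀ ≠ ⊤` for some `θ₀ ∈ (a, b)`.
(1) `ind = ⊥` on `(a, b)`: let `C ≥ ind θ₀` be real. For `t' ∈ (θ₀, b)` (`condT_ind`):
`ind t' ≤ s t' := (C sin ρ(b - t') + B sin ρ(t' - θ₀)) / sin ρ(b - θ₀) → B` as `t' → b`. For `t ∈ (a, t')`,
`ind t ≤ (A sin ρ(t' - t) + s t' sin ρ(t - a)) / sin ρ(t' - a)`; as `t' → b-` the denominator tends to `0+`, the
numerator to `(A + B) sin ρ(t - a) < 0`.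
(2) Let `A' > A`, `B' > B` with `A' + B' < 0`, and for `Re w ≥ 0`:
`F w = f (w^{1/ρ} e^{i (a + π/(2ρ))}) exp (-i A' w)` (`w ^ (1/ρ : ℂ)`, principal branch; continuous on the closed
half-plane, `F 0 = f 0`; for `w = |w| e^{iφ}` the argument is `ray (|w|^{1/ρ}) (a + π/(2ρ) + φ/ρ)`).
`|exp (-i A' w)| = exp (A' Im w)`. On the imaginary axis: `w = -i s`, `s > 0`: the ray `a`, `|F| ≤ e^{A' s} e^{-A' s}` for
large `s`; `w = i s`: the ray `b`, `|F| ≤ e^{B' s + A' s}` for large `s`. So `F` is bounded there. In the half-plane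
`|F w| ≤ exp (|w|^{σ/ρ} + |A'| |w|)` for large `|w|`, `ρ < σ < 2ρ` (`HasOrder.eventually`). On the positive axis
(the ray `a + π/(2ρ)`, where `ind = ⊥`): `|F x| ≤ e^{-n x}` for large `x`, for every `n`
(`eventually_of_ind_lt`). By `PhragmenLindelof.eq_zero_on_right_half_plane_of_superexponential_decay`
`F = 0`, so `f` vanishes on a sector, hence everywhere (identity theorem), contradicting `zero_free`.
-/

namespace HBInf

open HBInd Complex Filter Topology Set
open scoped Real ComplexConjugate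

theorem plc_bot {ρ : ℝ} (hρ : 0 < ρ) {h : ℝ → EReal} (hT : CondT ρ h) {a A B : ℝ}
    (hA : h a ≤ A) (hB : h (a + π / ρ) ≤ B) (hAB : A + B < 0) {θ₀ : ℝ}
    (hθ : θ₀ ∈ Ioo a (a + π / ρ)) (h0 : h θ₀ ≠ ⊤) {t : ℝ} (ht : t ∈ Ioo a (a + π / ρ)) :
    h t = ⊥ := by
  obtain ⟨C, hC, -⟩ := EReal.lt_iff_exists_real_btwn.1 (lt_top_iff_ne_top.2 h0)
  set b : ℝ := a + π / ρ with hb
  have hba : ρ * (b - a) = π := by rw [hb]; field_simp; ring
  have hsb : 0 < Real.sin (ρ * (b - θ₀)) := by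
    apply Real.sin_pos_of_pos_of_lt_pi (mul_pos hρ (sub_pos.2 hθ.2))
    have := mul_lt_mul_of_pos_left (show b - θ₀ < b - a by linarith [hθ.1]) hρ
    linarith
  have hst : 0 < Real.sin (ρ * (t - a)) := by
    apply Real.sin_pos_of_pos_of_lt_pi (mul_pos hρ (sub_pos.2 ht.1))
    have := mul_lt_mul_of_pos_left (show t - a < b - a by linarith [ht.2]) hρ
    linarith
  rw [EReal.eq_bot_iff_forall_lt]
  intro M
  -- the function which is negative at `b`
  set s : ℝ → ℝ := fun t' => (C * Real.sin (ρ * (b - t')) + B * Real.sin (ρ * (t' - θ₀))) /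
    Real.sin (ρ * (b - θ₀)) with hs
  set φ : ℝ → ℝ := fun t' => A * Real.sin (ρ * (t' - t)) + s t' * Real.sin (ρ * (t - a)) -
    (M - 1) * Real.sin (ρ * (t' - a)) with hφ
  have hsc : Continuous s := by
    rw [hs]
    apply Continuous.div_const
    fun_prop
  have hφc : Continuous φ := by
    rw [hφ]
    fun_prop
  have hsB : s b = B := by
    rw [hs]
    simp only [sub_self, mul_zero, Real.sin_zero, zero_add]
    field_simp
  have hφb : φ b < 0 := by
    rw [hφ]
    simp only [hsB, hba, Real.sin_pi, mul_zero, sub_zero]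
    have e1 : Real.sin (ρ * (b - t)) = Real.sin (ρ * (t - a)) := by
      rw [← Real.sin_pi_sub]
      congr 1
      rw [← hba]
      ring
    rw [e1, ← add_mul]
    exact mul_neg_of_neg_of_pos hAB hst
  have hev : ∀ᶠ t' in 𝓝[<] b, φ t' < 0 :=
    (hφc.continuousAt.eventually_lt_const hφb).filter_mono nhdsWithin_le_nhds
  have hIoo : Ioo (max θ₀ t) b ∈ 𝓝[<] b := Ioo_mem_nhdsLT (max_lt hθ.2 ht.2)
  obtain ⟨t', ht'1, ht'2⟩ := (hev.and hIoo).exists
  have htθ : θ₀ < t' := lt_of_le_of_lt (le_max_left _ _) ht'2.1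
  have htt : t < t' := lt_of_le_of_lt (le_max_right _ _) ht'2.1
  have hl1 : b - θ₀ < π / ρ := by
    have : b - a = π / ρ := by rw [hb]; ring
    linarith [hθ.1]
  have hl2 : t' - a < π / ρ := by
    have : b - a = π / ρ := by rw [hb]; ring
    linarith [ht'2.2]
  have b1 := hT θ₀ t' b C B htθ ht'2.2 hl1 hC.le hB
  have b2 := hT a t t' A (s t') ht.1 htt hl2 hA b1
  have hD : 0 < Real.sin (ρ * (t' - a)) := by
    apply Real.sin_pos_of_pos_of_lt_pi (mul_pos hρ (by linarith [ht.1]))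
    have := mul_lt_mul_of_pos_left (show t' - a < b - a by linarith [ht'2.2]) hρ
    linarith
  refine lt_of_le_of_lt b2 ?_
  rw [EReal.coe_lt_coe_iff, div_lt_iff₀ hD]
  have : φ t' < 0 := ht'1
  rw [hφ] at this
  simp only at this
  nlinarith

/-- the map from the half-plane to the sector -/
noncomputable def plcg (ρ c : ℝ) (w : ℂ) : ℂ := w ^ (((1 / ρ : ℝ)) : ℂ) * Complex.exp ((c : ℂ) * I)

theorem plcg_eq {ρ : ℝ} (c : ℝ) {w : ℂ} (hw : w ≠ 0) :
    plcg ρ c w = ray (‖w‖ ^ (1 / ρ)) (c + w.arg / ρ) := by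
  have hn : 0 < ‖w‖ := norm_pos_iff.2 hw
  rw [plcg, ray, Complex.cpow_def_of_ne_zero hw, Complex.log, Real.rpow_def_of_pos hn,
    Complex.ofReal_exp, ← Complex.exp_add, ← Complex.exp_add]
  congr 1
  push_cast
  ring

theorem plcg_norm {ρ : ℝ} (c : ℝ) {w : ℂ} (hw : w ≠ 0) :
    ‖plcg ρ c w‖ = ‖w‖ ^ (1 / ρ) := by
  rw [plcg_eq c hw, norm_ray (Real.rpow_nonneg (norm_nonneg _) _)]

theorem plcg_diff (ρ c : ℝ) : DifferentiableOn ℂ (plcg ρ c) {w : ℂ | 0 < w.re} := by
  intro w hw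
  have h1 : w ∈ slitPlane := Or.inl hw
  unfold plcg
  exact ((differentiableAt_id.cpow_const h1).mul_const _).differentiableWithinAt

theorem plcg_cont {ρ : ℝ} (hρ : 0 < ρ) (c : ℝ) : ContinuousOn (plcg ρ c) {w : ℂ | 0 ≤ w.re} := by
  intro w hw
  unfold plcg
  refine ContinuousAt.continuousWithinAt (ContinuousAt.mul ?_ continuousAt_const)
  have h := Complex.continuousAt_cpow_of_re_pos (p := (w, (((1 / ρ : ℝ)) : ℂ))) (Or.inl hw)
    (by simpa using hρ)
  exact h.comp (f := fun w : ℂ => (w, (((1 / ρ : ℝ)) : ℂ))) (by fun_prop)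

theorem plCrit {ρ : ℝ} (hρ : 0 < ρ) {f : ℂ → ℂ} (hf : InClass ρ f) {a A B : ℝ}
    (hA : ind ρ f a ≤ A) (hB : ind ρ f (a + π / ρ) ≤ B) (hAB : A + B < 0) :
    ∀ θ ∈ Ioo a (a + π / ρ), ind ρ f θ = ⊤ := by
  intro θ₀ hθ
  by_contra h0
  set c : ℝ := a + π / (2 * ρ) with hc
  have hcI : c ∈ Ioo a (a + π / ρ) := by
    have h1 : 0 < π / (2 * ρ) := by positivity
    have h2 : π / ρ = π / (2 * ρ) + π / (2 * ρ) := by field_simp; ring
    constructor
    · rw [hc]; linarith
    · rw [hc, h2]; linarith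
  have hbot : ind ρ f c = ⊥ := plc_bot hρ (condT_ind hρ hf) hA hB hAB hθ h0 hcI
  obtain ⟨A', hAA', B', hBB', hAB'⟩ : ∃ A', A < A' ∧ ∃ B', B < B' ∧ A' + B' < 0 :=
    ⟨A - (A + B) / 4, by linarith, B - (A + B) / 4, by linarith, by linarith⟩
  have hA' := eventually_of_ind_lt (lt_of_le_of_lt hA (EReal.coe_lt_coe_iff.2 hAA'))
  have hB' := eventually_of_ind_lt (lt_of_le_of_lt hB (EReal.coe_lt_coe_iff.2 hBB'))
  set F : ℂ → ℂ := fun w => f (plcg ρ c w) * Complex.exp (-(((A' : ℝ) : ℂ) * I * w)) with hF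
  have hFn : ∀ w, ‖F w‖ = ‖f (plcg ρ c w)‖ * Real.exp (A' * w.im) := by
    intro w
    rw [hF]
    simp only [norm_mul, Complex.norm_exp]
    congr 2
    simp
  have hclos : closure {w : ℂ | 0 < w.re} = {w : ℂ | 0 ≤ w.re} := by
    simp
  have hFc : ContinuousOn F {w : ℂ | 0 ≤ w.re} := by
    rw [hF]
    exact (hf.entire.continuous.comp_continuousOn (plcg_cont hρ c)).mul
      (by fun_prop)
  have hFd : DiffContOnCl ℂ F {w : ℂ | 0 < w.re} := by
    refine ⟨?_, by rw [hclos]; exact hFc⟩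
    rw [hF]
    refine DifferentiableOn.mul (hf.entire.comp_differentiableOn (plcg_diff ρ c)) ?_
    fun_prop
  have hrr : ∀ x : ℝ, 0 ≤ x → (x ^ (1 / ρ)) ^ ρ = x := by
    intro x hx
    rw [← Real.rpow_mul hx, one_div, inv_mul_cancel₀ hρ.ne', Real.rpow_one]
  have hinf : Tendsto (fun x : ℝ => x ^ (1 / ρ)) atTop atTop :=
    tendsto_rpow_atTop (by positivity)
  -- growth
  have hexp : ∃ c < (2 : ℝ), ∃ B, F =O[Bornology.cobounded ℂ ⊓ 𝓟 {z | 0 < z.re}]
      fun z => Real.exp (B * ‖z‖ ^ c) := by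
    refine ⟨3 / 2, by norm_num, 1 + |A'|, ?_⟩
    have hord := hf.order.eventually (show ρ < 3 / 2 * ρ by linarith)
    have htend : Tendsto (plcg ρ c) (Bornology.cobounded ℂ) (Bornology.cobounded ℂ) := by
      rw [← tendsto_norm_atTop_iff_cobounded]
      refine (hinf.comp tendsto_norm_cobounded_atTop).congr' ?_
      filter_upwards [(tendsto_norm_cobounded_atTop (E := ℂ)).eventually_gt_atTop 0] with w hw
      rw [plcg_norm c (norm_pos_iff.1 hw)]
      rfl
    have h1 := htend.eventually hord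
    refine Asymptotics.IsBigO.of_bound 1 (Filter.Eventually.filter_mono inf_le_left ?_)
    filter_upwards [h1, (tendsto_norm_cobounded_atTop (E := ℂ)).eventually_ge_atTop 1] with w hw hw1
    have hw0 : w ≠ 0 := by
      rw [← norm_pos_iff]; linarith
    rw [hFn, Real.norm_eq_abs, abs_of_pos (Real.exp_pos _), one_mul]
    rw [plcg_norm c hw0, ← Real.rpow_mul (norm_nonneg _)] at hw
    have e1 : 1 / ρ * (3 / 2 * ρ) = 3 / 2 := by field_simp
    rw [e1] at hw
    have e2 : A' * w.im ≤ |A'| * ‖w‖ ^ (3 / 2 : ℝ) := by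
      calc A' * w.im ≤ |A' * w.im| := le_abs_self _
        _ = |A'| * |w.im| := abs_mul _ _
        _ ≤ |A'| * ‖w‖ := mul_le_mul_of_nonneg_left (Complex.abs_im_le_norm w) (abs_nonneg _)
        _ ≤ |A'| * ‖w‖ ^ (3 / 2 : ℝ) := by
            refine mul_le_mul_of_nonneg_left ?_ (abs_nonneg _)
            conv_lhs => rw [← Real.rpow_one ‖w‖]
            exact Real.rpow_le_rpow_of_exponent_le hw1 (by norm_num)
    calc ‖f (plcg ρ c w)‖ * Real.exp (A' * w.im) ≤
        Real.exp (‖w‖ ^ (3 / 2 : ℝ)) * Real.exp (|A'| * ‖w‖ ^ (3 / 2 : ℝ)) :=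
          mul_le_mul hw (Real.exp_le_exp.2 e2) (Real.exp_pos _).le (Real.exp_pos _).le
      _ = _ := by rw [← Real.exp_add]; ring_nf
  -- decay
  have hre : Asymptotics.SuperpolynomialDecay atTop Real.exp fun x : ℝ => ‖F x‖ := by
    intro n
    have h1 : ind ρ f c < ((-(n + 1 : ℝ) : ℝ) : EReal) := by
      rw [hbot]; exact EReal.bot_lt_coe _
    have h2 := hinf.eventually (eventually_of_ind_lt h1)
    have h3 : ∀ᶠ x : ℝ in atTop, ‖Real.exp x ^ n * ‖F x‖‖ ≤ Real.exp (-x) := by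
      filter_upwards [h2, eventually_gt_atTop 0] with x hx hx0
      have hx0' : (x : ℂ) ≠ 0 := by exact_mod_cast hx0.ne'
      rw [hFn, plcg_eq c hx0', Complex.norm_real, Real.norm_of_nonneg hx0.le,
        Complex.arg_ofReal_of_nonneg hx0.le, zero_div, add_zero, Complex.ofReal_im, mul_zero,
        Real.exp_zero, mul_one]
      rw [hrr x hx0.le] at hx
      rw [Real.norm_of_nonneg (by positivity), ← Real.exp_nat_mul]
      calc Real.exp (n * x) * ‖f (ray (x ^ (1 / ρ)) c)‖ ≤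
          Real.exp (n * x) * Real.exp (-(n + 1) * x) :=
            mul_le_mul_of_nonneg_left hx.le (Real.exp_pos _).le
        _ = Real.exp (-x) := by rw [← Real.exp_add]; ring_nf
    exact squeeze_zero_norm' h3 (Real.tendsto_exp_neg_atTop_nhds_zero)
  -- imaginary axis
  have him : ∃ C, ∀ x : ℝ, ‖F (x * I)‖ ≤ C := by
    have hmap : ∀ x : ℝ, ((x : ℂ) * I) ∈ {w : ℂ | 0 ≤ w.re} := by intro x; simp
    have hcont : Continuous fun x : ℝ => F (x * I) := by
      rw [← continuousOn_univ]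
      exact hFc.comp (by fun_prop) (fun x _ => hmap x)
    have hpos : ∀ᶠ x : ℝ in atTop, ‖F (x * I)‖ ≤ 1 := by
      filter_upwards [hinf.eventually hB', eventually_gt_atTop 0] with x hx hx0
      have hx0' : (x : ℂ) * I ≠ 0 := by
        simp [hx0.ne']
      have harg : ((x : ℂ) * I).arg = π / 2 := by
        rw [Complex.arg_real_mul _ hx0, Complex.arg_I]
      have hnorm : ‖(x : ℂ) * I‖ = x := by simp [abs_of_pos hx0]
      have him' : ((x : ℂ) * I).im = x := by simp
      rw [hFn, plcg_eq c hx0', harg, hnorm, him']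
      have e1 : c + π / 2 / ρ = a + π / ρ := by rw [hc]; field_simp; ring
      rw [e1]
      rw [hrr x hx0.le] at hx
      calc ‖f (ray (x ^ (1 / ρ)) (a + π / ρ))‖ * Real.exp (A' * x) ≤
          Real.exp (B' * x) * Real.exp (A' * x) :=
            mul_le_mul_of_nonneg_right hx.le (Real.exp_pos _).le
        _ = Real.exp ((A' + B') * x) := by rw [← Real.exp_add]; ring_nf
        _ ≤ 1 := by
            rw [Real.exp_le_one_iff]
            exact mul_nonpos_of_nonpos_of_nonneg hAB'.le hx0.le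
    have hneg : ∀ᶠ x : ℝ in atTop, ‖F ((-x : ℝ) * I)‖ ≤ 1 := by
      filter_upwards [hinf.eventually hA', eventually_gt_atTop 0] with x hx hx0
      have hx0' : ((-x : ℝ) : ℂ) * I ≠ 0 := by
        simp [hx0.ne']
      have e0 : ((-x : ℝ) : ℂ) * I = (x : ℂ) * (-I) := by push_cast; ring
      have harg : (((-x : ℝ) : ℂ) * I).arg = -(π / 2) := by
        rw [e0, Complex.arg_real_mul _ hx0, Complex.arg_neg_I]
      have hnorm : ‖((-x : ℝ) : ℂ) * I‖ = x := by simp [abs_of_pos hx0]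
      have him' : (((-x : ℝ) : ℂ) * I).im = -x := by simp
      rw [hFn, plcg_eq c hx0', harg, hnorm, him']
      have e1 : c + -(π / 2) / ρ = a := by rw [hc]; field_simp; ring
      rw [e1]
      rw [hrr x hx0.le] at hx
      calc ‖f (ray (x ^ (1 / ρ)) a)‖ * Real.exp (A' * -x) ≤
          Real.exp (A' * x) * Real.exp (A' * -x) :=
            mul_le_mul_of_nonneg_right hx.le (Real.exp_pos _).le
        _ = 1 := by rw [← Real.exp_add, ← Real.exp_zero]; ring_nf
    obtain ⟨X, hX⟩ := eventually_atTop.1 (hpos.and hneg)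
    obtain ⟨K, hK⟩ := (isCompact_Icc (a := -|X|) (b := |X|)).exists_bound_of_continuousOn
      hcont.continuousOn
    refine ⟨max K 1, fun x => ?_⟩
    by_cases hx : x ∈ Icc (-|X|) |X|
    · exact (hK x hx).trans (le_max_left _ _)
    · rw [mem_Icc, not_and_or, not_le, not_le] at hx
      rcases hx with hx | hx
      · have h1 : X ≤ -x := by linarith [le_abs_self X]
        have h2 := (hX (-x) h1).2
        rw [neg_neg] at h2
        exact h2.trans (le_max_right _ _)
      · have h1 : X ≤ x := by linarith [le_abs_self X]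
        exact ((hX x h1).1).trans (le_max_right _ _)
  have hzero := PhragmenLindelof.eq_zero_on_right_half_plane_of_superexponential_decay hFd hexp hre
    him
  -- `f` vanishes on the ray `c`
  have hfz : ∀ r : ℝ, 0 < r → f (ray r c) = 0 := by
    intro r hr
    have hx0 : 0 < r ^ ρ := Real.rpow_pos_of_pos hr _
    have h1 : F ((r ^ ρ : ℝ) : ℂ) = 0 := hzero (by
      show 0 ≤ (((r ^ ρ : ℝ)) : ℂ).re
      rw [Complex.ofReal_re]; exact hx0.le)
    have hx0' : ((r ^ ρ : ℝ) : ℂ) ≠ 0 := by exact_mod_cast hx0.ne'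
    rw [hF] at h1
    simp only at h1
    rw [mul_eq_zero, or_iff_left (Complex.exp_ne_zero _), plcg_eq c hx0', Complex.norm_real,
      Real.norm_of_nonneg hx0.le, Complex.arg_ofReal_of_nonneg hx0.le, zero_div, add_zero,
      ← Real.rpow_mul hr.le, mul_one_div, div_self hρ.ne', Real.rpow_one] at h1
    exact h1
  have han : AnalyticOnNhd ℂ f univ := fun z _ => hf.entire.analyticAt z
  have hfreq : ∃ᶠ z in 𝓝[≠] (ray 1 c), f z = 0 := by
    have ht : Tendsto (fun r : ℝ => ray r c) (𝓝[>] 1) (𝓝[≠] (ray 1 c)) := by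
      apply tendsto_nhdsWithin_of_tendsto_nhds_of_eventually_within
      · have hcr : Continuous fun r : ℝ => ray r c := by unfold ray; fun_prop
        exact (hcr.tendsto 1).mono_left nhdsWithin_le_nhds
      · filter_upwards [self_mem_nhdsWithin] with r hr
        intro heq
        have h1 : ‖ray r c‖ = ‖ray 1 c‖ := by rw [heq]
        have hr' : (1 : ℝ) < r := hr
        rw [norm_ray (by linarith), norm_ray (by norm_num)] at h1
        linarith
    refine ht.frequently ?_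
    apply Filter.Eventually.frequently
    filter_upwards [self_mem_nhdsWithin] with r hr
    have hr' : (1 : ℝ) < r := hr
    exact hfz r (by linarith)
  have hall := han.eqOn_zero_of_preconnected_of_frequently_eq_zero isPreconnected_univ
    (mem_univ _) hfreq
  exact hf.zero_free (-I) (by simp) (hall (mem_univ _))

end HBInf
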