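import Pool.Agent.HBInf.ExcNecZero
import Pool.Agent.HBInf.ExcNecOne
import Pool.Agent.HBInf.PLCrit

/-!
# Necessity, `1/2 < ρ < 2`, `ρ ≠ 1`
-/

namespace HBInf

open HBInd Complex Filter Topology Set MeasureTheory
open scoped Real ComplexConjugate

theorem nec_zero {ρ : ℝ} (h1 : 1 / 2 < ρ) (h2 : ρ < 1) {f : ℂ → ℂ} (hf : InClass ρ f) :
    CondT ρ (ind ρ f) ∧ ((CondA 0 ρ (ind ρ f) ∧ CondC ρ (ind ρ f)) ∨ ExcZero ρ (ind ρ f)) := by
  obtain ⟨ι, D, hl⟩ := link_zero (by linarith) h2 hf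
  refine ⟨condT_ind (by linarith) hf, ?_⟩
  by_cases hC : CondC ρ (ind ρ f)
  · exact Or.inl ⟨condA_link (p := 0) (by norm_num) (by push_cast; linarith)
      (by push_cast; linarith) h1 hl, hC⟩
  · exact Or.inr (excNecZero h1 h2 (ind_add_two_pi ρ f) (condT_ind (by linarith) hf)
      (fun θ hθ => hf.ind_le hθ) hl hC)

theorem nec_one {ρ : ℝ} (h1 : 1 < ρ) (h2 : ρ < 2) {f : ℂ → ℂ} (hf : InClass ρ f) :
    CondT ρ (ind ρ f) ∧ ((CondA 1 ρ (ind ρ f) ∧ CondC ρ (ind ρ f)) ∨ ExcOne ρ (ind ρ f)) := by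
  obtain ⟨ι, D, hl⟩ := link_one h1 h2 hf
  have hA : CondA 1 ρ (ind ρ f) := condA_link (p := 1) le_rfl (by push_cast; linarith)
    (by push_cast; linarith) (by linarith) hl
  refine ⟨condT_ind (by linarith) hf, ?_⟩
  by_cases hC : CondC ρ (ind ρ f)
  · exact Or.inl ⟨hA, hC⟩
  · exact Or.inr (excNecOne h1 h2 (ind_add_two_pi ρ f) (condT_ind (by linarith) hf)
      (ind_even h1 h2 hf) hA (fun a A B hA hB hAB => plCrit (by linarith) hf hA hB hAB) hl hC)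

end HBInf
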