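import Pool.Agent.HBInf.KnTools

/-!
# Potentials of densities on the extended line

For `c ∈ C([-∞, ∞])` and `t ∈ [-∞, ∞]`: `potE p ρ ψ c t = ∫ kn p ρ u ψ * c (t - u) du`, where `t - u = ±∞` if `t = ±∞`.
* `potE_continuous`: `t ↦ c (t - u)` is continuous on `EReal` for every real `u`, `|kn| ≤ Psi` a.e.,
  `|c| ≤ ‖c‖`, dominated convergence (`integrable_psi`; `EReal` is first countable).
* `potE_angle`: `kn_l1` with `v = 0`.
-/

namespace HBInf

open HBInd Complex Filter Topology Set MeasureTheory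
open scoped Real ComplexConjugate

/-- the (normalised) potential at `e^{t + iψ}` of the density `c` of zeros on the ray with argument `0` -/
noncomputable def potE (p : ℕ) (ρ ψ : ℝ) (c : C(EReal, ℝ)) (t : EReal) : ℝ :=
  ∫ u : ℝ, kn p ρ u ψ * c (t - (u : EReal))

variable {p : ℕ} {ρ : ℝ}

theorem pote_sub_cont : Continuous fun x : EReal × ℝ => x.1 - (x.2 : EReal) := by
  rw [continuous_iff_continuousAt]
  rintro ⟨t, u⟩
  have h1 : ContinuousAt (fun p : EReal × EReal => p.1 + p.2) (t, ((-u : ℝ) : EReal)) :=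
    EReal.continuousAt_add (Or.inr (EReal.coe_ne_bot _)) (Or.inr (EReal.coe_ne_top _))
  have h2 : Continuous fun x : EReal × ℝ => (x.1, ((-x.2 : ℝ) : EReal)) :=
    continuous_fst.prodMk (continuous_coe_real_ereal.comp continuous_snd.neg)
  have h3 := ContinuousAt.comp (f := fun x : EReal × ℝ => (x.1, ((-x.2 : ℝ) : EReal)))
    (x := (t, u)) h1 h2.continuousAt
  refine h3.congr (Eventually.of_forall fun x => ?_)
  simp only [Function.comp]
  rw [EReal.coe_neg, ← sub_eq_add_neg]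

theorem pote_cont_u (c : C(EReal, ℝ)) (t : EReal) :
    Continuous fun u : ℝ => c (t - (u : EReal)) :=
  c.continuous.comp (pote_sub_cont.comp (continuous_const.prodMk continuous_id))

theorem pote_cont_t (c : C(EReal, ℝ)) (u : ℝ) :
    Continuous fun t : EReal => c (t - (u : EReal)) :=
  c.continuous.comp (pote_sub_cont.comp (continuous_id.prodMk continuous_const))

theorem potE_integrable (hp : p ≤ 1) (h1 : (p : ℝ) < ρ) (h2 : ρ < p + 1) (ψ : ℝ)
    (c : C(EReal, ℝ)) (t : EReal) :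
    Integrable fun u : ℝ => kn p ρ u ψ * c (t - (u : EReal)) := by
  have hk := integrable_kn hp h1 h2 ψ
  have h3 : Integrable fun u : ℝ => c (t - (u : EReal)) * kn p ρ u ψ :=
    hk.bdd_mul (c := ‖c‖) (pote_cont_u c t).aestronglyMeasurable
      (Eventually.of_forall fun u => c.norm_coe_le_norm _)
  exact h3.congr (Eventually.of_forall fun u => mul_comm _ _)

theorem potE_continuous (hp : p ≤ 1) (h1 : (p : ℝ) < ρ) (h2 : ρ < p + 1) (ψ : ℝ)
    (c : C(EReal, ℝ)) : Continuous (potE p ρ ψ c) := by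
  unfold potE
  refine continuous_of_dominated (bound := fun u => ‖c‖ * Psi p ρ u) ?_ ?_ ?_ ?_
  · intro t
    exact (potE_integrable hp h1 h2 ψ c t).aestronglyMeasurable
  · intro t
    filter_upwards [knt_ae_ne] with u hu
    rw [norm_mul, Real.norm_eq_abs, mul_comm]
    exact mul_le_mul (c.norm_coe_le_norm _) (abs_kn_le hp ρ hu ψ) (abs_nonneg _) (norm_nonneg _)
  · exact (knt_integrable_Psi hp h1 h2).const_mul _
  · exact Eventually.of_forall fun u => continuous_const.mul (pote_cont_t c u)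

theorem potE_top (ψ : ℝ) (c : C(EReal, ℝ)) :
    potE p ρ ψ c ⊤ = (∫ u, kn p ρ u ψ) * c ⊤ := by
  unfold potE
  simp only [EReal.top_sub_coe]
  exact integral_mul_const _ _

theorem potE_bot (ψ : ℝ) (c : C(EReal, ℝ)) :
    potE p ρ ψ c ⊥ = (∫ u, kn p ρ u ψ) * c ⊥ := by
  unfold potE
  simp only [EReal.bot_sub]
  exact integral_mul_const _ _

theorem potE_real (ψ : ℝ) (c : C(EReal, ℝ)) (t : ℝ) :
    potE p ρ ψ c t = ∫ u : ℝ, kn p ρ u ψ * c ((t - u : ℝ) : EReal) := by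
  unfold potE
  refine integral_congr_ae (Eventually.of_forall fun u => ?_)
  simp only
  rw [EReal.coe_sub]

theorem potE_add (hp : p ≤ 1) (h1 : (p : ℝ) < ρ) (h2 : ρ < p + 1) (ψ : ℝ)
    (c d : C(EReal, ℝ)) (t : EReal) :
    potE p ρ ψ (c + d) t = potE p ρ ψ c t + potE p ρ ψ d t := by
  unfold potE
  rw [← integral_add (potE_integrable hp h1 h2 ψ c t) (potE_integrable hp h1 h2 ψ d t)]
  refine integral_congr_ae (Eventually.of_forall fun u => ?_)
  simp only [ContinuousMap.add_apply]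
  ring

theorem potE_smul (ψ : ℝ) (a : ℝ) (c : C(EReal, ℝ)) (t : EReal) :
    potE p ρ ψ (a • c) t = a * potE p ρ ψ c t := by
  unfold potE
  rw [← integral_const_mul]
  refine integral_congr_ae (Eventually.of_forall fun u => ?_)
  simp only [ContinuousMap.smul_apply, smul_eq_mul]
  ring

theorem abs_potE_le (hp : p ≤ 1) (h1 : (p : ℝ) < ρ) (h2 : ρ < p + 1) (ψ : ℝ)
    (c : C(EReal, ℝ)) (t : EReal) : |potE p ρ ψ c t| ≤ ‖c‖ * ∫ u, Psi p ρ u := by
  unfold potE
  rw [← integral_const_mul, ← Real.norm_eq_abs]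
  refine norm_integral_le_of_norm_le ((knt_integrable_Psi hp h1 h2).const_mul _) ?_
  filter_upwards [knt_ae_ne] with u hu
  rw [norm_mul, Real.norm_eq_abs, mul_comm]
  exact mul_le_mul (c.norm_coe_le_norm _) (abs_kn_le hp ρ hu ψ) (abs_nonneg _) (norm_nonneg _)

theorem potE_angle (hp : p ≤ 1) (h1 : (p : ℝ) < ρ) (h2 : ρ < p + 1) :
    ∃ C : ℝ, 0 < C ∧ ∀ (ψ ψ' : ℝ) (c : C(EReal, ℝ)) (t : EReal), |ψ' - ψ| ≤ 1 / 4 →
      |potE p ρ ψ' c t - potE p ρ ψ c t| ≤ C * ‖c‖ * √|ψ' - ψ| := by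
  obtain ⟨C, hC, hl⟩ := kn_l1 hp h1 h2
  refine ⟨C, hC, fun ψ ψ' c t h => ?_⟩
  have h3 := hl 0 ψ ψ' (by simpa using h)
  simp only [abs_zero, zero_add, add_zero] at h3
  unfold potE
  rw [← integral_sub (potE_integrable hp h1 h2 ψ' c t) (potE_integrable hp h1 h2 ψ c t)]
  have h4 : ‖∫ u : ℝ, (kn p ρ u ψ' * c (t - (u : EReal)) - kn p ρ u ψ * c (t - (u : EReal)))‖ ≤
      ∫ u : ℝ, ‖c‖ * |kn p ρ u ψ' - kn p ρ u ψ| := by
    refine norm_integral_le_of_norm_le
      (((integrable_kn hp h1 h2 ψ').sub (integrable_kn hp h1 h2 ψ)).abs.const_mul _) ?_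
    refine Eventually.of_forall fun u => ?_
    rw [← sub_mul, norm_mul, mul_comm, Real.norm_eq_abs (kn p ρ u ψ' - kn p ρ u ψ)]
    exact mul_le_mul_of_nonneg_right (c.norm_coe_le_norm _) (abs_nonneg _)
  rw [Real.norm_eq_abs, integral_const_mul] at h4
  refine h4.trans ?_
  calc ‖c‖ * ∫ u : ℝ, |kn p ρ u ψ' - kn p ρ u ψ| ≤ ‖c‖ * (C * √|ψ' - ψ|) :=
        mul_le_mul_of_nonneg_left h3 (norm_nonneg _)
    _ = C * ‖c‖ * √|ψ' - ψ| := by ring

end HBInf
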