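import Pool.Agent.HBInf.KnDefs
import Pool.Agent.HBInd.ProdP

/-!
# Canonical products: the values at all points which are not zeros

This is the private lemma `exists_prod_aux` in `Pool.Agent.HBInd.ProdP` (copy its proof), rewritten with `kp`:
`czp (τ i) (α i) * ray (e^t) θ = exp ((t - τ i) + i (θ - α i))`, equal to `1` only if `t = τ i` and `θ - α i ∈ 2πℤ`.
-/

namespace HBInf

open HBInd Complex Filter Topology Set MeasureTheory
open scoped Real ComplexConjugate

/-- the inverse of the zero `exp (τ + i α)` -/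
private noncomputable def pq_cz (τ α : ℝ) : ℂ := Complex.exp (((-τ : ℝ) : ℂ) + ((-α : ℝ) : ℂ) * I)

private lemma pq_cz_norm (τ α : ℝ) : ‖pq_cz τ α‖ = Real.exp (-τ) := by
  rw [pq_cz, Complex.norm_exp]
  congr 1
  simp

private lemma pq_cz_im (τ α : ℝ) : (pq_cz τ α).im = -(Real.exp (-τ) * Real.sin α) := by
  rw [pq_cz, Complex.exp_im]
  simp

private lemma pq_cz_norm_rpow (τ α σ : ℝ) : ‖pq_cz τ α‖ ^ σ = Real.exp (-σ * τ) := by
  rw [pq_cz_norm, ← Real.exp_mul]
  congr 1
  ring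

private lemma pq_cz_mul_ray (τ α t θ : ℝ) :
    pq_cz τ α * ray (Real.exp t) θ =
      Complex.exp (((t - τ : ℝ) : ℂ) + ((θ - α : ℝ) : ℂ) * I) := by
  rw [pq_cz, ray, Complex.ofReal_exp, ← Complex.exp_add, ← Complex.exp_add]
  congr 1
  push_cast
  ring

private lemma pq_cz_ne {τ α t θ : ℝ} (h : t ≠ τ ∨ ∀ m : ℤ, θ - α ≠ m * (2 * π)) :
    pq_cz τ α * ray (Real.exp t) θ ≠ 1 := by
  intro h1
  rw [pq_cz_mul_ray] at h1
  have h3 : Real.exp (t - τ) = 1 := by
    have h2 := congrArg norm h1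
    rw [Complex.norm_exp] at h2
    simpa using h2
  have ht : t = τ := by
    have := (Real.exp_eq_one_iff _).1 h3
    linarith
  rcases h with h | h
  · exact h ht
  · obtain ⟨n, hn⟩ := Complex.exp_eq_one_iff.1 h1
    apply h n
    have h4 := congrArg Complex.im hn
    simpa using h4

/-- the product of genus `p`, as a function of `c` -/
private theorem pq_prod_aux {p : ℕ} (hp : p ≤ 1) {ρ : ℝ} (h1 : (p : ℝ) < ρ) (h2 : ρ < p + 1)
    {ι : Type} [Countable ι] {τ α : ι → ℝ}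
    (hα : ∀ i, α i ∈ Icc 0 π ∧ (p = 1 → α i = 0 ∨ α i = π))
    (hs : ∀ σ, ρ < σ → Summable fun i => Real.exp (-σ * τ i)) :
    ∃ f : ℂ → ℂ, Pre ρ f ∧ ∀ z : ℂ, (∀ i, pq_cz (τ i) (α i) * z ≠ 1) →
      f z ≠ 0 ∧ HasSum (fun i => KK p (pq_cz (τ i) (α i) * z)) (Real.log ‖f z‖) := by
  interval_cases p
  · have hρ0 : 0 < ρ := by simpa using h1
    have hρ1 : ρ < 1 := by simpa using h2
    obtain ⟨f, hf, hf2, -⟩ := exists_pre hρ0 hρ1 (c := fun i => pq_cz (τ i) (α i))
      (fun σ hσ => by simpa only [pq_cz_norm_rpow] using hs σ hσ)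
      (fun i => by
        rw [pq_cz_im]
        have := Real.sin_nonneg_of_mem_Icc (hα i).1
        have h3 := Real.exp_pos (-τ i)
        have := mul_nonneg h3.le this
        linarith)
    refine ⟨f, hf, fun z hz => ?_⟩
    obtain ⟨h3, h4⟩ := hf2 z hz
    refine ⟨h3, ?_⟩
    refine h4.congr_fun fun i => ?_
    rw [KK]
    simp
  · have hρ0 : 1 < ρ := by simpa using h1
    have hρ1 : ρ < 2 := by
      have h3 : ρ < 1 + 1 := by simpa using h2
      linarith
    set r : ι → ℝ := fun i => Real.exp (-τ i) * Real.cos (α i) with hr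
    have hc : ∀ i, pq_cz (τ i) (α i) = (r i : ℂ) := by
      intro i
      have hsin : Real.sin (α i) = 0 := by
        rcases (hα i).2 rfl with h | h <;> rw [h] <;> simp
      apply Complex.ext
      · rw [pq_cz, Complex.exp_re, Complex.ofReal_re, hr]
        simp only [Complex.add_re, Complex.ofReal_re, Complex.mul_re, Complex.I_re,
          Complex.ofReal_im, Complex.I_im, Complex.add_im, Complex.mul_im]
        rw [show (-τ i + (-α i * 0 - 0 * 1) : ℝ) = -τ i by ring,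
          show (0 + (-α i * 1 + 0 * 0) : ℝ) = -α i by ring, Real.cos_neg]
      · rw [pq_cz_im, hsin]
        simp
    have habs : ∀ i, |r i| = Real.exp (-τ i) := by
      intro i
      rw [← pq_cz_norm (τ i) (α i), hc i, Complex.norm_real, Real.norm_eq_abs]
    have hrs : ∀ σ, ρ < σ → Summable fun i => |r i| ^ σ := by
      intro σ hσ
      refine (hs σ hσ).congr fun i => ?_
      rw [habs, ← Real.exp_mul]
      congr 1
      ring
    have hr2 : Summable fun i => (r i) ^ 2 := by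
      refine (hs 2 hρ1).congr fun i => ?_
      rw [← sq_abs, habs, ← Real.exp_nat_mul]
      congr 1
      push_cast
      ring
    obtain ⟨f, hf1, hf2, hf3, hf4, hf5⟩ := exists_genus_one hr2
    refine ⟨f, ⟨hf1, ?_, fun z hz => hf2 z hz.ne, ?_⟩, ?_⟩
    · intro σ hσ
      obtain ⟨s, hs1, hs2⟩ := exists_between (lt_min hσ hρ1)
      have hsσ : s < σ := hs2.trans_le (min_le_left _ _)
      have hs2' : s ≤ 2 := (hs2.trans_le (min_le_right _ _)).le
      filter_upwards [(tendsto_norm_cobounded_atTop (E := ℂ)).eventually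
        (eventually_mul_rpow_le hsσ (2 * ∑' i, |r i| ^ s))] with z hz
      exact (hf5 s (by linarith) hs2' (hrs s hs1) z).trans (Real.exp_le_exp.2 hz)
    · intro z _
      rw [hf3 z, Complex.norm_conj]
    · intro z hz
      obtain ⟨h3, h4⟩ := hf4 z (fun i => by rw [← hc i]; exact hz i)
      refine ⟨h3, ?_⟩
      refine h4.congr_fun fun i => ?_
      rw [KK, hc i, Complex.re_ofReal_mul]
      simp

theorem exists_product_pt {p : ℕ} (hp : p ≤ 1) {ρ : ℝ} (h1 : (p : ℝ) < ρ) (h2 : ρ < p + 1)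
    {ι : Type} [Countable ι] {τ α : ι → ℝ} (hα : ∀ i, α i ∈ TT p)
    (hs : ∀ σ, ρ < σ → Summable fun i => Real.exp (-σ * τ i)) :
    ∃ f : ℂ → ℂ, Pre ρ f ∧ ∀ t θ : ℝ, (∀ i, t ≠ τ i ∨ ∀ m : ℤ, θ - α i ≠ m * (2 * π)) →
      f (ray (Real.exp t) θ) ≠ 0 ∧
        HasSum (fun i => kp p (t - τ i) (θ - α i)) (Real.log ‖f (ray (Real.exp t) θ)‖) := by
  obtain ⟨f, hf, hf2⟩ := pq_prod_aux hp h1 h2 hα hs
  refine ⟨f, hf, fun t θ h => ?_⟩
  obtain ⟨h3, h4⟩ := hf2 (ray (Real.exp t) θ) (fun i => pq_cz_ne (h i))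
  refine ⟨h3, ?_⟩
  refine h4.congr_fun fun i => ?_
  rw [pq_cz_mul_ray, kp]

end HBInf
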