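import Pool.Agent.HBInf.DensTools
import Pool.Agent.HBInf.BlockLoc
import Pool.Agent.HBInf.ProdQ

/-!
# Realisation of a system of densities by an entire function

Split: `tri x = max 0 (1 - |x|)`, `c_{i,k} t = r i t * tri (t - k)`, `k ∈ ℕ`, supported in `[k - 1, k + 1]`,
`∑_k c_{i,k} = r i` (`r i t = 0` for `t ≤ 0`). `exists_block_loc` (`T = k - 1`) gives points `τ_{i,k,n}`, `n < N_{i,k}`,
`N_{i,k} ≤ ∫ c_{i,k} e^{ρt}`; so `N_{i,k} = 0` and there is no error if `c_{i,k} = 0`, in particular if `k + 1 ≤ S i`. Let `ι'` be the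
sigma type of all these points. By `dens_sum`, `∑_i N_{i,k} ≤ C_κ e^{(ρ+κ) k}` for every `κ > 0`, so
`∑ e^{-σ τ} < ∞` for `σ > ρ`: `f` from `exists_product_pt`. Also (**) at most `C_κ e^{κk}` indices `i` have
`c_{i,k} ≠ 0` (`dens_card`).

Put `Q_δ t θ = ∑_{points} kq p δ (t - τ) (θ - α)` and `P_δ t θ = ∑_i ∫ kq p δ u (θ - α i) e^{-ρu} r i (t - u) du`. Sum of
the errors of the blocks: `|Q_δ t θ - e^{ρt} P_δ t θ| ≤ C_κ e^{κt}/δ + ∑_{k, |t - k + 1| > 4} C_κ e^{κk} C e^{ρ(t - k)} e^{-sg |t - k|} ≤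
C'_κ (e^{κt}/δ + e^{(ρ - sg/2) t})` (sum over `k ≥ 0`, `κ` small, `t ≥ 0`). With `δ = δ(t) = e^{-4κt}/8`, `5κ < ρ`,
`2κ ≤ sg`: `|Q_δ - e^{ρt} P_δ| ≤ ε e^{ρt}` and `|P_δ - dpot| ≤ C e^{κt} δ ≤ ε` (`dpot_kq`) for large `t`, all `θ`.

(U) If `t` is not one of the `τ`: `log ‖f‖ = ∑ kp (t - τ) (θ - α) ≤ Q_δ t θ` (`kp_le_kq`), so
`‖f (ray (e^t) θ)‖ ≤ exp (e^{ρt} (dpot t θ + 3ε))`; by continuity of `f` and of `dpot` in `t` (`dpot_cont`) for all
large `t` (the `τ` are countable).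
(L) Let `η = e^{-κt}`, `δ = e^{-4κt}/8`. For all `t' ∈ [t, t + η]` not among the `τ`: `log ‖f‖ = Q_δ t' θ - ∑ (kq p δ - kp) (t' - τ)`, the
terms are `≥ 0`, vanish for `|t' - τ| > 4δ`, and `∫_t^{t+η} (kq - kp) (t' - τ) dt' ≤ C δ` (`kq_sub` with `ρ = 0`); the number
of the points in `[t - 1, t + 2]` is `≤ C_κ e^{(ρ+κ) t}`. So the average over `[t, t + η]` of the sum is
`≤ C δ e^{(ρ+κ)t}/η ≤ C e^{(ρ - 2κ) t}`. Hence for some `t'`: `log ‖f‖ ≥ Q_δ t' θ - ε e^{ρt'} ≥ e^{ρt'} (dpot t' θ - 3ε)`, and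
`|dpot t' θ - dpot t θ| ≤ C e^{κt/4} √η ≤ ε` (`dpot_shift` with `κ/4`).
(`δ(t)` is fixed on `[t, t + η]`; the estimate of `Q_δ - e^{ρt'} P_δ` is uniform there.)
-/

namespace HBInf

open HBInd Complex Filter Topology Set MeasureTheory
open scoped Real ComplexConjugate

/-- the tent function -/
noncomputable def rzTri (x : ℝ) : ℝ := max 0 (1 - |x|)

theorem rzTri_cont : Continuous rzTri := by
  unfold rzTri
  fun_prop

theorem rzTri_nn (x : ℝ) : 0 ≤ rzTri x := le_max_left _ _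

theorem rzTri_le (x : ℝ) : rzTri x ≤ 1 := by
  unfold rzTri
  exact max_le zero_le_one (by linarith [abs_nonneg x])

theorem rzTri_zero {x : ℝ} (hx : 1 ≤ |x|) : rzTri x = 0 := by
  unfold rzTri
  exact max_eq_left (by linarith)

theorem rzTri_sum {t : ℝ} (ht : 0 ≤ t) : HasSum (fun k : ℕ => rzTri (t - k)) 1 := by
  set m := ⌊t⌋₊ with hm
  have h1 : (m : ℝ) ≤ t := Nat.floor_le ht
  have h2 : t < m + 1 := Nat.lt_floor_add_one t
  have h3 : HasSum (fun k : ℕ => rzTri (t - k)) (∑ k ∈ ({m, m + 1} : Finset ℕ), rzTri (t - k)) := by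
    apply hasSum_sum_of_ne_finset_zero
    intro k hk
    apply rzTri_zero
    simp only [Finset.mem_insert, Finset.mem_singleton, not_or] at hk
    rcases lt_or_gt_of_ne hk.1 with h | h
    · have : (k : ℝ) + 1 ≤ m := by exact_mod_cast h
      rw [le_abs]
      left
      linarith
    · have h4 : m + 1 < k := lt_of_le_of_ne h (Ne.symm hk.2)
      have : (m : ℝ) + 1 + 1 ≤ k := by exact_mod_cast h4
      rw [le_abs]
      right
      linarith
  have h4 : ∑ k ∈ ({m, m + 1} : Finset ℕ), rzTri (t - k) = 1 := by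
    rw [Finset.sum_pair (by simp)]
    unfold rzTri
    have e1 : |t - (m : ℝ)| = t - m := abs_of_nonneg (by linarith)
    have e2 : |t - ((m + 1 : ℕ) : ℝ)| = m + 1 - t := by
      push_cast
      rw [abs_of_nonpos (by linarith)]
      ring
    rw [e1, e2, max_eq_right (by linarith), max_eq_right (by linarith)]
    ring
  rwa [h4] at h3

/-- the pieces of the densities -/
noncomputable def rzC {ι : Type} (r : ι → ℝ → ℝ) (i : ι) (k : ℕ) (t : ℝ) : ℝ :=
  r i t * rzTri (t - k)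

variable {p : ℕ} {ρ : ℝ} {ι : Type} {α : ι → ℝ} {r : ι → ℝ → ℝ} {S B : ι → ℝ}

theorem rzC_cont (h : Dens p α r S B) (i : ι) (k : ℕ) : Continuous (rzC r i k) := by
  unfold rzC
  exact (h.cont i).mul (rzTri_cont.comp (by fun_prop))

theorem rzC_nn (h : Dens p α r S B) (i : ι) (k : ℕ) (t : ℝ) : 0 ≤ rzC r i k t :=
  mul_nonneg (h.nn i t) (rzTri_nn _)

theorem rzC_le (h : Dens p α r S B) (i : ι) (k : ℕ) (t : ℝ) : rzC r i k t ≤ r i t := by
  have := mul_le_mul_of_nonneg_left (rzTri_le (t - k)) (h.nn i t)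
  rwa [mul_one] at this

theorem rzC_supp (i : ι) (k : ℕ) {t : ℝ} (ht : t ∉ Icc ((k : ℝ) - 1) ((k : ℝ) - 1 + 2)) :
    rzC r i k t = 0 := by
  unfold rzC
  rw [rzTri_zero, mul_zero]
  rw [mem_Icc, not_and_or, not_le, not_le] at ht
  rcases ht with ht | ht
  · rw [le_abs]; right; linarith
  · rw [le_abs]; left; linarith

theorem rzC_zero (h : Dens p α r S B) {i : ι} {k : ℕ} (hk : (k : ℝ) + 1 ≤ S i) (t : ℝ) :
    rzC r i k t = 0 := by
  by_cases ht : t ∈ Icc ((k : ℝ) - 1) ((k : ℝ) - 1 + 2)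
  · have : t ≤ S i := by linarith [ht.2]
    rw [rzC, h.supp i t this, zero_mul]
  · exact rzC_supp i k ht

theorem rzC_sum (h : Dens p α r S B) (i : ι) (t : ℝ) :
    HasSum (fun k : ℕ => rzC r i k t) (r i t) := by
  rcases le_or_gt 0 t with ht | ht
  · have := (rzTri_sum ht).mul_left (r i t)
    rwa [mul_one] at this
  · have h1 : r i t = 0 := h.supp i t (ht.le.trans (h.S0 i))
    simp only [rzC, h1, zero_mul]
    exact hasSum_zero

theorem rzC_sum_le (h : Dens p α r S B) (i : ι) (t : ℝ) (F : Finset ℕ) :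
    ∑ k ∈ F, rzC r i k t ≤ r i t :=
  sum_le_hasSum F (fun k _ => rzC_nn h i k t) (rzC_sum h i t)

/-- the rays which are active before `t` -/
theorem rz_fin (h : Dens p α r S B) (t : ℝ) : {i | S i < t}.Finite := by
  obtain ⟨C, hC, h1⟩ := dens_card h zero_lt_one
  by_contra hinf
  have hinf : {i | S i < t}.Infinite := hinf
  obtain ⟨F, hF, hc⟩ := hinf.exists_subset_card_eq (⌊C * Real.exp (1 * |t|)⌋₊ + 1)
  have h2 := h1 t F (fun i hi => hF hi)
  have h3 := Nat.lt_floor_add_one (C * Real.exp (1 * |t|))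
  rw [hc] at h2
  push_cast at h2
  linarith

/-- the finite set of rays active in the `k`-th block -/
noncomputable def rzA (h : Dens p α r S B) (k : ℕ) : Finset ι := (rz_fin h (k + 1)).toFinset

theorem mem_rzA (h : Dens p α r S B) {k : ℕ} {i : ι} : i ∈ rzA h k ↔ S i < k + 1 := by
  simp [rzA]

theorem rzC_not_mem (h : Dens p α r S B) {k : ℕ} {i : ι} (hi : i ∉ rzA h k) (t : ℝ) :
    rzC r i k t = 0 := by
  rw [mem_rzA, not_lt] at hi
  exact rzC_zero h hi t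

theorem rz_summ_exp {c : ℝ} (hc : 0 < c) : Summable fun k : ℕ => Real.exp (-c * k) := by
  have h : Summable fun k : ℕ => Real.exp (k * (-c)) :=
    Real.summable_exp_nat_mul_iff.2 (by linarith)
  refine h.congr fun k => ?_
  congr 1
  ring

/-- exponential decay of the truncated kernel -/
theorem rz_kq (hp : p ≤ 1) (h1 : (p : ℝ) < ρ) (h2 : ρ < p + 1) {δ : ℝ} (hδ : δ ∈ Ioo (0 : ℝ) 1) :
    ∃ C : ℝ, 0 < C ∧ ∀ u ψ : ℝ, |kq p δ u ψ| * Real.exp (-ρ * u) ≤
      C * Real.exp (-(sg p ρ) * |u|) := by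
  have hs := sg_pos h1 h2
  obtain ⟨s1, s2⟩ := sg_le (p := p) (ρ := ρ)
  obtain ⟨C1, hC1, b1⟩ := abs_kq_le hp hδ (σ := ρ + sg p ρ) (by linarith) (by linarith)
  obtain ⟨C2, hC2, b2⟩ := abs_kq_le hp hδ (σ := ρ - sg p ρ) (by linarith) (by linarith)
  refine ⟨C1 + C2, by positivity, fun u ψ => ?_⟩
  have hE := Real.exp_pos (-(sg p ρ) * |u|)
  rcases le_total u 0 with hu | hu
  · have e : Real.exp ((ρ + sg p ρ) * u) * Real.exp (-ρ * u) = Real.exp (-(sg p ρ) * |u|) := by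
      rw [← Real.exp_add, abs_of_nonpos hu]
      congr 1
      ring
    calc |kq p δ u ψ| * Real.exp (-ρ * u)
        ≤ C1 * Real.exp ((ρ + sg p ρ) * u) * Real.exp (-ρ * u) :=
          mul_le_mul_of_nonneg_right (b1 u ψ) (Real.exp_pos _).le
      _ = C1 * Real.exp (-(sg p ρ) * |u|) := by rw [mul_assoc, e]
      _ ≤ _ := mul_le_mul_of_nonneg_right (by linarith) hE.le
  · have e : Real.exp ((ρ - sg p ρ) * u) * Real.exp (-ρ * u) = Real.exp (-(sg p ρ) * |u|) := by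
      rw [← Real.exp_add, abs_of_nonneg hu]
      congr 1
      ring
    calc |kq p δ u ψ| * Real.exp (-ρ * u)
        ≤ C2 * Real.exp ((ρ - sg p ρ) * u) * Real.exp (-ρ * u) :=
          mul_le_mul_of_nonneg_right (b2 u ψ) (Real.exp_pos _).le
      _ = C2 * Real.exp (-(sg p ρ) * |u|) := by rw [mul_assoc, e]
      _ ≤ _ := mul_le_mul_of_nonneg_right (by linarith) hE.le

theorem rz_kq_cont {δ : ℝ} (hδ : δ ∈ Ioo (0 : ℝ) 1) (ψ : ℝ) : Continuous fun u => kq p δ u ψ :=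
  (continuous_kq hδ).comp (by fun_prop : Continuous fun u : ℝ => (u, ψ))

/-- the summand -/
noncomputable def rzG (p : ℕ) (ρ δ : ℝ) {ι : Type} (α : ι → ℝ) (r : ι → ℝ → ℝ) (t θ : ℝ)
    (x : ι × ℕ) (u : ℝ) : ℝ :=
  kq p δ u (θ - α x.1) * Real.exp (-ρ * u) * rzC r x.1 x.2 (t - u)

theorem rz_dom (hp : p ≤ 1) (h1 : (p : ℝ) < ρ) (h2 : ρ < p + 1) (h : Dens p α r S B)
    {δ : ℝ} (hδ : δ ∈ Ioo (0 : ℝ) 1) (t θ : ℝ) :
    ∃ K : ℝ, 0 ≤ K ∧ ∀ (F : Finset ι) (u : ℝ),
      ∑ i ∈ F, |kq p δ u (θ - α i)| * Real.exp (-ρ * u) * r i (t - u) ≤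
        K * Real.exp (-(sg p ρ / 2) * |u|) := by
  have hs := sg_pos h1 h2
  obtain ⟨C, hC, b⟩ := rz_kq hp h1 h2 hδ
  obtain ⟨D, hD, d⟩ := dens_sum h (κ := sg p ρ / 2) (by positivity)
  refine ⟨C * (D * Real.exp (sg p ρ / 2 * |t|)), by positivity, fun F u => ?_⟩
  obtain ⟨d1, d2⟩ := d (t - u)
  have e1 : ∑ i ∈ F, r i (t - u) ≤ D * Real.exp (sg p ρ / 2 * |t - u|) :=
    (d1.sum_le_tsum F (fun i _ => h.nn i _)).trans d2
  have e2 : |t - u| ≤ |t| + |u| := abs_sub t u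
  calc ∑ i ∈ F, |kq p δ u (θ - α i)| * Real.exp (-ρ * u) * r i (t - u)
      ≤ ∑ i ∈ F, C * Real.exp (-(sg p ρ) * |u|) * r i (t - u) :=
        Finset.sum_le_sum fun i _ => mul_le_mul_of_nonneg_right (b u _) (h.nn i _)
    _ = C * Real.exp (-(sg p ρ) * |u|) * ∑ i ∈ F, r i (t - u) := by rw [Finset.mul_sum]
    _ ≤ C * Real.exp (-(sg p ρ) * |u|) * (D * Real.exp (sg p ρ / 2 * (|t| + |u|))) := by
        refine mul_le_mul_of_nonneg_left (e1.trans ?_) (by positivity)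
        refine mul_le_mul_of_nonneg_left (Real.exp_le_exp.2 ?_) hD.le
        exact mul_le_mul_of_nonneg_left e2 (by positivity)
    _ = C * (D * Real.exp (sg p ρ / 2 * |t|)) * Real.exp (-(sg p ρ / 2) * |u|) := by
        have : Real.exp (-(sg p ρ) * |u|) * Real.exp (sg p ρ / 2 * (|t| + |u|)) =
            Real.exp (sg p ρ / 2 * |t|) * Real.exp (-(sg p ρ / 2) * |u|) := by
          rw [← Real.exp_add, ← Real.exp_add]
          congr 1
          ring
        calc C * Real.exp (-(sg p ρ) * |u|) * (D * Real.exp (sg p ρ / 2 * (|t| + |u|)))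
            = C * D * (Real.exp (-(sg p ρ) * |u|) * Real.exp (sg p ρ / 2 * (|t| + |u|))) := by ring
          _ = _ := by rw [this]; ring

theorem rzG_meas (h : Dens p α r S B) {δ : ℝ} (hδ : δ ∈ Ioo (0 : ℝ) 1) (t θ : ℝ) (x : ι × ℕ) :
    Continuous (rzG p ρ δ α r t θ x) := by
  unfold rzG
  have a1 := rz_kq_cont (p := p) hδ (θ - α x.1)
  have a2 := (rzC_cont h x.1 x.2).comp (by fun_prop : Continuous fun u : ℝ => t - u)
  exact (a1.mul (by fun_prop)).mul a2

theorem rzG_norm (h : Dens p α r S B) (δ t θ : ℝ) (x : ι × ℕ) (u : ℝ) :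
    ‖rzG p ρ δ α r t θ x u‖ =
      |kq p δ u (θ - α x.1)| * Real.exp (-ρ * u) * rzC r x.1 x.2 (t - u) := by
  rw [rzG, Real.norm_eq_abs, abs_mul, abs_mul, abs_of_pos (Real.exp_pos _),
    abs_of_nonneg (rzC_nn h _ _ _)]

theorem rz_int_exp {c K : ℝ} (hc : 0 < c) : Integrable fun u : ℝ => K * Real.exp (-c * |u|) :=
  (knt_int_exp hc).const_mul K

theorem rzG_int (hp : p ≤ 1) (h1 : (p : ℝ) < ρ) (h2 : ρ < p + 1) (h : Dens p α r S B)
    {δ : ℝ} (hδ : δ ∈ Ioo (0 : ℝ) 1) (t θ : ℝ) (x : ι × ℕ) :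
    Integrable (rzG p ρ δ α r t θ x) := by
  have hs := sg_pos h1 h2
  obtain ⟨K, hK, hb⟩ := rz_dom hp h1 h2 h hδ t θ
  refine Integrable.mono' (rz_int_exp (K := K) (c := sg p ρ / 2) (by positivity))
    (rzG_meas h hδ t θ x).aestronglyMeasurable (Filter.Eventually.of_forall fun u => ?_)
  have h3 := hb {x.1} u
  rw [Finset.sum_singleton] at h3
  rw [rzG_norm h]
  refine le_trans ?_ h3
  exact mul_le_mul_of_nonneg_left (rzC_le h _ _ _) (by positivity)

theorem rzG_summ (hp : p ≤ 1) (h1 : (p : ℝ) < ρ) (h2 : ρ < p + 1) (h : Dens p α r S B)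
    {δ : ℝ} (hδ : δ ∈ Ioo (0 : ℝ) 1) (t θ : ℝ) :
    Summable fun x : ι × ℕ => ∫ u, ‖rzG p ρ δ α r t θ x u‖ := by
  classical
  have hs := sg_pos h1 h2
  obtain ⟨K, hK, hb⟩ := rz_dom hp h1 h2 h hδ t θ
  refine summable_of_sum_le (c := ∫ u, K * Real.exp (-(sg p ρ / 2) * |u|))
    (fun x => integral_nonneg fun u => norm_nonneg _) (fun F => ?_)
  have hsub : F ⊆ (F.image Prod.fst) ×ˢ (F.image Prod.snd) := by
    intro x hx
    rw [Finset.mem_product]
    exact ⟨Finset.mem_image_of_mem _ hx, Finset.mem_image_of_mem _ hx⟩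
  rw [← integral_finsetSum F fun x _ => (rzG_int hp h1 h2 h hδ t θ x).norm]
  refine integral_mono (integrable_finsetSum F fun x _ => (rzG_int hp h1 h2 h hδ t θ x).norm)
    (rz_int_exp (by positivity)) fun u => ?_
  calc ∑ x ∈ F, ‖rzG p ρ δ α r t θ x u‖
      ≤ ∑ x ∈ (F.image Prod.fst) ×ˢ (F.image Prod.snd), ‖rzG p ρ δ α r t θ x u‖ :=
        Finset.sum_le_sum_of_subset_of_nonneg hsub fun x _ _ => norm_nonneg _
    _ = ∑ i ∈ F.image Prod.fst, ∑ k ∈ F.image Prod.snd,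
          |kq p δ u (θ - α i)| * Real.exp (-ρ * u) * rzC r i k (t - u) := by
        rw [Finset.sum_product]
        exact Finset.sum_congr rfl fun i _ => Finset.sum_congr rfl fun k _ => rzG_norm h _ _ _ _ _
    _ ≤ ∑ i ∈ F.image Prod.fst, |kq p δ u (θ - α i)| * Real.exp (-ρ * u) * r i (t - u) := by
        refine Finset.sum_le_sum fun i _ => ?_
        rw [← Finset.mul_sum]
        exact mul_le_mul_of_nonneg_left (rzC_sum_le h i _ _) (by positivity)
    _ ≤ _ := hb _ u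

/-- the potential as a sum over the blocks -/
theorem rz_P (hp : p ≤ 1) (h1 : (p : ℝ) < ρ) (h2 : ρ < p + 1) [Countable ι]
    (h : Dens p α r S B) {δ : ℝ} (hδ : δ ∈ Ioo (0 : ℝ) 1) (t θ : ℝ) :
    HasSum (fun k : ℕ => ∑ i ∈ rzA h k,
        ∫ u, kq p δ u (θ - α i) * Real.exp (-ρ * u) * rzC r i k (t - u))
      (∑' i, ∫ u, kq p δ u (θ - α i) * Real.exp (-ρ * u) * r i (t - u)) := by
  have hsum := rzG_summ hp h1 h2 h hδ t θ
  have hint := fun x => rzG_int hp h1 h2 h hδ t θ x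
  have hS : Summable fun x : ι × ℕ => ∫ u, rzG p ρ δ α r t θ x u :=
    Summable.of_norm_bounded hsum fun x => norm_integral_le_integral_norm _
  have hT := hS.hasSum
  have hfib : ∀ i : ι, HasSum (fun k : ℕ => ∫ u, rzG p ρ δ α r t θ (i, k) u)
      (∫ u, kq p δ u (θ - α i) * Real.exp (-ρ * u) * r i (t - u)) := by
    intro i
    have a1 : Summable fun k : ℕ => ∫ u, ‖rzG p ρ δ α r t θ (i, k) u‖ :=
      hsum.comp_injective (i := fun k : ℕ => (i, k)) (fun a b hab => (Prod.mk.inj hab).2)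
    have a2 := hasSum_integral_of_summable_integral_norm (fun k : ℕ => hint (i, k)) a1
    have a3 : (fun u => ∑' k : ℕ, rzG p ρ δ α r t θ (i, k) u) =
        fun u => kq p δ u (θ - α i) * Real.exp (-ρ * u) * r i (t - u) := by
      funext u
      simp only [rzG]
      exact ((rzC_sum h i (t - u)).mul_left
        (kq p δ u (θ - α i) * Real.exp (-ρ * u))).tsum_eq
    rwa [a3] at a2
  have htot := hT.prod_fiberwise hfib
  have hT2 : HasSum (fun x : ℕ × ι => ∫ u, rzG p ρ δ α r t θ (x.2, x.1) u)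
      (∑' x : ι × ℕ, ∫ u, rzG p ρ δ α r t θ x u) :=
    (Equiv.prodComm ℕ ι).hasSum_iff.2 hT
  have hfib2 : ∀ k : ℕ, HasSum (fun i : ι => ∫ u, rzG p ρ δ α r t θ (i, k) u)
      (∑ i ∈ rzA h k, ∫ u, kq p δ u (θ - α i) * Real.exp (-ρ * u) * rzC r i k (t - u)) := by
    intro k
    apply hasSum_sum_of_ne_finset_zero
    intro i hi
    have : (fun u => rzG p ρ δ α r t θ (i, k) u) = fun _ => 0 := by
      funext u
      rw [rzG, rzC_not_mem h hi, mul_zero]
    rw [this, integral_zero]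
  have hk := hT2.prod_fiberwise hfib2
  rwa [htot.tsum_eq]

/-- bound for the error of the block `k` at the place `t`, times the number of rays -/
theorem rz_err_aux {κ c s ρ : ℝ} (hκ : 0 < κ) (hs : 0 < s) (hc : c = ρ - s - κ) {C D δ : ℝ} (hC : 0 < C) (hD : 0 < D) (hδ : 0 < δ) {t : ℝ}
    (ht : 0 ≤ t) (k : ℕ) {E n : ℝ} (hn0 : 0 ≤ n) (hn : n ≤ D * Real.exp (κ * ((k : ℝ) + 1)))
    (hE1 : |t - ((k : ℝ) - 1)| ≤ 4 → E ≤ C / δ)
    (hE2 : 4 < |t - ((k : ℝ) - 1)| → E ≤ C * Real.exp (ρ * (t - ((k : ℝ) - 1))) *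
      Real.exp (-s * |t - ((k : ℝ) - 1)|)) :
    n * E ≤ C * D * Real.exp (11 * κ) * (Real.exp (2 * κ * t) / δ) * Real.exp (-κ * k) +
      C * D * Real.exp (2 * κ + c) * Real.exp ((ρ - s / 2) * t) * Real.exp (-c * k) := by
  have hk0 : (0 : ℝ) ≤ k := Nat.cast_nonneg k
  have hDE : 0 < D * Real.exp (κ * ((k : ℝ) + 1)) := by positivity
  rcases le_or_gt (|t - ((k : ℝ) - 1)|) 4 with hle | hgt
  · have h1 := hE1 hle
    have h2 := (abs_le.1 hle).1
    have a1 : n * E ≤ D * Real.exp (κ * ((k : ℝ) + 1)) * (C / δ) := by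
      have : 0 ≤ C / δ := by positivity
      nlinarith
    have a2 : Real.exp (κ * ((k : ℝ) + 1)) ≤
        Real.exp (11 * κ) * Real.exp (2 * κ * t) * Real.exp (-κ * k) := by
      rw [← Real.exp_add, ← Real.exp_add]
      apply Real.exp_le_exp.2
      nlinarith
    have a3 : D * Real.exp (κ * ((k : ℝ) + 1)) * (C / δ) ≤
        C * D * Real.exp (11 * κ) * (Real.exp (2 * κ * t) / δ) * Real.exp (-κ * k) := by
      have e : C * D * Real.exp (11 * κ) * (Real.exp (2 * κ * t) / δ) * Real.exp (-κ * k) =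
          D * (Real.exp (11 * κ) * Real.exp (2 * κ * t) * Real.exp (-κ * k)) * (C / δ) := by
        ring
      rw [e]
      exact mul_le_mul_of_nonneg_right (mul_le_mul_of_nonneg_left a2 hD.le) (by positivity)
    have a4 : 0 ≤ C * D * Real.exp (2 * κ + c) * Real.exp ((ρ - s / 2) * t) *
      Real.exp (-c * k) := by positivity
    linarith
  · have h1 := hE2 hgt
    set m : ℝ := (k : ℝ) - 1 with hm
    have a0 : 0 ≤ C * Real.exp (ρ * (t - m)) * Real.exp (-s * |t - m|) := by positivity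
    have a1 : n * E ≤ D * Real.exp (κ * ((k : ℝ) + 1)) *
        (C * Real.exp (ρ * (t - m)) * Real.exp (-s * |t - m|)) := by
      nlinarith
    have a2 : κ * ((k : ℝ) + 1) + ρ * (t - m) + -s * |t - m| ≤
        (2 * κ + c) + (ρ - s / 2) * t + -c * k := by
      have hkm : (k : ℝ) = m + 1 := by rw [hm]; ring
      rw [hkm, hc]
      rcases le_total m t with h3 | h3
      · rw [abs_of_nonneg (by linarith)]
        nlinarith
      · rw [abs_of_nonpos (by linarith)]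
        nlinarith
    have a3 : Real.exp (κ * ((k : ℝ) + 1)) * (Real.exp (ρ * (t - m)) * Real.exp (-s * |t - m|)) ≤
        Real.exp (2 * κ + c) * Real.exp ((ρ - s / 2) * t) * Real.exp (-c * k) := by
      rw [← Real.exp_add, ← Real.exp_add, ← Real.exp_add, ← Real.exp_add]
      apply Real.exp_le_exp.2
      linarith
    have a4 : D * Real.exp (κ * ((k : ℝ) + 1)) *
        (C * Real.exp (ρ * (t - m)) * Real.exp (-s * |t - m|)) ≤
        C * D * Real.exp (2 * κ + c) * Real.exp ((ρ - s / 2) * t) * Real.exp (-c * k) := by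
      have e1 : D * Real.exp (κ * ((k : ℝ) + 1)) *
          (C * Real.exp (ρ * (t - m)) * Real.exp (-s * |t - m|)) = C * D *
          (Real.exp (κ * ((k : ℝ) + 1)) * (Real.exp (ρ * (t - m)) * Real.exp (-s * |t - m|))) := by
        ring
      have e2 : C * D * Real.exp (2 * κ + c) * Real.exp ((ρ - s / 2) * t) * Real.exp (-c * k) =
          C * D * (Real.exp (2 * κ + c) * Real.exp ((ρ - s / 2) * t) * Real.exp (-c * k)) := by
        ring
      rw [e1, e2]
      exact mul_le_mul_of_nonneg_left a3 (by positivity)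
    have a5 : 0 ≤ C * D * Real.exp (11 * κ) * (Real.exp (2 * κ * t) / δ) * Real.exp (-κ * k) := by
      positivity
    linarith

/-- the index set of the zeros -/
abbrev RzI (h : Dens p α r S B) (N : ι → ℕ → ℕ) : Type :=
  Σ k : ℕ, Σ i : rzA h k, Fin (N i.1 k)

instance (h : Dens p α r S B) (N : ι → ℕ → ℕ) [Countable ι] : Countable (RzI h N) :=
  inferInstance

/-- the mass of a block -/
theorem rz_mass (h : Dens p α r S B) (hρ : 0 < ρ) {κ : ℝ} (hκ : 0 < κ) :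
    ∃ C : ℝ, 0 < C ∧ ∀ k : ℕ, ∑ i ∈ rzA h k, ∫ t, rzC r i k t * Real.exp (ρ * t) ≤
      C * Real.exp ((ρ + κ) * k) := by
  obtain ⟨D, hD, d⟩ := dens_sum h hκ
  refine ⟨2 * (D * Real.exp (ρ + κ)), by positivity, fun k => ?_⟩
  set I : Set ℝ := Icc ((k : ℝ) - 1) ((k : ℝ) - 1 + 2) with hI
  have hk0 : (0 : ℝ) ≤ k := Nat.cast_nonneg k
  have hci : ∀ i, Integrable fun t => rzC r i k t * Real.exp (ρ * t) := by
    intro i
    have hcont : Continuous fun t => rzC r i k t * Real.exp (ρ * t) :=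
      (rzC_cont h i k).mul (by fun_prop)
    refine hcont.integrable_of_hasCompactSupport ?_
    refine HasCompactSupport.intro (K := I) isCompact_Icc fun t ht => ?_
    rw [rzC_supp i k ht, zero_mul]
  rw [← integral_finsetSum _ fun i _ => hci i]
  have hle : ∀ t, ∑ i ∈ rzA h k, rzC r i k t * Real.exp (ρ * t) ≤
      I.indicator (fun _ => D * Real.exp ((ρ + κ) * (k + 1))) t := by
    intro t
    by_cases ht : t ∈ I
    · rw [indicator_of_mem ht]
      obtain ⟨d1, d2⟩ := d t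
      have ht1 : |t| ≤ k + 1 := by
        rw [abs_le]
        constructor
        · linarith [ht.1]
        · linarith [ht.2]
      calc ∑ i ∈ rzA h k, rzC r i k t * Real.exp (ρ * t)
          ≤ ∑ i ∈ rzA h k, r i t * Real.exp (ρ * t) :=
            Finset.sum_le_sum fun i _ => mul_le_mul_of_nonneg_right (rzC_le h i k t)
              (Real.exp_pos _).le
        _ = (∑ i ∈ rzA h k, r i t) * Real.exp (ρ * t) := by rw [Finset.sum_mul]
        _ ≤ (D * Real.exp (κ * |t|)) * Real.exp (ρ * t) :=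
            mul_le_mul_of_nonneg_right ((d1.sum_le_tsum _ (fun i _ => h.nn i t)).trans d2)
              (Real.exp_pos _).le
        _ = D * Real.exp (κ * |t| + ρ * t) := by rw [Real.exp_add]; ring
        _ ≤ D * Real.exp ((ρ + κ) * (k + 1)) := by
            refine mul_le_mul_of_nonneg_left (Real.exp_le_exp.2 ?_) hD.le
            have := le_abs_self t
            nlinarith
    · rw [indicator_of_notMem ht]
      refine le_of_eq (Finset.sum_eq_zero fun i _ => ?_)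
      rw [rzC_supp i k ht, zero_mul]
  have hInt : Integrable (I.indicator fun _ => D * Real.exp ((ρ + κ) * (k + 1)) : ℝ → ℝ) := by
    rw [integrable_indicator_iff measurableSet_Icc]
    exact integrableOn_const (by rw [Real.volume_Icc]; exact ENNReal.ofReal_ne_top)
  refine (integral_mono (integrable_finsetSum _ fun i _ => hci i) hInt hle).trans ?_
  rw [integral_indicator measurableSet_Icc, setIntegral_const, Real.volume_real_Icc,
    smul_eq_mul]
  have e1 : max ((k : ℝ) - 1 + 2 - ((k : ℝ) - 1)) 0 = 2 := by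
    rw [max_eq_left (by linarith)]
    ring
  have e2 : Real.exp ((ρ + κ) * (k + 1)) = Real.exp (ρ + κ) * Real.exp ((ρ + κ) * k) := by
    rw [← Real.exp_add]
    congr 1
    ring
  rw [e1, e2]
  apply le_of_eq
  ring

theorem rz_summ (h : Dens p α r S B) (hρ : 0 < ρ) {N : ι → ℕ → ℕ}
    (hN : ∀ i k, (N i k : ℝ) ≤ ∫ t, rzC r i k t * Real.exp (ρ * t))
    {τ : (i : ι) → (k : ℕ) → Fin (N i k) → ℝ}
    (hτ : ∀ (i : ι) (k : ℕ) (n : Fin (N i k)), τ i k n ∈ Icc ((k : ℝ) - 1) ((k : ℝ) - 1 + 2)) {σ : ℝ} (hσ : ρ < σ) :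
    Summable fun x : RzI h N => Real.exp (-σ * τ x.2.1.1 x.1 x.2.2) := by
  have hσ0 : 0 < σ := hρ.trans hσ
  obtain ⟨C, hC, hb⟩ := rz_mass h hρ (κ := (σ - ρ) / 2) (by linarith)
  rw [summable_sigma_of_nonneg fun x => (Real.exp_pos _).le]
  refine ⟨fun k => (hasSum_fintype _).summable, ?_⟩
  have hS := (rz_summ_exp (c := (σ - ρ) / 2) (by linarith)).mul_left (C * Real.exp σ)
  refine Summable.of_nonneg_of_le (fun k => tsum_nonneg fun x => (Real.exp_pos _).le)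
    (fun k => ?_) hS
  rw [tsum_fintype, Fintype.sum_sigma]
  have a1 : ∀ i : rzA h k, ∑ n : Fin (N i.1 k), Real.exp (-σ * τ i.1 k n) ≤
      (N i.1 k : ℝ) * Real.exp (-σ * ((k : ℝ) - 1)) := by
    intro i
    calc ∑ n : Fin (N i.1 k), Real.exp (-σ * τ i.1 k n)
        ≤ ∑ _n : Fin (N i.1 k), Real.exp (-σ * ((k : ℝ) - 1)) := by
          refine Finset.sum_le_sum fun n _ => Real.exp_le_exp.2 ?_
          have := (hτ i.1 k n).1
          nlinarith
      _ = _ := by simp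
  calc ∑ i : rzA h k, ∑ n : Fin (N i.1 k), Real.exp (-σ * τ i.1 k n)
      ≤ ∑ i : rzA h k, (N i.1 k : ℝ) * Real.exp (-σ * ((k : ℝ) - 1)) :=
        Finset.sum_le_sum fun i _ => a1 i
    _ = (∑ i : rzA h k, (N i.1 k : ℝ)) * Real.exp (-σ * ((k : ℝ) - 1)) := by
        rw [Finset.sum_mul]
    _ ≤ (C * Real.exp ((ρ + (σ - ρ) / 2) * k)) * Real.exp (-σ * ((k : ℝ) - 1)) := by
        refine mul_le_mul_of_nonneg_right ?_ (Real.exp_pos _).le
        refine le_trans ?_ (hb k)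
        rw [Finset.sum_coe_sort (rzA h k) (fun i => (N i k : ℝ))]
        exact Finset.sum_le_sum fun i _ => hN i k
    _ = C * Real.exp σ * Real.exp (-((σ - ρ) / 2) * k) := by
        have : Real.exp ((ρ + (σ - ρ) / 2) * k) * Real.exp (-σ * ((k : ℝ) - 1)) =
            Real.exp σ * Real.exp (-((σ - ρ) / 2) * k) := by
          rw [← Real.exp_add, ← Real.exp_add]
          congr 1
          ring
        rw [mul_assoc, this]
        ring

/-- the zeros -/
structure RzD (p : ℕ) (ρ C : ℝ) {ι : Type} (r : ι → ℝ → ℝ) (N : ι → ℕ → ℕ)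
    (τ : (i : ι) → (k : ℕ) → Fin (N i k) → ℝ) : Prop where
  mem : ∀ (i : ι) (k : ℕ) (n : Fin (N i k)), τ i k n ∈ Icc ((k : ℝ) - 1) ((k : ℝ) - 1 + 2)
  card : ∀ i k, (N i k : ℝ) ≤ ∫ t, rzC r i k t * Real.exp (ρ * t)
  near : ∀ (i : ι) (k : ℕ), ∀ δ ∈ Ioo (0 : ℝ) (1 / 4), ∀ ψ t₀ : ℝ, |t₀ - ((k : ℝ) - 1)| ≤ 4 →
    |∑ n, kq p δ (t₀ - τ i k n) ψ - Real.exp (ρ * t₀) *
      ∫ u : ℝ, kq p δ u ψ * Real.exp (-ρ * u) * rzC r i k (t₀ - u)| ≤ C / δ
  far : ∀ (i : ι) (k : ℕ), ∀ δ ∈ Ioo (0 : ℝ) (1 / 4), ∀ ψ t₀ : ℝ, 4 < |t₀ - ((k : ℝ) - 1)| →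
    |∑ n, kq p δ (t₀ - τ i k n) ψ - Real.exp (ρ * t₀) *
      ∫ u : ℝ, kq p δ u ψ * Real.exp (-ρ * u) * rzC r i k (t₀ - u)| ≤
        C * Real.exp (ρ * (t₀ - ((k : ℝ) - 1))) * Real.exp (-(sg p ρ) * |t₀ - ((k : ℝ) - 1)|)

theorem rz_exists (hp : p ≤ 1) (h1 : (p : ℝ) < ρ) (h2 : ρ < p + 1) (h : Dens p α r S B) :
    ∃ C : ℝ, 0 < C ∧ ∃ (N : ι → ℕ → ℕ) (τ : (i : ι) → (k : ℕ) → Fin (N i k) → ℝ),
      RzD p ρ C r N τ := by
  obtain ⟨C, hC, H⟩ := exists_block_loc hp h1 h2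
  choose N τ h3 h4 h5 using fun x : ι × ℕ => H (rzC r x.1 x.2) ((x.2 : ℝ) - 1)
    (rzC_cont h x.1 x.2) (rzC_nn h x.1 x.2) (fun t ht => rzC_supp x.1 x.2 ht)
  exact ⟨C, hC, fun i k => N (i, k), fun i k => τ (i, k), ⟨fun i k n => h3 (i, k) n,
    fun i k => h4 (i, k), fun i k δ hδ ψ t₀ ht => (h5 (i, k) δ hδ ψ t₀).1 ht,
    fun i k δ hδ ψ t₀ ht => (h5 (i, k) δ hδ ψ t₀).2 ht⟩⟩

theorem rz_kq_summ (hp : p ≤ 1) (h1 : (p : ℝ) < ρ) (h2 : ρ < p + 1) (h : Dens p α r S B)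
    {C : ℝ} {N : ι → ℕ → ℕ} {τ : (i : ι) → (k : ℕ) → Fin (N i k) → ℝ} (D : RzD p ρ C r N τ)
    {δ : ℝ} (hδ : δ ∈ Ioo (0 : ℝ) 1) (t θ : ℝ) :
    Summable fun x : RzI h N => kq p δ (t - τ x.2.1.1 x.1 x.2.2) (θ - α x.2.1.1) := by
  have hρ : 0 < ρ := lt_of_le_of_lt (Nat.cast_nonneg p) h1
  obtain ⟨C', hC', hb⟩ := abs_kq_le hp hδ (σ := (ρ + (p + 1)) / 2) (by linarith) (by linarith)
  have hS := (rz_summ h hρ D.card D.mem (σ := (ρ + (p + 1)) / 2) (by linarith)).mul_left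
    (C' * Real.exp ((ρ + (p + 1)) / 2 * t))
  refine Summable.of_norm_bounded hS fun x => ?_
  rw [Real.norm_eq_abs]
  refine (hb _ _).trans (le_of_eq ?_)
  rw [mul_assoc, ← Real.exp_add]
  congr 2
  ring

theorem rz_err (hp : p ≤ 1) (h1 : (p : ℝ) < ρ) (h2 : ρ < p + 1) [Countable ι]
    (h : Dens p α r S B) {C : ℝ} (hC : 0 < C) {N : ι → ℕ → ℕ}
    {τ : (i : ι) → (k : ℕ) → Fin (N i k) → ℝ} (D : RzD p ρ C r N τ) {κ : ℝ} (hκ : 0 < κ)
    (hc : 0 < ρ - sg p ρ - κ) :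
    ∃ K : ℝ, 0 < K ∧ ∀ δ ∈ Ioo (0 : ℝ) (1 / 4), ∀ t : ℝ, 0 ≤ t → ∀ θ : ℝ,
      |∑' x : RzI h N, kq p δ (t - τ x.2.1.1 x.1 x.2.2) (θ - α x.2.1.1) -
        Real.exp (ρ * t) * ∑' i, ∫ u, kq p δ u (θ - α i) * Real.exp (-ρ * u) * r i (t - u)| ≤
        K * (Real.exp (2 * κ * t) / δ + Real.exp ((ρ - sg p ρ / 2) * t)) := by
  have hs := sg_pos h1 h2
  obtain ⟨A, hA, hcard⟩ := dens_card h hκ
  set c : ℝ := ρ - sg p ρ - κ with hcdef
  have s1 := rz_summ_exp hκ
  have s2 := rz_summ_exp hc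
  set Z1 : ℝ := ∑' k : ℕ, Real.exp (-κ * k) with hZ1
  set Z2 : ℝ := ∑' k : ℕ, Real.exp (-c * k) with hZ2
  have hZ1n : 0 ≤ Z1 := tsum_nonneg fun k => (Real.exp_pos _).le
  have hZ2n : 0 ≤ Z2 := tsum_nonneg fun k => (Real.exp_pos _).le
  refine ⟨C * A * Real.exp (11 * κ) * (Z1 + 1) + C * A * Real.exp (2 * κ + c) * (Z2 + 1),
    by positivity, fun δ hδ t ht θ => ?_⟩
  have hδ1 : δ ∈ Ioo (0 : ℝ) 1 := ⟨hδ.1, by linarith [hδ.2]⟩
  have a1 := (rz_kq_summ hp h1 h2 h D hδ1 t θ).hasSum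
  have a2 := a1.sigma (fun k => hasSum_fintype _)
  have a3 := (rz_P hp h1 h2 h hδ1 t θ).mul_left (Real.exp (ρ * t))
  have a4 := a2.sub a3
  have b1 := (s1.hasSum.mul_left (C * A * Real.exp (11 * κ) * (Real.exp (2 * κ * t) / δ))).add
    (s2.hasSum.mul_left (C * A * Real.exp (2 * κ + c) * Real.exp ((ρ - sg p ρ / 2) * t)))
  have key := a4.norm_le_of_bounded b1 ?_
  · rw [Real.norm_eq_abs] at key
    refine key.trans ?_
    rw [← hZ1, ← hZ2]
    have e1 : 0 ≤ Real.exp (2 * κ * t) / δ := div_nonneg (Real.exp_pos _).le hδ.1.le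
    have e2 : 0 ≤ Real.exp ((ρ - sg p ρ / 2) * t) := (Real.exp_pos _).le
    have g1 : 0 ≤ C * A * Real.exp (11 * κ) := by positivity
    have g2 : 0 ≤ C * A * Real.exp (2 * κ + c) := by positivity
    set E1 := Real.exp (2 * κ * t) / δ
    set E2 := Real.exp ((ρ - sg p ρ / 2) * t)
    set G1 := C * A * Real.exp (11 * κ)
    set G2 := C * A * Real.exp (2 * κ + c)
    have m1 := mul_nonneg (mul_nonneg g1 hZ1n) e2
    have m2 := mul_nonneg (mul_nonneg g2 hZ2n) e1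
    have m3 := mul_nonneg g1 e1
    have m4 := mul_nonneg g2 e2
    have m5 := mul_nonneg g1 e2
    have m6 := mul_nonneg g2 e1
    nlinarith
  · intro k
    rw [Real.norm_eq_abs]
    have e1 : ∑ x : (Σ i : rzA h k, Fin (N i.1 k)), kq p δ (t - τ x.1.1 k x.2) (θ - α x.1.1) =
        ∑ i ∈ rzA h k, ∑ n, kq p δ (t - τ i k n) (θ - α i) := by
      rw [Fintype.sum_sigma]
      exact Finset.sum_coe_sort (rzA h k)
        (fun i => ∑ n, kq p δ (t - τ i k n) (θ - α i))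
    have e2 : (∑ x : (Σ i : rzA h k, Fin (N i.1 k)), kq p δ (t - τ x.1.1 k x.2) (θ - α x.1.1)) -
        Real.exp (ρ * t) * ∑ i ∈ rzA h k, ∫ u, kq p δ u (θ - α i) * Real.exp (-ρ * u) *
          rzC r i k (t - u) = ∑ i ∈ rzA h k, (∑ n, kq p δ (t - τ i k n) (θ - α i) -
          Real.exp (ρ * t) * ∫ u, kq p δ u (θ - α i) * Real.exp (-ρ * u) *
            rzC r i k (t - u)) := by
      rw [e1, Finset.mul_sum, Finset.sum_sub_distrib]
    set E : ℝ := if |t - ((k : ℝ) - 1)| ≤ 4 then C / δ else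
      C * Real.exp (ρ * (t - ((k : ℝ) - 1))) * Real.exp (-(sg p ρ) * |t - ((k : ℝ) - 1)|) with hE
    have hEi : ∀ i ∈ rzA h k, |∑ n, kq p δ (t - τ i k n) (θ - α i) -
          Real.exp (ρ * t) * ∫ u, kq p δ u (θ - α i) * Real.exp (-ρ * u) *
            rzC r i k (t - u)| ≤ E := by
      intro i _
      rw [hE]
      split_ifs with hif
      · exact D.near i k δ hδ _ t hif
      · exact D.far i k δ hδ _ t (not_le.1 hif)
    have hn : ((rzA h k).card : ℝ) ≤ A * Real.exp (κ * ((k : ℝ) + 1)) := by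
      have := hcard ((k : ℝ) + 1) (rzA h k) (fun i hi => (mem_rzA h).1 hi)
      rwa [abs_of_nonneg (by positivity)] at this
    have key := rz_err_aux hκ hs hcdef hC hA hδ.1 ht k (E := E)
      (n := ((rzA h k).card : ℝ)) (Nat.cast_nonneg _) hn (fun hle => by rw [hE, if_pos hle])
      (fun hgt => by rw [hE, if_neg (not_le.2 hgt)])
    refine le_trans ?_ key
    refine (le_of_eq (congrArg abs e2)).trans ?_
    refine (Finset.abs_sum_le_sum_abs _ _).trans ?_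
    refine (Finset.sum_le_sum hEi).trans (le_of_eq ?_)
    rw [Finset.sum_const, nsmul_eq_mul]

theorem rz_avg {p : ℕ} {J : Type} [Countable J] {s a : J → ℝ} {C : ℝ} (hC : 0 < C)
    (hq : ∀ δ ∈ Ioo (0 : ℝ) (1 / 2), ∀ ψ : ℝ,
      (∀ u : ℝ, u ≠ 0 → 0 ≤ kq p δ u ψ - kp p u ψ) ∧
      (∀ u : ℝ, 4 * δ < |u| → kq p δ u ψ = kp p u ψ) ∧
      Integrable (fun u : ℝ => (kq p δ u ψ - kp p u ψ) * Real.exp (-0 * u)) ∧
      ∫ u : ℝ, (kq p δ u ψ - kp p u ψ) * Real.exp (-0 * u) ≤ C * δ)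
    {σ : ℝ} (hσ : 0 < σ) (hs : Summable fun x => Real.exp (-σ * s x))
    {δ η t θ : ℝ} (hδ0 : 0 < δ) (hδ : δ ≤ 1 / 8) (hη0 : 0 < η) (hη : η ≤ 1 / 4)
    (hsum : ∀ t', t' ∉ range s → Summable fun x => kq p δ (t' - s x) (θ - a x) -
      kp p (t' - s x) (θ - a x)) :
    ∃ t' ∈ Icc t (t + η), t' ∉ range s ∧
      ∑' x, (kq p δ (t' - s x) (θ - a x) - kp p (t' - s x) (θ - a x)) ≤
        (C * δ * Real.exp (σ * (t + 2)) * ∑' x, Real.exp (-σ * s x)) / η := by
  set F : J → ℝ → ℝ := fun x t' => kq p δ (t' - s x) (θ - a x) - kp p (t' - s x) (θ - a x)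
    with hF
  have hmeas : ∀ x, Measurable (F x) := by
    intro x
    have m1 := (knt_meas_kq p δ (θ - a x)).comp (measurable_id.sub_const (s x))
    have m2 := (knt_meas_kp p (θ - a x)).comp (measurable_id.sub_const (s x))
    exact m1.sub m2
  set b : J → ℝ := fun x => C * δ * Real.exp (σ * (t + 2)) * Real.exp (-σ * s x) with hbdef
  have hb0 : ∀ x, 0 ≤ b x := fun x => by positivity
  have hbs : Summable b := hs.mul_left _
  have hδI : δ ∈ Ioo (0 : ℝ) (1 / 2) := ⟨hδ0, by linarith⟩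
  have hb : ∀ x, ∫⁻ t' in Icc t (t + η), ENNReal.ofReal (F x t') ≤ ENNReal.ofReal (b x) := by
    intro x
    obtain ⟨q1, q2, q3, q4⟩ := hq δ hδI (θ - a x)
    have e0 : ∀ u : ℝ, (kq p δ u (θ - a x) - kp p u (θ - a x)) * Real.exp (-0 * u) =
        kq p δ u (θ - a x) - kp p u (θ - a x) := by
      intro u
      rw [neg_zero, zero_mul, Real.exp_zero, mul_one]
    simp only [e0] at q3 q4
    by_cases hx : s x ≤ t + 2
    · have c1 : ∫⁻ t' in Icc t (t + η), ENNReal.ofReal (F x t') ≤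
          ∫⁻ t', ENNReal.ofReal (F x t') := setLIntegral_le_lintegral _ _
      have c2 : ∫⁻ t', ENNReal.ofReal (F x t') =
          ∫⁻ u, ENNReal.ofReal (kq p δ u (θ - a x) - kp p u (θ - a x)) :=
        lintegral_sub_right_eq_self
          (fun u => ENNReal.ofReal (kq p δ u (θ - a x) - kp p u (θ - a x))) (s x)
      have c3 : ∫⁻ u, ENNReal.ofReal (kq p δ u (θ - a x) - kp p u (θ - a x)) =
          ENNReal.ofReal (∫ u, (kq p δ u (θ - a x) - kp p u (θ - a x))) := by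
        refine (ofReal_integral_eq_lintegral_ofReal q3 ?_).symm
        filter_upwards [knt_ae_ne] with u hu
        exact q1 u hu
      rw [c2, c3] at c1
      refine c1.trans (ENNReal.ofReal_le_ofReal (q4.trans ?_))
      rw [hbdef]
      have : 1 ≤ Real.exp (σ * (t + 2)) * Real.exp (-σ * s x) := by
        rw [← Real.exp_add]
        apply Real.one_le_exp
        nlinarith
      have h3 : 0 ≤ C * δ := by positivity
      calc C * δ = C * δ * 1 := by ring
        _ ≤ C * δ * (Real.exp (σ * (t + 2)) * Real.exp (-σ * s x)) :=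
          mul_le_mul_of_nonneg_left this h3
        _ = _ := by ring
    · have c1 : ∫⁻ t' in Icc t (t + η), ENNReal.ofReal (F x t') =
          ∫⁻ _t' in Icc t (t + η), 0 := by
        refine setLIntegral_congr_fun measurableSet_Icc fun t' ht' => ?_
        have : F x t' = 0 := by
          rw [hF]
          simp only
          rw [q2 (t' - s x) ?_, sub_self]
          rw [lt_abs]
          right
          have := ht'.2
          rw [not_le] at hx
          linarith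
        simp only [this, ENNReal.ofReal_zero]
      rw [c1, lintegral_zero]
      exact zero_le
  have htot : ∫⁻ t' in Icc t (t + η), ∑' x, ENNReal.ofReal (F x t') ≤
      ENNReal.ofReal (∑' x, b x) := by
    rw [lintegral_tsum fun x => ((hmeas x).ennreal_ofReal).aemeasurable,
      ENNReal.ofReal_tsum_of_nonneg hb0 hbs]
    exact ENNReal.tsum_le_tsum hb
  have hvol : volume (Icc t (t + η)) = ENNReal.ofReal η := by
    rw [Real.volume_Icc]
    congr 1
    ring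
  have hμ0 : volume.restrict (Icc t (t + η)) ≠ 0 := by
    intro h0
    rw [Measure.restrict_eq_zero, hvol, ENNReal.ofReal_eq_zero] at h0
    linarith
  have hN : volume.restrict (Icc t (t + η)) (range s ∪ (Icc t (t + η))ᶜ) = 0 := by
    refine measure_union_null ?_ ?_
    · exact (countable_range s).measure_zero _
    · rw [Measure.restrict_apply measurableSet_Icc.compl, compl_inter_self, measure_empty]
  have hgm : Measurable fun t' => ∑' x, ENNReal.ofReal (F x t') :=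
    Measurable.tsum fun x => (hmeas x).ennreal_ofReal
  obtain ⟨t', ht', hle⟩ := exists_notMem_null_le_laverage hμ0 hgm.aemeasurable hN
  rw [mem_union, not_or, mem_compl_iff, not_not] at ht'
  refine ⟨t', ht'.2, ht'.1, ?_⟩
  have hne : ∀ x, t' - s x ≠ 0 := by
    intro x h0
    exact ht'.1 ⟨x, by linarith⟩
  have hFnn : ∀ x, 0 ≤ F x t' := fun x => (hq δ hδI (θ - a x)).1 _ (hne x)
  rw [laverage_eq, Measure.restrict_apply_univ, hvol] at hle
  have h5 : ENNReal.ofReal (∑' x, F x t') ≤ ENNReal.ofReal ((∑' x, b x) / η) := by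
    rw [ENNReal.ofReal_tsum_of_nonneg hFnn (hsum t' ht'.1), ENNReal.ofReal_div_of_pos hη0]
    exact hle.trans (ENNReal.div_le_div_right htot _)
  have h6 := (ENNReal.ofReal_le_ofReal_iff
    (div_nonneg (tsum_nonneg hb0) hη0.le)).1 h5
  refine h6.trans (le_of_eq ?_)
  rw [hbdef, tsum_mul_left]

theorem rz_closed {O Z F : Set ℝ} (hO : IsOpen O) (hZ : Z.Countable) (hF : IsClosed F)
    (h : ∀ t ∈ O, t ∉ Z → t ∈ F) : O ⊆ F := by
  have h1 : Dense Zᶜ := hZ.dense_compl ℝ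
  refine (h1.open_subset_closure_inter hO).trans (closure_minimal ?_ hF)
  rintro t ⟨ht1, ht2⟩
  exact h t ht1 ht2

theorem rz_tend {c : ℝ} (hc : 0 < c) (K : ℝ) :
    Tendsto (fun t : ℝ => K * Real.exp (-c * t)) atTop (𝓝 0) := by
  have h1 : Tendsto (fun t : ℝ => c * t) atTop atTop := tendsto_id.const_mul_atTop hc
  have h2 := (Real.tendsto_exp_neg_atTop_nhds_zero.comp h1).const_mul K
  rw [mul_zero] at h2
  refine h2.congr fun t => ?_
  simp only [Function.comp]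
  congr 2
  ring

theorem rz_alg' {E Q L P d ε A1 A2 A3 K : ℝ} (u1 : L ≤ Q)
    (u2 : Q - E * P ≤ K * (E * (8 * A2) + E * A3)) (u5 : E * P ≤ E * (d + A1))
    (u6 : E * (A1 + K * 8 * A2 + K * A3) < E * ε) : L ≤ E * (d + ε) := by
  linarith [mul_add E d A1, mul_add E (A1 + K * 8 * A2) (K * A3), mul_add E A1 (K * 8 * A2),
    mul_add E d ε]

theorem rz_alg {E Q L P d ε A0 A1 A2 A3 X Y : ℝ} (hav : Q - L ≤ X) (g1 : X ≤ E * A1)
    (u2 : -Y ≤ Q - E * P) (g4 : Y ≤ E * (A2 + A3)) (w1 : E * (d - A0) ≤ E * P)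
    (w2 : E * (A0 + A1 + A2 + A3) < E * ε) : E * (d - ε) ≤ L := by
  linarith [mul_add E A2 A3, mul_sub E d A0, mul_sub E d ε, mul_add E (A0 + A1 + A2) A3,
    mul_add E (A0 + A1) A2, mul_add E A0 A1]

/-- `realize` with the zeros of the product -/
theorem realize_data {p : ℕ} (hp : p ≤ 1) {ρ : ℝ} (h1 : (p : ℝ) < ρ) (h2 : ρ < p + 1) {ι : Type}
    [Countable ι] {α : ι → ℝ} {r : ι → ℝ → ℝ} {S B : ι → ℝ} (h : Dens p α r S B) :
    ∃ f : ℂ → ℂ, Pre ρ f ∧
      (∃ (K : Type) (_ : Countable K) (τ al : K → ℝ), (∀ k, ∃ i, al k = α i) ∧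
        ∀ t θ : ℝ, (∀ k, t ≠ τ k ∨ ∀ m : ℤ, θ - al k ≠ m * (2 * π)) →
          f (ray (Real.exp t) θ) ≠ 0 ∧
            HasSum (fun k => kp p (t - τ k) (θ - al k)) (Real.log ‖f (ray (Real.exp t) θ)‖)) ∧
      (∀ ε : ℝ, 0 < ε → ∀ᶠ t : ℝ in atTop, ∀ θ : ℝ, ‖f (ray (Real.exp t) θ)‖ ≤
        Real.exp (Real.exp (ρ * t) * (dpot p ρ α r t θ + ε))) ∧
      ∀ ε : ℝ, 0 < ε → ∀ᶠ t : ℝ in atTop, ∀ θ : ℝ, ∃ t' ∈ Icc t (t + ε),
        Real.exp (Real.exp (ρ * t') * (dpot p ρ α r t θ - ε)) ≤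
          ‖f (ray (Real.exp t') θ)‖ := by
  have hs := sg_pos h1 h2
  have hsl := (sg_le (p := p) (ρ := ρ)).1
  have hρ : 0 < ρ := lt_of_le_of_lt (Nat.cast_nonneg p) h1
  have hp0 : (0 : ℝ) ≤ p := Nat.cast_nonneg p
  set κ : ℝ := sg p ρ / 8 with hκdef
  have hκ : 0 < κ := by positivity
  have h6 : 0 < ρ - 6 * κ := by rw [hκdef]; linarith
  obtain ⟨C, hC, N, τ, D⟩ := rz_exists hp h1 h2 h
  obtain ⟨K, hK, herr⟩ := rz_err hp h1 h2 h hC D hκ (by rw [hκdef]; linarith)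
  obtain ⟨C2, hC2, hkq⟩ := dpot_kq hp h1 h2 h hκ
  obtain ⟨C3, hC3, hsh⟩ := dpot_shift hp h1 h2 h (κ := κ / 4) (by positivity)
  obtain ⟨C5, hC5, hsub⟩ := kq_sub (p := p) 0
  set s : RzI h N → ℝ := fun x => τ x.2.1.1 x.1 x.2.2 with hsdef
  set a : RzI h N → ℝ := fun x => α x.2.1.1 with hadef
  obtain ⟨f, hf, hfz⟩ := exists_product_pt hp h1 h2 (τ := s) (α := a) (fun x => h.ang _)
    (fun σ hσ => rz_summ h hρ D.card D.mem hσ)
  have hval : ∀ t, t ∉ range s → ∀ θ : ℝ, f (ray (Real.exp t) θ) ≠ 0 ∧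
      HasSum (fun x => kp p (t - s x) (θ - a x)) (Real.log ‖f (ray (Real.exp t) θ)‖) :=
    fun t ht θ => hfz t θ fun x => Or.inl fun hx => ht ⟨x, hx.symm⟩
  have hqs : ∀ δ ∈ Ioo (0 : ℝ) 1, ∀ t θ, Summable fun x => kq p δ (t - s x) (θ - a x) :=
    fun δ hδ t θ => rz_kq_summ hp h1 h2 h D hδ t θ
  -- the scales
  have hδ : ∀ t : ℝ, 0 ≤ t → Real.exp (-(4 * κ) * t) / 8 ∈ Ioo (0 : ℝ) (1 / 4) := by
    intro t ht
    have : Real.exp (-(4 * κ) * t) ≤ 1 := Real.exp_le_one_iff.2 (by nlinarith)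
    exact ⟨by positivity, by linarith⟩
  have hray : Continuous fun t : ℝ => ray (Real.exp t) := by
    refine continuous_pi fun θ => ?_
    unfold ray
    fun_prop
  refine ⟨f, hf, ⟨RzI h N, inferInstance, s, a, fun k => ⟨k.2.1.1, rfl⟩, hfz⟩,
    fun ε hε => ?_, fun ε hε => ?_⟩
  · -- upper bound
    have l1 := rz_tend (c := 3 * κ) (by positivity) (C2 / 8)
    have l2 := rz_tend h6 (K * 8)
    have l3 := rz_tend (c := sg p ρ / 2) (by positivity) K
    have l4 := (l1.add l2).add l3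
    rw [add_zero, add_zero] at l4
    obtain ⟨T, hT⟩ := eventually_atTop.1 (l4.eventually (gt_mem_nhds hε))
    filter_upwards [eventually_gt_atTop (max T 0)] with t₀ ht₀ θ
    have hO : IsOpen (Ioi (max T 0)) := isOpen_Ioi
    have hcl : IsClosed {t : ℝ | ‖f (ray (Real.exp t) θ)‖ ≤
        Real.exp (Real.exp (ρ * t) * (dpot p ρ α r t θ + ε))} := by
      have c1 : Continuous fun t : ℝ => ray (Real.exp t) θ := by
        unfold ray
        fun_prop
      have c2 := dpot_cont hp h1 h2 h θ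
      refine isClosed_le (hf.entire.continuous.comp c1).norm ?_
      fun_prop
    refine rz_closed hO (countable_range s) hcl (fun t ht htz => ?_) ht₀
    rw [mem_Ioi, max_lt_iff] at ht
    obtain ⟨htT, ht0⟩ := ht
    obtain ⟨hne, hlog⟩ := hval t htz θ
    set δ : ℝ := Real.exp (-(4 * κ) * t) / 8 with hδdef
    have hδt := hδ t ht0.le
    rw [← hδdef] at hδt
    have hδ1 : δ ∈ Ioo (0 : ℝ) 1 := ⟨hδt.1, by linarith [hδt.2]⟩
    have u1 : Real.log ‖f (ray (Real.exp t) θ)‖ ≤ ∑' x, kq p δ (t - s x) (θ - a x) := by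
      refine hasSum_le (fun x => ?_) hlog (hqs δ hδ1 t θ).hasSum
      refine kp_le_kq ?_ _
      intro h0
      exact htz ⟨x, by linarith⟩
    have u2 := (abs_le.1 (herr δ hδt t ht0.le θ)).2
    have u3 := (hkq δ hδt t θ).2.2
    rw [abs_of_pos ht0] at u3
    have u4 := hT t htT.le
    have g1 : C2 * Real.exp (κ * t) * δ = C2 / 8 * Real.exp (-(3 * κ) * t) := by
      have : Real.exp (κ * t) * Real.exp (-(4 * κ) * t) = Real.exp (-(3 * κ) * t) := by
        rw [← Real.exp_add]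
        congr 1
        ring
      rw [hδdef, ← this]
      ring
    have g2 : Real.exp (2 * κ * t) / δ = Real.exp (ρ * t) * (8 * Real.exp (-(ρ - 6 * κ) * t)) := by
      have e1 : Real.exp (2 * κ * t) = Real.exp (ρ * t) * Real.exp (-(ρ - 6 * κ) * t) *
          Real.exp (-(4 * κ) * t) := by
        rw [← Real.exp_add, ← Real.exp_add]
        congr 1
        ring
      rw [hδdef, e1]
      field_simp
    have g3 : Real.exp ((ρ - sg p ρ / 2) * t) =
        Real.exp (ρ * t) * Real.exp (-(sg p ρ / 2) * t) := by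
      rw [← Real.exp_add]
      congr 1
      ring
    rw [g1] at u3
    rw [g2, g3] at u2
    have hE := Real.exp_pos (ρ * t)
    set P := ∑' i, ∫ u, kq p δ u (θ - α i) * Real.exp (-ρ * u) * r i (t - u)
    have u5 : Real.exp (ρ * t) * P ≤ Real.exp (ρ * t) * (dpot p ρ α r t θ +
        C2 / 8 * Real.exp (-(3 * κ) * t)) :=
      mul_le_mul_of_nonneg_left (by linarith) hE.le
    have u6 := mul_lt_mul_of_pos_left u4 hE
    have u7 : Real.log ‖f (ray (Real.exp t) θ)‖ ≤ Real.exp (ρ * t) * (dpot p ρ α r t θ + ε) :=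
      rz_alg' u1 u2 u5 u6
    rw [mem_ofPred_eq, ← Real.exp_log (norm_pos_iff.2 hne)]
    exact Real.exp_le_exp.2 u7
  · -- lower bound
    set Z : ℝ := ∑' x, Real.exp (-(ρ + κ) * s x) with hZ
    have hZs : Summable fun x => Real.exp (-(ρ + κ) * s x) :=
      rz_summ h hρ D.card D.mem (by linarith)
    have l0 := rz_tend (c := κ / 4) (by positivity) C3
    have l1 := rz_tend (c := 2 * κ) (by positivity) (C5 / 8 * Z * Real.exp (2 * (ρ + κ)))
    have l2 := rz_tend h6 (K * 8)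
    have l3 := rz_tend (c := sg p ρ / 2) (by positivity) K
    have l4 := ((l0.add l1).add l2).add l3
    rw [add_zero, add_zero, add_zero] at l4
    have l5 := rz_tend hκ 1
    have hε' : 0 < min ε (1 / 4) := lt_min hε (by norm_num)
    filter_upwards [l4.eventually (gt_mem_nhds hε), l5.eventually (gt_mem_nhds hε'),
      eventually_ge_atTop 0] with t u4 hη ht0 θ
    rw [one_mul] at hη
    set η : ℝ := Real.exp (-κ * t) with hηdef
    have hη0 : 0 < η := Real.exp_pos _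
    have hηε : η ≤ ε := (hη.le).trans (min_le_left _ _)
    have hη4 : η ≤ 1 / 4 := (hη.le).trans (min_le_right _ _)
    set δ : ℝ := Real.exp (-(4 * κ) * t) / 8 with hδdef
    have hδt := hδ t ht0
    rw [← hδdef] at hδt
    have hδ8 : δ ≤ 1 / 8 := by
      have : Real.exp (-(4 * κ) * t) ≤ 1 := Real.exp_le_one_iff.2 (by nlinarith)
      rw [hδdef]
      linarith
    have hδ1 : δ ∈ Ioo (0 : ℝ) 1 := ⟨hδt.1, by linarith [hδt.2]⟩
    obtain ⟨t', ht', htz, hav⟩ := rz_avg (p := p) (s := s) (a := a) hC5 hsub (σ := ρ + κ)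
      (by positivity) hZs hδt.1 hδ8 hη0 hη4 (t := t) (θ := θ)
      (fun t' ht' => (hqs δ hδ1 t' θ).sub (hval t' ht' θ).2.summable)
    obtain ⟨hne, hlog⟩ := hval t' htz θ
    have htt : t ≤ t' := ht'.1
    have ht'0 : 0 ≤ t' := ht0.trans htt
    refine ⟨t', ⟨ht'.1, ht'.2.trans (by linarith)⟩, ?_⟩
    have u1 : ∑' x, (kq p δ (t' - s x) (θ - a x) - kp p (t' - s x) (θ - a x)) =
        ∑' x, kq p δ (t' - s x) (θ - a x) - Real.log ‖f (ray (Real.exp t') θ)‖ := by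
      rw [(hqs δ hδ1 t' θ).tsum_sub hlog.summable, hlog.tsum_eq]
    rw [u1] at hav
    have u2 := (abs_le.1 (herr δ hδt t' ht'0 θ)).1
    have u3 := (hkq δ hδt t' θ).2.1
    have hv : t' - t ≤ η := by linarith [ht'.2]
    have u5 := hsh t (t' - t) θ (by linarith) (by linarith)
    rw [add_sub_cancel, abs_of_nonneg ht0] at u5
    have u6 : √(t' - t) ≤ Real.exp (-(κ / 2) * t) := by
      have e1 : Real.exp (-(κ / 2) * t) = √η := by
        rw [hηdef, show -κ * t = -(κ / 2) * t + -(κ / 2) * t by ring, Real.exp_add,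
          Real.sqrt_mul_self (Real.exp_pos _).le]
      rw [e1]
      exact Real.sqrt_le_sqrt hv
    have u7 : C3 * Real.exp (κ / 4 * t) * √(t' - t) ≤ C3 * Real.exp (-(κ / 4) * t) := by
      have e1 : Real.exp (-(κ / 4) * t) = Real.exp (κ / 4 * t) * Real.exp (-(κ / 2) * t) := by
        rw [← Real.exp_add]
        congr 1
        ring
      rw [e1, ← mul_assoc]
      exact mul_le_mul_of_nonneg_left u6 (by positivity)
    have u8 := (abs_le.1 (u5.trans u7)).1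
    -- the scales at `t'`
    have hE := Real.exp_pos (ρ * t')
    have hEE : Real.exp (ρ * t) ≤ Real.exp (ρ * t') :=
      Real.exp_le_exp.2 (mul_le_mul_of_nonneg_left htt hρ.le)
    have g1 : (C5 * δ * Real.exp ((ρ + κ) * (t + 2)) * Z) / η ≤
        Real.exp (ρ * t') * (C5 / 8 * Z * Real.exp (2 * (ρ + κ)) * Real.exp (-(2 * κ) * t)) := by
      have hZ0 : 0 ≤ Z := tsum_nonneg fun x => (Real.exp_pos _).le
      have e1 : (C5 * δ * Real.exp ((ρ + κ) * (t + 2)) * Z) / η =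
          Real.exp (ρ * t) *
            (C5 / 8 * Z * Real.exp (2 * (ρ + κ)) * Real.exp (-(2 * κ) * t)) := by
        have e2 : Real.exp (-(4 * κ) * t) * Real.exp ((ρ + κ) * (t + 2)) =
            Real.exp (ρ * t) * Real.exp (2 * (ρ + κ)) * Real.exp (-(2 * κ) * t) *
              Real.exp (-κ * t) := by
          rw [← Real.exp_add, ← Real.exp_add, ← Real.exp_add, ← Real.exp_add]
          congr 1
          ring
        rw [div_eq_iff hη0.ne', hδdef, hηdef]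
        calc C5 * (Real.exp (-(4 * κ) * t) / 8) * Real.exp ((ρ + κ) * (t + 2)) * Z
            = C5 / 8 * Z * (Real.exp (-(4 * κ) * t) * Real.exp ((ρ + κ) * (t + 2))) := by ring
          _ = _ := by rw [e2]; ring
      rw [e1]
      exact mul_le_mul_of_nonneg_right hEE (by positivity)
    have g2 : Real.exp (2 * κ * t') / δ ≤
        Real.exp (ρ * t') * (8 * Real.exp (-(ρ - 6 * κ) * t)) := by
      rw [div_le_iff₀ hδt.1, hδdef]
      have e1 : Real.exp (ρ * t') * (8 * Real.exp (-(ρ - 6 * κ) * t)) *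
          (Real.exp (-(4 * κ) * t) / 8) = Real.exp (ρ * t' - (ρ - 2 * κ) * t) := by
        have : Real.exp (ρ * t' - (ρ - 2 * κ) * t) = Real.exp (ρ * t') *
            Real.exp (-(ρ - 6 * κ) * t) * Real.exp (-(4 * κ) * t) := by
          rw [← Real.exp_add, ← Real.exp_add]
          congr 1
          ring
        rw [this]
        ring
      rw [e1]
      apply Real.exp_le_exp.2
      have := mul_le_mul_of_nonneg_left htt (by linarith : (0 : ℝ) ≤ ρ - 2 * κ)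
      linarith
    have g3 : Real.exp ((ρ - sg p ρ / 2) * t') ≤
        Real.exp (ρ * t') * Real.exp (-(sg p ρ / 2) * t) := by
      rw [← Real.exp_add]
      apply Real.exp_le_exp.2
      have := mul_le_mul_of_nonneg_left htt (by linarith : (0 : ℝ) ≤ sg p ρ / 2)
      linarith
    have g4 : K * (Real.exp (2 * κ * t') / δ + Real.exp ((ρ - sg p ρ / 2) * t')) ≤
        Real.exp (ρ * t') * (K * 8 * Real.exp (-(ρ - 6 * κ) * t) +
          K * Real.exp (-(sg p ρ / 2) * t)) := by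
      have := mul_le_mul_of_nonneg_left (add_le_add g2 g3) hK.le
      refine this.trans (le_of_eq ?_)
      ring
    set P := ∑' i, ∫ u, kq p δ u (θ - α i) * Real.exp (-ρ * u) * r i (t' - u)
    have w1 : Real.exp (ρ * t') * (dpot p ρ α r t θ - C3 * Real.exp (-(κ / 4) * t)) ≤
        Real.exp (ρ * t') * P := mul_le_mul_of_nonneg_left (by linarith) hE.le
    have w2 := mul_lt_mul_of_pos_left u4 hE
    have w3 : Real.exp (ρ * t') * (dpot p ρ α r t θ - ε) ≤
        Real.log ‖f (ray (Real.exp t') θ)‖ := rz_alg hav g1 u2 g4 w1 w2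
    calc Real.exp (Real.exp (ρ * t') * (dpot p ρ α r t θ - ε))
        ≤ Real.exp (Real.log ‖f (ray (Real.exp t') θ)‖) := Real.exp_le_exp.2 w3
      _ = _ := Real.exp_log (norm_pos_iff.2 hne)

theorem realize {p : ℕ} (hp : p ≤ 1) {ρ : ℝ} (h1 : (p : ℝ) < ρ) (h2 : ρ < p + 1) {ι : Type}
    [Countable ι] {α : ι → ℝ} {r : ι → ℝ → ℝ} {S B : ι → ℝ} (h : Dens p α r S B) :
    ∃ f : ℂ → ℂ, Pre ρ f ∧
      (∀ ε : ℝ, 0 < ε → ∀ᶠ t : ℝ in atTop, ∀ θ : ℝ, ‖f (ray (Real.exp t) θ)‖ ≤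
        Real.exp (Real.exp (ρ * t) * (dpot p ρ α r t θ + ε))) ∧
      ∀ ε : ℝ, 0 < ε → ∀ᶠ t : ℝ in atTop, ∀ θ : ℝ, ∃ t' ∈ Icc t (t + ε),
        Real.exp (Real.exp (ρ * t') * (dpot p ρ α r t θ - ε)) ≤
          ‖f (ray (Real.exp t') θ)‖ := by
  obtain ⟨f, hf, -, hU, hL⟩ := realize_data hp h1 h2 h
  exact ⟨f, hf, hU, hL⟩

end HBInf
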