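import Pool.Agent.HBInf.ZDTools
import Pool.Agent.HBInd.Zeros
import Pool.Agent.HBInd.ZerosOne
import Pool.Agent.HBInd.SumIm

/-!
# The zero data of a function of the class, order between one and two

`f = c z^m g`, `g 0 = 1`. For every `σ ∈ (ρ, 2)`, `‖g z‖ ≤ exp (K r^σ)` for `‖z‖ ≤ r`, `r` large (`HasOrder.eventually`), so
with the intrinsic index type `ZI g`, `a = za g`: `∑ ‖a_i‖^{-σ'} < ∞` for all `σ' > ρ` (`count_zeros`), and
`log ‖f z‖ = log ‖c‖ + m log ‖z‖ + Re (B z) + ∑ KK 1 (z / a_i)` off the zeros (`hasSum_KK_one` in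
`Pool.Agent.HBInd.ZerosOneA`, `sums_one`; see the proof of `exists_zeros_one` in `Pool.Agent.HBInd.ZerosOne`). By
`summable_im` (its hypotheses are proved in the proof of `exists_zeros_one`; or apply `exists_zeros_one` only for
this) `γ_i = -Im (1/a_i) ≥ 0`, `∑ γ_i < ∞`. With `a_i = |a_i| e^{iφ_i}`, `φ_i ∈ [0, π]`: `γ_i = sin φ_i / |a_i|`.

Data: the `i` with `|a_i| ≥ 1`, `s i = log |a_i|`, `a i = 0` if `φ_i ≤ π/2`, otherwise `π`; `x_i = ± |a_i|` the
corresponding real number; `|1/a_i - 1/x_i| ≤ 2 γ_i`. The finitely many zeros with `|a_i| < 1` contribute `O(e^y)`,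
as do `log ‖c‖ + m log ‖z‖ + Re (B z)`. Let `z = ray (e^y) θ`, `w = z/a_i`, `w' = z/x_i`, `|w - w'| ≤ 2 e^y γ_i`.

(1) `sin θ < 0`: `a_i`, `x_i` are in the closed upper half-plane, so `‖1 - w‖ ≥ |sin θ|`, `‖1 - w'‖ ≥ |sin θ|` and
`|log ‖1 - w‖ - log ‖1 - w'‖| ≤ |w - w'| / |sin θ|`: the sum of the differences is `≤ C_θ e^y`.
(2) `sin θ = 0`, `z` real. If `z/x_i > 0`: `‖1 - w‖ ≥ |1 - |w|| = |1 - w'|` (so `f z ≠ 0` if `y ≠ s_i`), otherwise
`Re w ≤ 0`, `‖1 - w‖ ≥ 1`, `‖1 - w'‖ ≥ 1` and the logarithms differ by at most `|w - w'|`; the real parts `Re w`,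
`Re w'` differ by `|w - w'|`. Sum: `U ≤ log ‖f‖ + C e^y`.
(3) `sin θ > 0`: zeros with `|a_i| < e^y/8` or `|a_i| > 8 e^{y+1}`: for `t ∈ [y, y+1]` the segment from `w` to `w'` is in
`{|w| ≤ 1/4}` or in `{|w| ≥ 4}`, where the gradient of `KK 1` is bounded, so the sum of these differences is
`O(e^y)`. The others: at most `C e^{σy}` of them (`count_zeros`), `σ > ρ`, and for each
`∫_y^{y+1} |kp 1 (t - s_i) (θ - φ_i) - kp 1 (t - s_i) (θ - a i)| dt ≤ C √|φ_i - a i| ≤ C' √(sin φ_i)` (`kn_l1` with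
`v = 0`; `|t - s_i|` is bounded), and by Cauchy-Schwarz
`∑ √(sin φ_i) ≤ √(n ∑ sin φ_i) ≤ √(C e^{σy} · C e^y ∑ γ_i)`. Take `σ < 2ρ - 1` and `σ' = max 1 ((σ + 1)/2) < ρ`.
-/

namespace HBInf

open HBInd Complex Filter Topology Set MeasureTheory
open scoped Real ComplexConjugate

/-! ### elementary facts -/

theorem rp1_norm_ray (r θ : ℝ) (hr : 0 ≤ r) : ‖ray r θ‖ = r := by
  rw [ray, norm_mul, Complex.norm_exp_ofReal_mul_I, mul_one, Complex.norm_real,
    Real.norm_of_nonneg hr]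

theorem rp1_ray_re (r θ : ℝ) : (ray r θ).re = r * Real.cos θ := by
  rw [ray, Complex.re_ofReal_mul, Complex.exp_ofReal_mul_I_re]

theorem rp1_ray_im (r θ : ℝ) : (ray r θ).im = r * Real.sin θ := by
  rw [ray, Complex.im_ofReal_mul, Complex.exp_ofReal_mul_I_im]

/-- the argument of the real representative of `a` -/
noncomputable def rp1_ang (a : ℂ) : ℝ := if 0 ≤ a.re then 0 else π

/-- the real representative of `a` -/
noncomputable def rp1_x (a : ℂ) : ℂ := if 0 ≤ a.re then (‖a‖ : ℂ) else -(‖a‖ : ℂ)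

theorem rp1_norm_x (a : ℂ) : ‖rp1_x a‖ = ‖a‖ := by
  unfold rp1_x
  split_ifs
  · rw [Complex.norm_real, norm_norm]
  · rw [norm_neg, Complex.norm_real, norm_norm]

theorem rp1_x_ne {a : ℂ} (ha : a ≠ 0) : rp1_x a ≠ 0 := by
  rw [← norm_pos_iff, rp1_norm_x]
  exact norm_pos_iff.2 ha

theorem rp1_x_im (a : ℂ) : (rp1_x a).im = 0 := by
  unfold rp1_x
  split_ifs
  · exact Complex.ofReal_im _
  · rw [Complex.neg_im, Complex.ofReal_im, neg_zero]

theorem rp1_kp_a {a : ℂ} (ha : a ≠ 0) (y θ : ℝ) :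
    kp 1 (y - Real.log ‖a‖) (θ - Complex.arg a) = KK 1 (ray (Real.exp y) θ / a) := by
  unfold kp
  congr 1
  rw [eq_div_iff ha]
  have hn : 0 < ‖a‖ := norm_pos_iff.2 ha
  have e1 : (‖a‖ : ℂ) = Complex.exp (Real.log ‖a‖ : ℝ) := by
    rw [← Complex.ofReal_exp, Real.exp_log hn]
  have e3 : Complex.exp (Real.log ‖a‖ : ℝ) * Complex.exp ((Complex.arg a : ℂ) * I) = a := by
    rw [← e1]
    exact Complex.norm_mul_exp_arg_mul_I a
  have e4 : Complex.exp (((y - Real.log ‖a‖ : ℝ) : ℂ) + ((θ - Complex.arg a : ℝ) : ℂ) * I) *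
      (Complex.exp (Real.log ‖a‖ : ℝ) * Complex.exp ((Complex.arg a : ℂ) * I)) =
      ray (Real.exp y) θ := by
    rw [← Complex.exp_add, ← Complex.exp_add, ray, Complex.ofReal_exp, ← Complex.exp_add]
    congr 1
    push_cast
    ring
  rw [e3] at e4
  exact e4

theorem rp1_kp_x {a : ℂ} (ha : a ≠ 0) (y θ : ℝ) :
    kp 1 (y - Real.log ‖a‖) (θ - rp1_ang a) = KK 1 (ray (Real.exp y) θ / rp1_x a) := by
  unfold kp
  congr 1
  rw [eq_div_iff (rp1_x_ne ha)]
  have hn : 0 < ‖a‖ := norm_pos_iff.2 ha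
  have e1 : (‖a‖ : ℂ) = Complex.exp (Real.log ‖a‖ : ℝ) := by
    rw [← Complex.ofReal_exp, Real.exp_log hn]
  have e3 : rp1_x a = Complex.exp (Real.log ‖a‖ : ℝ) * Complex.exp ((rp1_ang a : ℂ) * I) := by
    unfold rp1_x rp1_ang
    split_ifs
    · rw [← e1]; simp
    · rw [← e1, Complex.exp_pi_mul_I]; ring
  rw [e3, ← Complex.exp_add, ← Complex.exp_add, ray, Complex.ofReal_exp, ← Complex.exp_add]
  congr 1
  push_cast
  ring

theorem rp1_gam_eq {a : ℂ} : -(1 / a).im = a.im / Complex.normSq a := by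
  rw [one_div, Complex.inv_im]
  ring

theorem rp1_inv_sub {a : ℂ} (ha : a ≠ 0) (him : 0 ≤ a.im) :
    ‖1 / a - 1 / rp1_x a‖ ≤ 2 * -(1 / a).im := by
  set b := 1 / a with hb
  have hn : 0 < ‖a‖ := norm_pos_iff.2 ha
  have hbn : ‖b‖ = 1 / ‖a‖ := by rw [hb, norm_div, norm_one]
  have hns : 0 < Complex.normSq a := Complex.normSq_pos.2 ha
  have hg : 0 ≤ -b.im := by
    rw [hb, rp1_gam_eq]
    positivity
  have habs : |b.im| = -b.im := by
    rw [abs_of_nonpos (by linarith)]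
  have hre : b.re = a.re / Complex.normSq a := by rw [hb, one_div, Complex.inv_re]
  have h1 : ‖b‖ ≤ |b.re| + |b.im| := Complex.norm_le_abs_re_add_abs_im b
  have h2 : |b.re| ≤ ‖b‖ := Complex.abs_re_le_norm b
  unfold rp1_x
  split_ifs with h
  · have hbre : 0 ≤ b.re := by rw [hre]; positivity
    rw [abs_of_nonneg hbre] at h1 h2
    have e : (1 : ℂ) / (‖a‖ : ℂ) = ((‖b‖ : ℝ) : ℂ) := by rw [hbn]; push_cast; ring
    rw [e]
    have h3 := Complex.norm_le_abs_re_add_abs_im (b - ((‖b‖ : ℝ) : ℂ))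
    rw [Complex.sub_re, Complex.sub_im, Complex.ofReal_re, Complex.ofReal_im, sub_zero,
      abs_of_nonpos (by linarith : b.re - ‖b‖ ≤ 0)] at h3
    linarith
  · have hbre : b.re ≤ 0 := by
      rw [hre]
      exact div_nonpos_of_nonpos_of_nonneg (by linarith) hns.le
    rw [abs_of_nonpos hbre] at h1 h2
    have e : (1 : ℂ) / (-(‖a‖ : ℂ)) = -((‖b‖ : ℝ) : ℂ) := by rw [hbn]; push_cast; ring
    rw [e, sub_neg_eq_add]
    have h3 := Complex.norm_le_abs_re_add_abs_im (b + ((‖b‖ : ℝ) : ℂ))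
    rw [Complex.add_re, Complex.add_im, Complex.ofReal_re, Complex.ofReal_im, add_zero,
      abs_of_nonneg (by linarith : 0 ≤ b.re + ‖b‖)] at h3
    linarith

theorem rp1_diff {a : ℂ} (ha : a ≠ 0) (him : 0 ≤ a.im) (z : ℂ) :
    ‖z / a - z / rp1_x a‖ ≤ 2 * ‖z‖ * -(1 / a).im := by
  have e : z / a - z / rp1_x a = z * (1 / a - 1 / rp1_x a) := by ring
  rw [e, norm_mul]
  have := rp1_inv_sub ha him
  have h2 := norm_nonneg z
  nlinarith

theorem rp1_log_sub {x y d : ℝ} (hd : 0 < d) (hx : d ≤ x) (hy : d ≤ y) :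
    |Real.log x - Real.log y| ≤ |x - y| / d := by
  have hx0 : 0 < x := by linarith
  have hy0 : 0 < y := by linarith
  have key : ∀ {x y : ℝ}, 0 < x → 0 < y → d ≤ y → Real.log x - Real.log y ≤ |x - y| / d := by
    intro x y hx0 hy0 hy
    rw [← Real.log_div hx0.ne' hy0.ne']
    have h1 := Real.log_le_sub_one_of_pos (div_pos hx0 hy0)
    have h2 : x / y - 1 = (x - y) / y := by field_simp
    rw [h2] at h1
    refine h1.trans ?_
    calc (x - y) / y ≤ |x - y| / y := by gcongr; exact le_abs_self _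
      _ ≤ |x - y| / d := by gcongr
  rw [abs_le]
  constructor
  · have := key hy0 hx0 hx
    rw [abs_sub_comm] at this
    linarith
  · exact key hx0 hy0 hy

theorem rp1_KK_diff {w w' : ℂ} {d : ℝ} (hd : 0 < d) (h : d ≤ ‖1 - w‖) (h' : d ≤ ‖1 - w'‖) :
    |KK 1 w - KK 1 w'| ≤ (1 / d + 1) * ‖w - w'‖ := by
  unfold KK
  have h1 := rp1_log_sub hd h h'
  have h2 : |‖1 - w‖ - ‖1 - w'‖| ≤ ‖w - w'‖ := by
    have := abs_norm_sub_norm_le (1 - w) (1 - w')
    rw [show (1 - w) - (1 - w') = -(w - w') by ring, norm_neg] at this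
    exact this
  have h3 : |w.re - w'.re| ≤ ‖w - w'‖ := by
    rw [← Complex.sub_re]
    exact Complex.abs_re_le_norm _
  have e : Real.log ‖1 - w‖ + ((1 : ℕ) : ℝ) * w.re - (Real.log ‖1 - w'‖ + ((1 : ℕ) : ℝ) * w'.re)
      = (Real.log ‖1 - w‖ - Real.log ‖1 - w'‖) + (w.re - w'.re) := by
    push_cast
    ring
  rw [e]
  calc |(Real.log ‖1 - w‖ - Real.log ‖1 - w'‖) + (w.re - w'.re)|
      ≤ |Real.log ‖1 - w‖ - Real.log ‖1 - w'‖| + |w.re - w'.re| := abs_add_le _ _
    _ ≤ ‖w - w'‖ / d + ‖w - w'‖ := by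
        refine add_le_add (h1.trans ?_) h3
        gcongr
    _ = (1 / d + 1) * ‖w - w'‖ := by ring

/-- the distance from the point `a` of the closed upper half-plane to a ray in the lower half-plane -/
theorem rp1_dist {a : ℂ} (him : 0 ≤ a.im) {r θ : ℝ} (hr : 0 ≤ r) (hθ : Real.sin θ < 0) :
    |Real.sin θ| * ‖a‖ ≤ ‖a - ray r θ‖ := by
  refine abs_le_of_sq_le_sq' ?_ (norm_nonneg _) |>.2
  rw [mul_pow, sq_abs, ← Complex.normSq_eq_norm_sq, ← Complex.normSq_eq_norm_sq,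
    Complex.normSq_apply, Complex.normSq_apply, Complex.sub_re, Complex.sub_im, rp1_ray_re,
    rp1_ray_im]
  have hcs := Real.sin_sq_add_cos_sq θ
  set s := Real.sin θ
  set c := Real.cos θ
  set x := a.re
  set y := a.im
  have e : (x - r * c) * (x - r * c) + (y - r * s) * (y - r * s) =
      x ^ 2 + y ^ 2 - 2 * r * (x * c + y * s) + r ^ 2 := by
    have : r ^ 2 = r ^ 2 * (s ^ 2 + c ^ 2) := by rw [hcs, mul_one]
    rw [this]
    ring
  rw [e]
  rcases le_or_gt (x * c + y * s) 0 with h | h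
  · have h1 : s ^ 2 ≤ 1 := by nlinarith [sq_nonneg c]
    have h2 : 0 ≤ x ^ 2 + y ^ 2 := by positivity
    nlinarith [mul_nonneg hr (neg_nonneg.2 h), sq_nonneg r]
  · have h1 : y * s ≤ 0 := mul_nonpos_of_nonneg_of_nonpos him hθ.le
    have h2 : (x * c + y * s) ^ 2 ≤ (x * c) ^ 2 := by
      apply pow_le_pow_left₀ h.le
      linarith
    have h3 : (x * c) ^ 2 ≤ (x ^ 2 + y ^ 2) * c ^ 2 := by
      nlinarith [mul_nonneg (sq_nonneg y) (sq_nonneg c)]
    have h4 : s ^ 2 * (x * x + y * y) = (x ^ 2 + y ^ 2) - (x ^ 2 + y ^ 2) * c ^ 2 := by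
      have : s ^ 2 = 1 - c ^ 2 := by linarith
      rw [this]
      ring
    rw [h4]
    nlinarith [sq_nonneg (r - (x * c + y * s))]

theorem rp1_one_sub {a : ℂ} (ha : a ≠ 0) (him : 0 ≤ a.im) {r θ : ℝ} (hr : 0 ≤ r)
    (hθ : Real.sin θ < 0) : |Real.sin θ| ≤ ‖1 - ray r θ / a‖ := by
  have e : 1 - ray r θ / a = (a - ray r θ) / a := by field_simp
  have hn : 0 < ‖a‖ := norm_pos_iff.2 ha
  rw [e, norm_div, le_div_iff₀ hn]
  exact rp1_dist him hr hθ

/-- a zero of modulus `< 1` seen from the outside of the unit disc -/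
theorem rp1_far {a : ℂ} (ha : a ≠ 0) (h1 : ‖a‖ < 1) :
    ∃ C : ℝ, 0 ≤ C ∧ ∀ z : ℂ, 1 ≤ ‖z‖ → |KK 1 (z / a)| ≤ C * ‖z‖ := by
  have hn : 0 < ‖a‖ := norm_pos_iff.2 ha
  set d := 1 / ‖a‖ - 1 with hd
  have hd0 : 0 < d := by
    rw [hd, sub_pos, lt_div_iff₀ hn, one_mul]
    exact h1
  refine ⟨(1 / d + 1) * (1 / ‖a‖) + |Real.log 1| + (1 / (min d 1)) * (1 / ‖a‖), by positivity, ?_⟩
  intro z hz
  have hw : ‖z / a‖ = ‖z‖ / ‖a‖ := norm_div _ _
  have hw1 : d ≤ ‖1 - z / a‖ := by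
    have h2 := norm_sub_norm_le (z / a) 1
    rw [norm_one, norm_sub_rev, hw] at h2
    have h3 : 1 / ‖a‖ ≤ ‖z‖ / ‖a‖ := by gcongr
    linarith
  have hlog : |Real.log ‖1 - z / a‖| ≤ (1 / (min d 1)) * (1 / ‖a‖) * ‖z‖ := by
    have hm : 0 < min d 1 := lt_min hd0 one_pos
    have h2 := rp1_log_sub hm ((min_le_left _ _).trans hw1) (min_le_right d 1)
    rw [Real.log_one, sub_zero] at h2
    refine h2.trans ?_
    have h3 : |‖1 - z / a‖ - 1| ≤ ‖z‖ / ‖a‖ := by
      have := abs_norm_sub_norm_le (1 - z / a) 1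
      rw [norm_one, show (1 - z / a) - 1 = -(z / a) by ring, norm_neg, hw] at this
      exact this
    calc |‖1 - z / a‖ - 1| / min d 1 ≤ (‖z‖ / ‖a‖) / min d 1 := by gcongr
      _ = (1 / (min d 1)) * (1 / ‖a‖) * ‖z‖ := by ring
  have hre : |(z / a).re| ≤ (1 / ‖a‖) * ‖z‖ := by
    refine (Complex.abs_re_le_norm _).trans (le_of_eq ?_)
    rw [hw]
    ring
  unfold KK
  calc |Real.log ‖1 - z / a‖ + ((1 : ℕ) : ℝ) * (z / a).re|
      ≤ |Real.log ‖1 - z / a‖| + |((1 : ℕ) : ℝ) * (z / a).re| := abs_add_le _ _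
    _ ≤ (1 / (min d 1)) * (1 / ‖a‖) * ‖z‖ + (1 / ‖a‖) * ‖z‖ := by
        refine add_le_add hlog ?_
        rw [Nat.cast_one, one_mul]
        exact hre
    _ ≤ _ := by
        have h5 : 0 ≤ 1 / d * (1 / ‖a‖) * ‖z‖ := by positivity
        rw [Real.log_one, abs_zero]
        nlinarith

/-- points on the real axis -/
theorem rp1_real {a z : ℂ} (ha : a ≠ 0) (him : 0 ≤ a.im) (hz : z.im = 0) (hne : ‖z‖ ≠ ‖a‖) :
    KK 1 (z / rp1_x a) ≤ KK 1 (z / a) + 4 * ‖z‖ * -(1 / a).im := by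
  have hn : 0 < ‖a‖ := norm_pos_iff.2 ha
  have hns : 0 < Complex.normSq a := Complex.normSq_pos.2 ha
  have hd := rp1_diff ha him z
  have hw : ‖z / a‖ = ‖z‖ / ‖a‖ := norm_div _ _
  have hw' : ‖z / rp1_x a‖ = ‖z‖ / ‖a‖ := by rw [norm_div, rp1_norm_x]
  have hzr : (z.re : ℂ) = z := Complex.ext (Complex.ofReal_re _) (by rw [Complex.ofReal_im, hz])
  obtain ⟨ε, hε1, hε2, hx⟩ : ∃ ε : ℝ, (ε = 1 ∨ ε = -1) ∧ 0 ≤ ε * a.re ∧
      rp1_x a = ((ε * ‖a‖ : ℝ) : ℂ) := by
    unfold rp1_x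
    by_cases h : 0 ≤ a.re
    · exact ⟨1, Or.inl rfl, by linarith, by rw [if_pos h]; push_cast; ring⟩
    · exact ⟨-1, Or.inr rfl, by linarith, by rw [if_neg h]; push_cast; ring⟩
  have hw're : z / rp1_x a = ((z.re / (ε * ‖a‖) : ℝ) : ℂ) := by
    rw [hx]
    nth_rewrite 1 [← hzr]
    push_cast
    ring
  have hwre : (z / a).re = z.re * a.re / Complex.normSq a := by
    rw [Complex.div_re, hz]
    ring
  have hre : |(z / a).re - (z / rp1_x a).re| ≤ ‖z / a - z / rp1_x a‖ := by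
    rw [← Complex.sub_re]
    exact Complex.abs_re_le_norm _
  rcases le_or_gt (z.re / (ε * ‖a‖)) 0 with h | h
  · -- `Re w' ≤ 0`
    have h1 : ε * z.re ≤ 0 := by
      rcases hε1 with rfl | rfl
      · rw [one_mul, div_le_iff₀ hn, zero_mul] at h
        linarith
      · have h' : -(z.re / ‖a‖) ≤ 0 := by
          have : z.re / (-1 * ‖a‖) = -(z.re / ‖a‖) := by rw [neg_one_mul, div_neg]
          rwa [this] at h
        have : 0 ≤ z.re / ‖a‖ := by linarith
        have : 0 ≤ z.re := by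
          by_contra hc
          push Not at hc
          have := div_neg_of_neg_of_pos hc hn
          linarith
        linarith
    have h2 : (z / a).re ≤ 0 := by
      rw [hwre]
      apply div_nonpos_of_nonpos_of_nonneg _ hns.le
      have h3 : (ε * z.re) * (ε * a.re) ≤ 0 := mul_nonpos_of_nonpos_of_nonneg h1 hε2
      have h4 : ε * ε = 1 := by rcases hε1 with rfl | rfl <;> norm_num
      have h5 : (ε * z.re) * (ε * a.re) = (ε * ε) * (z.re * a.re) := by ring
      rw [h5, h4, one_mul] at h3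
      exact h3
    have h3 : 1 ≤ ‖1 - z / a‖ := by
      have := Complex.re_le_norm (1 - z / a)
      rw [Complex.sub_re, Complex.one_re] at this
      linarith
    have h4 : 1 ≤ ‖1 - z / rp1_x a‖ := by
      have := Complex.re_le_norm (1 - z / rp1_x a)
      rw [Complex.sub_re, Complex.one_re, hw're, Complex.ofReal_re] at this
      rw [hw're]
      linarith
    have h5 := rp1_KK_diff one_pos h3 h4
    have h6 := abs_le.1 h5
    linarith [h6.1]
  · -- `w' = ‖w‖`
    have h1 : ‖1 - z / rp1_x a‖ = |1 - ‖z‖ / ‖a‖| := by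
      rw [hw're] at hw' ⊢
      rw [Complex.norm_real, Real.norm_of_nonneg h.le] at hw'
      rw [← Complex.ofReal_one, ← Complex.ofReal_sub, Complex.norm_real, Real.norm_eq_abs, hw']
    have h2 : 0 < ‖1 - z / rp1_x a‖ := by
      rw [h1, abs_pos, sub_ne_zero]
      intro e
      apply hne
      rw [eq_comm, div_eq_one_iff_eq hn.ne'] at e
      exact e
    have h3 : ‖1 - z / rp1_x a‖ ≤ ‖1 - z / a‖ := by
      rw [h1, ← hw]
      have := abs_norm_sub_norm_le 1 (z / a)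
      rwa [norm_one] at this
    have h4 := Real.log_le_log h2 h3
    have h5 := abs_le.1 hre
    unfold KK
    rw [Nat.cast_one, one_mul, one_mul]
    have h6 : 0 ≤ ‖z‖ * -(1 / a).im := by
      rw [rp1_gam_eq]
      positivity
    linarith [h5.1]

/-- the sum over points with a bound on the counting function -/
theorem rp1_sum {ι : Type} {a : ι → ℂ} {σ C : ℝ}
    (hC : 0 < C)
    (hcount : ∀ R : ℝ, 0 < R → ∀ J : Finset ι, (∀ i ∈ J, ‖a i‖ < R) → (J.card : ℝ) ≤ C * R ^ σ)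
    (h1 : ∀ i, 1 ≤ ‖a i‖) {σ' : ℝ} (hσ' : σ < σ') (h0 : 0 < σ') :
    Summable fun i => Real.exp (-σ' * Real.log ‖a i‖) := by
  classical
  set κ : ι → ℕ := fun i => ⌊Real.log ‖a i‖⌋₊ with hκ
  have hl0 : ∀ i, 0 ≤ Real.log ‖a i‖ := fun i => Real.log_nonneg (h1 i)
  have hκ1 : ∀ i, (κ i : ℝ) ≤ Real.log ‖a i‖ := fun i => Nat.floor_le (hl0 i)
  have hκ2 : ∀ i, Real.log ‖a i‖ < κ i + 1 := fun i => Nat.lt_floor_add_one _
  set b : ℕ → ℝ := fun k => Real.exp (σ * (k + 1)) * Real.exp (-σ' * k) with hb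
  have hbs : Summable b := by
    have e : b = fun k : ℕ => Real.exp σ * (Real.exp (σ - σ')) ^ k := by
      funext k
      show Real.exp (σ * (k + 1)) * Real.exp (-σ' * k) = _
      rw [← Real.exp_nat_mul, ← Real.exp_add, ← Real.exp_add]
      congr 1
      ring
    rw [e]
    apply Summable.mul_left
    apply summable_geometric_of_lt_one (Real.exp_pos _).le
    rw [Real.exp_lt_one_iff]
    linarith
  have hb0 : ∀ k, 0 ≤ b k := fun k => by rw [hb]; positivity
  refine summable_of_sum_le (c := C * ∑' k, b k) (fun i => (Real.exp_pos _).le) ?_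
  intro J
  calc ∑ i ∈ J, Real.exp (-σ' * Real.log ‖a i‖)
      ≤ ∑ i ∈ J, Real.exp (-σ' * (κ i : ℝ)) := by
        refine Finset.sum_le_sum fun i _ => Real.exp_le_exp.2 ?_
        have := hκ1 i
        nlinarith
    _ = ∑ k ∈ J.image κ, (J.filter (fun i => κ i = k)).card • Real.exp (-σ' * (k : ℝ)) :=
        Finset.sum_comp (fun k : ℕ => Real.exp (-σ' * (k : ℝ))) κ
    _ ≤ ∑ k ∈ J.image κ, C * b k := by
        refine Finset.sum_le_sum fun k _ => ?_
        have h2 : (((J.filter (fun i => κ i = k)).card : ℕ) : ℝ) ≤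
            C * (Real.exp (k + 1)) ^ σ := by
          apply hcount _ (Real.exp_pos _)
          intro i hi
          rw [Finset.mem_filter] at hi
          have h3 := hκ2 i
          rw [hi.2] at h3
          rw [← Real.log_lt_iff_lt_exp (by linarith [h1 i])]
          exact h3
        rw [nsmul_eq_mul]
        calc (((J.filter (fun i => κ i = k)).card : ℕ) : ℝ) * Real.exp (-σ' * (k : ℝ))
            ≤ (C * (Real.exp (k + 1)) ^ σ) * Real.exp (-σ' * (k : ℝ)) := by gcongr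
          _ = C * b k := by
              rw [hb, ← Real.exp_mul]
              ring_nf
    _ = C * ∑ k ∈ J.image κ, b k := by rw [Finset.mul_sum]
    _ ≤ C * ∑' k, b k := by
        gcongr
        exact hbs.sum_le_tsum _ (fun k _ => hb0 k)

/-- the normalisation -/
theorem rp1_factor {ρ : ℝ} (h1 : 1 < ρ) {f : ℂ → ℂ} (hf : InClass ρ f) :
    ∃ (m : ℕ) (c : ℂ) (G : ℂ → ℂ), c ≠ 0 ∧ Differentiable ℂ G ∧ G 0 = 1 ∧
      (∀ z, f z = z ^ m * (c * G z)) ∧ ∀ σ, ρ < σ → ∀ᶠ r : ℝ in atTop, ∀ z : ℂ, ‖z‖ ≤ r →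
        ‖G z‖ ≤ Real.exp (2 * r ^ σ) := by
  have h0 : ∃ z, f z ≠ 0 := ⟨-I, hf.zero_free _ (by simp)⟩
  obtain ⟨F, hF, hF0, hp⟩ := exists_div_pow hf.entire h0 0
  set m := analyticOrderNatAt f 0 with hm
  set c := F 0 with hc
  have hcn : 0 < ‖c‖ := norm_pos_iff.2 hF0
  set G : ℂ → ℂ := fun z => F z / c with hG
  have hGd : Differentiable ℂ G := hF.div_const c
  have hG0 : G 0 = 1 := div_self hF0
  have hfG : ∀ z, f z = z ^ m * (c * G z) := by
    intro z
    rw [hp z, sub_zero, hG]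
    congr 1
    field_simp
  refine ⟨m, c, G, hF0, hGd, hG0, hfG, ?_⟩
  intro σ hσ
  have hσ0 : 0 < σ := by linarith
  have hb := hf.order.eventually hσ
  rw [← comap_norm_atTop, eventually_comap] at hb
  have h1 : ∀ᶠ r : ℝ in atTop, Real.log (1 / ‖c‖) ≤ r ^ σ :=
    (tendsto_rpow_atTop hσ0).eventually_ge_atTop _
  filter_upwards [hb, h1, eventually_ge_atTop 1] with r hr h1 hr1 z hz
  apply norm_le_of_circle hGd _ hz
  intro w hw
  have hwn : 0 < ‖w‖ := by rw [hw]; linarith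
  have h2 := hr w hw
  rw [hfG w, norm_mul, norm_pow, norm_mul, hw] at h2
  have h3 : 1 ≤ r ^ m := one_le_pow₀ hr1
  have h4 : ‖c‖ * ‖G w‖ ≤ Real.exp (r ^ σ) := by
    refine le_trans ?_ h2
    exact le_mul_of_one_le_left (by positivity) h3
  have h5 : 1 / ‖c‖ ≤ Real.exp (r ^ σ) := by
    rw [← Real.log_le_iff_le_exp (by positivity)]
    exact h1
  have h6 : ‖G w‖ = 1 / ‖c‖ * (‖c‖ * ‖G w‖) := by field_simp
  rw [h6]
  calc 1 / ‖c‖ * (‖c‖ * ‖G w‖) ≤ Real.exp (r ^ σ) * Real.exp (r ^ σ) := by gcongr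
    _ = Real.exp (2 * r ^ σ) := by rw [← Real.exp_add]; congr 1; ring

theorem rp1_im {ρ : ℝ} {f : ℂ → ℂ} (hf : InClass ρ f) {m : ℕ} {c : ℂ} {G : ℂ → ℂ} (hc : c ≠ 0)
    (hGd : Differentiable ℂ G) (hG0 : G 0 = 1) (hfG : ∀ z, f z = z ^ m * (c * G z)) :
    Summable fun i : ZI G => -(1 / za G i).im := by
  classical
  refine (summable_im (a := za G) (m := m) hf.zero_free hf.norm_le ?_ ?_).2
  · intro i
    refine ⟨za_ne_zero hG0 i, ?_⟩
    rw [hfG, f_za G i, mul_zero, mul_zero]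
  · intro J
    obtain ⟨I, hI, φ, hφ, hφ0, -, hprod⟩ :=
      exists_finset hGd hG0 (∑ i ∈ J, ‖za G i‖ + 1)
    have hJI : J ⊆ I := by
      intro i hi
      rw [hI]
      have := Finset.single_le_sum (f := fun i => ‖za G i‖) (fun j _ => norm_nonneg _) hi
      linarith
    refine ⟨fun z => c * ((∏ i ∈ I \ J, (1 - z / za G i)) * φ z), ?_, ?_, ?_⟩
    · fun_prop
    · simp only [zero_div, sub_zero, Finset.prod_const_one, hφ0, mul_one]
      exact hc
    · intro z
      rw [hfG z, hprod z, ← Finset.prod_sdiff hJI]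
      ring

/-- the finitely many zeros in the unit disc and the elementary factors contribute `O (|z|)` -/
theorem rp1_head {ρ : ℝ} (h1 : 1 < ρ) (h2 : ρ < 2) {f : ℂ → ℂ} {m : ℕ} {c : ℂ} {G : ℂ → ℂ}
    (hc : c ≠ 0) (hGd : Differentiable ℂ G) (hG0 : G 0 = 1) (hfG : ∀ z, f z = z ^ m * (c * G z))
    (hgr : ∀ σ, ρ < σ → ∀ᶠ r : ℝ in atTop, ∀ z : ℂ, ‖z‖ ≤ r → ‖G z‖ ≤ Real.exp (2 * r ^ σ))
    {I : Finset (ZI G)} (hI : ∀ i, i ∈ I ↔ ‖za G i‖ < 1) :
    ∃ C : ℝ, 0 ≤ C ∧ ∀ z : ℂ, 1 ≤ ‖z‖ → (∀ i, z ≠ za G i) → f z ≠ 0 ∧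
      (Summable fun i : {i // i ∉ I} => KK 1 (z / za G i)) ∧
      |Real.log ‖f z‖ - ∑' i : {i // i ∉ I}, KK 1 (z / za G i)| ≤ C * ‖z‖ := by
  classical
  have hex : ∀ i : ZI G, ∃ C : ℝ, 0 ≤ C ∧ (i ∈ I → ∀ z : ℂ, 1 ≤ ‖z‖ →
      |KK 1 (z / za G i)| ≤ C * ‖z‖) := by
    intro i
    by_cases hi : i ∈ I
    · obtain ⟨C, hC, h⟩ := rp1_far (za_ne_zero hG0 i) ((hI i).1 hi)
      exact ⟨C, hC, fun _ => h⟩
    · exact ⟨0, le_refl _, fun h => absurd h hi⟩
  choose K hK0 hK using hex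
  refine ⟨m + |Real.log ‖c‖| + ‖deriv G 0‖ + ∑ i ∈ I, K i, ?_, ?_⟩
  · have := Finset.sum_nonneg (s := I) (f := K) (fun i _ => hK0 i)
    positivity
  intro z hz hne
  have hzn : 0 < ‖z‖ := by linarith
  have hz0 : z ≠ 0 := norm_pos_iff.1 hzn
  have hσ : ρ < (ρ + 2) / 2 := by linarith
  have hs := hasSum_KK_one hGd hG0 (ρ := (ρ + 2) / 2) (K := 2) (by linarith) (by linarith)
    two_pos (hgr _ hσ) hz0 hne
  have hGz : G z ≠ 0 := by
    intro e
    obtain ⟨i, hi⟩ := exists_za hGd ⟨0, by rw [hG0]; exact one_ne_zero⟩ e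
    exact hne i hi.symm
  have hfz : f z ≠ 0 := by
    rw [hfG]
    exact mul_ne_zero (pow_ne_zero _ hz0) (mul_ne_zero hc hGz)
  refine ⟨hfz, hs.summable.comp_injective Subtype.val_injective, ?_⟩
  have hsplit := hs.summable.sum_add_tsum_subtype_compl I
  rw [hs.tsum_eq] at hsplit
  have elog : Real.log ‖f z‖ = m * Real.log ‖z‖ + Real.log ‖c‖ + Real.log ‖G z‖ := by
    rw [hfG, norm_mul, norm_mul, norm_pow, Real.log_mul, Real.log_mul, Real.log_pow]
    · ring
    · exact norm_ne_zero_iff.2 hc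
    · exact norm_ne_zero_iff.2 hGz
    · exact pow_ne_zero _ (norm_ne_zero_iff.2 hz0)
    · exact mul_ne_zero (norm_ne_zero_iff.2 hc) (norm_ne_zero_iff.2 hGz)
  have e : Real.log ‖f z‖ - ∑' i : {i // i ∉ I}, KK 1 (z / za G i) =
      m * Real.log ‖z‖ + Real.log ‖c‖ + (deriv G 0 * z).re + ∑ i ∈ I, KK 1 (z / za G i) := by
    rw [elog]
    linarith
  rw [e]
  have b1 : |(m : ℝ) * Real.log ‖z‖| ≤ m * ‖z‖ := by
    rw [abs_mul, abs_of_nonneg (Nat.cast_nonneg m), abs_of_nonneg (Real.log_nonneg hz)]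
    exact mul_le_mul_of_nonneg_left (Real.log_le_self hzn.le) (Nat.cast_nonneg m)
  have b2 : |Real.log ‖c‖| ≤ |Real.log ‖c‖| * ‖z‖ := le_mul_of_one_le_right (abs_nonneg _) hz
  have b3 : |(deriv G 0 * z).re| ≤ ‖deriv G 0‖ * ‖z‖ := by
    rw [← norm_mul]
    exact Complex.abs_re_le_norm _
  have b4 : |∑ i ∈ I, KK 1 (z / za G i)| ≤ (∑ i ∈ I, K i) * ‖z‖ := by
    refine (Finset.abs_sum_le_sum_abs _ _).trans ?_
    rw [Finset.sum_mul]
    exact Finset.sum_le_sum fun i hi => hK i hi z hz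
  calc |(m : ℝ) * Real.log ‖z‖ + Real.log ‖c‖ + (deriv G 0 * z).re +
        ∑ i ∈ I, KK 1 (z / za G i)|
      ≤ |(m : ℝ) * Real.log ‖z‖ + Real.log ‖c‖ + (deriv G 0 * z).re| +
        |∑ i ∈ I, KK 1 (z / za G i)| := abs_add_le _ _
    _ ≤ (|(m : ℝ) * Real.log ‖z‖| + |Real.log ‖c‖| + |(deriv G 0 * z).re|) +
        |∑ i ∈ I, KK 1 (z / za G i)| := by
        gcongr
        exact abs_add_three _ _ _
    _ ≤ (m * ‖z‖ + |Real.log ‖c‖| * ‖z‖ + ‖deriv G 0‖ * ‖z‖) + (∑ i ∈ I, K i) * ‖z‖ := by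
        gcongr
    _ = _ := by ring

/-- comparison of two series -/
theorem rp1_tsum_cmp {ι : Type} {g g' b : ι → ℝ} (hg : Summable g) (hb : Summable b)
    (h : ∀ i, |g i - g' i| ≤ b i) : Summable g' ∧ |∑' i, g i - ∑' i, g' i| ≤ ∑' i, b i := by
  have hd : Summable fun i => g i - g' i := Summable.of_norm_bounded hb (fun i => by
    rw [Real.norm_eq_abs]; exact h i)
  have hg' : Summable g' := by
    have := hg.sub hd
    refine this.congr (fun i => ?_)
    ring
  refine ⟨hg', ?_⟩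
  rw [← hg.tsum_sub hg']
  have h1 := norm_tsum_le_tsum_norm (f := fun i => g i - g' i) hd.norm
  rw [Real.norm_eq_abs] at h1
  refine h1.trans ?_
  exact hd.norm.tsum_le_tsum (fun i => h i) hb

theorem rp1_l1 {ρ : ℝ} (h1 : 1 < ρ) (h2 : ρ < 2) : ∃ C : ℝ, 0 < C ∧ ∀ ψ ψ' : ℝ,
    ∫ u : ℝ, |kn 1 ρ u ψ' - kn 1 ρ u ψ| ≤ C * √|ψ' - ψ| := by
  have h1' : ((1 : ℕ) : ℝ) < ρ := by rw [Nat.cast_one]; exact h1
  have h2' : ρ < ((1 : ℕ) : ℝ) + 1 := by rw [Nat.cast_one]; linarith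
  obtain ⟨C, hC, h⟩ := kn_l1 (le_refl 1) h1' h2'
  have hP : Integrable (Psi 1 ρ) := by
    refine (integrable_psi (le_refl 1) h1' h2').mono' (measurable_Psi 1 ρ).aestronglyMeasurable
      (ae_of_all _ fun u => ?_)
    rw [Real.norm_of_nonneg (Psi_nonneg 1 ρ u)]
    have e1 : 1 ≤ (1 + |u|) ^ 2 := one_le_pow₀ (by linarith [abs_nonneg u])
    have e2 : 1 ≤ Real.exp (sg 1 ρ * |u|) :=
      Real.one_le_exp (mul_nonneg (sg_pos h1' h2').le (abs_nonneg _))
    calc Psi 1 ρ u = 1 * Psi 1 ρ u * 1 := by ring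
      _ ≤ (1 + |u|) ^ 2 * Psi 1 ρ u * Real.exp (sg 1 ρ * |u|) := by
          have := Psi_nonneg 1 ρ u
          gcongr
  set A := ∫ u : ℝ, Psi 1 ρ u with hA
  have hA0 : 0 ≤ A := integral_nonneg (Psi_nonneg 1 ρ)
  refine ⟨C + 4 * A, by positivity, ?_⟩
  intro ψ ψ'
  have hsq : 0 ≤ √|ψ' - ψ| := Real.sqrt_nonneg _
  rcases le_or_gt |ψ' - ψ| (1 / 4) with hle | hgt
  · have h3 := h 0 ψ ψ' (by rw [abs_zero, zero_add]; exact hle)
    simp only [add_zero, abs_zero, zero_add] at h3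
    refine h3.trans ?_
    nlinarith
  · have h3 : ∫ u : ℝ, |kn 1 ρ u ψ' - kn 1 ρ u ψ| ≤ ∫ u : ℝ, 2 * Psi 1 ρ u := by
      refine integral_mono_of_nonneg (ae_of_all _ fun u => abs_nonneg _) (hP.const_mul 2) ?_
      have hne : ∀ᵐ u : ℝ, u ≠ 0 := by
        rw [ae_iff]
        simp
      filter_upwards [hne] with u hu
      have e1 := abs_kn_le (le_refl 1) ρ hu ψ
      have e2 := abs_kn_le (le_refl 1) ρ hu ψ'
      calc |kn 1 ρ u ψ' - kn 1 ρ u ψ| ≤ |kn 1 ρ u ψ'| + |kn 1 ρ u ψ| := abs_sub _ _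
        _ ≤ 2 * Psi 1 ρ u := by linarith
    rw [integral_const_mul] at h3
    have h4 : 1 / 2 ≤ √|ψ' - ψ| := by
      apply Real.le_sqrt_of_sq_le
      linarith
    refine h3.trans ?_
    nlinarith

theorem rp1_angle {a : ℂ} (ha : a ≠ 0) (him : 0 ≤ a.im) :
    |rp1_ang a - Complex.arg a| ≤ π / 2 * (a.im / ‖a‖) := by
  have hs : Real.sin (Complex.arg a) = a.im / ‖a‖ := Complex.sin_arg a
  have h0 : 0 ≤ Complex.arg a := Complex.arg_nonneg_iff.2 him
  have hpi := Real.pi_pos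
  rw [← hs]
  unfold rp1_ang
  split_ifs with h
  · have h1 : Complex.arg a ≤ π / 2 := (abs_le.1 (Complex.abs_arg_le_pi_div_two_iff.2 h)).2
    have h2 := Real.mul_le_sin h0 h1
    rw [zero_sub, abs_neg, abs_of_nonneg h0]
    have h3 : π / 2 * (2 / π * Complex.arg a) ≤ π / 2 * Real.sin (Complex.arg a) := by gcongr
    have h4 : π / 2 * (2 / π * Complex.arg a) = Complex.arg a := by field_simp
    linarith
  · have h1 : π / 2 < Complex.arg a := by
      by_contra hc
      push Not at hc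
      apply h
      rw [← Complex.abs_arg_le_pi_div_two_iff, abs_of_nonneg h0]
      exact hc
    have h1' : Complex.arg a ≤ π := Complex.arg_le_pi a
    have h2 := Real.mul_le_sin (x := π - Complex.arg a) (by linarith) (by linarith)
    rw [Real.sin_pi_sub] at h2
    rw [abs_of_nonneg (by linarith)]
    have h3 : π / 2 * (2 / π * (π - Complex.arg a)) ≤ π / 2 * Real.sin (Complex.arg a) := by
      gcongr
    have h4 : π / 2 * (2 / π * (π - Complex.arg a)) = π - Complex.arg a := by field_simp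
    linarith

/-- the kernel differences in terms of the normalised kernel -/
theorem rp1_near {ρ : ℝ} {u B ψ ψ' : ℝ} (h0 : 0 ≤ ρ) (hu : u ≤ B) :
    |kp 1 u ψ - kp 1 u ψ'| ≤ Real.exp (ρ * B) * |kn 1 ρ u ψ - kn 1 ρ u ψ'| := by
  have e : kp 1 u ψ - kp 1 u ψ' = Real.exp (ρ * u) * (kn 1 ρ u ψ - kn 1 ρ u ψ') := by
    unfold kn
    have : Real.exp (ρ * u) * Real.exp (-ρ * u) = 1 := by
      rw [← Real.exp_add]
      simp
    calc kp 1 u ψ - kp 1 u ψ' = (Real.exp (ρ * u) * Real.exp (-ρ * u)) *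
          (kp 1 u ψ - kp 1 u ψ') := by rw [this, one_mul]
      _ = _ := by ring
  rw [e, abs_mul, abs_of_pos (Real.exp_pos _)]
  gcongr

/-- zeros far from the point -/
theorem rp1_away {a z : ℂ} (ha : a ≠ 0) (him : 0 ≤ a.im)
    (h : ‖z‖ / ‖a‖ ≤ 1 / 8 ∨ 8 ≤ ‖z‖ / ‖a‖) :
    |KK 1 (z / a) - KK 1 (z / rp1_x a)| ≤ 5 * ‖z‖ * -(1 / a).im := by
  have hw : ‖z / a‖ = ‖z‖ / ‖a‖ := norm_div _ _
  have hw' : ‖z / rp1_x a‖ = ‖z‖ / ‖a‖ := by rw [norm_div, rp1_norm_x]
  have key : ∀ w : ℂ, ‖w‖ = ‖z‖ / ‖a‖ → 7 / 8 ≤ ‖1 - w‖ := by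
    intro w hw
    rcases h with h | h
    · have := norm_sub_norm_le 1 w
      rw [norm_one, hw] at this
      linarith
    · have := norm_sub_norm_le w 1
      rw [norm_one, norm_sub_rev, hw] at this
      linarith
  have h1 := rp1_KK_diff (by norm_num) (key _ hw) (key _ hw')
  have h2 := rp1_diff ha him z
  have e : (1 : ℝ) / (7 / 8) + 1 = 15 / 7 := by norm_num
  rw [e] at h1
  have h4 : 0 ≤ ‖z‖ * -(1 / a).im := by
    rw [rp1_gam_eq]
    have := Complex.normSq_nonneg a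
    positivity
  linarith

/-- Cauchy-Schwarz -/
theorem rp1_cs {ι : Type} (N : Finset ι) (x : ι → ℝ) (hx : ∀ i, 0 ≤ x i) {A B : ℝ}
    (hA : (N.card : ℝ) ≤ A) (hB : ∑ i ∈ N, x i ≤ B) : ∑ i ∈ N, √(x i) ≤ √(A * B) := by
  apply Real.le_sqrt_of_sq_le
  have h := sq_sum_le_card_mul_sum_sq (s := N) (f := fun i => √(x i))
  refine h.trans ?_
  have e : ∑ i ∈ N, √(x i) ^ 2 = ∑ i ∈ N, x i :=
    Finset.sum_congr rfl fun i _ => Real.sq_sqrt (hx i)
  rw [e]
  have h0 : 0 ≤ ∑ i ∈ N, x i := Finset.sum_nonneg fun i _ => hx i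
  have h1 : (0 : ℝ) ≤ N.card := Nat.cast_nonneg _
  nlinarith

theorem repOne {ρ : ℝ} (h1 : 1 < ρ) (h2 : ρ < 2) {f : ℂ → ℂ} (hf : InClass ρ f) :
    ∃ (ι : Type) (D : ZD 1 ρ ι),
      (∀ θ, Real.sin θ < 0 → ∃ C : ℝ, ∀ y, 0 ≤ y →
        |Real.log ‖f (ray (Real.exp y) θ)‖ - D.U y θ| ≤ C * Real.exp y) ∧
      (∃ C : ℝ, ∀ y θ, Real.sin θ = 0 → 0 ≤ y → (∀ i, y ≠ D.s i) →
        f (ray (Real.exp y) θ) ≠ 0 ∧
          D.U y θ ≤ Real.log ‖f (ray (Real.exp y) θ)‖ + C * Real.exp y) ∧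
      ∀ θ, 0 < Real.sin θ → ∃ C σ' : ℝ, σ' < ρ ∧ ∀ y, 0 ≤ y →
        IntervalIntegrable (fun t => |Real.log ‖f (ray (Real.exp t) θ)‖ - D.U t θ|) volume y
          (y + 1) ∧
        ∫ t in y..(y + 1), |Real.log ‖f (ray (Real.exp t) θ)‖ - D.U t θ| ≤
          C * Real.exp (σ' * y) := by
  classical
  have h1' : ((1 : ℕ) : ℝ) < ρ := by rw [Nat.cast_one]; exact h1
  have h2' : ρ < ((1 : ℕ) : ℝ) + 1 := by rw [Nat.cast_one]; linarith
  obtain ⟨m, c, G, hc, hGd, hG0, hfG, hgr⟩ := rp1_factor h1 hf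
  obtain ⟨I, hI, -⟩ := exists_finset hGd hG0 1
  have hγ := rp1_im hf hc hGd hG0 hfG
  have ha0 : ∀ i, za G i ≠ 0 := za_ne_zero hG0
  have him : ∀ i, 0 ≤ (za G i).im := by
    intro i
    by_contra h
    push Not at h
    exact hf.zero_free _ h (by rw [hfG, f_za G i, mul_zero, mul_zero])
  have hcount : ∀ σ, ρ < σ → ∃ C : ℝ, 0 < C ∧ ∀ R : ℝ, 0 < R → ∀ J : Finset (ZI G),
      (∀ i ∈ J, ‖za G i‖ < R) → (J.card : ℝ) ≤ C * R ^ σ :=
    fun σ hσ => count_zeros hGd hG0 (by linarith) two_pos (hgr σ hσ)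
  obtain ⟨CH, hCH, hhead⟩ := rp1_head h1 h2 hc hGd hG0 hfG hgr hI
  have hι1 : ∀ i : {i // i ∉ I}, 1 ≤ ‖za G i‖ := by
    intro i
    have := i.2
    rw [hI] at this
    push Not at this
    exact this
  have hcount' : ∀ σ, ρ < σ → ∃ C : ℝ, 0 < C ∧ ∀ R : ℝ, 0 < R → ∀ J : Finset {i // i ∉ I},
      (∀ i ∈ J, ‖za G i‖ < R) → (J.card : ℝ) ≤ C * R ^ σ := by
    intro σ hσ
    obtain ⟨C, hC, h⟩ := hcount σ hσ
    refine ⟨C, hC, fun R hR J hJ => ?_⟩
    have h3 := h R hR (J.map (Function.Embedding.subtype _)) (by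
      intro i hi
      rw [Finset.mem_map] at hi
      obtain ⟨j, hj, rfl⟩ := hi
      exact hJ j hj)
    rw [Finset.card_map] at h3
    exact h3
  let D : ZD 1 ρ {i // i ∉ I} :=
    { s := fun i => Real.log ‖za G i‖
      a := fun i => rp1_ang (za G i)
      s0 := fun i => Real.log_nonneg (hι1 i)
      ha := fun i => by
        have hpi := Real.pi_pos.le
        unfold rp1_ang
        split_ifs
        · exact ⟨⟨le_refl _, hpi⟩, fun _ => Or.inl rfl⟩
        · exact ⟨⟨hpi, le_refl _⟩, fun _ => Or.inr rfl⟩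
      sum := fun σ hσ => by
        obtain ⟨C, hC, h⟩ := hcount' ((ρ + σ) / 2) (by linarith)
        exact rp1_sum hC h hι1 (by linarith) (by linarith) }
  have hDs : ∀ i, D.s i = Real.log ‖za G i‖ := fun _ => rfl
  have hU : ∀ y θ, D.U y θ = ∑' i : {i // i ∉ I}, KK 1 (ray (Real.exp y) θ / rp1_x (za G i)) :=
    fun y θ => tsum_congr fun i => rp1_kp_x (ha0 i) y θ
  have hγs : Summable fun i : {i // i ∉ I} => -(1 / za G i).im :=
    hγ.comp_injective Subtype.val_injective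
  have hγ0 : ∀ i : {i // i ∉ I}, 0 ≤ -(1 / za G i).im := by
    intro i
    rw [rp1_gam_eq]
    have := him i
    have := Complex.normSq_nonneg (za G i)
    positivity
  set Γ := ∑' i : {i // i ∉ I}, -(1 / za G i).im with hΓ
  have hΓ0 : 0 ≤ Γ := tsum_nonneg hγ0
  have hray : ∀ y θ : ℝ, ‖ray (Real.exp y) θ‖ = Real.exp y :=
    fun y θ => rp1_norm_ray _ _ (Real.exp_pos y).le
  have hray1 : ∀ y θ : ℝ, 0 ≤ y → 1 ≤ ‖ray (Real.exp y) θ‖ := by
    intro y θ hy
    rw [hray]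
    exact Real.one_le_exp hy
  -- points which are not zeros
  have hnz : ∀ y θ : ℝ, 0 ≤ y → (∀ i, y ≠ D.s i) → ∀ i, ray (Real.exp y) θ ≠ za G i := by
    intro y θ hy hne i e
    have h3 : ‖za G i‖ = Real.exp y := by rw [← e, hray]
    have h4 : i ∉ I := by
      rw [hI, h3]
      push Not
      exact Real.one_le_exp hy
    apply hne ⟨i, h4⟩
    rw [hDs]
    show y = Real.log ‖za G i‖
    rw [h3, Real.log_exp]
  refine ⟨{i // i ∉ I}, D, ?_, ?_, ?_⟩
  · -- the lower half-plane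
    intro θ hθ
    have hd : 0 < |Real.sin θ| := abs_pos.2 hθ.ne
    refine ⟨CH + (1 / |Real.sin θ| + 1) * (2 * Γ), fun y hy => ?_⟩
    rw [hU]
    set z := ray (Real.exp y) θ with hz
    have hzn : ‖z‖ = Real.exp y := hray y θ
    have hne : ∀ i, z ≠ za G i := by
      intro i e
      have h3 := him i
      rw [← e, hz, rp1_ray_im] at h3
      have := mul_neg_of_pos_of_neg (Real.exp_pos y) hθ
      linarith
    obtain ⟨-, hs, hb⟩ := hhead z (hray1 y θ hy) hne
    have hdiff : ∀ i : {i // i ∉ I}, |KK 1 (z / za G i) - KK 1 (z / rp1_x (za G i))| ≤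
        (1 / |Real.sin θ| + 1) * (2 * ‖z‖) * -(1 / za G i).im := by
      intro i
      have h3 := rp1_KK_diff hd
        (rp1_one_sub (ha0 i) (him i) (Real.exp_pos y).le hθ)
        (rp1_one_sub (rp1_x_ne (ha0 i)) (rp1_x_im _).ge (Real.exp_pos y).le hθ)
      refine h3.trans ?_
      rw [mul_assoc]
      gcongr
      exact rp1_diff (ha0 i) (him i) z
    obtain ⟨-, hcmp⟩ := rp1_tsum_cmp hs (hγs.mul_left _) hdiff
    rw [tsum_mul_left, ← hΓ, hzn] at hcmp
    rw [hzn] at hb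
    calc |Real.log ‖f z‖ - ∑' i : {i // i ∉ I}, KK 1 (z / rp1_x (za G i))|
        = |(Real.log ‖f z‖ - ∑' i : {i // i ∉ I}, KK 1 (z / za G i)) +
          (∑' i : {i // i ∉ I}, KK 1 (z / za G i) -
            ∑' i : {i // i ∉ I}, KK 1 (z / rp1_x (za G i)))| := by congr 1; ring
      _ ≤ CH * Real.exp y + (1 / |Real.sin θ| + 1) * (2 * Real.exp y) * Γ :=
          (abs_add_le _ _).trans (add_le_add hb hcmp)
      _ = _ := by ring
  · -- the real axis
    refine ⟨CH + 4 * Γ, fun y θ hθ hy hne => ?_⟩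
    obtain ⟨hfz, hs, hb⟩ := hhead _ (hray1 y θ hy) (hnz y θ hy hne)
    refine ⟨hfz, ?_⟩
    have hsx : Summable fun i : {i // i ∉ I} =>
        KK 1 (ray (Real.exp y) θ / rp1_x (za G i)) := by
      have := (D.U_summable (le_refl 1) h1' h2' hne θ).of_abs
      refine this.congr (fun i => ?_)
      exact rp1_kp_x (ha0 i) y θ
    rw [hU]
    set z := ray (Real.exp y) θ with hz
    have hzn : ‖z‖ = Real.exp y := hray y θ
    have hzim : z.im = 0 := by rw [hz, rp1_ray_im, hθ, mul_zero]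
    have hterm : ∀ i : {i // i ∉ I}, KK 1 (z / rp1_x (za G i)) ≤
        KK 1 (z / za G i) + 4 * ‖z‖ * -(1 / za G i).im := by
      intro i
      refine rp1_real (ha0 i) (him i) hzim ?_
      intro e
      apply hne i
      rw [hDs, ← e, hzn, Real.log_exp]
    have h3 := hsx.tsum_le_tsum hterm (hs.add (hγs.mul_left _))
    rw [hs.tsum_add (hγs.mul_left _), tsum_mul_left, ← hΓ] at h3
    have h4 := (abs_le.1 hb).1
    rw [hzn] at h3 h4
    linarith
  · -- the upper half-plane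
    intro θ hθ
    set σ := (3 * ρ - 1) / 2 with hσ
    have hσρ : ρ < σ := by rw [hσ]; linarith
    obtain ⟨C1, hC1, hcnt⟩ := hcount' σ hσρ
    obtain ⟨C2, hC2, hL1⟩ := rp1_l1 h1 h2
    set A := Real.exp (ρ * (1 + Real.log 8)) with hA
    have hA0 : 0 < A := Real.exp_pos _
    set C3 := CH * Real.exp 1 + 5 * Real.exp 1 * Γ with hC3
    have hC30 : 0 ≤ C3 := by positivity
    set Kc := (C1 * (9 * Real.exp 1) ^ σ) * (π / 2 * (8 * Real.exp 1) * Γ) with hKc
    have hpi := Real.pi_pos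
    have hKc0 : 0 ≤ Kc := by positivity
    refine ⟨C3 + A * C2 * √Kc, (σ + 1) / 2, by rw [hσ]; linarith, fun y hy => ?_⟩
    have hlog8 : 0 < Real.log 8 := Real.log_pos (by norm_num)
    -- the zeros near the circle
    have hfin : {i : {i // i ∉ I} | Real.exp y / 8 ≤ ‖za G i‖ ∧
        ‖za G i‖ ≤ 8 * Real.exp (y + 1)}.Finite := by
      refine (D.finite_lt (Real.log 8 + (y + 1) + 1)).subset ?_
      intro i hi
      have h3 : Real.log ‖za G i‖ ≤ Real.log (8 * Real.exp (y + 1)) :=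
        Real.log_le_log (norm_pos_iff.2 (ha0 i)) hi.2
      rw [Real.log_mul (by norm_num) (Real.exp_pos _).ne', Real.log_exp] at h3
      show Real.log ‖za G i‖ < _
      linarith
    set N := hfin.toFinset with hN
    have hmemN : ∀ i, i ∈ N ↔ Real.exp y / 8 ≤ ‖za G i‖ ∧ ‖za G i‖ ≤ 8 * Real.exp (y + 1) := by
      intro i
      rw [hN, Set.Finite.mem_toFinset]
      rfl
    set g : {i // i ∉ I} → ℝ → ℝ := fun i t => A * |kn 1 ρ (t - D.s i) (θ - Complex.arg (za G i)) -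
      kn 1 ρ (t - D.s i) (θ - rp1_ang (za G i))| with hg
    have hgint : ∀ i, Integrable (g i) := by
      intro i
      have h3 := (integrable_kn (le_refl 1) h1' h2' (θ - Complex.arg (za G i))).sub
        (integrable_kn (le_refl 1) h1' h2' (θ - rp1_ang (za G i)))
      exact ((h3.abs.comp_sub_right (D.s i)).const_mul A)
    have hgle : ∀ i, ∫ t, g i t ≤ A * (C2 * √(π / 2 * ((za G i).im / ‖za G i‖))) := by
      intro i
      rw [hg]
      simp only
      rw [integral_const_mul, integral_sub_right_eq_self (fun t : ℝ =>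
        |kn 1 ρ t (θ - Complex.arg (za G i)) - kn 1 ρ t (θ - rp1_ang (za G i))|) (D.s i)]
      refine mul_le_mul_of_nonneg_left ((hL1 _ _).trans ?_) hA0.le
      refine mul_le_mul_of_nonneg_left (Real.sqrt_le_sqrt ?_) hC2.le
      have e : (θ - Complex.arg (za G i)) - (θ - rp1_ang (za G i)) =
          rp1_ang (za G i) - Complex.arg (za G i) := by ring
      rw [e]
      exact rp1_angle (ha0 i) (him i)
    -- the pointwise bound
    have hpt : ∀ᵐ t : ℝ, t ∈ Set.uIoc y (y + 1) →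
        |Real.log ‖f (ray (Real.exp t) θ)‖ - D.U t θ| ≤
          C3 * Real.exp y + ∑ i ∈ N, g i t := by
      filter_upwards [D.ae_ne] with t hne ht
      rw [Set.uIoc_of_le (by linarith)] at ht
      have ht0 : 0 ≤ t := by linarith [ht.1]
      obtain ⟨-, hs, hb⟩ := hhead _ (hray1 t θ ht0) (hnz t θ ht0 hne)
      rw [hU]
      have hexp1 : Real.exp t ≤ Real.exp 1 * Real.exp y := by
        rw [← Real.exp_add]
        exact Real.exp_le_exp.2 (by linarith [ht.2])
      have hnum : ∀ i : {i // i ∉ I}, 0 < ‖za G i‖ := fun i => norm_pos_iff.2 (ha0 i)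
      have hterm : ∀ i : {i // i ∉ I},
          |KK 1 (ray (Real.exp t) θ / za G i) - KK 1 (ray (Real.exp t) θ / rp1_x (za G i))| ≤
            5 * Real.exp t * -(1 / za G i).im + (if i ∈ N then g i t else 0) := by
        intro i
        by_cases hi : i ∈ N
        · rw [if_pos hi]
          have h3 := (hmemN i).1 hi
          rw [← rp1_kp_a (ha0 i), ← rp1_kp_x (ha0 i)]
          have h4 : Real.log (Real.exp y / 8) ≤ Real.log ‖za G i‖ :=
            Real.log_le_log (by positivity) h3.1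
          rw [Real.log_div (Real.exp_pos _).ne' (by norm_num), Real.log_exp] at h4
          have h5 := rp1_near (ρ := ρ) (u := t - Real.log ‖za G i‖) (B := 1 + Real.log 8)
            (ψ := θ - Complex.arg (za G i)) (ψ' := θ - rp1_ang (za G i)) (by linarith)
            (by linarith [ht.2])
          refine h5.trans ?_
          have h6 := mul_nonneg (mul_nonneg (by norm_num : (0 : ℝ) ≤ 5) (Real.exp_pos t).le)
            (hγ0 i)
          linarith
        · rw [if_neg hi, add_zero]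
          have h3 := rp1_away (z := ray (Real.exp t) θ) (ha0 i) (him i) (by
            rw [hray]
            rw [hmemN, not_and_or, not_le, not_le] at hi
            have ey : Real.exp y ≤ Real.exp t := Real.exp_le_exp.2 ht.1.le
            have ey1 : Real.exp t ≤ Real.exp (y + 1) := Real.exp_le_exp.2 ht.2
            rcases hi with hi | hi
            · right
              rw [le_div_iff₀ (hnum i)]
              linarith
            · left
              rw [div_le_iff₀ (hnum i)]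
              linarith)
          rw [hray] at h3
          exact h3
      have hsb : Summable fun i : {i // i ∉ I} => 5 * Real.exp t * -(1 / za G i).im +
          (if i ∈ N then g i t else 0) := by
        refine (hγs.mul_left _).add ?_
        exact summable_of_ne_finset_zero (s := N) (fun i hi => if_neg hi)
      obtain ⟨-, hcmp⟩ := rp1_tsum_cmp hs hsb hterm
      have hsumb : ∑' i : {i // i ∉ I}, (5 * Real.exp t * -(1 / za G i).im +
          (if i ∈ N then g i t else 0)) = 5 * Real.exp t * Γ + ∑ i ∈ N, g i t := by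
        rw [(hγs.mul_left _).tsum_add (summable_of_ne_finset_zero (s := N)
          (fun i hi => if_neg hi)), tsum_mul_left, ← hΓ]
        congr 1
        rw [tsum_eq_sum (s := N) (fun i hi => if_neg hi)]
        exact Finset.sum_congr rfl fun i hi => if_pos hi
      rw [hsumb] at hcmp
      rw [hray] at hb
      have hb1 : CH * Real.exp t ≤ CH * (Real.exp 1 * Real.exp y) := by gcongr
      have hb2 : 5 * Real.exp t * Γ ≤ 5 * (Real.exp 1 * Real.exp y) * Γ := by gcongr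
      calc |Real.log ‖f (ray (Real.exp t) θ)‖ -
            ∑' i : {i // i ∉ I}, KK 1 (ray (Real.exp t) θ / rp1_x (za G i))|
          = |(Real.log ‖f (ray (Real.exp t) θ)‖ -
              ∑' i : {i // i ∉ I}, KK 1 (ray (Real.exp t) θ / za G i)) +
            (∑' i : {i // i ∉ I}, KK 1 (ray (Real.exp t) θ / za G i) -
              ∑' i : {i // i ∉ I}, KK 1 (ray (Real.exp t) θ / rp1_x (za G i)))| := by
            congr 1; ring
        _ ≤ CH * Real.exp t + (5 * Real.exp t * Γ + ∑ i ∈ N, g i t) :=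
            (abs_add_le _ _).trans (add_le_add hb hcmp)
        _ ≤ C3 * Real.exp y + ∑ i ∈ N, g i t := by
            rw [hC3]
            linarith
    -- integrability
    have hRint : IntervalIntegrable (fun t => C3 * Real.exp y + ∑ i ∈ N, g i t) volume y
        (y + 1) := by
      refine (intervalIntegrable_const).add ?_
      exact (integrable_finsetSum N (fun i _ => hgint i)).intervalIntegrable
    have hmeas : AEStronglyMeasurable
        (fun t => |Real.log ‖f (ray (Real.exp t) θ)‖ - D.U t θ|) volume := by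
      have hc1 : Continuous fun t : ℝ => f (ray (Real.exp t) θ) := by
        refine hf.entire.continuous.comp ?_
        unfold ray
        fun_prop
      have h3 : Measurable fun t : ℝ => Real.log ‖f (ray (Real.exp t) θ)‖ :=
        Real.measurable_log.comp hc1.norm.measurable
      exact (h3.aestronglyMeasurable.sub (D.U_meas (le_refl 1) h1' h2' θ)).norm
    have hI1 : IntervalIntegrable (fun t => |Real.log ‖f (ray (Real.exp t) θ)‖ - D.U t θ|)
        volume y (y + 1) := by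
      refine hRint.mono_fun' hmeas.restrict ?_
      rw [Filter.EventuallyLE, ae_restrict_iff' measurableSet_uIoc]
      filter_upwards [hpt] with t ht htm
      rw [Real.norm_of_nonneg (abs_nonneg _)]
      exact ht htm
    refine ⟨hI1, ?_⟩
    have hle : y ≤ y + 1 := by linarith
    have h3 : ∫ t in y..(y + 1), |Real.log ‖f (ray (Real.exp t) θ)‖ - D.U t θ| ≤
        ∫ t in y..(y + 1), (C3 * Real.exp y + ∑ i ∈ N, g i t) := by
      rw [intervalIntegral.integral_of_le hle, intervalIntegral.integral_of_le hle]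
      refine setIntegral_mono_ae_restrict hI1.1 hRint.1 ?_
      rw [Filter.EventuallyLE, ae_restrict_iff' measurableSet_Ioc]
      filter_upwards [hpt] with t ht htm
      rw [Set.uIoc_of_le hle] at ht
      exact ht htm
    have hg0 : ∀ i t, 0 ≤ g i t := fun i t => mul_nonneg hA0.le (abs_nonneg _)
    have h4 : ∫ t in y..(y + 1), (C3 * Real.exp y + ∑ i ∈ N, g i t) =
        C3 * Real.exp y + ∑ i ∈ N, ∫ t in y..(y + 1), g i t := by
      rw [intervalIntegral.integral_add intervalIntegrable_const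
        (integrable_finsetSum N (fun i _ => hgint i)).intervalIntegrable,
        intervalIntegral.integral_const, intervalIntegral.integral_finsetSum
          (fun i _ => (hgint i).intervalIntegrable)]
      simp
    have hx0 : ∀ i : {i // i ∉ I}, 0 ≤ π / 2 * (8 * Real.exp (y + 1)) * -(1 / za G i).im :=
      fun i => mul_nonneg (by positivity) (hγ0 i)
    have h5 : ∀ i ∈ N, ∫ t in y..(y + 1), g i t ≤
        A * C2 * √(π / 2 * (8 * Real.exp (y + 1)) * -(1 / za G i).im) := by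
      intro i hi
      rw [intervalIntegral.integral_of_le hle]
      refine (setIntegral_le_integral (hgint i) (ae_of_all _ (hg0 i))).trans ?_
      refine (hgle i).trans ?_
      rw [← mul_assoc]
      refine mul_le_mul_of_nonneg_left (Real.sqrt_le_sqrt ?_) (by positivity)
      have hn : 0 < ‖za G i‖ := norm_pos_iff.2 (ha0 i)
      have e : (za G i).im / ‖za G i‖ = ‖za G i‖ * -(1 / za G i).im := by
        rw [rp1_gam_eq, Complex.normSq_eq_norm_sq]
        field_simp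
      rw [e, mul_assoc (π / 2)]
      have h6 := ((hmemN i).1 hi).2
      have h7 := hγ0 i
      gcongr
    have h6 := rp1_cs N (fun i => π / 2 * (8 * Real.exp (y + 1)) * -(1 / za G i).im) hx0
      (A := C1 * (9 * Real.exp (y + 1)) ^ σ) (B := π / 2 * (8 * Real.exp (y + 1)) * Γ)
      (by
        apply hcnt _ (by positivity)
        intro i hi
        have h7 := ((hmemN i).1 hi).2
        have h8 := Real.exp_pos (y + 1)
        linarith)
      (by
        rw [← Finset.mul_sum]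
        refine mul_le_mul_of_nonneg_left ?_ (by positivity)
        exact hγs.sum_le_tsum _ (fun i _ => hγ0 i))
    have e7 : (C1 * (9 * Real.exp (y + 1)) ^ σ) * (π / 2 * (8 * Real.exp (y + 1)) * Γ) =
        Kc * Real.exp ((σ + 1) / 2 * y) ^ 2 := by
      have e8 : (9 * Real.exp (y + 1)) ^ σ = (9 * Real.exp 1) ^ σ * Real.exp (σ * y) := by
        rw [add_comm, Real.exp_add, ← mul_assoc, Real.mul_rpow (by positivity) (by positivity)]
        congr 1
        rw [← Real.exp_mul, mul_comm]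
      have e9 : Real.exp ((σ + 1) / 2 * y) ^ 2 = Real.exp (σ * y) * Real.exp y := by
        rw [← Real.exp_nat_mul, ← Real.exp_add]
        congr 1
        push_cast
        ring
      rw [e8, e9, hKc, Real.exp_add]
      ring
    rw [e7, Real.sqrt_mul hKc0, Real.sqrt_sq (Real.exp_pos _).le] at h6
    have h8 : Real.exp y ≤ Real.exp ((σ + 1) / 2 * y) := by
      apply Real.exp_le_exp.2
      have : 1 ≤ (σ + 1) / 2 := by rw [hσ]; linarith
      nlinarith
    calc ∫ t in y..(y + 1), |Real.log ‖f (ray (Real.exp t) θ)‖ - D.U t θ|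
        ≤ C3 * Real.exp y + ∑ i ∈ N, ∫ t in y..(y + 1), g i t := h3.trans h4.le
      _ ≤ C3 * Real.exp y + ∑ i ∈ N,
            A * C2 * √(π / 2 * (8 * Real.exp (y + 1)) * -(1 / za G i).im) := by
          have := Finset.sum_le_sum h5
          linarith
      _ = C3 * Real.exp y + A * C2 * ∑ i ∈ N,
            √(π / 2 * (8 * Real.exp (y + 1)) * -(1 / za G i).im) := by
          rw [← Finset.mul_sum]
      _ ≤ C3 * Real.exp ((σ + 1) / 2 * y) +
            A * C2 * (√Kc * Real.exp ((σ + 1) / 2 * y)) := by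
          gcongr
      _ = (C3 + A * C2 * √Kc) * Real.exp ((σ + 1) / 2 * y) := by ring

end HBInf
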