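import Pool.Agent.HBInf.ZDTools
import Pool.Agent.HBInd.Zeros
import Pool.Agent.HBInd.ZerosB
import Pool.Agent.HBInd.NecRel

/-!
# The zero data of a function of the class, order less than one

`f = c z^m g`, `g 0 = 1`, `c ≠ 0` (`exists_div_pow` at `0`; `f` is not identically zero by `zero_free`). For every
`σ ∈ (ρ, 1)`, `‖f z‖ ≤ exp (‖z‖^σ)` for large `‖z‖` (`HasOrder.eventually`), and similarly for `g` with `K r^σ`. So
`count_zeros`, `log_sums` and `hasSum_log` (`Pool.Agent.HBInd.ZerosB`) apply to `g` with every such `σ` and the intrinsic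
index type `ZI g`, `za g`: `∑ ‖za g i‖^{-σ'} < ∞` for all `σ' > ρ` (from `log_sums` with `σ ∈ (ρ, σ')`, as in
`summable_rpow_of_log` in `Pool.Agent.HBInd.NecRel`, or dyadically from `count_zeros`), and
`log ‖f z‖ = log ‖c‖ + m log ‖z‖ + ∑ log ‖1 - z / a_i‖` off the zeros.
Index type `{i : ZI g // 1 ≤ ‖za g i‖}`, `s i = log ‖a_i‖ ≥ 0`, `a i = arg a_i ∈ [0, π]` (`Im a_i ≥ 0` by `zero_free`), and
`kp 0 (y - s_i) (θ - arg a_i) = log ‖1 - z / a_i‖`, `z = ray (e^y) θ`. The finitely many zeros with `‖a_i‖ < 1`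
(`finite_zeros`) contribute at most `C (1 + y)` for `‖z‖ = e^y ≥ 1`, as `‖a_i‖ ≤ q < 1` for all of them:
`1/q - 1 ≤ ‖1 - z/a_i‖ ≤ 1 + e^y/‖a_i‖`.
-/

namespace HBInf

open HBInd Complex Filter Topology Set MeasureTheory
open scoped Real ComplexConjugate

/-- the zeros of a function of the class, order less than one, with the bounds for all exponents -/
theorem rp0_zeros {ρ : ℝ} (h1 : 0 < ρ) {f : ℂ → ℂ} (hf : InClass ρ f) :
    ∃ (G : ℂ → ℂ) (m : ℕ) (A : ℝ), G 0 = 1 ∧ Differentiable ℂ G ∧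
      (∀ i : ZI G, f (za G i) = 0) ∧
      (∀ σ : ℝ, ρ < σ → σ < 1 → ∃ K : ℝ, 0 < K ∧ ∀ x : ℝ, 0 < x →
        (Summable fun i : ZI G => Real.log (1 + x / ‖za G i‖)) ∧
        ∑' i : ZI G, Real.log (1 + x / ‖za G i‖) ≤ K * x ^ σ) ∧
      (ρ < 1 → ∀ z : ℂ, z ≠ 0 → f z ≠ 0 →
        HasSum (fun i : ZI G => Real.log ‖1 - z / za G i‖)
          (Real.log ‖f z‖ - m * Real.log ‖z‖ - A)) := by
  obtain ⟨F, hF, hF0, hp⟩ := exists_div_pow hf.entire ⟨-I, hf.zero_free (-I) (by simp)⟩ 0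
  set m := analyticOrderNatAt f 0 with hm
  set c := F 0 with hc
  have hcn : 0 < ‖c‖ := norm_pos_iff.2 hF0
  set G : ℂ → ℂ := fun z => F z / c with hG
  have hGd : Differentiable ℂ G := hF.div_const c
  have hG0 : G 0 = 1 := div_self hF0
  have hfG : ∀ z, f z = z ^ m * (c * G z) := by
    intro z
    rw [hp z, sub_zero, hG]
    congr 1
    field_simp
  have hbG : ∀ σ : ℝ, ρ < σ → ∀ᶠ r : ℝ in atTop, ∀ z : ℂ, ‖z‖ ≤ r →
      ‖G z‖ ≤ Real.exp (2 * r ^ σ) := by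
    intro σ hσ
    have hσ0 : 0 < σ := h1.trans hσ
    have h2 : ∀ᶠ r : ℝ in atTop, Real.log (1 / ‖c‖) ≤ r ^ σ :=
      (tendsto_rpow_atTop hσ0).eventually_ge_atTop _
    have h3 : ∀ᶠ r : ℝ in atTop, ∀ w : ℂ, ‖w‖ = r → ‖f w‖ ≤ Real.exp (r ^ σ) := by
      have h4 := hf.order.eventually hσ
      rw [← comap_norm_atTop, eventually_comap] at h4
      filter_upwards [h4] with r hr w hw
      have := hr w hw
      rwa [hw] at this
    filter_upwards [h3, h2, eventually_ge_atTop 1] with r hr h2 hr1 z hz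
    apply norm_le_of_circle hGd _ hz
    intro w hw
    have hwn : 0 < ‖w‖ := by rw [hw]; linarith
    have h5 := hr w hw
    rw [hfG w, norm_mul, norm_pow, norm_mul, hw] at h5
    have h6 : 1 ≤ r ^ m := one_le_pow₀ hr1
    have h7 : ‖c‖ * ‖G w‖ ≤ Real.exp (r ^ σ) := by
      refine le_trans ?_ h5
      exact le_mul_of_one_le_left (by positivity) h6
    have h8 : 1 / ‖c‖ ≤ Real.exp (r ^ σ) := by
      rw [← Real.log_le_iff_le_exp (by positivity)]
      exact h2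
    have h9 : ‖G w‖ = 1 / ‖c‖ * (‖c‖ * ‖G w‖) := by field_simp
    rw [h9]
    calc 1 / ‖c‖ * (‖c‖ * ‖G w‖) ≤ Real.exp (r ^ σ) * Real.exp (r ^ σ) := by gcongr
      _ = Real.exp (2 * r ^ σ) := by rw [← Real.exp_add]; congr 1; ring
  have hsums : ∀ σ : ℝ, ρ < σ → σ < 1 → ∃ K : ℝ, 0 < K ∧ ∀ x : ℝ, 0 < x →
        (Summable fun i : ZI G => Real.log (1 + x / ‖za G i‖)) ∧
        ∑' i : ZI G, Real.log (1 + x / ‖za G i‖) ≤ K * x ^ σ := by
    intro σ hσ hσ1
    obtain ⟨C, hC, hcount⟩ := count_zeros hGd hG0 (h1.trans hσ) two_pos (hbG σ hσ)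
    exact log_sums (za_ne_zero hG0) (h1.trans hσ) hσ1 hC hcount
  refine ⟨G, m, Real.log ‖c‖, hG0, hGd, ?_, hsums, ?_⟩
  · intro i
    rw [hfG, f_za G i, mul_zero, mul_zero]
  · intro hρ1 z hz0 hfz
    obtain ⟨σ, hσ, hσ1⟩ := exists_between hρ1
    obtain ⟨K, hK, hs⟩ := hsums σ hσ hσ1
    have hGz : G z ≠ 0 := by
      intro e
      rw [hfG, e, mul_zero, mul_zero] at hfz
      exact hfz rfl
    have hz : ∀ i, z ≠ za G i := by
      intro i e
      exact hGz (by rw [e]; exact f_za G i)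
    have h3 := hasSum_log hGd hG0 (h1.trans hσ) hσ1 two_pos (hbG σ hσ)
      (fun x hx => (hs x hx).1) hz0 hz
    have e : Real.log ‖f z‖ - m * Real.log ‖z‖ - Real.log ‖c‖ = Real.log ‖G z‖ := by
      rw [hfG, norm_mul, norm_mul, norm_pow, Real.log_mul, Real.log_mul, Real.log_pow]
      · ring
      · exact hcn.ne'
      · exact norm_ne_zero_iff.2 hGz
      · exact pow_ne_zero _ (norm_ne_zero_iff.2 hz0)
      · exact mul_ne_zero hcn.ne' (norm_ne_zero_iff.2 hGz)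
    rw [e]
    exact h3

/-- the kernel at a zero -/
theorem rp0_kp {a : ℂ} (ha : a ≠ 0) (y θ : ℝ) :
    kp 0 (y - Real.log ‖a‖) (θ - Complex.arg a) =
      Real.log ‖1 - ray (Real.exp y) θ / a‖ := by
  have h1 : Complex.exp ((Real.log ‖a‖ : ℂ) + (Complex.arg a : ℂ) * I) = a := by
    rw [Complex.exp_add, Complex.ofReal_log (norm_nonneg a), Complex.exp_log]
    · exact Complex.norm_mul_exp_arg_mul_I a
    · exact_mod_cast (norm_pos_iff.2 ha).ne'
  rw [kp_eq, Nat.cast_zero, zero_mul, add_zero, HBInd.ker]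
  congr 2
  have h2 : ray (Real.exp y) θ / a =
      Complex.exp (((y - Real.log ‖a‖ : ℝ) : ℂ) + ((θ - Complex.arg a : ℝ) : ℂ) * I) := by
    conv_lhs => rw [← h1]
    rw [ray, Complex.ofReal_exp, ← Complex.exp_add, ← Complex.exp_sub]
    congr 1
    push_cast
    ring
  rw [h2]

/-- the contribution of a zero in the unit disc -/
theorem rp0_small {a : ℂ} (ha : a ≠ 0) (ha1 : ‖a‖ < 1) {y θ : ℝ} (hy : 0 ≤ y) :
    |Real.log ‖1 - ray (Real.exp y) θ / a‖| ≤
      (1 + Real.log (1 + 1 / ‖a‖) + |Real.log (1 / ‖a‖ - 1)|) * (1 + y) := by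
  have hpos : 0 < ‖a‖ := norm_pos_iff.2 ha
  have hn : ‖ray (Real.exp y) θ / a‖ = Real.exp y / ‖a‖ := by
    rw [norm_div, ray, norm_mul, Complex.norm_exp_ofReal_mul_I, mul_one, Complex.norm_real,
      Real.norm_eq_abs, abs_of_pos (Real.exp_pos y)]
  have hey : 1 ≤ Real.exp y := Real.one_le_exp hy
  have hinv : 1 < 1 / ‖a‖ := by
    rw [lt_div_iff₀ hpos]; linarith
  have h1 : ‖1 - ray (Real.exp y) θ / a‖ ≤ Real.exp y * (1 + 1 / ‖a‖) := by
    have h3 := norm_sub_le (1 : ℂ) (ray (Real.exp y) θ / a)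
    rw [norm_one, hn] at h3
    have h4 : Real.exp y * (1 + 1 / ‖a‖) = Real.exp y + Real.exp y / ‖a‖ := by ring
    rw [h4]
    linarith
  have h2 : 1 / ‖a‖ - 1 ≤ ‖1 - ray (Real.exp y) θ / a‖ := by
    have h3 := norm_sub_norm_le (ray (Real.exp y) θ / a) (1 : ℂ)
    rw [norm_one, hn, norm_sub_rev] at h3
    have h4 : 1 / ‖a‖ ≤ Real.exp y / ‖a‖ := by gcongr
    linarith
  have hp : 0 < 1 / ‖a‖ - 1 := by linarith
  have h5 : Real.log ‖1 - ray (Real.exp y) θ / a‖ ≤ y + Real.log (1 + 1 / ‖a‖) := by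
    have h6 := Real.log_le_log (lt_of_lt_of_le hp h2) h1
    rwa [Real.log_mul (Real.exp_pos y).ne' (by positivity), Real.log_exp] at h6
  have h7 : Real.log (1 / ‖a‖ - 1) ≤ Real.log ‖1 - ray (Real.exp y) θ / a‖ :=
    Real.log_le_log hp h2
  have h8 : 0 ≤ Real.log (1 + 1 / ‖a‖) := Real.log_nonneg (by linarith)
  have h9 := neg_abs_le (Real.log (1 / ‖a‖ - 1))
  have h10 := abs_nonneg (Real.log (1 / ‖a‖ - 1))
  have h11 : 0 ≤ Real.log (1 + 1 / ‖a‖) * y := mul_nonneg h8 hy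
  have h12 : 0 ≤ |Real.log (1 / ‖a‖ - 1)| * y := mul_nonneg h10 hy
  rw [abs_le]
  constructor <;> nlinarith

theorem repZero {ρ : ℝ} (h1 : 0 < ρ) (h2 : ρ < 1) {f : ℂ → ℂ} (hf : InClass ρ f) :
    ∃ (ι : Type) (D : ZD 0 ρ ι) (C : ℝ), ∀ y θ : ℝ, 0 ≤ y → f (ray (Real.exp y) θ) ≠ 0 →
      |Real.log ‖f (ray (Real.exp y) θ)‖ - D.U y θ| ≤ C * (1 + y) := by
  classical
  obtain ⟨G, m, A, hG0, hGd, hfa, hsums, hsum⟩ := rp0_zeros h1 hf
  have hne : ∀ i : ZI G, za G i ≠ 0 := za_ne_zero hG0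
  obtain ⟨J, hJ, -⟩ := exists_finset hGd hG0 1
  let D : ZD 0 ρ {i : ZI G // 1 ≤ ‖za G i‖} :=
    { s := fun i => Real.log ‖za G i.1‖
      a := fun i => Complex.arg (za G i.1)
      s0 := fun i => Real.log_nonneg i.2
      ha := by
        intro i
        refine ⟨⟨?_, Complex.arg_le_pi _⟩, fun h => absurd h (by norm_num)⟩
        rw [Complex.arg_nonneg_iff]
        by_contra h
        exact hf.zero_free _ (not_le.1 h) (hfa i.1)
      sum := by
        intro σ hσ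
        obtain ⟨σ', hσ', hσ1⟩ := exists_between (lt_min hσ h2)
        obtain ⟨K, hK, hs⟩ := hsums σ' hσ' (hσ1.trans_le (min_le_right _ _))
        have h3 : Summable fun i : ZI G => (‖za G i‖⁻¹) ^ σ := by
          refine summable_rpow_of_log (fun i => inv_pos.2 (norm_pos_iff.2 (hne i)))
            (h1.trans hσ) (hσ1.trans_le (min_le_left _ _)) (K := K) fun x hx => ?_
          have := hs x hx
          simp only [← div_eq_mul_inv]
          exact this
        have h4 := h3.comp_injective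
          (Subtype.val_injective : Function.Injective
            (Subtype.val : {i : ZI G // 1 ≤ ‖za G i‖} → ZI G))
        refine h4.congr fun i => ?_
        have hpos : 0 < ‖za G i.1‖ := norm_pos_iff.2 (hne i.1)
        simp only [Function.comp_apply]
        rw [Real.inv_rpow hpos.le, ← Real.rpow_neg hpos.le, Real.rpow_def_of_pos hpos]
        congr 1
        ring }
  refine ⟨{i : ZI G // 1 ≤ ‖za G i‖}, D,
    m + |A| + ∑ i ∈ J, (1 + Real.log (1 + 1 / ‖za G i‖) + |Real.log (1 / ‖za G i‖ - 1)|), ?_⟩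
  intro y θ hy hfz
  set z := ray (Real.exp y) θ with hz
  have hzn : ‖z‖ = Real.exp y := by
    rw [hz, ray, norm_mul, Complex.norm_exp_ofReal_mul_I, mul_one, Complex.norm_real,
      Real.norm_eq_abs, abs_of_pos (Real.exp_pos y)]
  have hz0 : z ≠ 0 := by
    rw [← norm_pos_iff, hzn]; exact Real.exp_pos y
  have hS := hsum h2 z hz0 hfz
  have hU : D.U y θ = ∑' i : {i : ZI G // 1 ≤ ‖za G i‖}, Real.log ‖1 - z / za G i.1‖ := by
    unfold ZD.U
    apply tsum_congr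
    intro i
    exact rp0_kp (hne i.1) y θ
  have hcompl : {i : ZI G | 1 ≤ ‖za G i‖} = ((J : Set (ZI G)))ᶜ := by
    ext i
    rw [Set.mem_compl_iff, Finset.mem_coe, hJ, not_lt]
    rfl
  have hsplit : ∑ i ∈ J, Real.log ‖1 - z / za G i‖ + D.U y θ =
      Real.log ‖f z‖ - m * Real.log ‖z‖ - A := by
    rw [← hS.tsum_eq, hU]
    have h5 := hS.summable.sum_add_tsum_compl (s := J)
    rw [← h5]
    congr 1
    have h6 : ∑' i : {i : ZI G // 1 ≤ ‖za G i‖}, Real.log ‖1 - z / za G i.1‖ =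
        ∑' i : ({i : ZI G | 1 ≤ ‖za G i‖} : Set (ZI G)), Real.log ‖1 - z / za G i.1‖ := rfl
    rw [h6, hcompl]
  have hfin : |∑ i ∈ J, Real.log ‖1 - z / za G i‖| ≤
      (∑ i ∈ J, (1 + Real.log (1 + 1 / ‖za G i‖) + |Real.log (1 / ‖za G i‖ - 1)|)) * (1 + y) := by
    rw [Finset.sum_mul]
    refine (Finset.abs_sum_le_sum_abs _ _).trans (Finset.sum_le_sum fun i hi => ?_)
    exact rp0_small (hne i) ((hJ i).1 hi) hy
  rw [hzn, Real.log_exp] at hsplit
  have h7 : Real.log ‖f z‖ - D.U y θ = m * y + A + ∑ i ∈ J, Real.log ‖1 - z / za G i‖ := by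
    linarith
  rw [h7]
  have hm0 : (0 : ℝ) ≤ m := Nat.cast_nonneg m
  have hA0 := abs_nonneg A
  have h8 : |(m : ℝ) * y + A| ≤ (m + |A|) * (1 + y) := by
    have h9 : |(m : ℝ) * y + A| ≤ m * y + |A| := by
      refine (abs_add_le _ _).trans ?_
      rw [abs_of_nonneg (mul_nonneg hm0 hy)]
    have h10 : 0 ≤ |A| * y := mul_nonneg hA0 hy
    nlinarith
  calc |(m : ℝ) * y + A + ∑ i ∈ J, Real.log ‖1 - z / za G i‖|
      ≤ |(m : ℝ) * y + A| + |∑ i ∈ J, Real.log ‖1 - z / za G i‖| := abs_add_le _ _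
    _ ≤ (m + |A|) * (1 + y) + (∑ i ∈ J, (1 + Real.log (1 + 1 / ‖za G i‖) +
        |Real.log (1 / ‖za G i‖ - 1)|)) * (1 + y) := add_le_add h8 hfin
    _ = _ := by ring

end HBInf
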