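import Pool.Agent.HBInd.Ramp

/-!
# Slowly varying paths through given points

`Q t l = ∑' j, xi T w j t * q j l` (`Pool.Agent.HBInd.Ramp`), `T 0 = 1`, with `T j`, `w j` growing so fast that, with
`m_j = 1 + max_{i ≤ j + 1, l} |q i l|`: `w j ≥ 2^j m_j`, `T j ≥ 2^j m_j` and `T (j+1) ≥ T j + w j + 4`.
* on `[T j + w j, T (j+1)]`: `Q = q j`; on `[T (j+1), T (j+1) + w (j+1)]`: `Q = (1 - s) q j + s q (j+1)` with
  `s = ramp`; `Q = 0` for `t ≤ T 0` (`xi_eq_zero_left`).
* Lipschitz constant on `[T j, ∞)`: `≤ C 2^{-j}` (`abs_xi_sub_le`: at most two nonzero terms, or piecewise).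
* `|Q t l| ≤ C m_j` for `t ≤ T (j+1)`, so `|Q t l| ≤ C 2^{-j} t` for `T j ≤ t ≤ T (j+1)`, and `|Q t l| ≤ C (1 + |t|)`.
* `SlowFn`: for `t ≥ 0`: if `|u| ≤ t/2` use the Lipschitz constant on `[t/2, ∞)` (tends to `0` as `t → ∞`); if
  `|u| > t/2`: `|Q (t - u) - Q t| ≤ C (1 + |t| + |u|) ≤ C' (1 + |u|) ≤ (C''/(1 + t)) (1 + |u|)²`.
-/

namespace HBInf

open HBInd Filter Topology Set

/-- slowly varying functions -/
def SlowFn (q : ℝ → ℝ) : Prop :=
  Continuous q ∧ ∃ ω : ℝ → ℝ, Tendsto ω atTop (𝓝 0) ∧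
    ∀ t u : ℝ, 0 ≤ t → |q (t - u) - q t| ≤ ω t * (1 + |u|) ^ 2

/-! ### the construction -/

/-- the points with the value `0` in front -/
def slp_q' {m : ℕ} (q : ℕ → Fin m → ℝ) : ℕ → Fin m → ℝ
  | 0 => fun _ => 0
  | n + 1 => q n

/-- bound of the increments -/
noncomputable def slp_D {m : ℕ} (q : ℕ → Fin m → ℝ) (j : ℕ) : ℝ :=
  1 + ∑ i ∈ Finset.range (j + 1), ∑ l, |q i l|

noncomputable def slp_w {m : ℕ} (q : ℕ → Fin m → ℝ) (j : ℕ) : ℝ := 4 ^ j * slp_D q j

noncomputable def slp_T {m : ℕ} (q : ℕ → Fin m → ℝ) (j : ℕ) : ℝ :=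
  1 + ∑ i ∈ Finset.range j, (slp_w q i + 4)

section
variable {m : ℕ} (q : ℕ → Fin m → ℝ)

lemma slp_D_pos (j : ℕ) : 0 < slp_D q j := by
  have : 0 ≤ ∑ i ∈ Finset.range (j + 1), ∑ l, |q i l| :=
    Finset.sum_nonneg fun i _ => Finset.sum_nonneg fun l _ => abs_nonneg _
  unfold slp_D
  linarith

lemma slp_w_pos (j : ℕ) : 0 < slp_w q j := mul_pos (by positivity) (slp_D_pos q j)

lemma slp_T_zero : slp_T q 0 = 1 := by simp [slp_T]

lemma slp_T_succ (j : ℕ) : slp_T q (j + 1) = slp_T q j + slp_w q j + 4 := by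
  unfold slp_T
  rw [Finset.sum_range_succ]
  ring

lemma slp_T_step (j : ℕ) : slp_T q j + slp_w q j + 4 ≤ slp_T q (j + 1) := (slp_T_succ q j).ge

lemma slp_T_mono : Monotone (slp_T q) := T_mono (slp_w_pos q) (slp_T_step q)

lemma slp_T_ge (j : ℕ) : 1 + (j : ℝ) ≤ slp_T q j := by
  have := T_ge (slp_w_pos q) (slp_T_step q) j
  rwa [slp_T_zero] at this

lemma slp_abs_single (j : ℕ) (l : Fin m) : |q j l| ≤ ∑ l, |q j l| :=
  Finset.single_le_sum (f := fun l => |q j l|) (fun _ _ => abs_nonneg _) (Finset.mem_univ l)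

lemma slp_inc (j : ℕ) (l : Fin m) : |slp_q' q (j + 1) l - slp_q' q j l| ≤ slp_D q j := by
  have hs : ∀ i, 0 ≤ ∑ l, |q i l| := fun i => Finset.sum_nonneg fun l _ => abs_nonneg _
  cases j with
  | zero =>
    have h1 := slp_abs_single q 0 l
    simp only [slp_q', slp_D, sub_zero, zero_add, Finset.sum_range_one]
    linarith
  | succ j =>
    have h1 := slp_abs_single q (j + 1) l
    have h2 := slp_abs_single q j l
    have h3 := abs_sub (q (j + 1) l) (q j l)
    have h4 : 0 ≤ ∑ i ∈ Finset.range j, ∑ l, |q i l| := Finset.sum_nonneg fun i _ => hs i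
    simp only [slp_q', slp_D]
    rw [Finset.sum_range_succ, Finset.sum_range_succ]
    linarith

/-- the path -/
noncomputable def slp_Q (t : ℝ) (l : Fin m) : ℝ :=
  ∑' j, ramp (slp_T q j) (slp_w q j) t * (slp_q' q (j + 1) l - slp_q' q j l)

lemma slp_finite (t : ℝ) : ∃ M : ℕ, ∀ j, M ≤ j → ramp (slp_T q j) (slp_w q j) t = 0 := by
  obtain ⟨M, hM⟩ := exists_nat_ge t
  refine ⟨M, fun j hj => ramp_eq_zero (slp_w_pos q j) ?_⟩
  have h1 := slp_T_ge q j
  have h2 : (M : ℝ) ≤ j := by exact_mod_cast hj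
  linarith

lemma slp_summable (t : ℝ) (l : Fin m) :
    Summable fun j => ramp (slp_T q j) (slp_w q j) t * (slp_q' q (j + 1) l - slp_q' q j l) := by
  obtain ⟨M, hM⟩ := slp_finite q t
  refine summable_of_ne_finset_zero (s := Finset.range M) fun j hj => ?_
  rw [Finset.mem_range, not_lt] at hj
  rw [hM j hj, zero_mul]

/-- the basic comparison -/
lemma slp_diff {s t K : ℝ} (e : ℕ → ℝ) (hK : 0 ≤ K) (he0 : ∀ j, 0 ≤ e j) (he1 : ∀ j, e j ≤ 1)
    (h : ∀ j, |ramp (slp_T q j) (slp_w q j) s - ramp (slp_T q j) (slp_w q j) t| ≤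
      e j / slp_w q j * K) (l : Fin m) :
    |slp_Q q s l - slp_Q q t l| ≤ K * ∑' j : ℕ, (1 / 4 : ℝ) ^ j * e j := by
  have hgeo : Summable fun j : ℕ => (1 / 4 : ℝ) ^ j :=
    summable_geometric_of_lt_one (by norm_num) (by norm_num)
  have hsum : Summable fun j : ℕ => (1 / 4 : ℝ) ^ j * e j :=
    Summable.of_nonneg_of_le (fun j => mul_nonneg (by positivity) (he0 j))
      (fun j => mul_le_of_le_one_right (by positivity) (he1 j)) hgeo
  unfold slp_Q
  rw [← (slp_summable q s l).tsum_sub (slp_summable q t l), ← tsum_mul_left]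
  have hle : ∀ j, ‖ramp (slp_T q j) (slp_w q j) s * (slp_q' q (j + 1) l - slp_q' q j l) -
      ramp (slp_T q j) (slp_w q j) t * (slp_q' q (j + 1) l - slp_q' q j l)‖ ≤
      K * ((1 / 4 : ℝ) ^ j * e j) := by
    intro j
    rw [← sub_mul, Real.norm_eq_abs, abs_mul]
    have hD := slp_D_pos q j
    have h1 := mul_le_mul (h j) (slp_inc q j l) (abs_nonneg _)
      (mul_nonneg (div_nonneg (he0 j) (slp_w_pos q j).le) hK)
    refine h1.trans (le_of_eq ?_)
    rw [slp_w, one_div, inv_pow]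
    field_simp
  exact (tsum_of_norm_bounded (hsum.mul_left K).hasSum hle).trans le_rfl

lemma slp_omega (c : ℕ → ℝ → ℝ) (h0 : ∀ j t, 0 ≤ c j t) (h1 : ∀ j t, c j t ≤ 1)
    (hc : ∀ j, Tendsto (c j) atTop (𝓝 0)) :
    Tendsto (fun t => ∑' j : ℕ, (1 / 4 : ℝ) ^ j * c j t) atTop (𝓝 0) := by
  have hgeo : Summable fun j : ℕ => (1 / 4 : ℝ) ^ j :=
    summable_geometric_of_lt_one (by norm_num) (by norm_num)
  have h := tendsto_tsum_of_dominated_convergence (𝓕 := atTop) (f := fun t j => (1 / 4 : ℝ) ^ j * c j t)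
    (g := fun _ => (0 : ℝ)) hgeo (fun j => by simpa using (hc j).const_mul ((1 / 4 : ℝ) ^ j))
    (Filter.Eventually.of_forall fun t j => by
      rw [Real.norm_eq_abs, abs_of_nonneg (mul_nonneg (by positivity) (h0 j t))]
      exact mul_le_of_le_one_right (by positivity) (h1 j t))
  simpa using h

lemma slp_lip (s t : ℝ) (l : Fin m) : |slp_Q q s l - slp_Q q t l| ≤ 4 / 3 * |s - t| := by
  have h := slp_diff q (s := s) (t := t) (K := |s - t|) (fun _ => 1) (abs_nonneg _)
    (fun _ => zero_le_one) (fun _ => le_rfl) (fun j => abs_ramp_sub_le (slp_w_pos q j) s t) l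
  refine h.trans (le_of_eq ?_)
  simp only [mul_one]
  rw [tsum_geometric_of_lt_one (by norm_num) (by norm_num)]
  ring

lemma slp_ramp_zero {t : ℝ} (ht : t ≤ 1) (j : ℕ) : ramp (slp_T q j) (slp_w q j) t = 0 := by
  refine ramp_eq_zero (slp_w_pos q j) ?_
  have h1 := slp_T_ge q j
  have h2 : (0 : ℝ) ≤ j := Nat.cast_nonneg j
  linarith

lemma slp_zero {t : ℝ} (ht : t ≤ 1) (l : Fin m) : slp_Q q t l = 0 := by
  unfold slp_Q
  simp [slp_ramp_zero q ht]

/-- the value on `[T j, T (j + 1)]` -/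
lemma slp_val {t : ℝ} {j : ℕ} (h1 : slp_T q j ≤ t) (h2 : t ≤ slp_T q (j + 1)) (l : Fin m) :
    slp_Q q t l = slp_q' q j l + ramp (slp_T q j) (slp_w q j) t *
      (slp_q' q (j + 1) l - slp_q' q j l) := by
  unfold slp_Q
  rw [tsum_eq_sum (s := Finset.range (j + 1)) fun i hi => ?_, Finset.sum_range_succ]
  · congr 1
    have h3 : ∀ i ∈ Finset.range j, ramp (slp_T q i) (slp_w q i) t *
        (slp_q' q (i + 1) l - slp_q' q i l) = slp_q' q (i + 1) l - slp_q' q i l := by
      intro i hi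
      have hij : i + 1 ≤ j := Finset.mem_range.1 hi
      have h4 := slp_T_mono q hij
      have h5 := slp_T_step q i
      rw [ramp_eq_one (slp_w_pos q i) (by linarith), one_mul]
    rw [Finset.sum_congr rfl h3, Finset.sum_range_sub (fun i => slp_q' q i l)]
    simp [slp_q']
  · rw [Finset.mem_range, not_lt] at hi
    have h4 := slp_T_mono q hi
    rw [ramp_eq_zero (slp_w_pos q i) (by linarith), zero_mul]

lemma slp_exists {t : ℝ} (ht : 1 ≤ t) : ∃ j, slp_T q j ≤ t ∧ t < slp_T q (j + 1) := by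
  classical
  have hex : ∃ n, t < slp_T q n := by
    obtain ⟨n, hn⟩ := exists_nat_ge t
    exact ⟨n, by linarith [slp_T_ge q n]⟩
  have hspec := Nat.find_spec hex
  rcases Nat.eq_zero_or_pos (Nat.find hex) with h0 | h0
  · rw [h0, slp_T_zero] at hspec
    linarith
  · obtain ⟨j, hj⟩ := Nat.exists_eq_succ_of_ne_zero h0.ne'
    refine ⟨j, ?_, ?_⟩
    · have := Nat.find_min hex (m := j) (by rw [hj]; exact Nat.lt_succ_self j)
      exact not_lt.1 this
    · rw [hj] at hspec
      exact hspec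

lemma slp_step_bound {t u : ℝ} (ht : 0 ≤ t) (j : ℕ) :
    |ramp (slp_T q j) (slp_w q j) (t - u) - ramp (slp_T q j) (slp_w q j) t| ≤
      min 1 (4 * (slp_T q j + slp_w q j) / (1 + t)) / slp_w q j * (1 + |u|) ^ 2 := by
  have hw := slp_w_pos q j
  have hT := slp_T_ge q j
  have hj : (0 : ℝ) ≤ j := Nat.cast_nonneg j
  have h0 := abs_ramp_sub_le hw (T := slp_T q j) (t - u) t
  have hu : |t - u - t| = |u| := by rw [sub_sub_cancel_left, abs_neg]
  rw [hu] at h0
  have hu0 := abs_nonneg u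
  set E := slp_T q j + slp_w q j with hE
  have hE1 : 1 ≤ E := by linarith
  have ht1 : 0 < 1 + t := by linarith
  rcases le_or_gt (1 + t) (4 * E) with h | h
  · have h1 : 1 ≤ 4 * E / (1 + t) := by rwa [one_le_div ht1]
    rw [min_eq_left h1]
    refine h0.trans (mul_le_mul_of_nonneg_left ?_ (by positivity))
    nlinarith
  · have h1 : 4 * E / (1 + t) ≤ 1 := by rw [div_le_one ht1]; exact h.le
    rw [min_eq_right h1]
    rcases le_or_gt E (t - u) with h2 | h2
    · rw [ramp_eq_one hw h2, ramp_eq_one hw (by linarith), sub_self, abs_zero]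
      positivity
    · have h3 : t / 2 ≤ |u| := by
        have := le_abs_self u
        linarith
      refine h0.trans ?_
      have h4 : |u| ≤ 4 * E / (1 + t) * (1 + |u|) ^ 2 := by
        rw [div_mul_eq_mul_div, le_div_iff₀ ht1]
        have h5 : 1 + t ≤ 4 * |u| := by linarith
        have h6 : |u| * (1 + t) ≤ |u| * (4 * |u|) := mul_le_mul_of_nonneg_left h5 hu0
        have h7 : 4 * (1 + |u|) ^ 2 ≤ 4 * E * (1 + |u|) ^ 2 := by
          have : 0 ≤ (E - 1) * (1 + |u|) ^ 2 := mul_nonneg (by linarith) (by positivity)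
          nlinarith
        nlinarith
      calc 1 / slp_w q j * |u| ≤ 1 / slp_w q j * (4 * E / (1 + t) * (1 + |u|) ^ 2) :=
            mul_le_mul_of_nonneg_left h4 (by positivity)
        _ = 4 * E / (1 + t) / slp_w q j * (1 + |u|) ^ 2 := by ring

lemma slp_slow (l : Fin m) : SlowFn fun t => slp_Q q t l := by
  constructor
  · have : LipschitzWith (4 / 3) fun t => slp_Q q t l := by
      refine LipschitzWith.of_dist_le_mul fun s t => ?_
      rw [Real.dist_eq, Real.dist_eq]
      exact slp_lip q s t l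
    exact this.continuous
  · refine ⟨fun t => ∑' j : ℕ, (1 / 4 : ℝ) ^ j *
      (if 0 ≤ t then min 1 (4 * (slp_T q j + slp_w q j) / (1 + t)) else 0), ?_, fun t u ht => ?_⟩
    · have hE : ∀ j, 0 ≤ 4 * (slp_T q j + slp_w q j) := fun j => by
        have h1 := slp_T_ge q j
        have h2 : (0 : ℝ) ≤ j := Nat.cast_nonneg j
        have h3 := slp_w_pos q j
        linarith
      refine slp_omega (fun j t => if 0 ≤ t then min 1 (4 * (slp_T q j + slp_w q j) / (1 + t)) else 0)
        (fun j t => ?_) (fun j t => ?_) fun j => ?_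
      · split_ifs with h
        · exact le_min zero_le_one (div_nonneg (hE j) (by linarith))
        · exact le_rfl
      · split_ifs with h
        · exact min_le_left _ _
        · exact zero_le_one
      · have h1 : Tendsto (fun t : ℝ => 4 * (slp_T q j + slp_w q j) / (1 + t)) atTop (𝓝 0) :=
          Tendsto.div_atTop tendsto_const_nhds (tendsto_atTop_add_const_left _ _ tendsto_id)
        refine squeeze_zero' (g := fun t : ℝ => 4 * (slp_T q j + slp_w q j) / (1 + t)) ?_ ?_ h1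
        · filter_upwards [eventually_ge_atTop 0] with t ht
          rw [if_pos ht]
          exact le_min zero_le_one (div_nonneg (hE j) (by linarith))
        · filter_upwards [eventually_ge_atTop 0] with t ht
          rw [if_pos ht]
          exact min_le_right _ _
    · have h := slp_diff q (s := t - u) (t := t) (K := (1 + |u|) ^ 2)
        (fun j => min 1 (4 * (slp_T q j + slp_w q j) / (1 + t))) (by positivity)
        (fun j => le_min zero_le_one (div_nonneg (by
          have h1 := slp_T_ge q j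
          have h2 : (0 : ℝ) ≤ j := Nat.cast_nonneg j
          have h3 := slp_w_pos q j
          linarith) (by linarith)))
        (fun j => min_le_left _ _) (fun j => slp_step_bound q ht j) l
      simp only [if_pos ht]
      rw [mul_comm]
      exact h

lemma slp_growth {ε : ℝ} (hε : 0 < ε) : ∀ᶠ t : ℝ in atTop, ∀ l, |slp_Q q t l| ≤ ε * t := by
  have h1 := slp_omega (fun j t => if 0 < t then min 1 (slp_w q j / t) else 0)
    (fun j t => by
      split_ifs with h
      · exact le_min zero_le_one (div_nonneg (slp_w_pos q j).le h.le)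
      · exact le_rfl)
    (fun j t => by
      split_ifs with h
      · exact min_le_left _ _
      · exact zero_le_one)
    (fun j => by
      have h1 : Tendsto (fun t : ℝ => slp_w q j / t) atTop (𝓝 0) :=
        Tendsto.div_atTop tendsto_const_nhds tendsto_id
      refine squeeze_zero' (g := fun t : ℝ => slp_w q j / t) ?_ ?_ h1
      · filter_upwards [eventually_gt_atTop 0] with t ht
        rw [if_pos ht]
        exact le_min zero_le_one (div_nonneg (slp_w_pos q j).le ht.le)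
      · filter_upwards [eventually_gt_atTop 0] with t ht
        rw [if_pos ht]
        exact min_le_right _ _)
  filter_upwards [h1.eventually_le_const hε, eventually_gt_atTop 0] with t ht ht0 l
  have h := slp_diff q (s := t) (t := 0) (K := t) (fun j => min 1 (slp_w q j / t)) ht0.le
    (fun j => le_min zero_le_one (div_nonneg (slp_w_pos q j).le ht0.le)) (fun j => min_le_left _ _)
    (fun j => by
      have hw := slp_w_pos q j
      rw [slp_ramp_zero q (show (0 : ℝ) ≤ 1 from zero_le_one), sub_zero, abs_of_nonneg (ramp_nonneg _ _ _)]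
      have h2 := abs_ramp_sub_le hw (T := slp_T q j) t 0
      rw [slp_ramp_zero q (show (0 : ℝ) ≤ 1 from zero_le_one), sub_zero, sub_zero,
        abs_of_nonneg (ramp_nonneg _ _ _), abs_of_pos ht0] at h2
      have h3 := ramp_le_one (slp_T q j) (slp_w q j) t
      rcases le_total 1 (slp_w q j / t) with h4 | h4
      · rw [min_eq_left h4]
        exact h2
      · rw [min_eq_right h4]
        refine h3.trans (le_of_eq ?_)
        field_simp) l
  rw [slp_zero q (show (0 : ℝ) ≤ 1 from zero_le_one), sub_zero] at h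
  refine h.trans ?_
  simp only [if_pos ht0] at ht
  rw [mul_comm]
  exact mul_le_mul_of_nonneg_right ht ht0.le

end

theorem slow_path {m : ℕ} (q : ℕ → Fin m → ℝ) : ∃ Q : ℝ → Fin m → ℝ,
    (∀ l, SlowFn fun t => Q t l) ∧ (∀ t ≤ 1, ∀ l, Q t l = 0) ∧
    (∃ C : ℝ, ∀ t l, |Q t l| ≤ C * (1 + |t|)) ∧
    (∀ ε : ℝ, 0 < ε → ∀ᶠ t : ℝ in atTop, ∀ l, |Q t l| ≤ ε * t) ∧
    (∀ t, ∃ s ∈ Icc (0 : ℝ) 1, ∃ j, (∀ l, Q t l = s * q j l) ∨ ∀ l, Q t l = (1 - s) * q j l +
      s * q (j + 1) l) ∧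
    (∀ J : ℕ, ∀ᶠ t : ℝ in atTop, ∃ j, J ≤ j ∧ ∃ s ∈ Icc (0 : ℝ) 1,
      ∀ l, Q t l = (1 - s) * q j l + s * q (j + 1) l) ∧
    ∀ j : ℕ, ∃ t : ℝ, (j : ℝ) ≤ t ∧ ∀ l, Q t l = q j l := by
  refine ⟨slp_Q q, slp_slow q, fun t ht l => slp_zero q ht l, ⟨4 / 3, fun t l => ?_⟩,
    fun ε hε => slp_growth q hε, fun t => ?_, fun J => ?_, fun j => ?_⟩
  · have h := slp_lip q t 0 l
    rw [slp_zero q (show (0 : ℝ) ≤ 1 from zero_le_one), sub_zero, sub_zero] at h
    linarith
  · rcases le_or_gt t 1 with ht | ht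
    · exact ⟨0, ⟨le_rfl, zero_le_one⟩, 0, Or.inl fun l => by rw [slp_zero q ht, zero_mul]⟩
    · obtain ⟨j, h1, h2⟩ := slp_exists q ht.le
      have hv := fun l => slp_val q h1 h2.le l
      have hs : ramp (slp_T q j) (slp_w q j) t ∈ Icc (0 : ℝ) 1 :=
        ⟨ramp_nonneg _ _ _, ramp_le_one _ _ _⟩
      cases j with
      | zero =>
        refine ⟨_, hs, 0, Or.inl fun l => ?_⟩
        rw [hv l]
        simp [slp_q']
      | succ j =>
        refine ⟨_, hs, j, Or.inr fun l => ?_⟩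
        rw [hv l]
        simp only [slp_q']
        ring
  · filter_upwards [eventually_ge_atTop (slp_T q (J + 1))] with t ht
    have hJ := slp_T_ge q (J + 1)
    have hJ0 : (0 : ℝ) ≤ ((J + 1 : ℕ) : ℝ) := Nat.cast_nonneg _
    obtain ⟨j, h1, h2⟩ := slp_exists q (show 1 ≤ t by linarith)
    have hs : ramp (slp_T q j) (slp_w q j) t ∈ Icc (0 : ℝ) 1 :=
      ⟨ramp_nonneg _ _ _, ramp_le_one _ _ _⟩
    have hjJ : J + 1 ≤ j := by
      by_contra hcon
      have h3 : j + 1 ≤ J + 1 := by omega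
      have := slp_T_mono q h3
      linarith
    obtain ⟨i, rfl⟩ : ∃ i, j = i + 1 := ⟨j - 1, by omega⟩
    refine ⟨i, by omega, _, hs, fun l => ?_⟩
    rw [slp_val q h1 h2.le l]
    simp only [slp_q']
    ring
  · refine ⟨slp_T q (j + 1), ?_, fun l => ?_⟩
    · have := slp_T_ge q (j + 1)
      push_cast at this
      linarith
    · have h2 : slp_T q (j + 1) ≤ slp_T q (j + 1 + 1) := slp_T_mono q (Nat.le_succ _)
      rw [slp_val q le_rfl h2 l, ramp_eq_zero (slp_w_pos q _) le_rfl, zero_mul, add_zero]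
      simp [slp_q']

end HBInf
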