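import Pool.Agent.HBInf.HRS
import Pool.Agent.HBInf.TrigE
import Pool.Agent.HBInf.DomApply

/-!
# The condition `CondA` for functions on a critical arc in the upper half-plane

`1/2 < ρ < 1`, `0 ≤ a`, `b = a + (2π - π/ρ) ≤ π`, `b - a = 2β < π/ρ`, `V_α θ = VV 0 ρ (θ - α) = v cos ρ(π - d)`, `v = VV 0 ρ π > 0`, `d` the
distance of `θ - α` to `2πℤ`. `h` is `⊤` off `[a, b] + 2πℤ`, `h θ = η θ` real on `[a, b]`, `η a + η b = 0`.

Let `Dom 0 ρ θ m θ₀`, `h (θ i) ≤ g i`; by periodicity we may assume `θ i ∈ [a, b]`. Integrating the domination over `s`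
(as in `CondAReal`, `∫ kn = VV`): (*) `V_α θ₀ ≤ ∑ m_i(ℝ) V_α (θ i)` for all `α ∈ [0, π]`.
(1) `θ₀ ∈ [a, b]` mod `2π`: otherwise take `α = (a + b)/2`: `V_α (θ i) ≤ 0` and `V_α θ₀ > 0`.
(2) On `[a, b]`, for `t ∈ [a, b]`: `V_t θ = v cos ρ(π - (θ - t)) + 2 v sin ρπ · max 0 (sin ρ(t - θ))`-kink:
for `θ < t` the second term is `2 v sin ρπ sin ρ(t - θ)`, for `θ ≥ t` it is `0`. `V_t a + V_t b = 0`
(`cos ρ(π - x) + cos ρ(π - (2β - x)) = 0` for `0 ≤ x ≤ 2β`), `V_b = -V_a` on `[a, b]`, and every `ρ`-sinusoid `S` with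
`S a + S b = 0` is a multiple of `V_a` on `[a, b]` (`V_a a = v cos ρπ`, it is not identically `0`, and the space of these
`S` is one-dimensional because `S = cos ρ(θ - (a+b)/2)` has `S a + S b ≠ 0`).
(3) Let `F` be the finite set of the `θ i`, `a`, `b`. There is a sinusoid `s₀` with `s₀ θ₀ = η θ₀`, `s₀ ≤ η` on `F`: with
`s₀ θ = η θ₀ cos ρ(θ - θ₀) + λ sin ρ(θ - θ₀)`, the conditions are `λ ≤ q(x) = (η x - η θ₀ cos ρ(x - θ₀)) / sin ρ(x - θ₀)` for
`x ∈ F`, `x > θ₀` and `λ ≥ q(x)` for `x < θ₀`, compatible by `CondT` (`b - a < π/ρ`).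
(4) Let `d_a = η a - s₀ a ≥ 0`, `d_b = η b - s₀ b ≥ 0` and let `δ > 0` be smaller than the distances between points of
`F ∪ {θ₀}`; `e θ = d_a max 0 (sin ρ(a + δ - θ)) / sin ρδ + d_b max 0 (sin ρ(θ - (b - δ))) / sin ρδ` on `[a, b]` (truncated to
`θ ≤ a + δ`, `θ ≥ b - δ`). `k = s₀ + e`: `k θ₀ = η θ₀` (if `θ₀ = a` then `d_a = 0`), `k ≤ η` on `F`, `k a + k b = η a + η b = 0`, and by (2)
`k = c₁ V_{a+δ} + c₂ V_{b-δ} + S` on `[a, b]`, `c₁, c₂ ≥ 0`, `S` a sinusoid with `S a + S b = 0`, so `S = c V_a`.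
(5) By (*) for `a + δ`, `b - δ`, `a`, `b` (all in `[0, π]`; equality for `V_a` as `V_b = -V_a`):
`η θ₀ = k θ₀ ≤ ∑ m_i(ℝ) k (θ i) ≤ ∑ m_i(ℝ) η (θ i) ≤ ∑ m_i(ℝ) g i`.
-/

namespace HBInf

open HBInd Complex Filter Topology Set MeasureTheory
open scoped Real ComplexConjugate

private theorem ten_dom {p : ℕ} (hp : p ≤ 1) {ρ : ℝ} (h1 : (p : ℝ) < ρ) (h2 : ρ < p + 1)
    {n : ℕ} {θ : Fin n → ℝ} {m : Fin n → Measure ℝ} {θ₀ : ℝ}
    (hm : ∀ i, IsFiniteMeasure (m i)) (hd : Dom p ρ θ m θ₀) {α : ℝ} (hα : α ∈ TT p) :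
    VV p ρ (θ₀ - α) ≤ ∑ i, (m i).real univ * VV p ρ (θ i - α) := by
  have h := (dom_dens hp h1 h2 hm hd hα (r := fun _ => 1) measurable_const (B := 1)
    (fun t => ⟨zero_le_one, le_rfl⟩) 0).2
  simp only [mul_one, integral_const, smul_eq_mul] at h
  exact h

private theorem ten_support {ρ a b t : ℝ} (hρ : 0 < ρ) (hab : ρ * (b - a) < π) {η : ℝ → ℝ}
    (hconv : ∀ x y, a ≤ x → x < t → t < y → y ≤ b → η t * Real.sin (ρ * (y - x)) ≤
      η x * Real.sin (ρ * (y - t)) + η y * Real.sin (ρ * (t - x)))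
    (F : Finset ℝ) (hF : ∀ y ∈ F, y ∈ Icc a b) (ht : t ∈ Icc a b) :
    ∃ lam : ℝ, ∀ y ∈ F, η t * Real.cos (ρ * (y - t)) + lam * Real.sin (ρ * (y - t)) ≤ η y := by
  classical
  let qL : ℝ → ℝ := fun x => (η t * Real.cos (ρ * (t - x)) - η x) / Real.sin (ρ * (t - x))
  let qR : ℝ → ℝ := fun y => (η y - η t * Real.cos (ρ * (y - t))) / Real.sin (ρ * (y - t))
  have hsin : ∀ x y, a ≤ x → x < y → y ≤ b → 0 < Real.sin (ρ * (y - x)) := by
    intro x y h1 h2 h3
    apply Real.sin_pos_of_pos_of_lt_pi (mul_pos hρ (by linarith))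
    refine lt_of_le_of_lt ?_ hab
    exact mul_le_mul_of_nonneg_left (by linarith) hρ.le
  have hcomp : ∀ x y, a ≤ x → x < t → t < y → y ≤ b → qL x ≤ qR y := by
    intro x y h1 h2 h3 h4
    have hs1 := hsin x t h1 h2 ht.2
    have hs2 := hsin t y ht.1 h3 h4
    have hc := hconv x y h1 h2 h3 h4
    have e : ρ * (y - x) = ρ * (t - x) + ρ * (y - t) := by ring
    rw [e, Real.sin_add] at hc
    show (η t * Real.cos (ρ * (t - x)) - η x) / Real.sin (ρ * (t - x)) ≤
      (η y - η t * Real.cos (ρ * (y - t))) / Real.sin (ρ * (y - t))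
    rw [div_le_div_iff₀ hs1 hs2]
    linarith
  obtain ⟨lam, hL, hR⟩ : ∃ lam : ℝ, (∀ x ∈ F, x < t → qL x ≤ lam) ∧
      ∀ y ∈ F, t < y → lam ≤ qR y := by
    rcases (F.filter (fun y => t < y)).eq_empty_or_nonempty with hemp | hne
    · rcases (F.filter (fun y => y < t)).eq_empty_or_nonempty with hemp' | hne'
      · refine ⟨0, fun x hx hxt => ?_, fun y hy hyt => ?_⟩
        · have : x ∈ F.filter (fun y => y < t) := Finset.mem_filter.2 ⟨hx, hxt⟩
          rw [hemp'] at this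
          simp at this
        · have : y ∈ F.filter (fun y => t < y) := Finset.mem_filter.2 ⟨hy, hyt⟩
          rw [hemp] at this
          simp at this
      · obtain ⟨x₀, hx₀, hmax⟩ := Finset.exists_max_image _ qL hne'
        refine ⟨qL x₀, fun x hx hxt => hmax x (Finset.mem_filter.2 ⟨hx, hxt⟩),
          fun y hy hyt => ?_⟩
        have : y ∈ F.filter (fun y => t < y) := Finset.mem_filter.2 ⟨hy, hyt⟩
        rw [hemp] at this
        simp at this
    · obtain ⟨y₀, hy₀, hmin⟩ := Finset.exists_min_image _ qR hne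
      rw [Finset.mem_filter] at hy₀
      refine ⟨qR y₀, fun x hx hxt => ?_, fun y hy hyt => hmin y (Finset.mem_filter.2 ⟨hy, hyt⟩)⟩
      exact hcomp x y₀ (hF x hx).1 hxt hy₀.2 (hF y₀ hy₀.1).2
  refine ⟨lam, fun y hy => ?_⟩
  rcases lt_trichotomy y t with hlt | heq | hgt
  · have hs1 := hsin y t (hF y hy).1 hlt ht.2
    have h3 := hL y hy hlt
    have h4 : (η t * Real.cos (ρ * (t - y)) - η y) / Real.sin (ρ * (t - y)) ≤ lam := h3
    rw [div_le_iff₀ hs1] at h4
    have e : ρ * (y - t) = -(ρ * (t - y)) := by ring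
    rw [e, Real.cos_neg, Real.sin_neg]
    linarith
  · rw [heq]
    simp
  · have hs1 := hsin t y ht.1 hgt (hF y hy).2
    have h3 := hR y hy hgt
    have h4 : lam ≤ (η y - η t * Real.cos (ρ * (y - t))) / Real.sin (ρ * (y - t)) := h3
    rw [le_div_iff₀ hs1] at h4
    linarith

private theorem ten_delta {a b : ℝ} (F : Finset ℝ) (hF : ∀ y ∈ F, y ∈ Icc a b) {β : ℝ}
    (hβ : 0 < β) : ∃ δ, 0 < δ ∧ δ < β ∧ ∀ y ∈ F, (y = a ∨ a + δ ≤ y) ∧ (y = b ∨ y ≤ b - δ) := by
  have h1 : ∀ᶠ δ in 𝓝[>] (0 : ℝ), ∀ y ∈ F, (y = a ∨ a + δ ≤ y) ∧ (y = b ∨ y ≤ b - δ) := by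
    refine (Filter.eventually_all_finset F).2 fun y hy => ?_
    obtain ⟨hy1, hy2⟩ := hF y hy
    refine Filter.Eventually.and ?_ ?_
    · rcases hy1.eq_or_lt with h | h
      · exact Filter.Eventually.of_forall fun δ => Or.inl h.symm
      · filter_upwards [Ioo_mem_nhdsGT (sub_pos.2 h)] with δ hδ
        right
        linarith [hδ.2]
    · rcases hy2.eq_or_lt with h | h
      · exact Filter.Eventually.of_forall fun δ => Or.inl h
      · filter_upwards [Ioo_mem_nhdsGT (sub_pos.2 h)] with δ hδ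
        right
        linarith [hδ.2]
  obtain ⟨δ, hδ, hδ2⟩ := (h1.and (Ioo_mem_nhdsGT hβ)).exists
  exact ⟨δ, hδ2.1, hδ2.2, hδ⟩

private theorem ten_core {ρ β c t : ℝ} (hρ : 0 < ρ) (hβ : 0 < β) (hρβ : ρ * β < π / 2)
    {η : ℝ → ℝ}
    (hconv : ∀ x y, c - β ≤ x → x < t → t < y → y ≤ c + β → η t * Real.sin (ρ * (y - x)) ≤
      η x * Real.sin (ρ * (y - t)) + η y * Real.sin (ρ * (t - x)))
    (hab : η (c - β) + η (c + β) = 0) {n : ℕ} {x w : Fin n → ℝ}
    (hx : ∀ i, x i ∈ Icc (c - β) (c + β)) (ht : t ∈ Icc (c - β) (c + β)) (hw : ∀ i, 0 ≤ w i)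
    (hs : ∀ τ ∈ Icc (c - β) (c + β), Real.sin (ρ * (|t - τ| - β)) ≤
      ∑ i, w i * Real.sin (ρ * (|x i - τ| - β))) :
    η t ≤ ∑ i, w i * η (x i) := by
  classical
  have hπ := Real.pi_pos
  set F : Finset ℝ := insert t (insert (c - β) (insert (c + β) (Finset.univ.image x))) with hF
  have hFm : ∀ y ∈ F, y ∈ Icc (c - β) (c + β) := by
    intro y hy
    rw [hF, Finset.mem_insert, Finset.mem_insert, Finset.mem_insert, Finset.mem_image] at hy
    rcases hy with rfl | rfl | rfl | ⟨i, -, rfl⟩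
    · exact ht
    · exact ⟨le_rfl, by linarith⟩
    · exact ⟨by linarith, le_rfl⟩
    · exact hx i
  have htF : t ∈ F := by rw [hF]; simp
  have haF : c - β ∈ F := by rw [hF]; simp
  have hbF : c + β ∈ F := by rw [hF]; simp
  have hxF : ∀ i, x i ∈ F := by intro i; rw [hF]; simp
  obtain ⟨lam, hlam⟩ := ten_support hρ (a := c - β) (b := c + β) (by linarith) hconv F hFm ht
  obtain ⟨δ, hδ0, hδβ, hδ⟩ := ten_delta F hFm hβ
  have hρβ0 : 0 < ρ * β := mul_pos hρ hβ
  have hρδ : ρ * δ < ρ * β := mul_lt_mul_of_pos_left hδβ hρ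
  have hρδ0 : 0 < ρ * δ := mul_pos hρ hδ0
  have hcβ : 0 < Real.cos (ρ * β) := Real.cos_pos_of_mem_Ioo ⟨by linarith, hρβ⟩
  have hsδ : 0 < Real.sin (ρ * δ) := Real.sin_pos_of_pos_of_lt_pi hρδ0 (by linarith)
  set N : ℝ := 2 * Real.sin (ρ * δ) * Real.cos (ρ * β) with hN
  have hN0 : 0 < N := by positivity
  set s₀ : ℝ → ℝ := fun y => η t * Real.cos (ρ * (y - t)) + lam * Real.sin (ρ * (y - t))
    with hs₀
  set c1 : ℝ := (η (c - β) - s₀ (c - β)) / N with hc1
  set c2 : ℝ := (η (c + β) - s₀ (c + β)) / N with hc2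
  have hc10 : 0 ≤ c1 := div_nonneg (sub_nonneg.2 (hlam _ haF)) hN0.le
  have hc20 : 0 ≤ c2 := div_nonneg (sub_nonneg.2 (hlam _ hbF)) hN0.le
  have hc1N : c1 * N = η (c - β) - s₀ (c - β) := div_mul_cancel₀ _ hN0.ne'
  have hc2N : c2 * N = η (c + β) - s₀ (c + β) := div_mul_cancel₀ _ hN0.ne'
  set P₀ : ℝ := η t * Real.cos (ρ * (c - t)) + lam * Real.sin (ρ * (c - t)) with hP₀
  set Q₀ : ℝ := -(η t * Real.sin (ρ * (c - t))) + lam * Real.cos (ρ * (c - t)) with hQ₀
  set B : ℝ := Q₀ - c1 * Real.cos (ρ * δ) + c2 * Real.cos (ρ * δ) with hB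
  have hs0v : ∀ v, s₀ (c + v) = P₀ * Real.cos (ρ * v) + Q₀ * Real.sin (ρ * v) := by
    intro v
    have e : ρ * (c + v - t) = ρ * v + ρ * (c - t) := by ring
    simp only [hs₀, hP₀, hQ₀]
    rw [e, Real.cos_add, Real.sin_add]
    ring
  have hPc : P₀ + (c1 + c2) * Real.sin (ρ * δ) = 0 := by
    have h1 := hs0v β
    have h2 := hs0v (-β)
    have e : c + -β = c - β := by ring
    rw [e, mul_neg, Real.cos_neg, Real.sin_neg] at h2
    have h3 : (c1 + c2) * N = -(2 * P₀ * Real.cos (ρ * β)) := by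
      rw [add_mul, hc1N, hc2N, h1, h2]
      linarith
    rw [hN] at h3
    have h4 : Real.cos (ρ * β) * (P₀ + (c1 + c2) * Real.sin (ρ * δ)) = 0 := by linarith
    rcases mul_eq_zero.1 h4 with h5 | h5
    · exact absurd h5 hcβ.ne'
    · exact h5
  have hI : ∀ v, s₀ (c + v) = c1 * Real.sin (ρ * (v - δ)) + c2 * Real.sin (ρ * (-v - δ)) +
      B * Real.sin (ρ * v) := by
    intro v
    have e1 : ρ * (v - δ) = ρ * v - ρ * δ := by ring
    have e2 : ρ * (-v - δ) = -(ρ * v) - ρ * δ := by ring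
    rw [hs0v, e1, e2, Real.sin_sub, Real.sin_sub, Real.sin_neg, Real.cos_neg, hB]
    have h6 : P₀ = -((c1 + c2) * Real.sin (ρ * δ)) := by linarith
    rw [h6]
    ring
  let k : ℝ → ℝ := fun y => c1 * Real.sin (ρ * (|y - (c - β + δ)| - β)) +
    c2 * Real.sin (ρ * (|y - (c + β - δ)| - β)) + B * Real.sin (ρ * (y - c))
  have hk1 : k (c - β) = η (c - β) := by
    have h1 := hI (-β)
    have e : c + -β = c - β := by ring
    rw [e] at h1
    have h2 : k (c - β) = c1 * Real.sin (ρ * (δ - β)) + c2 * Real.sin (ρ * (β - δ)) +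
        B * Real.sin (ρ * -β) := by
      show c1 * Real.sin (ρ * (|c - β - (c - β + δ)| - β)) +
        c2 * Real.sin (ρ * (|c - β - (c + β - δ)| - β)) + B * Real.sin (ρ * (c - β - c)) = _
      have e1 : |c - β - (c - β + δ)| = δ := by
        rw [show c - β - (c - β + δ) = -δ by ring, abs_neg, abs_of_pos hδ0]
      have e2 : |c - β - (c + β - δ)| = 2 * β - δ := by
        rw [abs_of_nonpos (by linarith)]
        ring
      rw [e1, e2, show 2 * β - δ - β = β - δ by ring, show c - β - c = -β by ring]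
    have h3 : Real.sin (ρ * (δ - β)) - Real.sin (ρ * (-β - δ)) = N := by
      rw [show ρ * (δ - β) = ρ * δ - ρ * β by ring,
        show ρ * (-β - δ) = -(ρ * β) - ρ * δ by ring, Real.sin_sub, Real.sin_sub,
        Real.sin_neg, Real.cos_neg, hN]
      ring
    have h4 : c1 * (Real.sin (ρ * (δ - β)) - Real.sin (ρ * (-β - δ))) =
        η (c - β) - s₀ (c - β) := by rw [h3, hc1N]
    rw [show ρ * (- -β - δ) = ρ * (β - δ) by ring] at h1
    rw [h2]
    linarith
  have hk2 : k (c + β) = η (c + β) := by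
    have h1 := hI β
    have h2 : k (c + β) = c1 * Real.sin (ρ * (β - δ)) + c2 * Real.sin (ρ * (δ - β)) +
        B * Real.sin (ρ * β) := by
      show c1 * Real.sin (ρ * (|c + β - (c - β + δ)| - β)) +
        c2 * Real.sin (ρ * (|c + β - (c + β - δ)| - β)) + B * Real.sin (ρ * (c + β - c)) = _
      have e1 : |c + β - (c + β - δ)| = δ := by
        rw [show c + β - (c + β - δ) = δ by ring, abs_of_pos hδ0]
      have e2 : |c + β - (c - β + δ)| = 2 * β - δ := by
        rw [abs_of_nonneg (by linarith)]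
        ring
      rw [e1, e2, show 2 * β - δ - β = β - δ by ring, show c + β - c = β by ring]
    have h3 : Real.sin (ρ * (δ - β)) - Real.sin (ρ * (-β - δ)) = N := by
      rw [show ρ * (δ - β) = ρ * δ - ρ * β by ring,
        show ρ * (-β - δ) = -(ρ * β) - ρ * δ by ring, Real.sin_sub, Real.sin_sub,
        Real.sin_neg, Real.cos_neg, hN]
      ring
    have h4 : c2 * (Real.sin (ρ * (δ - β)) - Real.sin (ρ * (-β - δ))) =
        η (c + β) - s₀ (c + β) := by rw [h3, hc2N]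
    rw [h2]
    linarith
  have hkm : ∀ y, c - β + δ ≤ y → y ≤ c + β - δ → k y = s₀ y := by
    intro y h1 h2
    have h3 := hI (y - c)
    rw [add_sub_cancel] at h3
    rw [h3]
    show c1 * Real.sin (ρ * (|y - (c - β + δ)| - β)) +
        c2 * Real.sin (ρ * (|y - (c + β - δ)| - β)) + B * Real.sin (ρ * (y - c)) = _
    rw [abs_of_nonneg (by linarith), abs_of_nonpos (by linarith),
      show y - (c - β + δ) - β = y - c - δ by ring,
      show -(y - (c + β - δ)) - β = -(y - c) - δ by ring]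
  have hkle : ∀ y ∈ F, k y ≤ η y := by
    intro y hy
    obtain ⟨h1, h2⟩ := hδ y hy
    rcases h1 with h1 | h1
    · rw [h1, hk1]
    · rcases h2 with h2 | h2
      · rw [h2, hk2]
      · rw [hkm y h1 h2]
        exact hlam y hy
  have hkt : k t = η t := by
    obtain ⟨h1, h2⟩ := hδ t htF
    rcases h1 with h1 | h1
    · rw [h1, hk1]
    · rcases h2 with h2 | h2
      · rw [h2, hk2]
      · rw [hkm t h1 h2]
        simp [hs₀]
  have hsa := hs (c - β) ⟨le_rfl, by linarith⟩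
  have hsb := hs (c + β) ⟨by linarith, le_rfl⟩
  have hs1 := hs (c - β + δ) ⟨by linarith, by linarith⟩
  have hs2 := hs (c + β - δ) ⟨by linarith, by linarith⟩
  have ea : ∀ y ∈ Icc (c - β) (c + β), Real.sin (ρ * (|y - (c - β)| - β)) =
      Real.sin (ρ * (y - c)) := by
    intro y hy
    rw [abs_of_nonneg (by linarith [hy.1]), show y - (c - β) - β = y - c by ring]
  have eb : ∀ y ∈ Icc (c - β) (c + β), Real.sin (ρ * (|y - (c + β)| - β)) =
      -Real.sin (ρ * (y - c)) := by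
    intro y hy
    rw [abs_of_nonpos (by linarith [hy.2]), show -(y - (c + β)) - β = -(y - c) by ring,
      mul_neg, Real.sin_neg]
  have hEq : Real.sin (ρ * (t - c)) = ∑ i, w i * Real.sin (ρ * (x i - c)) := by
    rw [ea t ht] at hsa
    rw [eb t ht] at hsb
    have h1 : ∑ i, w i * Real.sin (ρ * (|x i - (c - β)| - β)) =
        ∑ i, w i * Real.sin (ρ * (x i - c)) :=
      Finset.sum_congr rfl fun i _ => by rw [ea (x i) (hx i)]
    have h2 : ∑ i, w i * Real.sin (ρ * (|x i - (c + β)| - β)) =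
        -∑ i, w i * Real.sin (ρ * (x i - c)) := by
      rw [← Finset.sum_neg_distrib]
      exact Finset.sum_congr rfl fun i _ => by rw [eb (x i) (hx i)]; ring
    rw [h1] at hsa
    rw [h2] at hsb
    linarith
  have hsum : ∑ i, w i * k (x i) =
      c1 * ∑ i, w i * Real.sin (ρ * (|x i - (c - β + δ)| - β)) +
      c2 * ∑ i, w i * Real.sin (ρ * (|x i - (c + β - δ)| - β)) +
      B * ∑ i, w i * Real.sin (ρ * (x i - c)) := by
    rw [Finset.mul_sum, Finset.mul_sum, Finset.mul_sum, ← Finset.sum_add_distrib,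
      ← Finset.sum_add_distrib]
    refine Finset.sum_congr rfl fun i _ => ?_
    show w i * (c1 * Real.sin (ρ * (|x i - (c - β + δ)| - β)) +
        c2 * Real.sin (ρ * (|x i - (c + β - δ)| - β)) + B * Real.sin (ρ * (x i - c))) = _
    ring
  have hkt2 : k t ≤ ∑ i, w i * k (x i) := by
    rw [hsum, ← hEq]
    show c1 * Real.sin (ρ * (|t - (c - β + δ)| - β)) +
        c2 * Real.sin (ρ * (|t - (c + β - δ)| - β)) + B * Real.sin (ρ * (t - c)) ≤ _
    have h1 := mul_le_mul_of_nonneg_left hs1 hc10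
    have h2 := mul_le_mul_of_nonneg_left hs2 hc20
    linarith
  rw [← hkt]
  refine hkt2.trans (Finset.sum_le_sum fun i _ => ?_)
  exact mul_le_mul_of_nonneg_left (hkle _ (hxF i)) (hw i)

private theorem ten_per {h : ℝ → EReal} (hper : ∀ θ, h (θ + 2 * π) = h θ) (θ : ℝ) (n : ℤ) :
    h (θ + n * (2 * π)) = h θ := by
  have h1 : Function.Periodic h (2 * π) := hper
  exact h1.int_mul n θ

private theorem ten_mod {h : ℝ → EReal} (hper : ∀ θ, h (θ + 2 * π) = h θ) {a b : ℝ}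
    (htop : ∀ θ ∈ Ioo b (a + 2 * π), h θ = ⊤) {y : ℝ} (hy : h y ≠ ⊤) :
    ∃ m : ℤ, y + m * (2 * π) ∈ Icc a b := by
  obtain ⟨m, hm, -⟩ := existsUnique_add_zsmul_mem_Ico Real.two_pi_pos y a
  simp only [zsmul_eq_mul] at hm
  refine ⟨m, hm.1, ?_⟩
  by_contra hcon
  rw [not_le] at hcon
  exact hy (by rw [← ten_per hper y m]; exact htop _ ⟨hcon, hm.2⟩)

private theorem ten_G {ρ β : ℝ} (hβρ : ρ * (π - β) = π / 2) {x : ℝ} (hx : |x| ≤ π) :
    G ρ x = Real.sin (ρ * (|x| - β)) := by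
  rw [G_of_abs_le hx, ← Real.cos_pi_div_two_sub]
  congr 1
  linarith

private theorem ten_G_pos {ρ β : ℝ} (hρ : 0 < ρ) (hβρ : ρ * (π - β) = π / 2) {y : ℝ}
    (hβ : 0 < β) (h1 : β < y) (h2 : y < 2 * π - β) : 0 < G ρ y := by
  have hπ := Real.pi_pos
  rcases le_or_gt y π with h3 | h3
  · rw [G_of_abs_le (by rw [abs_of_pos (by linarith)]; exact h3), abs_of_pos (by linarith)]
    apply Real.cos_pos_of_mem_Ioo
    have h4 : 0 ≤ ρ * (π - y) := mul_nonneg hρ.le (by linarith)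
    have h5 : ρ * (π - y) < ρ * (π - β) := mul_lt_mul_of_pos_left (by linarith) hρ
    exact ⟨by linarith, by linarith⟩
  · have h6 : G ρ (y - 2 * π) = G ρ y := by
      have := G_add_int ρ y (-1)
      rw [← this]
      congr 1
      push_cast
      ring
    rw [← h6, G_of_abs_le (by rw [abs_of_nonpos (by linarith)]; linarith),
      abs_of_nonpos (by linarith)]
    apply Real.cos_pos_of_mem_Ioo
    have h4 : 0 ≤ ρ * (π - -(y - 2 * π)) := mul_nonneg hρ.le (by linarith)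
    have h5 : ρ * (π - -(y - 2 * π)) < ρ * (π - β) :=
      mul_lt_mul_of_pos_left (by linarith) hρ
    exact ⟨by linarith, by linarith⟩

theorem condA_tent {ρ : ℝ} (h1 : 1 / 2 < ρ) (h2 : ρ < 1) {h : ℝ → EReal} {η : ℝ → ℝ}
    (hper : ∀ θ, h (θ + 2 * π) = h θ) (hT : CondT ρ h) {a b : ℝ} (hb : b = a + (2 * π - π / ρ))
    (ha0 : 0 ≤ a) (hbπ : b ≤ π) (htop : ∀ θ ∈ Ioo b (a + 2 * π), h θ = ⊤)
    (hη : ∀ θ ∈ Icc a b, h θ = (η θ : EReal)) (hab : η a + η b = 0) : CondA 0 ρ h := by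
  have hπ := Real.pi_pos
  have hρ0 : 0 < ρ := by linarith
  set β : ℝ := π - π / (2 * ρ) with hβ
  have hβq : 2 * β = 2 * π - π / ρ := by
    rw [hβ]
    field_simp
  have hβρ : ρ * (π - β) = π / 2 := by
    rw [hβ]
    field_simp
    ring
  have hq1 : π < π / ρ := by
    rw [lt_div_iff₀ hρ0]
    nlinarith
  have hq2 : π / ρ < 2 * π := by
    rw [div_lt_iff₀ hρ0]
    nlinarith
  have hβ0 : 0 < β := by linarith
  have hρβ : ρ * β < π / 2 := by
    have : ρ * π < 1 * π := mul_lt_mul_of_pos_right h2 hπ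
    linarith
  have hρ' : ((0 : ℕ) : ℝ) < ρ := by rw [Nat.cast_zero]; exact hρ0
  have hρ'' : ρ < ((0 : ℕ) : ℝ) + 1 := by rw [Nat.cast_zero]; linarith
  set c : ℝ := a + β with hc
  have hca : c - β = a := by rw [hc]; ring
  have hcb : c + β = b := by rw [hc, hb]; linarith
  have hv := VV_pi_zero hρ0 h2
  intro n θ m g θ₀ hm hg _ hd
  -- the reduction of the rays
  have hθT : ∀ i, h (θ i) ≠ ⊤ := fun i => ((hg i).trans_lt (EReal.coe_lt_top _)).ne
  choose mi hmi using fun i => ten_mod hper htop (hθT i)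
  have hgi : ∀ i, η (θ i + mi i * (2 * π)) ≤ g i := by
    intro i
    have h3 := hg i
    rw [← ten_per hper (θ i) (mi i), hη _ (hmi i)] at h3
    exact_mod_cast h3
  obtain ⟨m₀, hm₀, -⟩ := existsUnique_add_zsmul_mem_Ico Real.two_pi_pos θ₀ a
  simp only [zsmul_eq_mul] at hm₀
  have hstar : ∀ α ∈ Icc a b, G ρ (θ₀ + m₀ * (2 * π) - α) ≤
      ∑ i, (m i).real univ * G ρ (θ i + mi i * (2 * π) - α) := by
    intro α hα
    have hαT : α ∈ TT 0 :=
      ⟨⟨by linarith [hα.1], by linarith [hα.2]⟩, fun h => absurd h zero_ne_one⟩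
    have h3 := ten_dom (by norm_num) hρ' hρ'' hm hd hαT
    rw [VV_eq (by norm_num) hρ' hρ''] at h3
    have h4 : ∑ i, (m i).real univ * VV 0 ρ (θ i - α) =
        VV 0 ρ π * ∑ i, (m i).real univ * G ρ (θ i + mi i * (2 * π) - α) := by
      rw [Finset.mul_sum]
      refine Finset.sum_congr rfl fun i _ => ?_
      rw [VV_eq (by norm_num) hρ' hρ'' (θ i - α),
        show θ i + mi i * (2 * π) - α = θ i - α + mi i * (2 * π) by ring, G_add_int]
      ring
    rw [h4] at h3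
    rw [show θ₀ + m₀ * (2 * π) - α = θ₀ - α + m₀ * (2 * π) by ring, G_add_int]
    exact le_of_mul_le_mul_left h3 hv
  have hw : ∀ i, 0 ≤ (m i).real univ := fun i => measureReal_nonneg
  have hGab : ∀ x ∈ Icc a b, ∀ α ∈ Icc a b, G ρ (x - α) = Real.sin (ρ * (|x - α| - β)) := by
    intro x hx α hα
    apply ten_G hβρ
    rw [abs_le]
    constructor <;> linarith [hx.1, hx.2, hα.1, hα.2]
  have hmid : c ∈ Icc a b := ⟨by linarith, by linarith⟩
  have htb : θ₀ + m₀ * (2 * π) ≤ b := by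
    by_contra hcon
    rw [not_le] at hcon
    have h3 := hstar c hmid
    have h4 : 0 < G ρ (θ₀ + m₀ * (2 * π) - c) :=
      ten_G_pos hρ0 hβρ hβ0 (by linarith) (by linarith [hm₀.2])
    have h5 : ∑ i, (m i).real univ * G ρ (θ i + mi i * (2 * π) - c) ≤ 0 := by
      apply Finset.sum_nonpos
      intro i _
      apply mul_nonpos_of_nonneg_of_nonpos (hw i)
      rw [hGab _ (hmi i) c hmid]
      obtain ⟨h6, h7⟩ := hmi i
      have h8 : |θ i + mi i * (2 * π) - c| ≤ β := by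
        rw [abs_le]
        constructor <;> linarith
      have h9 := abs_nonneg (θ i + mi i * (2 * π) - c)
      have h10 : ρ * (|θ i + mi i * (2 * π) - c| - β) ≤ 0 :=
        mul_nonpos_of_nonneg_of_nonpos hρ0.le (by linarith)
      have h11 : -(ρ * β) ≤ ρ * (|θ i + mi i * (2 * π) - c| - β) := by
        have := mul_nonneg hρ0.le h9
        linarith
      exact Real.sin_nonpos_of_nonpos_of_neg_pi_le h10 (by linarith)
    linarith
  have ht : θ₀ + m₀ * (2 * π) ∈ Icc a b := ⟨hm₀.1, htb⟩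
  have hcore := ten_core (t := θ₀ + m₀ * (2 * π)) (c := c) (η := η) hρ0 hβ0 hρβ (by
      intro x y h3 h4 h5 h6
      rw [hca] at h3
      rw [hcb] at h6
      have hlen : y - x < π / ρ := by linarith
      have h7 := hT x (θ₀ + m₀ * (2 * π)) y (η x) (η y) h4 h5 hlen
        (hη x ⟨h3, by linarith⟩).le (hη y ⟨by linarith, h6⟩).le
      rw [hη _ ht, EReal.coe_le_coe_iff, le_div_iff₀ (tre_sin_pos hρ0 (h4.trans h5) hlen)] at h7
      exact h7) (by rw [hca, hcb]; exact hab)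
    (x := fun i => θ i + mi i * (2 * π)) (w := fun i => (m i).real univ)
    (by intro i; rw [hca, hcb]; exact hmi i) (by rw [hca, hcb]; exact ht) hw (by
      intro τ hτ
      rw [hca, hcb] at hτ
      have h3 := hstar τ hτ
      rw [hGab _ ht τ hτ] at h3
      refine h3.trans (le_of_eq ?_)
      refine Finset.sum_congr rfl fun i _ => ?_
      rw [hGab _ (hmi i) τ hτ])
  rw [← ten_per hper θ₀ m₀, hη _ ht, EReal.coe_le_coe_iff]
  exact hcore.trans (Finset.sum_le_sum fun i _ => mul_le_mul_of_nonneg_left (hgi i) (hw i))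

theorem condC_tent {ρ : ℝ} (h1 : 1 / 2 < ρ) (h2 : ρ < 1) {h : ℝ → EReal} {η : ℝ → ℝ}
    (hper : ∀ θ, h (θ + 2 * π) = h θ) {a b : ℝ} (hb : b = a + (2 * π - π / ρ))
    (htop : ∀ θ ∈ Ioo b (a + 2 * π), h θ = ⊤)
    (hη : ∀ θ ∈ Icc a b, h θ = (η θ : EReal)) (hab : η a + η b = 0) : CondC ρ h := by
  have hπ := Real.pi_pos
  have hρ0 : 0 < ρ := by linarith
  have hq1 : π < π / ρ := by
    rw [lt_div_iff₀ hρ0]
    nlinarith
  have hq2 : π / ρ < 2 * π := by
    rw [div_lt_iff₀ hρ0]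
    nlinarith
  intro x A B hA hB
  obtain ⟨m1, hm1⟩ := ten_mod hper htop (hA.trans_lt (EReal.coe_lt_top _)).ne
  obtain ⟨m2, hm2⟩ := ten_mod hper htop (hB.trans_lt (EReal.coe_lt_top _)).ne
  rw [← ten_per hper x m1, hη _ hm1] at hA
  rw [← ten_per hper (x + π / ρ) m2, hη _ hm2] at hB
  obtain ⟨a1, a2⟩ := hm1
  obtain ⟨b1, b2⟩ := hm2
  have hm : m1 = m2 + 1 := by
    by_contra hne
    rcases lt_or_gt_of_ne hne with h | h
    · have h3 : (m1 : ℝ) + 1 ≤ m2 + 1 := by exact_mod_cast h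
      have h4 := mul_le_mul_of_nonneg_right h3 hπ.le
      linarith
    · have h3 : (m2 : ℝ) + 1 + 1 ≤ m1 := by exact_mod_cast h
      have h4 := mul_le_mul_of_nonneg_right h3 hπ.le
      linarith
  rw [hm] at hA a1 a2
  push_cast at hA a1 a2
  have e1 : x + (m2 + 1) * (2 * π) = b := by linarith
  have e2 : x + π / ρ + m2 * (2 * π) = a := by linarith
  rw [e1] at hA
  rw [e2] at hB
  have hA' : η b ≤ A := by exact_mod_cast hA
  have hB' : η a ≤ B := by exact_mod_cast hB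
  linarith

end HBInf
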