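import Pool.Agent.HBInf.KnTools

/-!
# Zero data: summability, the exponential averages of the density

* `ZD.countable`: `e^{-(ρ+1) s_i}` is summable and positive (`Summable.countable_support`).
* `ZD.finite_lt`: finitely many `s_i < R`: the terms `e^{-(ρ+1) s_i} ≥ e^{-(ρ+1) R}` tend to `0` cofinitely.
* `ZD.N_summable`: `e^{-ρ s - σ |y - s|} ≤ e^{σ |y|} e^{-(ρ+σ) s}`.
* `ZD.N_mono`, `ZD.N_le`: termwise; `N σ y ≤ e^{σ |y - y'|} N σ y'` as `|y' - s| ≤ |y - s| + |y - y'|`.
* `ZD.N_cmp`: for `y ≤ 0`: `N σ y ≤ e^{σ y} ∑ e^{-(ρ+σ) s}`, so `N σ` is bounded on every `(-∞, Y]`.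
* `ZD.U_summable`: for `y ∉ {s_i}`, `|kp p (y - s_i) ψ| = e^{ρ (y - s_i)} |kn (y - s_i)| ≤
  e^{ρ (y - s_i)} Psi (y - s_i)`, and for all but finitely many `i`, `|y - s_i| ≥ 1`, `Psi u ≤ C e^{-sg |u|}`
  (`psi_le`).
* `ZD.U_le`: `kn_le`: `U y θ ≤ C e^{ρy} N (sg p ρ) y` for all `y ∉ {s_i}`.
* `ZD.U_meas`: countable sum of measurable functions (on the set of convergence; `tsum` of measurable real
  functions: use `AEMeasurable`, the partial sums converge a.e.).
* `ZD.N_all`: if `N σ` is bounded for one `σ > 0` then for all: for `σ' < σ`,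
  `e^{-σ'|y - s|} ≤ C ∑_{k ∈ ℤ} e^{-σ'|k|} e^{-σ |y + k - s|}` (take `k` nearest to `s - y`), so
  `N σ' y ≤ C ∑_k e^{-σ'|k|} N σ (y + k)`. Similarly `N_lin`: linear bounds `C (1 + |y|)`.
-/

namespace HBInf

open HBInd Complex Filter Topology Set MeasureTheory
open scoped Real ComplexConjugate

variable {p : ℕ} {ρ : ℝ} {ι : Type}

theorem ZD.countable (D : ZD p ρ ι) : Countable ι := by
  have h := (D.sum (ρ + 1) (by linarith)).countable_support
  have h2 : Function.support (fun i => Real.exp (-(ρ + 1) * D.s i)) = univ := by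
    ext i
    simp [Function.mem_support, (Real.exp_pos _).ne']
  rw [h2] at h
  exact Set.countable_univ_iff.1 h

theorem ZD.finite_lt (D : ZD p ρ ι) (R : ℝ) : {i | D.s i < R}.Finite := by
  have hρ : ρ < |ρ| + 1 := by linarith [le_abs_self ρ]
  have h := (D.sum (|ρ| + 1) hρ).tendsto_cofinite_zero
  have hpos : 0 < Real.exp (-(|ρ| + 1) * R) := Real.exp_pos _
  have h2 := h.eventually (gt_mem_nhds hpos)
  rw [eventually_cofinite] at h2
  refine h2.subset ?_
  intro i hi
  simp only [mem_ofPred_eq] at hi ⊢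
  rw [not_lt]
  apply Real.exp_le_exp.2
  have h0 : 0 ≤ |ρ| := abs_nonneg ρ
  nlinarith

theorem ZD.N_summable (D : ZD p ρ ι) {σ : ℝ} (hσ : 0 < σ) (y : ℝ) :
    Summable fun i => Real.exp (-ρ * D.s i) * Real.exp (-σ * |y - D.s i|) := by
  refine Summable.of_nonneg_of_le (fun i => by positivity) (fun i => ?_)
    ((D.sum (ρ + σ) (by linarith)).mul_left (Real.exp (σ * |y|)))
  rw [← Real.exp_add, ← Real.exp_add]
  apply Real.exp_le_exp.2
  have h1 : D.s i - |y| ≤ |y - D.s i| := by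
    have := abs_sub_abs_le_abs_sub (D.s i) y
    rw [abs_sub_comm, abs_of_nonneg (D.s0 i)] at this
    exact this
  nlinarith

theorem ZD.N_nonneg (D : ZD p ρ ι) (σ y : ℝ) : 0 ≤ D.N σ y :=
  tsum_nonneg fun i => by positivity

theorem ZD.N_anti (D : ZD p ρ ι) {σ σ' : ℝ} (hσ : 0 < σ) (h : σ ≤ σ') (y : ℝ) :
    D.N σ' y ≤ D.N σ y := by
  refine Summable.tsum_le_tsum (fun i => ?_) (D.N_summable (hσ.trans_le h) y) (D.N_summable hσ y)
  refine mul_le_mul_of_nonneg_left ?_ (Real.exp_pos _).le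
  apply Real.exp_le_exp.2
  have := abs_nonneg (y - D.s i)
  nlinarith

theorem ZD.N_le (D : ZD p ρ ι) {σ : ℝ} (hσ : 0 < σ) (y y' : ℝ) :
    D.N σ y ≤ Real.exp (σ * |y - y'|) * D.N σ y' := by
  unfold ZD.N
  rw [← tsum_mul_left]
  refine Summable.tsum_le_tsum (fun i => ?_) (D.N_summable hσ y)
    ((D.N_summable hσ y').mul_left _)
  rw [mul_left_comm]
  refine mul_le_mul_of_nonneg_left ?_ (Real.exp_pos _).le
  rw [← Real.exp_add]
  apply Real.exp_le_exp.2
  have h1 : |y' - D.s i| ≤ |y - D.s i| + |y - y'| := by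
    have := abs_sub_le y' y (D.s i)
    rw [abs_sub_comm y' y] at this
    linarith
  nlinarith

theorem ZD.N_cmp (D : ZD p ρ ι) {σ : ℝ} (hσ : 0 < σ) (Y : ℝ) : ∃ B : ℝ, ∀ y ≤ Y, D.N σ y ≤ B := by
  refine ⟨Real.exp (σ * Y) * ∑' i, Real.exp (-(ρ + σ) * D.s i), fun y hy => ?_⟩
  unfold ZD.N
  rw [← tsum_mul_left]
  refine Summable.tsum_le_tsum (fun i => ?_) (D.N_summable hσ y)
    ((D.sum (ρ + σ) (by linarith)).mul_left _)
  rw [← Real.exp_add, ← Real.exp_add]
  apply Real.exp_le_exp.2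
  have h1 : D.s i - Y ≤ |y - D.s i| := by
    have := neg_abs_le (y - D.s i)
    linarith
  nlinarith

/-- comparison of the averages with two rates, for bounds `w` of moderate growth -/
theorem zdt_N_cmp_rate (D : ZD p ρ ι) {σ σ' : ℝ} (hσ : 0 < σ) (hσ' : 0 < σ') {w : ℝ → ℝ}
    (hw : ∀ (y : ℝ) (k : ℤ), w (y + k) ≤ w y * (1 + |(k : ℝ)|)) (h : ∀ y, D.N σ y ≤ w y) :
    ∃ C : ℝ, 0 ≤ C ∧ ∀ y, D.N σ' y ≤ C * w y := by
  classical
  have hsum : Summable fun k : ℤ => Real.exp (-σ' * |(k : ℝ)|) * (1 + |(k : ℝ)|) := by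
    have hnat : Summable fun n : ℕ => Real.exp (-σ' * (n : ℝ)) * (1 + (n : ℝ)) := by
      have h1 : Summable fun n : ℕ => Real.exp (-σ' * (n : ℝ)) := by
        have h3 : (fun n : ℕ => Real.exp (-σ' * (n : ℝ))) = fun n : ℕ => (Real.exp (-σ')) ^ n := by
          funext n
          rw [← Real.exp_nat_mul]
          ring_nf
        rw [h3]
        exact summable_geometric_of_lt_one (Real.exp_pos _).le (Real.exp_lt_one_iff.2 (by linarith))
      have h2 : Summable fun n : ℕ => (n : ℝ) * Real.exp (-σ' * (n : ℝ)) := by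
        have h3 : (fun n : ℕ => (n : ℝ) * Real.exp (-σ' * (n : ℝ)))
            = fun n : ℕ => (n : ℝ) ^ 1 * (Real.exp (-σ')) ^ n := by
          funext n
          rw [← Real.exp_nat_mul, pow_one]
          ring_nf
        rw [h3]
        refine summable_pow_mul_geometric_of_norm_lt_one 1 ?_
        rw [Real.norm_eq_abs, abs_of_pos (Real.exp_pos _)]
        exact Real.exp_lt_one_iff.2 (by linarith)
      refine (h1.add h2).congr fun n => ?_
      ring
    rw [summable_int_iff_summable_nat_and_neg]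
    constructor
    · refine hnat.congr fun n => ?_
      simp
    · refine hnat.congr fun n => ?_
      simp
  set C0 : ℝ := Real.exp ((σ + σ') / 2) with hC0
  set S : ℝ := ∑' k : ℤ, Real.exp (-σ' * |(k : ℝ)|) * (1 + |(k : ℝ)|) with hS
  have hS0 : 0 ≤ S := tsum_nonneg fun k => by positivity
  refine ⟨C0 * S, by positivity, fun y => ?_⟩
  have hw0 : 0 ≤ w y := (D.N_nonneg σ y).trans (h y)
  refine Real.tsum_le_of_sum_le (fun i => by positivity) fun F => ?_
  -- nearest integer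
  let κ : ι → ℤ := fun i => round (D.s i - y)
  have hterm : ∀ i, Real.exp (-ρ * D.s i) * Real.exp (-σ' * |y - D.s i|) ≤
      C0 * (Real.exp (-σ' * |(κ i : ℝ)|) *
        (Real.exp (-ρ * D.s i) * Real.exp (-σ * |y + κ i - D.s i|))) := by
    intro i
    have e1 : C0 * (Real.exp (-σ' * |(κ i : ℝ)|) *
        (Real.exp (-ρ * D.s i) * Real.exp (-σ * |y + κ i - D.s i|))) =
        Real.exp (-ρ * D.s i) * (C0 * (Real.exp (-σ' * |(κ i : ℝ)|) *
          Real.exp (-σ * |y + κ i - D.s i|))) := by ring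
    rw [e1]
    refine mul_le_mul_of_nonneg_left ?_ (Real.exp_pos _).le
    rw [hC0, ← Real.exp_add, ← Real.exp_add]
    apply Real.exp_le_exp.2
    have hr : |D.s i - y - κ i| ≤ 1 / 2 := abs_sub_round (D.s i - y)
    have hr' : |y + κ i - D.s i| ≤ 1 / 2 := by
      rw [← abs_neg]
      have : -(y + κ i - D.s i) = D.s i - y - κ i := by ring
      rw [this]; exact hr
    have hk : |(κ i : ℝ)| ≤ |y - D.s i| + 1 / 2 := by
      have h3 : (κ i : ℝ) = (D.s i - y) - (D.s i - y - κ i) := by ring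
      have h4 := abs_sub (D.s i - y) (D.s i - y - κ i)
      rw [← h3, abs_sub_comm (D.s i) y] at h4
      linarith
    nlinarith
  calc ∑ i ∈ F, Real.exp (-ρ * D.s i) * Real.exp (-σ' * |y - D.s i|)
      ≤ ∑ i ∈ F, C0 * (Real.exp (-σ' * |(κ i : ℝ)|) *
        (Real.exp (-ρ * D.s i) * Real.exp (-σ * |y + κ i - D.s i|))) :=
        Finset.sum_le_sum fun i _ => hterm i
    _ = ∑ k ∈ F.image κ, ∑ i ∈ F with κ i = k, C0 * (Real.exp (-σ' * |(κ i : ℝ)|) *
        (Real.exp (-ρ * D.s i) * Real.exp (-σ * |y + κ i - D.s i|))) := by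
        rw [Finset.sum_image']
        intro i hi
        rfl
    _ ≤ ∑ k ∈ F.image κ, C0 * (Real.exp (-σ' * |(k : ℝ)|) * (w y * (1 + |(k : ℝ)|))) := by
        refine Finset.sum_le_sum fun k _ => ?_
        have e2 : ∑ i ∈ F with κ i = k, C0 * (Real.exp (-σ' * |(κ i : ℝ)|) *
            (Real.exp (-ρ * D.s i) * Real.exp (-σ * |y + κ i - D.s i|))) =
            C0 * (Real.exp (-σ' * |(k : ℝ)|) * ∑ i ∈ F with κ i = k,
              (Real.exp (-ρ * D.s i) * Real.exp (-σ * |y + k - D.s i|))) := by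
          rw [Finset.mul_sum, Finset.mul_sum]
          refine Finset.sum_congr rfl fun i hi => ?_
          rw [(Finset.mem_filter.1 hi).2]
        rw [e2]
        refine mul_le_mul_of_nonneg_left (mul_le_mul_of_nonneg_left ?_ (Real.exp_pos _).le)
          (Real.exp_pos _).le
        refine ((D.N_summable hσ (y + k)).sum_le_tsum _ (fun i _ => by positivity)).trans ?_
        exact (h (y + k)).trans (hw y k)
    _ = (C0 * w y) * ∑ k ∈ F.image κ, Real.exp (-σ' * |(k : ℝ)|) * (1 + |(k : ℝ)|) := by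
        rw [Finset.mul_sum]
        refine Finset.sum_congr rfl fun k _ => ?_
        ring
    _ ≤ (C0 * w y) * S := by
        refine mul_le_mul_of_nonneg_left ?_ (by positivity)
        exact hsum.sum_le_tsum _ (fun k _ => by positivity)
    _ = C0 * S * w y := by ring

theorem ZD.N_all (D : ZD p ρ ι) {σ σ' B : ℝ} (hσ : 0 < σ) (hσ' : 0 < σ')
    (h : ∀ y, D.N σ y ≤ B) : ∃ B', ∀ y, D.N σ' y ≤ B' := by
  have hB : 0 ≤ B := (D.N_nonneg σ 0).trans (h 0)
  obtain ⟨C, _, hC⟩ := zdt_N_cmp_rate D hσ hσ' (w := fun _ => B)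
    (fun y k => by
      have := abs_nonneg (k : ℝ)
      nlinarith) h
  exact ⟨C * B, hC⟩

theorem ZD.N_lin (D : ZD p ρ ι) {σ σ' B : ℝ} (hσ : 0 < σ) (hσ' : 0 < σ')
    (h : ∀ y, D.N σ y ≤ B * (1 + |y|)) : ∃ B', ∀ y, D.N σ' y ≤ B' * (1 + |y|) := by
  have hB : 0 ≤ B := by
    have := (D.N_nonneg σ 0).trans (h 0)
    simpa using this
  obtain ⟨C, _, hC⟩ := zdt_N_cmp_rate D hσ hσ' (w := fun y => B * (1 + |y|))
    (fun y k => by
      have h1 := abs_add_le y (k : ℝ)
      have h2 := abs_nonneg (k : ℝ)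
      have h3 := abs_nonneg y
      have h4 : 1 + |y + k| ≤ (1 + |y|) * (1 + |(k : ℝ)|) := by nlinarith
      calc B * (1 + |y + (k : ℝ)|) ≤ B * ((1 + |y|) * (1 + |(k : ℝ)|)) :=
            mul_le_mul_of_nonneg_left h4 hB
        _ = B * (1 + |y|) * (1 + |(k : ℝ)|) := by ring) h
  exact ⟨C * B, fun y => (hC y).trans_eq (by ring)⟩

theorem ZD.ae_ne (D : ZD p ρ ι) : ∀ᵐ y : ℝ, ∀ i, y ≠ D.s i := by
  have hc := D.countable
  have h := (Set.countable_range D.s).ae_notMem (volume : Measure ℝ)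
  filter_upwards [h] with y hy i hi
  exact hy ⟨i, hi.symm⟩

/-- the kernel in terms of the normalised kernel -/
theorem zdt_kp_eq (p : ℕ) (ρ u ψ : ℝ) : kp p u ψ = kn p ρ u ψ * Real.exp (ρ * u) := by
  unfold kn
  rw [mul_assoc, ← Real.exp_add]
  simp

theorem ZD.U_summable (D : ZD p ρ ι) (hp : p ≤ 1) (h1 : (p : ℝ) < ρ) (h2 : ρ < p + 1) {y : ℝ}
    (hy : ∀ i, y ≠ D.s i) (θ : ℝ) : Summable fun i => |kp p (y - D.s i) (θ - D.a i)| := by
  obtain ⟨C, hC, hpsi⟩ := psi_le hp h1 h2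
  have hs := (D.N_summable (sg_pos h1 h2) y).mul_left (Real.exp (ρ * y) * C)
  refine Summable.of_norm_bounded_eventually hs ?_
  have hf := D.finite_lt (y + 1)
  rw [eventually_cofinite]
  refine hf.subset ?_
  intro i hi
  simp only [mem_ofPred_eq] at hi ⊢
  by_contra hlt
  rw [not_lt] at hlt
  apply hi
  have hu : y - D.s i ≤ -1 := by linarith
  have hu1 : 1 ≤ |y - D.s i| := by
    rw [abs_of_nonpos (by linarith)]; linarith
  have h3 := abs_kn_le hp ρ (sub_ne_zero.2 (hy i)) (θ - D.a i)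
  have h4 := hpsi (y - D.s i)
  have h5 := Psi_nonneg p ρ (y - D.s i)
  have h6 : Psi p ρ (y - D.s i) ≤ C * Real.exp (-(sg p ρ) * |y - D.s i|) := by
    refine le_trans ?_ h4
    have : 1 ≤ |y - D.s i| + |y - D.s i| ^ 2 := by nlinarith [sq_nonneg |y - D.s i|]
    nlinarith
  rw [Real.norm_eq_abs, abs_abs, zdt_kp_eq p ρ, abs_mul, abs_of_pos (Real.exp_pos _)]
  calc |kn p ρ (y - D.s i) (θ - D.a i)| * Real.exp (ρ * (y - D.s i))
      ≤ (C * Real.exp (-(sg p ρ) * |y - D.s i|)) * Real.exp (ρ * (y - D.s i)) :=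
        mul_le_mul_of_nonneg_right (h3.trans h6) (Real.exp_pos _).le
    _ = Real.exp (ρ * y) * C * (Real.exp (-ρ * D.s i) * Real.exp (-(sg p ρ) * |y - D.s i|)) := by
        rw [show ρ * (y - D.s i) = ρ * y + -ρ * D.s i by ring, Real.exp_add]
        ring

theorem zdt_meas_kp (p : ℕ) (s ψ : ℝ) : Measurable fun y : ℝ => kp p (y - s) ψ := by
  have h := measurable_kn p 0
  have h2 : (fun y : ℝ => kp p (y - s) ψ) = fun y : ℝ => (fun x : ℝ × ℝ => kn p 0 x.1 x.2) (y - s, ψ) := by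
    funext y
    simp [kn]
  rw [h2]
  exact h.comp ((measurable_id.sub_const s).prodMk measurable_const)

theorem ZD.U_meas (D : ZD p ρ ι) (hp : p ≤ 1) (h1 : (p : ℝ) < ρ) (h2 : ρ < p + 1) (θ : ℝ) :
    AEStronglyMeasurable fun y => D.U y θ := by
  have hc := D.countable
  have h : AEMeasurable (fun y => D.U y θ) := by
    refine aemeasurable_of_tendsto_metrizable_ae (atTop : Filter (Finset ι))
      (f := fun F y => ∑ i ∈ F, kp p (y - D.s i) (θ - D.a i)) ?_ ?_
    · intro F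
      exact (Finset.measurable_sum F fun i _ => zdt_meas_kp p (D.s i) (θ - D.a i)).aemeasurable
    · filter_upwards [D.ae_ne] with y hy
      exact (D.U_summable hp h1 h2 hy θ).of_abs.hasSum
  exact h.aestronglyMeasurable

/-- upper bound of the potential by the density -/
theorem ZD.U_le (hp : p ≤ 1) (h1 : (p : ℝ) < ρ) (h2 : ρ < p + 1) :
    ∃ C : ℝ, 0 < C ∧ ∀ {ι : Type} (D : ZD p ρ ι) (w : ι → ℝ), (∀ i, 0 ≤ w i ∧ w i ≤ 1) →
      ∀ y θ : ℝ, (∀ i, y ≠ D.s i) →
        ∑' i, w i * kp p (y - D.s i) (θ - D.a i) ≤ C * Real.exp (ρ * y) * D.N (sg p ρ) y := by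
  obtain ⟨C, hC, hkn⟩ := kn_le hp h1 h2
  refine ⟨C, hC, fun {ι} D w hw y θ hy => ?_⟩
  unfold ZD.N
  rw [← tsum_mul_left]
  refine Summable.tsum_le_tsum (fun i => ?_) ?_ ((D.N_summable (sg_pos h1 h2) y).mul_left _)
  · have h3 := hkn (y - D.s i) (θ - D.a i)
    have h4 : kp p (y - D.s i) (θ - D.a i) ≤
        C * Real.exp (ρ * y) * (Real.exp (-ρ * D.s i) * Real.exp (-(sg p ρ) * |y - D.s i|)) := by
      rw [zdt_kp_eq p ρ]
      calc kn p ρ (y - D.s i) (θ - D.a i) * Real.exp (ρ * (y - D.s i))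
          ≤ (C * Real.exp (-(sg p ρ) * |y - D.s i|)) * Real.exp (ρ * (y - D.s i)) :=
            mul_le_mul_of_nonneg_right h3 (Real.exp_pos _).le
        _ = C * Real.exp (ρ * y) * (Real.exp (-ρ * D.s i) * Real.exp (-(sg p ρ) * |y - D.s i|)) := by
            rw [show ρ * (y - D.s i) = ρ * y + -ρ * D.s i by ring, Real.exp_add]
            ring
    have h5 : 0 ≤ C * Real.exp (ρ * y) *
        (Real.exp (-ρ * D.s i) * Real.exp (-(sg p ρ) * |y - D.s i|)) := by positivity
    have h6 := hw i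
    calc w i * kp p (y - D.s i) (θ - D.a i)
        ≤ w i * (C * Real.exp (ρ * y) *
          (Real.exp (-ρ * D.s i) * Real.exp (-(sg p ρ) * |y - D.s i|))) :=
          mul_le_mul_of_nonneg_left h4 h6.1
      _ ≤ 1 * (C * Real.exp (ρ * y) *
          (Real.exp (-ρ * D.s i) * Real.exp (-(sg p ρ) * |y - D.s i|))) :=
          mul_le_mul_of_nonneg_right h6.2 h5
      _ = _ := one_mul _
  · refine Summable.of_norm_bounded (D.U_summable hp h1 h2 hy θ) fun i => ?_
    rw [Real.norm_eq_abs, abs_mul, abs_of_nonneg (hw i).1]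
    calc w i * |kp p (y - D.s i) (θ - D.a i)| ≤ 1 * |kp p (y - D.s i) (θ - D.a i)| :=
          mul_le_mul_of_nonneg_right (hw i).2 (abs_nonneg _)
      _ = _ := one_mul _

/-- integrals of the kernel over bounded intervals decay exponentially in the place of the zero -/
theorem zdt_int_kn (hp : p ≤ 1) (h1 : (p : ℝ) < ρ) (h2 : ρ < p + 1) {Y y : ℝ} (hY : Y ≤ y) :
    ∃ A : ℝ, 0 ≤ A ∧ ∀ s ψ : ℝ, ∫ t in Y..y, |kn p ρ (t - s) ψ| ≤
      A * Real.exp (-(sg p ρ) * s) := by
  have hint : Integrable fun u : ℝ => Psi p ρ u * Real.exp (sg p ρ * |u|) := by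
    refine (integrable_psi hp h1 h2).mono' ?_ ?_
    · have hm : Measurable fun u : ℝ => Real.exp (sg p ρ * |u|) :=
        Real.measurable_exp.comp (measurable_norm.const_mul (sg p ρ))
      exact ((measurable_Psi p ρ).mul hm).aestronglyMeasurable
    · refine Eventually.of_forall fun u => ?_
      have h5 := Psi_nonneg p ρ u
      rw [Real.norm_eq_abs, abs_of_nonneg (by positivity)]
      have h6 : 1 ≤ (1 + |u|) ^ 2 := by nlinarith [abs_nonneg u]
      have h7 : 0 ≤ Psi p ρ u * Real.exp (sg p ρ * |u|) := by positivity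
      calc Psi p ρ u * Real.exp (sg p ρ * |u|) = 1 * (Psi p ρ u * Real.exp (sg p ρ * |u|)) := by ring
        _ ≤ (1 + |u|) ^ 2 * (Psi p ρ u * Real.exp (sg p ρ * |u|)) :=
            mul_le_mul_of_nonneg_right h6 h7
        _ = _ := by ring
  have hnn : 0 ≤ ∫ u : ℝ, Psi p ρ u * Real.exp (sg p ρ * |u|) :=
    integral_nonneg fun u => mul_nonneg (Psi_nonneg p ρ u) (Real.exp_pos _).le
  refine ⟨Real.exp (sg p ρ * y) * ∫ u : ℝ, Psi p ρ u * Real.exp (sg p ρ * |u|), by positivity,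
    fun s ψ => ?_⟩
  rw [intervalIntegral.integral_comp_sub_right (fun u => |kn p ρ u ψ|) s,
    intervalIntegral.integral_of_le (by linarith)]
  have hkint : IntegrableOn (fun u => |kn p ρ u ψ|) (Ioc (Y - s) (y - s)) :=
    (integrable_kn hp h1 h2 ψ).abs.integrableOn
  calc ∫ u in Ioc (Y - s) (y - s), |kn p ρ u ψ|
      ≤ ∫ u in Ioc (Y - s) (y - s), (Real.exp (sg p ρ * y) * Real.exp (-(sg p ρ) * s)) *
          (Psi p ρ u * Real.exp (sg p ρ * |u|)) := by
        refine setIntegral_mono_ae_restrict hkint (hint.const_mul _).integrableOn ?_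
        have hne : ∀ᵐ u : ℝ ∂(volume.restrict (Ioc (Y - s) (y - s))), u ≠ 0 :=
          ae_restrict_of_ae (Measure.ae_ne volume 0)
        filter_upwards [hne, ae_restrict_mem measurableSet_Ioc] with u hu hmem
        have h3 := abs_kn_le hp ρ hu ψ
        have h5 := Psi_nonneg p ρ u
        refine h3.trans ?_
        have h6 : 1 ≤ Real.exp (sg p ρ * y) * Real.exp (-(sg p ρ) * s) *
            Real.exp (sg p ρ * |u|) := by
          rw [← Real.exp_add, ← Real.exp_add]
          apply Real.one_le_exp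
          have h7 : u ≤ y - s := hmem.2
          have h8 := neg_abs_le u
          have h9 := sg_pos h1 h2
          have h10 : 0 ≤ sg p ρ * (y - s + |u|) := mul_nonneg h9.le (by linarith)
          linarith
        calc Psi p ρ u = 1 * Psi p ρ u := by ring
          _ ≤ (Real.exp (sg p ρ * y) * Real.exp (-(sg p ρ) * s) *
            Real.exp (sg p ρ * |u|)) * Psi p ρ u := mul_le_mul_of_nonneg_right h6 h5
          _ = _ := by ring
    _ = (Real.exp (sg p ρ * y) * Real.exp (-(sg p ρ) * s)) *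
          ∫ u in Ioc (Y - s) (y - s), Psi p ρ u * Real.exp (sg p ρ * |u|) :=
        integral_const_mul _ _
    _ ≤ (Real.exp (sg p ρ * y) * Real.exp (-(sg p ρ) * s)) *
          ∫ u : ℝ, Psi p ρ u * Real.exp (sg p ρ * |u|) := by
        refine mul_le_mul_of_nonneg_left ?_ (by positivity)
        exact setIntegral_le_integral hint (Eventually.of_forall fun u =>
          mul_nonneg (Psi_nonneg p ρ u) (Real.exp_pos _).le)
    _ = _ := by ring

/-- the integral of the potential over bounded intervals -/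
theorem ZD.U_int (D : ZD p ρ ι) (hp : p ≤ 1) (h1 : (p : ℝ) < ρ) (h2 : ρ < p + 1) (θ Y y : ℝ)
    (hY : Y ≤ y) : IntervalIntegrable (fun t => Real.exp (-ρ * t) * D.U t θ) volume Y y ∧
      (Summable fun i => Real.exp (-ρ * D.s i) * ∫ t in Y..y, |kn p ρ (t - D.s i) (θ - D.a i)|) ∧
      ∫ t in Y..y, Real.exp (-ρ * t) * D.U t θ =
        ∑' i, Real.exp (-ρ * D.s i) * ∫ t in Y..y, kn p ρ (t - D.s i) (θ - D.a i) := by
  have hc := D.countable
  obtain ⟨A, hA, hint⟩ := zdt_int_kn hp h1 h2 hY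
  have hsum : Summable fun i => Real.exp (-ρ * D.s i) *
      ∫ t in Y..y, |kn p ρ (t - D.s i) (θ - D.a i)| := by
    refine Summable.of_nonneg_of_le (fun i => ?_) (fun i => ?_)
      ((D.sum (ρ + sg p ρ) (by linarith [sg_pos h1 h2])).mul_left A)
    · exact mul_nonneg (Real.exp_pos _).le
        (intervalIntegral.integral_nonneg hY fun t _ => abs_nonneg _)
    · calc Real.exp (-ρ * D.s i) * ∫ t in Y..y, |kn p ρ (t - D.s i) (θ - D.a i)|
          ≤ Real.exp (-ρ * D.s i) * (A * Real.exp (-(sg p ρ) * D.s i)) :=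
            mul_le_mul_of_nonneg_left (hint _ _) (Real.exp_pos _).le
        _ = A * Real.exp (-(ρ + sg p ρ) * D.s i) := by
            rw [show -(ρ + sg p ρ) * D.s i = -ρ * D.s i + -(sg p ρ) * D.s i by ring, Real.exp_add]
            ring
  -- the summands
  let f : ι → ℝ → ℝ := fun i t => Real.exp (-ρ * D.s i) * kn p ρ (t - D.s i) (θ - D.a i)
  have hfint : ∀ i, Integrable (f i) := fun i =>
    ((integrable_kn hp h1 h2 (θ - D.a i)).comp_sub_right (D.s i)).const_mul _
  have hterm : ∀ i t, Real.exp (-ρ * t) * kp p (t - D.s i) (θ - D.a i) = f i t := by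
    intro i t
    simp only [f]
    rw [zdt_kp_eq p ρ, show ρ * (t - D.s i) = ρ * t + -ρ * D.s i by ring, Real.exp_add]
    have : Real.exp (-ρ * t) * Real.exp (ρ * t) = 1 := by
      rw [← Real.exp_add]; simp
    calc Real.exp (-ρ * t) * (kn p ρ (t - D.s i) (θ - D.a i) *
          (Real.exp (ρ * t) * Real.exp (-ρ * D.s i)))
        = (Real.exp (-ρ * t) * Real.exp (ρ * t)) * (Real.exp (-ρ * D.s i) *
            kn p ρ (t - D.s i) (θ - D.a i)) := by ring
      _ = _ := by rw [this, one_mul]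
  have hU : ∀ t, Real.exp (-ρ * t) * D.U t θ = ∑' i, f i t := by
    intro t
    unfold ZD.U
    rw [← tsum_mul_left]
    exact tsum_congr fun i => hterm i t
  have hnorm : ∀ i, ∫ t in Ioc Y y, ‖f i t‖ =
      Real.exp (-ρ * D.s i) * ∫ t in Y..y, |kn p ρ (t - D.s i) (θ - D.a i)| := by
    intro i
    rw [intervalIntegral.integral_of_le hY, ← integral_const_mul]
    refine integral_congr_ae (Eventually.of_forall fun t => ?_)
    simp only [f, Real.norm_eq_abs, abs_mul, abs_of_pos (Real.exp_pos _)]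
  have hsum' : Summable fun i => ∫ t in Ioc Y y, ‖f i t‖ := by
    refine hsum.congr fun i => ?_
    rw [hnorm i]
  have hfi : ∀ i, Integrable (f i) (volume.restrict (Ioc Y y)) := fun i => (hfint i).integrableOn
  refine ⟨?_, hsum, ?_⟩
  · rw [intervalIntegrable_iff_integrableOn_Ioc_of_le hY]
    have hmeas : AEStronglyMeasurable (fun t => Real.exp (-ρ * t) * D.U t θ)
        (volume.restrict (Ioc Y y)) := by
      have h3 : AEStronglyMeasurable (fun t : ℝ => Real.exp (-ρ * t)) volume :=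
        (by fun_prop : Continuous fun t : ℝ => Real.exp (-ρ * t)).aestronglyMeasurable
      exact (h3.mul (D.U_meas hp h1 h2 θ)).restrict
    refine ⟨hmeas, ?_⟩
    rw [hasFiniteIntegral_iff_enorm]
    calc ∫⁻ t in Ioc Y y, ‖Real.exp (-ρ * t) * D.U t θ‖ₑ
        ≤ ∫⁻ t in Ioc Y y, ∑' i, ‖f i t‖ₑ := by
          refine lintegral_mono_ae ?_
          filter_upwards [ae_restrict_of_ae D.ae_ne] with t ht
          rw [hU t]
          have hs : Summable fun i => ‖f i t‖ := by
            refine ((D.U_summable hp h1 h2 ht θ).mul_left (Real.exp (-ρ * t))).congr fun i => ?_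
            rw [← hterm i t, Real.norm_eq_abs, abs_mul, abs_of_pos (Real.exp_pos _)]
          exact enorm_tsum_le_tsum_enorm
      _ = ∑' i, ∫⁻ t in Ioc Y y, ‖f i t‖ₑ :=
          lintegral_tsum fun i => (hfi i).aestronglyMeasurable.enorm
      _ = ∑' i, ENNReal.ofReal (∫ t in Ioc Y y, ‖f i t‖) := by
          refine tsum_congr fun i => ?_
          rw [ofReal_integral_norm_eq_lintegral_enorm (hfi i)]
      _ = ENNReal.ofReal (∑' i, ∫ t in Ioc Y y, ‖f i t‖) :=
          (ENNReal.ofReal_tsum_of_nonneg (fun i => integral_nonneg fun t => norm_nonneg _)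
            hsum').symm
      _ < ⊤ := ENNReal.ofReal_lt_top
  · rw [intervalIntegral.integral_of_le hY]
    have h3 := integral_tsum_of_summable_integral_norm hfi hsum'
    simp_rw [hU]
    rw [← h3]
    refine tsum_congr fun i => ?_
    rw [intervalIntegral.integral_of_le hY, ← integral_const_mul]

end HBInf
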